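import Pool.Agent.P.MP_a9a441_nt.FU.Prob

/-!
Upper bounds for probabilities. `mu_le`: induction from the right (`List.reverseRecOn`).
`Pr_apex`: the map x ↦ (apex x, US x.2, DS x.2) is injective on paths (`mk_apex`).
`Pr_dist`: induction on h with `sum_words_snoc`: given a word with 2h letters, at most
(4h+1) π labels (p, p') spoil distinctness; so Pr ≤ 4 h^2 Γ / π ≤ 2 t^4 / P ≤ t^(-99).
-/

namespace Pool.Agent.P.MP_a9a441_nt.FU

open Finset Filter Pool.Agent.Lib.LargeSieve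
open scoped ComplexConjugate

namespace ApexAux

theorem dist_snoc {l : List Lb} {e : Lb} (h : Dist l) (h1 : e.1 ∉ DS l ++ US l)
    (h2 : e.2 ∉ DS l ++ US l) (h3 : e.1 ≠ e.2) : Dist (l ++ [e]) := by
  have hp : (DS (l ++ [e]) ++ US (l ++ [e])).Perm (e.1 :: e.2 :: (DS l ++ US l)) := by
    simp only [DS, US, List.map_append, List.map_cons, List.map_nil, List.append_assoc,
      List.singleton_append]
    refine List.perm_middle.trans (List.Perm.cons _ ?_)
    rw [← List.append_assoc]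
    exact List.perm_append_singleton _ _
  refine hp.nodup_iff.2 (List.nodup_cons.2 ⟨?_, List.nodup_cons.2 ⟨h2, h⟩⟩)
  rw [List.mem_cons, not_or]
  exact ⟨h3, h1⟩

open Classical in
theorem card_bad (Ps : Finset ℕ) {l : List Lb} (h : Dist l) :
    ((Ps ×ˢ Ps).filter fun e : Lb => ¬ Dist (l ++ [e])).card ≤ (4 * l.length + 1) * Ps.card := by
  have hT : (DS l ++ US l).toFinset.card ≤ 2 * l.length := by
    refine (List.toFinset_card_le _).trans ?_
    simp only [DS, US, List.length_append, List.length_map]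
    omega
  have hs : ((Ps ×ˢ Ps).filter fun e : Lb => ¬ Dist (l ++ [e])) ⊆
      (DS l ++ US l).toFinset ×ˢ Ps ∪ Ps ×ˢ (DS l ++ US l).toFinset ∪
        Ps.image fun p => (p, p) := by
    intro e he
    rw [mem_filter, mem_product] at he
    by_contra k
    simp only [mem_union, mem_product, List.mem_toFinset, mem_image, not_or] at k
    exact he.2 (dist_snoc h (fun k1 => k.1.1 ⟨k1, he.1.2⟩) (fun k1 => k.1.2 ⟨he.1.1, k1⟩)
      fun k1 => k.2 ⟨e.1, he.1.1, Prod.ext rfl k1⟩)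
  refine (card_le_card hs).trans ((card_union_le _ _).trans ?_)
  have h1 := card_union_le ((DS l ++ US l).toFinset ×ˢ Ps) (Ps ×ˢ (DS l ++ US l).toFinset)
  rw [card_product, card_product] at h1
  have h2 : (Ps.image fun p => (p, p)).card ≤ Ps.card := card_image_le
  have h3 := Nat.mul_le_mul_right Ps.card hT
  nlinarith

variable {S : Sys} (C : Chain S)

open Classical in
theorem Pr_eq (h : ℕ) (F : Pth → Prop) :
    C.Pr h F = ∑ y ∈ S.Y, ∑ l ∈ words S.A h, if F (y, l) then C.μ (y, l) else 0 := by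
  rw [Chain.Pr, sum_filter, Sys.paths, sum_product]

open Classical in
theorem Pr_bad (h : ℕ) : C.Pr h (fun x => ¬ Dist x.2) =
    ∑ y ∈ S.Y, ∑ l ∈ words S.A h, if ¬ Dist l then C.μ (y, l) else 0 := by
  rw [Pr_eq]
  refine sum_congr rfl fun y _ => sum_congr rfl fun l _ => ?_
  by_cases k : Dist l
  · rw [if_neg (not_not.2 k), if_neg (not_not.2 k)]
  · rw [if_pos k, if_pos k]

open Classical in
theorem step_bad (y : ℤ) (l : List Lb) :
    (∑ e ∈ S.A, if ¬ Dist (l ++ [e]) then C.μ (y, l ++ [e]) else 0) ≤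
      (if ¬ Dist l then C.μ (y, l) else 0) +
        (4 * l.length + 1) * (C.Γ / S.Ps.card) * C.μ (y, l) := by
  have hπ : (0 : ℝ) < S.Ps.card := by exact_mod_cast S.card_pos
  have hΓ : 0 ≤ C.Γ := zero_le_one.trans C.Γ1
  have h0 := C.nonneg (y, l)
  by_cases h : Dist l
  · rw [if_neg (not_not.2 h), zero_add, ← sum_filter]
    refine (sum_le_card_nsmul _ _ _ fun e _ => C.step y l e).trans ?_
    have h1 : (((S.A.filter fun e : Lb => ¬ Dist (l ++ [e])).card : ℕ) : ℝ) ≤
        (4 * l.length + 1) * S.Ps.card := by exact_mod_cast card_bad S.Ps h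
    rw [nsmul_eq_mul]
    refine (mul_le_mul_of_nonneg_right h1 (by positivity)).trans (le_of_eq ?_)
    field_simp
  · rw [if_pos h]
    refine le_trans ?_ (le_add_of_nonneg_right (by positivity))
    rw [← C.snoc y l]
    refine sum_le_sum fun e _ => ?_
    split_ifs
    exacts [C.nonneg _, le_rfl]

theorem dist_le (h : ℕ) : C.Pr h (fun x => ¬ Dist x.2) ≤ 2 * h ^ 2 * (C.Γ / S.Ps.card) := by
  classical
  have hq : 0 ≤ C.Γ / S.Ps.card := div_nonneg (zero_le_one.trans C.Γ1) (Nat.cast_nonneg _)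
  induction h with
  | zero =>
    rw [Pr_eq]
    simp [words, Dist, DS, US]
  | succ h ih =>
    have h1 := C.Pr_true h
    rw [Pr_eq] at h1
    rw [Pr_bad] at ih ⊢
    simp only [if_true] at h1
    have h2 : (∑ y ∈ S.Y, ∑ l ∈ words S.A (h + 1), if ¬ Dist l then C.μ (y, l) else 0) ≤
        ∑ y ∈ S.Y, ∑ l ∈ words S.A h, ((if ¬ Dist l then C.μ (y, l) else 0) +
          (4 * h + 1) * (C.Γ / S.Ps.card) * C.μ (y, l)) := by
      refine sum_le_sum fun y _ => ?_
      rw [sum_words_snoc]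
      refine sum_le_sum fun l hl => ?_
      have h3 := step_bad C y l
      rwa [(mem_words.1 hl).1] at h3
    simp only [sum_add_distrib, ← mul_sum, h1] at h2
    push_cast
    have h4 : 2 * (h : ℝ) ^ 2 * (C.Γ / S.Ps.card) + (4 * h + 1) * (C.Γ / S.Ps.card) * 1 ≤
        2 * ((h : ℝ) + 1) ^ 2 * (C.Γ / S.Ps.card) := by nlinarith
    linarith

end ApexAux

namespace Chain

variable {S : Sys} (C : Chain S)

theorem mu_le (x : Pth) :
    C.μ x ≤ C.Γ ^ (x.2.length + 1) / (S.N * (S.Ps.card : ℝ) ^ (2 * x.2.length)) := by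
  obtain ⟨y, l⟩ := x
  have hπ : (0 : ℝ) < S.Ps.card := by exact_mod_cast S.card_pos
  have hN : (0 : ℝ) < S.N := by exact_mod_cast S.hN
  have hΓ : 0 ≤ C.Γ := zero_le_one.trans C.Γ1
  induction l using List.reverseRecOn with
  | nil => simpa using C.init y
  | append_singleton l e ih =>
    refine (C.step y l e).trans ((mul_le_mul_of_nonneg_right ih (by positivity)).trans
      (le_of_eq ?_))
    simp only [List.length_append, List.length_singleton]
    field_simp
    ring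

open Classical in
theorem Pr_apex (h : ℕ) (F : Pth → Prop) :
    C.Pr h F ≤ C.Γ ^ (h + 1) / (S.N * (S.Ps.card : ℝ) ^ (2 * h)) *
      ((S.Zr h ×ˢ words S.Ps h ×ˢ words S.Ps h).filter
        fun w => F (mkp S.a w.1 w.2.1 w.2.2)).card := by
  have hΓ : 0 ≤ C.Γ := zero_le_one.trans C.Γ1
  have h1 : ((S.paths h).filter F).card ≤ ((S.Zr h ×ˢ words S.Ps h ×ˢ words S.Ps h).filter
      fun w => F (mkp S.a w.1 w.2.1 w.2.2)).card := by
    refine card_le_card_of_injOn (fun x => (apex S.a x, US x.2, DS x.2)) (fun x hx => ?_)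
      fun x _ x' _ e => ?_
    · rw [mem_coe, mem_filter] at hx
      obtain ⟨-, k1, k2, k3⟩ := Sys.mem_paths.1 hx.1
      rw [mem_coe, mem_filter, mem_product, mem_product, mem_words, mem_words]
      refine ⟨⟨Sys.apex_mem hx.1, ⟨?_, k2⟩, ?_, k3⟩, ?_⟩
      · exact (List.length_map _).trans k1
      · exact (List.length_map _).trans k1
      · rw [mk_apex]
        exact hx.2
    · simp only [Prod.mk.injEq] at e
      rw [← mk_apex (a := S.a) x, ← mk_apex (a := S.a) x', e.1, e.2.1, e.2.2]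
  refine (sum_le_card_nsmul _ _ (C.Γ ^ (h + 1) / (S.N * (S.Ps.card : ℝ) ^ (2 * h)))
    fun x hx => ?_).trans ?_
  · have h2 := C.mu_le x
    rwa [(Sys.mem_paths.1 (mem_filter.1 hx).1).2.1] at h2
  · rw [nsmul_eq_mul, mul_comm]
    exact mul_le_mul_of_nonneg_left (by exact_mod_cast h1) (by positivity)

theorem Pr_dist {h : ℕ} (hh : h ≤ S.t) : C.Pr h (fun x => ¬ Dist x.2) ≤ 1 / (S.t : ℝ) ^ 99 := by
  have hπ : (0 : ℝ) < S.Ps.card := by exact_mod_cast S.card_pos
  have ht : (10 : ℝ) ≤ S.t := by exact_mod_cast S.ht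
  have h1 : (S.t : ℝ) ^ 1000 ≤ S.P := by exact_mod_cast S.htP
  have h2 : 2 * (S.P : ℝ) ≤ S.t * S.Ps.card := by exact_mod_cast S.hπ
  have h3 : (h : ℝ) ≤ S.t := by exact_mod_cast hh
  have h4 : (S.t : ℝ) ^ 103 ≤ (S.t : ℝ) ^ 1000 := pow_le_pow_right₀ (by linarith) (by norm_num)
  have h5 : (h : ℝ) ^ 2 ≤ (S.t : ℝ) ^ 2 := pow_le_pow_left₀ (Nat.cast_nonneg _) h3 2
  have h6 : 2 * (S.t : ℝ) ^ 102 ≤ S.Ps.card := by
    refine le_of_mul_le_mul_left (a := (S.t : ℝ)) ?_ (by linarith)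
    have h7 : (S.t : ℝ) * (2 * (S.t : ℝ) ^ 102) = 2 * (S.t : ℝ) ^ 103 := by ring
    linarith
  refine (ApexAux.dist_le C h).trans ?_
  have h7 : (h : ℝ) ^ 2 * C.Γ ≤ (S.t : ℝ) ^ 2 * S.t :=
    mul_le_mul h5 C.Γt (zero_le_one.trans C.Γ1) (by positivity)
  have h8 : (0 : ℝ) < (S.t : ℝ) ^ 99 := by positivity
  rw [← mul_div_assoc, div_le_div_iff₀ hπ h8]
  have h9 := mul_le_mul_of_nonneg_right h7 h8.le
  have h10 : (S.t : ℝ) ^ 2 * S.t * (S.t : ℝ) ^ 99 = (S.t : ℝ) ^ 102 := by ring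
  linarith

end Chain

end Pool.Agent.P.MP_a9a441_nt.FU
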