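import Pool.Agent.P.MP_a9a441_nt.FU.Defs

/-!
Active primes and the arithmetic of a four-cycle. `act_frac`: for distinct primes, the product V of
the letters dividing m divides m, so m / prod U = (m / V) / (product of the active letters).
`four_cycle`: the sum is a rational number whose denominator divides a product of at most 4 n
primes below 2P, so it vanishes; multiply by the four products and reduce modulo p, using that p
occurs once in U₁ and not in U₂, D₁, D₂.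
-/

namespace Pool.Agent.P.MP_a9a441_nt.FU

open Finset Filter Pool.Agent.Lib.LargeSieve
open scoped ComplexConjugate

namespace ArithAux

theorem act_eq (U : List ℕ) (m : ℤ) :
    act U m = U.countP fun p : ℕ => decide (¬ (p : ℤ) ∣ m) := by
  have h : ∀ V : List ℕ, (V >>= fun a => pure (a : ℤ)) = V.map fun a : ℕ => (a : ℤ) := by
    intro V
    induction V with
    | nil => rfl
    | cons p V ih =>
      rw [List.map_cons, ← ih]
      rfl
  have h2 : act U m = List.countP (fun p : ℤ => decide (¬ p ∣ m))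
      (U >>= fun a => pure (a : ℤ)) := rfl
  rw [h2, h, List.countP_map]
  rfl

end ArithAux

theorem act_le_length (U : List ℕ) (m : ℤ) : act U m ≤ U.length := by
  rw [ArithAux.act_eq]
  exact List.countP_le_length

theorem act_add_mul (U : List ℕ) (m j : ℤ) : act U (m + j * (U.prod : ℕ)) = act U m := by
  simp only [ArithAux.act_eq]
  refine List.countP_congr fun p hp => ?_
  have h : (p : ℤ) ∣ j * (U.prod : ℕ) :=
    Dvd.dvd.mul_left (Int.natCast_dvd_natCast.2 (List.dvd_prod hp)) j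
  simp only [decide_eq_true_eq]
  rw [dvd_add_left h]

theorem act_sub_le (U : List ℕ) (m m' ζ : ℤ) :
    act U (m - m') ≤ act U (m - ζ) + act U (m' - ζ) := by
  simp only [ArithAux.act_eq]
  induction U with
  | nil => simp
  | cons p U ih =>
    simp only [List.countP_cons, decide_eq_true_eq]
    by_cases h1 : (p : ℤ) ∣ m - ζ
    · by_cases h2 : (p : ℤ) ∣ m' - ζ
      · have h3 : (p : ℤ) ∣ m - m' := by
          have := dvd_sub h1 h2
          rwa [show m - ζ - (m' - ζ) = m - m' by ring] at this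
        rw [if_neg (not_not.2 h1), if_neg (not_not.2 h2), if_neg (not_not.2 h3)]
        omega
      · rw [if_pos h2]
        split_ifs <;> omega
    · rw [if_pos h1]
      split_ifs <;> omega

theorem act_append (U V : List ℕ) (m : ℤ) : act (U ++ V) m = act U m + act V m := by
  simp only [ArithAux.act_eq]
  exact List.countP_append

theorem act_reverse (U : List ℕ) (m : ℤ) : act U.reverse m = act U m := by
  simp only [ArithAux.act_eq]
  exact List.countP_reverse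

theorem act_frac {U : List ℕ} {B : ℕ} (hU : ∀ p ∈ U, p.Prime ∧ p ≤ B) (hn : U.Nodup) (m : ℤ) :
    ∃ (k : ℤ) (d : ℕ), 0 < d ∧ d ≤ B ^ act U m ∧ (m : ℚ) / (U.prod : ℕ) = k / d := by
  induction U generalizing m with
  | nil => exact ⟨m, 1, one_pos, by simp [act], by simp⟩
  | cons p U ih =>
    have hp := hU p (List.mem_cons_self ..)
    have hU' : ∀ q ∈ U, q.Prime ∧ q ≤ B := fun q hq => hU q (List.mem_cons_of_mem _ hq)
    have hn' := List.nodup_cons.1 hn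
    have hp0 : (p : ℚ) ≠ 0 := by exact_mod_cast hp.1.ne_zero
    by_cases h : (p : ℤ) ∣ m
    · obtain ⟨m', rfl⟩ := h
      obtain ⟨k, d, hd, hle, he⟩ := ih hU' hn'.2 m'
      have ha : act (p :: U) (p * m') = act U m' := by
        simp only [ArithAux.act_eq]
        rw [List.countP_cons_of_neg (by simp)]
        refine List.countP_congr fun q hq => ?_
        have hq' := (hU' q hq).1
        have hne : q ≠ p := fun e => hn'.1 (e ▸ hq)
        have hqp : ¬ (q : ℤ) ∣ (p : ℤ) := by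
          rw [Int.natCast_dvd_natCast]
          intro hd
          exact hne ((Nat.prime_dvd_prime_iff_eq hq' hp.1).1 hd)
        simp only [decide_eq_true_eq]
        rw [(Nat.prime_iff_prime_int.1 hq').dvd_mul]
        tauto
      refine ⟨k, d, hd, by rwa [ha], ?_⟩
      rw [← he, List.prod_cons]
      push_cast
      rw [mul_div_mul_left _ _ hp0]
    · obtain ⟨k, d, hd, hle, he⟩ := ih hU' hn'.2 m
      have ha : act (p :: U) m = act U m + 1 := by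
        simp only [ArithAux.act_eq]
        rw [List.countP_cons_of_pos (by simpa using h)]
      refine ⟨k, d * p, Nat.mul_pos hd hp.1.pos, ?_, ?_⟩
      · rw [ha, pow_succ]
        exact Nat.mul_le_mul hle hp.2
      · rw [List.prod_cons, Nat.cast_mul, Nat.cast_mul, mul_comm (p : ℚ), ← div_div, he, div_div]

theorem four_cycle {U₁ U₂ D₁ D₂ : List ℕ} {B n : ℕ} (hB : 1 ≤ B)
    (h1 : ∀ p ∈ U₁, p.Prime ∧ p ≤ B) (h2 : ∀ p ∈ U₂, p.Prime ∧ p ≤ B)
    (h3 : ∀ p ∈ D₁, p.Prime ∧ p ≤ B) (h4 : ∀ p ∈ D₂, p.Prime ∧ p ≤ B)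
    (n1 : U₁.Nodup) (n2 : U₂.Nodup) (n3 : D₁.Nodup) (n4 : D₂.Nodup)
    (d1 : ∀ p ∈ U₁, p ∉ D₁) (d2 : ∀ p ∈ U₁, p ∉ D₂) {A₁ A₂ B₁ B₂ : ℤ}
    (a1 : act U₁ A₁ ≤ n) (a2 : act U₂ A₂ ≤ n) (a3 : act D₁ B₁ ≤ n) (a4 : act D₂ B₂ ≤ n)
    (hs : |(A₁ : ℝ) / (U₁.prod : ℕ) - A₂ / (U₂.prod : ℕ) - B₁ / (D₁.prod : ℕ) +
      B₂ / (D₂.prod : ℕ)| * (B : ℝ) ^ (4 * n) < 1) :
    ∀ p ∈ U₁, ¬ (p : ℤ) ∣ A₁ → p ∈ U₂ := by
  intro p hp hA
  obtain ⟨k₁, e₁, p₁, l₁, q₁⟩ := act_frac h1 n1 A₁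
  obtain ⟨k₂, e₂, p₂, l₂, q₂⟩ := act_frac h2 n2 A₂
  obtain ⟨k₃, e₃, p₃, l₃, q₃⟩ := act_frac h3 n3 B₁
  obtain ⟨k₄, e₄, p₄, l₄, q₄⟩ := act_frac h4 n4 B₂
  have l₁' : e₁ ≤ B ^ n := l₁.trans (Nat.pow_le_pow_right hB a1)
  have l₂' : e₂ ≤ B ^ n := l₂.trans (Nat.pow_le_pow_right hB a2)
  have l₃' : e₃ ≤ B ^ n := l₃.trans (Nat.pow_le_pow_right hB a3)
  have l₄' : e₄ ≤ B ^ n := l₄.trans (Nat.pow_le_pow_right hB a4)
  have hle : e₁ * e₂ * e₃ * e₄ ≤ B ^ (4 * n) := by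
    rw [show B ^ (4 * n) = B ^ n * B ^ n * B ^ n * B ^ n by ring]
    exact Nat.mul_le_mul (Nat.mul_le_mul (Nat.mul_le_mul l₁' l₂') l₃') l₄'
  have hsQ : |(A₁ : ℚ) / (U₁.prod : ℕ) - A₂ / (U₂.prod : ℕ) - B₁ / (D₁.prod : ℕ) +
      B₂ / (D₂.prod : ℕ)| * (B : ℚ) ^ (4 * n) < 1 := by
    have : ((|(A₁ : ℚ) / (U₁.prod : ℕ) - A₂ / (U₂.prod : ℕ) - B₁ / (D₁.prod : ℕ) +
      B₂ / (D₂.prod : ℕ)| * (B : ℚ) ^ (4 * n) : ℚ) : ℝ) < ((1 : ℚ) : ℝ) := by
      simpa only [Rat.cast_mul, Rat.cast_abs, Rat.cast_add, Rat.cast_sub, Rat.cast_div,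
        Rat.cast_pow, Rat.cast_natCast, Rat.cast_intCast, Rat.cast_one] using hs
    exact Rat.cast_lt.1 this
  have e1 : (0 : ℚ) < e₁ := by exact_mod_cast p₁
  have e2 : (0 : ℚ) < e₂ := by exact_mod_cast p₂
  have e3 : (0 : ℚ) < e₃ := by exact_mod_cast p₃
  have e4 : (0 : ℚ) < e₄ := by exact_mod_cast p₄
  obtain ⟨N, hN⟩ : ∃ N : ℤ, N = k₁ * e₂ * e₃ * e₄ - k₂ * e₁ * e₃ * e₄ - k₃ * e₁ * e₂ * e₄ +
    k₄ * e₁ * e₂ * e₃ := ⟨_, rfl⟩
  have hsum : (A₁ : ℚ) / (U₁.prod : ℕ) - A₂ / (U₂.prod : ℕ) - B₁ / (D₁.prod : ℕ) +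
      B₂ / (D₂.prod : ℕ) = N / ((e₁ : ℚ) * e₂ * e₃ * e₄) := by
    rw [q₁, q₂, q₃, q₄, hN]
    push_cast
    field_simp
  have hE : (0 : ℚ) < (e₁ : ℚ) * e₂ * e₃ * e₄ := by positivity
  have hN0 : N = 0 := by
    by_contra hne
    have h1' : (1 : ℚ) ≤ |(N : ℚ)| := by
      have : (1 : ℤ) ≤ |N| := Int.one_le_abs hne
      exact_mod_cast this
    have hle' : (e₁ : ℚ) * e₂ * e₃ * e₄ ≤ (B : ℚ) ^ (4 * n) := by exact_mod_cast hle
    rw [hsum, abs_div, abs_of_pos hE, div_mul_eq_mul_div, div_lt_one hE] at hsQ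
    nlinarith
  have pos : ∀ U : List ℕ, (∀ q ∈ U, q.Prime ∧ q ≤ B) → ((U.prod : ℕ) : ℚ) ≠ 0 := by
    intro U hU
    have : U.prod ≠ 0 := List.prod_ne_zero fun h0 => (hU 0 h0).1.ne_zero rfl
    exact_mod_cast this
  have u1 := pos U₁ h1
  have u2 := pos U₂ h2
  have u3 := pos D₁ h3
  have u4 := pos D₂ h4
  rw [hN0, Int.cast_zero, zero_div] at hsum
  obtain ⟨a, ha⟩ : ∃ a : ℕ, a = U₁.prod := ⟨_, rfl⟩
  obtain ⟨b, hb⟩ : ∃ a : ℕ, a = U₂.prod := ⟨_, rfl⟩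
  obtain ⟨c, hc⟩ : ∃ a : ℕ, a = D₁.prod := ⟨_, rfl⟩
  obtain ⟨d, hd⟩ : ∃ a : ℕ, a = D₂.prod := ⟨_, rfl⟩
  rw [← ha] at u1
  rw [← hb] at u2
  rw [← hc] at u3
  rw [← hd] at u4
  rw [← ha, ← hb, ← hc, ← hd] at hsum
  have hZ : A₁ * b * c * d = a * (A₂ * c * d + B₁ * b * d - B₂ * b * c) := by
    have hQ : (A₁ : ℚ) * b * c * d = a * (A₂ * c * d + B₁ * b * d - B₂ * b * c) := by
      have h' : (A₁ : ℚ) * b * c * d - a * (A₂ * c * d + B₁ * b * d - B₂ * b * c) =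
          ((A₁ : ℚ) / a - A₂ / b - B₁ / c + B₂ / d) * (a * b * c * d) := by
        field_simp
        ring
      rw [hsum, zero_mul] at h'
      exact sub_eq_zero.1 h'
    exact_mod_cast hQ
  have hpp := (h1 p hp).1
  have hpZ : Prime (p : ℤ) := Nat.prime_iff_prime_int.1 hpp
  have hdv : (p : ℤ) ∣ A₁ * b * c * d := by
    rw [hZ]
    exact Dvd.dvd.mul_right (Int.natCast_dvd_natCast.2 (ha ▸ List.dvd_prod hp)) _
  have mem : ∀ U : List ℕ, (∀ q ∈ U, q.Prime ∧ q ≤ B) → (p : ℤ) ∣ ((U.prod : ℕ) : ℤ) → p ∈ U := by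
    intro U hU h
    rw [Int.natCast_dvd_natCast] at h
    obtain ⟨q, hq, hpq⟩ := (Prime.dvd_prod_iff hpp.prime).1 h
    rwa [(Nat.prime_dvd_prime_iff_eq hpp (hU q hq).1).1 hpq]
  rcases hpZ.dvd_or_dvd hdv with h | h
  · rcases hpZ.dvd_or_dvd h with h | h
    · rcases hpZ.dvd_or_dvd h with h | h
      · exact absurd h hA
      · exact mem U₂ h2 (hb ▸ h)
    · exact absurd (mem D₁ h3 (hc ▸ h)) (d1 p hp)
  · exact absurd (mem D₂ h4 (hd ▸ h)) (d2 p hp)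

end Pool.Agent.P.MP_a9a441_nt.FU
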