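import Pool.Agent.P.MP_a9a441_nt.FU.Defs

/-!
Basic facts on `lam`, `Iv`, `Sm`, `ee`, `ap`.
Hints: `ArithmeticFunction.liouville_apply_mul`, `Nat.floor_lt`, `Nat.le_floor_iff`;
exp t - 1 ≤ 2 t on [0, 1]; for `Sm_shift` write both sums as differences of the partial sums
over `Ioc 0 ⌊·⌋₊`.
-/

namespace Pool.Agent.P.MP_a9a441_nt.FU

open Finset Filter Pool.Agent.Lib.LargeSieve
open scoped ComplexConjugate

theorem lam_zero : lam 0 = 0 := by
  simp [lam]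

theorem lam_one : lam 1 = 1 := by
  simp [lam, ArithmeticFunction.liouville_apply_one]

theorem lam_mul (m n : ℕ) : lam (m * n) = lam m * lam n := by
  simp [lam, ArithmeticFunction.liouville_apply_mul]

theorem lam_prime {p : ℕ} (hp : p.Prime) : lam p = -1 := by
  simp [lam, ArithmeticFunction.liouville_apply hp.ne_zero,
    ArithmeticFunction.cardFactors_apply_prime hp]

theorem lam_eq {n : ℕ} (hn : n ≠ 0) : lam n = (-1) ^ (Nat.primeFactorsList n).length := by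
  simp [lam, ArithmeticFunction.liouville_apply hn, ArithmeticFunction.cardFactors_apply]

theorem norm_lam_le (n : ℕ) : ‖lam n‖ ≤ 1 := by
  by_cases hn : n = 0
  · subst hn; simp [lam_zero]
  · rw [lam_eq hn]; simp

namespace BasAux

theorem norm_sum_le_card (S : Finset ℕ) (α : ℝ) :
    ‖∑ n ∈ S, lam n * ee (-(α * n))‖ ≤ (S.card : ℝ) := by
  refine (norm_sum_le _ _).trans ?_
  have h : ∀ n ∈ S, ‖lam n * ee (-(α * n))‖ ≤ 1 := by
    intro n _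
    rw [norm_mul, norm_ee, mul_one]
    exact norm_lam_le n
  simpa using sum_le_card_nsmul S _ 1 h

theorem sum_inv_tel {n b : ℕ} (hn : 1 ≤ n) (h : n ≤ b) :
    ∑ m ∈ Ioc n b, (1 : ℝ) / m ≤ Real.log b - Real.log n := by
  induction b, h using Nat.le_induction with
  | base => simp
  | succ b hb ih =>
    rw [sum_Ioc_succ_top hb]
    have hb0 : (0 : ℝ) < b := by exact_mod_cast (by omega : 0 < b)
    have hb1 : (0 : ℝ) < ((b + 1 : ℕ) : ℝ) := by positivity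
    have h1 := Real.log_le_sub_one_of_pos (div_pos hb0 hb1)
    rw [Real.log_div hb0.ne' hb1.ne'] at h1
    have h2 : (b : ℝ) / ((b + 1 : ℕ) : ℝ) - 1 = -(1 / ((b + 1 : ℕ) : ℝ)) := by
      field_simp
      push_cast
      ring
    linarith

end BasAux

theorem mem_Pj {j p : ℕ} : p ∈ Pj j ↔ p.Prime ∧ 2 ^ j ≤ p ∧ p < 2 * 2 ^ j := by
  unfold Pj
  rw [mem_filter, mem_Ico, pow_succ, mul_comm]
  tauto

theorem exp_sub_one_le {t : ℝ} (h0 : 0 ≤ t) (h1 : t ≤ 1) : Real.exp t - 1 ≤ 2 * t := by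
  have h := Real.abs_exp_sub_one_le (x := t) (by rw [abs_of_nonneg h0]; exact h1)
  rw [abs_of_nonneg h0] at h
  exact (le_abs_self _).trans h

theorem mem_Iv {x θ : ℝ} (hx : 0 ≤ x) {n : ℕ} : n ∈ Iv x θ ↔ x < n ∧ (n : ℝ) ≤ x * Real.exp θ := by
  unfold Iv
  rw [mem_Ioc, Nat.floor_lt hx, Nat.le_floor_iff (by positivity)]

theorem card_Ioc_floor_le {u v : ℝ} (hu : 0 ≤ u) (huv : u ≤ v) :
    ((Ioc ⌊u⌋₊ ⌊v⌋₊).card : ℝ) ≤ v - u + 1 := by
  rw [Nat.card_Ioc, Nat.cast_sub (Nat.floor_le_floor huv)]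
  have h1 := Nat.floor_le (hu.trans huv)
  have h2 := Nat.lt_floor_add_one u
  linarith

theorem card_Iv_le {x θ : ℝ} (hx : 0 ≤ x) (h0 : 0 ≤ θ) (h1 : θ ≤ 1) :
    ((Iv x θ).card : ℝ) ≤ 2 * (x * θ) + 1 := by
  have h2 := exp_sub_one_le h0 h1
  have h3 : 1 ≤ Real.exp θ := Real.one_le_exp h0
  have h := card_Ioc_floor_le (u := x) (v := x * Real.exp θ) hx (by nlinarith)
  unfold Iv
  nlinarith

theorem norm_Sm_le {x θ : ℝ} (hx : 0 ≤ x) (h0 : 0 ≤ θ) (h1 : θ ≤ 1) (α : ℝ) :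
    ‖Sm x θ α‖ ≤ 2 * (x * θ) + 1 := by
  exact (BasAux.norm_sum_le_card _ α).trans (card_Iv_le hx h0 h1)

theorem Sm_shift {x x' θ ϑ : ℝ} (hx : 0 < x) (h1 : x ≤ x') (h2 : x' ≤ x * Real.exp ϑ)
    (h0 : 0 ≤ θ) (hθ : θ ≤ 1) (hϑ : ϑ ≤ 1) (α : ℝ) :
    ‖Sm x θ α - Sm x' θ α‖ ≤ 8 * ϑ * x + 2 := by
  have hx' : 0 < x' := hx.trans_le h1
  have e1 : 1 ≤ Real.exp θ := Real.one_le_exp h0
  have e3 : Real.exp θ ≤ 3 := by have := exp_sub_one_le h0 hθ; linarith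
  have hϑ0 : 0 ≤ ϑ := by
    have : 1 ≤ Real.exp ϑ := by
      by_contra h
      push Not at h
      nlinarith
    exact Real.one_le_exp_iff.mp this
  have e4 := exp_sub_one_le hϑ0 hϑ
  have hd : x' - x ≤ 2 * ϑ * x := by nlinarith
  set f : ℕ → ℂ := fun n => lam n * ee (-(α * n)) with hf
  have hab : ⌊x⌋₊ ≤ ⌊x'⌋₊ := Nat.floor_le_floor h1
  have hac : ⌊x⌋₊ ≤ ⌊x * Real.exp θ⌋₊ := Nat.floor_le_floor (by nlinarith)
  have hcd0 : x * Real.exp θ ≤ x' * Real.exp θ := by nlinarith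
  have hcd : ⌊x * Real.exp θ⌋₊ ≤ ⌊x' * Real.exp θ⌋₊ := Nat.floor_le_floor hcd0
  have hbd : ⌊x'⌋₊ ≤ ⌊x' * Real.exp θ⌋₊ := Nat.floor_le_floor (by nlinarith)
  have s1 := sum_Ioc_consecutive f hac hcd
  have s2 := sum_Ioc_consecutive f hab hbd
  have key : Sm x θ α - Sm x' θ α = ∑ n ∈ Ioc ⌊x⌋₊ ⌊x'⌋₊, f n -
      ∑ n ∈ Ioc ⌊x * Real.exp θ⌋₊ ⌊x' * Real.exp θ⌋₊, f n := by
    unfold Sm Iv
    linear_combination s1 - s2
  rw [key]
  have b1 := (BasAux.norm_sum_le_card _ α).trans (card_Ioc_floor_le hx.le h1)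
  have b2 := (BasAux.norm_sum_le_card _ α).trans (card_Ioc_floor_le (by positivity) hcd0)
  have b3 : x' * Real.exp θ - x * Real.exp θ ≤ 3 * (x' - x) := by nlinarith
  refine (norm_sub_le _ _).trans ?_
  linarith

theorem sum_dvd_eq {x θ : ℝ} (hx : 0 ≤ x) (α : ℝ) {p : ℕ} (hp : p.Prime) :
    ∑ n ∈ (Iv x θ).filter (fun n => p ∣ n), lam n * ee (-(α * n)) = -Sm (x / p) θ (p * α) := by
  have hp0 : (0 : ℝ) < p := by exact_mod_cast hp.pos
  have hxp : 0 ≤ x / p := by positivity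
  unfold Sm
  rw [← sum_neg_distrib]
  symm
  refine sum_nbij' (fun m => p * m) (fun n => n / p) ?_ ?_ ?_ ?_ ?_
  · intro m hm
    rw [mem_Iv hxp] at hm
    rw [mem_filter, mem_Iv hx]
    refine ⟨⟨?_, ?_⟩, dvd_mul_right _ _⟩
    · have := (div_lt_iff₀ hp0).mp hm.1
      push_cast; linarith
    · have h := hm.2
      rw [div_mul_eq_mul_div, le_div_iff₀ hp0] at h
      push_cast; linarith
  · intro n hn
    rw [mem_filter, mem_Iv hx] at hn
    obtain ⟨⟨h1, h2⟩, m, rfl⟩ := hn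
    rw [mem_Iv hxp, Nat.mul_div_cancel_left _ hp.pos]
    push_cast at h1 h2
    refine ⟨(div_lt_iff₀ hp0).mpr (by linarith), ?_⟩
    rw [div_mul_eq_mul_div, le_div_iff₀ hp0]
    linarith
  · intro m _
    exact Nat.mul_div_cancel_left _ hp.pos
  · intro n hn
    rw [mem_filter] at hn
    exact Nat.mul_div_cancel' hn.2
  · intro m _
    rw [lam_mul, lam_prime hp]
    have : -(α * ((p * m : ℕ) : ℝ)) = -(p * α * m) := by push_cast; ring
    rw [this]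
    ring

theorem ee_lip (a b : ℝ) : ‖ee a - ee b‖ ≤ 7 * |a - b| := by
  have h1 : ee a - ee b = ee b * (ee (a - b) - 1) := by
    rw [mul_sub, ← ee_add, mul_one]
    congr 2
    ring
  rw [h1, norm_mul, norm_ee, one_mul]
  have h2 := Real.norm_exp_I_mul_ofReal_sub_one_le (x := 2 * Real.pi * (a - b))
  refine le_trans h2 ?_
  rw [Real.norm_eq_abs, abs_mul, abs_of_pos (by positivity : (0 : ℝ) < 2 * Real.pi)]
  have := Real.pi_lt_d2
  exact mul_le_mul_of_nonneg_right (by linarith) (abs_nonneg _)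

theorem sum_inv_le {u v : ℝ} (hu : 0 < u) (huv : u ≤ v) :
    ∑ m ∈ Ioc ⌊u⌋₊ ⌊v⌋₊, (1 : ℝ) / m ≤ Real.log (v / u) + 1 / u := by
  have hv : 0 < v := hu.trans_le huv
  have hl : Real.log u ≤ Real.log v := Real.log_le_log hu huv
  rw [Real.log_div hv.ne' hu.ne']
  rcases (Nat.floor_le_floor huv).eq_or_lt with h | h
  · rw [h]
    have : 0 < 1 / u := by positivity
    simp only [Ioc_self, sum_empty]
    linarith
  · have h1 : ⌊u⌋₊ + 1 ≤ ⌊v⌋₊ := h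
    have h2 := BasAux.sum_inv_tel (n := ⌊u⌋₊ + 1) (by omega) h1
    have h3 := sum_Ioc_consecutive (fun m : ℕ => (1 : ℝ) / m) (Nat.le_succ ⌊u⌋₊) h1
    rw [← h3]
    have h4 : u < ((⌊u⌋₊ + 1 : ℕ) : ℝ) := by push_cast; exact Nat.lt_floor_add_one u
    have h5 : ∑ m ∈ Ioc ⌊u⌋₊ (⌊u⌋₊ + 1), (1 : ℝ) / m ≤ 1 / u := by
      rw [Nat.Ioc_succ_singleton, sum_singleton]
      exact one_div_le_one_div_of_le hu h4.le
    have h6 : Real.log u ≤ Real.log ((⌊u⌋₊ + 1 : ℕ) : ℝ) := Real.log_le_log hu h4.le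
    have h7 : Real.log (⌊v⌋₊ : ℝ) ≤ Real.log v :=
      Real.log_le_log (by exact_mod_cast (by omega : 0 < ⌊v⌋₊)) (Nat.floor_le hv.le)
    have h8 : ∑ m ∈ Ioc ⌊u⌋₊ (Nat.succ ⌊u⌋₊), (1 : ℝ) / m ≤ 1 / u := h5
    have h9 : ∑ m ∈ Ioc (Nat.succ ⌊u⌋₊) ⌊v⌋₊, (1 : ℝ) / m ≤
        Real.log (⌊v⌋₊ : ℝ) - Real.log ((⌊u⌋₊ + 1 : ℕ) : ℝ) := h2
    linarith

theorem ap_le {η : ℝ} (hη : 0 < η) (p : ℕ) : η * ap η p ≤ Real.log p := by
  have h := Int.floor_le (Real.log p / η)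
  rw [le_div_iff₀ hη] at h
  unfold ap
  linarith

theorem lt_ap {η : ℝ} (hη : 0 < η) (p : ℕ) : Real.log p < η * ap η p + η := by
  have h := Int.lt_floor_add_one (Real.log p / η)
  rw [div_lt_iff₀ hη] at h
  unfold ap
  linarith

theorem xx_pos (η : ℝ) (y : ℤ) : 0 < xx η y := by
  exact Real.exp_pos _

theorem xx_add (η : ℝ) (y k : ℤ) : xx η (y + k) = xx η y * Real.exp (η * k) := by
  unfold xx
  rw [← Real.exp_add]
  congr 1
  push_cast
  ring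

theorem std_eq {N : ℕ} [NeZero N] (k : ℤ) : ZMod.stdAddChar (k : ZMod N) = ee (k / N) := by
  rw [ZMod.stdAddChar_coe]
  unfold ee
  congr 1
  push_cast
  ring

end Pool.Agent.P.MP_a9a441_nt.FU
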