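import Pool.Agent.P.MP_a9a441_nt.FU.ThF

/-!
The lower bound for one class. Let Th₂ = Th N Ps K 1 1; it is real, 0 ≤ Th₂ ≤ W / Ω
(`norm_Th_le`). Expanding Th₁, the sum is (π Ω)⁻¹ ∑_{p, y, i} Th₂ (low y p i) θ p c y Φ (low y p i).
So its real part is at least δ (π Ω)⁻¹ ∑ Th₂ (low y p i) - (W / Ω) π⁻¹ ∑_{y,p} d y p. An edge
(y, p, p') with D = ys y - A p - (ys y' - A p'), 2 |D| ≤ Ω, contributes to
∑_{p,y,i} ∑_{p',y',i'} [low y p i = low y' p' i'] the pairs (i, i') with i - i' = D, at least Ω / 2.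
-/

namespace Pool.Agent.P.MP_a9a441_nt.FU

open Finset Filter Pool.Agent.Lib.LargeSieve
open scoped ComplexConjugate

namespace LBAux

open Classical in
theorem cnt_nat (Ω n : ℕ) (hn : 2 * n ≤ Ω) (f : ℕ → ℕ → Prop) (hf : ∀ i, f i (i + n)) :
    (Ω : ℝ) / 2 ≤ ∑ i ∈ range Ω, ∑ i' ∈ range Ω, if f i i' then (1 : ℝ) else 0 := by
  have h1 : ∑ i ∈ range (Ω - n), (1 : ℝ) ≤
      ∑ i ∈ range (Ω - n), ∑ i' ∈ range Ω, if f i i' then (1 : ℝ) else 0 := by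
    refine sum_le_sum fun i hi => ?_
    have hi' : i + n ∈ range Ω := by
      rw [mem_range] at hi ⊢
      omega
    have := single_le_sum (f := fun i' => if f i i' then (1 : ℝ) else 0)
      (fun i' _ => by positivity) hi'
    simpa [hf i] using this
  have h2 : ∑ i ∈ range (Ω - n), ∑ i' ∈ range Ω, (if f i i' then (1 : ℝ) else 0) ≤
      ∑ i ∈ range Ω, ∑ i' ∈ range Ω, if f i i' then (1 : ℝ) else 0 := by
    refine sum_le_sum_of_subset_of_nonneg (range_subset_range.2 (Nat.sub_le _ _)) ?_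
    intro i _ _
    exact sum_nonneg fun i' _ => by positivity
  have h3 : ∑ i ∈ range (Ω - n), (1 : ℝ) = (Ω : ℝ) - n := by
    rw [sum_const, card_range, nsmul_eq_mul, mul_one, Nat.cast_sub (by omega)]
  have h4 : (2 : ℝ) * n ≤ Ω := by exact_mod_cast hn
  linarith

open Classical in
theorem cnt (Ω : ℕ) (D : ℤ) (hD : 2 * |D| ≤ Ω) (f : ℕ → ℕ → Prop)
    (hf : ∀ i i' : ℕ, (i : ℤ) - i' = D → f i i') :
    (Ω : ℝ) / 2 ≤ ∑ i ∈ range Ω, ∑ i' ∈ range Ω, if f i i' then (1 : ℝ) else 0 := by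
  obtain ⟨n, rfl | rfl⟩ := Int.eq_nat_or_neg D
  · rw [sum_comm]
    refine cnt_nat Ω n ?_ (fun i' i => f i i') fun i => hf _ _ (by push_cast; ring)
    rw [abs_of_nonneg (Int.natCast_nonneg n)] at hD
    exact_mod_cast hD
  · refine cnt_nat Ω n ?_ f fun i => hf _ _ (by push_cast; ring)
    rw [abs_neg, abs_of_nonneg (Int.natCast_nonneg n)] at hD
    exact_mod_cast hD

open Classical in
/-- The number of triples with a given low point. -/
noncomputable def nn {q : ℕ} (N : ℕ) (Ps : Finset ℕ) (K : Cls q) (g : GG N q) : ℝ :=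
  ∑ p ∈ Ps.filter (fun p => p.Coprime q), ∑ y ∈ K.S, ∑ i ∈ range K.Ω,
    if K.low N y p i = g then (1 : ℝ) else 0

theorem nn_nonneg {q : ℕ} (N : ℕ) (Ps : Finset ℕ) (K : Cls q) (g : GG N q) :
    0 ≤ nn N Ps K g := by
  unfold nn
  exact sum_nonneg fun p _ => sum_nonneg fun y _ => sum_nonneg fun i _ => by positivity

theorem Th_one {q : ℕ} (N : ℕ) (Ps : Finset ℕ) (K : Cls q) (g : GG N q) :
    Th N Ps K (fun _ => 1) (fun _ => 1) g =
      ((((Ps.card : ℝ) * K.Ω)⁻¹ * nn N Ps K g : ℝ) : ℂ) := by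
  unfold Th nn
  push_cast
  congr 1
  refine sum_congr rfl fun p _ => sum_congr rfl fun y _ => sum_congr rfl fun i _ => ?_
  split_ifs <;> simp

theorem expand {N q : ℕ} [NeZero N] [NeZero q] (Ps : Finset ℕ) (K : Cls q) (θ : ℕ → ℂ)
    (c : ℤ → ℂ) (F : GG N q → ℂ) :
    ∑ x, Th N Ps K θ c x * F x = ((((Ps.card : ℝ) * K.Ω)⁻¹ : ℝ) : ℂ) *
      ∑ p ∈ Ps.filter (fun p => p.Coprime q), ∑ y ∈ K.S, ∑ i ∈ range K.Ω,
        θ p * c y * F (K.low N y p i) := by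
  classical
  unfold Th
  push_cast
  simp only [mul_assoc]
  rw [← mul_sum]
  congr 1
  simp only [sum_mul]
  rw [sum_comm]
  refine sum_congr rfl fun p _ => ?_
  rw [sum_comm]
  refine sum_congr rfl fun y _ => ?_
  rw [sum_comm]
  refine sum_congr rfl fun i _ => ?_
  rw [sum_eq_single (K.low N y p i)]
  · rw [if_pos rfl, mul_assoc]
  · intro b _ hb
    rw [if_neg (Ne.symm hb), zero_mul]
  · intro hb
    exact absurd (mem_univ _) hb

theorem edges {N q : ℕ} (Ps : Finset ℕ) (K : Cls q) (Ed : Finset (ℤ × Lb)) (nx : ℤ × Lb → ℤ)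
    (hE : ∀ e ∈ Ed, e.1 ∈ K.S ∧ nx e ∈ K.S ∧ e.2.1 ∈ Ps ∧ e.2.2 ∈ Ps ∧ e.2.1.Coprime q ∧
      e.2.2.Coprime q ∧ un q e.2.1 * K.ar e.1 = un q e.2.2 * K.ar (nx e) ∧
      2 * |K.ys e.1 - ap (10 / N) e.2.1 - (K.ys (nx e) - ap (10 / N) e.2.2)| ≤ K.Ω) :
    (Ed.card : ℝ) * (K.Ω / 2) ≤ ∑ p ∈ Ps.filter (fun p => p.Coprime q), ∑ y ∈ K.S,
      ∑ i ∈ range K.Ω, nn N Ps K (K.low N y p i) := by
  classical
  set P' := Ps.filter (fun p => p.Coprime q) with hP'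
  let F : ℤ × Lb → ℝ := fun e => ∑ y' ∈ K.S, ∑ i ∈ range K.Ω, ∑ i' ∈ range K.Ω,
    if K.low N y' e.2.2 i' = K.low N e.1 e.2.1 i then (1 : ℝ) else 0
  have hF0 : ∀ e, 0 ≤ F e := fun e =>
    sum_nonneg fun _ _ => sum_nonneg fun _ _ => sum_nonneg fun _ _ => by positivity
  have h1 : ∀ e ∈ Ed, (K.Ω : ℝ) / 2 ≤ F e := by
    intro e he
    obtain ⟨_, e2, _, _, _, _, e7, e8⟩ := hE e he
    have a1 := cnt K.Ω _ e8 (fun i i' => K.low N (nx e) e.2.2 i' = K.low N e.1 e.2.1 i) (by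
      intro i i' hi
      unfold Cls.low
      rw [e7]
      congr 2
      linarith)
    have a2 := single_le_sum (f := fun y' => ∑ i ∈ range K.Ω, ∑ i' ∈ range K.Ω,
      if K.low N y' e.2.2 i' = K.low N e.1 e.2.1 i then (1 : ℝ) else 0)
      (fun _ _ => sum_nonneg fun _ _ => sum_nonneg fun _ _ => by positivity) e2
    refine le_trans (a1.trans (le_of_eq ?_)) a2
    refine sum_congr rfl fun i _ => sum_congr rfl fun i' _ => ?_
    congr
  have h2 : Ed ⊆ K.S ×ˢ (P' ×ˢ P') := by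
    intro e he
    obtain ⟨e1, _, e3, e4, e5, e6, _, _⟩ := hE e he
    simp only [hP', mem_product, mem_filter]
    exact ⟨e1, ⟨e3, e5⟩, e4, e6⟩
  have h3 : (Ed.card : ℝ) * (K.Ω / 2) ≤ ∑ e ∈ Ed, F e := by
    have := card_nsmul_le_sum Ed F _ h1
    rwa [nsmul_eq_mul] at this
  refine h3.trans ((sum_le_sum_of_subset_of_nonneg h2 fun e _ _ => hF0 e).trans (le_of_eq ?_))
  rw [sum_product, sum_comm (s := P')]
  refine sum_congr rfl fun y _ => ?_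
  rw [sum_product]
  refine sum_congr rfl fun p _ => ?_
  unfold nn
  rw [sum_comm (s := range K.Ω)]
  refine sum_congr rfl fun p' _ => ?_
  rw [sum_comm (s := range K.Ω)]

end LBAux

open LBAux in
theorem lb {N q : ℕ} [NeZero N] [NeZero q] {Ps : Finset ℕ} (hne : Ps.Nonempty) (K : Cls q)
    (hΩ : 1 ≤ K.Ω) (hΩN : K.Ω ≤ N) {W δ : ℝ} (hW : K.Mult N W) (hδ : 0 ≤ δ) (θ : ℕ → ℂ)
    (c : ℤ → ℂ) (Φ : GG N q → ℂ) (d : ℤ → ℕ → ℝ) (hd : ∀ y p, 0 ≤ d y p)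
    (h : ∀ y ∈ K.S, ∀ p ∈ Ps, p.Coprime q → ∀ i < K.Ω,
      δ - d y p ≤ (θ p * c y * Φ (K.low N y p i)).re)
    (Ed : Finset (ℤ × Lb)) (nx : ℤ × Lb → ℤ)
    (hE : ∀ e ∈ Ed, e.1 ∈ K.S ∧ nx e ∈ K.S ∧ e.2.1 ∈ Ps ∧ e.2.2 ∈ Ps ∧ e.2.1.Coprime q ∧
      e.2.2.Coprime q ∧ un q e.2.1 * K.ar e.1 = un q e.2.2 * K.ar (nx e) ∧
      2 * |K.ys e.1 - ap (10 / N) e.2.1 - (K.ys (nx e) - ap (10 / N) e.2.2)| ≤ K.Ω) :
    δ * Ed.card / (2 * (Ps.card : ℝ) ^ 2) - W / Ps.card * ∑ y ∈ K.S, ∑ p ∈ Ps, d y p ≤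
      K.Ω * (∑ x, Th N Ps K θ c x * Th N Ps K (fun _ => 1) (fun _ => 1) x * Φ x).re := by
  set P' := Ps.filter (fun p => p.Coprime q) with hP'
  have hπ : (0 : ℝ) < Ps.card := by exact_mod_cast hne.card_pos
  have hO : (0 : ℝ) < K.Ω := by exact_mod_cast hΩ
  set u : ℝ := ((Ps.card : ℝ) * K.Ω)⁻¹ with hu
  have hu0 : 0 < u := by positivity
  let r : GG N q → ℝ := fun g => u * nn N Ps K g
  have hr0 : ∀ g, 0 ≤ r g := fun g => mul_nonneg hu0.le (nn_nonneg _ _ _ _)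
  have hr1 : ∀ g, r g ≤ W / K.Ω := by
    intro g
    have := norm_Th_le (θ := fun _ => 1) (c := fun _ => 1) hne hΩ hΩN hW (fun _ => by simp)
      (fun _ => by simp) g
    rw [Th_one, Complex.norm_real, Real.norm_eq_abs] at this
    exact (le_abs_self _).trans this
  have hW0 : 0 ≤ W / K.Ω := (hr0 (0, 1)).trans (hr1 _)
  have e1 : (∑ x, Th N Ps K θ c x * Th N Ps K (fun _ => 1) (fun _ => 1) x * Φ x).re =
      u * ∑ p ∈ P', ∑ y ∈ K.S, ∑ i ∈ range K.Ω,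
        r (K.low N y p i) * (θ p * c y * Φ (K.low N y p i)).re := by
    simp only [mul_assoc (Th N Ps K θ c _)]
    rw [expand, Complex.re_ofReal_mul]
    congr 1
    rw [Complex.re_sum]
    refine sum_congr rfl fun p _ => ?_
    rw [Complex.re_sum]
    refine sum_congr rfl fun y _ => ?_
    rw [Complex.re_sum]
    refine sum_congr rfl fun i _ => ?_
    rw [Th_one, ← Complex.re_ofReal_mul]
    congr 1
    ring
  have e2 : ∑ p ∈ P', ∑ y ∈ K.S, ∑ i ∈ range K.Ω,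
        (δ * u * nn N Ps K (K.low N y p i) - W / K.Ω * d y p) ≤
      ∑ p ∈ P', ∑ y ∈ K.S, ∑ i ∈ range K.Ω,
        r (K.low N y p i) * (θ p * c y * Φ (K.low N y p i)).re := by
    refine sum_le_sum fun p hp => sum_le_sum fun y hy => sum_le_sum fun i hi => ?_
    rw [hP', mem_filter] at hp
    have a1 := mul_le_mul_of_nonneg_left (h y hy p hp.1 hp.2 i (mem_range.1 hi))
      (hr0 (K.low N y p i))
    have a2 := mul_le_mul_of_nonneg_right (hr1 (K.low N y p i)) (hd y p)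
    have a3 : δ * u * nn N Ps K (K.low N y p i) = r (K.low N y p i) * δ := by
      simp only [r]
      ring
    rw [a3]
    linarith
  have e3 : ∑ p ∈ P', ∑ y ∈ K.S, ∑ i ∈ range K.Ω,
        (δ * u * nn N Ps K (K.low N y p i) - W / K.Ω * d y p) =
      δ * u * (∑ p ∈ P', ∑ y ∈ K.S, ∑ i ∈ range K.Ω, nn N Ps K (K.low N y p i)) -
        W * ∑ p ∈ P', ∑ y ∈ K.S, d y p := by
    simp only [sum_sub_distrib, mul_sum]
    congr 1
    refine sum_congr rfl fun p _ => sum_congr rfl fun y _ => ?_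
    rw [sum_const, card_range, nsmul_eq_mul]
    field_simp
  have e4 : ∑ p ∈ P', ∑ y ∈ K.S, d y p ≤ ∑ y ∈ K.S, ∑ p ∈ Ps, d y p := by
    rw [sum_comm (s := K.S)]
    exact sum_le_sum_of_subset_of_nonneg (filter_subset _ _)
      fun p _ _ => sum_nonneg fun y _ => hd y p
  have e5 := edges (N := N) Ps K Ed nx hE
  have hW1 : 0 ≤ W := by
    have := mul_nonneg hW0 hO.le
    rwa [div_mul_cancel₀ _ hO.ne'] at this
  have e6 := mul_le_mul_of_nonneg_left e5 (mul_nonneg hδ hu0.le)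
  have e7 := mul_le_mul_of_nonneg_left e4 hW1
  rw [e1]
  rw [e3] at e2
  set A := ∑ p ∈ P', ∑ y ∈ K.S, ∑ i ∈ range K.Ω,
        r (K.low N y p i) * (θ p * c y * Φ (K.low N y p i)).re
  set B := ∑ y ∈ K.S, ∑ p ∈ Ps, d y p
  have e8 : δ * u * (Ed.card * (K.Ω / 2)) - W * B ≤ A := by linarith
  have e9 := mul_le_mul_of_nonneg_left e8 (mul_nonneg hO.le hu0.le)
  rw [← mul_assoc]
  refine le_trans (le_of_eq ?_) e9
  rw [hu]
  field_simp

end Pool.Agent.P.MP_a9a441_nt.FU
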