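import Pool.Agent.P.MP_a9a441_nt.FU.Bas

/-!
The characters of ZMod N × (ZMod q)ˣ. Orthogonality: `AddChar.sum_mulShift` with
`ZMod.isPrimitive_stdAddChar`, `DirichletCharacter.sum_char_inv_mul_char_eq`,
`MulChar.sum_eq_zero_of_ne_one` (sums over units: `ZMod.card_units_eq_totient`,
`MulChar.map_nonunit`). `geo_le`: `geom_bound` and `std_eq` with k = valMinAbs.
-/

namespace Pool.Agent.P.MP_a9a441_nt.FU

open Finset Filter Pool.Agent.Lib.LargeSieve
open scoped ComplexConjugate

variable {N q : ℕ} [NeZero N] [NeZero q]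

namespace OrthAux

theorem add_orth (b b' : ZMod N) :
    ∑ a : ZMod N, ZMod.stdAddChar (a * b) * conj (ZMod.stdAddChar (a * b')) =
      if b = b' then (N : ℂ) else 0 := by
  have h : ∀ a : ZMod N, ZMod.stdAddChar (a * b) * conj (ZMod.stdAddChar (a * b')) =
      ZMod.stdAddChar (a * (b - b')) := fun a => by
    rw [← AddChar.map_neg_eq_conj, ← AddChar.map_add_eq_mul]
    congr 1
    ring
  simp only [h, AddChar.sum_mulShift _ (ZMod.isPrimitive_stdAddChar N), sub_eq_zero, ZMod.card]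
  split_ifs <;> simp

theorem conj_chi (χ : DirichletCharacter ℂ q) (b : (ZMod q)ˣ) :
    conj (χ (b : ZMod q)) = χ ((b⁻¹ : (ZMod q)ˣ) : ZMod q) := by
  have h := MulChar.star_apply' χ (b : ZMod q)
  rw [RCLike.star_def] at h
  rw [h, MulChar.inv_apply, Ring.inverse_unit]

open Classical in
theorem chi_orth (b b' : (ZMod q)ˣ) :
    ∑ χ : DirichletCharacter ℂ q, χ (b : ZMod q) * conj (χ (b' : ZMod q)) =
      if b = b' then (q.totient : ℂ) else 0 := by
  simp only [conj_chi, ← map_mul, ← Units.val_mul, DirichletCharacter.sum_characters_eq,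
    Units.val_eq_one, mul_inv_eq_one]

theorem sum_units (χ : DirichletCharacter ℂ q) :
    ∑ b : (ZMod q)ˣ, χ (b : ZMod q) = ∑ b : ZMod q, χ b := by
  refine Fintype.sum_of_injective Units.val Units.val_injective _ _ (fun b hb => ?_) fun _ => rfl
  exact χ.map_nonunit hb

open Classical in
theorem unit_orth (χ χ' : DirichletCharacter ℂ q) :
    ∑ b : (ZMod q)ˣ, χ (b : ZMod q) * conj (χ' (b : ZMod q)) =
      if χ = χ' then (q.totient : ℂ) else 0 := by
  have h : ∀ b : (ZMod q)ˣ, χ (b : ZMod q) * conj (χ' (b : ZMod q)) = (χ * χ'⁻¹) (b : ZMod q) :=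
    fun b => by
      rw [MulChar.coeToFun_mul, Pi.mul_apply, ← MulChar.star_apply', RCLike.star_def]
  simp only [h]
  split_ifs with e
  · simp [e, ZMod.card_units_eq_totient]
  · rw [sum_units, MulChar.sum_eq_zero_of_ne_one fun k => e (mul_inv_eq_one.1 k)]

theorem abs_le_fract {x : ℝ} (h : |x| ≤ 1 / 2) : |x| ≤ Int.fract x := by
  have h1 := abs_le.1 h
  rcases le_or_gt 0 x with k | k
  · rw [abs_of_nonneg k, Int.fract_eq_self.2 ⟨k, by linarith [h1.2]⟩]
  · have : Int.fract x = x + 1 :=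
      Int.fract_eq_iff.2 ⟨by linarith [h1.1], by linarith, -1, by push_cast; ring⟩
    rw [abs_of_neg k, this]
    linarith [h1.1]

end OrthAux

theorem norm_ech (v : VV N q) (g : GG N q) : ‖ech v g‖ = 1 := by
  simp [ech]

theorem ech_mul (v : VV N q) (w w' : ZMod N) (b b' : (ZMod q)ˣ) :
    ech v (w + w', b * b') = ech v (w, b) * ech v (w', b') := by
  simp only [ech, mul_add, AddChar.map_add_eq_mul, Units.val_mul, map_mul]
  ring

theorem dual_ech : Dual (ech (N := N) (q := q)) ((N : ℝ) * q.totient) := by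
  classical
  have hN : (0 : ℝ) < N := Nat.cast_pos.2 (NeZero.pos N)
  have hq : (0 : ℝ) < q.totient := Nat.cast_pos.2 (Nat.totient_pos.2 (NeZero.pos q))
  refine ⟨mul_pos hN hq, fun g g' => ?_, fun v v' => ?_, fun v v' g => ?_⟩
  · have h := (congrArg₂ (· * ·) (OrthAux.add_orth g.1 g'.1) (OrthAux.chi_orth g.2 g'.2))
    simp only [sum_mul_sum] at h
    rw [Fintype.sum_prod_type]
    refine Eq.trans ?_ (h.trans ?_)
    · refine Fintype.sum_equiv Multiplicative.toAdd _ _ fun a => sum_congr rfl fun χ _ => ?_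
      simp only [ech, map_mul]
      ring
    · by_cases e1 : g.1 = g'.1 <;> by_cases e2 : g.2 = g'.2 <;> simp [Prod.ext_iff, e1, e2]
  · have h := (congrArg₂ (· * ·) (OrthAux.add_orth (Multiplicative.toAdd v.1)
      (Multiplicative.toAdd v'.1)) (OrthAux.unit_orth v.2 v'.2))
    simp only [sum_mul_sum] at h
    rw [Fintype.sum_prod_type]
    refine Eq.trans ?_ (h.trans ?_)
    · refine sum_congr rfl fun a _ => sum_congr rfl fun b _ => ?_
      simp only [ech, map_mul, mul_comm a]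
      ring
    · by_cases e1 : v.1 = v'.1 <;> by_cases e2 : v.2 = v'.2 <;> simp [Prod.ext_iff, e1, e2]
  · simp only [ech, Prod.fst_mul, Prod.snd_mul, toAdd_mul, add_mul, AddChar.map_add_eq_mul,
      MulChar.coeToFun_mul, Pi.mul_apply]
    ring

theorem coe_un {p : ℕ} (hp : p.Coprime q) : ((un q p : (ZMod q)ˣ) : ZMod q) = p := by
  rw [un, dif_pos hp, ZMod.coe_unitOfCoprime]

theorem geo_le (k : ZMod N) (Ω : ℕ) :
    |(k.valMinAbs : ℝ)| * ‖∑ i ∈ range Ω, ZMod.stdAddChar (k * (i : ZMod N))‖ ≤ N := by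
  have hN : (0 : ℝ) < N := Nat.cast_pos.2 (NeZero.pos N)
  by_cases h0 : k.valMinAbs = 0
  · simp [h0]
  have h1 : (0 : ℝ) < |(k.valMinAbs : ℝ)| := abs_pos.2 (Int.cast_ne_zero.2 h0)
  have h2 : ∀ i : ℕ, ZMod.stdAddChar (k * (i : ZMod N)) = ee (i * ((k.valMinAbs : ℝ) / N)) := by
    intro i
    have h := std_eq (N := N) (k.valMinAbs * i)
    push_cast at h
    rw [h]
    congr 1
    ring
  have h3 : |(k.valMinAbs : ℝ) / N| = |(k.valMinAbs : ℝ)| / N := by rw [abs_div, abs_of_pos hN]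
  have h4 : |(k.valMinAbs : ℝ) / N| ≤ 1 / 2 := by
    have h : ((k.valMinAbs.natAbs * 2 : ℕ) : ℝ) ≤ N := by
      have := k.natAbs_valMinAbs_le
      exact Nat.cast_le.2 (by omega)
    rw [Nat.cast_mul, Nat.cast_natAbs, Int.cast_abs] at h
    rw [h3, div_le_iff₀ hN]
    push_cast at h
    linarith
  have h5 := OrthAux.abs_le_fract h4
  have h6 := OrthAux.abs_le_fract (x := -((k.valMinAbs : ℝ) / N)) (by rwa [abs_neg])
  rw [abs_neg] at h6
  have h7 : 0 < |(k.valMinAbs : ℝ) / N| := h3 ▸ div_pos h1 hN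
  have h8 := geom_bound Ω (h7.trans_le h5)
  have h9 := one_div_le_one_div_of_le (by positivity) (mul_le_mul_of_nonneg_left h5 two_pos.le)
  have h10 := one_div_le_one_div_of_le (by positivity) (mul_le_mul_of_nonneg_left h6 two_pos.le)
  simp only [h2]
  refine (mul_le_mul_of_nonneg_left (h8.trans (add_le_add h9 h10)) h1.le).trans (le_of_eq ?_)
  rw [h3]
  field_simp
  norm_num

end Pool.Agent.P.MP_a9a441_nt.FU
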