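import Pool.Agent.P.MP_a9a441_nt.FU.Cover
import Pool.Agent.P.MP_a9a441_nt.FU.Orth

/-!
Auxiliary facts for classes. `mult`: two points y, y' of the filtered set have
ys y - ys y' ≡ i - i' mod N, and η₁ |ys y - ys y' - (i - i')| ≤ log 4 + 66 η < 10, so they are equal
and η |y - y'| ≤ 66 η. `sum_d3`: exchange the sums and use `card_cover` (3 ρ + 1 ≤ 4 ρ).
`res_unit`, `res_edge`: the unit is the class of the numerator; `den_eq`: if p s - p' s' is an
integer, p ∤ den s, p' ∤ den s', then den s = den (p s) = den (p' s') = den s'.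
-/

namespace Pool.Agent.P.MP_a9a441_nt.FU

open Finset Filter Pool.Agent.Lib.LargeSieve
open scoped ComplexConjugate

namespace MultAux

theorem key {p p' : ℕ} {s s' : ℚ} {k : ℤ} (h : (p : ℚ) * s - p' * s' = k) :
    (p : ℤ) * s.num * s'.den - p' * s'.num * s.den = k * s.den * s'.den := by
  have h1 : (s.num : ℚ) = s * s.den := (Rat.mul_den_eq_num s).symm
  have h2 : (s'.num : ℚ) = s' * s'.den := (Rat.mul_den_eq_num s').symm
  have h3 : (p : ℚ) * s.num * s'.den - p' * s'.num * s.den = k * s.den * s'.den := by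
    rw [h1, h2, ← h]; ring
  exact_mod_cast h3

theorem den_dvd {p p' : ℕ} (hp : p.Prime) {s s' : ℚ} (h1 : ¬ p ∣ s.den) {k : ℤ}
    (h : (p : ℚ) * s - p' * s' = k) : s.den ∣ s'.den := by
  have hk := key h
  have hd : (s.den : ℤ) ∣ (p : ℤ) * s.num * s'.den :=
    ⟨k * s'.den + p' * s'.num, by linear_combination hk⟩
  have c1 : IsCoprime (s.den : ℤ) (p : ℤ) := by
    rw [Nat.isCoprime_iff_coprime]
    exact ((Nat.Prime.coprime_iff_not_dvd hp).2 h1).symm
  have c2 : IsCoprime (s.den : ℤ) s.num := (Rat.isCoprime_num_den s).symm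
  have c3 : IsCoprime (s.den : ℤ) ((p : ℤ) * s.num) := IsCoprime.mul_right c1 c2
  exact_mod_cast c3.dvd_of_dvd_mul_left hd

theorem isUnit_num {q : ℕ} {s : ℚ} (h : s.den = q) : IsUnit ((s.num : ℤ) : ZMod q) := by
  rw [ZMod.coe_int_isUnit_iff_isCoprime]
  rw [← h]
  exact (Rat.isCoprime_num_den s).symm

end MultAux

theorem mult {N q : ℕ} [NeZero N] (K : Cls q) {η X : ℝ} (hη : 0 < η) (hη1 : η ≤ 1 / 10)
    (hX : 0 < X) (hY : ∀ y ∈ K.S, X ≤ xx η y ∧ xx η y ≤ 4 * X)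
    (hpos : ∀ y ∈ K.S, |10 / (N : ℝ) * K.ys y - η * y| ≤ 22 * η)
    (hΩ : ((K.Ω : ℝ) + 1) * (10 / N) ≤ 22 * η) : K.Mult N 133 := by
  classical
  intro w
  set F := K.S.filter fun y => ∃ i < K.Ω, ((K.ys y - i : ℤ) : ZMod N) = w with hF
  rcases F.eq_empty_or_nonempty with h0 | ⟨y0, hy0⟩
  · rw [h0]; simp
  have hN : (0 : ℝ) < N := by exact_mod_cast Nat.pos_of_ne_zero (NeZero.ne N)
  have hc : (0 : ℝ) < 10 / N := by positivity
  have hlog : ∀ a ∈ K.S, ∀ b ∈ K.S, η * a - η * b ≤ 3 := by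
    intro a ha b hb
    have h1 := (hY a ha).2
    have h2 := (hY b hb).1
    unfold xx at h1 h2
    have h3 : Real.exp (η * a - η * b) ≤ 4 := by
      rw [Real.exp_sub, div_le_iff₀ (Real.exp_pos _)]
      linarith
    have h4 := Real.add_one_le_exp (η * a - η * b)
    linarith
  have hsub : F ⊆ Icc (y0 - 66) (y0 + 66) := by
    intro y hy
    obtain ⟨hyS, i, hi, hw⟩ := mem_filter.1 hy
    obtain ⟨hy0S, i', hi', hw'⟩ := mem_filter.1 hy0
    have hdvd : (N : ℤ) ∣ (K.ys y0 - i') - (K.ys y - i) :=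
      (ZMod.intCast_eq_intCast_iff_dvd_sub _ _ _).1 (hw.trans hw'.symm)
    have a1 := abs_le.1 (hpos y hyS)
    have a2 := abs_le.1 (hpos y0 hy0S)
    have b1 := hlog y hyS y0 hy0S
    have b2 := hlog y0 hy0S y hyS
    have i1 : (i : ℝ) ≤ K.Ω := by exact_mod_cast hi.le
    have i2 : (i' : ℝ) ≤ K.Ω := by exact_mod_cast hi'.le
    have i3 : (0 : ℝ) ≤ i := Nat.cast_nonneg _
    have i4 : (0 : ℝ) ≤ i' := Nat.cast_nonneg _
    have j1 : 10 / (N : ℝ) * i ≤ 22 * η := by nlinarith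
    have j2 : 10 / (N : ℝ) * i' ≤ 22 * η := by nlinarith
    have j3 : 0 ≤ 10 / (N : ℝ) * i := by positivity
    have j4 : 0 ≤ 10 / (N : ℝ) * i' := by positivity
    have hNN : 10 / (N : ℝ) * N = 10 := by field_simp
    have hD : |(K.ys y0 - i') - (K.ys y - i)| < (N : ℤ) := by
      have e1 : ((K.ys y0 : ℝ) - i') - (K.ys y - i) < N := by
        apply lt_of_mul_lt_mul_left _ hc.le
        rw [hNN]; nlinarith
      have e2 : -(N : ℝ) < ((K.ys y0 : ℝ) - i') - (K.ys y - i) := by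
        apply lt_of_mul_lt_mul_left _ hc.le
        rw [mul_neg, hNN]; nlinarith
      rw [abs_lt]
      constructor
      · exact_mod_cast e2
      · exact_mod_cast e1
    have hz := Int.eq_zero_of_abs_lt_dvd hdvd hD
    have hz' : ((K.ys y0 : ℝ) - i') - (K.ys y - i) = 0 := by exact_mod_cast hz
    have hz2 : 10 / (N : ℝ) * K.ys y0 - 10 / (N : ℝ) * i' -
        (10 / (N : ℝ) * K.ys y - 10 / (N : ℝ) * i) = 0 := by
      linear_combination (10 / (N : ℝ)) * hz'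
    have f1 : (y : ℝ) ≤ y0 + 66 := by
      apply le_of_mul_le_mul_left _ hη
      linarith [a1.1, a1.2, a2.1, a2.2]
    have f2 : (y0 : ℝ) - 66 ≤ y := by
      apply le_of_mul_le_mul_left _ hη
      linarith [a1.1, a1.2, a2.1, a2.2]
    rw [mem_Icc]
    constructor
    · exact_mod_cast f2
    · exact_mod_cast f1
  have hcard := card_le_card hsub
  rw [Int.card_Icc] at hcard
  have e : (y0 + 66 + 1 - (y0 - 66)).toNat = 133 := by
    have : y0 + 66 + 1 - (y0 - 66) = 133 := by ring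
    rw [this]; rfl
  rw [e] at hcard
  exact_mod_cast hcard

theorem sum_d3 {η M ε : ℝ} {ρ p : ℕ} (hη : 0 < η) (hρ : 1 ≤ ρ) (hp : 0 < p) (hM : 0 ≤ M)
    (g : ℕ → ℝ) (T : Finset ℤ)
    (h1 : ∀ y ∈ T, M ≤ xx η y * Real.exp (-(ρ * η)) / p ∧
      xx η y * Real.exp (2 * (ρ * η)) / p ≤ 16 * M)
    (hg : ∑ m ∈ Ioc ⌊M⌋₊ ⌊16 * M⌋₊, |g m - 1| / m ≤ ε) :
    ∑ y ∈ T, d3 g (xx η y) (ρ * η) p ≤ 4 * ε / η := by
  classical
  have hρR : (1 : ℝ) ≤ ρ := by exact_mod_cast hρ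
  have hpR : (0 : ℝ) < p := by exact_mod_cast hp
  have hθ : (0 : ℝ) < ρ * η := by positivity
  set c : ℝ := Real.exp (-(ρ * η)) / p with hc
  have hc0 : 0 < c := by positivity
  set I := Ioc ⌊M⌋₊ ⌊16 * M⌋₊ with hI
  have hsub : ∀ y ∈ T, Iv (xx η y * c) (3 * (ρ * η)) ⊆ I := by
    intro y hy
    obtain ⟨a1, a2⟩ := h1 y hy
    unfold Iv
    apply Ioc_subset_Ioc
    · apply Nat.floor_le_floor
      rw [hc, ← mul_div_assoc]; exact a1
    · apply Nat.floor_le_floor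
      refine le_trans (le_of_eq ?_) a2
      have e : Real.exp (2 * (ρ * η)) = Real.exp (-(ρ * η)) * Real.exp (3 * (ρ * η)) := by
        rw [← Real.exp_add]; congr 1; ring
      rw [e, hc]; ring
  have hf : ∀ m : ℕ, 0 ≤ |g m - 1| / m := fun m => by positivity
  have e1 : ∀ y ∈ T, d3 g (xx η y) (ρ * η) p =
      (ρ * η)⁻¹ * ∑ m ∈ I, if m ∈ Iv (xx η y * c) (3 * (ρ * η)) then |g m - 1| / m else 0 := by
    intro y hy
    unfold d3
    rw [mul_div_assoc, ← hc, ← sum_filter, filter_mem_eq_inter, inter_eq_right.2 (hsub y hy)]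
  rw [sum_congr rfl e1, ← mul_sum, sum_comm]
  have e2 : ∑ m ∈ I, ∑ y ∈ T,
      (if m ∈ Iv (xx η y * c) (3 * (ρ * η)) then |g m - 1| / m else 0) ≤
      ∑ m ∈ I, 4 * ρ * (|g m - 1| / m) := by
    apply sum_le_sum
    intro m _
    rw [← sum_filter, sum_const, nsmul_eq_mul]
    apply mul_le_mul_of_nonneg_right _ (hf m)
    have h2 := card_cover hη c (3 * (ρ * η)) hc0 (by positivity) T m
    have h3 : 3 * (ρ * η) / η = 3 * ρ := by field_simp
    rw [h3] at h2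
    linarith
  rw [← mul_sum] at e2
  have e3 : 4 * (ρ : ℝ) * ∑ m ∈ I, |g m - 1| / m ≤ 4 * ρ * ε :=
    mul_le_mul_of_nonneg_left hg (by positivity)
  calc _ ≤ (ρ * η)⁻¹ * (4 * ρ * ε) :=
        mul_le_mul_of_nonneg_left (e2.trans e3) (by positivity)
    _ = 4 * ε / η := by field_simp

theorem den_eq {p p' : ℕ} (hp : p.Prime) (hp' : p'.Prime) {s s' : ℚ} (h1 : ¬ p ∣ s.den)
    (h2 : ¬ p' ∣ s'.den) (h : ∃ k : ℤ, (p : ℚ) * s - p' * s' = k) : s.den = s'.den := by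
  obtain ⟨k, hk⟩ := h
  apply Nat.dvd_antisymm (MultAux.den_dvd hp h1 hk)
  have hk' : (p' : ℚ) * s' - p * s = ((-k : ℤ) : ℚ) := by
    push_cast; linarith
  exact MultAux.den_dvd hp' h2 hk'

theorem res_unit (q : ℕ) [NeZero q] : ∃ ar : ℚ → (ZMod q)ˣ,
    (∀ s : ℚ, s.den = q → ∃ k : ℤ, (s : ℝ) = ((ar s : ZMod q).val : ℝ) / q + k) ∧
    ∀ (s s' : ℚ) (p p' : ℕ), s.den = q → s'.den = q → p.Coprime q → p'.Coprime q →
      (∃ k : ℤ, (p : ℚ) * s - p' * s' = k) → un q p * ar s = un q p' * ar s' := by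
  classical
  have hq : (0 : ℝ) < q := by exact_mod_cast Nat.pos_of_ne_zero (NeZero.ne q)
  have hqZ : (q : ℤ) ≠ 0 := by exact_mod_cast NeZero.ne q
  refine ⟨fun s => if h : s.den = q then (MultAux.isUnit_num h).unit else 1, ?_, ?_⟩
  · intro s hs
    refine ⟨s.num / q, ?_⟩
    simp only [dif_pos hs, IsUnit.unit_spec]
    have h1 : (((s.num : ZMod q).val : ℕ) : ℤ) = s.num % q := ZMod.val_intCast _
    have h2 : s.num % q + q * (s.num / q) = s.num := Int.emod_add_mul_ediv _ _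
    have h3 : (((s.num : ZMod q).val : ℕ) : ℝ) + q * ((s.num / q : ℤ) : ℝ) = (s.num : ℝ) := by
      rw [← h1] at h2
      exact_mod_cast h2
    rw [Rat.cast_def, hs, ← h3]
    field_simp
  · intro s s' p p' hs hs' hp hp' h
    obtain ⟨k, hk⟩ := h
    have h1 := MultAux.key hk
    rw [hs, hs'] at h1
    have h2 : (p : ℤ) * s.num - p' * s'.num = k * q := by
      apply mul_right_cancel₀ hqZ
      linear_combination h1
    have h3 : (p : ZMod q) * (s.num : ZMod q) - p' * (s'.num : ZMod q) = 0 := by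
      have h4 := congrArg (fun z : ℤ => (z : ZMod q)) h2
      simpa using h4
    apply Units.ext
    simp only [un, dif_pos hs, dif_pos hs', dif_pos hp, dif_pos hp', Units.val_mul,
      IsUnit.unit_spec, ZMod.coe_unitOfCoprime]
    exact sub_eq_zero.1 h3

end Pool.Agent.P.MP_a9a441_nt.FU
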