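import Pool.Agent.P.MP_a9a441_nt.FU.Bas

/-!
A real inequality. The expression equals
[T u - τ e^u - (T Y - τ e^Y)] + (e^v - 1) (T - τ e^u) + T [(e^w - w) - (e^v - v)], w = η₁ j.
On the segment between u and Y, |T - τ e^t| ≤ E + (|T| + E) 2 ϑ ≤ 5 E; the three terms are at most
5 ϑ E, 20 η₂ E and 4 η₂ η₁ |T| ≤ 4 η₂ E (mean value inequality or convexity of exp).
-/

namespace Pool.Agent.P.MP_a9a441_nt.FU

open Finset Filter Pool.Agent.Lib.LargeSieve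
open scoped ComplexConjugate

theorem phase {η₁ η₂ ϑ E T τ Y u v w : ℝ} (h1 : 0 < η₁) (h1' : η₁ ≤ ϑ) (hϑ : ϑ ≤ η₂)
    (h2 : η₂ ≤ 1 / 8) (hw0 : 0 ≤ w) (hw : w ≤ η₂) (hv0 : w ≤ v) (hv : v ≤ w + η₁)
    (hu : |u - Y| ≤ ϑ) (hT : |T - τ * Real.exp Y| ≤ E) (hTϑ : |T| * ϑ ≤ E) :
    |T * (u + v) + T * (Real.exp w - 1 - w) - (τ * Real.exp (u + v) + (T * Y - τ * Real.exp Y))| ≤
      30 * η₂ * E := by
  have hϑ0 : 0 < ϑ := lt_of_lt_of_le h1 h1'
  have hη0 : 0 < η₂ := lt_of_lt_of_le hϑ0 hϑ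
  have hE : 0 ≤ E := (abs_nonneg _).trans hT
  obtain ⟨hu1, hu2⟩ := abs_le.1 hu
  obtain ⟨r, hr⟩ : ∃ r, r = u - Y + v - w := ⟨_, rfl⟩
  obtain ⟨D, hD⟩ : ∃ D, D = T - τ * Real.exp Y := ⟨_, rfl⟩
  have hrb : |r| ≤ 2 * ϑ := abs_le.2 ⟨by linarith, by linarith⟩
  have hsb : |r + w| ≤ 3 * η₂ := abs_le.2 ⟨by linarith, by linarith⟩
  have e1 : Real.exp (u + v) = Real.exp Y * Real.exp (r + w) := by
    rw [← Real.exp_add]; congr 1; linarith
  have e2 : T * (u + v) + T * (Real.exp w - 1 - w) -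
      (τ * Real.exp (u + v) + (T * Y - τ * Real.exp Y)) =
      D * (Real.exp (r + w) - 1) -
        T * (Real.exp w * (Real.exp r - 1 - r) + (Real.exp w - 1) * r) := by
    rw [e1, Real.exp_add r w, hD, hr]; ring
  have b1 : |Real.exp (r + w) - 1| ≤ 6 * η₂ :=
    (Real.abs_exp_sub_one_le (by linarith)).trans (by linarith)
  have hwa : |w| = w := abs_of_nonneg hw0
  have b2 : |Real.exp w - 1| ≤ 2 * η₂ :=
    (Real.abs_exp_sub_one_le (by rw [hwa]; linarith)).trans (by rw [hwa]; linarith)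
  have b3 : |Real.exp w| ≤ 2 := by
    rw [abs_of_pos (Real.exp_pos w)]
    have := (abs_le.1 b2).2
    linarith
  have b4 : |Real.exp r - 1 - r| ≤ 4 * (ϑ * η₂) := by
    refine (Real.abs_exp_sub_one_sub_id_le (by linarith)).trans ?_
    have h3 : r ^ 2 ≤ (2 * ϑ) ^ 2 := by
      rw [← sq_abs]; exact pow_le_pow_left₀ (abs_nonneg _) hrb 2
    nlinarith
  have b5 : |Real.exp w * (Real.exp r - 1 - r) + (Real.exp w - 1) * r| ≤ 12 * (ϑ * η₂) := by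
    refine (abs_add_le _ _).trans ?_
    rw [abs_mul, abs_mul]
    have c1 := mul_le_mul b3 b4 (abs_nonneg _) (by norm_num)
    have c2 := mul_le_mul b2 hrb (abs_nonneg _) (by positivity)
    nlinarith
  rw [e2]
  refine (abs_sub _ _).trans ?_
  rw [abs_mul, abs_mul]
  rw [← hD] at hT
  have c1 := mul_le_mul hT b1 (abs_nonneg _) hE
  have c2 := mul_le_mul_of_nonneg_left b5 (abs_nonneg T)
  have c3 := mul_le_mul_of_nonneg_left hTϑ hη0.le
  have c4 : 0 ≤ η₂ * E := by positivity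
  nlinarith

end Pool.Agent.P.MP_a9a441_nt.FU
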