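import Pool.Agent.P.MP_a9a441_nt.FU.PhiUnf
import Pool.Agent.P.MP_a9a441_nt.FU.Phase

/-!
The test function at a low point is the short sum up to a phase. η₁ = 10 / N, η₂ = R η₁,
w = ys - ap η₁ p - i, u = η₁ w + log p, |u - η₁ ys| ≤ Ω η₁, |u - log x| ≤ 2 ϑ. Let J be the set in
`phi_unf`; J = {m : η₁ w ≤ log m < η₁ w + η₂} ⊆ Iv (x e^(-η₂) / p) (3 η₂), η₂⁻¹ ∑_J 1/m ≤ 3.
(1) replace g by 1: error d3. (2) the residue factor is ee (-(p s m)) (`coe_un`; val (p a) ≡ p val a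
mod q), and `phase` (v = log m - η₁ w, ϑ := Ω η₁) with `ee_lip` replaces the phase: error
3 * 210 η₂ E. (3) replace 1 / m by p / x: relative error 8 η₂. (4) replace J by Iv (x / p) η₂:
the symmetric difference has at most 24 ϑ x / p + 4 elements.
-/

namespace Pool.Agent.P.MP_a9a441_nt.FU

open Finset Filter Pool.Agent.Lib.LargeSieve
open scoped ComplexConjugate

namespace PhiLowAux

theorem norm_sum_sub_le (A B : Finset ℕ) (f : ℕ → ℂ) (hf : ∀ n, ‖f n‖ ≤ 1) :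
    ‖∑ n ∈ A, f n - ∑ n ∈ B, f n‖ ≤ ((A \ B).card : ℝ) + ((B \ A).card : ℝ) := by
  rw [← sum_sdiff_sub_sum_sdiff]
  have h : ∀ S : Finset ℕ, ‖∑ n ∈ S, f n‖ ≤ (S.card : ℝ) := fun S =>
    (norm_sum_le _ _).trans (by simpa using sum_le_card_nsmul S _ 1 fun n _ => hf n)
  exact (norm_sub_le _ _).trans (add_le_add (h _) (h _))

theorem card_le_one_of_cast {S : Finset ℕ} {z : ℝ} (h : ∀ m ∈ S, (m : ℝ) = z) :
    (S.card : ℝ) ≤ 1 := by
  have : S.card ≤ 1 := card_le_one.2 fun a ha b hb => by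
    have : (a : ℝ) = b := (h a ha).trans (h b hb).symm
    exact_mod_cast this
  exact_mod_cast this

theorem point {gm m y θ D : ℝ} {l F H : ℂ} (hm : 0 < m) (hl : ‖l‖ ≤ 1)
    (hF : ‖F‖ = 1) (hH : ‖H‖ = 1) (hD : ‖F - H‖ ≤ D) (hmy : |1 / m - 1 / y| ≤ 4 * θ / m) :
    ‖(gm : ℂ) * l / m * F - ((1 / y : ℝ) : ℂ) * (l * H)‖ ≤ |gm - 1| / m + (D + 4 * θ) / m := by
  have e : (gm : ℂ) * l / m * F - ((1 / y : ℝ) : ℂ) * (l * H) =
      l * ((((gm - 1) / m : ℝ) : ℂ) * F + ((1 / m : ℝ) : ℂ) * (F - H) +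
        ((1 / m - 1 / y : ℝ) : ℂ) * H) := by
    push_cast
    ring
  rw [e, norm_mul]
  have h1 : ‖(((gm - 1) / m : ℝ) : ℂ) * F‖ = |gm - 1| / m := by
    rw [norm_mul, hF, mul_one, Complex.norm_real, Real.norm_eq_abs, abs_div, abs_of_pos hm]
  have h2 : ‖((1 / m : ℝ) : ℂ) * (F - H)‖ ≤ D / m := by
    rw [norm_mul, Complex.norm_real, Real.norm_eq_abs, abs_of_pos (by positivity)]
    calc 1 / m * ‖F - H‖ ≤ 1 / m * D := by gcongr
      _ = D / m := by ring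
  have h3 : ‖((1 / m - 1 / y : ℝ) : ℂ) * H‖ ≤ 4 * θ / m := by
    rw [norm_mul, hH, mul_one, Complex.norm_real, Real.norm_eq_abs]
    exact hmy
  have h4 := norm_add₃_le (a := (((gm - 1) / m : ℝ) : ℂ) * F) (b := ((1 / m : ℝ) : ℂ) * (F - H))
    (c := ((1 / m - 1 / y : ℝ) : ℂ) * H)
  have h5 : (D + 4 * θ) / m = D / m + 4 * θ / m := by ring
  calc _ ≤ 1 * ‖(((gm - 1) / m : ℝ) : ℂ) * F + ((1 / m : ℝ) : ℂ) * (F - H) +
        ((1 / m - 1 / y : ℝ) : ℂ) * H‖ := by gcongr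
    _ ≤ _ := by linarith

theorem core {θ y z ϑ E α : ℝ} {C : ℂ} (g : ℕ → ℝ) (F : ℕ → ℂ) (J : Finset ℕ) (hθ : 0 < θ)
    (h2 : θ ≤ 1 / 8) (hy : 1 ≤ y * θ) (hz : 0 < z) (h1 : z ≤ y * Real.exp (2 * ϑ))
    (h1' : y ≤ z * Real.exp (2 * ϑ)) (hϑ0 : 0 ≤ ϑ) (hϑ : 4 * ϑ ≤ θ) (hE : 0 ≤ E)
    (hJ : ∀ m : ℕ, m ∈ J ↔ z ≤ m ∧ (m : ℝ) < z * Real.exp θ) (hC : ‖C‖ = 1)
    (hF1 : ∀ m, ‖F m‖ = 1) (hF : ∀ m ∈ J, ‖F m - C * ee (-(α * m))‖ ≤ 210 * θ * E) :
    ‖((θ : ℝ) : ℂ)⁻¹ * ∑ m ∈ J, (g m : ℂ) * lam m / m * F m -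
        C * ((1 / (y * θ) : ℝ) : ℂ) * Sm y θ α‖ ≤
      1000 * (θ * E + θ + ϑ / θ + 1 / (y * θ)) +
        θ⁻¹ * ∑ m ∈ Iv (y * Real.exp (-θ)) (3 * θ), |g m - 1| / m := by
  have hy0 : 0 < y := by
    by_contra h
    push Not at h
    nlinarith
  have e1 : Real.exp (2 * ϑ) ≤ 1 + θ := by
    have := exp_sub_one_le (t := 2 * ϑ) (by linarith) (by linarith)
    linarith
  have e2 : Real.exp θ ≤ 1 + 2 * θ := by
    have := exp_sub_one_le (t := θ) hθ.le (by linarith)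
    linarith
  have hzy : z ≤ y * (1 + θ) := h1.trans (by gcongr)
  have hyz : y ≤ z * (1 + θ) := h1'.trans (by gcongr)
  set f : ℕ → ℂ := fun n => lam n * ee (-(α * n)) with hf
  have hf1 : ∀ n, ‖f n‖ ≤ 1 := fun n => by
    rw [hf]
    simp only [norm_mul, norm_ee, mul_one]
    exact norm_lam_le n
  have c1 : ((J \ Iv z θ).card : ℝ) ≤ 1 := card_le_one_of_cast (z := z) fun m hm => by
    rw [Finset.mem_sdiff, hJ, mem_Iv hz.le] at hm
    by_contra h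
    exact hm.2 ⟨lt_of_le_of_ne hm.1.1 (Ne.symm h), hm.1.2.le⟩
  have c2 : ((Iv z θ \ J).card : ℝ) ≤ 1 :=
    card_le_one_of_cast (z := z * Real.exp θ) fun m hm => by
      rw [Finset.mem_sdiff, hJ, mem_Iv hz.le] at hm
      by_contra h
      exact hm.2 ⟨hm.1.1.le, lt_of_le_of_ne hm.1.2 h⟩
  have c3 : (J.card : ℝ) ≤ 2 * (z * θ) + 2 := by
    have k1 : J.card ≤ (J \ Iv z θ).card + (Iv z θ).card := card_le_card_sdiff_add_card
    have k2 : (J.card : ℝ) ≤ ((J \ Iv z θ).card : ℝ) + ((Iv z θ).card : ℝ) := by exact_mod_cast k1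
    have k3 := card_Iv_le hz.le hθ.le (by linarith : θ ≤ 1)
    linarith
  have s1 : ‖∑ n ∈ J, f n - Sm y θ α‖ ≤ 16 * ϑ * y + 4 := by
    have k1 : ‖∑ n ∈ J, f n - Sm z θ α‖ ≤ 2 := by
      have := norm_sum_sub_le J (Iv z θ) f hf1
      unfold Sm
      linarith
    have k2 : ‖Sm z θ α - Sm y θ α‖ ≤ 16 * ϑ * y + 2 := by
      rcases le_total z y with h | h
      · have := Sm_shift (ϑ := 2 * ϑ) hz h h1' hθ.le (by linarith : θ ≤ 1) (by linarith) α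
        nlinarith
      · have := Sm_shift (ϑ := 2 * ϑ) hy0 h h1 hθ.le (by linarith : θ ≤ 1) (by linarith) α
        rw [norm_sub_rev]
        linarith
    have k3 := norm_sub_le_norm_sub_add_norm_sub (∑ n ∈ J, f n) (Sm z θ α) (Sm y θ α)
    linarith
  have hD : 0 ≤ 210 * θ * E + 4 * θ := by positivity
  have s2 : ∀ m ∈ J, ‖(g m : ℂ) * lam m / m * F m - ((1 / y : ℝ) : ℂ) * (C * f m)‖ ≤
      |g m - 1| / m + (210 * θ * E + 4 * θ) / z := by
    intro m hm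
    obtain ⟨k1, k2⟩ := (hJ m).1 hm
    have hm0 : (0 : ℝ) < m := hz.trans_le k1
    have k3 : (m : ℝ) ≤ y * (1 + 4 * θ) := by
      have a1 : (m : ℝ) ≤ z * (1 + 2 * θ) := k2.le.trans (by gcongr)
      have a2 : z * (1 + 2 * θ) ≤ y * (1 + θ) * (1 + 2 * θ) := by gcongr
      have a3 : (1 + θ) * (1 + 2 * θ) ≤ 1 + 4 * θ := by nlinarith
      have a4 : y * ((1 + θ) * (1 + 2 * θ)) ≤ y * (1 + 4 * θ) := by gcongr
      nlinarith
    have k4 : y ≤ m * (1 + θ) := hyz.trans (by gcongr)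
    have k5 : |1 / (m : ℝ) - 1 / y| ≤ 4 * θ / m := by
      have a1 : 1 / (m : ℝ) - 1 / y = (y - m) / y / m := by field_simp
      rw [a1, abs_div, abs_of_pos hm0]
      gcongr
      rw [abs_div, abs_of_pos hy0, div_le_iff₀ hy0, abs_le]
      constructor
      · nlinarith
      · nlinarith
    have k6 := point (gm := g m) (l := lam m) (F := F m) (H := C * ee (-(α * m))) hm0
      (norm_lam_le m) (hF1 m) (by rw [norm_mul, hC, norm_ee, mul_one]) (hF m hm) k5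
    have k7 : (210 * θ * E + 4 * θ) / m ≤ (210 * θ * E + 4 * θ) / z := by gcongr
    have e : C * f m = lam m * (C * ee (-(α * m))) := by rw [hf]; ring
    rw [e]
    push_cast at k6 ⊢
    linarith
  have s3 : ∑ m ∈ J, |g m - 1| / (m : ℝ) ≤
      ∑ m ∈ Iv (y * Real.exp (-θ)) (3 * θ), |g m - 1| / m := by
    refine sum_le_sum_of_subset_of_nonneg (fun m hm => ?_) fun m _ _ => by positivity
    obtain ⟨k1, k2⟩ := (hJ m).1 hm
    rw [mem_Iv (by positivity)]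
    constructor
    · calc y * Real.exp (-θ) ≤ z * Real.exp (2 * ϑ) * Real.exp (-θ) := by gcongr
        _ = z * Real.exp (2 * ϑ + -θ) := by rw [Real.exp_add]; ring
        _ < z * 1 := by
          gcongr
          exact Real.exp_lt_one_iff.2 (by linarith)
        _ ≤ m := by linarith
    · calc (m : ℝ) ≤ z * Real.exp θ := k2.le
        _ ≤ y * Real.exp (2 * ϑ) * Real.exp θ := by gcongr
        _ = y * Real.exp (2 * ϑ + θ) := by rw [Real.exp_add]; ring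
        _ ≤ y * Real.exp (-θ + 3 * θ) :=
          mul_le_mul_of_nonneg_left (Real.exp_le_exp.2 (by linarith)) hy0.le
        _ = y * Real.exp (-θ) * Real.exp (3 * θ) := by rw [Real.exp_add]; ring
  have s4 : (J.card : ℝ) / z ≤ 17 / 4 * θ := by
    rw [div_le_iff₀ hz]
    have a1 : 1 ≤ z * (1 + θ) * θ := hy.trans (by gcongr)
    have a2 : z * θ * θ ≤ z * θ * (1 / 8) := by gcongr
    nlinarith
  have s5 : ‖∑ m ∈ J, ((g m : ℂ) * lam m / m * F m - ((1 / y : ℝ) : ℂ) * (C * f m))‖ ≤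
      ∑ m ∈ Iv (y * Real.exp (-θ)) (3 * θ), |g m - 1| / m +
        17 / 4 * θ * (210 * θ * E + 4 * θ) := by
    refine (norm_sum_le _ _).trans ((sum_le_sum s2).trans ?_)
    rw [sum_add_distrib, sum_const, nsmul_eq_mul]
    have : (J.card : ℝ) * ((210 * θ * E + 4 * θ) / z) ≤ 17 / 4 * θ * (210 * θ * E + 4 * θ) := by
      calc _ = (J.card : ℝ) / z * (210 * θ * E + 4 * θ) := by ring
        _ ≤ _ := by gcongr
    linarith
  have e : ((θ : ℝ) : ℂ)⁻¹ * ∑ m ∈ J, (g m : ℂ) * lam m / m * F m -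
      C * ((1 / (y * θ) : ℝ) : ℂ) * Sm y θ α =
      ((θ⁻¹ : ℝ) : ℂ) * (∑ m ∈ J, ((g m : ℂ) * lam m / m * F m - ((1 / y : ℝ) : ℂ) * (C * f m)) +
        ((1 / y : ℝ) : ℂ) * (C * (∑ n ∈ J, f n - Sm y θ α))) := by
    rw [sum_sub_distrib, ← mul_sum, ← mul_sum]
    push_cast
    ring
  have s6 : ‖((1 / y : ℝ) : ℂ) * (C * (∑ n ∈ J, f n - Sm y θ α))‖ ≤ 16 * ϑ + 4 / y := by
    rw [norm_mul, norm_mul, hC, one_mul, Complex.norm_real, Real.norm_eq_abs,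
      abs_of_pos (by positivity)]
    calc _ ≤ 1 / y * (16 * ϑ * y + 4) := by gcongr
      _ = _ := by field_simp
  rw [e, norm_mul, Complex.norm_real, Real.norm_eq_abs, abs_of_pos (by positivity)]
  set Sg := ∑ m ∈ Iv (y * Real.exp (-θ)) (3 * θ), |g m - 1| / (m : ℝ)
  calc _ ≤ θ⁻¹ * (Sg + 17 / 4 * θ * (210 * θ * E + 4 * θ) + (16 * ϑ + 4 / y)) := by
        gcongr
        exact (norm_add_le _ _).trans (add_le_add s5 s6)
    _ = 1785 / 2 * (θ * E) + 17 * θ + 16 * (ϑ / θ) + 4 * (1 / (y * θ)) + θ⁻¹ * Sg := by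
        field_simp
        ring
    _ ≤ _ := by
        have a1 : 0 ≤ θ * E := by positivity
        have a2 : 0 ≤ ϑ / θ := by positivity
        have a3 : 0 ≤ 1 / (y * θ) := by positivity
        linarith

theorem res {q p : ℕ} [NeZero q] (hp : p.Coprime q) {a : (ZMod q)ˣ} {s : ℝ}
    (hs : ∃ k : ℤ, s = ((a : ZMod q).val : ℝ) / q + k) (m : ℕ) :
    ee (-(((((un q p * a : (ZMod q)ˣ) : ZMod q).val : ℕ) : ℝ) / q * m)) = ee (-(p * s * m)) := by
  obtain ⟨k, rfl⟩ := hs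
  have hq : (0 : ℝ) < q := by exact_mod_cast Nat.pos_of_ne_zero (NeZero.ne q)
  have h1 : ((un q p * a : (ZMod q)ˣ) : ZMod q).val = p * (a : ZMod q).val % q := by
    rw [Units.val_mul, coe_un hp, ZMod.val_mul, ZMod.val_natCast, Nat.mod_mul_mod]
  have h2 := Nat.mod_add_div (p * (a : ZMod q).val) q
  rw [h1]
  set r := p * (a : ZMod q).val % q
  set d := p * (a : ZMod q).val / q
  have h3 : (r : ℝ) + q * d = p * (a : ZMod q).val := by exact_mod_cast h2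
  have h4 : -((r : ℝ) / q * m) =
      -(p * (((a : ZMod q).val : ℝ) / q + k) * m) + (((d + p * k) * m : ℤ) : ℝ) := by
    have : (r : ℝ) = p * (a : ZMod q).val - q * d := by linarith
    rw [this]
    push_cast
    field_simp
    ring
  rw [h4, ee_add, ee_int, mul_one]

theorem ap_iff {η : ℝ} (hη0 : 0 < η) (w : ℤ) (R : ℕ) {m : ℕ} (hm : 0 < m) :
    (w ≤ ap η m ∧ ap η m < w + R) ↔
      (Real.exp (η * w) ≤ m ∧ (m : ℝ) < Real.exp (η * w) * Real.exp (R * η)) := by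
  have hm0 : (0 : ℝ) < m := by exact_mod_cast hm
  rw [← Real.exp_add, ← Real.le_log_iff_exp_le hm0, ← Real.log_lt_iff_lt_exp hm0]
  unfold ap
  rw [Int.le_floor, Int.floor_lt, le_div_iff₀ hη0, div_lt_iff₀ hη0]
  push_cast
  constructor <;> rintro ⟨k1, k2⟩ <;> constructor <;> linarith

theorem mem_J {η M : ℝ} (hη0 : 0 < η) (hM : 0 < M) (w : ℤ) (R : ℕ) (b1 : M ≤ Real.exp (η * w))
    (b2 : Real.exp (η * w) * Real.exp (R * η) ≤ 16 * M) (m : ℕ) :
    m ∈ (Ms M).filter (fun m => w ≤ ap η m ∧ ap η m < w + R) ↔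
      Real.exp (η * w) ≤ m ∧ (m : ℝ) < Real.exp (η * w) * Real.exp (R * η) := by
  rw [mem_filter]
  constructor
  · rintro ⟨k1, k2⟩
    refine (ap_iff hη0 w R ?_).1 k2
    unfold Ms at k1
    rw [mem_Ioc] at k1
    omega
  · intro k
    have hm0 : (0 : ℝ) < m := (Real.exp_pos _).trans_le k.1
    refine ⟨?_, (ap_iff hη0 w R (by exact_mod_cast hm0)).2 k⟩
    unfold Ms
    rw [mem_Ioc, Nat.floor_lt (by positivity), Nat.le_floor_iff (by positivity)]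
    constructor <;> linarith [k.1, k.2]

theorem ph {η ϑ E T τ Y s β : ℝ} {w : ℤ} {R p m : ℕ} (hη0 : 0 < η) (h1 : η ≤ ϑ) (hϑ : ϑ ≤ R * η)
    (h2 : R * η ≤ 1 / 8) (hp1 : (0 : ℝ) < p) (hm0 : (0 : ℝ) < m) (k1 : w ≤ ap η m)
    (k2 : ap η m < w + R) (hu : |η * w + Real.log p - Y| ≤ ϑ) (hτ : τ = β - s)
    (hT : |T - τ * Real.exp Y| ≤ E) (hTϑ : |T| * ϑ ≤ E) :
    ‖ee (-(T * Real.log m)) * kT η T (ap η m - w).toNat * ee (-(p * s * m)) -
      ee (-(T * Y - τ * Real.exp Y)) * ee (T * Real.log p) * ee (-(p * β * m))‖ ≤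
      210 * (R * η) * E := by
  have j1 : (((ap η m - w).toNat : ℕ) : ℝ) = (ap η m : ℝ) - w := by
    have : (((ap η m - w).toNat : ℕ) : ℤ) = ap η m - w := Int.toNat_of_nonneg (by omega)
    exact_mod_cast this
  have j2 : (0 : ℝ) ≤ (ap η m : ℝ) - w := by
    have : (w : ℝ) ≤ ap η m := by exact_mod_cast k1
    linarith
  have j3 : (ap η m : ℝ) - w ≤ R := by
    have : (ap η m : ℝ) ≤ w + R := by exact_mod_cast k2.le
    linarith
  have b1 := ap_le hη0 m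
  have b2 := lt_ap hη0 m
  have hph := phase (η₁ := η) (η₂ := R * η) (ϑ := ϑ) (E := E) (T := T) (τ := τ)
    (Y := Y) (u := η * w + Real.log p) (v := Real.log m - η * w)
    (w := η * ((ap η m : ℝ) - w)) hη0 h1 hϑ h2 (mul_nonneg hη0.le j2)
    ((mul_le_mul_of_nonneg_left j3 hη0.le).trans_eq (mul_comm _ _)) (by linarith) (by linarith)
    hu hT hTϑ
  have ex : Real.exp (η * w + Real.log p + (Real.log m - η * w)) = p * m := by
    rw [show η * w + Real.log p + (Real.log m - η * w) = Real.log p + Real.log m by ring,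
      Real.exp_add, Real.exp_log hp1, Real.exp_log hm0]
  rw [ex, ← abs_neg] at hph
  unfold kT
  rw [j1, ← ee_add, ← ee_add, ← ee_add, ← ee_add]
  refine (ee_lip _ _).trans ?_
  have := mul_le_mul_of_nonneg_left hph (show (0 : ℝ) ≤ 7 by norm_num)
  refine le_trans (le_of_eq ?_) (this.trans (le_of_eq (by ring)))
  congr 2
  rw [hτ]
  ring

theorem geo {M y θ ϑ W : ℝ} (hM : 0 < M) (hy0 : 0 < y) (hθ0 : 0 < θ) (hϑ : 4 * ϑ ≤ θ)
    (hWy : |W - Real.log y| ≤ 2 * ϑ) (hM1 : M ≤ y * Real.exp (-θ))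
    (hM2 : y * Real.exp (2 * θ) ≤ 16 * M) :
    Real.log M - 1 ≤ W ∧ W ≤ Real.log M + 4 ∧ Real.exp W ≤ y * Real.exp (2 * ϑ) ∧
      y ≤ Real.exp W * Real.exp (2 * ϑ) ∧ M ≤ Real.exp W ∧ Real.exp W * Real.exp θ ≤ 16 * M := by
  have hl1 : Real.log M ≤ Real.log y - θ := by
    have := Real.log_le_log hM hM1
    rw [Real.log_mul hy0.ne' (Real.exp_pos _).ne', Real.log_exp] at this
    linarith
  have hl2 : Real.log y + 2 * θ ≤ 4 + Real.log M := by
    have k1 := Real.log_le_log (by positivity) hM2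
    rw [Real.log_mul hy0.ne' (Real.exp_pos _).ne', Real.log_exp,
      Real.log_mul (by norm_num) hM.ne'] at k1
    have k2 : Real.log 16 = 4 * Real.log 2 := by
      rw [show (16 : ℝ) = 2 ^ 4 by norm_num, Real.log_pow]
      norm_num
    have k3 := Real.log_le_sub_one_of_pos (show (0 : ℝ) < 2 by norm_num)
    linarith
  obtain ⟨hWy1, hWy2⟩ := abs_le.1 hWy
  refine ⟨by linarith, by linarith, ?_, ?_, ?_, le_trans ?_ hM2⟩
  · rw [← Real.exp_log hy0, ← Real.exp_add]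
    exact Real.exp_le_exp.2 (by linarith)
  · rw [← Real.exp_log hy0, ← Real.exp_add]
    exact Real.exp_le_exp.2 (by linarith)
  · rw [← Real.exp_log hM]
    exact Real.exp_le_exp.2 (by linarith)
  · rw [← Real.exp_log hy0, ← Real.exp_add, ← Real.exp_add]
    exact Real.exp_le_exp.2 (by linarith)

theorem near {η : ℝ} (hη0 : 0 < η) (ys : ℤ) (p : ℕ) {i Ω : ℕ} (hi : i < Ω) :
    η ≤ Ω * η ∧ |η * ((ys - ap η p - i : ℤ) : ℝ) + Real.log p - η * ys| ≤ Ω * η := by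
  have hi1 : (i : ℝ) + 1 ≤ Ω := by exact_mod_cast hi
  have hi0 : (0 : ℝ) ≤ i := Nat.cast_nonneg i
  have a1 := ap_le hη0 p
  have a2 := lt_ap hη0 p
  have a3 := mul_le_mul_of_nonneg_right hi1 hη0.le
  have a4 := mul_nonneg hi0 hη0.le
  refine ⟨by linarith, ?_⟩
  push_cast
  rw [abs_le]
  constructor <;> linarith

end PhiLowAux

theorem phi_low {N q R Ω p i : ℕ} [NeZero N] [NeZero q] {M T x β ϑ E : ℝ} {s : ℚ} {ys : ℤ}
    {a : (ZMod q)ˣ} (g : ℕ → ℝ) (hR : 1 ≤ R) (h2 : (R : ℝ) * (10 / N) ≤ 1 / 8) (hx : 0 < x)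
    (hM : 0 < M) (hp0 : 0 < p) (hp : p.Coprime q) (hi : i < Ω)
    (hs : ∃ k : ℤ, (s : ℝ) = ((a : ZMod q).val : ℝ) / q + k)
    (hys : |10 / (N : ℝ) * ys - Real.log x| ≤ ϑ) (hΩ : ((Ω : ℝ) + 1) * (10 / N) ≤ ϑ)
    (hϑ : 4 * ϑ ≤ R * (10 / N)) (hT : |T - (β - s) * Real.exp (10 / N * ys)| ≤ E)
    (hTΩ : |T| * (Ω * (10 / N)) ≤ E) (hM1 : M ≤ x * Real.exp (-(R * (10 / N))) / p)
    (hM2 : x * Real.exp (2 * (R * (10 / N))) / p ≤ 16 * M) (hpx : (p : ℝ) ≤ x * (R * (10 / N))) :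
    ‖Phi N R T M g (((ys - ap (10 / N) p - i : ℤ) : ZMod N), un q p * a) -
      ee (-(T * (10 / N * ys) - (β - s) * Real.exp (10 / N * ys))) * ee (T * Real.log p) *
        (((p : ℝ) / (x * (R * (10 / N))) : ℝ) : ℂ) * Sm (x / p) (R * (10 / N)) (p * β)‖ ≤
      1000 * (R * (10 / N) * E + R * (10 / N) + ϑ / (R * (10 / N)) + p / (x * (R * (10 / N)))) +
        d3 g x (R * (10 / N)) p := by
  have hN : (0 : ℝ) < N := by exact_mod_cast Nat.pos_of_ne_zero (NeZero.ne N)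
  have hη0 : (0 : ℝ) < 10 / N := by positivity
  have hunf := phi_unf (N := N) T g hM hR (h2.trans (by norm_num)) (ys - ap (10 / N) p - i)
    (un q p * a)
  generalize (10 / N : ℝ) = η at *
  have hR1 : (1 : ℝ) ≤ R := by exact_mod_cast hR
  have hθ0 : 0 < R * η := by positivity
  have hp1 : (0 : ℝ) < p := by exact_mod_cast hp0
  have hE : 0 ≤ E := (abs_nonneg _).trans hT
  have hϑ0 : 0 ≤ ϑ := (abs_nonneg _).trans hys
  obtain ⟨hηΩ, hu⟩ := PhiLowAux.near hη0 ys p hi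
  generalize ys - ap η p - i = w at *
  have hΩϑ : Ω * η ≤ ϑ := by linarith
  have hy0 : 0 < x / p := by positivity
  have hly : Real.log (x / p) = Real.log x - Real.log p := Real.log_div hx.ne' hp1.ne'
  have hWy : |η * w - Real.log (x / p)| ≤ 2 * ϑ := by
    rw [abs_le] at hu hys ⊢
    constructor <;> linarith [hu.1, hu.2, hys.1, hys.2]
  have e1 : (p : ℝ) / (x * (R * η)) = 1 / (x / p * (R * η)) := by field_simp
  have e2 : x * Real.exp (-(R * η)) / p = x / p * Real.exp (-(R * η)) := by ring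
  have e3 : x * Real.exp (2 * (R * η)) / p = x / p * Real.exp (2 * (R * η)) := by ring
  have hyθ : 1 ≤ x / p * (R * η) := by
    rw [div_mul_eq_mul_div, le_div_iff₀ hp1]
    linarith
  obtain ⟨g1, g2, g3, g4, g5, g6⟩ := PhiLowAux.geo hM hy0 hθ0 hϑ hWy (e2 ▸ hM1) (e3 ▸ hM2)
  have hJ := PhiLowAux.mem_J hη0 hM w R g5 g6
  have key := PhiLowAux.core (α := p * β)
    (C := ee (-(T * (η * ys) - (β - s) * Real.exp (η * ys))) * ee (T * Real.log p)) g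
    (fun m => ee (-(T * Real.log m)) * kT η T (ap η m - w).toNat * ee (-(p * s * m))) _ hθ0 h2 hyθ
    (Real.exp_pos _) g3 g4 hϑ0 hϑ hE hJ (by rw [norm_mul, norm_ee, norm_ee, mul_one])
    (fun m => by simp only [kT, norm_mul, norm_ee, mul_one]) (fun m hm =>
      PhiLowAux.ph hη0 hηΩ (by linarith) h2 hp1 ((Real.exp_pos _).trans_le ((hJ m).1 hm).1)
        (mem_filter.1 hm).2.1 (mem_filter.1 hm).2.2 hu rfl hT hTΩ)
  rw [hunf g1 g2]
  unfold d3
  rw [e1, e2]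
  refine le_trans (le_of_eq ?_) key
  congr 3
  refine sum_congr rfl fun m _ => ?_
  rw [PhiLowAux.res hp hs m]
  ring

end Pool.Agent.P.MP_a9a441_nt.FU
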