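import Pool.Agent.P.MP_a9a441_nt.FU.UB
import Pool.Agent.P.MP_a9a441_nt.FU.LB
import Pool.Agent.P.MP_a9a441_nt.FU.PhiLow
import Pool.Agent.P.MP_a9a441_nt.FU.Mult

/-!
The inequality for one class. N = 10 X^10, so 10 / N = 1 / X^10; R = ρ h X^9, so
R (10 / N) = ρ η =: η₂; M = X / (3 2^j); K = ⟨Ω, S, ys, ar ∘ s⟩ with ar from `res_unit`; W = 133
(`mult`); θ p = -ee (-(T log p)), c y = ee (T η₁ ys - τ e^(η₁ ys)) * conj F / ‖F‖, F = Sm (x_y) η₂ (β y)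
(norm ≤ 1). By `phi_low` with ϑ = 22 η, E = 12 E₀ and `Par.err`,
Re (θ c Φ) ≥ ‖F‖ / (x η₂) - dTK - d3 - δ/2 ≥ δ/2 - (dTK + d3). Combine `lb` (δ/2) with `ub`; the
spectra are bounded by `spec` (N q ≤ X^16 ≤ P^r, 20 r ≤ N) and `Par.spec`. card S ≤ Q.N ≤ 2 / η
(from hY at both ends), Ω η₁ ≤ 22 η. If S is empty the edge set is empty.
-/

namespace Pool.Agent.P.MP_a9a441_nt.FU

open Finset Filter Pool.Agent.Lib.LargeSieve
open scoped ComplexConjugate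

namespace CLAux

theorem ee_neg_mul (a : ℝ) : ee (-a) * ee a = 1 := by
  rw [← ee_add, neg_add_cancel]
  simpa using ee_int 0

theorem norm_c (A : ℝ) (F : ℂ) : ‖ee A * conj F / (‖F‖ : ℂ)‖ ≤ 1 := by
  rw [norm_div, norm_mul, norm_ee, one_mul, Complex.norm_conj, Complex.norm_real, norm_norm]
  exact div_self_le_one _

theorem key {Φ F G : ℂ} {A B L δ e : ℝ} {p : ℕ} (hL : 0 < L) (hδ : 0 < δ) (hF : δ * L ≤ ‖F‖)
    (h : ‖Φ - ee (-A) * ee B * (((p : ℝ) / L : ℝ) : ℂ) * G‖ ≤ e) :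
    δ - ‖(p : ℂ) * G + F‖ / L - e ≤ (-ee (-B) * (ee A * conj F / (‖F‖ : ℂ)) * Φ).re := by
  have hF0 : 0 < ‖F‖ := lt_of_lt_of_le (by positivity) hF
  have hFc : (‖F‖ : ℂ) ≠ 0 := by exact_mod_cast hF0.ne'
  have hLc : (L : ℂ) ≠ 0 := by exact_mod_cast hL.ne'
  have e1 := ee_neg_mul A
  have e2 := ee_neg_mul B
  have e3 : conj F * F = (‖F‖ : ℂ) ^ 2 := Complex.conj_mul' F
  have id : -ee (-B) * (ee A * conj F / (‖F‖ : ℂ)) * Φ =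
      -ee (-B) * (ee A * conj F / (‖F‖ : ℂ)) *
        (Φ - ee (-A) * ee B * (((p : ℝ) / L : ℝ) : ℂ) * G) + ((‖F‖ / L : ℝ) : ℂ) +
        -(conj F / (‖F‖ : ℂ) * (((p : ℂ) * G + F) / L)) := by
    push_cast
    field_simp
    linear_combination (-(ee (-A) * ee A) * conj F * p * G) * e2 - (conj F * p * G) * e1 + e3
  have b1 : ‖-ee (-B) * (ee A * conj F / (‖F‖ : ℂ)) *
      (Φ - ee (-A) * ee B * (((p : ℝ) / L : ℝ) : ℂ) * G)‖ ≤ e := by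
    rw [norm_mul, norm_mul, norm_neg, norm_ee, one_mul]
    exact (mul_le_of_le_one_left (norm_nonneg _) (norm_c A F)).trans h
  have b2 : ‖-(conj F / (‖F‖ : ℂ) * (((p : ℂ) * G + F) / L))‖ = ‖(p : ℂ) * G + F‖ / L := by
    rw [norm_neg, norm_mul, norm_div, norm_div, Complex.norm_conj, Complex.norm_real, norm_norm,
      div_self hF0.ne', one_mul, Complex.norm_real, Real.norm_of_nonneg hL.le]
  have b3 : δ ≤ ‖F‖ / L := by rwa [le_div_iff₀ hL]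
  rw [id, Complex.add_re, Complex.add_re, Complex.ofReal_re]
  have c1 := (abs_le.1 ((Complex.abs_re_le_norm _).trans b1)).1
  have c2 := (abs_le.1 ((Complex.abs_re_le_norm _).trans b2.le)).1
  linarith

variable (Q : Par)

theorem X10 : (10 : ℝ) ≤ Q.X := by exact_mod_cast Q.hX

theorem X0 : (0 : ℝ) < Q.X := lt_of_lt_of_le (by norm_num) (X10 Q)

theorem ρ88 : (88 : ℝ) ≤ Q.ρ := by exact_mod_cast Q.hρ

theorem h1 : (1 : ℝ) ≤ Q.h := by exact_mod_cast Q.hh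

theorem η_pos : 0 < Q.η := div_pos (lt_of_lt_of_le one_pos (h1 Q)) (X0 Q)

theorem η2_le : Q.ρ * Q.η ≤ 1 / 880 := by
  have h := Q.η0
  have h1 := ρ88 Q
  have h2 := η_pos Q
  change (Q.ρ : ℝ) ^ 2 * Q.η ≤ 1 / 10 at h
  have h3 : 0 ≤ Q.ρ * Q.η := by positivity
  nlinarith

theorem η_le : Q.η ≤ 1 / 880 := by
  have h1 := ρ88 Q
  have h2 := η_pos Q
  have h3 := η2_le Q
  nlinarith

theorem P_le : 4000 * (2 : ℝ) ^ Q.j ≤ Q.ρ * Q.h := by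
  have h := Q.err
  have h1 := ρ88 Q
  have h2 := CLAux.h1 Q
  have h3 := Q.δ0
  have h4 := Q.δ1
  have h5 := X0 Q
  have a1 : 0 ≤ 12 * (2304 / Q.δ ^ 2) / (Q.ρ : ℝ) := by positivity
  have a2 : 0 ≤ (Q.ρ : ℝ) * (Q.h / Q.X) := by positivity
  have a3 : 0 ≤ 22 / (Q.ρ : ℝ) := by positivity
  have a4 : 2 * 2 ^ Q.j / ((Q.ρ : ℝ) * Q.h) ≤ 1 / 2000 := by linarith
  rw [div_le_div_iff₀ (by positivity) (by norm_num)] at a4
  linarith

theorem Xη : (Q.X : ℝ) * (Q.ρ * Q.η) = Q.ρ * Q.h := by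
  have h5 := X0 Q
  unfold Par.η
  field_simp

theorem ρh_le : (Q.ρ : ℝ) * Q.h ≤ Q.X := by
  have h := η2_le Q
  have h5 := X0 Q
  rw [← Xη]
  nlinarith

end CLAux

open CLAux

theorem Par.N_le (Q : Par) : (Q.N : ℝ) * Q.η ≤ 2 := by
  have hN : 1 ≤ Q.N := by
    rcases Nat.eq_zero_or_pos Q.N with h | h
    · have := Q.hN
      rw [h] at this
      norm_num at this
    · exact h
  have a := (Q.hY Q.y0 (by rw [mem_Ico]; omega)).1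
  have b := (Q.hY (Q.y0 + (Q.N - 1 : ℤ)) (by rw [mem_Ico]; omega)).2
  rw [xx_add] at b
  have hX := X0 Q
  have hE := Real.exp_pos ((Q.h : ℝ) / Q.X * ((Q.N - 1 : ℤ) : ℝ))
  have c : Real.exp ((Q.h : ℝ) / Q.X * ((Q.N - 1 : ℤ) : ℝ)) ≤ 4 := by nlinarith
  have d := (Real.le_log_iff_exp_le (by norm_num : (0 : ℝ) < 4)).2 c
  have e : Real.log 4 = 2 * Real.log 2 := by
    rw [show (4 : ℝ) = 2 ^ 2 by norm_num, Real.log_pow]; norm_num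
  have f := Real.log_two_lt_d9
  have g := η_le Q
  unfold Par.η at g ⊢
  push_cast at d
  nlinarith

theorem Par.range (Q : Par) {y : ℤ} (hy : y ∈ Ico Q.y0 (Q.y0 + Q.N)) {p : ℕ} (hp : p ∈ Pj Q.j) :
    (Q.X : ℝ) / (3 * 2 ^ Q.j) ≤ xx Q.η y * Real.exp (-(Q.ρ * Q.η)) / p ∧
      xx Q.η y * Real.exp (2 * (Q.ρ * Q.η)) / p ≤ 16 * ((Q.X : ℝ) / (3 * 2 ^ Q.j)) := by
  obtain ⟨a, b⟩ := Q.hY y hy
  change _ ≤ xx Q.η y at a
  change xx Q.η y ≤ _ at b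
  obtain ⟨hp1, hp2, hp3⟩ := mem_Pj.1 hp
  have p2 : (2 : ℝ) ^ Q.j ≤ p := by exact_mod_cast hp2
  have p3 : (p : ℝ) ≤ 2 * 2 ^ Q.j := by exact_mod_cast hp3.le
  have hP : (0 : ℝ) < 2 ^ Q.j := by positivity
  have p0 : (0 : ℝ) < p := hP.trans_le p2
  have hX := X0 Q
  have h2 := η2_le Q
  have h0 : 0 ≤ Q.ρ * Q.η := by have := η_pos Q; positivity
  constructor
  · have e : 2 / 3 ≤ Real.exp (-(Q.ρ * Q.η)) := by
      have := Real.add_one_le_exp (-(Q.ρ * Q.η)); linarith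
    have e2 : Q.X * (2 / 3) ≤ xx Q.η y * Real.exp (-(Q.ρ * Q.η)) :=
      mul_le_mul a e (by norm_num) (xx_pos _ _).le
    rw [div_le_div_iff₀ (by positivity) p0]
    nlinarith
  · have e : Real.exp (2 * (Q.ρ * Q.η)) ≤ 4 / 3 := by
      have := exp_sub_one_le (t := 2 * (Q.ρ * Q.η)) (by linarith) (by linarith); linarith
    have e2 : xx Q.η y * Real.exp (2 * (Q.ρ * Q.η)) ≤ 4 * Q.X * (4 / 3) :=
      mul_le_mul b e (Real.exp_pos _).le (by positivity)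
    rw [← mul_div_assoc, div_le_div_iff₀ p0 (by positivity)]
    nlinarith

theorem cl (Q : Par) (β : ℤ → ℝ) (s : ℤ → ℚ) {q Ω : ℕ} (hq : q ≤ Q.X ^ 5) (T : ℝ) (S : Finset ℤ)
    (ys : ℤ → ℤ) (hS : S ⊆ Ico Q.y0 (Q.y0 + Q.N)) (hden : ∀ y ∈ S, (s y).den = q)
    (hb : ∀ y ∈ S, Q.δ * (xx Q.η y * (Q.ρ * Q.η)) ≤ ‖Sm (xx Q.η y) (Q.ρ * Q.η) (β y)‖)
    (pos : ∀ y ∈ S, |1 / (Q.X : ℝ) ^ 10 * ys y - Q.η * y| ≤ 22 * Q.η)
    (om1 : ((Ω : ℝ) + 1) * (1 / (Q.X : ℝ) ^ 10) ≤ 22 * Q.η) (om2 : Q.X ^ 2 ≤ Ω)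
    (t1 : ∀ y ∈ S, |T - (β y - s y) * Real.exp (1 / (Q.X : ℝ) ^ 10 * ys y)| ≤ 12 * Q.E₀)
    (t2 : |T| * (Ω * (1 / (Q.X : ℝ) ^ 10)) ≤ 12 * Q.E₀) (t3 : |T| ≤ (Q.X : ℝ) ^ 9)
    (Ed : Finset (ℤ × Lb))
    (hE : ∀ e ∈ Ed, e.1 ∈ S ∧ st (ap Q.η) e.1 e.2 ∈ S ∧ e.2.1 ∈ Pj Q.j ∧ e.2.2 ∈ Pj Q.j ∧
      ¬ e.2.1 ∣ q ∧ ¬ e.2.2 ∣ q ∧
      (∃ k : ℤ, (e.2.1 : ℚ) * s e.1 - e.2.2 * s (st (ap Q.η) e.1 e.2) = k) ∧
      2 * |ys e.1 - ap (1 / (Q.X : ℝ) ^ 10) e.2.1 -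
        (ys (st (ap Q.η) e.1 e.2) - ap (1 / (Q.X : ℝ) ^ 10) e.2.2)| ≤ Ω) :
    Q.δ / 4 * Ed.card / ((Pj Q.j).card : ℝ) ^ 2 ≤
      133 / (Pj Q.j).card * ∑ y ∈ S, ∑ p ∈ Pj Q.j,
        (dTK (xx Q.η y) (Q.ρ * Q.η) (β y) p + d3 Q.g (xx Q.η y) (Q.ρ * Q.η) p) +
      133 * S.card * Q.ε₇ := by
  rcases S.eq_empty_or_nonempty with rfl | ⟨y₁, hy₁⟩
  · have : Ed = ∅ := by
      refine eq_empty_of_forall_notMem fun e he => ?_
      simpa using (hE e he).1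
    simp [this]
  have hq0 : q ≠ 0 := by rw [← hden y₁ hy₁]; exact (s y₁).den_nz
  have : NeZero q := ⟨hq0⟩
  have hXn := Q.hX
  have hX := X0 Q
  have hX10 := X10 Q
  obtain ⟨N, hN⟩ : ∃ N : ℕ, N = 10 * Q.X ^ 10 := ⟨_, rfl⟩
  have hN0 : N ≠ 0 := by rw [hN]; positivity
  have : NeZero N := ⟨hN0⟩
  have hη₁ : 1 / (Q.X : ℝ) ^ 10 = 10 / (N : ℝ) := by
    rw [hN]; push_cast; field_simp
  obtain ⟨R, hR⟩ : ∃ R : ℕ, R = Q.ρ * Q.h * Q.X ^ 9 := ⟨_, rfl⟩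
  have hR1 : 1 ≤ R := by
    have := Q.hρ
    have := Q.hh
    rw [hR]
    exact Nat.succ_le_of_lt (by positivity)
  have hη₂ : (R : ℝ) * (10 / N) = Q.ρ * Q.η := by
    rw [← hη₁, hR]; unfold Par.η; push_cast; field_simp
  have hη := η_pos Q
  have hηl := η_le Q
  have h2l := η2_le Q
  have hρ := ρ88 Q
  have hh := CLAux.h1 Q
  have hP := P_le Q
  have hP0 : (0 : ℝ) < 2 ^ Q.j := by positivity
  have hXη := Xη Q
  have hρh := ρh_le Q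
  have h20 : 0 < Q.ρ * Q.η := by positivity
  have hX10p : (0 : ℝ) < (Q.X : ℝ) ^ 10 := by positivity
  have hΩ1 : (Ω : ℝ) ≤ 22 * Q.η * (Q.X : ℝ) ^ 10 := by
    rw [mul_one_div, div_le_iff₀ hX10p] at om1
    linarith
  have hNr : (N : ℝ) = 10 * (Q.X : ℝ) ^ 10 := by rw [hN]; push_cast; ring
  have hΩN : Ω ≤ N := by
    have : (Ω : ℝ) ≤ N := by rw [hNr]; nlinarith
    exact_mod_cast this
  have hΩ0 : 1 ≤ Ω := le_trans (Nat.succ_le_of_lt (by positivity)) om2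
  rw [hη₁] at pos om1 t1 t2 hE
  obtain ⟨ar, har1, har2⟩ := res_unit q
  let K : Cls q := ⟨Ω, S, ys, fun y => ar (s y)⟩
  have hYS : ∀ y ∈ S, (Q.X : ℝ) ≤ xx Q.η y ∧ xx Q.η y ≤ 4 * Q.X := fun y hy => Q.hY y (hS hy)
  have hW : K.Mult N 133 := mult K hη (by linarith) hX hYS pos om1
  let θ : ℕ → ℂ := fun p => -ee (-(T * Real.log p))
  let c : ℤ → ℂ := fun y =>
    ee (T * (10 / N * ys y) - (β y - s y) * Real.exp (10 / N * ys y)) *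
      conj (Sm (xx Q.η y) (Q.ρ * Q.η) (β y)) / (‖Sm (xx Q.η y) (Q.ρ * Q.η) (β y)‖ : ℂ)
  have hθ : ∀ p, ‖θ p‖ ≤ 1 := fun p => by simp only [θ]; rw [norm_neg, norm_ee]
  have hc : ∀ y, ‖c y‖ ≤ 1 := fun y => norm_c _ _
  have hM0 : (0 : ℝ) < Q.X / (3 * 2 ^ Q.j) := by positivity
  have hlow := lb (N := N) Q.ne K hΩ0 hΩN hW (δ := Q.δ / 2) (by have := Q.δ0; positivity) θ c
    (Phi N R T (Q.X / (3 * 2 ^ Q.j)) Q.g)
    (fun y p => dTK (xx Q.η y) (Q.ρ * Q.η) (β y) p + d3 Q.g (xx Q.η y) (Q.ρ * Q.η) p)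
    (fun y p => by
      have := xx_pos Q.η y
      unfold dTK d3
      positivity)
    (fun y hy p hp hpq i hi => by
      obtain ⟨hp1, hp2, hp3⟩ := mem_Pj.1 hp
      have p3 : (p : ℝ) ≤ 2 * 2 ^ Q.j := by exact_mod_cast hp3.le
      have hx := xx_pos Q.η y
      obtain ⟨r1, r2⟩ := Q.range (hS hy) hp
      have hxl : (Q.ρ : ℝ) * Q.h ≤ xx Q.η y * (Q.ρ * Q.η) := by
        rw [← hXη]
        exact mul_le_mul_of_nonneg_right (hYS y hy).1 h20.le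
      have hlog : Real.log (xx Q.η y) = Q.η * y := Real.log_exp _
      have main := phi_low (N := N) (R := R) (Ω := Ω) (p := p) (i := i)
        (M := Q.X / (3 * 2 ^ Q.j)) (T := T) (x := xx Q.η y) (β := β y) (ϑ := 22 * Q.η)
        (E := 12 * Q.E₀) (s := s y) (ys := ys y) (a := ar (s y)) Q.g hR1
        (by rw [hη₂]; linarith) hx hM0 hp1.pos hpq hi (har1 _ (hden y hy))
        (by rw [hlog]; exact pos y hy) om1 (by rw [hη₂]; nlinarith) (t1 y hy) t2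
        (by rw [hη₂]; exact r1) (by rw [hη₂]; exact r2) (by rw [hη₂]; linarith)
      rw [hη₂] at main
      have k := key (by positivity) Q.δ0 (hb y hy) main
      have e1 : Q.ρ * Q.η * (12 * Q.E₀) = 12 * (2304 / Q.δ ^ 2) / Q.ρ := by
        unfold Par.E₀
        have := Q.δ0
        field_simp
      have e2 : 22 * Q.η / (Q.ρ * Q.η) = 22 / Q.ρ := by field_simp
      have e3 : (p : ℝ) / (xx Q.η y * (Q.ρ * Q.η)) ≤ 2 * 2 ^ Q.j / (Q.ρ * Q.h) :=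
        div_le_div₀ (by positivity) p3 (by positivity) hxl
      have err := Q.err
      change 1000 * (12 * (2304 / Q.δ ^ 2) / Q.ρ + Q.ρ * Q.η + 22 / Q.ρ +
        2 * 2 ^ Q.j / (Q.ρ * Q.h)) ≤ Q.δ / 2 at err
      rw [e1, e2] at k
      refine le_trans ?_ k
      unfold dTK
      linarith)
    Ed (fun e => st (ap Q.η) e.1 e.2)
    (fun e he => by
      obtain ⟨a1, a2, a3, a4, a5, a6, a7, a8⟩ := hE e he
      have c1 := (Nat.Prime.coprime_iff_not_dvd (mem_Pj.1 a3).1).2 a5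
      have c2 := (Nat.Prime.coprime_iff_not_dvd (mem_Pj.1 a4).1).2 a6
      exact ⟨a1, a2, a3, a4, c1, c2, har2 _ _ _ _ (hden _ a1) (hden _ a2) c1 c2 a7, a8⟩)
  have hB : ∀ θ' : ℕ → ℂ, (∀ p, ‖θ' p‖ ≤ 1) →
      ((Bs N q (Pj Q.j) θ' Q.c K.Ω).card : ℝ) ≤ Q.Z := by
    intro θ' hθ'
    have r1 : 20 * Q.r ≤ N := by
      have a1 := Q.rX
      have a2 : Q.X ^ 2 ≤ Q.X ^ 10 := Nat.pow_le_pow_right (by omega) (by norm_num)
      rw [hN]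
      nlinarith
    have r2 : N * q ≤ (2 ^ Q.j) ^ Q.r := by
      refine le_trans ?_ Q.rP
      rw [hN]
      calc 10 * Q.X ^ 10 * q ≤ Q.X * Q.X ^ 10 * Q.X ^ 5 := by gcongr
        _ = Q.X ^ 16 := by ring
    have := spec (N := N) (q := q) (P := 2 ^ Q.j) (r := Q.r) (fun p hp => mem_Pj.1 hp) Q.ne hθ'
      Q.c0 Q.r1 r1 r2 K.Ω
    refine this.trans ?_
    push_cast
    exact Q.spec
  have hcard : (S.card : ℝ) ≤ Q.N := by
    have := card_le_card hS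
    rw [Int.card_Ico] at this
    have e : (Q.y0 + Q.N - Q.y0).toNat = Q.N := by omega
    rw [e] at this
    exact_mod_cast this
  have hup := ub (N := N) (q := q) (R := R) hN (by omega) Q.wt Q.G1 Q.ε₅0 hR1
    (by rw [hη₂]; linarith)
    (by
      rw [hη₂, div_mul_eq_mul_div, hXη, le_div_iff₀ (by positivity)]
      linarith)
    (by
      rw [le_div_iff₀ (by positivity)]
      linarith)
    t3 Q.ne K om2 hΩN hW
    (by
      change (S.card : ℝ) * Ω ≤ 133 * N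
      have a1 : (S.card : ℝ) * Ω ≤ Q.N * (22 * Q.η * (Q.X : ℝ) ^ 10) :=
        mul_le_mul hcard hΩ1 (by positivity) (by positivity)
      have a2 := mul_le_mul_of_nonneg_right Q.N_le hX10p.le
      rw [hNr]
      nlinarith)
    Q.c0 Q.c1 Q.cZ (θ₁ := θ) (θ₂ := fun _ => 1) (c₁ := c) (c₂ := fun _ => 1) hθ
    (fun _ => by simp) hc (fun _ => by simp) (hB _ hθ) (hB _ fun _ => by simp)
  have hre := mul_le_mul_of_nonneg_left
    (Complex.re_le_norm (∑ x, Th N (Pj Q.j) K θ c x * Th N (Pj Q.j) K (fun _ => 1) (fun _ => 1) x *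
      Phi N R T (Q.X / (3 * 2 ^ Q.j)) Q.g x)) (Nat.cast_nonneg (α := ℝ) K.Ω)
  have e4 : Q.δ / 4 * Ed.card / ((Pj Q.j).card : ℝ) ^ 2 =
      Q.δ / 2 * Ed.card / (2 * ((Pj Q.j).card : ℝ) ^ 2) := by ring
  rw [e4]
  unfold Par.ε₇
  have := (hlow.trans hre).trans hup
  change _ - 133 / _ * ∑ y ∈ S, _ ≤ 133 * (S.card : ℝ) * _ at this
  linarith

end Pool.Agent.P.MP_a9a441_nt.FU
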