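import Pool.Agent.P.MP_a9a441_nt.FU.Bas

/-!
Few separated large frequencies, and a colouring lemma. `clu`: `halasz` with the vectors
ee (-(β i n)) on I = Iv x θ, card I ≤ 3 ℓ (ℓ = x θ); `geom_bound` bounds the off diagonal terms by
ℓ / D, D = 24 / δ^2. `colour_pairs`: take an independent set T of maximal cardinality; every a is
related to some c ∈ T; Cauchy-Schwarz over the fibres of a ↦ c.
-/

namespace Pool.Agent.P.MP_a9a441_nt.FU

open Finset Filter Pool.Agent.Lib.LargeSieve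
open scoped ComplexConjugate

namespace CluAux

theorem geom_Ioc (a b : ℕ) {y d : ℝ} (hd : 0 < d) (h : ∀ k : ℤ, d < |y - k|) :
    ‖∑ m ∈ Ioc a b, ee (m * y)‖ ≤ 1 / d := by
  have h1 : d < Int.fract y := by
    have := h ⌊y⌋
    rwa [Int.self_sub_floor, abs_of_nonneg (Int.fract_nonneg y)] at this
  have h2 : d < Int.fract (-y) := by
    have := h (-⌊-y⌋)
    have e : y - ((-⌊-y⌋ : ℤ) : ℝ) = -(Int.fract (-y)) := by
      rw [← Int.self_sub_floor]; push_cast; ring
    rwa [e, abs_neg, abs_of_nonneg (Int.fract_nonneg _)] at this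
  have e : ∑ m ∈ Ioc a b, ee (m * y)
      = ee (((a + 1 : ℕ) : ℝ) * y) * ∑ m ∈ range (b - a), ee (m * y) := by
    rw [← Finset.Ico_add_one_add_one_eq_Ioc, Finset.sum_Ico_eq_sum_range, mul_sum]
    have : b + 1 - (a + 1) = b - a := by omega
    rw [this]
    refine sum_congr rfl fun m _ => ?_
    rw [← ee_add]
    congr 1
    push_cast
    ring
  rw [e, norm_mul, norm_ee, one_mul]
  refine (geom_bound _ (hd.trans h1)).trans ?_
  have b1 : 1 / (2 * Int.fract y) ≤ 1 / (2 * d) :=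
    one_div_le_one_div_of_le (by positivity) (by linarith)
  have b2 : 1 / (2 * Int.fract (-y)) ≤ 1 / (2 * d) :=
    one_div_le_one_div_of_le (by positivity) (by linarith)
  have b3 : 1 / (2 * d) + 1 / (2 * d) = 1 / d := by field_simp; ring
  linarith

end CluAux

theorem clu {x θ δ : ℝ} (hx : 0 < x) (h0 : 0 < θ) (h1 : θ ≤ 1) (hl : 1 ≤ x * θ) (hδ : 0 < δ)
    {ι : Type*} (T : Finset ι) (β : ι → ℝ) (hb : ∀ i ∈ T, δ / 2 * (x * θ) ≤ ‖Sm x θ (β i)‖)
    (hs : ∀ i ∈ T, ∀ i' ∈ T, i ≠ i' → ∀ k : ℤ, 24 / δ ^ 2 / (x * θ) < |β i - β i' - k|) :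
    (T.card : ℝ) ≤ 72 / δ ^ 2 := by
  classical
  have hcard0 := card_Iv_le hx.le h0.le h1
  set l : ℝ := x * θ with hl'
  have hl0 : 0 < l := by linarith
  have hcard : ((Iv x θ).card : ℝ) ≤ 3 * l := by linarith
  have hK : (0 : ℝ) ≤ T.card := Nat.cast_nonneg _
  have hd : 0 < 24 / δ ^ 2 / l := by positivity
  have hΔ : ∀ r ∈ T, ∑ s ∈ T, ‖∑ m ∈ Iv x θ, ee (-(β r * m)) * conj (ee (-(β s * m)))‖
      ≤ 3 * l + T.card * (l * δ ^ 2 / 24) := by
    intro r hr
    have hterm : ∀ s ∈ T, ‖∑ m ∈ Iv x θ, ee (-(β r * m)) * conj (ee (-(β s * m)))‖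
        ≤ (if s = r then 3 * l else 0) + l * δ ^ 2 / 24 := by
      intro s hsT
      by_cases hsr : s = r
      · rw [if_pos hsr]
        have : ‖∑ m ∈ Iv x θ, ee (-(β r * m)) * conj (ee (-(β s * m)))‖ ≤ (Iv x θ).card := by
          refine (norm_sum_le _ _).trans ?_
          have h : ∀ m ∈ Iv x θ, ‖ee (-(β r * m)) * conj (ee (-(β s * m)))‖ ≤ 1 := by
            intro m _
            rw [norm_mul, conj_ee, norm_ee, norm_ee, mul_one]
          simpa using sum_le_card_nsmul _ _ 1 h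
        have h' : 0 ≤ l * δ ^ 2 / 24 := by positivity
        linarith
      · rw [if_neg hsr, zero_add]
        have e : ∑ m ∈ Iv x θ, ee (-(β r * m)) * conj (ee (-(β s * m)))
            = ∑ m ∈ Iv x θ, ee (m * (β s - β r)) := by
          refine sum_congr rfl fun m _ => ?_
          rw [conj_ee, ← ee_add]
          congr 1
          ring
        rw [e]
        have := CluAux.geom_Ioc ⌊x⌋₊ ⌊x * Real.exp θ⌋₊ hd (hs s hsT r hr hsr)
        have e2 : 1 / (24 / δ ^ 2 / l) = l * δ ^ 2 / 24 := by field_simp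
        rw [e2] at this
        exact this
    refine (sum_le_sum hterm).trans ?_
    rw [sum_add_distrib, sum_ite_eq' T r, if_pos hr, sum_const, nsmul_eq_mul]
  have hH := halasz T (Iv x θ) (fun r m => ee (-(β r * m))) lam
    (3 * l + T.card * (l * δ ^ 2 / 24)) (by positivity) hΔ
  have hc : ∑ m ∈ Iv x θ, ‖lam m‖ ^ 2 ≤ 3 * l := by
    have h : ∀ m ∈ Iv x θ, ‖lam m‖ ^ 2 ≤ 1 := by
      intro m _
      exact pow_le_one₀ (norm_nonneg _) (norm_lam_le m)
    have := sum_le_card_nsmul _ _ 1 h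
    rw [nsmul_eq_mul, mul_one] at this
    linarith
  have hlow : (T.card : ℝ) * (δ / 2 * l) ^ 2
      ≤ ∑ r ∈ T, ‖∑ m ∈ Iv x θ, lam m * ee (-(β r * m))‖ ^ 2 := by
    have h : ∀ r ∈ T, (δ / 2 * l) ^ 2 ≤ ‖∑ m ∈ Iv x θ, lam m * ee (-(β r * m))‖ ^ 2 := by
      intro r hr
      exact pow_le_pow_left₀ (by positivity) (hb r hr) 2
    have := card_nsmul_le_sum _ _ _ h
    rwa [nsmul_eq_mul] at this
  have hfin : (T.card : ℝ) * (δ / 2 * l) ^ 2
      ≤ (3 * l + T.card * (l * δ ^ 2 / 24)) * (3 * l) :=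
    hlow.trans (hH.trans (mul_le_mul_of_nonneg_left hc (by positivity)))
  rw [le_div_iff₀ (by positivity)]
  have hl2 : 0 < l ^ 2 := by positivity
  have : ((T.card : ℝ) * δ ^ 2) * l ^ 2 ≤ 72 * l ^ 2 := by nlinarith
  exact le_of_mul_le_mul_right this hl2

open Classical in
theorem colour_pairs {ι : Type*} (V : Finset ι) (R : ι → ι → Prop) (hr : ∀ a, R a a)
    (hs : ∀ a b, R a b → R b a) {r : ℝ}
    (h : ∀ T ⊆ V, (∀ a ∈ T, ∀ b ∈ T, a ≠ b → ¬ R a b) → (T.card : ℝ) ≤ r) :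
    (V.card : ℝ) ^ 2 ≤ r * ((V ×ˢ V).filter fun w => ∃ c ∈ V, R w.1 c ∧ R w.2 c).card := by
  set F : Finset (Finset ι) :=
    V.powerset.filter fun T => ∀ a ∈ T, ∀ b ∈ T, a ≠ b → ¬ R a b with hF
  have hne : F.Nonempty := ⟨∅, by simp [hF]⟩
  obtain ⟨T, hT, hmax⟩ := exists_max_image F card hne
  rw [hF, mem_filter, mem_powerset] at hT
  obtain ⟨hTV, hTi⟩ := hT
  have hTr := h T hTV hTi
  have hex : ∀ a, a ∈ V → ∃ c ∈ T, R a c := by
    intro a ha
    by_contra hno
    push Not at hno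
    have haT : a ∉ T := fun h' => hno a h' (hr a)
    have hin : insert a T ∈ F := by
      rw [hF, mem_filter, mem_powerset]
      refine ⟨insert_subset ha hTV, ?_⟩
      intro u hu v hv huv
      rw [mem_insert] at hu hv
      rcases hu with rfl | hu
      · rcases hv with rfl | hv
        · exact absurd rfl huv
        · exact hno v hv
      · rcases hv with rfl | hv
        · exact fun h' => hno u hu (hs _ _ h')
        · exact hTi u hu v hv huv
    have := hmax _ hin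
    rw [card_insert_of_notMem haT] at this
    omega
  choose! f hfT hfR using hex
  have e1 : (V.card : ℝ) = ∑ c ∈ T, ((V.filter fun a => f a = c).card : ℝ) := by
    have := card_eq_sum_card_fiberwise (f := f) (s := V) (t := T) (fun a ha => hfT a ha)
    rw [this]
    push_cast
    rfl
  have e2 : (((V ×ˢ V).filter fun w => f w.1 = f w.2).card : ℝ)
      = ∑ c ∈ T, ((V.filter fun a => f a = c).card : ℝ) ^ 2 := by
    have := card_eq_sum_card_fiberwise (f := fun w : ι × ι => f w.1)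
      (s := (V ×ˢ V).filter fun w => f w.1 = f w.2) (t := T)
      (fun w hw => hfT _ (mem_product.1 (mem_filter.1 (mem_coe.1 hw)).1).1)
    rw [this]
    push_cast
    refine sum_congr rfl fun c _ => ?_
    rw [sq, ← Nat.cast_mul, ← card_product]
    congr 2
    ext w
    simp only [mem_filter, mem_product]
    constructor
    · rintro ⟨⟨⟨h1, h2⟩, h3⟩, h4⟩
      exact ⟨⟨h1, h4⟩, h2, h3 ▸ h4⟩
    · rintro ⟨⟨h1, h2⟩, h3, h4⟩
      exact ⟨⟨⟨h1, h3⟩, h2.trans h4.symm⟩, h2⟩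
  have e3 : (((V ×ˢ V).filter fun w => f w.1 = f w.2).card : ℝ)
      ≤ ((V ×ˢ V).filter fun w => ∃ c ∈ V, R w.1 c ∧ R w.2 c).card := by
    refine Nat.cast_le.2 (card_le_card ?_)
    intro w hw
    rw [mem_filter] at hw ⊢
    obtain ⟨hw1, hw2⟩ := hw
    have hw3 := mem_product.1 hw1
    exact ⟨hw1, f w.1, hTV (hfT _ hw3.1), hfR _ hw3.1, hw2 ▸ hfR _ hw3.2⟩
  have cs := sq_sum_le_card_mul_sum_sq (s := T)
    (f := fun c => ((V.filter fun a => f a = c).card : ℝ))
  rw [← e1, ← e2] at cs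
  refine cs.trans ?_
  exact mul_le_mul hTr e3 (Nat.cast_nonneg _) ((Nat.cast_nonneg _).trans hTr)

end Pool.Agent.P.MP_a9a441_nt.FU
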