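import Pool.Agent.P.MP_a9a441_nt.FU.Defs

/-!
Three abstract counting lemmas. `cherry`: Cauchy-Schwarz over (D, D'). `centre`: for L with at
least κ good D choose a good D₀ that minimises the number of D with Far L D D₀; otherwise take
any D₀. `bip`: keep the colours that lie in at least θ of the lists L U.
-/

namespace Pool.Agent.P.MP_a9a441_nt.FU

open Finset Filter Pool.Agent.Lib.LargeSieve
open scoped ComplexConjugate

open Classical in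
theorem cherry {υ δ : Type*} (𝒰 : Finset υ) (𝒟 : Finset δ) (Far : υ → δ → δ → Prop)
    (Ov : υ → υ → Prop)
    (h : ∀ U ∈ 𝒰, ∀ U' ∈ 𝒰, ∀ D ∈ 𝒟, ∀ D' ∈ 𝒟, Far U D D' → Far U' D D' → Ov U U') :
    ((𝒰 ×ˢ 𝒟 ×ˢ 𝒟).filter fun w => Far w.1 w.2.1 w.2.2).card ^ 2 ≤
      𝒟.card ^ 4 * ((𝒰 ×ˢ 𝒰).filter fun w => Ov w.1 w.2).card := by
  have e1 : ((𝒰 ×ˢ 𝒟 ×ˢ 𝒟).filter fun w => Far w.1 w.2.1 w.2.2).card =
      ∑ d ∈ 𝒟 ×ˢ 𝒟, (𝒰.filter fun U => Far U d.1 d.2).card := by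
    simp only [card_filter]
    rw [sum_product_right]
  have e2 : ∀ d ∈ 𝒟 ×ˢ 𝒟, (𝒰.filter fun U => Far U d.1 d.2).card ^ 2 ≤
      ((𝒰 ×ˢ 𝒰).filter fun w => Ov w.1 w.2).card := by
    intro d hd
    rw [sq, ← card_product]
    refine card_le_card fun w hw => ?_
    simp only [mem_product, mem_filter] at hw hd ⊢
    exact ⟨⟨hw.1.1, hw.2.1⟩, h _ hw.1.1 _ hw.2.1 _ hd.1 _ hd.2 hw.1.2 hw.2.2⟩
  rw [e1]
  refine sq_sum_le_card_mul_sum_sq.trans ?_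
  refine (Nat.mul_le_mul_left _ (sum_le_card_nsmul _ _ _ e2)).trans_eq ?_
  rw [card_product, smul_eq_mul, Nat.cast_id]
  ring

open Classical in
theorem centre {ι δ : Type*} [Nonempty δ] (ℒ : Finset ι) (𝒟 : Finset δ) (Good : ι → δ → Prop)
    (Bad : ι → δ → δ → Prop) {κ : ℝ} (hκ : 0 < κ) :
    ∃ D₀ : ι → δ, (((ℒ ×ˢ 𝒟).filter fun w => Good w.1 w.2 ∧ Bad w.1 w.2 (D₀ w.1)).card : ℝ) ≤
      ℒ.card * κ + ((ℒ ×ˢ 𝒟 ×ˢ 𝒟).filter fun w =>
        Good w.1 w.2.1 ∧ Good w.1 w.2.2 ∧ Bad w.1 w.2.1 w.2.2).card / κ := by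
  have key : ∀ l : ι, ∃ D₀ : δ, ((𝒟.filter fun D => Good l D ∧ Bad l D D₀).card : ℝ) ≤
      κ + ((𝒟 ×ˢ 𝒟).filter fun w => Good l w.1 ∧ Good l w.2 ∧ Bad l w.1 w.2).card / κ := by
    intro l
    by_cases hg : ((𝒟.filter fun D => Good l D).card : ℝ) ≤ κ
    · refine ⟨Classical.arbitrary δ, le_add_of_le_of_nonneg (le_trans ?_ hg) (by positivity)⟩
      exact Nat.cast_le.2 (card_le_card fun D hD => by
        simp only [mem_filter] at hD ⊢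
        exact ⟨hD.1, hD.2.1⟩)
    · push Not at hg
      have hne : (𝒟.filter fun D => Good l D).Nonempty := by
        rw [← card_pos]
        exact Nat.cast_pos.1 (hκ.trans hg)
      obtain ⟨D₀, -, hmin⟩ := exists_min_image (𝒟.filter fun D => Good l D)
        (fun D' => (𝒟.filter fun D => Good l D ∧ Bad l D D').card) hne
      refine ⟨D₀, le_add_of_nonneg_of_le hκ.le ?_⟩
      have e1 : ((𝒟 ×ˢ 𝒟).filter fun w => Good l w.1 ∧ Good l w.2 ∧ Bad l w.1 w.2).card =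
          ∑ D' ∈ 𝒟.filter fun D => Good l D,
            (𝒟.filter fun D => Good l D ∧ Bad l D D').card := by
        rw [sum_filter]
        simp only [card_filter]
        rw [sum_product_right]
        refine sum_congr rfl fun D' _ => ?_
        by_cases k : Good l D' <;> simp [k]
      have e2 := card_nsmul_le_sum _ _ _ hmin
      rw [← e1, smul_eq_mul] at e2
      have e3 : ((𝒟.filter fun D => Good l D).card : ℝ) *
          ((𝒟.filter fun D => Good l D ∧ Bad l D D₀).card : ℝ) ≤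
          ((𝒟 ×ˢ 𝒟).filter fun w => Good l w.1 ∧ Good l w.2 ∧ Bad l w.1 w.2).card := by
        exact_mod_cast e2
      rw [le_div_iff₀ hκ, mul_comm]
      exact (mul_le_mul_of_nonneg_right hg.le (Nat.cast_nonneg _)).trans e3
  choose D₀ hD using key
  refine ⟨D₀, ?_⟩
  have e1 : ((ℒ ×ˢ 𝒟).filter fun w => Good w.1 w.2 ∧ Bad w.1 w.2 (D₀ w.1)).card =
      ∑ l ∈ ℒ, (𝒟.filter fun D => Good l D ∧ Bad l D (D₀ l)).card := by
    simp only [card_filter]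
    rw [sum_product]
  have e2 : ((ℒ ×ˢ 𝒟 ×ˢ 𝒟).filter fun w =>
      Good w.1 w.2.1 ∧ Good w.1 w.2.2 ∧ Bad w.1 w.2.1 w.2.2).card =
      ∑ l ∈ ℒ, ((𝒟 ×ˢ 𝒟).filter fun w => Good l w.1 ∧ Good l w.2 ∧ Bad l w.1 w.2).card := by
    simp only [card_filter]
    rw [sum_product]
  rw [e1, e2]
  push_cast
  refine (sum_le_sum fun l _ => hD l).trans_eq ?_
  rw [sum_add_distrib, sum_const, nsmul_eq_mul, sum_div]

open Classical in
theorem bip {υ δ γ : Type*} (𝒰 : Finset υ) (𝒟 : Finset δ) (L : υ → Finset γ) (R : δ → Finset γ)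
    {M₁ M₂ θ : ℝ} (hθ : 0 < θ) (h1 : ∀ U ∈ 𝒰, ((L U).card : ℝ) ≤ M₁)
    (h2 : ∀ D ∈ 𝒟, ((R D).card : ℝ) ≤ M₂) :
    ∃ Z : Finset γ, (Z.card : ℝ) ≤ M₁ * 𝒰.card / θ ∧
      (((𝒰 ×ˢ 𝒟).filter fun w => ∃ c, c ∉ Z ∧ c ∈ L w.1 ∧ c ∈ R w.2).card : ℝ) ≤
        θ * (M₂ * 𝒟.card) := by
  refine ⟨(𝒰.biUnion L).filter fun c => θ ≤ (𝒰.filter fun U => c ∈ L U).card, ?_, ?_⟩
  · generalize hZ : ((𝒰.biUnion L).filter fun c => θ ≤ (𝒰.filter fun U => c ∈ L U).card) = Z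
    have k1 : ∀ c ∈ Z, θ ≤ ((𝒰.filter fun U => c ∈ L U).card : ℝ) := fun c hc => by
      rw [← hZ] at hc
      exact (mem_filter.1 hc).2
    have k2 : ∑ c ∈ Z, (𝒰.filter fun U => c ∈ L U).card =
        ∑ U ∈ 𝒰, (Z.filter fun c => c ∈ L U).card := by
      simp only [card_filter]
      rw [sum_comm]
    have k3 : ∀ U ∈ 𝒰, ((Z.filter fun c => c ∈ L U).card : ℝ) ≤ M₁ := fun U hU =>
      (Nat.cast_le.2 (card_le_card fun c hc => (mem_filter.1 hc).2)).trans (h1 U hU)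
    have k4 := card_nsmul_le_sum _ _ _ k1
    have k5 := sum_le_card_nsmul _ _ _ k3
    rw [← Nat.cast_sum, k2, Nat.cast_sum] at k4
    rw [nsmul_eq_mul] at k4 k5
    rw [le_div_iff₀ hθ, mul_comm M₁]
    exact k4.trans k5
  · generalize hZ : ((𝒰.biUnion L).filter fun c => θ ≤ (𝒰.filter fun U => c ∈ L U).card) = Z
    have k1 : ∀ c, c ∉ Z → ((𝒰.filter fun U => c ∈ L U).card : ℝ) ≤ θ := fun c hc => by
      by_contra k
      push Not at k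
      obtain ⟨U, hU⟩ := card_pos.1 (Nat.cast_pos.1 (hθ.trans k))
      rw [← hZ] at hc
      exact hc (mem_filter.2 ⟨mem_biUnion.2 ⟨U, mem_filter.1 hU⟩, k.le⟩)
    have k2 : ∀ D ∈ 𝒟, ((𝒰.filter fun U => ∃ c, c ∉ Z ∧ c ∈ L U ∧ c ∈ R D).card : ℝ) ≤
        θ * M₂ := fun D hD => by
      have k3 : (𝒰.filter fun U => ∃ c, c ∉ Z ∧ c ∈ L U ∧ c ∈ R D) ⊆
          ((R D).filter fun c => c ∉ Z).biUnion fun c => 𝒰.filter fun U => c ∈ L U := by
        intro U hU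
        obtain ⟨k4, c, k5, k6, k7⟩ := mem_filter.1 hU
        exact mem_biUnion.2 ⟨c, mem_filter.2 ⟨k7, k5⟩, mem_filter.2 ⟨k4, k6⟩⟩
      have k4 : ((𝒰.filter fun U => ∃ c, c ∉ Z ∧ c ∈ L U ∧ c ∈ R D).card : ℝ) ≤
          ∑ c ∈ (R D).filter fun c => c ∉ Z, ((𝒰.filter fun U => c ∈ L U).card : ℝ) := by
        exact_mod_cast (card_le_card k3).trans card_biUnion_le
      refine k4.trans ((sum_le_card_nsmul _ _ _ fun c hc => k1 c (mem_filter.1 hc).2).trans ?_)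
      rw [nsmul_eq_mul, mul_comm]
      exact mul_le_mul_of_nonneg_left
        ((Nat.cast_le.2 (card_filter_le _ _)).trans (h2 D hD)) hθ.le
    have e1 : ((𝒰 ×ˢ 𝒟).filter fun w => ∃ c, c ∉ Z ∧ c ∈ L w.1 ∧ c ∈ R w.2).card =
        ∑ D ∈ 𝒟, (𝒰.filter fun U => ∃ c, c ∉ Z ∧ c ∈ L U ∧ c ∈ R D).card := by
      simp only [card_filter]
      rw [sum_product_right]
    rw [e1, Nat.cast_sum]
    refine (sum_le_card_nsmul _ _ _ k2).trans_eq ?_
    rw [nsmul_eq_mul]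
    ring

end Pool.Agent.P.MP_a9a441_nt.FU
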