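import Pool.Agent.P.MP_a9a441_nt.FU.Path

/-!
Lifts. All by induction on the word. Note ε ≤ P^(-8) < 1/2 and P ≥ t^1000 ≥ 10.
`lift_exists`: given a lift (m', n) of the tail and k from `near`, shift the tail by j so that
p divides p' (m' + j U) - k (p is prime to p' U by `Dist`). `lift_unique`: two lifts give
p (m₂ - m₁) = p' (m₂' - m₁') exactly; by induction m₂' - m₁' = j' U, so p divides j'.
`lift_close`: triangle inequality, all letters are at least P.
-/

namespace Pool.Agent.P.MP_a9a441_nt.FU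

open Finset Filter Pool.Agent.Lib.LargeSieve
open scoped ComplexConjugate

namespace LiftAux

variable {S : Sys}

theorem ten_le : (10 : ℝ) ≤ S.P := by
  have h : 10 ≤ S.P := (S.ht.trans (Nat.le_self_pow (by norm_num) _)).trans S.htP
  exact_mod_cast h

theorem dist_tail {e : Lb} {l : List Lb} (h : Dist (e :: l)) : Dist l := by
  refine List.Nodup.sublist ?_ h
  exact (List.sublist_cons_self _ _).append (List.sublist_cons_self _ _)

theorem mem_US {y : ℤ} {l : List Lb} (hv : S.Valid y l) : ∀ p ∈ US l, p ∈ S.Ps :=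
  (Sys.mem_paths.1 (Sys.valid_mem_paths (x := (y, l)) hv)).2.2.1

theorem mem_DS {y : ℤ} {l : List Lb} (hv : S.Valid y l) : ∀ p ∈ DS l, p ∈ S.Ps :=
  (Sys.mem_paths.1 (Sys.valid_mem_paths (x := (y, l)) hv)).2.2.2

theorem coprime {y : ℤ} {e : Lb} {l : List Lb} (hv : S.Valid y (e :: l)) (hd : Dist (e :: l)) :
    IsCoprime (e.1 : ℤ) ((e.2 : ℤ) * ((US l).prod : ℕ)) := by
  have h1 : e.1 ∈ DS (e :: l) := List.mem_cons_self
  have h2 : e.1.Coprime (US (e :: l)).prod := Nat.coprime_list_prod_right_iff.2 fun q hq =>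
    (Nat.coprime_primes (S.prime _ (mem_DS hv _ h1)).1 (S.prime _ (mem_US hv _ hq)).1).2
      fun k => hd.disj q hq (k ▸ h1)
  have h3 := Nat.isCoprime_iff_coprime.2 h2
  rwa [US, List.map_cons, List.prod_cons, Nat.cast_mul] at h3

theorem US_cons (e : Lb) (l : List Lb) : (US (e :: l)).prod = e.2 * (US l).prod := List.prod_cons

theorem DS_cons (e : Lb) (l : List Lb) : (DS (e :: l)).prod = e.1 * (DS l).prod := List.prod_cons

end LiftAux

open LiftAux

namespace Sys

variable {S : Sys}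

theorem eps_lt : S.ε < 1 / 2 := by
  have h1 : (10 : ℝ) ≤ (S.P : ℝ) ^ 8 :=
    ten_le.trans (le_self_pow₀ (by linarith [ten_le (S := S)]) (by norm_num))
  nlinarith [S.εP, S.ε0]

theorem Lift.shift {y : ℤ} {l : List Lb} {m n : ℤ} (h : S.Lift y l m n) (j : ℤ) :
    S.Lift y l (m + j * ((US l).prod : ℕ)) (n + j * ((DS l).prod : ℕ)) := by
  induction l generalizing y m j with
  | nil =>
    have k : m = n := h
    change _ = _
    simp [US, DS, k]
  | cons e l ih =>
    obtain ⟨m', h1, h2⟩ := h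
    refine ⟨m' + j * e.1 * ((US l).prod : ℕ), ?_, ?_⟩
    · refine le_trans (le_of_eq (congrArg abs ?_)) h1
      rw [US_cons]
      push_cast
      ring
    · have := ih h2 (j * e.1)
      rwa [DS_cons, Nat.cast_mul, ← mul_assoc]

theorem lift_exists {y : ℤ} {l : List Lb} (hv : S.Valid y l) (hd : Dist l) :
    ∃ m n, S.Lift y l m n := by
  induction l generalizing y with
  | nil => exact ⟨0, 0, rfl⟩
  | cons e l ih =>
    obtain ⟨m', n, h⟩ := ih hv.2 (dist_tail hd)
    obtain ⟨k, hk⟩ := S.near _ hv.1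
    obtain ⟨u, v, huv⟩ := coprime hv hd
    refine ⟨u * (e.2 * m' - k), _, _, ?_, h.shift (-(v * (e.2 * m' - k)))⟩
    refine le_trans (le_of_eq (congrArg abs ?_)) hk
    have h1 : (u : ℝ) * e.1 + v * (e.2 * ((US l).prod : ℕ)) = 1 := by
      have := congrArg (Int.cast : ℤ → ℝ) huv
      simpa only [Int.cast_add, Int.cast_mul, Int.cast_natCast, Int.cast_one] using this
    simp only [Int.cast_add, Int.cast_mul, Int.cast_neg, Int.cast_sub, Int.cast_natCast]
    linear_combination ((e.2 : ℝ) * m' - k) * h1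

theorem lift_unique {y : ℤ} {l : List Lb} (hv : S.Valid y l) (hd : Dist l) {m n m' n' : ℤ}
    (h : S.Lift y l m n) (h' : S.Lift y l m' n') :
    ∃ j : ℤ, m' = m + j * ((US l).prod : ℕ) ∧ n' = n + j * ((DS l).prod : ℕ) := by
  induction l generalizing y m m' with
  | nil =>
    have k : m = n := h
    have k' : m' = n' := h'
    exact ⟨m' - m, by simp [US], by simp [DS, k, k']⟩
  | cons e l ih =>
    obtain ⟨a, h1, h2⟩ := h
    obtain ⟨a', h3, h4⟩ := h'
    obtain ⟨j, h5, h6⟩ := ih hv.2 (dist_tail hd) h2 h4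
    have h7 : (e.1 : ℤ) * (m' - m) - e.2 * (a' - a) = 0 := by
      have k : |(((e.1 : ℤ) * (m' - m) - e.2 * (a' - a) : ℤ) : ℝ)| < 1 := by
        rw [abs_le] at h1 h3
        rw [abs_lt]
        push_cast
        constructor <;> linarith [eps_lt (S := S), h1.1, h1.2, h3.1, h3.2]
      exact Int.abs_lt_one_iff.1 (by exact_mod_cast k)
    have h8 : (e.1 : ℤ) ∣ (e.2 : ℤ) * ((US l).prod : ℕ) * j :=
      ⟨m' - m, by rw [h5] at h7; linear_combination -h7⟩
    obtain ⟨i, rfl⟩ := (coprime hv hd).dvd_of_dvd_mul_left h8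
    have h9 : (e.1 : ℤ) ≠ 0 :=
      Nat.cast_ne_zero.2 (S.prime _ (mem_DS hv _ List.mem_cons_self)).1.ne_zero
    refine ⟨i, mul_left_cancel₀ h9 ?_, ?_⟩
    · rw [US_cons, Nat.cast_mul]
      rw [h5] at h7
      linear_combination h7
    · rw [DS_cons, Nat.cast_mul, h6]
      ring

theorem lift_close {y : ℤ} {l : List Lb} (hv : S.Valid y l) {m n : ℤ} (h : S.Lift y l m n) :
    |(S.β y + m) / ((US l).prod : ℕ) - (S.β (en S.a y l) + n) / ((DS l).prod : ℕ)| ≤
      l.length * S.ε / (S.P : ℝ) ^ (l.length + 1) := by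
  induction l generalizing y m with
  | nil =>
    have k : m = n := h
    simp [US, DS, k]
  | cons e l ih =>
    obtain ⟨m', h1, h2⟩ := h
    have h3 := ih hv.2 h2
    have hP : (0 : ℝ) < S.P := by linarith [ten_le (S := S)]
    have k1 : (S.P : ℝ) ≤ e.1 :=
      Nat.cast_le.2 (S.prime _ (mem_DS hv _ List.mem_cons_self)).2.1
    have k2 : (S.P : ℝ) ≤ e.2 :=
      Nat.cast_le.2 (S.prime _ (mem_US hv _ List.mem_cons_self)).2.1
    have k3 : (S.P : ℝ) ^ l.length ≤ ((US l).prod : ℕ) := by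
      have := (prod_bounds (mem_US hv.2)).1
      rw [US, List.length_map] at this
      exact_mod_cast this
    have k4 : (S.P : ℝ) ^ l.length ≤ ((DS l).prod : ℕ) := by
      have := (prod_bounds (mem_DS hv.2)).1
      rw [DS, List.length_map] at this
      exact_mod_cast this
    rw [US_cons, DS_cons, Nat.cast_mul, Nat.cast_mul, en_cons, List.length_cons]
    generalize (((US l).prod : ℕ) : ℝ) = U at h3 k3 ⊢
    generalize (((DS l).prod : ℕ) : ℝ) = D at h3 k4 ⊢
    generalize S.β y + m = x at h1 ⊢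
    generalize S.β (st S.a y e) + m' = x' at h1 h3
    generalize S.β (en S.a (st S.a y e) l) + n = z at h3 ⊢
    generalize (e.1 : ℝ) = p at h1 k1 ⊢
    generalize (e.2 : ℝ) = p' at h1 k2 ⊢
    have hp : 0 < p := hP.trans_le k1
    have hp' : 0 < p' := hP.trans_le k2
    have hU : 0 < U := (pow_pos hP _).trans_le k3
    have hD : 0 < D := (pow_pos hP _).trans_le k4
    have e1 : x / (p' * U) - z / (p * D) = (p * x - p' * x') / (p * p' * U) + (x' / U - z / D) / p := by
      field_simp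
      ring
    have e2 : |(p * x - p' * x') / (p * p' * U)| ≤ S.ε / (S.P : ℝ) ^ (l.length + 1 + 1) := by
      rw [abs_div, abs_of_pos (by positivity : 0 < p * p' * U)]
      refine div_le_div₀ S.ε0 h1 (by positivity) ?_
      calc (S.P : ℝ) ^ (l.length + 1 + 1) = S.P * S.P * S.P ^ l.length := by ring
        _ ≤ p * p' * U := by gcongr
    have e3 : |(x' / U - z / D) / p| ≤ l.length * S.ε / (S.P : ℝ) ^ (l.length + 1 + 1) := by
      have := S.ε0
      rw [abs_div, abs_of_pos hp, pow_succ, ← div_div]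
      exact div_le_div₀ (by positivity) h3 hP k1
    rw [e1]
    refine (abs_add_le _ _).trans ((add_le_add e2 e3).trans (le_of_eq ?_))
    push_cast
    ring

theorem lift_append {y : ℤ} {l₁ l₂ : List Lb} {m n : ℤ} :
    S.Lift y (l₁ ++ l₂) m n ↔ ∃ k, S.Lift y l₁ m k ∧ S.Lift (en S.a y l₁) l₂ k n := by
  induction l₁ generalizing y m with
  | nil => exact ⟨fun h => ⟨m, rfl, h⟩, fun ⟨k, h1, h2⟩ => (show m = k from h1) ▸ h2⟩
  | cons e l ih =>
    rw [List.cons_append, en_cons]
    constructor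
    · rintro ⟨m', h1, h2⟩
      obtain ⟨k, h3, h4⟩ := ih.1 h2
      exact ⟨k, ⟨m', h1, h3⟩, h4⟩
    · rintro ⟨k, ⟨m', h1, h3⟩, h4⟩
      exact ⟨m', h1, ih.2 ⟨k, h3, h4⟩⟩

theorem lift_rv {x : Pth} {m n : ℤ} (h : S.Lift x.1 x.2 m n) :
    S.Lift (rv S.a x).1 (rv S.a x).2 n m := by
  obtain ⟨y, l⟩ := x
  change S.Lift y l m n at h
  change S.Lift (en S.a y l) (l.map Prod.swap).reverse n m
  induction l generalizing y m with
  | nil => exact (show m = n from h).symm
  | cons e l ih =>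
    obtain ⟨m', h1, h2⟩ := h
    have h3 : en S.a (en S.a (st S.a y e) l) (l.map Prod.swap).reverse = st S.a y e :=
      en_rv (a := S.a) (st S.a y e, l)
    rw [en_cons, List.map_cons, List.reverse_cons, lift_append, h3]
    refine ⟨m', ih _ h2, m, ?_, rfl⟩
    rw [st_swap, abs_sub_comm]
    exact h1

theorem dig_spec {x : Pth} (hv : S.Valid x.1 x.2) (hd : Dist x.2) :
    ∃ n, S.Lift x.1 x.2 (S.dig x) n := by
  have h := lift_exists hv hd
  rw [dig, dif_pos h]
  exact h.choose_spec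

theorem Lift.dig_left {x : Pth} (hv : S.Valid x.1 x.2) (hd : Dist x.2) {m n : ℤ}
    (h : S.Lift x.1 x.2 m n) : ∃ j : ℤ, m = S.dig x + j * ((US x.2).prod : ℕ) := by
  obtain ⟨n', h'⟩ := dig_spec hv hd
  exact (lift_unique hv hd h' h).imp fun _ k => k.1

theorem Lift.dig_right {x : Pth} (hv : S.Valid x.1 x.2) (hd : Dist x.2) {m n : ℤ}
    (h : S.Lift x.1 x.2 m n) :
    ∃ j : ℤ, n = S.dig (rv S.a x) + j * ((DS x.2).prod : ℕ) := by
  have := (lift_rv h).dig_left (valid_rv hv) (dist_rv hd)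
  rwa [US_rv, List.prod_reverse] at this

theorem dig_take {x : Pth} (hv : S.Valid x.1 x.2) (hd : Dist x.2) (k : ℕ) :
    ∃ j : ℤ, S.dig x = S.dig (win S.a 0 k x) + j * ((US (x.2.take k)).prod : ℕ) := by
  obtain ⟨n, h⟩ := dig_spec hv hd
  rw [← List.take_append_drop k x.2, lift_append] at h
  obtain ⟨m, h, -⟩ := h
  have h1 := valid_win hv 0 k
  have h2 := dist_win (a := S.a) hd 0 k
  rw [win_zero] at h1 h2 ⊢
  exact Lift.dig_left (x := (x.1, x.2.take k)) h1 h2 h

end Sys

end Pool.Agent.P.MP_a9a441_nt.FU
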