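import Pool.Agent.P.MP_a9a441_nt.FU.Lists
import Pool.Agent.P.MP_a9a441_nt.FU.Lift
import Pool.Agent.P.MP_a9a441_nt.FU.Comb
import Pool.Agent.P.MP_a9a441_nt.FU.Apex

/-!
Few colours at each apex. M = P^(2 (h/100)) ≥ (h 2P + 1)^(h/100), n = P^h. For z and U let L U be
the list of `lists` for β (z - sum a U) and the centre ζ (z - sum a U) U (empty if U is not
Nodup); for D use the list of D.reverse with β (z - sum a D) and take R D = {(c + i) % n :
i = -1, 0, 1}. If G (mkp z U D) then col ∈ L U (by `tst`) and col ∈ R D (by `tst` of the reversed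
path, `Lift.dig_right`, and `lift_close`: h ε / P^(h+1) ≤ 1 / P^h, so the floors differ by at most
one up to a multiple of n). Apply `bip` with θ = π^h / (3 M t^(h+102)) for every z, then `Pr_apex`.
-/

namespace Pool.Agent.P.MP_a9a441_nt.FU

open Finset Filter Pool.Agent.Lib.LargeSieve
open scoped ComplexConjugate

namespace ColourAux

theorem t_le_P (S : Sys) : 2 * S.t ≤ S.P := by
  have h1 := S.ht
  have h2 := S.htP
  have h3 : S.t ^ 2 ≤ S.t ^ 1000 := Nat.pow_le_pow_right (by omega) (by norm_num)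
  have h4 : S.t ^ 2 ≤ S.P := h3.trans h2
  clear h2 h3
  nlinarith

theorem floor_close {u v : ℝ} (h : |u - v| ≤ 1) : ∃ i : ℤ, (i = -1 ∨ i = 0 ∨ i = 1) ∧
    ⌊u⌋ = ⌊v⌋ + i := by
  rw [abs_le] at h
  have h1 : ⌊u⌋ ≤ ⌊v + 1⌋ := Int.floor_le_floor (by linarith)
  have h2 : ⌊v⌋ ≤ ⌊u + 1⌋ := Int.floor_le_floor (by linarith)
  rw [Int.floor_add_one] at h1 h2
  exact ⟨⌊u⌋ - ⌊v⌋, by omega, by ring⟩

theorem col_rv {S : Sys} {h : ℕ} (hh : h + 2 ≤ S.t) {x : Pth} (hl : x.2.length = h)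
    (hv : S.Valid x.1 x.2) (hd : Dist x.2) : ∃ i : ℤ, (i = -1 ∨ i = 0 ∨ i = 1) ∧
      S.col h x = (S.col h (rv S.a x) + i) % ((S.P ^ h : ℕ) : ℤ) := by
  obtain ⟨n, hn⟩ := Sys.dig_spec hv hd
  obtain ⟨j, hj⟩ := hn.dig_right hv hd
  have hc := Sys.lift_close hv hn
  have hP2 := t_le_P S
  have ht := S.ht
  have hP : (1 : ℝ) ≤ S.P := by exact_mod_cast (by omega : 1 ≤ S.P)
  have hhP : (h : ℝ) ≤ S.P := by exact_mod_cast (by omega : h ≤ S.P)
  have hε1 : S.ε ≤ 1 := by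
    have h8 : (1 : ℝ) ≤ (S.P : ℝ) ^ 8 := one_le_pow₀ hP
    nlinarith [S.εP, S.ε0]
  have hD : ∀ p ∈ DS x.2, p ∈ S.Ps := (Sys.mem_paths.1 (Sys.valid_mem_paths hv)).2.2.2
  have hDp : (0 : ℝ) < ((DS x.2).prod : ℕ) := by
    have := (Sys.prod_bounds hD).1
    have h2 : 0 < S.P ^ (DS x.2).length := pow_pos (by omega) _
    exact_mod_cast (by omega : 0 < (DS x.2).prod)
  set A : ℝ := (S.β x.1 + S.dig x) / ((US x.2).prod : ℕ) with hA
  set B : ℝ := (S.β (en S.a x.1 x.2) + S.dig (rv S.a x)) / ((DS x.2).prod : ℕ) with hB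
  have hB' : (S.β (en S.a x.1 x.2) + n) / ((DS x.2).prod : ℕ) = B + j := by
    rw [hj, hB, Int.cast_add, Int.cast_mul, Int.cast_natCast]
    generalize (((DS x.2).prod : ℕ) : ℝ) = d at hDp
    field_simp; ring
  rw [hB', hl] at hc
  have hPh : (0 : ℝ) < (S.P : ℝ) ^ h := by positivity
  have hcl : |(S.P : ℝ) ^ h * A - ((S.P : ℝ) ^ h * B + ((j * ((S.P ^ h : ℕ) : ℤ) : ℤ) : ℝ))| ≤ 1 := by
    have e : (S.P : ℝ) ^ h * A - ((S.P : ℝ) ^ h * B + ((j * ((S.P ^ h : ℕ) : ℤ) : ℤ) : ℝ)) =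
        (S.P : ℝ) ^ h * (A - (B + j)) := by push_cast; ring
    rw [e, abs_mul, abs_of_pos hPh]
    calc (S.P : ℝ) ^ h * |A - (B + j)| ≤ (S.P : ℝ) ^ h * (h * S.ε / (S.P : ℝ) ^ (h + 1)) :=
          mul_le_mul_of_nonneg_left hc hPh.le
      _ = h * S.ε / S.P := by rw [pow_succ]; field_simp
      _ ≤ 1 := by
          rw [div_le_one (by linarith)]
          nlinarith [S.ε0, (Nat.cast_nonneg h : (0 : ℝ) ≤ h)]
  obtain ⟨i, hi, he⟩ := floor_close hcl
  refine ⟨i, hi, ?_⟩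
  rw [Int.floor_add_intCast] at he
  have hr : S.col h (rv S.a x) = ⌊(S.P : ℝ) ^ h * B⌋ % ((S.P ^ h : ℕ) : ℤ) := by
    unfold Sys.col
    rw [US_rv, List.prod_reverse]
    rfl
  have hx : S.col h x = ⌊(S.P : ℝ) ^ h * A⌋ % ((S.P ^ h : ℕ) : ℤ) := rfl
  rw [hr, hx, he, Int.emod_add_emod]
  have e2 : ⌊(S.P : ℝ) ^ h * B⌋ + j * ((S.P ^ h : ℕ) : ℤ) + i =
      ⌊(S.P : ℝ) ^ h * B⌋ + i + ((S.P ^ h : ℕ) : ℤ) * j := by ring
  rw [e2, Int.add_mul_emod_self_left]

theorem exL (S : Sys) {h : ℕ} (hh : h + 2 ≤ S.t) (ζ : ℤ → List ℕ → ℤ) (z : ℤ) (U : List ℕ) :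
    ∃ L : Finset ℤ, L.card ≤ S.P ^ (2 * (h / 100)) ∧
      ∀ D : List ℕ, U ∈ words S.Ps h → U.length = D.length → U.Nodup →
        S.Tst h ζ (mkp S.a z U D) → S.col h (mkp S.a z U D) ∈ L := by
  by_cases hU : U ∈ words S.Ps h ∧ U.Nodup
  · obtain ⟨hW, hn⟩ := hU
    obtain ⟨hl, hm⟩ := mem_words.1 hW
    obtain ⟨L, hL, hL2⟩ := lists (U := U) (B := 2 * S.P)
      (fun p hp => ⟨(S.prime p (hm p hp)).1, (S.prime p (hm p hp)).2.2.le⟩) hn (h / 100) (S.P ^ h)
      (S.β (z - (U.map S.a).sum)) (ζ (z - (U.map S.a).sum) U)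
    refine ⟨L, hL.trans ?_, fun D _ hD _ ht => ?_⟩
    · rw [pow_mul]
      refine Nat.pow_le_pow_left ?_ _
      have := t_le_P S
      have h1 := S.ht
      rw [hl]; nlinarith
    · unfold Sys.Tst at ht
      rw [US_mk hD] at ht
      have := hL2 _ ht
      unfold Sys.col
      rw [US_mk hD]
      have e : ((S.P ^ h : ℕ) : ℝ) = (S.P : ℝ) ^ h := by push_cast; rfl
      rw [e] at this
      exact this
  · exact ⟨∅, by simp, fun D h1 _ h2 _ => absurd ⟨h1, h2⟩ hU⟩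

end ColourAux

open ColourAux in
theorem Chain.colour {S : Sys} (C : Chain S) {h : ℕ} {G : Pth → Prop} {ζ : ℤ → List ℕ → ℤ}
    (hF : S.Fam h G ζ) (hh : h + 2 ≤ S.t) :
    ∃ Z : ℤ → Finset ℤ, (∀ z, (Z z).card ≤ 3 * S.P ^ (4 * (h / 100)) * S.t ^ (h + 102)) ∧
      C.Pr h (fun x => G x ∧ S.col h x ∉ Z (apex S.a x)) ≤ 1 / (S.t : ℝ) ^ 100 := by
  classical
  choose L hL1 hL2 using exL S hh ζ
  set M : ℕ := S.P ^ (2 * (h / 100)) with hM
  set n : ℤ := ((S.P ^ h : ℕ) : ℤ) with hn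
  set W := words S.Ps h with hW
  have ht := S.ht
  have hP2 := t_le_P S
  have hM0 : (0 : ℝ) < M := by
    have : 0 < M := pow_pos (by omega) _
    exact_mod_cast this
  have ht0 : (0 : ℝ) < S.t := by exact_mod_cast (by omega : 0 < S.t)
  have hπ : (0 : ℝ) < S.Ps.card := by exact_mod_cast Sys.card_pos
  have hN : (0 : ℝ) < S.N := by exact_mod_cast S.hN
  have hWc : (W.card : ℝ) = (S.Ps.card : ℝ) ^ h := by rw [hW, card_words]; push_cast; rfl
  let R : ℤ → List ℕ → Finset ℤ := fun z D =>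
    (L z D.reverse).biUnion fun c => {(c + -1) % n, (c + 0) % n, (c + 1) % n}
  have hR : ∀ z D, ((R z D).card : ℝ) ≤ 3 * M := by
    intro z D
    have h1 : (R z D).card ≤ (L z D.reverse).card * 3 :=
      card_biUnion_le_card_mul _ _ _ fun c _ => card_le_three
    have h2 := hL1 z D.reverse
    exact_mod_cast (by omega : (R z D).card ≤ 3 * M)
  set θ : ℝ := (S.Ps.card : ℝ) ^ h / (3 * M * (S.t : ℝ) ^ (h + 102)) with hθ
  have hθ0 : 0 < θ := by positivity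
  have hb := fun z : ℤ => bip W W (L z) (R z) (M₁ := M) (M₂ := 3 * M) hθ0
    (fun U _ => by exact_mod_cast hL1 z U) (fun D _ => hR z D)
  choose Z hZ1 hZ2 using hb
  refine ⟨Z, fun z => ?_, ?_⟩
  · have h1 := hZ1 z
    rw [hWc, hθ] at h1
    have e : (M : ℝ) * (S.Ps.card : ℝ) ^ h / ((S.Ps.card : ℝ) ^ h / (3 * M * (S.t : ℝ) ^ (h + 102))) =
        ((3 * S.P ^ (4 * (h / 100)) * S.t ^ (h + 102) : ℕ) : ℝ) := by
      have e1 : S.P ^ (4 * (h / 100)) = M * M := by rw [hM, ← pow_add]; congr 1; ring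
      rw [e1]; push_cast; field_simp
    rw [e] at h1
    exact_mod_cast h1
  · refine (C.Pr_apex h _).trans ?_
    have key : ∀ T : Finset (ℤ × List ℕ × List ℕ),
        (∀ w ∈ T, w ∈ S.Zr h ×ˢ W ×ˢ W ∧ G (mkp S.a w.1 w.2.1 w.2.2) ∧
          S.col h (mkp S.a w.1 w.2.1 w.2.2) ∉ Z (apex S.a (mkp S.a w.1 w.2.1 w.2.2))) →
        (T.card : ℝ) ≤ ((h + 1) * S.N) * ((S.Ps.card : ℝ) ^ (2 * h) / (S.t : ℝ) ^ (h + 102)) := by
      intro T hT
      have hsub : T ⊆ (S.Zr h).biUnion fun z =>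
          ((W ×ˢ W).filter fun w => ∃ c, c ∉ Z z ∧ c ∈ L z w.1 ∧ c ∈ R z w.2).image
            fun w => (z, w) := by
        rintro ⟨z, U, D⟩ hw
        obtain ⟨h1, hG, hc⟩ := hT _ hw
        simp only [mem_product] at h1
        obtain ⟨hz, hU, hD⟩ := h1
        have hUl := (mem_words.1 hU).1
        have hDl := (mem_words.1 hD).1
        have hUD : U.length = D.length := by omega
        dsimp only at hG hc
        rw [apex_mk hUD] at hc
        have hd := hF.dist _ hG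
        refine mem_biUnion.2 ⟨z, hz, mem_image.2 ⟨(U, D), mem_filter.2
          ⟨mem_product.2 ⟨hU, hD⟩, _, hc, ?_, ?_⟩, rfl⟩⟩
        · refine hL2 z U D hU hUD ?_ (hF.tst _ hG)
          have := hd.nodupU
          rwa [US_mk hUD] at this
        · obtain ⟨i, hi, he⟩ := col_rv hh (hF.len _ hG) (hF.valid _ hG) hd
          have hG' := hF.rev _ hG
          rw [rv_mk hUD] at hG' he
          have hDr : D.reverse ∈ words S.Ps h :=
            mem_words.2 ⟨by simpa using hDl, fun p hp =>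
              (mem_words.1 hD).2 p (List.mem_reverse.1 hp)⟩
          have hl2 : D.reverse.length = U.reverse.length := by simp [hUD]
          have hm := hL2 z D.reverse U.reverse hDr hl2 (by
            have := hd.nodupD
            rw [DS_mk hUD] at this
            exact List.nodup_reverse.2 this) (hF.tst _ hG')
          refine mem_biUnion.2 ⟨_, hm, ?_⟩
          rw [he]
          rcases hi with rfl | rfl | rfl <;> simp [hn]
      have h1 : (T.card : ℝ) ≤ ∑ z ∈ S.Zr h,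
          (((W ×ˢ W).filter fun w => ∃ c, c ∉ Z z ∧ c ∈ L z w.1 ∧ c ∈ R z w.2).card : ℝ) := by
        have := (card_le_card hsub).trans (card_biUnion_le.trans
          (sum_le_sum fun z _ => card_image_le))
        exact_mod_cast this
      refine h1.trans ?_
      have h2 : ∀ z ∈ S.Zr h,
          (((W ×ˢ W).filter fun w => ∃ c, c ∉ Z z ∧ c ∈ L z w.1 ∧ c ∈ R z w.2).card : ℝ) ≤
            (S.Ps.card : ℝ) ^ (2 * h) / (S.t : ℝ) ^ (h + 102) := by
        intro z _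
        have h3 := hZ2 z
        have e : θ * (3 * M * (W.card : ℝ)) =
            (S.Ps.card : ℝ) ^ (2 * h) / (S.t : ℝ) ^ (h + 102) := by
          rw [hWc, hθ, two_mul, pow_add (S.Ps.card : ℝ) h h]; field_simp
        rw [e] at h3
        convert h3
      refine (sum_le_card_nsmul _ _ _ h2).trans ?_
      rw [Sys.card_Zr, nsmul_eq_mul]; push_cast; exact le_rfl
    have hΓ0 : 0 ≤ C.Γ := by linarith [C.Γ1]
    have hΓ : C.Γ ^ (h + 1) ≤ (S.t : ℝ) ^ (h + 1) := pow_le_pow_left₀ hΓ0 C.Γt _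
    have hht : (h : ℝ) + 1 ≤ S.t := by exact_mod_cast (by omega : h + 1 ≤ S.t)
    refine le_trans (mul_le_mul (div_le_div_of_nonneg_right hΓ (by positivity))
      (key _ fun w hw => by simpa only [mem_filter] using hw) (by positivity) (by positivity)) ?_
    have e : (S.t : ℝ) ^ (h + 1) / (S.N * (S.Ps.card : ℝ) ^ (2 * h)) *
        (((h + 1) * S.N) * ((S.Ps.card : ℝ) ^ (2 * h) / (S.t : ℝ) ^ (h + 102))) =
        (h + 1) / S.t * (1 / (S.t : ℝ) ^ 100) := by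
      have : (S.t : ℝ) ^ (h + 102) = (S.t : ℝ) ^ (h + 1) * (S.t * (S.t : ℝ) ^ 100) := by ring
      rw [this]; field_simp
    rw [e]
    have : ((h : ℝ) + 1) / S.t ≤ 1 := by rw [div_le_one ht0]; exact hht
    have h5 : (0 : ℝ) ≤ 1 / (S.t : ℝ) ^ 100 := by positivity
    nlinarith

end Pool.Agent.P.MP_a9a441_nt.FU
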