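import Pool.Agent.P.MP_a9a441_nt.FU.Path

/-!
The core of the edge set. For T ⊆ Y let E(T) be the edges with both ends in T. Choose T that
maximises card E(T) - (2/Γ) π^2 card T (`Finset.exists_max_image` on `S.Y.powerset`). Removing a
point y deletes at most 2 deg(y) edges (those starting at y, and, by the symmetry e ↦ (st e, swap),
as many ending at y), so deg y ≥ π^2 / Γ; comparing with T = Y gives the size.
-/

namespace Pool.Agent.P.MP_a9a441_nt.FU

open Finset Filter Pool.Agent.Lib.LargeSieve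
open scoped ComplexConjugate

namespace CoreAux

/-- The edges with both ends in `T`. -/
noncomputable def ET (S : Sys) (T : Finset ℤ) : Finset (ℤ × Lb) :=
  S.E.filter fun e => e.1 ∈ T ∧ st S.a e.1 e.2 ∈ T

theorem mem_ET {S : Sys} {T : Finset ℤ} {e : ℤ × Lb} :
    e ∈ ET S T ↔ e ∈ S.E ∧ e.1 ∈ T ∧ st S.a e.1 e.2 ∈ T := by
  simp [ET]

theorem ET_symm {S : Sys} {T : Finset ℤ} {e : ℤ × Lb} (h : e ∈ ET S T) :
    (st S.a e.1 e.2, e.2.swap) ∈ ET S T := by
  rw [mem_ET] at h ⊢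
  refine ⟨S.symm e h.1, h.2.2, ?_⟩
  show st S.a (st S.a e.1 e.2) e.2.swap ∈ T
  rw [st_swap]
  exact h.2.1

theorem ET_Y (S : Sys) : ET S S.Y = S.E := by
  ext e
  rw [mem_ET]
  refine ⟨fun h => h.1, fun h => ⟨h, (S.memE e h).1, (S.memE _ (S.symm e h)).1⟩⟩

open Classical in
theorem out_le (S : Sys) (T : Finset ℤ) (y : ℤ) :
    ((ET S T).filter fun e => e.1 = y).card ≤
      (S.A.filter fun e' => (y, e') ∈ ET S T).card := by
  refine card_le_card_of_injOn (fun e => e.2) ?_ ?_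
  · intro e he
    rw [mem_coe, mem_filter] at he
    obtain ⟨h1, h2⟩ := he
    have h3 := S.memE e (mem_ET.1 h1).1
    rw [mem_coe, mem_filter]
    refine ⟨mem_product.2 ⟨h3.2.1, h3.2.2⟩, ?_⟩
    rw [← h2]
    exact h1
  · intro e he e' he' h
    rw [mem_coe, mem_filter] at he he'
    exact Prod.ext (he.2.trans he'.2.symm) h

theorem in_le (S : Sys) (T : Finset ℤ) (y : ℤ) :
    ((ET S T).filter fun e => st S.a e.1 e.2 = y).card ≤
      ((ET S T).filter fun e => e.1 = y).card := by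
  refine card_le_card_of_injOn (fun e => (st S.a e.1 e.2, e.2.swap)) ?_ ?_
  · intro e he
    rw [mem_coe, mem_filter] at he
    rw [mem_coe, mem_filter]
    exact ⟨ET_symm he.1, he.2⟩
  · intro e _ e' _ h
    have h1 : st S.a e.1 e.2 = st S.a e'.1 e'.2 := congrArg Prod.fst h
    have h2 : e.2.swap = e'.2.swap := congrArg Prod.snd h
    have h3 : e.2 = e'.2 := Prod.swap_injective h2
    refine Prod.ext ?_ h3
    rw [← st_swap (a := S.a) e.1 e.2, ← st_swap (a := S.a) e'.1 e'.2, h1, h2]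

theorem erase_le (S : Sys) (T : Finset ℤ) (y : ℤ) :
    (ET S T).card ≤ (ET S (T.erase y)).card + (((ET S T).filter fun e => e.1 = y).card +
      ((ET S T).filter fun e => st S.a e.1 e.2 = y).card) := by
  refine le_trans (card_le_card ?_)
    ((card_union_le _ _).trans (Nat.add_le_add_left (card_union_le _ _) _))
  intro e he
  rw [mem_union, mem_union, mem_filter, mem_filter]
  by_cases h1 : e.1 = y
  · exact Or.inr (Or.inl ⟨he, h1⟩)
  by_cases h2 : st S.a e.1 e.2 = y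
  · exact Or.inr (Or.inr ⟨he, h2⟩)
  rw [mem_ET] at he
  exact Or.inl (mem_ET.2 ⟨he.1, mem_erase.2 ⟨h1, he.2.1⟩, mem_erase.2 ⟨h2, he.2.2⟩⟩)

end CoreAux

theorem exists_core (S : Sys) {Γ : ℝ} (h1 : 1 ≤ Γ)
    (hE : 4 / Γ * S.N * (S.Ps.card : ℝ) ^ 2 ≤ S.E.card) :
    ∃ E' ⊆ S.E, (∀ e ∈ E', (st S.a e.1 e.2, e.2.swap) ∈ E') ∧
      2 / Γ * S.N * (S.Ps.card : ℝ) ^ 2 ≤ E'.card ∧
      ∀ e ∈ E', (S.Ps.card : ℝ) ^ 2 / Γ ≤ (S.A.filter fun e' => (e.1, e') ∈ E').card := by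
  obtain ⟨T, hT, hmax⟩ := exists_max_image S.Y.powerset
    (fun T => ((CoreAux.ET S T).card : ℝ) - 2 / Γ * (S.Ps.card : ℝ) ^ 2 * T.card)
    ⟨S.Y, mem_powerset_self _⟩
  have hΓ : 0 < Γ := lt_of_lt_of_le one_pos h1
  refine ⟨CoreAux.ET S T, filter_subset _ _, fun e he => CoreAux.ET_symm he, ?_, ?_⟩
  · have h2 := hmax S.Y (mem_powerset_self _)
    beta_reduce at h2
    rw [CoreAux.ET_Y, Sys.card_Y] at h2
    have h3 : 0 ≤ 2 / Γ * (S.Ps.card : ℝ) ^ 2 * T.card := by positivity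
    have h4 : 4 / Γ * S.N * (S.Ps.card : ℝ) ^ 2 =
        2 * (2 / Γ * S.N * (S.Ps.card : ℝ) ^ 2) := by ring
    have h5 : 2 / Γ * (S.Ps.card : ℝ) ^ 2 * S.N = 2 / Γ * S.N * (S.Ps.card : ℝ) ^ 2 := by ring
    linarith
  · intro e he
    have hy : e.1 ∈ T := (CoreAux.mem_ET.1 he).2.1
    have h2 := hmax (T.erase e.1)
      (mem_powerset.2 ((erase_subset _ _).trans (mem_powerset.1 hT)))
    beta_reduce at h2
    have h3 : ((T.erase e.1).card : ℝ) + 1 = T.card := by
      exact_mod_cast card_erase_add_one hy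
    have h4 := CoreAux.erase_le S T e.1
    have h5 := CoreAux.in_le S T e.1
    have h6 := CoreAux.out_le S T e.1
    have h7 : (CoreAux.ET S T).card ≤ (CoreAux.ET S (T.erase e.1)).card +
        2 * (S.A.filter fun e' => (e.1, e') ∈ CoreAux.ET S T).card := by
      have h8 : ∀ (i1 i2 : DecidablePred fun e' => (e.1, e') ∈ CoreAux.ET S T),
          @Finset.filter _ _ i1 S.A = @Finset.filter _ _ i2 S.A := fun i1 i2 => by
        rw [Subsingleton.elim i1 i2]
      rw [h8 _ _] at h6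
      omega
    have h9 : ((CoreAux.ET S T).card : ℝ) ≤ (CoreAux.ET S (T.erase e.1)).card +
        2 * ((S.A.filter fun e' => (e.1, e') ∈ CoreAux.ET S T).card : ℝ) := by
      exact_mod_cast h7
    rw [← h3] at h2
    have h10 : (S.Ps.card : ℝ) ^ 2 / Γ = (2 / Γ * (S.Ps.card : ℝ) ^ 2) / 2 := by ring
    rw [h10]
    nlinarith

end Pool.Agent.P.MP_a9a441_nt.FU
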