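import Pool.Agent.P.MP_a9a441_nt.FU.Bas

/-!
A long sum is the average of short sums. n ∈ Iv (xx η y) (R η) iff η y < log n ≤ η (y + R) iff
⌈log n / η⌉ - R ≤ y < ⌈log n / η⌉: at most R values of y, and exactly R values in the given range
when u e^(Rη) < n ≤ v e^(-Rη). All the short intervals lie in (u, v].
-/

namespace Pool.Agent.P.MP_a9a441_nt.FU

open Finset Filter Pool.Agent.Lib.LargeSieve
open scoped ComplexConjugate

namespace CoverAux

theorem mem_iff {η c θ : ℝ} (hη : 0 < η) (hc : 0 < c) {y : ℤ} {n : ℕ} (hn : 0 < n) :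
    n ∈ Iv (xx η y * c) θ ↔
      y ∈ Ico ⌈(Real.log n - Real.log c) / η - θ / η⌉ ⌈(Real.log n - Real.log c) / η⌉ := by
  have hx : 0 < xx η y * c := mul_pos (xx_pos η y) hc
  have hn' : (0 : ℝ) < n := by exact_mod_cast hn
  have hl : Real.log (xx η y * c) = η * y + Real.log c := by
    rw [Real.log_mul (xx_pos η y).ne' hc.ne', xx, Real.log_exp]
  rw [mem_Iv hx.le, mem_Ico, Int.ceil_le, Int.lt_ceil, ← sub_div, div_le_iff₀ hη, lt_div_iff₀ hη,
    ← Real.log_lt_log_iff hx hn', ← Real.log_le_log_iff hn' (mul_pos hx (Real.exp_pos θ)),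
    Real.log_mul hx.ne' (Real.exp_pos θ).ne', Real.log_exp, hl]
  constructor <;> rintro ⟨h1, h2⟩ <;> constructor <;> linarith

theorem mem_one {η : ℝ} (hη : 0 < η) (R : ℕ) {y : ℤ} {n : ℕ} (hn : 0 < n) :
    n ∈ Iv (xx η y) (R * η) ↔ y ∈ Ico (⌈Real.log n / η⌉ - R) ⌈Real.log n / η⌉ := by
  have h := mem_iff (θ := R * η) (y := y) hη one_pos hn
  rw [mul_one, Real.log_one, sub_zero, mul_div_cancel_right₀ _ hη.ne', Int.ceil_sub_natCast] at h
  exact h

theorem sub {η u v : ℝ} {R : ℕ} (hη : 0 < η) (hu : 0 < u) (huv : u ≤ v) {y : ℤ}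
    (hy : y ∈ Icc ⌈Real.log u / η⌉ (⌊Real.log v / η⌋ - R)) :
    Iv (xx η y) (R * η) ⊆ Ioc ⌊u⌋₊ ⌊v⌋₊ := by
  rw [mem_Icc, Int.ceil_le, le_sub_iff_add_le, Int.le_floor, div_le_iff₀ hη, le_div_iff₀ hη] at hy
  obtain ⟨h1, h2⟩ := hy
  push_cast at h2
  refine Ioc_subset_Ioc (Nat.floor_le_floor ?_) (Nat.floor_le_floor ?_)
  · rw [xx, ← Real.log_le_iff_le_exp hu]
    linarith
  · rw [xx, ← Real.exp_add, ← Real.le_log_iff_exp_le (hu.trans_le huv)]
    linarith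

theorem full {η u v : ℝ} {R : ℕ} (hη : 0 < η) (hu : 0 < u) {n : ℕ}
    (h1 : u * Real.exp (R * η) < n) (h2 : (n : ℝ) ≤ v * Real.exp (-(R * η))) :
    Ico (⌈Real.log n / η⌉ - R) ⌈Real.log n / η⌉ ⊆
      Icc ⌈Real.log u / η⌉ (⌊Real.log v / η⌋ - R) := by
  have h0 : 0 < u * Real.exp (R * η) := mul_pos hu (Real.exp_pos _)
  have hn : (0 : ℝ) < n := h0.trans h1
  have hv : 0 < v := pos_of_mul_pos_left (hn.trans_le h2) (Real.exp_pos _).le
  have l1 := Real.log_lt_log h0 h1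
  have l2 := Real.log_le_log hn h2
  rw [Real.log_mul hu.ne' (Real.exp_pos _).ne', Real.log_exp] at l1
  rw [Real.log_mul hv.ne' (Real.exp_pos _).ne', Real.log_exp] at l2
  intro y hy
  rw [mem_Ico, sub_le_iff_le_add, Int.ceil_le, Int.lt_ceil, div_le_iff₀ hη, lt_div_iff₀ hη] at hy
  rw [mem_Icc, Int.ceil_le, le_sub_iff_add_le, Int.le_floor, div_le_iff₀ hη, le_div_iff₀ hη]
  obtain ⟨h3, h4⟩ := hy
  push_cast at h3 ⊢
  constructor <;> linarith

end CoverAux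

theorem cover {η u v : ℝ} {R : ℕ} (hη : 0 < η) (hu : 0 < u) (huv : u ≤ v) (f : ℕ → ℂ)
    (hf : ∀ n, ‖f n‖ ≤ 1) :
    ‖(R : ℂ) * ∑ n ∈ Ioc ⌊u⌋₊ ⌊v⌋₊, f n -
      ∑ y ∈ Icc ⌈Real.log u / η⌉ (⌊Real.log v / η⌋ - R), ∑ n ∈ Iv (xx η y) (R * η), f n‖ ≤
      2 * R * (v * (Real.exp (R * η) - 1) + 1) := by
  classical
  set Y := Icc ⌈Real.log u / η⌉ (⌊Real.log v / η⌋ - R) with hY
  set I := Ioc ⌊u⌋₊ ⌊v⌋₊ with hI
  have hv : 0 < v := hu.trans_le huv
  have hθ : 0 ≤ (R : ℝ) * η := by positivity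
  have e1 : 1 ≤ Real.exp (R * η) := Real.one_le_exp hθ
  have e2 : Real.exp (-(R * η)) ≤ 1 := Real.exp_le_one_iff.mpr (by linarith)
  have e3 : 2 ≤ Real.exp (R * η) + Real.exp (-(R * η)) := by
    have a1 := Real.add_one_le_exp (R * η)
    have a2 := Real.add_one_le_exp (-(R * η))
    linarith
  set cnt : ℕ → ℕ := fun n => (Y.filter fun y => n ∈ Iv (xx η y) (R * η)).card with hcnt
  have hsum : ∑ y ∈ Y, ∑ n ∈ Iv (xx η y) (R * η), f n = ∑ n ∈ I, (cnt n : ℂ) * f n := by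
    have a1 : ∀ y ∈ Y, ∑ n ∈ Iv (xx η y) (R * η), f n =
        ∑ n ∈ I, if n ∈ Iv (xx η y) (R * η) then f n else 0 := fun y hy => by
      rw [← sum_filter, filter_mem_eq_inter, inter_eq_right.mpr (CoverAux.sub hη hu huv hy)]
    rw [sum_congr rfl a1, sum_comm]
    refine sum_congr rfl fun n _ => ?_
    rw [← sum_filter, sum_const, nsmul_eq_mul]
  have hcard : ∀ c : ℤ, (Ico (c - R) c).card = R := fun c => by
    rw [Int.card_Ico]
    simp
  have hle : ∀ n ∈ I, cnt n ≤ R := fun n hn => by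
    have hn0 : 0 < n := lt_of_le_of_lt (Nat.zero_le _) (mem_Ioc.mp hn).1
    rw [← hcard ⌈Real.log n / η⌉]
    exact card_le_card fun y hy => (CoverAux.mem_one hη R hn0).mp (mem_filter.mp hy).2
  set B := Ioc ⌊u⌋₊ ⌊u * Real.exp (R * η)⌋₊ ∪ Ioc ⌊v * Real.exp (-(R * η))⌋₊ ⌊v⌋₊ with hB
  have heq : ∀ n ∈ I, n ∉ B → cnt n = R := fun n hn hnB => by
    have hn0 : 0 < n := lt_of_le_of_lt (Nat.zero_le _) (mem_Ioc.mp hn).1
    refine le_antisymm (hle n hn) ?_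
    rw [hB, mem_union, mem_Ioc, mem_Ioc, not_or, not_and, not_and'] at hnB
    have b1 := not_le.mp (hnB.1 (mem_Ioc.mp hn).1)
    have b2 := not_lt.mp (hnB.2 (mem_Ioc.mp hn).2)
    rw [Nat.floor_lt (by positivity)] at b1
    rw [Nat.le_floor_iff (by positivity)] at b2
    conv_lhs => rw [← hcard ⌈Real.log n / η⌉]
    exact card_le_card fun y hy =>
      mem_filter.mpr ⟨CoverAux.full hη hu b1 b2 hy, (CoverAux.mem_one hη R hn0).mpr hy⟩
  have hBc : (B.card : ℝ) ≤ 2 * (v * (Real.exp (R * η) - 1) + 1) := by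
    have c1 := card_Ioc_floor_le (u := u) (v := u * Real.exp (R * η)) hu.le (by nlinarith)
    have c2 := card_Ioc_floor_le (u := v * Real.exp (-(R * η))) (v := v) (by positivity)
      (by nlinarith)
    have c3 : (B.card : ℝ) ≤ (Ioc ⌊u⌋₊ ⌊u * Real.exp (R * η)⌋₊).card +
        (Ioc ⌊v * Real.exp (-(R * η))⌋₊ ⌊v⌋₊).card := by
      exact_mod_cast card_union_le _ _
    have c4 := mul_le_mul_of_nonneg_right huv (sub_nonneg.mpr e1)
    have c5 := mul_le_mul_of_nonneg_left e3 hv.le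
    nlinarith
  rw [hsum, mul_sum, ← sum_sub_distrib]
  calc ‖∑ n ∈ I, ((R : ℂ) * f n - (cnt n : ℂ) * f n)‖
      ≤ ∑ n ∈ I, if n ∈ B then (R : ℝ) else 0 := by
        refine (norm_sum_le _ _).trans (sum_le_sum fun n hn => ?_)
        split_ifs with hnB
        · rw [← sub_mul, norm_mul, ← Nat.cast_sub (hle n hn), Complex.norm_natCast]
          have d1 : ((R - cnt n : ℕ) : ℝ) ≤ R := by exact_mod_cast Nat.sub_le _ _
          calc ((R - cnt n : ℕ) : ℝ) * ‖f n‖ ≤ R * 1 :=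
                mul_le_mul d1 (hf n) (norm_nonneg _) (Nat.cast_nonneg _)
            _ = R := mul_one _
        · rw [heq n hn hnB, sub_self, norm_zero]
    _ ≤ B.card * R := by
        rw [← sum_filter, sum_const, nsmul_eq_mul]
        gcongr
        exact fun n hn => (mem_filter.mp hn).2
    _ ≤ _ := by
        have d2 := mul_le_mul_of_nonneg_right hBc (Nat.cast_nonneg (α := ℝ) R)
        linarith

theorem card_cover {η : ℝ} (hη : 0 < η) (c θ : ℝ) (hc : 0 < c) (hθ : 0 ≤ θ) (T : Finset ℤ) (n : ℕ) :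
    ((T.filter fun y => n ∈ Iv (xx η y * c) θ).card : ℝ) ≤ θ / η + 1 := by
  have h0 : 0 ≤ θ / η := by positivity
  rcases Nat.eq_zero_or_pos n with rfl | hn
  · rw [filter_false_of_mem]
    · simp only [card_empty, Nat.cast_zero]
      linarith
    · intro y _ hy
      simp [Iv] at hy
  · set a := (Real.log n - Real.log c) / η with ha
    have h1 : ((T.filter fun y => n ∈ Iv (xx η y * c) θ).card : ℝ) ≤
        (Ico ⌈a - θ / η⌉ ⌈a⌉).card := by
      exact_mod_cast card_le_card fun y hy => (CoverAux.mem_iff hη hc hn).mp (mem_filter.mp hy).2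
    have h2 : ⌈a - θ / η⌉ ≤ ⌈a⌉ := Int.ceil_le_ceil (by linarith)
    have h3 : (((Ico ⌈a - θ / η⌉ ⌈a⌉).card : ℤ) : ℝ) = (⌈a⌉ - ⌈a - θ / η⌉ : ℤ) := by
      rw [Int.card_Ico_of_le _ _ h2]
    push_cast at h3
    have h4 := Int.ceil_lt_add_one a
    have h5 := Int.le_ceil (a - θ / η)
    linarith

end Pool.Agent.P.MP_a9a441_nt.FU
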