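import Pool.Agent.P.MP_a9a441_nt.FU.Lift
import Pool.Agent.P.MP_a9a441_nt.FU.Arith

/-!
A priori bounds and four-cycles of paths. `pre_rv`: `win_rv` with (0,h,1) and (1,h,0).
`apri`: both paths have the same window `win 0 h` data (start, US); use `dig_take`,
`act_sub_le` with the centre, `act_add_mul`, and US = take h ++ [last] with `act_append`.
`cyc`: let m_ij = dig, n_ij from `dig_spec`; `lift_close` four times gives the size
4 (h+1) ε / P^(h+2); the bounds for the n_ij come from `apri` for the reversed paths (`rv_mk`,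
`Lift.dig_right`, `act_reverse`); apply `four_cycle` with B = 2P, n = 2 (h/100) + 1,
(2P)^(4n) ≤ P^(8n), 8 n ≤ 8 + h, ε P^8 ≤ 1, 4 (h+1) < P.
-/

namespace Pool.Agent.P.MP_a9a441_nt.FU

open Finset Filter Pool.Agent.Lib.LargeSieve
open scoped ComplexConjugate

namespace CycAux

theorem US_take (l : List Lb) (k : ℕ) : US (l.take k) = (US l).take k := by
  simp [US, List.map_take]

theorem length_US (l : List Lb) : (US l).length = l.length := by
  simp [US]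

theorem size {P ε E : ℝ} {h n : ℕ} (hP : 2 ≤ P) (hh : 4 * ((h : ℝ) + 1) < P) (hε0 : 0 ≤ ε)
    (hε : ε * P ^ 8 ≤ 1) (hn : 8 * n ≤ h + 8) (hE0 : 0 ≤ E)
    (hE : E ≤ 4 * ((((h + 1 : ℕ) : ℝ)) * ε / P ^ (h + 1 + 1))) :
    E * (2 * P) ^ (4 * n) < 1 := by
  have hP0 : 0 < P := by linarith
  have hP1 : 1 ≤ P := by linarith
  have h1 : (2 * P) ^ (4 * n) ≤ P ^ (h + 8) := by
    calc (2 * P) ^ (4 * n) ≤ (P * P) ^ (4 * n) := by
          apply pow_le_pow_left₀ (by linarith)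
          nlinarith
      _ = P ^ (8 * n) := by rw [← sq, ← pow_mul]; congr 1; ring
      _ ≤ P ^ (h + 8) := pow_le_pow_right₀ hP1 hn
  have h2 : E * (2 * P) ^ (4 * n) ≤
      (4 * ((((h + 1 : ℕ) : ℝ)) * ε / P ^ (h + 1 + 1))) * P ^ (h + 8) :=
    mul_le_mul hE h1 (by positivity) (by positivity)
  have h3 : (4 * ((((h + 1 : ℕ) : ℝ)) * ε / P ^ (h + 1 + 1))) * P ^ (h + 8) =
      (4 * ((h : ℝ) + 1)) * (ε * P ^ 8) / P ^ 2 := by
    push_cast
    field_simp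
    ring
  have h4 : (4 * ((h : ℝ) + 1)) * (ε * P ^ 8) / P ^ 2 < 1 := by
    rw [div_lt_one (by positivity)]
    have h5 : (4 * ((h : ℝ) + 1)) * (ε * P ^ 8) ≤ (4 * ((h : ℝ) + 1)) * 1 :=
      mul_le_mul_of_nonneg_left hε (by positivity)
    nlinarith
  linarith

end CycAux

namespace Sys

variable {S : Sys} {h : ℕ} {G : Pth → Prop} {ζ : ℤ → List ℕ → ℤ}

theorem pre_rv (hF : S.Fam h G ζ) {x : Pth} (hx : S.Pre h G x) : S.Pre h G (rv S.a x) := by
  obtain ⟨hl, hv, hd, g0, g1⟩ := hx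
  refine ⟨by rw [length_rv, hl], valid_rv hv, dist_rv hd, ?_, ?_⟩
  · rw [win_rv (j := 0) (h := h) (k := 1) (by omega)]
    exact hF.rev _ g1
  · rw [win_rv (j := 1) (h := h) (k := 0) (by omega)]
    exact hF.rev _ g0

theorem apri (hF : S.Fam h G ζ) {x x' : Pth} (hx : S.Pre h G x) (hx' : S.Pre h G x')
    (h1 : x.1 = x'.1) (h2 : US x.2 = US x'.2) :
    act (US x.2) (S.dig x - S.dig x') ≤ 2 * (h / 100) + 1 := by
  obtain ⟨hl, hv, hd, g0, -⟩ := hx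
  obtain ⟨hl', hv', hd', g0', -⟩ := hx'
  obtain ⟨j, hj⟩ := dig_take hv hd h
  obtain ⟨j', hj'⟩ := dig_take hv' hd' h
  have t1 := hF.tst _ g0
  have t2 := hF.tst _ g0'
  unfold Tst at t1 t2
  have e1 : (win S.a 0 h x).1 = x.1 := by rw [win_zero]
  have e2 : US (win S.a 0 h x).2 = (US x.2).take h := by rw [win_zero, CycAux.US_take]
  have e1' : (win S.a 0 h x').1 = x.1 := by rw [win_zero, h1]
  have e2' : US (win S.a 0 h x').2 = (US x.2).take h := by rw [win_zero, CycAux.US_take, h2]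
  rw [e1, e2] at t1
  rw [e1', e2'] at t2
  rw [CycAux.US_take] at hj hj'
  rw [← h2] at hj'
  have e3 : S.dig x - S.dig x' = (S.dig (win S.a 0 h x) - S.dig (win S.a 0 h x')) +
      (j - j') * (((US x.2).take h).prod : ℕ) := by
    rw [hj, hj']; ring
  have b1 : act ((US x.2).take h) (S.dig x - S.dig x') ≤ 2 * (h / 100) := by
    rw [e3, act_add_mul]
    have := act_sub_le ((US x.2).take h) (S.dig (win S.a 0 h x)) (S.dig (win S.a 0 h x'))
      (ζ x.1 ((US x.2).take h))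
    omega
  have b2 : act ((US x.2).drop h) (S.dig x - S.dig x') ≤ 1 := by
    have := act_le_length ((US x.2).drop h) (S.dig x - S.dig x')
    rw [List.length_drop, CycAux.length_US, hl] at this
    omega
  have := act_append ((US x.2).take h) ((US x.2).drop h) (S.dig x - S.dig x')
  rw [List.take_append_drop] at this
  omega

theorem CycAux_right (hF : S.Fam h G ζ) {z : ℤ} {U₁ U₂ D : List ℕ}
    (l1 : U₁.length = D.length) (l2 : U₂.length = D.length)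
    (h1 : S.Pre h G (mkp S.a z U₁ D)) (h2 : S.Pre h G (mkp S.a z U₂ D)) {m₁ m₂ n₁ n₂ : ℤ}
    (k1 : S.Lift (mkp S.a z U₁ D).1 (mkp S.a z U₁ D).2 m₁ n₁)
    (k2 : S.Lift (mkp S.a z U₂ D).1 (mkp S.a z U₂ D).2 m₂ n₂) :
    act D (n₁ - n₂) ≤ 2 * (h / 100) + 1 := by
  obtain ⟨j, hj⟩ := Lift.dig_right h1.2.1 h1.2.2.1 k1
  obtain ⟨j', hj'⟩ := Lift.dig_right h2.2.1 h2.2.2.1 k2
  rw [DS_mk l1] at hj
  rw [DS_mk l2] at hj'
  have e3 : n₁ - n₂ = (S.dig (rv S.a (mkp S.a z U₁ D)) - S.dig (rv S.a (mkp S.a z U₂ D))) +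
      (j - j') * (D.prod : ℕ) := by
    rw [hj, hj']; ring
  have := apri hF (pre_rv hF h1) (pre_rv hF h2)
    (by
      show en S.a _ _ = en S.a _ _
      rw [en_mk l1, en_mk l2])
    (by rw [US_rv, US_rv, DS_mk l1, DS_mk l2])
  rw [US_rv, DS_mk l1, act_reverse] at this
  rw [e3, act_add_mul]
  exact this

theorem CycAux_letters {z : ℤ} {U D : List ℕ} (l : U.length = D.length)
    (hx : S.Pre h G (mkp S.a z U D)) :
    (∀ p ∈ U, p.Prime ∧ p ≤ 2 * S.P) ∧ (∀ p ∈ D, p.Prime ∧ p ≤ 2 * S.P) ∧ U.Nodup ∧ D.Nodup ∧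
      ∀ p ∈ U, p ∉ D := by
  have hm := mem_paths.1 (valid_mem_paths hx.2.1)
  have n1 := hx.2.2.1.nodupU
  have n2 := hx.2.2.1.nodupD
  have n3 := hx.2.2.1.disj
  rw [US_mk l] at n1 n3
  rw [DS_mk l] at n2 n3
  obtain ⟨-, -, m1, m2⟩ := hm
  rw [US_mk l] at m1
  rw [DS_mk l] at m2
  refine ⟨fun p hp => ?_, fun p hp => ?_, n1, n2, n3⟩
  · have := S.prime p (m1 p hp)
    exact ⟨this.1, this.2.2.le⟩
  · have := S.prime p (m2 p hp)
    exact ⟨this.1, this.2.2.le⟩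

theorem CycAux_close {z : ℤ} {U D : List ℕ} (l1 : U.length = h + 1) (l3 : D.length = h + 1)
    (hx : S.Pre h G (mkp S.a z U D)) {m n : ℤ}
    (k : S.Lift (mkp S.a z U D).1 (mkp S.a z U D).2 m n) :
    |(S.β (z - (U.map S.a).sum) + m) / (U.prod : ℕ) -
        (S.β (z - (D.map S.a).sum) + n) / (D.prod : ℕ)| ≤
      ((h + 1 : ℕ) : ℝ) * S.ε / (S.P : ℝ) ^ (h + 1 + 1) := by
  have l : U.length = D.length := by rw [l1, l3]
  have := lift_close hx.2.1 k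
  rw [US_mk l, DS_mk l, en_mk l, hx.1] at this
  exact this

theorem cyc (hF : S.Fam h G ζ) (hh : h + 1 ≤ S.t) {z : ℤ} {U₁ U₂ D₁ D₂ : List ℕ}
    (l1 : U₁.length = h + 1) (l2 : U₂.length = h + 1) (l3 : D₁.length = h + 1)
    (l4 : D₂.length = h + 1)
    (h11 : S.Pre h G (mkp S.a z U₁ D₁)) (h12 : S.Pre h G (mkp S.a z U₁ D₂))
    (h21 : S.Pre h G (mkp S.a z U₂ D₁)) (h22 : S.Pre h G (mkp S.a z U₂ D₂)) :
    ∀ p ∈ U₁, ¬ (p : ℤ) ∣ S.dig (mkp S.a z U₁ D₁) - S.dig (mkp S.a z U₁ D₂) → p ∈ U₂ := by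
  have l11 : U₁.length = D₁.length := by rw [l1, l3]
  have l12 : U₁.length = D₂.length := by rw [l1, l4]
  have l21 : U₂.length = D₁.length := by rw [l2, l3]
  have l22 : U₂.length = D₂.length := by rw [l2, l4]
  obtain ⟨n11, k11⟩ := dig_spec h11.2.1 h11.2.2.1
  obtain ⟨n12, k12⟩ := dig_spec h12.2.1 h12.2.2.1
  obtain ⟨n21, k21⟩ := dig_spec h21.2.1 h21.2.2.1
  obtain ⟨n22, k22⟩ := dig_spec h22.2.1 h22.2.2.1
  have a1 := apri hF h11 h12 rfl (by rw [US_mk l11, US_mk l12])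
  have a2 := apri hF h21 h22 rfl (by rw [US_mk l21, US_mk l22])
  rw [US_mk l11] at a1
  rw [US_mk l21] at a2
  have a3 := CycAux_right hF l11 l21 h11 h21 k11 k21
  have a4 := CycAux_right hF l12 l22 h12 h22 k12 k22
  obtain ⟨pU1, pD1, nU1, nD1, d1⟩ := CycAux_letters l11 h11
  obtain ⟨-, -, -, -, d2⟩ := CycAux_letters l12 h12
  obtain ⟨pU2, pD2, nU2, nD2, -⟩ := CycAux_letters l22 h22
  have c11 := CycAux_close l1 l3 h11 k11
  have c12 := CycAux_close l1 l4 h12 k12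
  have c21 := CycAux_close l2 l3 h21 k21
  have c22 := CycAux_close l2 l4 h22 k22
  have ht := S.ht
  have hP : 4 * (h + 1) < S.P := by
    have h1 : S.t ^ 2 ≤ S.t ^ 1000 := Nat.pow_le_pow_right (by omega) (by norm_num)
    have h2 := S.htP
    nlinarith
  refine four_cycle (B := 2 * S.P) (n := 2 * (h / 100) + 1) (by omega) pU1 pU2 pD1 pD2
    nU1 nU2 nD1 nD2 d1 d2 a1 a2 a3 a4 ?_
  have hPr : 4 * ((h : ℝ) + 1) < S.P := by exact_mod_cast hP
  have hP2 : (2 : ℝ) ≤ S.P := by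
    have : 2 ≤ S.P := by omega
    exact_mod_cast this
  have hB : (((2 * S.P : ℕ) : ℝ)) = 2 * (S.P : ℝ) := by push_cast; ring
  rw [hB]
  refine CycAux.size hP2 hPr S.ε0 S.εP (by omega) (abs_nonneg _) ?_
  rw [abs_le] at c11 c12 c21 c22 ⊢
  have e : (((S.dig (mkp S.a z U₁ D₁) - S.dig (mkp S.a z U₁ D₂) : ℤ) : ℝ) / (U₁.prod : ℕ) -
      ((S.dig (mkp S.a z U₂ D₁) - S.dig (mkp S.a z U₂ D₂) : ℤ) : ℝ) / (U₂.prod : ℕ) -
      ((n11 - n21 : ℤ) : ℝ) / (D₁.prod : ℕ) + ((n12 - n22 : ℤ) : ℝ) / (D₂.prod : ℕ)) =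
      ((S.β (z - (U₁.map S.a).sum) + S.dig (mkp S.a z U₁ D₁)) / (U₁.prod : ℕ) -
        (S.β (z - (D₁.map S.a).sum) + n11) / (D₁.prod : ℕ)) -
      ((S.β (z - (U₁.map S.a).sum) + S.dig (mkp S.a z U₁ D₂)) / (U₁.prod : ℕ) -
        (S.β (z - (D₂.map S.a).sum) + n12) / (D₂.prod : ℕ)) -
      ((S.β (z - (U₂.map S.a).sum) + S.dig (mkp S.a z U₂ D₁)) / (U₂.prod : ℕ) -
        (S.β (z - (D₁.map S.a).sum) + n21) / (D₁.prod : ℕ)) +
      ((S.β (z - (U₂.map S.a).sum) + S.dig (mkp S.a z U₂ D₂)) / (U₂.prod : ℕ) -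
        (S.β (z - (D₂.map S.a).sum) + n22) / (D₂.prod : ℕ)) := by
    push_cast
    ring
  rw [e]
  constructor <;> linarith [c11.1, c11.2, c12.1, c12.2, c21.1, c21.2, c22.1, c22.2]

end Sys

end Pool.Agent.P.MP_a9a441_nt.FU
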