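import Pool.Agent.Lib.LargeSieve.Additive

/-!
Definitions for the project FU: local Fourier uniformity of the Liouville function on intervals
of length a power of `log X`.
-/

namespace Pool.Agent.P.MP_a9a441_nt.FU

open Finset Filter Pool.Agent.Lib.LargeSieve
open scoped ComplexConjugate

set_option linter.dupNamespace false

/-! ### Short sums -/

/-- The Liouville function. -/
noncomputable def lam (n : ℕ) : ℂ := ((ArithmeticFunction.liouville n : ℤ) : ℂ)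

/-- The primes in `[2^j, 2^(j+1))`. -/
def Pj (j : ℕ) : Finset ℕ := (Ico (2 ^ j) (2 ^ (j + 1))).filter Nat.Prime

/-- The integers in `(x, x e^θ]`. -/
noncomputable def Iv (x θ : ℝ) : Finset ℕ := Ioc ⌊x⌋₊ ⌊x * Real.exp θ⌋₊

/-- The short exponential sum. -/
noncomputable def Sm (x θ α : ℝ) : ℂ := ∑ n ∈ Iv x θ, lam n * ee (-(α * n))

/-- The defect in the Turan-Kubilius relation. -/
noncomputable def dTK (x θ α : ℝ) (p : ℕ) : ℝ :=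
  ‖(p : ℂ) * Sm (x / p) θ (p * α) + Sm x θ α‖ / (x * θ)

/-- Lattice positions. -/
noncomputable def xx (η : ℝ) (y : ℤ) : ℝ := Real.exp (η * y)

/-- The lattice logarithm. -/
noncomputable def ap (η : ℝ) (p : ℕ) : ℤ := ⌊Real.log p / η⌋

/-- The core statement: few lattice points carry a large coarse and a large fine sum. -/
def PropK (δ : ℝ) (A ρ : ℕ) : Prop :=
  ∀ᶠ X : ℕ in atTop, ∀ (h s N : ℕ) (y0 : ℤ) (β : ℤ → ℝ) (S0 : Finset ℤ),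
    Real.log X ^ A ≤ h → (h : ℝ) ≤ 2 * Real.log X ^ A → s ≤ ρ ^ 2 →
    (∀ y ∈ Ico y0 (y0 + N), (X : ℝ) ≤ xx (h / X) y ∧ xx (h / X) y ≤ 4 * X) →
    1 ≤ (N : ℝ) * (h / X) → S0 ⊆ Ico y0 (y0 + N) →
    (∀ y ∈ S0, δ * (xx (h / X) (y - s) * (ρ ^ 2 * (h / X))) ≤
      ‖Sm (xx (h / X) (y - s)) (ρ ^ 2 * (h / X)) (β y)‖) →
    (∀ y ∈ S0, δ * (xx (h / X) y * (ρ * (h / X))) ≤ ‖Sm (xx (h / X) y) (ρ * (h / X)) (β y)‖) →
    (S0.card : ℝ) ≤ δ * N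

/-- The lattice form of the theorem. -/
def PropL (δ : ℝ) (A ρ : ℕ) : Prop :=
  ∀ᶠ X : ℕ in atTop, ∀ (h : ℕ) (α : ℤ → ℝ),
    Real.log X ^ A ≤ h → (h : ℝ) ≤ 2 * Real.log X ^ A →
    ∑ y ∈ Icc ⌈Real.log X / (h / X)⌉ ⌊Real.log (3 * X) / (h / X)⌋,
      ‖Sm (xx (h / X) y) (ρ ^ 2 * (h / X)) (α y)‖ ≤ δ * X * ρ ^ 2

/-- The dyadic form of the theorem. -/
def PropD (δ : ℝ) (A : ℕ) : Prop :=
  ∀ᶠ X : ℕ in atTop, ∀ (H : ℕ) (α : ℕ → ℝ), Real.log X ^ A ≤ H → H ≤ X →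
    ∑ x ∈ Ico X (2 * X), ‖∑ n ∈ Ioc x (x + H), lam n * ee (-(α x * n))‖ ≤ δ * H * X

/-! ### Words and paths -/

/-- Words of a given length over a finite alphabet. -/
def words {α : Type*} [DecidableEq α] (A : Finset α) : ℕ → Finset (List α)
  | 0 => {[]}
  | n + 1 => (A ×ˢ words A n).image fun x => x.1 :: x.2

/-- Edge labels `(p, p')`. -/
abbrev Lb := ℕ × ℕ

/-- A path: a starting point and a word of labels. -/
abbrev Pth := ℤ × List Lb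

/-- One step. -/
def st (a : ℕ → ℤ) (y : ℤ) (e : Lb) : ℤ := y - a e.1 + a e.2

/-- The end point of a path. -/
def en (a : ℕ → ℤ) (y : ℤ) (l : List Lb) : ℤ := l.foldl (st a) y

/-- The second letters. -/
def US (l : List Lb) : List ℕ := l.map Prod.snd

/-- The first letters. -/
def DS (l : List Lb) : List ℕ := l.map Prod.fst

/-- The reversed path. -/
def rv (a : ℕ → ℤ) (x : Pth) : Pth := (en a x.1 x.2, (x.2.map Prod.swap).reverse)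

/-- The window of length `h` starting after `j` steps. -/
def win (a : ℕ → ℤ) (j h : ℕ) (x : Pth) : Pth := (en a x.1 (x.2.take j), (x.2.drop j).take h)

/-- The apex of a path. -/
def apex (a : ℕ → ℤ) (x : Pth) : ℤ := x.1 + ((US x.2).map a).sum

/-- The path with given apex and letters. -/
def mkp (a : ℕ → ℤ) (z : ℤ) (U D : List ℕ) : Pth := (z - (U.map a).sum, D.zip U)

/-- All letters of the word are distinct. -/
def Dist (l : List Lb) : Prop := (DS l ++ US l).Nodup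

/-- The number of letters of `U` that do not divide `m`. -/
def act (U : List ℕ) (m : ℤ) : ℕ := U.countP fun p => decide (¬ (p : ℤ) ∣ m)

/-- The data of the structure theorem. -/
structure Sys where
  a : ℕ → ℤ
  Ps : Finset ℕ
  P : ℕ
  t : ℕ
  N : ℕ
  y0 : ℤ
  a0 : ℤ
  β : ℤ → ℝ
  ε : ℝ
  E : Finset (ℤ × Lb)
  prime : ∀ p ∈ Ps, p.Prime ∧ P ≤ p ∧ p < 2 * P
  ha : ∀ p ∈ Ps, a0 ≤ a p ∧ a p ≤ a0 + N
  ht : 10 ≤ t
  htP : t ^ 1000 ≤ P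
  hπ : 2 * P ≤ t * Ps.card
  hN : 1 ≤ N
  ε0 : 0 ≤ ε
  εP : ε * (P : ℝ) ^ 8 ≤ 1
  memE : ∀ e ∈ E, e.1 ∈ Ico y0 (y0 + N) ∧ e.2.1 ∈ Ps ∧ e.2.2 ∈ Ps
  near : ∀ e ∈ E, ∃ k : ℤ, |(e.2.1 : ℝ) * β e.1 - e.2.2 * β (st a e.1 e.2) - k| ≤ ε
  symm : ∀ e ∈ E, (st a e.1 e.2, e.2.swap) ∈ E

namespace Sys

variable (S : Sys)

/-- The positions. -/
noncomputable def Y : Finset ℤ := Ico S.y0 (S.y0 + S.N)

/-- The alphabet of labels. -/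
def A : Finset Lb := S.Ps ×ˢ S.Ps

/-- All paths of length `h`. -/
noncomputable def paths (h : ℕ) : Finset Pth := S.Y ×ˢ words S.A h

/-- The range of the apex of a path of length `h`. -/
noncomputable def Zr (h : ℕ) : Finset ℤ :=
  Ico (S.y0 + h * S.a0) (S.y0 + h * S.a0 + ((h + 1) * S.N : ℕ))

/-- Paths along edges. -/
def Valid : ℤ → List Lb → Prop
  | y, [] => y ∈ S.Y
  | y, e :: l => (y, e) ∈ S.E ∧ Valid (st S.a y e) l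

/-- Integer lifts of the frequencies at the two ends of a path. -/
def Lift : ℤ → List Lb → ℤ → ℤ → Prop
  | _, [], m, n => m = n
  | y, e :: l, m, n => ∃ m' : ℤ,
      |(e.1 : ℝ) * (S.β y + m) - e.2 * (S.β (st S.a y e) + m')| ≤ S.ε ∧ Lift (st S.a y e) l m' n

open Classical in
/-- A chosen lift at the start. -/
noncomputable def dig (x : Pth) : ℤ :=
  if h : ∃ m n : ℤ, S.Lift x.1 x.2 m n then h.choose else 0

/-- The digit is close to the centre. -/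
def Tst (h : ℕ) (ζ : ℤ → List ℕ → ℤ) (x : Pth) : Prop :=
  act (US x.2) (S.dig x - ζ x.1 (US x.2)) ≤ h / 100

/-- A family of good paths of length `h`. -/
structure Fam (h : ℕ) (G : Pth → Prop) (ζ : ℤ → List ℕ → ℤ) : Prop where
  len : ∀ x, G x → x.2.length = h
  valid : ∀ x, G x → S.Valid x.1 x.2
  dist : ∀ x, G x → Dist x.2
  rev : ∀ x, G x → G (rv S.a x)
  tst : ∀ x, G x → S.Tst h ζ x

/-- Paths of length `h + 1` whose two subpaths of length `h` are good. -/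
def Pre (h : ℕ) (G : Pth → Prop) (x : Pth) : Prop :=
  x.2.length = h + 1 ∧ S.Valid x.1 x.2 ∧ Dist x.2 ∧ G (win S.a 0 h x) ∧ G (win S.a 1 h x)

/-- The colour of a path. -/
noncomputable def col (h : ℕ) (x : Pth) : ℤ :=
  ⌊(S.P : ℝ) ^ h * ((S.β x.1 + S.dig x) / ((US x.2).prod : ℕ))⌋ % ((S.P ^ h : ℕ) : ℤ)

/-- The apex frequency has a rational approximation. -/
def Rt (b : ℕ) (x : Pth) : Prop :=
  x.2.length = 4 * b ∧ S.Valid x.1 x.2 ∧ Dist x.2 ∧ ∃ r : ℚ, r.den ≤ (2 * S.P) ^ b ∧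
    |(S.β x.1 + S.dig x) / ((US x.2).prod : ℕ) - r| ≤ 2 ^ (b + 1) / (S.P : ℝ) ^ (3 * b)

open Classical in
/-- The label that a path gives to its starting point. -/
noncomputable def sp (b : ℕ) (x : Pth) : ℚ :=
  if h : S.Rt b x then ((US x.2).prod : ℕ) * h.2.2.2.choose - S.dig x else 0

/-- The integer attached to an edge. -/
noncomputable def kk (y : ℤ) (e : Lb) : ℤ :=
  round ((e.1 : ℝ) * S.β y - e.2 * S.β (st S.a y e))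

/-- Transport of a label along an edge. -/
noncomputable def tr (y : ℤ) (e : Lb) (s : ℚ) : ℚ := (e.1 * s - S.kk y e) / e.2

end Sys

/-- A reversible stationary walk on the edges. -/
structure Chain (S : Sys) where
  Γ : ℝ
  μ : Pth → ℝ
  Γ1 : 1 ≤ Γ
  Γt : Γ ≤ S.t
  nonneg : ∀ x, 0 ≤ μ x
  valid : ∀ x, μ x ≠ 0 → S.Valid x.1 x.2
  total : ∑ y ∈ S.Y, μ (y, []) = 1
  snoc : ∀ y l, ∑ e ∈ S.A, μ (y, l ++ [e]) = μ (y, l)
  rev : ∀ x, μ (rv S.a x) = μ x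
  init : ∀ y, μ (y, []) ≤ Γ / S.N
  step : ∀ y l e, μ (y, l ++ [e]) ≤ μ (y, l) * (Γ / (S.Ps.card : ℝ) ^ 2)
  markov : ∀ y l₁ l₂, μ (y, l₁ ++ l₂) * μ (en S.a y l₁, []) = μ (y, l₁) * μ (en S.a y l₁, l₂)

open Classical in
/-- The probability of an event for paths of length `h`. -/
noncomputable def Chain.Pr {S : Sys} (C : Chain S) (h : ℕ) (F : Pth → Prop) : ℝ :=
  ∑ x ∈ (S.paths h).filter F, C.μ x

/-- The properties of an edge with consistent labels. -/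
structure Cons (a : ℕ → ℤ) (β : ℤ → ℝ) (s : ℤ → ℚ) (Q : ℕ) (B ε : ℝ) (e : ℤ × Lb) : Prop where
  den1 : (s e.1).den ≤ Q
  den2 : (s (st a e.1 e.2)).den ≤ Q
  bd1 : |β e.1 - s e.1| ≤ B
  bd2 : |β (st a e.1 e.2) - s (st a e.1 e.2)| ≤ B
  int : ∃ k : ℤ, (e.2.1 : ℚ) * s e.1 - e.2.2 * s (st a e.1 e.2) = k
  near : |(e.2.1 : ℝ) * (β e.1 - s e.1) - e.2.2 * (β (st a e.1 e.2) - s (st a e.1 e.2))| ≤ ε
  nd1 : ¬ e.2.1 ∣ (s e.1).den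
  nd2 : ¬ e.2.2 ∣ (s (st a e.1 e.2)).den

/-! ### Analytic objects -/

/-- The integral of a character of the line. -/
noncomputable def intE (Δ u v : ℝ) : ℂ := ∫ t in u..v, ee (Δ * t)

/-- A Gauss sum. -/
noncomputable def cchi {q : ℕ} [NeZero q] (χ : DirichletCharacter ℂ q) (m : ℕ) : ℂ :=
  ∑ b : (ZMod q)ˣ, χ b * ZMod.stdAddChar (-((b : ZMod q) * (m : ZMod q)))

/-- The sum of the reciprocals of the primes in `[2^i₀, 2^i₁)`. -/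
noncomputable def LL (i₀ i₁ : ℕ) : ℝ := ∑ j ∈ Ico i₀ i₁, ∑ p ∈ Pj j, (1 : ℝ) / p

/-- The range of the cofactor. -/
noncomputable def cut (M : ℝ) (j₁ j₂ : ℕ) : Finset ℕ :=
  Ioc ⌊M / (4 * 2 ^ (j₁ + j₂))⌋₊ ⌊16 * M / 2 ^ (j₁ + j₂)⌋₊

/-- The weight counting factorisations with two large primes. -/
noncomputable def gg (i₀ i₁ : ℕ) (M : ℝ) (m : ℕ) : ℝ :=
  (LL i₀ i₁ ^ 2)⁻¹ * ∑ j₁ ∈ Ico i₀ i₁, ∑ j₂ ∈ Ico i₀ i₁, ∑ p₁ ∈ Pj j₁, ∑ p₂ ∈ Pj j₂,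
    ∑ m' ∈ cut M j₁ j₂, if p₁ * p₂ * m' = m then (1 : ℝ) else 0

/-- The range of the low variable. -/
noncomputable def Ms (M : ℝ) : Finset ℕ := Ioc ⌊M / 4⌋₊ ⌊64 * M⌋₊

/-- The properties of the weight. -/
structure Wt (X : ℕ) (M G Z ε₅ ε₆ : ℝ) (g : ℕ → ℝ) : Prop where
  nonneg : ∀ m, 0 ≤ g m
  le : ∀ m, g m ≤ G
  near : ∑ m ∈ Ioc ⌊M⌋₊ ⌊16 * M⌋₊, |g m - 1| / m ≤ ε₆
  l1 : ∀ (q : ℕ) [NeZero q] (T : ℝ) (V : Finset (ℤ × DirichletCharacter ℂ q)),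
    (q : ℝ) ≤ 2 * Z ^ 4 → |T| ≤ (X : ℝ) ^ 9 → (V.card : ℝ) ≤ Z ^ 2 →
    (∀ v ∈ V, |v.1| ≤ 10 * (X : ℤ) ^ 10) →
    ∑ v ∈ V, ‖∑ m ∈ Ms M, (g m : ℂ) * lam m / m * ee (((v.1 : ℝ) / 10 - T) * Real.log m) *
      cchi v.2 m‖ ≤ ε₅ * q.totient

/-- The local defect of the weight. -/
noncomputable def d3 (g : ℕ → ℝ) (x θ : ℝ) (p : ℕ) : ℝ :=
  θ⁻¹ * ∑ m ∈ Iv (x * Real.exp (-θ) / p) (3 * θ), |g m - 1| / m

/-! ### Finite Fourier analysis -/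

open Classical in
/-- A complete orthogonal family of characters. -/
structure Dual {V G : Type*} [CommGroup V] [Fintype V] [Fintype G] (e : V → G → ℂ) (n : ℝ) :
    Prop where
  pos : 0 < n
  o1 : ∀ g g', ∑ v, e v g * conj (e v g') = if g = g' then (n : ℂ) else 0
  o2 : ∀ v v', ∑ g, e v g * conj (e v' g) = if v = v' then (n : ℂ) else 0
  mul : ∀ v v' g, e (v * v') g = e v g * e v' g

/-- Fourier coefficients. -/
noncomputable def hat {V G : Type*} [Fintype G] (e : V → G → ℂ) (f : G → ℂ) (v : V) : ℂ :=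
  ∑ g, f g * conj (e v g)

/-- The group of positions and residues. -/
abbrev GG (N q : ℕ) := ZMod N × (ZMod q)ˣ

/-- Its dual. -/
abbrev VV (N q : ℕ) := Multiplicative (ZMod N) × DirichletCharacter ℂ q

/-- The characters. -/
noncomputable def ech {N q : ℕ} [NeZero N] (v : VV N q) (g : GG N q) : ℂ :=
  ZMod.stdAddChar (Multiplicative.toAdd v.1 * g.1) * v.2 g.2

/-- The unit given by a number prime to the modulus. -/
noncomputable def un (q p : ℕ) : (ZMod q)ˣ :=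
  if h : p.Coprime q then ZMod.unitOfCoprime p h else 1

/-- The data of a class of positions. -/
structure Cls (q : ℕ) where
  Ω : ℕ
  S : Finset ℤ
  ys : ℤ → ℤ
  ar : ℤ → (ZMod q)ˣ

open Classical in
/-- At most `W` points of the class lie in a window. -/
def Cls.Mult {q : ℕ} (K : Cls q) (N : ℕ) (W : ℝ) : Prop :=
  ∀ w : ZMod N, ((K.S.filter fun y => ∃ i < K.Ω, ((K.ys y - i : ℤ) : ZMod N) = w).card : ℝ) ≤ W

/-- The low point reached from `y` by the prime `p` and the shift `i`. -/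
noncomputable def Cls.low {q : ℕ} (K : Cls q) (N : ℕ) (y : ℤ) (p i : ℕ) : GG N q :=
  (((K.ys y - ap (10 / N) p - i : ℤ) : ZMod N), un q p * K.ar y)

open Classical in
/-- The averaged point masses. -/
noncomputable def Th {q : ℕ} (N : ℕ) (Ps : Finset ℕ) (K : Cls q) (θ : ℕ → ℂ) (c : ℤ → ℂ)
    (g : GG N q) : ℂ :=
  ((Ps.card : ℂ) * K.Ω)⁻¹ * ∑ p ∈ Ps.filter (fun p => p.Coprime q), ∑ y ∈ K.S,
    ∑ i ∈ range K.Ω, if K.low N y p i = g then θ p * c y else 0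

/-- The multiplier of the primes. -/
noncomputable def muh {N q : ℕ} [NeZero N] (Ps : Finset ℕ) (θ : ℕ → ℂ) (v : VV N q) : ℂ :=
  ∑ p ∈ Ps.filter (fun p => p.Coprime q),
    θ p * conj (ech v (((-ap (10 / N) p : ℤ) : ZMod N), un q p))

open Classical in
/-- The large spectrum. -/
noncomputable def Bs (N q : ℕ) [NeZero N] [NeZero q] (Ps : Finset ℕ) (θ : ℕ → ℂ) (c : ℝ)
    (Ω : ℕ) : Finset (VV N q) :=
  univ.filter fun v => c * Ps.card ≤ ‖muh Ps θ v‖ ∧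
    c * √Ω * |((Multiplicative.toAdd v.1).valMinAbs : ℝ)| ≤ N

/-- The kernel that makes the phase linear. -/
noncomputable def kT (η T : ℝ) (j : ℕ) : ℂ := ee (-(T * (Real.exp (η * j) - 1 - η * j)))

open Classical in
/-- The test function. -/
noncomputable def Phi {q : ℕ} [NeZero q] (N R : ℕ) (T M : ℝ) (g : ℕ → ℝ) (x : GG N q) : ℂ :=
  (((R : ℝ) * (10 / N) : ℝ) : ℂ)⁻¹ * ∑ m ∈ Ms M, ∑ j ∈ range R,
    if ((ap (10 / N) m - j : ℤ) : ZMod N) = x.1 then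
      (g m : ℂ) * lam m / m * ee (-(T * Real.log m)) * kT (10 / N) T j *
        ZMod.stdAddChar (-((x.2 : ZMod q) * (m : ZMod q)))
    else 0

/-- The geometry of the classes. -/
structure Geo (X : ℕ) (η η₁ E₀ : ℝ) (τ : ℤ → ℝ) (E : Finset (ℤ × Lb)) (S₁ : Finset ℤ)
    (κ : ℤ → ℤ × ℤ) (Tc : ℤ × ℤ → ℝ) (Om : ℤ × ℤ → ℕ) (ys : ℤ → ℤ) : Prop where
  edge : ∀ e ∈ E, e.1 ∈ S₁ ∧ st (ap η) e.1 e.2 ∈ S₁ ∧ κ (st (ap η) e.1 e.2) = κ e.1 ∧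
    2 * |ys e.1 - ap η₁ e.2.1 - (ys (st (ap η) e.1 e.2) - ap η₁ e.2.2)| ≤ Om (κ e.1)
  pos : ∀ y ∈ S₁, |η₁ * ys y - η * y| ≤ 22 * η
  om1 : ∀ y ∈ S₁, ((Om (κ y) : ℝ) + 1) * η₁ ≤ 22 * η
  om2 : ∀ y ∈ S₁, X ^ 2 ≤ Om (κ y)
  t1 : ∀ y ∈ S₁, |Tc (κ y) - τ y * Real.exp (η₁ * ys y)| ≤ 12 * E₀
  t2 : ∀ y ∈ S₁, |Tc (κ y)| * (Om (κ y) * η₁) ≤ 12 * E₀
  t3 : ∀ y ∈ S₁, |Tc (κ y)| ≤ (X : ℝ) ^ 9

/-- The hypotheses on the edges under which the classes are built. -/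
structure GeoHyp (X J P : ℕ) (E₀ ε : ℝ) (Y : Finset ℤ) (τ : ℤ → ℝ) (E : Finset (ℤ × Lb)) :
    Prop where
  hX : 10 ≤ X
  hJ : X ^ 2 ≤ J
  hP : 1 ≤ P
  small : (J : ℝ) / X ^ 10 ≤ 1 / 10
  E2 : 2 ≤ E₀
  Eε : 8 * ε * X / P ≤ E₀
  E9 : 3 * E₀ / (J / X ^ 10) ≤ (X : ℝ) ^ 9
  hY : ∀ y ∈ Y, (X : ℝ) ≤ xx (J / X ^ 10) y ∧ xx (J / X ^ 10) y ≤ 4 * X
  mem : ∀ e ∈ E, e.1 ∈ Y ∧ st (ap (J / X ^ 10)) e.1 e.2 ∈ Y ∧
    P ≤ e.2.1 ∧ e.2.1 < 2 * P ∧ P ≤ e.2.2 ∧ e.2.2 < 2 * P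
  bd : ∀ e ∈ E, |τ e.1| ≤ (X : ℝ) ^ 7 ∧ |τ (st (ap (J / X ^ 10)) e.1 e.2)| ≤ (X : ℝ) ^ 7
  near : ∀ e ∈ E, |(e.2.1 : ℝ) * τ e.1 - e.2.2 * τ (st (ap (J / X ^ 10)) e.1 e.2)| ≤ ε

/-- The global parameters of the last step. -/
structure Par where
  X : ℕ
  h : ℕ
  ρ : ℕ
  j : ℕ
  r : ℕ
  N : ℕ
  y0 : ℤ
  δ : ℝ
  c : ℝ
  G : ℝ
  Z : ℝ
  ε₅ : ℝ
  ε₆ : ℝ
  g : ℕ → ℝ
  hX : 10 ≤ X
  hh : 1 ≤ h
  hρ : 88 ≤ ρ
  δ0 : 0 < δ
  δ1 : δ ≤ 1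
  δX : 1 ≤ δ ^ 2 * X
  η0 : (ρ : ℝ) ^ 2 * (h / X) ≤ 1 / 10
  err : 1000 * (12 * (2304 / δ ^ 2) / ρ + ρ * (h / X) + 22 / ρ + 2 * 2 ^ j / (ρ * h)) ≤ δ / 2
  hY : ∀ y ∈ Ico y0 (y0 + N), (X : ℝ) ≤ xx (h / X) y ∧ xx (h / X) y ≤ 4 * X
  hN : 1 ≤ (N : ℝ) * (h / X)
  wt : Wt X (X / (3 * 2 ^ j)) G Z ε₅ ε₆ g
  c0 : 0 < c
  c1 : c ≤ 1
  cZ : 1 ≤ c ^ 2 * Z
  G1 : 1 ≤ G
  ε₅0 : 0 ≤ ε₅
  ne : (Pj j).Nonempty
  r1 : 1 ≤ r
  rX : r ≤ X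
  rP : X ^ 16 ≤ (2 ^ j) ^ r
  spec : (2 * r + 1) * (20 * r + 1) * (2 * r * 2 ^ j / (c ^ 2 * (Pj j).card)) ^ r ≤ Z

namespace Par

variable (Q : Par)

/-- The lattice spacing. -/
noncomputable def η : ℝ := Q.h / Q.X

/-- The unit of error in the invariant. -/
noncomputable def E₀ : ℝ := 2304 / Q.δ ^ 2 / (Q.ρ ^ 2 * Q.η)

/-- The error of the upper bound. -/
noncomputable def ε₇ : ℝ := 12 * Q.c * Q.G + Q.ε₅ + 100 * Q.Z ^ 2 * Q.G / (Q.c * Q.X)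

end Par

end Pool.Agent.P.MP_a9a441_nt.FU
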