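import Pool.Agent.P.MP_a9a441_nt.FU.Bas
import Pool.Agent.P.MP_a1177c_nt.MR.Vdc

/-!
Van der Corput for the phase Δ log (n + ρ). Use `Pool.Agent.P.MP_a1177c_nt.MR.vdc m` with
f 0 x = 2π Δ log (x + ρ), f (i+1) x = 2π Δ (-1)^i i! / (x + ρ)^(i+1), L = 40000 u. Choose m ≥ 1
with u^(m - 1/4) ≤ |Δ| ≤ u^(m + 3/4) (m ≤ C₀ + 1; finitely many m, take min c and max C). Put
σ with |Δ| = u^(m + 1 - σ), σ in [1/4, 5/4]. If σ ≤ 7/8 take H0 = 1, H = u^(3/(16 m)); otherwise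
H0 = u^(3/(8m)), H = u^(13/(16 m)). Then lm H0^m L ≥ const u^(1/8), and Lm lm H^m ≤ 3 for u
large; for bounded u the bound is trivial. See MR/ExpLarge.lean for a similar use.
-/

namespace Pool.Agent.P.MP_a9a441_nt.FU

open Finset Filter Pool.Agent.Lib.LargeSieve
open scoped ComplexConjugate

namespace ES1Aux

/-- The phase and its derivatives. -/
noncomputable def ph (Δ ρ : ℝ) : ℕ → ℝ → ℝ
  | 0, x => 2 * Real.pi * (Δ * Real.log (x + ρ))
  | i + 1, x => 2 * Real.pi * Δ * (-1) ^ i * (i.factorial : ℝ) / (x + ρ) ^ (i + 1)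

theorem ph_deriv (Δ ρ : ℝ) (i : ℕ) {x : ℝ} (hx : 0 < x + ρ) :
    HasDerivAt (ph Δ ρ i) (ph Δ ρ (i + 1) x) x := by
  have h0 : HasDerivAt (fun y : ℝ => y + ρ) 1 x := (hasDerivAt_id x).add_const ρ
  cases i with
  | zero =>
    refine (((h0.log hx.ne').const_mul Δ).const_mul (2 * Real.pi)).congr_deriv ?_
    simp only [ph]
    simp
    ring
  | succ i =>
    refine ((hasDerivAt_const x (2 * Real.pi * Δ * (-1) ^ i * (i.factorial : ℝ))).div
      (h0.pow (i + 1)) (pow_ne_zero _ hx.ne')).congr_deriv ?_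
    simp only [ph, Nat.factorial_succ, Nat.add_sub_cancel, Pi.pow_apply]
    push_cast
    field_simp
    ring

theorem ph_abs (Δ ρ : ℝ) (i : ℕ) {x : ℝ} (hx : 0 < x + ρ) :
    |ph Δ ρ (i + 1) x| = 2 * Real.pi * |Δ| * (i.factorial : ℝ) / (x + ρ) ^ (i + 1) := by
  have := Real.pi_pos
  simp only [ph]
  rw [abs_div, abs_mul, abs_mul, abs_mul, abs_pow, abs_neg, abs_one, one_pow, mul_one,
    abs_of_pos (by positivity : 0 < 2 * Real.pi), Nat.abs_cast, abs_of_pos (pow_pos hx _)]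

theorem main (m : ℕ) (hm : 1 ≤ m) : ∃ C : ℝ, 1 ≤ C ∧ ∀ (u v ρ Δ : ℝ) (A B : ℤ),
    1 ≤ v → (v ^ m) ^ 8 = u → u ≤ A + ρ → B + ρ ≤ 40000 * u → (v ^ m) ^ 6 ≤ |Δ| → |Δ| ≤ u ^ m →
    2 * Real.pi * (m.factorial : ℝ) ≤ 3 * (v ^ m) ^ 2 →
    ‖∑ n ∈ Ico A B, ee (Δ * Real.log (n + ρ))‖ ≤ C * u * (v⁻¹) ^ ((1 : ℝ) / 2 ^ m) := by
  obtain ⟨C, hC, H⟩ := Pool.Agent.P.MP_a1177c_nt.MR.vdc m
  obtain ⟨K, hK⟩ : ∃ K : ℝ, K = 1 + (1 + 40000 * ((m + 1) * 40000 ^ (m + 1))) * 40000 ^ m :=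
    ⟨_, rfl⟩
  have hK1 : 1 ≤ K := by
    rw [hK]
    exact le_add_of_nonneg_right (by positivity)
  refine ⟨C * 40000 * K, by nlinarith [mul_le_mul hC hK1 zero_le_one (by linarith : 0 ≤ C)], ?_⟩
  intro u v ρ Δ A B hv hu hA hB h1 h2 h3
  have hpi := Real.pi_gt_three
  have hv0 : 0 < v := by linarith
  have hvt : v ≤ v ^ m := le_self_pow₀ hv (by omega)
  obtain ⟨t, ht⟩ : ∃ t, t = v ^ m := ⟨_, rfl⟩
  rw [← ht] at hu h1 h3 hvt
  have ht1 : 1 ≤ t := hv.trans hvt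
  have ht0 : 0 < t := by linarith
  have hu1 : 1 ≤ u := hu ▸ one_le_pow₀ ht1
  have hu0 : 0 < u := by linarith
  have hD : 0 < |Δ| := lt_of_lt_of_le (by positivity) h1
  have hF : (1 : ℝ) ≤ (m.factorial : ℝ) := by exact_mod_cast m.factorial_pos
  obtain ⟨w, hw0, hw⟩ : ∃ w : ℝ, 0 < w ∧ w ^ m = u ^ m * t ^ 5 / |Δ| :=
    ⟨(u ^ m * t ^ 5 / |Δ|) ^ ((m : ℝ)⁻¹), by positivity,
      Real.rpow_inv_natCast_pow (by positivity) (by omega)⟩
  have hw1 : 1 ≤ w := by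
    rw [← one_le_pow_iff_of_nonneg hw0.le (by omega : m ≠ 0), hw, le_div_iff₀ hD, one_mul]
    exact h2.trans (le_mul_of_one_le_right (by positivity) (one_le_pow₀ ht1))
  have hH : (w * v) ^ m = u ^ m * t ^ 6 / |Δ| := by
    rw [mul_pow, hw, ← ht]
    ring
  have hHu : w * v ≤ u := by
    rw [← pow_le_pow_iff_left₀ (by positivity) hu0.le (by omega : m ≠ 0), hH, div_le_iff₀ hD]
    exact mul_le_mul_of_nonneg_left h1 (by positivity)
  have hx : ∀ x ∈ Set.Icc (A : ℝ) B, u ≤ x + ρ ∧ x + ρ ≤ 40000 * u := fun x hx =>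
    ⟨by linarith [hx.1], by linarith [hx.2]⟩
  have key := H (ph Δ ρ) A B (40000 * u) w (w * v)
    (2 * Real.pi * |Δ| * (m.factorial : ℝ) / (40000 * u) ^ (m + 1)) (40000 ^ (m + 1))
    ((m + 1) * 40000 ^ (m + 1) / u)
    (fun i _ x hx' => ph_deriv Δ ρ i (hu0.trans_le (hx x hx').1))
    (fun x hx' => by
      obtain ⟨e1, e2⟩ := hx x hx'
      have e0 : 0 < x + ρ := hu0.trans_le e1
      rw [ph_abs Δ ρ m e0, ph_abs Δ ρ (m + 1) e0]
      refine ⟨by gcongr, le_trans (b := 2 * Real.pi * |Δ| * (m.factorial : ℝ) / u ^ (m + 1))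
        (by gcongr) (le_of_eq ?_), le_trans
        (b := 2 * Real.pi * |Δ| * ((m + 1).factorial : ℝ) / u ^ (m + 1 + 1))
        (by gcongr) (le_of_eq ?_)⟩
      · rw [mul_pow]
        field_simp
      · rw [mul_pow, Nat.factorial_succ]
        push_cast
        field_simp
        ring)
    (by positivity) (by positivity) hw1 (le_mul_of_one_le_right hw0.le hv) (by linarith)
    (by linarith) (by
      have e : (40000 : ℝ) ^ (m + 1) *
          (2 * Real.pi * |Δ| * (m.factorial : ℝ) / (40000 * u) ^ (m + 1)) * (w * v) ^ m =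
          2 * Real.pi * (m.factorial : ℝ) / t ^ 2 := by
        rw [hH, mul_pow, pow_succ u m]
        nth_rewrite 2 [← hu]
        field_simp
      rw [e, div_le_iff₀ (by positivity)]
      exact h3)
  refine le_trans key ?_
  have e1 : 2 * Real.pi * |Δ| * (m.factorial : ℝ) / (40000 * u) ^ (m + 1) * w ^ m * (40000 * u) =
      2 * Real.pi * (m.factorial : ℝ) * t ^ 5 / 40000 ^ m := by
    rw [hw, mul_pow, pow_succ u m, pow_succ (40000 : ℝ) m]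
    field_simp
  have e2 : 40000 * u * ((m + 1) * 40000 ^ (m + 1) / u) = 40000 * ((m + 1) * 40000 ^ (m + 1)) := by
    field_simp
  have e3 : v ≤ 2 * Real.pi * (m.factorial : ℝ) * t ^ 5 := by
    have a1 : t ≤ t ^ 5 := le_self_pow₀ ht1 (by norm_num)
    have a2 : 1 ≤ 2 * Real.pi * (m.factorial : ℝ) := by nlinarith
    exact (hvt.trans a1).trans (le_mul_of_one_le_left (by positivity) a2)
  have e4 : w / (w * v) + (1 + 40000 * u * ((m + 1) * 40000 ^ (m + 1) / u)) /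
      (2 * Real.pi * |Δ| * (m.factorial : ℝ) / (40000 * u) ^ (m + 1) * w ^ m * (40000 * u)) ≤
      K * v⁻¹ := by
    have a1 : w / (w * v) = v⁻¹ := by field_simp
    have a2 := div_le_div_of_nonneg_left
      (a := (1 + 40000 * (((m : ℝ) + 1) * 40000 ^ (m + 1))) * 40000 ^ m) (by positivity) hv0 e3
    rw [e1, e2, hK, div_div_eq_mul_div, a1]
    rw [div_eq_mul_inv _ v] at a2
    linarith
  have e5 : K ^ ((1 : ℝ) / 2 ^ m) ≤ K := by
    have := Real.rpow_le_rpow_of_exponent_le hK1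
      (show (1 : ℝ) / 2 ^ m ≤ 1 by
        rw [div_le_one (by positivity)]
        exact one_le_pow₀ (by norm_num))
    rwa [Real.rpow_one] at this
  calc _ ≤ C * (40000 * u) * (K * v⁻¹) ^ ((1 : ℝ) / 2 ^ m) := by gcongr
    _ = C * (40000 * u) * (K ^ ((1 : ℝ) / 2 ^ m) * (v⁻¹) ^ ((1 : ℝ) / 2 ^ m)) := by
      rw [Real.mul_rpow (by positivity) (by positivity)]
    _ ≤ C * (40000 * u) * (K * (v⁻¹) ^ ((1 : ℝ) / 2 ^ m)) := by gcongr
    _ = _ := by ring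

end ES1Aux

theorem es1 (C₀ : ℕ) : ∃ c C : ℝ, 0 < c ∧ c ≤ 1 / 4 ∧ 1 ≤ C ∧ ∀ (u ρ Δ : ℝ) (A B : ℤ),
    1 ≤ u → u ≤ A + ρ → B + ρ ≤ 40000 * u → u ^ (3 / 4 : ℝ) ≤ |Δ| → |Δ| ≤ u ^ C₀ →
    ‖∑ n ∈ Ico A B, ee (Δ * Real.log (n + ρ))‖ ≤ C * u ^ (1 - c) := by
  obtain ⟨m, hm, hCm⟩ : ∃ m : ℕ, 1 ≤ m ∧ C₀ ≤ m := ⟨C₀ + 1, by omega, by omega⟩
  obtain ⟨C, hC, H⟩ := ES1Aux.main m hm
  have hm' : (1 : ℝ) ≤ m := by exact_mod_cast hm
  have h2m : (1 : ℝ) ≤ 2 ^ m := one_le_pow₀ (by norm_num)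
  have hpi := Real.pi_pos
  have hc : (1 : ℝ) / (8 * m) * (1 / 2 ^ m) ≤ 1 / 4 := by
    rw [div_mul_div_comm, one_mul]
    exact one_div_le_one_div_of_le (by norm_num) (by nlinarith)
  refine ⟨1 / (8 * m) * (1 / 2 ^ m), C + 40000 * (2 * Real.pi * (m.factorial : ℝ)),
    by positivity, hc, hC.trans (le_add_of_nonneg_right (by positivity)), ?_⟩
  intro u ρ Δ A B hu hA hB h1 h2
  have hu0 : 0 < u := by linarith
  have ev : ∀ k : ℕ, ((u ^ ((1 : ℝ) / (8 * m))) ^ m) ^ k = u ^ ((k : ℝ) / 8) := fun k => by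
    rw [← pow_mul, ← Real.rpow_natCast, ← Real.rpow_mul hu0.le]
    congr 1
    push_cast
    field_simp
  by_cases h3 : 2 * Real.pi * (m.factorial : ℝ) ≤ 3 * ((u ^ ((1 : ℝ) / (8 * m))) ^ m) ^ 2
  · have key := H u _ ρ Δ A B (Real.one_le_rpow hu (by positivity)) (by rw [ev]; simp) hA hB
      (by rw [ev]; norm_num; exact h1) (h2.trans (pow_le_pow_right₀ hu hCm)) h3
    refine key.trans ?_
    rw [← Real.rpow_neg hu0.le, ← Real.rpow_mul hu0.le, mul_assoc, sub_eq_add_neg,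
      Real.rpow_add hu0, Real.rpow_one, neg_mul]
    exact mul_le_mul_of_nonneg_right (le_add_of_nonneg_right (by positivity)) (by positivity)
  · rw [ev, not_le] at h3
    have h4 := Pool.Agent.P.MP_a1177c_nt.MR.Vdc.triv (fun n : ℤ => ee (Δ * Real.log (n + ρ)))
      (fun n => (norm_ee _).le) A B (L := 40000 * u) (by positivity) (by linarith)
    refine h4.trans ?_
    have h5 : u ≤ u ^ (((2 : ℕ) : ℝ) / 8) * u ^ (1 - (1 : ℝ) / (8 * m) * (1 / 2 ^ m)) := by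
      rw [← Real.rpow_add hu0]
      nth_rewrite 1 [← Real.rpow_one u]
      refine Real.rpow_le_rpow_of_exponent_le hu ?_
      push_cast
      linarith
    have h6 : 0 < u ^ (1 - (1 : ℝ) / (8 * m) * (1 / 2 ^ m)) := by positivity
    have h7 : 0 < u ^ (((2 : ℕ) : ℝ) / 8) := by positivity
    have h8 : u ^ (((2 : ℕ) : ℝ) / 8) ≤ 2 * Real.pi * (m.factorial : ℝ) := by linarith
    have h9 := mul_le_mul_of_nonneg_right h8 h6.le
    have h10 : 0 ≤ C * u ^ (1 - (1 : ℝ) / (8 * m) * (1 / 2 ^ m)) := by positivity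
    linarith

end Pool.Agent.P.MP_a9a441_nt.FU
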