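import Pool.Agent.P.MP_a9a441_nt.FU.Bas

/-!
Properties of `intE` and comparison of a sum over a residue class with the integral.
`intE Δ (log a) (log b)` is the integral of F x = ee (Δ log x) / x over [a, b]; F is Lipschitz
with constant (1 + 7 |Δ|) / a^2 on [a, ∞). For consecutive m, m + q of the class compare
q F m with `intE Δ (log m) (log (m + q))`: directly, for t in [log m, log (m+q)],
‖ee (Δ t) - ee (Δ log m)‖ ≤ 7 |Δ| q / m and |log (1 + q/m) - q/m| ≤ (q/m)^2. There are at most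
30001 a / q terms; the two end pieces have logarithmic length at most q / a.
-/

namespace Pool.Agent.P.MP_a9a441_nt.FU

open Finset Filter Pool.Agent.Lib.LargeSieve
open scoped ComplexConjugate

theorem ES2aAux.cont (Δ : ℝ) : Continuous fun t : ℝ => ee (Δ * t) := by
  unfold ee
  fun_prop

theorem norm_intE_le (Δ u v : ℝ) : ‖intE Δ u v‖ ≤ |v - u| := by
  have h := intervalIntegral.norm_integral_le_of_norm_le_const (a := u) (b := v) (C := 1)
    (f := fun t : ℝ => ee (Δ * t)) fun t _ => (norm_ee _).le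
  rwa [one_mul] at h

theorem intE_zero (u v : ℝ) : intE 0 u v = ((v - u : ℝ) : ℂ) := by
  simp [intE, ee]

theorem intE_eq {Δ : ℝ} (h : Δ ≠ 0) (u v : ℝ) :
    intE Δ u v = (ee (Δ * v) - ee (Δ * u)) / (2 * Real.pi * Complex.I * Δ) := by
  have e : ∀ t : ℝ, ee (Δ * t) = Complex.exp (2 * Real.pi * Complex.I * Δ * t) := fun t => by
    unfold ee
    congr 1
    push_cast
    ring
  have hc : (2 * Real.pi * Complex.I * Δ : ℂ) ≠ 0 :=
    mul_ne_zero Complex.two_pi_I_ne_zero (Complex.ofReal_ne_zero.2 h)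
  simp only [intE, e]
  exact integral_exp_mul_complex hc

theorem norm_intE_le_inv {Δ : ℝ} (h : Δ ≠ 0) (u v : ℝ) : ‖intE Δ u v‖ ≤ 1 / |Δ| := by
  have h0 : 0 < |Δ| := abs_pos.2 h
  have h1 : ‖ee (Δ * v) - ee (Δ * u)‖ ≤ 2 := by
    refine (norm_sub_le _ _).trans ?_
    rw [norm_ee, norm_ee]
    norm_num
  have h2 : ‖(2 * Real.pi * Complex.I * Δ : ℂ)‖ = 2 * Real.pi * |Δ| := by
    simp [abs_of_pos Real.pi_pos]
  have h3 := Real.pi_gt_three
  rw [intE_eq h, norm_div, h2, div_le_div_iff₀ (by positivity) h0]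
  nlinarith [mul_le_mul_of_nonneg_right h1 h0.le]

theorem intE_shift (Δ u v s : ℝ) : intE Δ (u - s) (v - s) = ee (-(Δ * s)) * intE Δ u v := by
  unfold intE
  rw [← intervalIntegral.integral_comp_sub_right (fun t => ee (Δ * t)) s,
    ← intervalIntegral.integral_const_mul]
  congr 1
  ext t
  rw [← ee_add]
  congr 1
  ring

theorem intE_add (Δ u v w : ℝ) : intE Δ u v + intE Δ v w = intE Δ u w :=
  intervalIntegral.integral_add_adjacent_intervals ((ES2aAux.cont Δ).intervalIntegrable _ _)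
    ((ES2aAux.cont Δ).intervalIntegrable _ _)

theorem intE_period {k : ℤ} (hk : k ≠ 0) (u : ℝ) : intE ((k : ℝ) / 10) u (u + 10) = 0 := by
  have h : (k : ℝ) / 10 ≠ 0 := div_ne_zero (by exact_mod_cast hk) (by norm_num)
  rw [intE_eq h, show (k : ℝ) / 10 * (u + 10) = k / 10 * u + k by ring, ee_add, ee_int]
  simp

namespace ES2aAux

theorem log_le {x y : ℝ} (hx : 0 < x) (hxy : x ≤ y) : Real.log y - Real.log x ≤ (y - x) / x := by
  have hy : 0 < y := hx.trans_le hxy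
  rw [← Real.log_div hy.ne' hx.ne', sub_div, div_self hx.ne']
  exact Real.log_le_sub_one_of_pos (by positivity)

theorem le_log {x q : ℝ} (hx : 0 < x) (hq : 0 ≤ q) :
    q / x - (q / x) ^ 2 ≤ Real.log (x + q) - Real.log x := by
  have hy : 0 < x + q := by positivity
  have h1 := Real.log_le_sub_one_of_pos (x := x / (x + q)) (by positivity)
  rw [Real.log_div hx.ne' hy.ne'] at h1
  have h2 : q / x - (q / x) ^ 2 ≤ 1 - x / (x + q) := by
    have e : 1 - x / (x + q) - (q / x - (q / x) ^ 2) = q ^ 3 / (x ^ 2 * (x + q)) := by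
      field_simp
      ring
    have : 0 ≤ q ^ 3 / (x ^ 2 * (x + q)) := by positivity
    linarith
  linarith

theorem near (Δ : ℝ) {u v : ℝ} (h : u ≤ v) :
    ‖intE Δ u v - ((v - u : ℝ) : ℂ) * ee (Δ * u)‖ ≤ 7 * |Δ| * (v - u) ^ 2 := by
  have e : intE Δ u v - ((v - u : ℝ) : ℂ) * ee (Δ * u) =
      ∫ t in u..v, (ee (Δ * t) - ee (Δ * u)) := by
    rw [intervalIntegral.integral_sub ((cont Δ).intervalIntegrable _ _)
      (continuous_const.intervalIntegrable _ _), intervalIntegral.integral_const]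
    simp [intE]
  have h1 := intervalIntegral.norm_integral_le_of_norm_le_const (a := u) (b := v)
    (C := 7 * |Δ| * (v - u)) (f := fun t : ℝ => ee (Δ * t) - ee (Δ * u)) fun t ht => by
      rw [Set.uIoc_of_le h] at ht
      refine (ee_lip _ _).trans ?_
      rw [← mul_sub, abs_mul, abs_of_nonneg (sub_nonneg.2 ht.1.le), mul_assoc]
      gcongr
      exact ht.2
  rw [e]
  rw [abs_of_nonneg (sub_nonneg.2 h)] at h1
  exact h1.trans_eq (by ring)

theorem one (Δ : ℝ) {a x q : ℝ} (ha : 0 < a) (hx : a ≤ x) (hq : 0 < q) :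
    ‖1 / (x : ℂ) * ee (Δ * Real.log x) - intE Δ (Real.log x) (Real.log (x + q)) / q‖ ≤
      q * (7 * (1 + |Δ|) / a ^ 2) := by
  have hx0 : 0 < x := ha.trans_le hx
  have h1 := log_le hx0 (le_add_of_nonneg_right hq.le)
  rw [add_sub_cancel_left] at h1
  have h2 := le_log hx0 hq.le
  have h0 : Real.log x ≤ Real.log (x + q) := Real.log_le_log hx0 (le_add_of_nonneg_right hq.le)
  have h3 := near Δ h0
  set L := Real.log (x + q) - Real.log x with hL
  have hL0 : 0 ≤ L := sub_nonneg.2 h0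
  have hxc : (x : ℂ) ≠ 0 := Complex.ofReal_ne_zero.2 hx0.ne'
  have hqc : (q : ℂ) ≠ 0 := Complex.ofReal_ne_zero.2 hq.ne'
  have e : 1 / (x : ℂ) * ee (Δ * Real.log x) - intE Δ (Real.log x) (Real.log (x + q)) / q =
      (((q / x - L : ℝ) : ℂ) * ee (Δ * Real.log x) -
        (intE Δ (Real.log x) (Real.log (x + q)) - (L : ℂ) * ee (Δ * Real.log x))) / q := by
    push_cast
    field_simp
    ring
  have h4 : ‖((q / x - L : ℝ) : ℂ) * ee (Δ * Real.log x)‖ ≤ (q / x) ^ 2 := by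
    rw [norm_mul, norm_ee, mul_one, Complex.norm_real, Real.norm_eq_abs,
      abs_of_nonneg (sub_nonneg.2 h1)]
    linarith
  have h5 : L ^ 2 ≤ (q / x) ^ 2 := by gcongr
  have h6 : (q / x) ^ 2 ≤ (q / a) ^ 2 := by gcongr
  have hΔ := abs_nonneg Δ
  rw [e, norm_div, Complex.norm_real, Real.norm_eq_abs, abs_of_pos hq, div_le_iff₀ hq]
  refine (norm_sub_le _ _).trans ?_
  have e2 : q * (7 * (1 + |Δ|) / a ^ 2) * q = 7 * (1 + |Δ|) * (q / a) ^ 2 := by
    field_simp
  rw [e2]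
  have h7 : 7 * |Δ| * L ^ 2 ≤ 7 * |Δ| * (q / a) ^ 2 := by
    gcongr 7 * |Δ| * ?_
    exact h5.trans h6
  nlinarith [sq_nonneg (q / a)]

theorem ind (q : ℕ) [NeZero q] (r : ZMod q) (Δ : ℝ) {a : ℝ} (ha : 0 < a) {A m B : ℕ}
    (hA : a ≤ A) (h1 : A ≤ m) (h2 : m < A + q) (h3 : (m : ZMod q) = r) (hB : A ≤ B) :
    ∃ M : ℕ, B ≤ M ∧ M < B + q ∧ (M : ZMod q) = r ∧
      ‖∑ m ∈ (Ico A B).filter (fun m : ℕ => (m : ZMod q) = r),
        1 / (m : ℂ) * ee (Δ * Real.log m) - intE Δ (Real.log m) (Real.log M) / q‖ ≤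
        ((M : ℝ) - m) * (7 * (1 + |Δ|) / a ^ 2) := by
  have hq : 0 < q := NeZero.pos q
  induction B, hB using Nat.le_induction with
  | base => exact ⟨m, h1, h2, h3, by simp [intE]⟩
  | succ B hB ih =>
    obtain ⟨M, k1, k2, k3, k4⟩ := ih
    rw [Nat.Ico_succ_right_eq_insert_Ico hB, filter_insert]
    by_cases h : (B : ZMod q) = r
    · have e : M = B := by
        have k5 : q ∣ M - B := (Nat.modEq_iff_dvd' k1).1
          ((ZMod.natCast_eq_natCast_iff _ _ _).1 (h.trans k3.symm))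
        have := Nat.eq_zero_of_dvd_of_lt k5 (by omega)
        omega
      subst e
      refine ⟨M + q, by omega, by omega, by simpa using k3, ?_⟩
      rw [if_pos h, sum_insert (by simp)]
      have k6 := one Δ ha (x := M) (q := q) (hA.trans (by exact_mod_cast hB))
        (by exact_mod_cast hq)
      rw [Nat.cast_add, ← intE_add Δ (Real.log m) (Real.log M)]
      push_cast at k6 ⊢
      refine le_trans (le_of_eq ?_) ((norm_add_le _ _).trans ((add_le_add k6 k4).trans_eq ?_))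
      · congr 1
        ring
      · ring
    · rw [if_neg h]
      have : M ≠ B := fun e => h (e ▸ k3)
      exact ⟨M, by omega, by omega, k3, k4⟩

theorem edge (Δ : ℝ) {a x y q : ℝ} (ha : 0 < a) (hx : a ≤ x) (h1 : x ≤ y) (h2 : y ≤ x + q)
    (hq : 0 < q) : ‖intE Δ (Real.log x) (Real.log y) / q‖ ≤ 1 / a := by
  have hx0 : 0 < x := ha.trans_le hx
  rw [norm_div, Complex.norm_real, Real.norm_eq_abs, abs_of_pos hq, div_le_iff₀ hq]
  refine (norm_intE_le _ _ _).trans ?_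
  rw [abs_of_nonneg (sub_nonneg.2 (Real.log_le_log hx0 h1))]
  refine (log_le hx0 h1).trans ?_
  rw [one_div_mul_eq_div]
  gcongr
  linarith

end ES2aAux

theorem es2a (q : ℕ) [NeZero q] (r : ZMod q) {a b : ℝ} (Δ : ℝ) (ha : (q : ℝ) ≤ a) (hab : a ≤ b)
    (hb : b ≤ 30000 * a) :
    ‖∑ m ∈ (Ico ⌈a⌉₊ ⌈b⌉₊).filter (fun m : ℕ => (m : ZMod q) = r),
      1 / (m : ℂ) * ee (Δ * Real.log m) - intE Δ (Real.log a) (Real.log b) / q‖ ≤
      1000000 * (1 + |Δ|) / a := by
  have hq : (0 : ℝ) < q := by exact_mod_cast NeZero.pos q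
  have ha0 : 0 < a := hq.trans_le ha
  obtain ⟨m, h1, h2, h3⟩ : ∃ m : ℕ, ⌈a⌉₊ ≤ m ∧ m < ⌈a⌉₊ + q ∧ (m : ZMod q) = r :=
    ⟨⌈a⌉₊ + (r - (⌈a⌉₊ : ℕ)).val, Nat.le_add_right _ _,
      Nat.add_lt_add_left (ZMod.val_lt _) _, by simp⟩
  obtain ⟨M, k1, k2, -, k4⟩ := ES2aAux.ind q r Δ ha0 (Nat.le_ceil a) h1 h2 h3
    (Nat.ceil_le_ceil hab)
  have a1 : a ≤ m := Nat.ceil_le.1 h1
  have b1 : b ≤ M := Nat.ceil_le.1 k1
  have a2 : (m : ℝ) ≤ a + q := by
    have h4 : (m : ℝ) + 1 ≤ ⌈a⌉₊ + q := by exact_mod_cast h2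
    linarith [Nat.ceil_lt_add_one ha0.le]
  have b2 : (M : ℝ) ≤ b + q := by
    have h4 : (M : ℝ) + 1 ≤ ⌈b⌉₊ + q := by exact_mod_cast k2
    linarith [Nat.ceil_lt_add_one (ha0.le.trans hab)]
  have e1 := ES2aAux.edge Δ ha0 le_rfl a1 a2 hq
  have e2 := ES2aAux.edge Δ ha0 hab b1 b2 hq
  have e3 : intE Δ (Real.log a) (Real.log b) = intE Δ (Real.log a) (Real.log m) +
      intE Δ (Real.log m) (Real.log M) - intE Δ (Real.log b) (Real.log M) := by
    rw [intE_add, ← intE_add Δ (Real.log a) (Real.log b) (Real.log M)]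
    ring
  have hΔ := abs_nonneg Δ
  have k5 : ((M : ℝ) - m) * (7 * (1 + |Δ|) / a ^ 2) ≤ 210000 * (1 + |Δ|) / a := by
    calc _ ≤ 30000 * a * (7 * (1 + |Δ|) / a ^ 2) := by
          gcongr
          linarith
      _ = _ := by
          field_simp
          ring
  rw [e3]
  push_cast at e1 e2
  refine le_trans (le_of_eq ?_) ((norm_add_le _ _).trans ((add_le_add
    ((norm_sub_le _ _).trans (add_le_add (k4.trans k5) e1)) e2).trans ?_))
  · congr 1
    ring
  · rw [← add_div, ← add_div]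
    gcongr
    linarith

end Pool.Agent.P.MP_a9a441_nt.FU
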