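import Pool.Agent.P.MP_a9a441_nt.FU.ES1
import Pool.Agent.P.MP_a9a441_nt.FU.ES2a

/-!
Sums of periodic functions twisted by m^(-1 + 2π i Δ). If q^2 > a the bound is trivial (both terms
are bounded by 12, a^c ≤ q^2). Otherwise split into residue classes; let u = a / q ≥ √a. If
|Δ| ≤ u^(3/4) ≤ a^(3/4) use `es2a`. Otherwise write m = q n + r.val, log m = log q + log (n + ρ),
ρ = r.val / q, use `es1 (2 C₀ + 1)` for all initial segments and summation by parts with the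
decreasing weight 1 / m (total factor 2 / a or 1 / a); the integral is at most 1 / |Δ| ≤ a^(-3/8).
-/

namespace Pool.Agent.P.MP_a9a441_nt.FU

open Finset Filter Pool.Agent.Lib.LargeSieve
open scoped ComplexConjugate

namespace ES2Aux

theorem abel_aux (w : ℤ → ℝ) (f : ℤ → ℂ) (A B : ℤ) (K : ℝ)
    (hw : ∀ n, A ≤ n → w (n + 1) ≤ w n)
    (hF : ∀ k, A ≤ k → k ≤ B → ‖∑ n ∈ Ico A k, f n‖ ≤ K) (k : ℤ) (hk : A ≤ k) :
    k ≤ B → ‖∑ n ∈ Ico A k, (w n : ℂ) * f n - (w k : ℂ) * ∑ n ∈ Ico A k, f n‖ ≤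
      K * (w A - w k) := by
  induction k, hk using Int.leInduction with
  | base => intro _; simp
  | succ k hk ih =>
    intro hkB
    have ih' := ih (by omega)
    have e : Ico A (k + 1) = insert k (Ico A k) := by
      ext n; simp only [mem_Ico, mem_insert]; omega
    have hn : k ∉ Ico A k := by simp
    have h1 := hF (k + 1) (by omega) hkB
    have h2 : ∑ n ∈ Ico A (k + 1), (w n : ℂ) * f n - (w (k + 1) : ℂ) * ∑ n ∈ Ico A (k + 1), f n =
        (∑ n ∈ Ico A k, (w n : ℂ) * f n - (w k : ℂ) * ∑ n ∈ Ico A k, f n) +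
          ((w k - w (k + 1) : ℝ) : ℂ) * ∑ n ∈ Ico A (k + 1), f n := by
      rw [e, sum_insert hn, sum_insert hn]
      push_cast
      ring
    rw [h2]
    have h3 : 0 ≤ w k - w (k + 1) := sub_nonneg.2 (hw k hk)
    have h4 : ‖((w k - w (k + 1) : ℝ) : ℂ) * ∑ n ∈ Ico A (k + 1), f n‖ ≤
        (w k - w (k + 1)) * K := by
      rw [norm_mul, Complex.norm_real, Real.norm_of_nonneg h3]
      exact mul_le_mul_of_nonneg_left h1 h3
    refine (norm_add_le _ _).trans ?_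
    nlinarith

theorem abel (w : ℤ → ℝ) (f : ℤ → ℂ) (A B : ℤ) (K : ℝ) (hAB : A ≤ B)
    (hw : ∀ n, A ≤ n → w (n + 1) ≤ w n) (hw0 : 0 ≤ w B)
    (hF : ∀ k, A ≤ k → k ≤ B → ‖∑ n ∈ Ico A k, f n‖ ≤ K) :
    ‖∑ n ∈ Ico A B, (w n : ℂ) * f n‖ ≤ K * w A := by
  have h1 := abel_aux w f A B K hw hF B hAB le_rfl
  have h2 := hF B hAB le_rfl
  have h3 : ‖(w B : ℂ) * ∑ n ∈ Ico A B, f n‖ ≤ w B * K := by
    rw [norm_mul, Complex.norm_real, Real.norm_of_nonneg hw0]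
    exact mul_le_mul_of_nonneg_left h2 hw0
  have h4 : ∑ n ∈ Ico A B, (w n : ℂ) * f n =
      (∑ n ∈ Ico A B, (w n : ℂ) * f n - (w B : ℂ) * ∑ n ∈ Ico A B, f n) +
        (w B : ℂ) * ∑ n ∈ Ico A B, f n := by ring
  rw [h4]
  refine (norm_add_le _ _).trans ?_
  nlinarith

theorem reindex (q : ℕ) [NeZero q] (r : ZMod q) {a b : ℝ} (ha : (q : ℝ) ≤ a) (hab : a ≤ b)
    (F : ℕ → ℂ) (G : ℤ → ℂ) (h : ∀ n : ℕ, 1 ≤ n → F (q * n + r.val) = G n) :
    ∑ m ∈ (Ico ⌈a⌉₊ ⌈b⌉₊).filter (fun m : ℕ => (m : ZMod q) = r), F m =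
      ∑ n ∈ Ico ⌈a / q - r.val / q⌉ ⌈b / q - r.val / q⌉, G n := by
  have hq0 : 0 < q := Nat.pos_of_ne_zero (NeZero.ne q)
  have hq : (0 : ℝ) < q := by exact_mod_cast hq0
  have hr : r.val < q := ZMod.val_lt r
  have hr' : (r.val : ℝ) < q := by exact_mod_cast hr
  have hb0 : 0 ≤ b := by linarith
  have key : ∀ m : ℕ, (m : ZMod q) = r → m = q * (m / q) + r.val := by
    intro m hm
    have : r.val = m % q := by rw [← hm, ZMod.val_natCast]
    rw [this, Nat.div_add_mod]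
  have pos : ∀ n : ℤ, ⌈a / q - r.val / q⌉ ≤ n → 1 ≤ n := by
    intro n hn
    have h1 : (0 : ℝ) < a / q - r.val / q := by
      rw [← sub_div]; exact div_pos (by linarith) hq
    have h2 : 0 < ⌈a / q - r.val / q⌉ := Int.ceil_pos.2 h1
    omega
  have iff1 : ∀ n : ℕ, ⌈a⌉₊ ≤ q * n + r.val ↔ ⌈a / q - r.val / q⌉ ≤ (n : ℤ) := by
    intro n
    rw [Nat.ceil_le, Int.ceil_le, ← sub_div, div_le_iff₀ hq]
    push_cast
    constructor <;> intro h <;> linarith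
  have iff2 : ∀ n : ℕ, q * n + r.val < ⌈b⌉₊ ↔ (n : ℤ) < ⌈b / q - r.val / q⌉ := by
    intro n
    rw [Nat.lt_ceil, Int.lt_ceil, ← sub_div, lt_div_iff₀ hq]
    push_cast
    constructor <;> intro h <;> linarith
  symm
  refine sum_nbij' (fun n : ℤ => q * n.toNat + r.val) (fun m : ℕ => ((m / q : ℕ) : ℤ))
    ?_ ?_ ?_ ?_ ?_
  · intro n hn
    rw [mem_Ico] at hn
    have h1 := pos n hn.1
    have h2 : ((n.toNat : ℕ) : ℤ) = n := Int.toNat_of_nonneg (by omega)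
    rw [mem_filter, mem_Ico, iff1, iff2, h2]
    refine ⟨hn, ?_⟩
    push_cast
    simp
  · intro m hm
    rw [mem_filter, mem_Ico] at hm
    have h1 := key m hm.2
    rw [mem_Ico, ← iff1, ← iff2, ← h1]
    exact hm.1
  · intro n hn
    rw [mem_Ico] at hn
    have h1 := pos n hn.1
    have h2 : ((n.toNat : ℕ) : ℤ) = n := Int.toNat_of_nonneg (by omega)
    have h3 : (q * n.toNat + r.val) / q = n.toNat := by
      rw [Nat.mul_add_div hq0, Nat.div_eq_of_lt hr, add_zero]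
    show (((q * n.toNat + r.val) / q : ℕ) : ℤ) = n
    rw [h3, h2]
  · intro m hm
    rw [mem_filter] at hm
    have h1 := key m hm.2
    show q * (((m / q : ℕ) : ℤ)).toNat + r.val = m
    rw [Int.toNat_natCast]
    exact h1.symm
  · intro n hn
    rw [mem_Ico] at hn
    have h1 := pos n hn.1
    have h2 : ((n.toNat : ℕ) : ℤ) = n := Int.toNat_of_nonneg (by omega)
    rw [h n.toNat (by omega), h2]

/-- The trivial bound. -/
theorem triv (q : ℕ) [NeZero q] (ψ : ZMod q → ℂ) {a b : ℝ} (Δ : ℝ) (hψ : ∀ r, ‖ψ r‖ ≤ 1)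
    (ha : 1 ≤ a) (hab : a ≤ b) (hb : b ≤ 30000 * a) :
    ‖∑ m ∈ Ico ⌈a⌉₊ ⌈b⌉₊, ψ m / m * ee (Δ * Real.log m) -
        (∑ r, ψ r) / q * intE Δ (Real.log a) (Real.log b)‖ ≤ 60000 := by
  have hq0 : 0 < q := Nat.pos_of_ne_zero (NeZero.ne q)
  have hq : (0 : ℝ) < q := by exact_mod_cast hq0
  have ha0 : 0 < a := by linarith
  have hb0 : 0 < b := by linarith
  have h1 : ‖∑ m ∈ Ico ⌈a⌉₊ ⌈b⌉₊, ψ m / m * ee (Δ * Real.log m)‖ ≤ 30000 := by
    refine (norm_sum_le _ _).trans ?_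
    have h2 : ∀ m ∈ Ico ⌈a⌉₊ ⌈b⌉₊, ‖ψ m / m * ee (Δ * Real.log m)‖ ≤ 1 / a := by
      intro m hm
      rw [mem_Ico, Nat.ceil_le] at hm
      rw [norm_mul, norm_ee, mul_one, norm_div, Complex.norm_natCast]
      exact div_le_div₀ zero_le_one (hψ _) ha0 hm.1
    refine (sum_le_card_nsmul _ _ _ h2).trans ?_
    rw [nsmul_eq_mul, Nat.card_Ico, Nat.cast_sub (Nat.ceil_le_ceil hab)]
    have h3 := Nat.le_ceil a
    have h4 := Nat.ceil_lt_add_one hb0.le
    rw [mul_one_div, div_le_iff₀ ha0]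
    linarith
  have h2 : ‖(∑ r, ψ r) / q‖ ≤ 1 := by
    rw [norm_div, Complex.norm_natCast, div_le_one hq]
    refine (norm_sum_le _ _).trans ?_
    refine (sum_le_card_nsmul _ _ _ fun r _ => hψ r).trans ?_
    simp
  have h3 : ‖intE Δ (Real.log a) (Real.log b)‖ ≤ 30000 := by
    refine (norm_intE_le _ _ _).trans ?_
    have h4 : Real.log a ≤ Real.log b := Real.log_le_log ha0 hab
    rw [abs_of_nonneg (by linarith), ← Real.log_div hb0.ne' ha0.ne']
    have h5 := Real.log_le_sub_one_of_pos (div_pos hb0 ha0)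
    have h6 : b / a ≤ 30000 := by rw [div_le_iff₀ ha0]; exact hb
    linarith
  refine (norm_sub_le _ _).trans ?_
  rw [norm_mul]
  have h4 := norm_nonneg ((∑ r, ψ r) / q)
  have h5 := norm_nonneg (intE Δ (Real.log a) (Real.log b))
  nlinarith

/-- Splitting into residue classes. -/
theorem split (q : ℕ) [NeZero q] (ψ : ZMod q → ℂ) (S : Finset ℕ) (F : ℕ → ℂ) (I : ℂ) (K : ℝ)
    (hψ : ∀ r, ‖ψ r‖ ≤ 1)
    (h : ∀ r : ZMod q, ‖∑ m ∈ S.filter (fun m : ℕ => (m : ZMod q) = r), 1 / (m : ℂ) * F m -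
      I / q‖ ≤ K) :
    ‖∑ m ∈ S, ψ m / m * F m - (∑ r, ψ r) / q * I‖ ≤ q * K := by
  have e1 : ∑ m ∈ S, ψ m / m * F m =
      ∑ r : ZMod q, ψ r * ∑ m ∈ S.filter (fun m : ℕ => (m : ZMod q) = r), 1 / (m : ℂ) * F m := by
    rw [← sum_fiberwise (s := S) (g := fun m : ℕ => (m : ZMod q))]
    refine sum_congr rfl fun r _ => ?_
    rw [mul_sum]
    refine sum_congr rfl fun m hm => ?_
    rw [(mem_filter.1 hm).2]
    ring
  have e2 : (∑ r, ψ r) / q * I = ∑ r : ZMod q, ψ r * (I / q) := by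
    rw [← sum_mul]; ring
  rw [e1, e2, ← sum_sub_distrib]
  refine (norm_sum_le _ _).trans ?_
  have h2 : ∀ r ∈ (univ : Finset (ZMod q)),
      ‖ψ r * ∑ m ∈ S.filter (fun m : ℕ => (m : ZMod q) = r), 1 / (m : ℂ) * F m -
        ψ r * (I / q)‖ ≤ K := by
    intro r _
    rw [← mul_sub, norm_mul]
    have h3 := h r
    have h4 := norm_nonneg (∑ m ∈ S.filter (fun m : ℕ => (m : ZMod q) = r), 1 / (m : ℂ) * F m -
      I / q)
    have h5 := hψ r
    have h6 := norm_nonneg (ψ r)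
    nlinarith
  refine (sum_le_card_nsmul _ _ _ h2).trans ?_
  simp

/-- One residue class, large frequency. -/
theorem cls (q : ℕ) [NeZero q] (r : ZMod q) {a b : ℝ} (Δ K : ℝ) (ha : (q : ℝ) ≤ a) (hab : a ≤ b)
    (hb : b ≤ 30000 * a)
    (h : ∀ (ρ : ℝ) (A B : ℤ), a / q ≤ A + ρ → B + ρ ≤ 40000 * (a / q) →
      ‖∑ n ∈ Ico A B, ee (Δ * Real.log (n + ρ))‖ ≤ K) :
    ‖∑ m ∈ (Ico ⌈a⌉₊ ⌈b⌉₊).filter (fun m : ℕ => (m : ZMod q) = r),
      1 / (m : ℂ) * ee (Δ * Real.log m)‖ ≤ K / a := by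
  have hq0 : 0 < q := Nat.pos_of_ne_zero (NeZero.ne q)
  have hq : (0 : ℝ) < q := by exact_mod_cast hq0
  have ha0 : 0 < a := by linarith
  have hu : 1 ≤ a / q := by rw [le_div_iff₀ hq]; linarith
  have hr0 : (0 : ℝ) ≤ r.val / q := by positivity
  set ρ : ℝ := r.val / q with hρ
  have e := reindex q r ha hab (fun m => 1 / (m : ℂ) * ee (Δ * Real.log m))
    (fun n => ee (Δ * Real.log q) *
      (((1 / (q * (n + ρ)) : ℝ) : ℂ) * ee (Δ * Real.log (n + ρ)))) (by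
      intro n hn
      have hn' : (1 : ℝ) ≤ n := by exact_mod_cast hn
      have e1 : ((q * n + r.val : ℕ) : ℝ) = q * (n + ρ) := by
        rw [hρ]; push_cast; field_simp
      have e2 : ((q * n + r.val : ℕ) : ℂ) = ((q * (n + ρ) : ℝ) : ℂ) := by
        rw [← e1, Complex.ofReal_natCast]
      show 1 / ((q * n + r.val : ℕ) : ℂ) * ee (Δ * Real.log ((q * n + r.val : ℕ) : ℝ)) = _
      rw [e2, e1, Real.log_mul hq.ne' (by positivity), mul_add Δ, ee_add]
      push_cast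
      ring)
  rw [e, ← mul_sum, norm_mul, norm_ee, one_mul]
  have hA : a / q ≤ (⌈a / q - ρ⌉ : ℤ) + ρ := by
    have := Int.le_ceil (a / q - ρ); linarith
  have hAB : ⌈a / q - ρ⌉ ≤ ⌈b / q - ρ⌉ := by
    apply Int.ceil_le_ceil
    have : a / q ≤ b / q := div_le_div_of_nonneg_right hab hq.le
    linarith
  have hB : (⌈b / q - ρ⌉ : ℤ) + ρ ≤ 40000 * (a / q) := by
    have h1 := Int.ceil_lt_add_one (b / q - ρ)
    have h2 : b / q ≤ 30000 * (a / q) := by
      rw [← mul_div_assoc]; exact div_le_div_of_nonneg_right hb hq.le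
    linarith
  have hK : 0 ≤ K := (norm_nonneg _).trans (h ρ _ _ hA hB)
  have hpos : ∀ n : ℤ, ⌈a / q - ρ⌉ ≤ n → a / q ≤ n + ρ := by
    intro n hn
    have : ((⌈a / q - ρ⌉ : ℤ) : ℝ) ≤ n := by exact_mod_cast hn
    linarith
  have h1 := abel (fun n : ℤ => 1 / (q * (n + ρ))) (fun n => ee (Δ * Real.log (n + ρ)))
    ⌈a / q - ρ⌉ ⌈b / q - ρ⌉ K hAB (by
      intro n hn
      have h2 := hpos n hn
      have h3 : 0 < (n : ℝ) + ρ := by linarith
      apply one_div_le_one_div_of_le (by positivity)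
      push_cast
      nlinarith) (by
      have h2 := hpos _ hAB
      have h3 : 0 < ((⌈b / q - ρ⌉ : ℤ) : ℝ) + ρ := by linarith
      positivity) (by
      intro k hk hkB
      refine h ρ _ _ hA ?_
      have : (k : ℝ) ≤ (⌈b / q - ρ⌉ : ℤ) := by exact_mod_cast hkB
      linarith)
  refine h1.trans ?_
  rw [div_eq_mul_one_div K a]
  refine mul_le_mul_of_nonneg_left ?_ hK
  apply one_div_le_one_div_of_le ha0
  rw [div_le_iff₀ hq] at hA
  linarith

end ES2Aux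

theorem es2 (C₀ : ℕ) : ∃ c C : ℝ, 0 < c ∧ c ≤ 1 / 4 ∧ 1 ≤ C ∧
    ∀ (q : ℕ) [NeZero q] (ψ : ZMod q → ℂ) (a b Δ : ℝ), (∀ r, ‖ψ r‖ ≤ 1) → 1 ≤ a → a ≤ b →
      b ≤ 30000 * a → |Δ| ≤ a ^ C₀ →
      ‖∑ m ∈ Ico ⌈a⌉₊ ⌈b⌉₊, ψ m / m * ee (Δ * Real.log m) -
        (∑ r, ψ r) / q * intE Δ (Real.log a) (Real.log b)‖ ≤ C * (q : ℝ) ^ 2 * a ^ (-c) := by
  obtain ⟨c, C, hc0, hc1, hC, H⟩ := es1 (2 * C₀)
  refine ⟨c / 2, 2000000 + C, by linarith, by linarith, by linarith, ?_⟩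
  intro q _ ψ a b Δ hψ ha hab hb hΔ
  have hq0 : 0 < q := Nat.pos_of_ne_zero (NeZero.ne q)
  have hq1 : (1 : ℝ) ≤ q := by exact_mod_cast hq0
  have hq : (0 : ℝ) < q := by linarith
  have ha0 : 0 < a := by linarith
  have hp : 0 < a ^ (-(c / 2)) := Real.rpow_pos_of_pos ha0 _
  have mono : ∀ s : ℝ, c / 2 ≤ s → a ^ (-s) ≤ a ^ (-(c / 2)) := fun s hs =>
    Real.rpow_le_rpow_of_exponent_le ha (by linarith)
  by_cases hqa : a < (q : ℝ) ^ 2
  · refine (ES2Aux.triv q ψ Δ hψ ha hab hb).trans ?_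
    have h1 := mono 1 (by linarith)
    rw [Real.rpow_neg_one] at h1
    have h2 : 1 ≤ (q : ℝ) ^ 2 * a ^ (-(c / 2)) := by
      have h3 : a * a⁻¹ = 1 := mul_inv_cancel₀ ha0.ne'
      have h4 : 0 < a⁻¹ := inv_pos.2 ha0
      nlinarith
    rw [mul_assoc]
    nlinarith
  · rw [not_lt] at hqa
    have hqa' : (q : ℝ) ≤ a := by nlinarith
    have hu : 1 ≤ a / q := by rw [le_div_iff₀ hq]; linarith
    have hu0 : 0 < a / q := by linarith
    have hua : a / q ≤ a := div_le_self ha0.le hq1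
    have hau : a ≤ (a / q) ^ 2 := by
      rw [div_pow, le_div_iff₀ (by positivity)]; nlinarith
    have hpow : ∀ s : ℝ, 0 ≤ s → (a / q) ^ (-s) ≤ a ^ (-(s / 2)) := by
      intro s hs
      have h1 : ((a / q) ^ 2) ^ (-(s / 2)) ≤ a ^ (-(s / 2)) :=
        Real.rpow_le_rpow_of_nonpos ha0 hau (by linarith)
      rw [← Real.rpow_natCast, ← Real.rpow_mul hu0.le] at h1
      convert h1 using 2
      push_cast
      ring
    have key : ∀ r : ZMod q, ‖∑ m ∈ (Ico ⌈a⌉₊ ⌈b⌉₊).filter (fun m : ℕ => (m : ZMod q) = r),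
        1 / (m : ℂ) * ee (Δ * Real.log m) - intE Δ (Real.log a) (Real.log b) / q‖ ≤
        (2000000 + C) * a ^ (-(c / 2)) := by
      intro r
      by_cases hs : |Δ| ≤ (a / q) ^ (3 / 4 : ℝ)
      · refine (es2a q r Δ hqa' hab hb).trans ?_
        have h1 : (a / q) ^ (3 / 4 : ℝ) ≤ a ^ (3 / 4 : ℝ) :=
          Real.rpow_le_rpow hu0.le hua (by norm_num)
        have h2 : 1 ≤ a ^ (3 / 4 : ℝ) := Real.one_le_rpow ha (by norm_num)
        have h3 : a ^ (3 / 4 : ℝ) = a ^ (-(1 / 4) : ℝ) * a := by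
          rw [← Real.rpow_add_one ha0.ne']; norm_num
        have h4 := mono (1 / 4) (by linarith)
        rw [div_le_iff₀ ha0]
        have h5 : a ^ (3 / 4 : ℝ) ≤ a ^ (-(c / 2)) * a := by
          rw [h3]; exact mul_le_mul_of_nonneg_right h4 ha0.le
        have h6 : 0 ≤ C * (a ^ (-(c / 2)) * a) := by positivity
        nlinarith
      · rw [not_le] at hs
        have hs0 : 0 < (a / q) ^ (3 / 4 : ℝ) := Real.rpow_pos_of_pos hu0 _
        have hΔ0 : Δ ≠ 0 := by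
          intro h0; rw [h0, abs_zero] at hs; linarith
        have hΔ2 : |Δ| ≤ (a / q) ^ (2 * C₀) := by
          rw [pow_mul]
          exact hΔ.trans (pow_le_pow_left₀ ha0.le hau _)
        have h1 := ES2Aux.cls q r Δ (C * (a / q) ^ (1 - c)) hqa' hab hb
          (fun ρ A B hA hB => H (a / q) ρ Δ A B hu hA hB hs.le hΔ2)
        have h2 : ‖intE Δ (Real.log a) (Real.log b) / q‖ ≤ a ^ (-(c / 2)) := by
          rw [norm_div, Complex.norm_natCast]
          refine (div_le_self (norm_nonneg _) hq1).trans ?_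
          refine (norm_intE_le_inv hΔ0 _ _).trans ?_
          refine (one_div_le_one_div_of_le hs0 hs.le).trans ?_
          rw [one_div, ← Real.rpow_neg hu0.le]
          refine (hpow _ (by norm_num)).trans (mono _ (by linarith))
        have h3 : C * (a / q) ^ (1 - c) / a ≤ C * a ^ (-(c / 2)) := by
          rw [mul_div_assoc]
          refine mul_le_mul_of_nonneg_left ?_ (by linarith)
          rw [div_le_iff₀ ha0, sub_eq_neg_add, Real.rpow_add_one hu0.ne']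
          exact mul_le_mul (hpow c hc0.le) hua hu0.le hp.le
        refine (norm_sub_le _ _).trans ?_
        nlinarith
    refine (ES2Aux.split q ψ _ (fun m => ee (Δ * Real.log m)) _ _ hψ key).trans ?_
    have h1 : 0 ≤ (2000000 + C) * a ^ (-(c / 2)) := by positivity
    have h2 : (q : ℝ) ≤ (q : ℝ) ^ 2 := by nlinarith
    calc (q : ℝ) * ((2000000 + C) * a ^ (-(c / 2)))
        ≤ (q : ℝ) ^ 2 * ((2000000 + C) * a ^ (-(c / 2))) := mul_le_mul_of_nonneg_right h2 h1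
      _ = _ := by ring

end Pool.Agent.P.MP_a9a441_nt.FU
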