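import Pool.Agent.P.MP_a9a441_nt.FU.Scale
import Pool.Agent.P.MP_a9a441_nt.FU.Clu

/-!
The edge set. Let a = ap η, P = 2^j. Half edges: Hf = {(y, p) ∈ S0 × Pj j : dTK ≤ δ / 4}; by
Chebyshev card Hf ≥ δ N π / 2. For w let V w = {p ∈ Pj j : (w + a p, p) ∈ Hf}; w = y - a p ranges in
an interval of 2 N integers (a p - a P ∈ [0, N] since log 2 ≤ N η). On V w let
R p p' := ∃ k, |p β (w + a p) - p' β (w + a p') - k| ≤ 24 / δ^2 / (xx η (w - s) R η); `half` and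
`clu` bound independent sets by 72 / δ^2 (xx η (y - s) ≥ X / 3, xx η (w - s) ≥ X / (6 P)); use
`colour_pairs`. E = {(y, p, p') : (y, p) ∈ Hf, (st, p') ∈ Hf, near}. Cauchy-Schwarz over w.
-/

namespace Pool.Agent.P.MP_a9a441_nt.FU

open Finset Filter Pool.Agent.Lib.LargeSieve
open scoped ComplexConjugate

theorem ap_range {η : ℝ} {N j p : ℕ} (hη : 0 < η) (hN : 1 ≤ (N : ℝ) * η) (hp : p ∈ Pj j) :
    ap η (2 ^ j) ≤ ap η p ∧ ap η p ≤ ap η (2 ^ j) + N := by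
  obtain ⟨-, h1, h2⟩ := mem_Pj.1 hp
  have h0 : (0 : ℝ) < ((2 ^ j : ℕ) : ℝ) := by positivity
  have k1 : ((2 ^ j : ℕ) : ℝ) ≤ p := by exact_mod_cast h1
  have k2 : (p : ℝ) ≤ 2 * ((2 ^ j : ℕ) : ℝ) := by exact_mod_cast h2.le
  refine ⟨Int.floor_le_floor (div_le_div_of_nonneg_right (Real.log_le_log h0 k1) hη.le), ?_⟩
  have h3 := Real.log_le_log (h0.trans_le k1) k2
  rw [Real.log_mul two_ne_zero h0.ne'] at h3
  have h4 := Real.log_le_sub_one_of_pos (two_pos (α := ℝ))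
  unfold ap
  rw [← Int.floor_add_natCast]
  refine Int.floor_le_floor ?_
  rw [div_add' _ _ _ hη.ne']
  exact div_le_div_of_nonneg_right (by linarith) hη.le

namespace EdgesAux

theorem count {a : ℕ → ℤ} (Hf : Finset (ℤ × ℕ)) (W : Finset ℤ) (E : Finset (ℤ × Lb))
    (Ps : Finset ℕ) {r : ℝ} (hr : 0 ≤ r) (hW : ∀ z ∈ Hf, z.1 - a z.2 ∈ W ∧ z.2 ∈ Ps)
    (h : ∀ w, ((Ps.filter fun p => (w + a p, p) ∈ Hf).card : ℝ) ^ 2 ≤
      r * (E.filter fun e => e.1 - a e.2.1 = w).card) :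
    (Hf.card : ℝ) ^ 2 ≤ W.card * (r * E.card) := by
  have h1 : Hf.card ≤ ∑ w ∈ W, (Ps.filter fun p => (w + a p, p) ∈ Hf).card := by
    rw [card_eq_sum_card_fiberwise (f := fun z : ℤ × ℕ => z.1 - a z.2) (t := W)
      fun z hz => (hW z hz).1]
    refine sum_le_sum fun w _ => card_le_card_of_injOn Prod.snd (fun z hz => ?_)
      fun z hz z' hz' e => ?_
    · rw [mem_coe, mem_filter] at hz ⊢
      refine ⟨(hW z hz.1).2, ?_⟩
      rw [← hz.2, sub_add_cancel]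
      exact hz.1
    · rw [mem_coe, mem_filter] at hz hz'
      refine Prod.ext ?_ e
      have k := hz.2.trans hz'.2.symm
      rw [e] at k
      exact sub_left_injective k
  have h2 : (Hf.card : ℝ) ≤ ∑ w ∈ W, ((Ps.filter fun p => (w + a p, p) ∈ Hf).card : ℝ) := by
    exact_mod_cast h1
  have h3 : ∑ w ∈ W, (E.filter fun e => e.1 - a e.2.1 = w).card ≤ E.card := by
    rw [sum_card_fiberwise_eq_card_filter]
    exact card_filter_le _ _
  have h4 : ∑ w ∈ W, ((E.filter fun e => e.1 - a e.2.1 = w).card : ℝ) ≤ E.card := by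
    exact_mod_cast h3
  refine (pow_le_pow_left₀ (Nat.cast_nonneg _) h2 2).trans (sq_sum_le_card_mul_sum_sq.trans
    (mul_le_mul_of_nonneg_left ((sum_le_sum fun w _ => h w).trans ?_) (Nat.cast_nonneg _)))
  rw [← mul_sum]
  exact mul_le_mul_of_nonneg_left h4 hr

theorem cheb {Y S0 : Finset ℤ} {Ps : Finset ℕ} {d : ℤ → ℕ → ℝ} {δ N : ℝ} (hδ : 0 < δ)
    (hS : S0 ⊆ Y) (hc : δ * N ≤ S0.card)
    (hd : ∑ y ∈ Y, ∑ p ∈ Ps, d y p ^ 2 ≤ δ ^ 3 / 32 * N * Ps.card) :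
    δ / 2 * N * Ps.card ≤ (((S0 ×ˢ Ps).filter fun z => d z.1 z.2 ≤ δ / 4).card : ℝ) := by
  have h1 := card_filter_add_card_filter_not (s := S0 ×ˢ Ps) fun z => d z.1 z.2 ≤ δ / 4
  rw [card_product] at h1
  have h2 : (((S0 ×ˢ Ps).filter fun z => d z.1 z.2 ≤ δ / 4).card : ℝ) +
      ((S0 ×ˢ Ps).filter fun z => ¬ d z.1 z.2 ≤ δ / 4).card = S0.card * Ps.card := by
    exact_mod_cast h1
  have h3 : (((S0 ×ˢ Ps).filter fun z => ¬ d z.1 z.2 ≤ δ / 4).card : ℝ) * (δ / 4) ^ 2 ≤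
      δ ^ 3 / 32 * N * Ps.card := by
    rw [← sum_product'] at hd
    refine le_trans ?_ hd
    rw [← nsmul_eq_mul]
    refine (card_nsmul_le_sum _ (fun z : ℤ × ℕ => d z.1 z.2 ^ 2) _ fun z hz => ?_).trans
      (sum_le_sum_of_subset_of_nonneg ((filter_subset _ _).trans (product_subset_product_left hS))
        fun z _ _ => sq_nonneg _)
    exact pow_le_pow_left₀ (by positivity) (not_le.1 (mem_filter.1 hz).2).le 2
  have h4 : (((S0 ×ˢ Ps).filter fun z => ¬ d z.1 z.2 ≤ δ / 4).card : ℝ) ≤ δ / 2 * N * Ps.card := by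
    refine le_of_mul_le_mul_right (h3.trans (le_of_eq ?_)) (by positivity : 0 < (δ / 4) ^ 2)
    ring
  have h5 := mul_le_mul_of_nonneg_right hc (Nat.cast_nonneg (α := ℝ) Ps.card)
  linarith

theorem xx_s {X η : ℝ} {R s : ℕ} {y : ℤ} (hη : 0 < η) (hR : (R : ℝ) * η ≤ 1)
    (hs : s ≤ R) (h : X ≤ xx η y) : X / 3 ≤ xx η (y - s) := by
  have h1 := xx_add η (y - s) s
  rw [sub_add_cancel, Int.cast_natCast] at h1
  have h2 : (s : ℝ) ≤ R := by exact_mod_cast hs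
  have h3 : η * s ≤ 1 := by nlinarith
  have h4 := exp_sub_one_le (by positivity) h3
  have h5 := xx_pos η (y - s)
  have h6 : xx η (y - s) * Real.exp (η * s) ≤ xx η (y - s) * 3 :=
    mul_le_mul_of_nonneg_left (by linarith) h5.le
  linarith

theorem xx_p {η : ℝ} {p : ℕ} (u : ℤ) (hη : 0 < η) (hp : 0 < p) :
    xx η u ≤ xx η (u - ap η p) * p := by
  have h1 := xx_add η (u - ap η p) (ap η p)
  rw [sub_add_cancel] at h1
  have h2 := Real.exp_le_exp.2 (ap_le hη p)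
  rw [Real.exp_log (by exact_mod_cast hp)] at h2
  rw [h1]
  exact mul_le_mul_of_nonneg_left h2 (xx_pos _ _).le

end EdgesAux

open EdgesAux in
theorem edges {X η δ : ℝ} {R s N j : ℕ} {y0 : ℤ} (β : ℤ → ℝ) (S0 : Finset ℤ) (hX : 0 < X)
    (hη : 0 < η) (hη1 : η ≤ 1 / 5) (hR : (R : ℝ) * η ≤ 1) (hs : s ≤ R) (hδ : 0 < δ) (hδ1 : δ ≤ 1)
    (hRδ : 128 / δ ≤ R) (hP : 192 * 2 ^ j ≤ δ * (X * (R * η)))
    (hY : ∀ y ∈ Ico y0 (y0 + N), X ≤ xx η y) (hN : 1 ≤ (N : ℝ) * η) (hS : S0 ⊆ Ico y0 (y0 + N))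
    (hc : δ * N ≤ S0.card)
    (hb : ∀ y ∈ S0, δ * (xx η (y - s) * (R * η)) ≤ ‖Sm (xx η (y - s)) (R * η) (β y)‖)
    (hd : ∑ y ∈ Ico y0 (y0 + N), ∑ p ∈ Pj j, dTK (xx η (y - s)) (R * η) (β y) p ^ 2 ≤
      δ ^ 3 / 32 * N * (Pj j).card) :
    ∃ E : Finset (ℤ × Lb), δ ^ 4 / 576 * N * ((Pj j).card : ℝ) ^ 2 ≤ E.card ∧ ∀ e ∈ E,
      e.1 ∈ S0 ∧ e.2.1 ∈ Pj j ∧ e.2.2 ∈ Pj j ∧ (st (ap η) e.1 e.2, e.2.swap) ∈ E ∧
      ∃ k : ℤ, |(e.2.1 : ℝ) * β e.1 - e.2.2 * β (st (ap η) e.1 e.2) - k| ≤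
        288 / δ ^ 2 * 2 ^ j / (X * (R * η)) := by
  classical
  have hR0 : (0 : ℝ) < R := lt_of_lt_of_le (by positivity) hRδ
  have hθ : 0 < (R : ℝ) * η := by positivity
  have hP0 : (0 : ℝ) < 2 ^ j := by positivity
  obtain ⟨Hf, hHf⟩ : ∃ Hf : Finset (ℤ × ℕ), Hf = (S0 ×ˢ Pj j).filter
    fun z => dTK (xx η (z.1 - s)) (R * η) (β z.1) z.2 ≤ δ / 4 := ⟨_, rfl⟩
  have hH : δ / 2 * N * (Pj j).card ≤ (Hf.card : ℝ) := by
    rw [hHf]
    exact cheb (d := fun y p => dTK (xx η (y - s)) (R * η) (β y) p) hδ hS hc hd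
  have mH : ∀ y p, (y, p) ∈ Hf → y ∈ S0 ∧ p ∈ Pj j ∧
      dTK (xx η (y - s)) (R * η) (β y) p ≤ δ / 4 := by
    intro y p h
    rw [hHf, mem_filter, mem_product] at h
    exact ⟨h.1.1, h.1.2, h.2⟩
  have low : ∀ w p, (w + ap η p, p) ∈ Hf → X ≤ xx η (w - s) * (6 * 2 ^ j) ∧
      δ / 2 * (xx η (w - s) * (R * η)) ≤ ‖Sm (xx η (w - s)) (R * η) (p * β (w + ap η p))‖ := by
    intro w p h
    obtain ⟨k1, k2, k3⟩ := mH _ _ h
    obtain ⟨k4, -, k5⟩ := mem_Pj.1 k2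
    have k6 : (p : ℝ) ≤ 2 * 2 ^ j := by exact_mod_cast k5.le
    have k7 := xx_s hη hR hs (hY _ (hS k1))
    have e : w + ap η p - s - ap η p = w - s := by ring
    have k8 := xx_p (w + ap η p - s) hη k4.pos
    have k9 := half hη hη1 hR hδ hRδ k4.pos (by
      have := mul_le_mul_of_nonneg_left (mul_le_mul_of_nonneg_right k7 hθ.le) hδ.le
      linarith) (hb _ k1) k3
    rw [e] at k8 k9
    have := mul_le_mul_of_nonneg_left k6 (xx_pos η (w - s)).le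
    exact ⟨by linarith, k9⟩
  obtain ⟨E, hE⟩ : ∃ E : Finset (ℤ × Lb), E = (S0 ×ˢ Pj j ×ˢ Pj j).filter fun e =>
    (e.1, e.2.1) ∈ Hf ∧ (st (ap η) e.1 e.2, e.2.2) ∈ Hf ∧
      ∃ k : ℤ, |(e.2.1 : ℝ) * β e.1 - e.2.2 * β (st (ap η) e.1 e.2) - k| ≤
        288 / δ ^ 2 * 2 ^ j / (X * (R * η)) := ⟨_, rfl⟩
  have mE : ∀ e : ℤ × Lb, e ∈ E ↔ (e.1, e.2.1) ∈ Hf ∧ (st (ap η) e.1 e.2, e.2.2) ∈ Hf ∧
      ∃ k : ℤ, |(e.2.1 : ℝ) * β e.1 - e.2.2 * β (st (ap η) e.1 e.2) - k| ≤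
        288 / δ ^ 2 * 2 ^ j / (X * (R * η)) := by
    intro e
    rw [hE, mem_filter, mem_product, mem_product]
    exact ⟨fun h => h.2, fun h => ⟨⟨(mH _ _ h.1).1, (mH _ _ h.1).2.1, (mH _ _ h.2.1).2.1⟩, h⟩⟩
  have key : ∀ w, (((Pj j).filter fun p => (w + ap η p, p) ∈ Hf).card : ℝ) ^ 2 ≤
      72 / δ ^ 2 * (E.filter fun e => e.1 - ap η e.2.1 = w).card := by
    intro w
    have hx := xx_pos η (w - s)
    refine (colour_pairs _ (fun p p' : ℕ => ∃ k : ℤ,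
      |(p : ℝ) * β (w + ap η p) - p' * β (w + ap η p') - k| ≤
        24 / δ ^ 2 / (xx η (w - s) * (R * η))) (fun p => ⟨0, ?_⟩) (fun p p' ⟨k, hk⟩ => ⟨-k, ?_⟩)
      (r := 72 / δ ^ 2) fun T hT hi => ?_).trans
      (mul_le_mul_of_nonneg_left (Nat.cast_le.2 ?_) (by positivity))
    · rw [sub_self, Int.cast_zero, sub_zero, abs_zero]
      positivity
    · rw [← abs_neg]
      refine le_trans (le_of_eq (congrArg _ ?_)) hk
      push_cast
      ring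
    · rcases T.eq_empty_or_nonempty with rfl | ⟨p, hp⟩
      · rw [card_empty, Nat.cast_zero]
        positivity
      have k1 := (low w p (mem_filter.1 (hT hp)).2).1
      refine clu hx hθ hR ?_ hδ T (fun p => p * β (w + ap η p))
        (fun p hp => (low w p (mem_filter.1 (hT hp)).2).2) fun p hp p' hp' hne k =>
          not_le.1 fun hk => hi p hp p' hp' hne ⟨k, hk⟩
      have k2 := mul_le_mul_of_nonneg_right k1 hθ.le
      have k3 := mul_le_mul_of_nonneg_right hδ1 (mul_pos hX hθ).le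
      refine le_of_mul_le_mul_right ?_ (by positivity : (0 : ℝ) < 6 * 2 ^ j)
      linarith
    · refine card_le_card_of_injOn (fun z : ℕ × ℕ => ((w + ap η z.1, z) : ℤ × Lb))
        (fun z hz => ?_) fun z _ z' _ e => congrArg Prod.snd e
      rw [mem_coe, mem_filter, mem_product, mem_filter, mem_filter] at hz
      obtain ⟨⟨⟨-, k1⟩, -, k2⟩, c, -, ⟨k, hk⟩, k', hk'⟩ := hz
      have e : st (ap η) (w + ap η z.1) z = w + ap η z.2 := by
        unfold st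
        ring
      rw [mem_coe, mem_filter, mE]
      dsimp only
      rw [e]
      refine ⟨⟨k1, k2, k - k', ?_⟩, by ring⟩
      have k3 : 24 / δ ^ 2 / (xx η (w - s) * (R * η)) ≤ 144 / δ ^ 2 * 2 ^ j / (X * (R * η)) := by
        rw [div_le_div_iff₀ (by positivity) (by positivity)]
        have := mul_le_mul_of_nonneg_left (mul_le_mul_of_nonneg_right (low w _ k1).1 hθ.le)
          (by positivity : 0 ≤ 24 / δ ^ 2)
        refine this.trans (le_of_eq ?_)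
        ring
      have k4 : 288 / δ ^ 2 * 2 ^ j / (X * (R * η)) =
          2 * (144 / δ ^ 2 * 2 ^ j / (X * (R * η))) := by ring
      rw [abs_le] at hk hk' ⊢
      push_cast
      constructor <;> linarith [hk.1, hk.2, hk'.1, hk'.2]
  have hW := count (a := ap η) Hf (Ico (y0 - ap η (2 ^ j) - N) (y0 - ap η (2 ^ j) + N)) E (Pj j)
    (by positivity) (fun z hz => by
      obtain ⟨k1, k2, -⟩ := mH z.1 z.2 hz
      have k3 := ap_range hη hN k2
      have k4 := mem_Ico.1 (hS k1)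
      exact ⟨mem_Ico.2 (by omega), k2⟩) key
  refine ⟨E, ?_, fun e he => ?_⟩
  · have hN0 : (0 : ℝ) < N := by
      by_contra k
      nlinarith [Nat.cast_nonneg (α := ℝ) N]
    have k1 : (Ico (y0 - ap η (2 ^ j) - N) (y0 - ap η (2 ^ j) + N)).card = 2 * N := by
      rw [Int.card_Ico]
      omega
    rw [k1] at hW
    push_cast at hW
    have k2 := (pow_le_pow_left₀ (by positivity) hH 2).trans hW
    refine le_of_mul_le_mul_left (le_trans (le_of_eq ?_) (k2.trans (le_of_eq ?_)))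
      (by positivity : (0 : ℝ) < 2 * N * (72 / δ ^ 2))
    · field_simp
      ring
    · ring
  · obtain ⟨k1, k2, k, hk⟩ := (mE e).1 he
    have e1 : st (ap η) (st (ap η) e.1 e.2) e.2.swap = e.1 := by
      simp only [st, Prod.fst_swap, Prod.snd_swap]
      ring
    refine ⟨(mH _ _ k1).1, (mH _ _ k1).2.1, (mH _ _ k2).2.1, (mE _).2 ?_, k, hk⟩
    dsimp only
    rw [e1]
    refine ⟨k2, k1, -k, ?_⟩
    rw [← abs_neg]
    refine le_trans (le_of_eq (congrArg _ ?_)) hk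
    simp only [Prod.fst_swap, Prod.snd_swap]
    push_cast
    ring

end Pool.Agent.P.MP_a9a441_nt.FU
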