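import Pool.Agent.P.MP_a9a441_nt.FU.Bas

/-!
Gauss sums. `cchi_mul`: substitute b ↦ b p⁻¹. `sum_cchi_sq`: Parseval on ZMod q
(`AddChar.sum_mulShift`, `ZMod.isPrimitive_stdAddChar`). `fa`: cover the range by at most
(63 a + 1) / q + 1 blocks of q consecutive integers; on a block Cauchy-Schwarz gives q √φ(q).
`le_two_totient_sq`: see the proof near the end of P/MP_a1177c_nt/LC/Sieve.lean.
-/

namespace Pool.Agent.P.MP_a9a441_nt.FU

open Finset Filter Pool.Agent.Lib.LargeSieve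
open scoped ComplexConjugate

variable {q : ℕ} [NeZero q]

theorem norm_cchi_le (χ : DirichletCharacter ℂ q) (m : ℕ) : ‖cchi χ m‖ ≤ q.totient := by
  refine (norm_sum_le _ _).trans (le_of_eq ?_)
  have h : ∀ b : (ZMod q)ˣ, ‖χ b * ZMod.stdAddChar (-((b : ZMod q) * (m : ZMod q)))‖ = 1 := by
    intro b
    rw [norm_mul, DirichletCharacter.unit_norm_eq_one, AddChar.norm_apply, mul_one]
  simp_rw [h]
  rw [sum_const, card_univ, ZMod.card_units_eq_totient, nsmul_eq_mul, mul_one]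

theorem cchi_congr (χ : DirichletCharacter ℂ q) {m m' : ℕ} (h : (m : ZMod q) = m') :
    cchi χ m = cchi χ m' := by
  unfold cchi
  rw [h]

theorem cchi_mul (χ : DirichletCharacter ℂ q) {p : ℕ} (hp : p.Coprime q) (m : ℕ) :
    cchi χ (p * m) = χ⁻¹ p * cchi χ m := by
  have h1 : χ p * cchi χ (p * m) = cchi χ m := by
    unfold cchi
    rw [mul_sum, ← Equiv.sum_comp (Equiv.mulRight (ZMod.unitOfCoprime p hp))
      (fun b : (ZMod q)ˣ => χ b * ZMod.stdAddChar (-((b : ZMod q) * (m : ZMod q))))]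
    refine sum_congr rfl fun b _ => ?_
    rw [Equiv.coe_mulRight, Units.val_mul, ZMod.coe_unitOfCoprime, map_mul, Nat.cast_mul,
      mul_assoc (b : ZMod q)]
    ring
  have h2 : χ⁻¹ p * χ p = 1 := by
    rw [← MulChar.mul_apply, inv_mul_cancel, MulChar.one_apply]
    exact (ZMod.isUnit_iff_coprime p q).2 hp
  rw [← h1, ← mul_assoc, h2, one_mul]

namespace FAAux

theorem sum_block {M : Type*} [AddCommMonoid M] (f : ZMod q → M) (u : ℕ) :
    ∑ m ∈ Ico u (u + q), f (m : ZMod q) = ∑ x : ZMod q, f x := by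
  have hinj : Set.InjOn (fun m : ℕ => (m : ZMod q)) (Ico u (u + q) : Finset ℕ) := by
    intro m hm m' hm' h
    exact Nat.mod_injOn_Ico u q hm hm' ((ZMod.natCast_eq_natCast_iff' _ _ _).1 h)
  have him : (Ico u (u + q)).image (fun m : ℕ => (m : ZMod q)) = univ := by
    refine eq_univ_of_card _ ?_
    rw [card_image_of_injOn hinj, Nat.card_Ico, ZMod.card]
    omega
  rw [← him, sum_image hinj]

/-- The Gauss sum as a function of the residue. -/
noncomputable def cz (χ : DirichletCharacter ℂ q) (x : ZMod q) : ℂ :=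
  ∑ b : (ZMod q)ˣ, χ b * ZMod.stdAddChar (-((b : ZMod q) * x))

theorem parseval (χ : DirichletCharacter ℂ q) :
    ∑ x : ZMod q, cz χ x * conj (cz χ x) = q * q.totient := by
  have h1 : ∀ x : ZMod q, cz χ x * conj (cz χ x) = ∑ b : (ZMod q)ˣ, ∑ b' : (ZMod q)ˣ,
      χ b * conj (χ b') * ZMod.stdAddChar (x * ((b' : ZMod q) - (b : ZMod q))) := by
    intro x
    rw [cz, map_sum, sum_mul_sum]
    refine sum_congr rfl fun b _ => sum_congr rfl fun b' _ => ?_
    rw [map_mul, ← AddChar.map_neg_eq_conj, neg_neg]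
    have : x * ((b' : ZMod q) - (b : ZMod q)) = -((b : ZMod q) * x) + (b' : ZMod q) * x := by ring
    rw [this, AddChar.map_add_eq_mul]
    ring
  simp_rw [h1]
  rw [sum_comm]
  have h2 : ∀ b : (ZMod q)ˣ, ∑ x : ZMod q, ∑ b' : (ZMod q)ˣ,
      χ b * conj (χ b') * ZMod.stdAddChar (x * ((b' : ZMod q) - (b : ZMod q))) = (q : ℂ) := by
    intro b
    rw [sum_comm]
    simp_rw [← mul_sum, AddChar.sum_mulShift _ (ZMod.isPrimitive_stdAddChar q)]
    rw [sum_eq_single b]
    · rw [sub_self, if_pos rfl, ZMod.card, Complex.mul_conj, Complex.normSq_eq_norm_sq,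
        DirichletCharacter.unit_norm_eq_one]
      simp
    · intro b' _ hb'
      rw [if_neg (fun h => hb' (Units.ext (sub_eq_zero.1 h)))]
      simp
    · intro h
      exact absurd (mem_univ b) h
  simp_rw [h2]
  rw [sum_const, card_univ, ZMod.card_units_eq_totient, nsmul_eq_mul, mul_comm]

end FAAux

theorem sum_cchi_sq (χ : DirichletCharacter ℂ q) (u : ℕ) :
    ∑ m ∈ Ico u (u + q), ‖cchi χ m‖ ^ 2 = q * q.totient := by
  have h1 := FAAux.sum_block (fun x : ZMod q => FAAux.cz χ x * conj (FAAux.cz χ x)) u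
  rw [FAAux.parseval] at h1
  have h2 : ∀ m : ℕ, FAAux.cz χ m * conj (FAAux.cz χ m) = ((‖cchi χ m‖ ^ 2 : ℝ) : ℂ) := by
    intro m
    rw [Complex.mul_conj, Complex.normSq_eq_norm_sq]
    rfl
  simp_rw [h2] at h1
  exact_mod_cast h1

namespace FAAux

theorem block_le (χ : DirichletCharacter ℂ q) (u : ℕ) :
    ∑ m ∈ Ico u (u + q), ‖cchi χ m‖ ≤ q * √(q.totient) := by
  have h1 := sq_sum_le_card_mul_sum_sq (s := Ico u (u + q)) (f := fun m => ‖cchi χ m‖)
  rw [sum_cchi_sq, Nat.card_Ico, Nat.add_sub_cancel_left] at h1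
  refine abs_le_of_sq_le_sq' ?_ (by positivity) |>.2
  rw [mul_pow, Real.sq_sqrt (Nat.cast_nonneg _)]
  nlinarith

theorem blocks_le (χ : DirichletCharacter ℂ q) (u K : ℕ) :
    ∑ m ∈ Ico u (u + K * q), ‖cchi χ m‖ ≤ K * (q * √(q.totient)) := by
  induction K with
  | zero => simp
  | succ K ih =>
    have e : u + (K + 1) * q = u + K * q + q := by ring
    rw [e, ← sum_Ico_consecutive _ (Nat.le_add_right u (K * q)) (Nat.le_add_right _ q)]
    have := block_le χ (u + K * q)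
    push_cast
    linarith

end FAAux

theorem fa (χ : DirichletCharacter ℂ q) {a b : ℝ} (ha : (q : ℝ) ≤ a) (hab : a ≤ b)
    (hb : b ≤ 64 * a) : ∑ m ∈ Ioc ⌊a⌋₊ ⌊b⌋₊, ‖cchi χ m‖ / m ≤ 70 * √(q.totient) := by
  have hq : 0 < q := Nat.pos_of_ne_zero (NeZero.ne q)
  have hq' : (0 : ℝ) < q := by exact_mod_cast hq
  have ha0 : 0 < a := hq'.trans_le ha
  have h1 : ∑ m ∈ Ioc ⌊a⌋₊ ⌊b⌋₊, ‖cchi χ m‖ / m ≤ (∑ m ∈ Ioc ⌊a⌋₊ ⌊b⌋₊, ‖cchi χ m‖) / a := by
    rw [sum_div]
    refine sum_le_sum fun m hm => div_le_div_of_nonneg_left (norm_nonneg _) ha0 ?_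
    exact ((Nat.floor_lt ha0.le).1 (mem_Ioc.1 hm).1).le
  have h2 : Ioc ⌊a⌋₊ ⌊b⌋₊ ⊆ Ico 0 (0 + (⌊b⌋₊ / q + 1) * q) := by
    intro m hm
    rw [mem_Ico]
    refine ⟨Nat.zero_le _, ?_⟩
    have h3 := Nat.lt_div_mul_add (a := ⌊b⌋₊) hq
    have h4 := (mem_Ioc.1 hm).2
    rw [zero_add, add_mul, one_mul]
    omega
  have h3 := (sum_le_sum_of_subset_of_nonneg (f := fun m => ‖cchi χ m‖) h2
    fun _ _ _ => norm_nonneg _).trans (FAAux.blocks_le χ 0 _)
  have h4 : ((⌊b⌋₊ / q + 1 : ℕ) : ℝ) * q ≤ 65 * a := by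
    have h5 : ((⌊b⌋₊ / q * q : ℕ) : ℝ) ≤ (⌊b⌋₊ : ℝ) := by
      exact_mod_cast Nat.div_mul_le_self _ _
    have h6 : (⌊b⌋₊ : ℝ) ≤ b := Nat.floor_le (ha0.le.trans hab)
    rw [Nat.cast_mul] at h5
    rw [Nat.cast_add, Nat.cast_one, add_mul, one_mul]
    linarith
  refine h1.trans ?_
  rw [div_le_iff₀ ha0]
  refine h3.trans ?_
  rw [← mul_assoc]
  have h7 : 0 ≤ √(q.totient : ℝ) := Real.sqrt_nonneg _
  nlinarith [mul_le_mul_of_nonneg_right h4 h7, mul_nonneg ha0.le h7]

theorem le_two_totient_sq (n : ℕ) : n ≤ 2 * n.totient ^ 2 := by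
  have key : ∀ n : ℕ, n ≤ (if 2 ∣ n then 2 else 1) * n.totient ^ 2 := by
    intro n
    induction n using Nat.recOnPosPrimePosCoprime with
    | prime_pow p k hp hk =>
      obtain ⟨j, rfl⟩ : ∃ j, k = j + 1 := ⟨k - 1, by omega⟩
      rw [Nat.totient_prime_pow_succ hp, mul_pow, pow_succ]
      have h0 : p ^ j ≤ (p ^ j) ^ 2 := Nat.le_self_pow two_ne_zero _
      by_cases h2 : p = 2
      · subst h2
        rw [if_pos (Dvd.intro_left _ rfl)]
        simp only [Nat.add_one_sub_one, one_pow, mul_one]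
        omega
      · have h3 : 3 ≤ p := by have := hp.two_le; omega
        have h4 : p ≤ (p - 1) ^ 2 := by
          obtain ⟨r, rfl⟩ : ∃ r, p = r + 3 := ⟨p - 3, by omega⟩
          have : r + 3 - 1 = r + 2 := by omega
          rw [this]
          nlinarith
        have h5 := Nat.mul_le_mul h0 h4
        split_ifs <;> omega
    | zero => simp
    | one => simp
    | coprime a b _ _ hab iha ihb =>
      rw [Nat.totient_mul hab, mul_pow]
      have h5 := Nat.mul_le_mul iha ihb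
      by_cases h1 : 2 ∣ a
      · have h2 : ¬ 2 ∣ b := fun h2 => by
          have := Nat.dvd_gcd h1 h2
          rw [hab] at this
          omega
        rw [if_pos h1, if_neg h2] at h5
        rw [if_pos (h1.mul_right b)]
        nlinarith
      · by_cases h2 : 2 ∣ b
        · rw [if_neg h1, if_pos h2] at h5
          rw [if_pos (h2.mul_left a)]
          nlinarith
        · rw [if_neg h1, if_neg h2] at h5
          split_ifs <;> nlinarith [Nat.zero_le (a.totient ^ 2 * b.totient ^ 2)]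
  have h := key n
  split_ifs at h <;> omega

end Pool.Agent.P.MP_a9a441_nt.FU
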