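import Pool.Agent.P.MP_a9a441_nt.FU.Hal

/-!
Periodic twists with a fixed modulus. First: for every r, ∑_{n ≤ y, n ≡ r mod q} λ n ee (τ log n)
is o(y) uniformly for |τ| ≤ y^C₀. Indeed with d = gcd (r, q), n = d n', n' runs over a unit class
mod q / d; expand its indicator in Dirichlet characters mod q / d
(`DirichletCharacter.sum_char_inv_mul_char_eq`) and use `hal` at y / d with exponent C₀ + 1 for the
finitely many characters (`Filter.eventually_all`, `eventually_all_finset`). Then sum over r and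
sum by parts with the weight 1 / m on (a, b].
-/

namespace Pool.Agent.P.MP_a9a441_nt.FU

open Finset Filter Pool.Agent.Lib.LargeSieve
open scoped ComplexConjugate

namespace FBAux

theorem unit_class {q : ℕ} [NeZero q] {r : ZMod q} (hr : IsUnit r) (C₀ : ℕ) {ε : ℝ}
    (hε : 0 < ε) : ∀ᶠ y : ℝ in atTop, ∀ τ : ℝ, |τ| ≤ y ^ C₀ →
      ‖∑ n ∈ (Ioc 0 ⌊y⌋₊).filter (fun n : ℕ => (n : ZMod q) = r),
        lam n * ee (τ * Real.log n)‖ ≤ ε * y := by
  have h0 : ∀ᶠ y : ℝ in atTop, ∀ χ : DirichletCharacter ℂ q, ∀ τ : ℝ, |τ| ≤ y ^ C₀ →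
      ‖∑ n ∈ Ioc 0 ⌊y⌋₊, lam n * χ n * ee (τ * Real.log n)‖ ≤ ε * y :=
    eventually_all.2 fun χ => hal χ C₀ hε
  filter_upwards [h0] with y hy τ hτ
  have hq : 0 < q := Nat.pos_of_ne_zero (NeZero.ne q)
  have hφ : (0 : ℝ) < q.totient := by exact_mod_cast Nat.totient_pos.2 hq
  have h1 : (q.totient : ℂ) * ∑ n ∈ (Ioc 0 ⌊y⌋₊).filter (fun n : ℕ => (n : ZMod q) = r),
      lam n * ee (τ * Real.log n) = ∑ χ : DirichletCharacter ℂ q, χ r⁻¹ *
        ∑ n ∈ Ioc 0 ⌊y⌋₊, lam n * χ n * ee (τ * Real.log n) := by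
    simp_rw [mul_sum]
    rw [sum_comm, sum_filter]
    refine sum_congr rfl fun n _ => ?_
    have h2 : ∀ χ : DirichletCharacter ℂ q, χ r⁻¹ * (lam n * χ n * ee (τ * Real.log n)) =
        (χ r⁻¹ * χ n) * (lam n * ee (τ * Real.log n)) := fun χ => by ring
    simp_rw [h2]
    rw [← sum_mul, DirichletCharacter.sum_char_inv_mul_char_eq ℂ hr]
    by_cases h : (n : ZMod q) = r
    · rw [if_pos h, if_pos h.symm]
    · rw [if_neg h, if_neg (fun h' => h h'.symm), zero_mul]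
  have h3 : ‖∑ χ : DirichletCharacter ℂ q, χ r⁻¹ *
      ∑ n ∈ Ioc 0 ⌊y⌋₊, lam n * χ n * ee (τ * Real.log n)‖ ≤ q.totient * (ε * y) := by
    refine (norm_sum_le _ _).trans ?_
    refine (sum_le_card_nsmul _ _ (ε * y) fun χ _ => ?_).trans (le_of_eq ?_)
    · rw [norm_mul]
      exact (mul_le_of_le_one_left (norm_nonneg _) (χ.norm_le_one _)).trans (hy χ τ hτ)
    · rw [card_univ, ← Nat.card_eq_fintype_card,
        DirichletCharacter.card_eq_totient_of_hasEnoughRootsOfUnity, nsmul_eq_mul]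
  rw [← h1, norm_mul, Complex.norm_natCast] at h3
  exact le_of_mul_le_mul_left h3 hφ

theorem class_eq {d q' r' : ℕ} (hd : 0 < d) (N : ℕ) :
    (Ioc 0 N).filter (fun n : ℕ => (n : ZMod (d * q')) = (d * r' : ℕ)) =
      ((Ioc 0 (N / d)).filter (fun n : ℕ => (n : ZMod q') = (r' : ℕ))).image (d * ·) := by
  ext n
  simp only [mem_filter, mem_image, mem_Ioc, ZMod.natCast_eq_natCast_iff]
  constructor
  · rintro ⟨⟨h1, h2⟩, h3⟩
    obtain ⟨m, rfl⟩ : d ∣ n :=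
      ((h3.of_mul_right q').dvd_iff (dvd_refl d)).2 (Dvd.intro _ rfl)
    refine ⟨m, ⟨⟨Nat.pos_of_mul_pos_left h1, ?_⟩, h3.mul_left_cancel' hd.ne'⟩, rfl⟩
    rw [Nat.le_div_iff_mul_le hd, mul_comm]
    exact h2
  · rintro ⟨m, ⟨⟨h1, h2⟩, h3⟩, rfl⟩
    rw [Nat.le_div_iff_mul_le hd, mul_comm] at h2
    exact ⟨⟨Nat.mul_pos hd h1, h2⟩, h3.mul_left' d⟩

theorem all_class {d q' r' : ℕ} (hd : 0 < d) (hq : 0 < q') (hc : r'.Coprime q') (C₀ : ℕ) {ε : ℝ}
    (hε : 0 < ε) : ∀ᶠ y : ℝ in atTop, ∀ τ : ℝ, |τ| ≤ y ^ C₀ →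
      ‖∑ n ∈ (Ioc 0 ⌊y⌋₊).filter (fun n : ℕ => (n : ZMod (d * q')) = (d * r' : ℕ)),
        lam n * ee (τ * Real.log n)‖ ≤ ε * y := by
  have : NeZero q' := ⟨hq.ne'⟩
  have hd' : (0 : ℝ) < d := by exact_mod_cast hd
  have hd1 : (1 : ℝ) ≤ d := by exact_mod_cast hd
  have h0 := (tendsto_id.atTop_div_const hd').eventually
    (unit_class ((ZMod.isUnit_iff_coprime r' q').2 hc) (C₀ + 1) hε)
  filter_upwards [h0, eventually_ge_atTop ((d : ℝ) ^ (C₀ + 1))] with y hy hyd τ hτ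
  have hy0 : 0 < y := (pow_pos hd' _).trans_le hyd
  have h1 : |τ| ≤ (y / d) ^ (C₀ + 1) := by
    refine hτ.trans ?_
    rw [div_pow, le_div_iff₀ (pow_pos hd' _), pow_succ y]
    exact mul_le_mul_of_nonneg_left hyd (pow_nonneg hy0.le _)
  have h2 := hy τ h1
  rw [id, Nat.floor_div_natCast] at h2
  rw [class_eq hd, sum_image fun m _ m' _ h => Nat.eq_of_mul_eq_mul_left hd h]
  have h3 : ∀ m ∈ (Ioc 0 (⌊y⌋₊ / d)).filter (fun n : ℕ => (n : ZMod q') = (r' : ℕ)),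
      lam (d * m) * ee (τ * Real.log (d * m : ℕ)) =
        (lam d * ee (τ * Real.log d)) * (lam m * ee (τ * Real.log m)) := by
    intro m hm
    have hm0 : (m : ℝ) ≠ 0 := by
      have := (mem_Ioc.1 (mem_filter.1 hm).1).1
      exact_mod_cast this.ne'
    rw [lam_mul, Nat.cast_mul, Real.log_mul hd'.ne' hm0, mul_add, ee_add]
    ring
  rw [sum_congr rfl h3, ← mul_sum, norm_mul, norm_mul, norm_ee, mul_one]
  refine (mul_le_of_le_one_left (norm_nonneg _) (norm_lam_le d)).trans (h2.trans ?_)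
  exact mul_le_mul_of_nonneg_left (div_le_self hy0.le hd1) hε.le

theorem abel (f : ℕ → ℂ) {u v : ℕ} (huv : u ≤ v) {M : ℝ}
    (hM : ∀ N, u ≤ N → N ≤ v → ‖∑ m ∈ Ioc 0 N, f m‖ ≤ M) :
    ‖∑ m ∈ Ioc u v, f m / m‖ ≤ 2 * M / (u + 1) := by
  have key : ∀ w, u ≤ w → w ≤ v →
      ‖∑ m ∈ Ioc u w, f m / m - (∑ m ∈ Ioc 0 w, f m) / (w + 1 : ℕ)‖ ≤
        2 * M / (u + 1) - M / (w + 1) := by
    intro w hw
    induction w, hw using Nat.le_induction with
    | base =>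
      intro _
      rw [Ioc_self, sum_empty, zero_sub, norm_neg, norm_div, Complex.norm_natCast]
      have h1 : 2 * M / ((u : ℝ) + 1) - M / (u + 1) = M / (u + 1) := by ring
      rw [h1]
      push_cast
      exact div_le_div_of_nonneg_right (hM u le_rfl huv) (by positivity)
    | succ w hw ih =>
      intro hwv
      have h1 := ih (by omega)
      have h2 := hM (w + 1) (by omega) hwv
      have h3 : ∑ m ∈ Ioc u (w + 1), f m / m - (∑ m ∈ Ioc 0 (w + 1), f m) / (w + 1 + 1 : ℕ) =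
          (∑ m ∈ Ioc u w, f m / m - (∑ m ∈ Ioc 0 w, f m) / (w + 1 : ℕ)) +
            (∑ m ∈ Ioc 0 (w + 1), f m) *
              ((1 / ((w : ℝ) + 1) - 1 / ((w : ℝ) + 1 + 1) : ℝ) : ℂ) := by
        rw [sum_Ioc_succ_top hw, sum_Ioc_succ_top (Nat.zero_le w)]
        push_cast
        ring
      have h4 : 0 ≤ 1 / ((w : ℝ) + 1) - 1 / ((w : ℝ) + 1 + 1) :=
        sub_nonneg.2 (one_div_le_one_div_of_le (by positivity) (by linarith))
      rw [h3]
      refine (norm_add_le _ _).trans ?_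
      rw [norm_mul, Complex.norm_real, Real.norm_of_nonneg h4]
      have h5 := mul_le_mul_of_nonneg_right h2 h4
      have h6 : M * (1 / ((w : ℝ) + 1) - 1 / ((w : ℝ) + 1 + 1)) =
          M / (w + 1) - M / (w + 1 + 1) := by ring
      push_cast at h1 ⊢
      linarith
  have h1 := key v huv le_rfl
  have h2 : ‖(∑ m ∈ Ioc 0 v, f m) / (v + 1 : ℕ)‖ ≤ M / (v + 1) := by
    rw [norm_div, Complex.norm_natCast]
    push_cast
    exact div_le_div_of_nonneg_right (hM v huv le_rfl) (by positivity)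
  have h3 := norm_add_le (∑ m ∈ Ioc u v, f m / m - (∑ m ∈ Ioc 0 v, f m) / (v + 1 : ℕ))
    ((∑ m ∈ Ioc 0 v, f m) / (v + 1 : ℕ))
  rw [sub_add_cancel] at h3
  linarith

end FBAux

theorem fb0 (q : ℕ) [NeZero q] (r : ZMod q) (C₀ : ℕ) {ε : ℝ} (hε : 0 < ε) :
    ∀ᶠ y : ℝ in atTop, ∀ τ : ℝ, |τ| ≤ y ^ C₀ →
      ‖∑ n ∈ (Ioc 0 ⌊y⌋₊).filter (fun n : ℕ => (n : ZMod q) = r),
        lam n * ee (τ * Real.log n)‖ ≤ ε * y := by
  have hq : 0 < q := Nat.pos_of_ne_zero (NeZero.ne q)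
  obtain ⟨r₀, rfl⟩ : ∃ r₀ : ℕ, (r₀ : ZMod q) = r := ⟨r.val, ZMod.natCast_zmod_val r⟩
  obtain ⟨d, r', q', hd, hc, rfl, rfl⟩ := Nat.exists_coprime' (Nat.gcd_pos_of_pos_right r₀ hq)
  have h := FBAux.all_class hd (Nat.pos_of_mul_pos_right hq) hc C₀ hε
  rw [mul_comm d q', mul_comm d r'] at h
  exact h

theorem fb (q : ℕ) [NeZero q] (C₀ : ℕ) {ε : ℝ} (hε : 0 < ε) : ∀ᶠ a : ℝ in atTop,
    ∀ (ψ : ZMod q → ℂ) (b τ : ℝ), (∀ r, ‖ψ r‖ ≤ 1) → a ≤ b → b ≤ 64 * a → |τ| ≤ a ^ C₀ →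
      ‖∑ m ∈ Ioc ⌊a⌋₊ ⌊b⌋₊, lam m / m * ee (τ * Real.log m) * ψ m‖ ≤ ε := by
  have hq : (0 : ℝ) < q := by exact_mod_cast Nat.pos_of_ne_zero (NeZero.ne q)
  have hε' : 0 < ε / (128 * q) := by positivity
  have h0 : ∀ᶠ y : ℝ in atTop, ∀ r : ZMod q, ∀ τ : ℝ, |τ| ≤ y ^ C₀ →
      ‖∑ n ∈ (Ioc 0 ⌊y⌋₊).filter (fun n : ℕ => (n : ZMod q) = r),
        lam n * ee (τ * Real.log n)‖ ≤ ε / (128 * q) * y :=
    eventually_all.2 fun r => fb0 q r C₀ hε'
  filter_upwards [eventually_forall_ge_atTop.2 h0, eventually_gt_atTop 0]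
    with a ha ha0 ψ b τ hψ hab hb hτ
  have h1 : ∀ y, a ≤ y → y ≤ b →
      ‖∑ m ∈ Ioc 0 ⌊y⌋₊, lam m * ee (τ * Real.log m) * ψ m‖ ≤ ε / 2 * a := by
    intro y hay hyb
    have h2 : |τ| ≤ y ^ C₀ := hτ.trans (pow_le_pow_left₀ ha0.le hay _)
    rw [← sum_fiberwise (s := Ioc 0 ⌊y⌋₊) (g := fun n : ℕ => (n : ZMod q))]
    refine (norm_sum_le _ _).trans ?_
    refine (sum_le_card_nsmul _ _ (ε / (128 * q) * y) fun r _ => ?_).trans ?_
    · have h3 : ∑ m ∈ (Ioc 0 ⌊y⌋₊).filter (fun n : ℕ => (n : ZMod q) = r),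
          lam m * ee (τ * Real.log m) * ψ m = (∑ m ∈ (Ioc 0 ⌊y⌋₊).filter
            (fun n : ℕ => (n : ZMod q) = r), lam m * ee (τ * Real.log m)) * ψ r := by
        rw [sum_mul]
        exact sum_congr rfl fun m hm => by rw [(mem_filter.1 hm).2]
      rw [h3, norm_mul]
      exact (mul_le_of_le_one_right (norm_nonneg _) (hψ r)).trans (ha y hay r τ h2)
    · rw [card_univ, ZMod.card, nsmul_eq_mul]
      have h4 : (q : ℝ) * (ε / (128 * q) * y) = ε / 128 * y := by field_simp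
      rw [h4]
      nlinarith
  have h5 := FBAux.abel (fun m => lam m * ee (τ * Real.log m) * ψ m) (Nat.floor_mono hab)
    (M := ε / 2 * a) fun N hN1 hN2 => by
      rcases hN1.eq_or_lt with h | h
      · rw [← h]
        exact h1 a le_rfl hab
      · have h6 := h1 N ((Nat.floor_lt ha0.le).1 h).le
          ((Nat.le_floor_iff (ha0.le.trans hab)).1 hN2)
        rwa [Nat.floor_natCast] at h6
  have h7 : ∀ m : ℕ, lam m / m * ee (τ * Real.log m) * ψ m =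
      lam m * ee (τ * Real.log m) * ψ m / m := fun m => by ring
  simp_rw [h7]
  refine h5.trans ?_
  rw [div_le_iff₀ (by positivity)]
  have h8 := Nat.lt_floor_add_one a
  nlinarith

end Pool.Agent.P.MP_a9a441_nt.FU
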