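import Pool.Agent.P.MP_a9a441_nt.FU.FA
import Pool.Agent.P.MP_a9a441_nt.FU.FB

/-!
The cofactor sum is uniformly small. Choose q₀ with 70 ≤ ε √φ(q) for q ≥ q₀
(`le_two_totient_sq`) and use `fa`; for the finitely many q < q₀ use `fb` with
ψ r = cchi χ r.val / φ(q) (`cchi_congr`, `norm_cchi_le`).
-/

namespace Pool.Agent.P.MP_a9a441_nt.FU

open Finset Filter Pool.Agent.Lib.LargeSieve
open scoped ComplexConjugate

theorem fs (C₀ : ℕ) {ε : ℝ} (hε : 0 < ε) : ∀ᶠ a : ℝ in atTop,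
    ∀ (q : ℕ) [NeZero q] (χ : DirichletCharacter ℂ q) (b τ : ℝ), (q : ℝ) ≤ a → a ≤ b →
      b ≤ 64 * a → |τ| ≤ a ^ C₀ →
      ‖∑ m ∈ Ioc ⌊a⌋₊ ⌊b⌋₊, lam m / m * ee (τ * Real.log m) * cchi χ m‖ ≤ ε * q.totient := by
  have h0 : ∀ᶠ a : ℝ in atTop, ∀ q ∈ Ico 1 ⌈2 * (70 / ε) ^ 4⌉₊,
      ∀ (ψ : ZMod q → ℂ) (b τ : ℝ), (∀ r, ‖ψ r‖ ≤ 1) → a ≤ b → b ≤ 64 * a → |τ| ≤ a ^ C₀ →
        ‖∑ m ∈ Ioc ⌊a⌋₊ ⌊b⌋₊, lam m / m * ee (τ * Real.log m) * ψ m‖ ≤ ε := by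
    refine (eventually_all_finset _).2 fun q hq => ?_
    have : NeZero q := ⟨by have := (mem_Ico.1 hq).1; omega⟩
    exact fb q C₀ hε
  filter_upwards [h0] with a ha q _ χ b τ hqa hab hb hτ
  have hq : 0 < q := Nat.pos_of_ne_zero (NeZero.ne q)
  have hφ : (0 : ℝ) < q.totient := by exact_mod_cast Nat.totient_pos.2 hq
  rcases lt_or_ge q ⌈2 * (70 / ε) ^ 4⌉₊ with h | h
  · have h1 := ha q (mem_Ico.2 ⟨hq, h⟩) (fun r => cchi χ r.val / q.totient) b τ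
      (fun r => by
        rw [norm_div, Complex.norm_natCast, div_le_one hφ]
        exact norm_cchi_le χ _) hab hb hτ
    have h2 : ∑ m ∈ Ioc ⌊a⌋₊ ⌊b⌋₊, lam m / m * ee (τ * Real.log m) * cchi χ m =
        (∑ m ∈ Ioc ⌊a⌋₊ ⌊b⌋₊, lam m / m * ee (τ * Real.log m) *
          (cchi χ (m : ZMod q).val / q.totient)) * q.totient := by
      rw [sum_mul]
      refine sum_congr rfl fun m _ => ?_
      have h3 : (q.totient : ℂ) ≠ 0 := by exact_mod_cast hφ.ne'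
      rw [cchi_congr χ (ZMod.natCast_zmod_val (m : ZMod q)), mul_assoc (_ * _), div_mul_cancel₀ _ h3]
    rw [h2, norm_mul, Complex.norm_natCast]
    exact mul_le_mul_of_nonneg_right h1 hφ.le
  · have h1 : 2 * (70 / ε) ^ 4 ≤ (q : ℝ) := Nat.ceil_le.1 h
    have h2 : (q : ℝ) ≤ 2 * (q.totient : ℝ) ^ 2 := by exact_mod_cast le_two_totient_sq q
    have h3 : (70 / ε) ^ 2 ≤ (q.totient : ℝ) := by
      refine (abs_le_of_sq_le_sq' ?_ hφ.le).2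
      rw [← pow_mul]
      linarith
    have h4 : 70 / ε ≤ √(q.totient : ℝ) := Real.le_sqrt_of_sq_le h3
    rw [div_le_iff₀ hε] at h4
    have h5 : ‖∑ m ∈ Ioc ⌊a⌋₊ ⌊b⌋₊, lam m / m * ee (τ * Real.log m) * cchi χ m‖ ≤
        ∑ m ∈ Ioc ⌊a⌋₊ ⌊b⌋₊, ‖cchi χ m‖ / m := by
      refine (norm_sum_le _ _).trans (sum_le_sum fun m _ => ?_)
      rw [norm_mul, norm_mul, norm_ee, norm_div, Complex.norm_natCast, mul_one, div_mul_eq_mul_div]
      exact div_le_div_of_nonneg_right (mul_le_of_le_one_left (norm_nonneg _) (norm_lam_le m))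
        (Nat.cast_nonneg _)
    refine h5.trans ((fa χ hqa hab hb).trans ?_)
    have h6 := Real.mul_self_sqrt hφ.le
    calc 70 * √(q.totient : ℝ) ≤ √(q.totient : ℝ) * ε * √(q.totient : ℝ) :=
          mul_le_mul_of_nonneg_right h4 (Real.sqrt_nonneg _)
      _ = ε * (√(q.totient : ℝ) * √(q.totient : ℝ)) := by ring
      _ = _ := by rw [h6]

end Pool.Agent.P.MP_a9a441_nt.FU
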