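import Pool.Agent.P.MP_a9a441_nt.FU.PC

/-!
The weight: size, support and factorisation. `gg_le`: if gg m ≠ 0 then 0 < m ≤ 64 M ≤ 2^(K i₀);
the sum counts pairs of primes ≥ 2^i₀ dividing m (m' is determined, `Pj_disj` or `sum_Pj_eq`), and
at most K such primes divide m. `gg_sum`: p₁ p₂ m' always lies in `Ms M`. `gg_eq`: for
M < m ≤ 16 M the condition on the cofactor is void.
-/

namespace Pool.Agent.P.MP_a9a441_nt.FU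

open Finset Filter Pool.Agent.Lib.LargeSieve
open scoped ComplexConjugate

namespace G1Aux

theorem mem_cut {M : ℝ} (hM : 0 ≤ M) {j₁ j₂ k : ℕ} :
    k ∈ cut M j₁ j₂ ↔ M < 4 * 2 ^ (j₁ + j₂) * (k : ℝ) ∧ 2 ^ (j₁ + j₂) * (k : ℝ) ≤ 16 * M := by
  have h2 : (0 : ℝ) < 2 ^ (j₁ + j₂) := by positivity
  unfold cut
  rw [mem_Ioc, Nat.floor_lt (by positivity), Nat.le_floor_iff (by positivity),
    div_lt_iff₀ (by positivity), le_div_iff₀ h2]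
  constructor
  · rintro ⟨a, b⟩
    exact ⟨by linarith, by linarith⟩
  · rintro ⟨a, b⟩
    exact ⟨by linarith, by linarith⟩

theorem pp_bounds {j₁ j₂ p₁ p₂ : ℕ} (h₁ : p₁ ∈ Pj j₁) (h₂ : p₂ ∈ Pj j₂) :
    (2 : ℝ) ^ (j₁ + j₂) ≤ (p₁ : ℝ) * p₂ ∧ (p₁ : ℝ) * p₂ ≤ 4 * 2 ^ (j₁ + j₂) := by
  obtain ⟨-, a1, b1⟩ := mem_Pj.1 h₁
  obtain ⟨-, a2, b2⟩ := mem_Pj.1 h₂
  have a1' : (2 : ℝ) ^ j₁ ≤ p₁ := by exact_mod_cast a1
  have a2' : (2 : ℝ) ^ j₂ ≤ p₂ := by exact_mod_cast a2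
  have b1' : (p₁ : ℝ) ≤ 2 * 2 ^ j₁ := by exact_mod_cast b1.le
  have b2' : (p₂ : ℝ) ≤ 2 * 2 ^ j₂ := by exact_mod_cast b2.le
  rw [pow_add]
  constructor
  · exact mul_le_mul a1' a2' (by positivity) (by positivity)
  · calc (p₁ : ℝ) * p₂ ≤ (2 * 2 ^ j₁) * (2 * 2 ^ j₂) :=
          mul_le_mul b1' b2' (by positivity) (by positivity)
      _ = 4 * (2 ^ j₁ * 2 ^ j₂) := by ring

theorem mem_Ms {M : ℝ} (hM : 0 ≤ M) {m : ℕ} : m ∈ Ms M ↔ M < 4 * (m : ℝ) ∧ (m : ℝ) ≤ 64 * M := by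
  unfold Ms
  rw [mem_Ioc, Nat.floor_lt (by positivity), Nat.le_floor_iff (by positivity),
    div_lt_iff₀ (by positivity)]
  constructor
  · rintro ⟨a, b⟩
    exact ⟨by linarith, b⟩
  · rintro ⟨a, b⟩
    exact ⟨by linarith, b⟩

theorem prod_mem {M : ℝ} (hM : 0 ≤ M) {j₁ j₂ p₁ p₂ k : ℕ} (h₁ : p₁ ∈ Pj j₁) (h₂ : p₂ ∈ Pj j₂)
    (hk : k ∈ cut M j₁ j₂) : p₁ * p₂ * k ∈ Ms M := by
  obtain ⟨a, b⟩ := pp_bounds h₁ h₂
  obtain ⟨c, d⟩ := (mem_cut hM).1 hk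
  have hk0 : (0 : ℝ) ≤ k := Nat.cast_nonneg k
  have e1 := mul_le_mul_of_nonneg_right a hk0
  have e2 := mul_le_mul_of_nonneg_right b hk0
  rw [mem_Ms hM]
  push_cast
  constructor
  · linarith
  · linarith

theorem inner_le (S : Finset ℕ) {a m : ℕ} (ha : 0 < a) :
    ∑ k ∈ S, (if a * k = m then (1 : ℝ) else 0) ≤ if a ∣ m then 1 else 0 := by
  by_cases h : a ∣ m
  · obtain ⟨k₀, rfl⟩ := h
    rw [if_pos (Dvd.intro _ rfl)]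
    have e : ∀ k ∈ S, (if a * k = a * k₀ then (1 : ℝ) else 0) = if k₀ = k then 1 else 0 := by
      intro k _
      by_cases hk : k₀ = k
      · rw [if_pos hk, if_pos (by rw [hk])]
      · rw [if_neg hk, if_neg (fun h => hk (Nat.eq_of_mul_eq_mul_left ha h).symm)]
    rw [sum_congr rfl e, sum_ite_eq]
    split_ifs
    · exact le_rfl
    · exact zero_le_one
  · rw [if_neg h]
    refine le_of_eq (sum_eq_zero fun k _ => if_neg fun hk => h ?_)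
    exact Dvd.intro _ hk

theorem inner_eq {M : ℝ} (hM : 0 ≤ M) {m : ℕ} (hm : m ∈ Ioc ⌊M⌋₊ ⌊16 * M⌋₊) {j₁ j₂ p₁ p₂ : ℕ}
    (h₁ : p₁ ∈ Pj j₁) (h₂ : p₂ ∈ Pj j₂) :
    ∑ k ∈ cut M j₁ j₂, (if p₁ * p₂ * k = m then (1 : ℝ) else 0) =
      if p₁ * p₂ ∣ m then 1 else 0 := by
  have ha : 0 < p₁ * p₂ := Nat.mul_pos (mem_Pj.1 h₁).1.pos (mem_Pj.1 h₂).1.pos
  by_cases h : p₁ * p₂ ∣ m
  · obtain ⟨k₀, rfl⟩ := h
    rw [if_pos (Dvd.intro _ rfl)]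
    rw [mem_Ioc, Nat.floor_lt hM, Nat.le_floor_iff (by positivity)] at hm
    obtain ⟨m1, m2⟩ := hm
    push_cast at m1 m2
    obtain ⟨a, b⟩ := pp_bounds h₁ h₂
    have hk0 : (0 : ℝ) ≤ k₀ := Nat.cast_nonneg k₀
    have e1 := mul_le_mul_of_nonneg_right a hk0
    have e2 := mul_le_mul_of_nonneg_right b hk0
    have hk : k₀ ∈ cut M j₁ j₂ := (mem_cut hM).2 ⟨by linarith, by linarith⟩
    rw [sum_eq_single_of_mem k₀ hk, if_pos rfl]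
    intro k _ hne
    exact if_neg fun h => hne (Nat.eq_of_mul_eq_mul_left ha h)
  · rw [if_neg h]
    refine sum_eq_zero fun k _ => if_neg fun hk => h ?_
    exact Dvd.intro _ hk

theorem four_sum (i₀ i₁ : ℕ) (F : ℕ → ℕ → ℝ) :
    ∑ j₁ ∈ Ico i₀ i₁, ∑ j₂ ∈ Ico i₀ i₁, ∑ p₁ ∈ Pj j₁, ∑ p₂ ∈ Pj j₂, F p₁ p₂ =
      ∑ p₁ ∈ (Ico (2 ^ i₀) (2 ^ i₁)).filter Nat.Prime,
        ∑ p₂ ∈ (Ico (2 ^ i₀) (2 ^ i₁)).filter Nat.Prime, F p₁ p₂ := by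
  rw [← sum_Pj_eq i₀ i₁ fun p₁ => ∑ p₂ ∈ (Ico (2 ^ i₀) (2 ^ i₁)).filter Nat.Prime, F p₁ p₂]
  refine sum_congr rfl fun j₁ _ => ?_
  rw [sum_comm]
  refine sum_congr rfl fun p₁ _ => ?_
  exact sum_Pj_eq i₀ i₁ fun p₂ => F p₁ p₂

theorem count_le {i₀ i₁ K m : ℕ} (hi : 1 ≤ i₀) (hm : 0 < m) (hK : m ≤ 2 ^ (K * i₀)) :
    ∑ p ∈ (Ico (2 ^ i₀) (2 ^ i₁)).filter Nat.Prime, (if p ∣ m then (1 : ℝ) else 0) ≤ K := by
  rw [sum_boole]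
  set T := ((Ico (2 ^ i₀) (2 ^ i₁)).filter Nat.Prime).filter (fun p => p ∣ m) with hT
  have hmem : ∀ p ∈ T, p.Prime ∧ 2 ^ i₀ ≤ p ∧ p ∣ m := by
    intro p hp
    rw [hT, mem_filter, mem_filter, mem_Ico] at hp
    exact ⟨hp.1.2, hp.1.1.1, hp.2⟩
  have hd : ∏ p ∈ T, p ∣ m :=
    Finset.prod_primes_dvd m (fun p hp => (hmem p hp).1.prime) (fun p hp => (hmem p hp).2.2)
  have h1 : (2 ^ i₀) ^ T.card ≤ ∏ p ∈ T, p :=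
    Finset.pow_card_le_prod T (fun p => p) _ fun p hp => (hmem p hp).2.1
  have h2 : 2 ^ (T.card * i₀) ≤ 2 ^ (K * i₀) := by
    rw [mul_comm T.card, pow_mul]
    exact h1.trans ((Nat.le_of_dvd hm hd).trans hK)
  have h3 : T.card * i₀ ≤ K * i₀ := (Nat.pow_le_pow_iff_right (by norm_num)).1 h2
  have h4 : T.card ≤ K := Nat.le_of_mul_le_mul_right h3 hi
  exact_mod_cast h4

end G1Aux

open G1Aux

theorem gg_nonneg (i₀ i₁ : ℕ) (M : ℝ) (m : ℕ) : 0 ≤ gg i₀ i₁ M m := by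
  unfold gg
  refine mul_nonneg (inv_nonneg.2 (sq_nonneg _)) ?_
  refine sum_nonneg fun _ _ => sum_nonneg fun _ _ => sum_nonneg fun _ _ => sum_nonneg fun _ _ =>
    sum_nonneg fun _ _ => ?_
  split_ifs
  · exact zero_le_one
  · exact le_rfl

theorem gg_le {i₀ i₁ K : ℕ} {M : ℝ} (hi : 1 ≤ i₀) (hL : 1 ≤ LL i₀ i₁) (hM0 : 0 ≤ M)
    (hM : 64 * M ≤ 2 ^ (K * i₀)) (m : ℕ) : gg i₀ i₁ M m ≤ (K : ℝ) ^ 2 := by
  by_cases hm : m ∈ Ms M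
  · obtain ⟨m1, m2⟩ := (mem_Ms hM0).1 hm
    have hm0 : 0 < m := by
      have : (0 : ℝ) < m := by linarith
      exact_mod_cast this
    have hK : m ≤ 2 ^ (K * i₀) := by
      have : (m : ℝ) ≤ 2 ^ (K * i₀) := m2.trans hM
      exact_mod_cast this
    have hc := count_le (i₁ := i₁) hi hm0 hK
    have hc0 : 0 ≤ ∑ p ∈ (Ico (2 ^ i₀) (2 ^ i₁)).filter Nat.Prime,
        (if p ∣ m then (1 : ℝ) else 0) := by
      refine sum_nonneg fun _ _ => ?_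
      split_ifs
      · exact zero_le_one
      · exact le_rfl
    have hinv : (LL i₀ i₁ ^ 2)⁻¹ ≤ 1 := inv_le_one_of_one_le₀ (one_le_pow₀ hL)
    have hS : ∑ j₁ ∈ Ico i₀ i₁, ∑ j₂ ∈ Ico i₀ i₁, ∑ p₁ ∈ Pj j₁, ∑ p₂ ∈ Pj j₂,
        ∑ m' ∈ cut M j₁ j₂, (if p₁ * p₂ * m' = m then (1 : ℝ) else 0) ≤ (K : ℝ) ^ 2 := by
      calc _ ≤ ∑ j₁ ∈ Ico i₀ i₁, ∑ j₂ ∈ Ico i₀ i₁, ∑ p₁ ∈ Pj j₁, ∑ p₂ ∈ Pj j₂,
            (if p₁ ∣ m then (1 : ℝ) else 0) * (if p₂ ∣ m then (1 : ℝ) else 0) := by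
            refine sum_le_sum fun j₁ _ => sum_le_sum fun j₂ _ => sum_le_sum fun p₁ h₁ =>
              sum_le_sum fun p₂ h₂ => ?_
            have ha : 0 < p₁ * p₂ := Nat.mul_pos (mem_Pj.1 h₁).1.pos (mem_Pj.1 h₂).1.pos
            refine (inner_le _ ha).trans ?_
            by_cases h : p₁ * p₂ ∣ m
            · rw [if_pos h, if_pos ((Dvd.intro _ rfl).trans h),
                if_pos ((Dvd.intro_left _ rfl).trans h), mul_one]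
            · rw [if_neg h]
              split_ifs <;> norm_num
        _ = (∑ p ∈ (Ico (2 ^ i₀) (2 ^ i₁)).filter Nat.Prime,
              (if p ∣ m then (1 : ℝ) else 0)) ^ 2 := by
            rw [four_sum i₀ i₁ fun p₁ p₂ =>
              (if p₁ ∣ m then (1 : ℝ) else 0) * (if p₂ ∣ m then (1 : ℝ) else 0), sq, sum_mul_sum]
        _ ≤ (K : ℝ) ^ 2 := pow_le_pow_left₀ hc0 hc 2
    unfold gg
    calc _ ≤ (LL i₀ i₁ ^ 2)⁻¹ * (K : ℝ) ^ 2 :=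
          mul_le_mul_of_nonneg_left hS (inv_nonneg.2 (sq_nonneg _))
      _ ≤ 1 * (K : ℝ) ^ 2 := mul_le_mul_of_nonneg_right hinv (sq_nonneg _)
      _ = _ := one_mul _
  · have h0 : gg i₀ i₁ M m = 0 := by
      unfold gg
      refine mul_eq_zero_of_right _ ?_
      refine sum_eq_zero fun j₁ _ => sum_eq_zero fun j₂ _ => sum_eq_zero fun p₁ h₁ =>
        sum_eq_zero fun p₂ h₂ => sum_eq_zero fun k hk => if_neg fun h => hm ?_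
      rw [← h]
      exact prod_mem hM0 h₁ h₂ hk
    rw [h0]
    exact sq_nonneg _

theorem gg_sum (i₀ i₁ : ℕ) {M : ℝ} (hM : 0 ≤ M) (f : ℕ → ℂ) :
    ∑ m ∈ Ms M, (gg i₀ i₁ M m : ℂ) * f m = ((LL i₀ i₁ ^ 2)⁻¹ : ℝ) *
      ∑ j₁ ∈ Ico i₀ i₁, ∑ j₂ ∈ Ico i₀ i₁, ∑ p₁ ∈ Pj j₁, ∑ p₂ ∈ Pj j₂,
        ∑ m' ∈ cut M j₁ j₂, f (p₁ * p₂ * m') := by
  have e : ∀ m ∈ Ms M, (gg i₀ i₁ M m : ℂ) * f m = ((LL i₀ i₁ ^ 2)⁻¹ : ℝ) *
      ∑ j₁ ∈ Ico i₀ i₁, ∑ j₂ ∈ Ico i₀ i₁, ∑ p₁ ∈ Pj j₁, ∑ p₂ ∈ Pj j₂,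
        ∑ m' ∈ cut M j₁ j₂, if p₁ * p₂ * m' = m then f m else 0 := by
    intro m _
    unfold gg
    rw [Complex.ofReal_mul, mul_assoc]
    refine congrArg _ ?_
    simp only [Complex.ofReal_sum, sum_mul]
    refine sum_congr rfl fun _ _ => sum_congr rfl fun _ _ => sum_congr rfl fun _ _ =>
      sum_congr rfl fun _ _ => sum_congr rfl fun _ _ => ?_
    split_ifs
    · rw [Complex.ofReal_one, one_mul]
    · rw [Complex.ofReal_zero, zero_mul]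
  rw [sum_congr rfl e, ← mul_sum]
  refine congrArg _ ?_
  rw [sum_comm]
  refine sum_congr rfl fun j₁ _ => ?_
  rw [sum_comm]
  refine sum_congr rfl fun j₂ _ => ?_
  rw [sum_comm]
  refine sum_congr rfl fun p₁ h₁ => ?_
  rw [sum_comm]
  refine sum_congr rfl fun p₂ h₂ => ?_
  rw [sum_comm]
  refine sum_congr rfl fun k hk => ?_
  rw [sum_ite_eq, if_pos (prod_mem hM h₁ h₂ hk)]

theorem gg_eq (i₀ i₁ : ℕ) {M : ℝ} (hM : 0 ≤ M) {m : ℕ} (hm : m ∈ Ioc ⌊M⌋₊ ⌊16 * M⌋₊) :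
    gg i₀ i₁ M m = (LL i₀ i₁ ^ 2)⁻¹ *
      ∑ p₁ ∈ (Ico (2 ^ i₀) (2 ^ i₁)).filter Nat.Prime,
        ∑ p₂ ∈ (Ico (2 ^ i₀) (2 ^ i₁)).filter Nat.Prime, if p₁ * p₂ ∣ m then (1 : ℝ) else 0 := by
  unfold gg
  refine congrArg _ ?_
  rw [← four_sum i₀ i₁ fun p₁ p₂ => if p₁ * p₂ ∣ m then (1 : ℝ) else 0]
  exact sum_congr rfl fun _ _ => sum_congr rfl fun _ _ => sum_congr rfl fun _ h₁ =>
    sum_congr rfl fun _ h₂ => inner_eq hM hm h₁ h₂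

end Pool.Agent.P.MP_a9a441_nt.FU
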