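import Pool.Agent.P.MP_a9a441_nt.FU.G1

/-!
The weight is close to one on average. `tk_var`: expand the square; the number of multiples of d
in an interval I is card I / d + O(1). `tk_l1`: Cauchy-Schwarz, card ≤ 16 a, card Q ^ 2 ≤ a ≤ a L.
`gg_near`: with ω n = number of primes of Q dividing n, gg m = L⁻¹ ∑_{p ∣ m} ω (m / p) / L, so
|gg m - 1| ≤ L⁻¹ ∑_{p ∣ m} |ω (m / p) / L - 1| + |ω m / L - 1|; use `tk_l1` at M / p and at M.
-/

namespace Pool.Agent.P.MP_a9a441_nt.FU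

open Finset Filter Pool.Agent.Lib.LargeSieve
open scoped ComplexConjugate

namespace G3Aux

theorem div_bd (v : ℕ) {d : ℕ} (hd : 0 < d) :
    (v : ℝ) / d - 1 ≤ ((v / d : ℕ) : ℝ) ∧ ((v / d : ℕ) : ℝ) ≤ (v : ℝ) / d := by
  refine ⟨?_, Nat.cast_div_le⟩
  have h0 : (0 : ℝ) < d := by exact_mod_cast hd
  have h1 : v < d * (v / d + 1) := Nat.lt_mul_div_succ v hd
  have h2 : (v : ℝ) < d * (((v / d : ℕ) : ℝ) + 1) := by exact_mod_cast h1
  rw [sub_le_iff_le_add, div_le_iff₀ h0]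
  linarith

theorem cnt (u v : ℕ) {d : ℕ} (hd : 0 < d) :
    |(∑ n ∈ Ioc u v, if d ∣ n then (1 : ℝ) else 0) - (Ioc u v).card / d| ≤ 1 := by
  rcases le_total v u with h | h
  · rw [Ioc_eq_empty_of_le h]
    simp
  have h1 : ∀ w : ℕ, (∑ n ∈ Ioc 0 w, if d ∣ n then (1 : ℝ) else 0) = ((w / d : ℕ) : ℝ) := by
    intro w
    rw [← Nat.Ioc_filter_dvd_card_eq_div, card_filter]
    push_cast
    rfl
  have h2 := sum_Ioc_consecutive (fun n => if d ∣ n then (1 : ℝ) else 0) (Nat.zero_le u) h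
  rw [h1, h1] at h2
  obtain ⟨a1, a2⟩ := div_bd u hd
  obtain ⟨b1, b2⟩ := div_bd v hd
  rw [Nat.card_Ioc, Nat.cast_sub h, sub_div, abs_le]
  constructor <;> linarith

theorem pair (u v : ℕ) {p q : ℕ} (hp : p.Prime) (hq : q.Prime) :
    ∑ n ∈ Ioc u v, ((if p ∣ n then (1 : ℝ) else 0) - 1 / p) *
      ((if q ∣ n then (1 : ℝ) else 0) - 1 / q) ≤
      (if p = q then ((Ioc u v).card : ℝ) * (1 / p) else 0) + 4 := by
  have p2 : (2 : ℝ) ≤ p := by exact_mod_cast hp.two_le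
  have q2 : (2 : ℝ) ≤ q := by exact_mod_cast hq.two_le
  have hp0 : (0 : ℝ) < 1 / p := by positivity
  have hq0 : (0 : ℝ) < 1 / q := by positivity
  have hp1 : (1 : ℝ) / p ≤ 1 / 2 := one_div_le_one_div_of_le (by norm_num) p2
  have hq1 : (1 : ℝ) / q ≤ 1 / 2 := one_div_le_one_div_of_le (by norm_num) q2
  have c1 := abs_le.1 (cnt u v hp.pos)
  have c2 := abs_le.1 (cnt u v hq.pos)
  have hN : (0 : ℝ) ≤ (Ioc u v).card := Nat.cast_nonneg _
  rw [div_eq_mul_one_div] at c1 c2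
  split_ifs with h
  · subst h
    have e : ∑ n ∈ Ioc u v, ((if p ∣ n then (1 : ℝ) else 0) - 1 / p) *
        ((if p ∣ n then (1 : ℝ) else 0) - 1 / p) =
        (∑ n ∈ Ioc u v, if p ∣ n then (1 : ℝ) else 0) * (1 - 2 * (1 / p)) +
          (Ioc u v).card * (1 / p) ^ 2 := by
      rw [sum_mul, ← nsmul_eq_mul, ← sum_const, ← sum_add_distrib]
      refine sum_congr rfl fun n _ => ?_
      split_ifs <;> ring
    rw [e]
    have h3 : (0 : ℝ) ≤ 1 - 2 * (1 / p) := by linarith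
    have h4 := mul_le_mul_of_nonneg_right
      (show (∑ n ∈ Ioc u v, if p ∣ n then (1 : ℝ) else 0) ≤ (Ioc u v).card * (1 / p) + 1 by
        linarith [c1.2]) h3
    nlinarith [mul_nonneg hN (sq_nonneg ((1 : ℝ) / p))]
  · have hc : p.Coprime q := (Nat.coprime_primes hp hq).2 h
    have c3 := abs_le.1 (cnt u v (Nat.mul_pos hp.pos hq.pos))
    have e0 : ((Ioc u v).card : ℝ) / ((p * q : ℕ) : ℝ) = (Ioc u v).card * ((1 / p) * (1 / q)) := by
      push_cast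
      field_simp
    rw [e0] at c3
    have e : ∑ n ∈ Ioc u v, ((if p ∣ n then (1 : ℝ) else 0) - 1 / p) *
        ((if q ∣ n then (1 : ℝ) else 0) - 1 / q) =
        (∑ n ∈ Ioc u v, if p * q ∣ n then (1 : ℝ) else 0) -
          (∑ n ∈ Ioc u v, if p ∣ n then (1 : ℝ) else 0) * (1 / q) -
          (∑ n ∈ Ioc u v, if q ∣ n then (1 : ℝ) else 0) * (1 / p) +
          (Ioc u v).card * ((1 / p) * (1 / q)) := by
      rw [sum_mul, sum_mul, ← nsmul_eq_mul, ← sum_const, ← sum_sub_distrib, ← sum_sub_distrib,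
        ← sum_add_distrib]
      refine sum_congr rfl fun n _ => ?_
      by_cases h1 : p ∣ n <;> by_cases h2 : q ∣ n
      · rw [if_pos (hc.mul_dvd_of_dvd_of_dvd h1 h2), if_pos h1, if_pos h2]; ring
      · rw [if_neg fun h => h2 (dvd_of_mul_left_dvd h), if_pos h1, if_neg h2]; ring
      · rw [if_neg fun h => h1 (dvd_of_mul_right_dvd h), if_neg h1, if_pos h2]; ring
      · rw [if_neg fun h => h1 (dvd_of_mul_right_dvd h), if_neg h1, if_neg h2]; ring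
    rw [e]
    have h4 := mul_le_mul_of_nonneg_right
      (show (Ioc u v).card * (1 / p) - 1 ≤ (∑ n ∈ Ioc u v, if p ∣ n then (1 : ℝ) else 0) by
        linarith [c1.1]) hq0.le
    have h5 := mul_le_mul_of_nonneg_right
      (show (Ioc u v).card * (1 / q) - 1 ≤ (∑ n ∈ Ioc u v, if q ∣ n then (1 : ℝ) else 0) by
        linarith [c2.1]) hp0.le
    nlinarith [c3.2]

end G3Aux

theorem tk_var {Q : Finset ℕ} (hQ : ∀ p ∈ Q, p.Prime) (u v : ℕ) :
    ∑ n ∈ Ioc u v, (((Q.filter fun p => p ∣ n).card : ℝ) - ∑ p ∈ Q, (1 : ℝ) / p) ^ 2 ≤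
      (Ioc u v).card * ∑ p ∈ Q, (1 : ℝ) / p + 4 * (Q.card : ℝ) ^ 2 := by
  have e : ∀ n : ℕ, (((Q.filter fun p => p ∣ n).card : ℝ) - ∑ p ∈ Q, (1 : ℝ) / p) ^ 2 =
      ∑ p ∈ Q, ∑ q ∈ Q, ((if p ∣ n then (1 : ℝ) else 0) - 1 / p) *
        ((if q ∣ n then (1 : ℝ) else 0) - 1 / q) := by
    intro n
    rw [← sum_mul_sum, card_filter, sq, sum_sub_distrib]
    push_cast
    rfl
  simp only [e]
  rw [sum_comm]
  calc ∑ p ∈ Q, ∑ n ∈ Ioc u v, ∑ q ∈ Q, ((if p ∣ n then (1 : ℝ) else 0) - 1 / p) *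
        ((if q ∣ n then (1 : ℝ) else 0) - 1 / q)
      ≤ ∑ p ∈ Q, ∑ q ∈ Q, ((if p = q then ((Ioc u v).card : ℝ) * (1 / p) else 0) + 4) := by
        refine sum_le_sum fun p hp => ?_
        rw [sum_comm]
        exact sum_le_sum fun q hq => G3Aux.pair u v (hQ p hp) (hQ q hq)
    _ = ∑ p ∈ Q, (((Ioc u v).card : ℝ) * (1 / p) + 4 * Q.card) := by
        refine sum_congr rfl fun p hp => ?_
        rw [sum_add_distrib, sum_ite_eq, if_pos hp, sum_const, nsmul_eq_mul, mul_comm _ (4 : ℝ)]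
    _ = _ := by
        rw [sum_add_distrib, ← mul_sum, sum_const, nsmul_eq_mul]
        ring

theorem tk_l1 {Q : Finset ℕ} (hQ : ∀ p ∈ Q, p.Prime) (hL : 1 ≤ ∑ p ∈ Q, (1 : ℝ) / p) {a : ℝ}
    (ha : (Q.card : ℝ) ^ 2 ≤ a) :
    ∑ n ∈ Ioc ⌊a⌋₊ ⌊16 * a⌋₊,
      |((Q.filter fun p => p ∣ n).card : ℝ) / (∑ p ∈ Q, (1 : ℝ) / p) - 1| / n ≤
      20 / √(∑ p ∈ Q, (1 : ℝ) / p) := by
  have hv := tk_var hQ ⌊a⌋₊ ⌊16 * a⌋₊
  set L := ∑ p ∈ Q, (1 : ℝ) / p with hLd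
  have hne : Q.Nonempty := by
    rcases Q.eq_empty_or_nonempty with h | h
    · rw [hLd, h, sum_empty] at hL
      norm_num at hL
    · exact h
  have hc : (1 : ℝ) ≤ Q.card := by exact_mod_cast hne.card_pos
  have ha1 : 1 ≤ a := by nlinarith
  have hL0 : 0 < L := by linarith
  have hN : ((Ioc ⌊a⌋₊ ⌊16 * a⌋₊).card : ℝ) ≤ 16 * a := by
    rw [Nat.card_Ioc]
    calc ((⌊16 * a⌋₊ - ⌊a⌋₊ : ℕ) : ℝ) ≤ (⌊16 * a⌋₊ : ℝ) := by exact_mod_cast Nat.sub_le _ _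
      _ ≤ 16 * a := Nat.floor_le (by linarith)
  have hN0 : (0 : ℝ) ≤ (Ioc ⌊a⌋₊ ⌊16 * a⌋₊).card := Nat.cast_nonneg _
  set T := ∑ n ∈ Ioc ⌊a⌋₊ ⌊16 * a⌋₊, |((Q.filter fun p => p ∣ n).card : ℝ) - L| with hT
  have hs : 0 < √L := Real.sqrt_pos.2 hL0
  have hss : √L * √L = L := Real.mul_self_sqrt hL0.le
  have h1 : T ^ 2 ≤ (20 * a * √L) ^ 2 := by
    have h2 := sq_sum_le_card_mul_sum_sq (s := Ioc ⌊a⌋₊ ⌊16 * a⌋₊)
      (f := fun n => |((Q.filter fun p => p ∣ n).card : ℝ) - L|)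
    simp only [sq_abs] at h2
    have h3 : ((Ioc ⌊a⌋₊ ⌊16 * a⌋₊).card : ℝ) * L + 4 * (Q.card : ℝ) ^ 2 ≤ 20 * a * L := by
      nlinarith [mul_le_mul_of_nonneg_right hN hL0.le]
    have h4 : T ^ 2 ≤ (16 * a) * (20 * a * L) :=
      h2.trans (mul_le_mul hN (hv.trans h3) (sum_nonneg fun _ _ => sq_nonneg _) (by linarith))
    have h5 : (20 * a * √L) ^ 2 = 400 * a ^ 2 * L := by
      rw [mul_pow, Real.sq_sqrt hL0.le]; ring
    rw [h5]
    nlinarith [mul_nonneg (sq_nonneg a) hL0.le]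
  have h2 : T ≤ 20 * a * √L := abs_le_of_sq_le_sq' h1 (by positivity) |>.2
  calc _ ≤ ∑ n ∈ Ioc ⌊a⌋₊ ⌊16 * a⌋₊, |((Q.filter fun p => p ∣ n).card : ℝ) - L| / (L * a) := by
        refine sum_le_sum fun n hn => ?_
        have h3 : a ≤ n := (Nat.lt_of_floor_lt (mem_Ioc.1 hn).1).le
        rw [div_sub_one hL0.ne', abs_div, abs_of_pos hL0, div_div]
        gcongr
    _ = T / (L * a) := by rw [hT, sum_div]
    _ ≤ 20 * a * √L / (L * a) := by gcongr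
    _ = 20 / √L := by
        rw [div_eq_div_iff (by positivity) hs.ne']
        nlinarith

theorem gg_near {i₀ i₁ : ℕ} {M : ℝ} (hL : 1 ≤ LL i₀ i₁) (hM : (2 : ℝ) ^ (3 * i₁) ≤ M) :
    ∑ m ∈ Ioc ⌊M⌋₊ ⌊16 * M⌋₊, |gg i₀ i₁ M m - 1| / m ≤ 40 / √(LL i₀ i₁) := by
  set Q := (Ico (2 ^ i₀) (2 ^ i₁)).filter Nat.Prime with hQd
  have hQ : ∀ p ∈ Q, p.Prime := fun p hp => (mem_filter.1 hp).2
  have hLe : LL i₀ i₁ = ∑ p ∈ Q, (1 : ℝ) / p := sum_Pj_eq i₀ i₁ _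
  have hM0 : 0 ≤ M := le_trans (by positivity) hM
  have hc : (Q.card : ℝ) ≤ 2 ^ i₁ := by
    have : Q.card ≤ 2 ^ i₁ := by
      refine (card_filter_le _ _).trans ?_
      rw [Nat.card_Ico]
      exact Nat.sub_le _ _
    exact_mod_cast this
  have hc2 : (Q.card : ℝ) ^ 2 * 2 ^ i₁ ≤ M := by
    refine le_trans ?_ hM
    calc (Q.card : ℝ) ^ 2 * 2 ^ i₁ ≤ (2 ^ i₁) ^ 2 * 2 ^ i₁ := by gcongr
      _ = 2 ^ (3 * i₁) := by ring
  have h21 : (1 : ℝ) ≤ 2 ^ i₁ := one_le_pow₀ (by norm_num)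
  have hcM : (Q.card : ℝ) ^ 2 ≤ M := by nlinarith [sq_nonneg (Q.card : ℝ)]
  have hcp : ∀ p ∈ Q, (Q.card : ℝ) ^ 2 ≤ M / p := by
    intro p hp
    have h1 : (0 : ℝ) < p := by exact_mod_cast (hQ p hp).pos
    have h2 : (p : ℝ) ≤ 2 ^ i₁ := by exact_mod_cast (mem_Ico.1 (mem_filter.1 hp).1).2.le
    rw [le_div_iff₀ h1]
    exact le_trans (by gcongr) hc2
  set L := LL i₀ i₁ with hLd
  have hL0 : 0 < L := by linarith
  set D : ℕ → ℝ := fun n => ((Q.filter fun p => p ∣ n).card : ℝ) / L - 1 with hD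
  have t1 : ∀ a : ℝ, (Q.card : ℝ) ^ 2 ≤ a → ∑ n ∈ Ioc ⌊a⌋₊ ⌊16 * a⌋₊, |D n| / n ≤ 20 / √L := by
    intro a ha
    have := tk_l1 hQ (hLe ▸ hL) ha
    rw [← hLe] at this
    exact this
  have e : ∀ m ∈ Ioc ⌊M⌋₊ ⌊16 * M⌋₊, gg i₀ i₁ M m - 1 =
      L⁻¹ * (∑ p ∈ Q, if p ∣ m then D (m / p) else 0) + D m := by
    intro m hm
    rw [gg_eq i₀ i₁ hM0 hm, ← hQd, ← hLd]
    have e1 : ∀ p ∈ Q, (∑ p₂ ∈ Q, if p * p₂ ∣ m then (1 : ℝ) else 0) =
        L * (if p ∣ m then D (m / p) else 0) + L * (if p ∣ m then (1 : ℝ) else 0) := by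
      intro p hp
      by_cases h : p ∣ m
      · rw [if_pos h, if_pos h, hD]
        simp only [card_filter, Nat.dvd_div_iff_mul_dvd h]
        push_cast
        field_simp
        ring
      · rw [if_neg h, if_neg h, sum_eq_zero fun q _ => if_neg fun h' => h (dvd_of_mul_right_dvd h')]
        ring
    rw [sum_congr rfl e1, sum_add_distrib, ← mul_sum, ← mul_sum, hD]
    simp only [card_filter]
    push_cast
    field_simp
    ring
  have t2 : ∀ p ∈ Q, ∑ m ∈ Ioc ⌊M⌋₊ ⌊16 * M⌋₊, (if p ∣ m then |D (m / p)| / m else 0) ≤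
      1 / p * (20 / √L) := by
    intro p hp
    have hp0 := (hQ p hp).pos
    have h1 : (0 : ℝ) < p := by exact_mod_cast hp0
    rw [← sum_filter]
    refine le_trans ?_ (mul_le_mul_of_nonneg_left (t1 _ (hcp p hp)) (by positivity))
    rw [mul_sum]
    have hsub : (Ioc ⌊M⌋₊ ⌊16 * M⌋₊).filter (fun m => p ∣ m) ⊆
        (Ioc ⌊M / p⌋₊ ⌊16 * (M / p)⌋₊).image fun n => p * n := by
      intro m hm
      obtain ⟨hm, n, rfl⟩ := mem_filter.1 hm
      obtain ⟨h2, h3⟩ := mem_Ioc.1 hm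
      have h4 : M < ((p * n : ℕ) : ℝ) := Nat.lt_of_floor_lt h2
      have h5 : ((p * n : ℕ) : ℝ) ≤ 16 * M := (Nat.le_floor_iff (by linarith)).1 h3
      push_cast at h4 h5
      refine mem_image.2 ⟨n, mem_Ioc.2 ⟨?_, ?_⟩, rfl⟩
      · rw [Nat.floor_lt (by positivity), div_lt_iff₀ h1]
        linarith
      · refine Nat.le_floor ?_
        rw [← mul_div_assoc, le_div_iff₀ h1]
        linarith
    refine (sum_le_sum_of_subset_of_nonneg hsub fun _ _ _ => by positivity).trans ?_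
    rw [sum_image fun a _ b _ h => Nat.eq_of_mul_eq_mul_left hp0 h]
    refine sum_le_sum fun n _ => le_of_eq ?_
    rw [Nat.mul_div_cancel_left _ hp0]
    push_cast
    rw [div_mul_div_comm, one_mul]
  calc _ ≤ ∑ m ∈ Ioc ⌊M⌋₊ ⌊16 * M⌋₊,
        (L⁻¹ * (∑ p ∈ Q, if p ∣ m then |D (m / p)| / m else 0) + |D m| / m) := by
        refine sum_le_sum fun m hm => ?_
        rw [e m hm]
        have h1 : |∑ p ∈ Q, if p ∣ m then D (m / p) else 0| ≤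
            ∑ p ∈ Q, if p ∣ m then |D (m / p)| else 0 := by
          refine (abs_sum_le_sum_abs _ _).trans (sum_le_sum fun p _ => ?_)
          split_ifs <;> simp
        have h2 : (∑ p ∈ Q, if p ∣ m then |D (m / p)| / m else 0) =
            (∑ p ∈ Q, if p ∣ m then |D (m / p)| else 0) / m := by
          rw [sum_div]
          refine sum_congr rfl fun p _ => ?_
          split_ifs <;> simp
        rw [h2, ← mul_div_assoc, ← add_div]
        refine div_le_div_of_nonneg_right ((abs_add_le _ _).trans ?_) (Nat.cast_nonneg _)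
        rw [abs_mul, abs_of_pos (inv_pos.2 hL0)]
        gcongr
    _ = L⁻¹ * (∑ p ∈ Q, ∑ m ∈ Ioc ⌊M⌋₊ ⌊16 * M⌋₊, if p ∣ m then |D (m / p)| / m else 0) +
        ∑ m ∈ Ioc ⌊M⌋₊ ⌊16 * M⌋₊, |D m| / m := by
        rw [sum_add_distrib, ← mul_sum, sum_comm]
    _ ≤ L⁻¹ * (∑ p ∈ Q, 1 / p * (20 / √L)) + 20 / √L := by
        have := t1 M hcM
        have := sum_le_sum t2
        gcongr
    _ = 40 / √L := by
        rw [← sum_mul, ← hLe]
        field_simp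
        norm_num

end Pool.Agent.P.MP_a9a441_nt.FU
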