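import Pool.Agent.P.MP_a9a441_nt.FU.G1
import Pool.Agent.P.MP_a9a441_nt.FU.FA

/-!
The l¹ bound from the mean square bounds. By `gg_sum`, `lam_mul`, `lam_prime`, `cchi_mul` (primes
above q are prime to q) and `ee_add`, the inner sum equals
L^(-2) ∑ j₁ j₂, P j₁ v * P j₂ v * F j₁ j₂ v; then Cauchy-Schwarz in v.
-/

namespace Pool.Agent.P.MP_a9a441_nt.FU

open Finset Filter Pool.Agent.Lib.LargeSieve
open scoped ComplexConjugate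

namespace G4Aux

theorem term {q : ℕ} [NeZero q] (χ : DirichletCharacter ℂ q) (t : ℝ) {p : ℕ} (hp : p.Prime)
    (hq : q < p) {m : ℕ} (hm : 0 < m) :
    lam (p * m) / (p * m : ℕ) * ee (t * Real.log (p * m : ℕ)) * cchi χ (p * m) =
      -((χ⁻¹ p / p * ee (t * Real.log p)) * (lam m / m * ee (t * Real.log m) * cchi χ m)) := by
  have hc : p.Coprime q := (Nat.coprime_of_lt_prime (NeZero.ne q) hq hp)
  have hp0 : (p : ℝ) ≠ 0 := by exact_mod_cast hp.ne_zero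
  have hm0 : (m : ℝ) ≠ 0 := by exact_mod_cast hm.ne'
  have hl : t * Real.log (p * m : ℕ) = t * Real.log p + t * Real.log m := by
    rw [Nat.cast_mul, Real.log_mul hp0 hm0, mul_add]
  rw [lam_mul, lam_prime hp, cchi_mul χ hc, hl, ee_add, Nat.cast_mul]
  ring

theorem cs {ι : Type*} (V : Finset ι) (a b : ι → ℝ) {C x y : ℝ} (hx : 0 < x) (hy : 0 < y)
    (ha : ∑ v ∈ V, a v ^ 2 ≤ C / x ^ 2) (hb : ∑ v ∈ V, b v ^ 2 ≤ C / y ^ 2) :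
    ∑ v ∈ V, a v * b v ≤ C * (1 / x * (1 / y)) := by
  have h1 : ∀ v ∈ V, a v * b v ≤ x / y / 2 * a v ^ 2 + y / x / 2 * b v ^ 2 := by
    intro v _
    have e : x / y / 2 * a v ^ 2 + y / x / 2 * b v ^ 2 - a v * b v =
        (x * a v - y * b v) ^ 2 / (2 * x * y) := by
      field_simp
      ring
    have : 0 ≤ (x * a v - y * b v) ^ 2 / (2 * x * y) := by positivity
    linarith
  refine (sum_le_sum h1).trans ?_
  rw [sum_add_distrib, ← mul_sum, ← mul_sum]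
  have h2 := mul_le_mul_of_nonneg_left ha (by positivity : 0 ≤ x / y / 2)
  have h3 := mul_le_mul_of_nonneg_left hb (by positivity : 0 ≤ y / x / 2)
  have e : x / y / 2 * (C / x ^ 2) + y / x / 2 * (C / y ^ 2) = C * (1 / x * (1 / y)) := by
    field_simp
    ring
  linarith

theorem inner {i₀ i₁ q : ℕ} [NeZero q] {M : ℝ} (hM : 0 ≤ M) (hq : q < 2 ^ i₀)
    (χ : DirichletCharacter ℂ q) (t : ℝ) :
    ∑ m ∈ Ms M, (gg i₀ i₁ M m : ℂ) * lam m / m * ee (t * Real.log m) * cchi χ m =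
      ((LL i₀ i₁ ^ 2)⁻¹ : ℝ) * ∑ j₁ ∈ Ico i₀ i₁, ∑ j₂ ∈ Ico i₀ i₁,
        (∑ p ∈ Pj j₁, χ⁻¹ p / p * ee (t * Real.log p)) *
        ((∑ p ∈ Pj j₂, χ⁻¹ p / p * ee (t * Real.log p)) *
        ∑ m ∈ cut M j₁ j₂, lam m / m * ee (t * Real.log m) * cchi χ m) := by
  have h := gg_sum i₀ i₁ hM fun m => lam m / m * ee (t * Real.log m) * cchi χ m
  have e : ∑ m ∈ Ms M, (gg i₀ i₁ M m : ℂ) * lam m / m * ee (t * Real.log m) * cchi χ m =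
      ∑ m ∈ Ms M, (gg i₀ i₁ M m : ℂ) * (lam m / m * ee (t * Real.log m) * cchi χ m) :=
    sum_congr rfl fun m _ => by ring
  rw [e, h]
  congr 1
  refine sum_congr rfl fun j₁ h₁ => sum_congr rfl fun j₂ h₂ => ?_
  rw [sum_mul]
  refine sum_congr rfl fun p₁ hp₁ => ?_
  rw [sum_mul, mul_sum]
  refine sum_congr rfl fun p₂ hp₂ => ?_
  rw [mul_sum, mul_sum]
  refine sum_congr rfl fun m hm => ?_
  obtain ⟨a1, b1, -⟩ := mem_Pj.1 hp₁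
  obtain ⟨a2, b2, -⟩ := mem_Pj.1 hp₂
  have c1 : q < p₁ :=
    hq.trans_le ((Nat.pow_le_pow_right (by norm_num) (mem_Ico.1 h₁).1).trans b1)
  have c2 : q < p₂ :=
    hq.trans_le ((Nat.pow_le_pow_right (by norm_num) (mem_Ico.1 h₂).1).trans b2)
  have hm0 : 0 < m := lt_of_le_of_lt (Nat.zero_le _) (mem_Ioc.1 hm).1
  rw [mul_assoc p₁, term χ t a1 c1 (Nat.mul_pos a2.pos hm0), term χ t a2 c2 hm0]
  ring

end G4Aux

theorem g4 {i₀ i₁ q : ℕ} [NeZero q] {M T C ε : ℝ} (hM : 0 ≤ M) (hi : 1 ≤ i₀) (hq : q < 2 ^ i₀)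
    (hC : 0 ≤ C) (hε : 0 ≤ ε) (hL : 0 < LL i₀ i₁)
    (hs : ∑ j ∈ Ico i₀ i₁, (1 : ℝ) / j ≤ 4 * LL i₀ i₁)
    (V : Finset (ℤ × DirichletCharacter ℂ q))
    (hP : ∀ j ∈ Ico i₀ i₁,
      ∑ v ∈ V, ‖∑ p ∈ Pj j, v.2⁻¹ p / p * ee (((v.1 : ℝ) / 10 - T) * Real.log p)‖ ^ 2 ≤
        C / (j : ℝ) ^ 2)
    (hF : ∀ j₁ ∈ Ico i₀ i₁, ∀ j₂ ∈ Ico i₀ i₁, ∀ v ∈ V,
      ‖∑ m ∈ cut M j₁ j₂, lam m / m * ee (((v.1 : ℝ) / 10 - T) * Real.log m) * cchi v.2 m‖ ≤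
        ε * q.totient) :
    ∑ v ∈ V, ‖∑ m ∈ Ms M, (gg i₀ i₁ M m : ℂ) * lam m / m *
      ee (((v.1 : ℝ) / 10 - T) * Real.log m) * cchi v.2 m‖ ≤ 16 * C * ε * q.totient := by
  set A : ℕ → ℤ × DirichletCharacter ℂ q → ℝ := fun j v =>
    ‖∑ p ∈ Pj j, v.2⁻¹ p / p * ee (((v.1 : ℝ) / 10 - T) * Real.log p)‖ with hA
  have hE : 0 ≤ ε * q.totient := by positivity
  have hL2 : 0 ≤ (LL i₀ i₁ ^ 2)⁻¹ := by positivity
  have h1 : ∀ v ∈ V, ‖∑ m ∈ Ms M, (gg i₀ i₁ M m : ℂ) * lam m / m *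
      ee (((v.1 : ℝ) / 10 - T) * Real.log m) * cchi v.2 m‖ ≤
      (LL i₀ i₁ ^ 2)⁻¹ * ∑ j₁ ∈ Ico i₀ i₁, ∑ j₂ ∈ Ico i₀ i₁,
        A j₁ v * A j₂ v * (ε * q.totient) := by
    intro v hv
    rw [G4Aux.inner hM hq, norm_mul, Complex.norm_real, Real.norm_of_nonneg hL2]
    refine mul_le_mul_of_nonneg_left ?_ hL2
    refine (norm_sum_le _ _).trans (sum_le_sum fun j₁ h₁ => ?_)
    refine (norm_sum_le _ _).trans (sum_le_sum fun j₂ h₂ => ?_)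
    rw [norm_mul, norm_mul, ← mul_assoc]
    exact mul_le_mul_of_nonneg_left (hF j₁ h₁ j₂ h₂ v hv) (by positivity)
  refine (sum_le_sum h1).trans ?_
  rw [← mul_sum, sum_comm]
  have h2 : ∑ j₁ ∈ Ico i₀ i₁, ∑ v ∈ V, ∑ j₂ ∈ Ico i₀ i₁, A j₁ v * A j₂ v * (ε * q.totient) ≤
      ∑ j₁ ∈ Ico i₀ i₁, ∑ j₂ ∈ Ico i₀ i₁, C * (1 / (j₁ : ℝ) * (1 / (j₂ : ℝ))) *
        (ε * q.totient) := by
    refine sum_le_sum fun j₁ h₁ => ?_
    rw [sum_comm]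
    refine sum_le_sum fun j₂ h₂ => ?_
    rw [← sum_mul]
    refine mul_le_mul_of_nonneg_right ?_ hE
    have p1 : (0 : ℝ) < j₁ := by
      have := (mem_Ico.1 h₁).1
      exact_mod_cast (by omega : 0 < j₁)
    have p2 : (0 : ℝ) < j₂ := by
      have := (mem_Ico.1 h₂).1
      exact_mod_cast (by omega : 0 < j₂)
    exact G4Aux.cs V _ _ p1 p2 (hP j₁ h₁) (hP j₂ h₂)
  have h3 : ∑ j₁ ∈ Ico i₀ i₁, ∑ j₂ ∈ Ico i₀ i₁, C * (1 / (j₁ : ℝ) * (1 / (j₂ : ℝ))) *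
      (ε * q.totient) = (∑ j ∈ Ico i₀ i₁, (1 : ℝ) / j) ^ 2 * (C * (ε * q.totient)) := by
    rw [sq, sum_mul_sum, sum_mul]
    refine sum_congr rfl fun j₁ _ => ?_
    rw [sum_mul]
    exact sum_congr rfl fun j₂ _ => by ring
  have h4 : (∑ j ∈ Ico i₀ i₁, (1 : ℝ) / j) ^ 2 ≤ (4 * LL i₀ i₁) ^ 2 :=
    pow_le_pow_left₀ (sum_nonneg fun j _ => by positivity) hs 2
  have h5 := mul_le_mul_of_nonneg_right h4 (mul_nonneg hC hE)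
  calc _ ≤ (LL i₀ i₁ ^ 2)⁻¹ * ((4 * LL i₀ i₁) ^ 2 * (C * (ε * q.totient))) :=
        mul_le_mul_of_nonneg_left (h2.trans (h3.le.trans h5)) hL2
    _ = _ := by
        field_simp
        ring

end Pool.Agent.P.MP_a9a441_nt.FU
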