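import Pool.Agent.P.MP_a9a441_nt.FU.Bas
import Pool.Agent.Lib.PNT.Main

/-!
Primes in dyadic intervals, from `Pool.Agent.Lib.PNT.primeCounting_tendsto` or `theta_tendsto`
(1 / log 2 lies strictly between 1/2 and 2), and two bounds for harmonic sums
(log (1 + 1/j) ≤ 1/j).
-/

namespace Pool.Agent.P.MP_a9a441_nt.FU

open Finset Filter Pool.Agent.Lib.LargeSieve
open scoped ComplexConjugate

namespace PCAux

lemma mem {j p : ℕ} : p ∈ Pj j ↔ (2 ^ j ≤ p ∧ p < 2 ^ (j + 1)) ∧ p.Prime := by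
  simp [Pj]

lemma theta_pow {j : ℕ} (hj : 2 ≤ j) : Chebyshev.theta ((2 : ℝ) ^ j) =
    ∑ p ∈ (Ico 1 (2 ^ j)).filter Nat.Prime, Real.log p := by
  rw [Chebyshev.theta, show ((2 : ℝ) ^ j) = ((2 ^ j : ℕ) : ℝ) by push_cast; rfl, Nat.floor_natCast]
  refine sum_congr ?_ fun _ _ => rfl
  ext p
  simp only [mem_filter, mem_Ioc, mem_Ico]
  refine ⟨fun h => ⟨⟨h.1.1, lt_of_le_of_ne h.1.2 fun e => ?_⟩, h.2⟩,
    fun h => ⟨⟨h.1.1, h.1.2.le⟩, h.2⟩⟩
  exact Nat.Prime.not_prime_pow hj (e ▸ h.2)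

lemma diff {j : ℕ} (hj : 2 ≤ j) : ∑ p ∈ Pj j, Real.log p =
    Chebyshev.theta ((2 : ℝ) ^ (j + 1)) - Chebyshev.theta ((2 : ℝ) ^ j) := by
  rw [theta_pow hj, theta_pow (by omega : 2 ≤ j + 1), Pj, sum_filter, sum_filter, sum_filter,
    ← sum_Ico_consecutive _ (Nat.one_le_two_pow (n := j))
      (Nat.pow_le_pow_right two_pos (Nat.le_succ j))]
  ring

end PCAux

theorem pc : ∀ᶠ j : ℕ in atTop, (2 : ℝ) ^ j / (2 * j) ≤ (Pj j).card ∧
    ∑ p ∈ Pj j, (1 : ℝ) / p ≤ 2 / j ∧ 1 / (4 * (j : ℝ)) ≤ ∑ p ∈ Pj j, (1 : ℝ) / p := by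
  have h0 := Pool.Agent.Lib.PNT.theta_tendsto.comp
    (tendsto_pow_atTop_atTop_of_one_lt (one_lt_two (α := ℝ)))
  have h1 := (h0.eventually (lt_mem_nhds (show (19 / 20 : ℝ) < 1 by norm_num))).and
    (h0.eventually (gt_mem_nhds (show (1 : ℝ) < 21 / 20 by norm_num)))
  filter_upwards [h1, (tendsto_add_atTop_nat 1).eventually h1, eventually_ge_atTop 2]
    with j k1 k2 hj
  have hp : (0 : ℝ) < 2 ^ j := by positivity
  have hj' : (2 : ℝ) ≤ j := by exact_mod_cast hj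
  simp only [Function.comp] at k1 k2
  rw [lt_div_iff₀ (by positivity), div_lt_iff₀ (by positivity)] at k1 k2
  have hd := PCAux.diff hj
  have e : (2 : ℝ) ^ (j + 1) = 2 * 2 ^ j := pow_succ' _ _
  have hb : ∀ p ∈ Pj j, (2 : ℝ) ^ j ≤ p ∧ (p : ℝ) ≤ 2 ^ (j + 1) := fun p h =>
    ⟨by exact_mod_cast (PCAux.mem.1 h).1.1, by exact_mod_cast (PCAux.mem.1 h).1.2.le⟩
  have l1 := Real.log_two_gt_d9
  have l2 := Real.log_two_lt_d9
  have hc : (0 : ℝ) ≤ (Pj j).card := Nat.cast_nonneg _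
  have u1 : ∑ p ∈ Pj j, Real.log p ≤ (Pj j).card * ((j + 1 : ℕ) * Real.log 2) := by
    rw [← nsmul_eq_mul]
    refine sum_le_card_nsmul _ _ _ fun p h => ?_
    rw [← Real.log_pow]
    exact Real.log_le_log (hp.trans_le (hb p h).1) (hb p h).2
  have u2 : (Pj j).card * (j * Real.log 2) ≤ ∑ p ∈ Pj j, Real.log p := by
    rw [← nsmul_eq_mul]
    refine card_nsmul_le_sum _ _ _ fun p h => ?_
    rw [← Real.log_pow]
    exact Real.log_le_log hp (hb p h).1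
  have hx : 0 ≤ ((Pj j).card : ℝ) * j := by positivity
  have c1 : (2 : ℝ) ^ j / (2 * j) ≤ (Pj j).card := by
    rw [div_le_iff₀ (by positivity)]
    have : ((j + 1 : ℕ) : ℝ) * Real.log 2 ≤ 7 / 5 * j := by push_cast; nlinarith
    nlinarith [mul_le_mul_of_nonneg_left this hc]
  have c2 : ((Pj j).card : ℝ) * j ≤ 2 * 2 ^ j := by nlinarith
  refine ⟨c1, ?_, ?_⟩
  · refine (sum_le_card_nsmul _ _ (1 / 2 ^ j : ℝ) fun p h => ?_).trans ?_
    · exact one_div_le_one_div_of_le hp (hb p h).1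
    · rw [nsmul_eq_mul, mul_one_div, div_le_div_iff₀ hp (by positivity)]
      exact c2
  · refine le_trans ?_ (card_nsmul_le_sum _ _ (1 / 2 ^ (j + 1) : ℝ) fun p h => ?_)
    · rw [nsmul_eq_mul, mul_one_div, div_le_div_iff₀ (by positivity) (by positivity)]
      rw [div_le_iff₀ (by positivity)] at c1
      linarith
    · exact one_div_le_one_div_of_le (hp.trans_le (hb p h).1) (hb p h).2

theorem log_le_harm {i κ : ℕ} (hi : 1 ≤ i) (hκ : 1 ≤ κ) :
    Real.log κ ≤ ∑ j ∈ Ico i (κ * i), (1 : ℝ) / j := by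
  have key : ∀ n, i ≤ n → Real.log n - Real.log i ≤ ∑ j ∈ Ico i n, (1 : ℝ) / j := by
    intro n hn
    induction n, hn using Nat.le_induction with
    | base => simp
    | succ n hn ih =>
      have h0 : (0 : ℝ) < n := by exact_mod_cast hi.trans hn
      have h1 : Real.log ((n + 1 : ℕ) : ℝ) - Real.log n ≤ 1 / n := by
        rw [← Real.log_div (by positivity) h0.ne']
        refine (Real.log_le_sub_one_of_pos (by positivity)).trans_eq ?_
        push_cast; field_simp; ring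
      rw [sum_Ico_succ_top hn]
      linarith
  have h := key (κ * i) (Nat.le_mul_of_pos_left i hκ)
  have h1 : (κ : ℝ) ≠ 0 := by exact_mod_cast (by omega : κ ≠ 0)
  have h2 : (i : ℝ) ≠ 0 := by exact_mod_cast (by omega : i ≠ 0)
  rw [Nat.cast_mul, Real.log_mul h1 h2] at h
  linarith

theorem Pj_disj {j j' p : ℕ} (h : p ∈ Pj j) (h' : p ∈ Pj j') : j = j' := by
  obtain ⟨⟨h1, h2⟩, -⟩ := PCAux.mem.1 h
  obtain ⟨⟨h3, h4⟩, -⟩ := PCAux.mem.1 h'
  have k1 := (Nat.pow_lt_pow_iff_right one_lt_two).1 (h1.trans_lt h4)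
  have k2 := (Nat.pow_lt_pow_iff_right one_lt_two).1 (h3.trans_lt h2)
  omega

theorem sum_Pj_eq {M : Type*} [AddCommMonoid M] (i₀ i₁ : ℕ) (f : ℕ → M) :
    ∑ j ∈ Ico i₀ i₁, ∑ p ∈ Pj j, f p =
      ∑ p ∈ (Ico (2 ^ i₀) (2 ^ i₁)).filter Nat.Prime, f p := by
  rcases le_or_gt i₀ i₁ with h | h
  · induction i₁, h using Nat.le_induction with
    | base => simp
    | succ n hn ih =>
      rw [sum_Ico_succ_top hn, ih, Pj, sum_filter, sum_filter, sum_filter,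
        sum_Ico_consecutive _ (Nat.pow_le_pow_right two_pos hn)
          (Nat.pow_le_pow_right two_pos (Nat.le_succ n))]
  · rw [Ico_eq_empty_of_le h.le, Ico_eq_empty_of_le (Nat.pow_le_pow_right two_pos h.le)]
    simp

end Pool.Agent.P.MP_a9a441_nt.FU
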