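import Pool.Agent.P.MP_a9a441_nt.FU.ES2
import Pool.Agent.P.MP_a9a441_nt.FU.PC
import Pool.Agent.P.MP_a1177c_nt.LC.Sieve

/-!
Halasz-Montgomery for primes. Let n = 2^j, z = ⌊n^(c₁)⌋, ν, μ from
`Pool.Agent.P.MP_a1177c_nt.LC.selberg_int` with r = q, range T = Ico n ⌈n e^10⌉ (e^10 < 30000).
Apply `Pool.Agent.Lib.LargeSieve.halasz` with vectors √(ν m / m) χ⁻¹ m ee (k/10 log m) and
coefficients c m = ee (-T log m) / √m for m ∈ Pj j (ν m = 1 there), 0 otherwise;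
∑ ‖c‖^2 ≤ 2 / j by `pc`. Gram entries: f m = ψ m / m ee (Δ log m), ψ = χ⁻¹ conj χ'⁻¹ is a Dirichlet
character mod q, Δ = (k - k') / 10. For d ≤ z^2 prime to q the sum over multiples of d is
ψ d / d ee (Δ log d) times a sum covered by `es2` with a = n / d ≥ √n, b = n e^10 / d, whose main
term is M / d by `intE_shift`, M = (∑ ψ) / q * intE Δ (log n) (log n + 10). M = 0 unless v = v'
(`MulChar.sum_eq_zero_of_ne_one`, `intE_period`), and M = 10 φ(q) / q on the diagonal. With c₂ from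
`es2 (2 C₀ + 2)` take c₁ = c = c₂ / 40. Compare `gram` in LC/LSP.lean.
-/

namespace Pool.Agent.P.MP_a9a441_nt.FU

open Finset Filter Pool.Agent.Lib.LargeSieve
open scoped ComplexConjugate

namespace HMAux

theorem exp_ten : Real.exp 10 ≤ 30000 := by
  have h : Real.exp 10 = Real.exp 1 ^ 10 := by
    rw [← Real.exp_nat_mul]; norm_num
  rw [h]
  calc Real.exp 1 ^ 10 ≤ (2.7182818286 : ℝ) ^ 10 :=
        pow_le_pow_left₀ (Real.exp_pos 1).le Real.exp_one_lt_d9.le 10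
    _ ≤ 30000 := by norm_num

theorem two_le_exp_ten : (2 : ℝ) ≤ Real.exp 10 := by
  linarith [Real.add_one_le_exp (10 : ℝ)]

theorem mult_sum (a b : ℝ) {d : ℕ} (hd : 0 < d) (g : ℕ → ℂ) :
    ∑ m ∈ (Ico ⌈a⌉₊ ⌈b⌉₊).filter (fun m : ℕ => (d : ℤ) ∣ (m : ℤ)), g m =
      ∑ k ∈ Ico ⌈a / d⌉₊ ⌈b / d⌉₊, g (d * k) := by
  have hd' : (0 : ℝ) < d := by exact_mod_cast hd
  have key : ∀ k : ℕ, k ∈ Ico ⌈a / d⌉₊ ⌈b / d⌉₊ ↔ d * k ∈ Ico ⌈a⌉₊ ⌈b⌉₊ := fun k => by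
    rw [mem_Ico, mem_Ico, Nat.ceil_le, Nat.ceil_le, Nat.lt_ceil, Nat.lt_ceil, div_le_iff₀' hd',
      lt_div_iff₀' hd']
    push_cast
    rfl
  symm
  refine sum_bij (fun k _ => d * k) (fun k hk => ?_) (fun _ _ _ _ h => ?_) (fun m hm => ?_)
    fun _ _ => rfl
  · exact mem_filter.2 ⟨(key k).1 hk, by push_cast; simp⟩
  · exact Nat.eq_of_mul_eq_mul_left hd h
  · obtain ⟨h1, h2⟩ := mem_filter.1 hm
    obtain ⟨k, rfl⟩ := Int.natCast_dvd_natCast.1 h2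
    exact ⟨k, (key k).2 h1, rfl⟩

theorem char_mul_sum {q : ℕ} [NeZero q] (ψ : DirichletCharacter ℂ q) {d : ℕ}
    (hdq : d.Coprime q) : ψ d * ∑ r, ψ r = ∑ r, ψ r := by
  by_cases h : ψ = 1
  · subst h
    rw [MulChar.one_apply ((ZMod.isUnit_iff_coprime d q).2 hdq), one_mul]
  · rw [MulChar.sum_eq_zero_of_ne_one h, mul_zero]

theorem mult_est {K : ℕ} {c₂ C₂ : ℝ} (hc : 0 ≤ c₂) (hC : 0 ≤ C₂) {q : ℕ} [NeZero q]
    (hes : ∀ (ψ : ZMod q → ℂ) (a b Δ : ℝ), (∀ r, ‖ψ r‖ ≤ 1) → 1 ≤ a → a ≤ b →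
      b ≤ 30000 * a → |Δ| ≤ a ^ K →
      ‖∑ m ∈ Ico ⌈a⌉₊ ⌈b⌉₊, ψ m / m * ee (Δ * Real.log m) -
        (∑ r, ψ r) / q * intE Δ (Real.log a) (Real.log b)‖ ≤ C₂ * (q : ℝ) ^ 2 * a ^ (-c₂))
    (ψ : DirichletCharacter ℂ q) {n A Δ : ℝ} {d : ℕ} (hd : 0 < d) (hdq : d.Coprime q)
    (hA1 : 1 ≤ A) (hA : A ≤ n / d) (hΔ : |Δ| ≤ A ^ K) :
    ‖∑ m ∈ (Ico ⌈n⌉₊ ⌈n * Real.exp 10⌉₊).filter (fun m : ℕ => (d : ℤ) ∣ (m : ℤ)),
        ψ m / m * ee (Δ * Real.log m) -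
      (∑ r, ψ r) / q * intE Δ (Real.log n) (Real.log n + 10) / d‖ ≤
      C₂ * (q : ℝ) ^ 2 * A ^ (-c₂) := by
  have hd' : (0 : ℝ) < d := by exact_mod_cast hd
  have hd1 : (1 : ℝ) ≤ d := by exact_mod_cast hd
  have ha : 1 ≤ n / d := hA1.trans hA
  have hn : 0 < n := by
    have := (le_div_iff₀ hd').1 ha
    linarith
  have e1 : n * Real.exp 10 / d = Real.exp 10 * (n / d) := by ring
  have h := hes (fun r => ψ r) (n / d) (n * Real.exp 10 / d) Δ (fun r => ψ.norm_le_one r) ha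
    (by rw [e1]; nlinarith [two_le_exp_ten]) (by rw [e1]; nlinarith [exp_ten])
    (hΔ.trans (pow_le_pow_left₀ (by linarith) hA K))
  have l1 : Real.log (n / d) = Real.log n - Real.log d := Real.log_div hn.ne' hd'.ne'
  have l2 : Real.log (n * Real.exp 10 / d) = Real.log n + 10 - Real.log d := by
    rw [Real.log_div (by positivity) hd'.ne', Real.log_mul hn.ne' (Real.exp_pos _).ne',
      Real.log_exp]
  rw [l1, l2, intE_shift] at h
  rw [mult_sum _ _ hd]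
  have hdc : (d : ℂ) ≠ 0 := by exact_mod_cast hd.ne'
  have e2 : ∑ k ∈ Ico ⌈n / d⌉₊ ⌈n * Real.exp 10 / d⌉₊,
      ψ ((d * k : ℕ) : ZMod q) / ((d * k : ℕ) : ℂ) * ee (Δ * Real.log ((d * k : ℕ) : ℝ)) =
      (ψ d / d * ee (Δ * Real.log d)) * ∑ k ∈ Ico ⌈n / d⌉₊ ⌈n * Real.exp 10 / d⌉₊,
        ψ k / k * ee (Δ * Real.log k) := by
    rw [mul_sum]
    refine sum_congr rfl fun k hk => ?_
    have hk1 : (1 : ℝ) ≤ k := ha.trans (Nat.ceil_le.1 (mem_Ico.1 hk).1)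
    have hkc : (k : ℂ) ≠ 0 := by
      have : k ≠ 0 := by rintro rfl; norm_num at hk1
      exact_mod_cast this
    push_cast
    rw [map_mul, Real.log_mul hd'.ne' (by linarith), mul_add, ee_add]
    field_simp
  have e3 : (∑ r, ψ r) / q * intE Δ (Real.log n) (Real.log n + 10) / d =
      (ψ d / d * ee (Δ * Real.log d)) * ((∑ r, ψ r) / q *
        (ee (-(Δ * Real.log d)) * intE Δ (Real.log n) (Real.log n + 10))) := by
    have e4 : ee (Δ * Real.log d) * ee (-(Δ * Real.log d)) = 1 := by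
      rw [← ee_add, add_neg_cancel]
      simpa using ee_int 0
    calc _ = (ψ d * ∑ r, ψ r) / q * intE Δ (Real.log n) (Real.log n + 10) / d *
          (ee (Δ * Real.log d) * ee (-(Δ * Real.log d))) := by
            rw [char_mul_sum ψ hdq, e4, mul_one]
      _ = _ := by ring
  rw [e2, e3, ← mul_sub, norm_mul]
  have h1 : ‖ψ d / d * ee (Δ * Real.log d)‖ ≤ 1 := by
    rw [norm_mul, norm_ee, mul_one, norm_div, Complex.norm_natCast]
    exact (div_le_one hd').2 ((ψ.norm_le_one _).trans hd1)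
  refine (mul_le_of_le_one_left (norm_nonneg _) h1).trans (h.trans ?_)
  refine mul_le_mul_of_nonneg_left ?_ (by positivity)
  exact Real.rpow_le_rpow_of_nonpos (by linarith) hA (by linarith)

theorem main_zero {q : ℕ} [NeZero q] {v w : ℤ × DirichletCharacter ℂ q} (h : w ≠ v) (u : ℝ) :
    (∑ r, (v.2⁻¹ * w.2) r) / q * intE ((v.1 : ℝ) / 10 - w.1 / 10) u (u + 10) = 0 := by
  by_cases h2 : v.2 = w.2
  · have h1 : v.1 - w.1 ≠ 0 := fun k => h (Prod.ext (sub_eq_zero.1 k).symm h2.symm)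
    have e : (v.1 : ℝ) / 10 - w.1 / 10 = ((v.1 - w.1 : ℤ) : ℝ) / 10 := by push_cast; ring
    rw [e, intE_period h1, mul_zero]
  · rw [MulChar.sum_eq_zero_of_ne_one fun k => h2 (inv_mul_eq_one.1 k), zero_div, zero_mul]

theorem main_diag {q : ℕ} [NeZero q] (v : ℤ × DirichletCharacter ℂ q) (u : ℝ) :
    ‖(∑ r, (v.2⁻¹ * v.2) r) / q * intE ((v.1 : ℝ) / 10 - v.1 / 10) u (u + 10)‖ =
      (q.totient : ℝ) / q * 10 := by
  rw [inv_mul_cancel, sub_self, intE_zero, MulChar.sum_one_eq_card_units, ZMod.card_units_eq_totient,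
    norm_mul, norm_div, Complex.norm_natCast, Complex.norm_natCast, Complex.norm_real]
  simp

theorem gram {q : ℕ} [NeZero q] (V : Finset (ℤ × DirichletCharacter ℂ q)) (T : Finset ℕ)
    {ν : ℤ → ℝ} {μ E u : ℝ} (hν : ∀ n, 0 ≤ ν n) (hμ : 0 ≤ μ) (hE : 0 ≤ E)
    (hs : ∀ v ∈ V, ∀ w ∈ V, ‖∑ m ∈ T, (ν m : ℂ) * ((v.2⁻¹ * w.2) m / m *
        ee (((v.1 : ℝ) / 10 - w.1 / 10) * Real.log m)) -
      (∑ r, (v.2⁻¹ * w.2) r) / q * intE ((v.1 : ℝ) / 10 - w.1 / 10) u (u + 10) * μ‖ ≤ E)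
    (c : ℕ → ℂ) :
    ∑ v ∈ V, ‖∑ m ∈ T, c m * (((√(ν m / m) : ℝ) : ℂ) *
        (v.2⁻¹ m * ee ((v.1 : ℝ) / 10 * Real.log m)))‖ ^ 2 ≤
      ((q.totient : ℝ) / q * 10 * μ + V.card * E) * ∑ m ∈ T, ‖c m‖ ^ 2 := by
  classical
  refine halasz _ _ (fun (v : ℤ × DirichletCharacter ℂ q) (m : ℕ) =>
    ((√(ν m / m) : ℝ) : ℂ) * (v.2⁻¹ m * ee ((v.1 : ℝ) / 10 * Real.log m))) c _ (by positivity)
    fun v hv => ?_
  have e : ∀ w : ℤ × DirichletCharacter ℂ q,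
      ∑ m ∈ T, ((√(ν m / m) : ℝ) : ℂ) * (v.2⁻¹ m * ee ((v.1 : ℝ) / 10 * Real.log m)) *
        conj (((√(ν m / m) : ℝ) : ℂ) * (w.2⁻¹ m * ee ((w.1 : ℝ) / 10 * Real.log m))) =
      ∑ m ∈ T, (ν m : ℂ) * ((v.2⁻¹ * w.2) m / m *
        ee (((v.1 : ℝ) / 10 - w.1 / 10) * Real.log m)) := by
    intro w
    refine sum_congr rfl fun m _ => ?_
    have e1 : conj (w.2⁻¹ m) = w.2 m := by
      have := MulChar.star_apply' w.2⁻¹ (m : ZMod q)
      rw [inv_inv] at this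
      exact this
    have e2 : ((v.1 : ℝ) / 10 - w.1 / 10) * Real.log m =
        (v.1 : ℝ) / 10 * Real.log m + -((w.1 : ℝ) / 10 * Real.log m) := by ring
    rw [map_mul, map_mul, Complex.conj_ofReal, mul_mul_mul_comm, ← Complex.ofReal_mul,
      Real.mul_self_sqrt (div_nonneg (hν _) (Nat.cast_nonneg _)), e1, conj_ee, e2, ee_add,
      MulChar.mul_apply]
    push_cast
    ring
  simp only [e]
  have h1 : ∀ w ∈ V, ‖∑ m ∈ T, (ν m : ℂ) * ((v.2⁻¹ * w.2) m / m *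
        ee (((v.1 : ℝ) / 10 - w.1 / 10) * Real.log m))‖ ≤
      (if w = v then (q.totient : ℝ) / q * 10 * μ else 0) + E := by
    intro w hw
    have h2 := hs v hv w hw
    split_ifs with h
    · subst h
      refine (norm_le_norm_add_norm_sub' _ _).trans (add_le_add (le_of_eq ?_) h2)
      rw [norm_mul, main_diag, Complex.norm_real, Real.norm_of_nonneg hμ]
    · rw [main_zero h, zero_mul, sub_zero] at h2
      simpa using h2
  refine (sum_le_sum h1).trans (le_of_eq ?_)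
  rw [sum_add_distrib, sum_ite_eq', if_pos hv, sum_const, nsmul_eq_mul]

theorem small {ε : ℝ} (hε : 0 < ε) (C : ℝ) :
    ∀ᶠ j : ℕ in atTop, C * (2 : ℝ) ^ (-(ε * j)) ≤ 1 / j := by
  have h1 : Tendsto (fun x : ℝ => x ^ (1 : ℝ) * Real.exp (-(ε * Real.log 2) * x)) atTop (nhds 0) :=
    tendsto_rpow_mul_exp_neg_mul_atTop_nhds_zero 1 _ (mul_pos hε (Real.log_pos one_lt_two))
  have h2 := (h1.comp tendsto_natCast_atTop_atTop).const_mul C
  rw [mul_zero] at h2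
  filter_upwards [h2.eventually (gt_mem_nhds one_pos), eventually_ge_atTop 1] with j hj hj1
  have hj' : (0 : ℝ) < j := by exact_mod_cast hj1
  rw [le_div_iff₀ hj', Real.rpow_def_of_pos two_pos]
  simp only [Function.comp, Real.rpow_one] at hj
  have e : Real.log 2 * -(ε * j) = -(ε * Real.log 2) * j := by ring
  rw [e]
  linarith

end HMAux

open HMAux

theorem hm (C₀ : ℕ) : ∃ c C : ℝ, 0 < c ∧ c ≤ 1 / 2 ∧ 1 ≤ C ∧ ∀ᶠ j : ℕ in atTop,
    ∀ (q : ℕ) [NeZero q] (T : ℝ) (V : Finset (ℤ × DirichletCharacter ℂ q)),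
      (q : ℝ) ≤ 2 ^ (c * j) → (V.card : ℝ) ≤ 2 ^ (c * j) → (∀ v ∈ V, |v.1| ≤ 2 ^ (C₀ * j)) →
      ∑ v ∈ V, ‖∑ p ∈ Pj j, v.2⁻¹ p / p * ee (((v.1 : ℝ) / 10 - T) * Real.log p)‖ ^ 2 ≤
        C / (j : ℝ) ^ 2 := by
  classical
  obtain ⟨c₂, C₂, hc0, hc1, hC1, hes⟩ := es2 (2 * C₀ + 2)
  obtain ⟨Cs, hCs, hsel⟩ := Pool.Agent.P.MP_a1177c_nt.LC.selberg_int
  obtain ⟨c, hc⟩ : ∃ c : ℝ, c₂ = 40 * c := ⟨c₂ / 40, by ring⟩
  have hcp : 0 < c := by linarith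
  refine ⟨c, 2 * (40 * Cs / c + 1), hcp, by linarith, ?_, ?_⟩
  · have : 0 < 40 * Cs / c := by positivity
    linarith
  have hev : ∀ᶠ j : ℕ in atTop, 2 ≤ c * j :=
    (tendsto_natCast_atTop_atTop.const_mul_atTop hcp).eventually_ge_atTop 2
  filter_upwards [pc, small (ε := 11 * c) (by positivity) C₂, hev, eventually_ge_atTop 1]
    with j hpc hsm hcj hj1 q _ T V hq hV hk
  have hj' : (1 : ℝ) ≤ j := by exact_mod_cast hj1
  obtain ⟨Z, hZ⟩ : ∃ Z : ℝ, Z = (2 : ℝ) ^ (c * j) := ⟨_, rfl⟩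
  rw [← hZ] at hq hV
  have hZ4 : 4 ≤ Z := by
    rw [hZ]
    calc (4 : ℝ) = 2 ^ (2 : ℝ) := by norm_num
      _ ≤ _ := Real.rpow_le_rpow_of_exponent_le one_le_two hcj
  obtain ⟨z, hz⟩ : ∃ z : ℕ, z = ⌊Z⌋₊ := ⟨_, rfl⟩
  have hzZ : (z : ℝ) ≤ Z := hz ▸ Nat.floor_le (by linarith)
  have hZz : Z < z + 1 := hz ▸ Nat.lt_floor_add_one Z
  have hz2 : 2 ≤ z := hz ▸ Nat.le_floor (by push_cast; linarith)
  have hz2' : (2 : ℝ) ≤ z := by exact_mod_cast hz2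
  have hl2 : (1 : ℝ) / 2 ≤ Real.log 2 := by linarith [Real.log_two_gt_d9]
  have hlog : c * j / 4 ≤ Real.log z := by
    have h1 : Z ≤ (z : ℝ) ^ 2 := by nlinarith
    have h2 := Real.log_le_log (by linarith) h1
    rw [hZ, Real.log_rpow two_pos, Real.log_pow] at h2
    push_cast at h2
    nlinarith
  obtain ⟨ν, μ, hν, hν1, hμ, hμC, hs⟩ := hsel z q hz2 (NeZero.pos q)
  obtain ⟨n, hn⟩ : ∃ n : ℝ, n = (2 : ℝ) ^ (j : ℝ) := ⟨_, rfl⟩
  obtain ⟨A, hA⟩ : ∃ A : ℝ, A = (2 : ℝ) ^ ((j : ℝ) / 2) := ⟨_, rfl⟩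
  have hn' : n = ((2 ^ j : ℕ) : ℝ) := by rw [hn, Real.rpow_natCast]; push_cast; rfl
  have hA1 : 1 ≤ A := hA ▸ Real.one_le_rpow one_le_two (by positivity)
  have hAn : A * A = n := by
    rw [hA, hn, ← Real.rpow_add two_pos]; congr 1; ring
  have hZA : Z ^ 2 ≤ A := by
    rw [hZ, hA, ← Real.rpow_natCast, ← Real.rpow_mul (by norm_num)]
    refine Real.rpow_le_rpow_of_exponent_le one_le_two ?_
    push_cast
    nlinarith
  have hE : ∀ v ∈ V, ∀ w ∈ V, ‖∑ m ∈ Ico ⌈n⌉₊ ⌈n * Real.exp 10⌉₊, (ν m : ℂ) *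
        ((v.2⁻¹ * w.2) m / m * ee (((v.1 : ℝ) / 10 - w.1 / 10) * Real.log m)) -
      (∑ r, (v.2⁻¹ * w.2) r) / q * intE ((v.1 : ℝ) / 10 - w.1 / 10) (Real.log n)
        (Real.log n + 10) * μ‖ ≤ (z : ℝ) ^ 6 * (C₂ * (q : ℝ) ^ 2 * A ^ (-c₂)) := by
    intro v hv w hw
    refine hs ℕ _ (fun m => (m : ℤ)) _ _ _ (by positivity) fun d hd hdz hdq => ?_
    have hd' : (0 : ℝ) < d := by exact_mod_cast hd
    refine mult_est hc0.le (by linarith) (hes q) _ hd hdq hA1 ?_ ?_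
    · rw [le_div_iff₀ hd', ← hAn]
      refine mul_le_mul_of_nonneg_left ?_ (by linarith)
      have h1 : (d : ℝ) ≤ (z : ℝ) ^ 2 := by exact_mod_cast hdz
      exact h1.trans ((pow_le_pow_left₀ (by linarith) hzZ 2).trans hZA)
    · have h1 : |(v.1 : ℝ)| ≤ 2 ^ (C₀ * j) := by exact_mod_cast hk v hv
      have h2 : |(w.1 : ℝ)| ≤ 2 ^ (C₀ * j) := by exact_mod_cast hk w hw
      have h3 : (2 : ℝ) ^ (C₀ * j) ≤ A ^ (2 * C₀ + 2) := by
        rw [hA, ← Real.rpow_natCast, ← Real.rpow_natCast, ← Real.rpow_mul (by norm_num)]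
        refine Real.rpow_le_rpow_of_exponent_le one_le_two ?_
        push_cast
        nlinarith
      refine le_trans ?_ h3
      rw [abs_le] at h1 h2 ⊢
      constructor <;> linarith [h1.1, h1.2, h2.1, h2.2]
  have hg := gram V _ hν hμ (by positivity) hE
    fun m => if m ∈ Pj j then ee (-(T * Real.log m)) / ((√(m : ℝ) : ℝ) : ℂ) else 0
  have hsub : Pj j ⊆ Ico ⌈n⌉₊ ⌈n * Real.exp 10⌉₊ := by
    intro p hp
    obtain ⟨h1, h2⟩ := mem_Ico.1 (mem_filter.1 hp).1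
    rw [mem_Ico, Nat.ceil_le, Nat.lt_ceil, hn']
    refine ⟨by exact_mod_cast h1, ?_⟩
    have h3 : (p : ℝ) < ((2 ^ j : ℕ) : ℝ) * 2 := by
      rw [pow_succ] at h2
      exact_mod_cast h2
    exact h3.trans_le (mul_le_mul_of_nonneg_left two_le_exp_ten (by positivity))
  have e1 : ∀ v : ℤ × DirichletCharacter ℂ q, ∑ m ∈ Ico ⌈n⌉₊ ⌈n * Real.exp 10⌉₊,
      (if m ∈ Pj j then ee (-(T * Real.log m)) / ((√(m : ℝ) : ℝ) : ℂ) else 0) *
        (((√(ν m / m) : ℝ) : ℂ) * (v.2⁻¹ m * ee ((v.1 : ℝ) / 10 * Real.log m))) =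
      ∑ p ∈ Pj j, v.2⁻¹ p / p * ee (((v.1 : ℝ) / 10 - T) * Real.log p) := by
    intro v
    rw [← sum_subset hsub fun m _ hm => by rw [if_neg hm, zero_mul]]
    refine sum_congr rfl fun p hp => ?_
    have hpp : p.Prime := (mem_filter.1 hp).2
    have h1 : 2 ^ j ≤ p := (mem_Ico.1 (mem_filter.1 hp).1).1
    have hp0 : (0 : ℝ) < p := by exact_mod_cast hpp.pos
    have h2 : ν p = 1 := hν1 p fun l hl hlz hlp => by
      have h6 := (Nat.prime_dvd_prime_iff_eq hl hpp).1 (Int.natCast_dvd_natCast.1 hlp)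
      have h7 : (l : ℝ) ≤ z := by exact_mod_cast hlz
      have h8 : n ≤ p := by rw [hn']; exact_mod_cast h1
      rw [h6] at h7
      nlinarith
    have e2 : ((v.1 : ℝ) / 10 - T) * Real.log p =
        (v.1 : ℝ) / 10 * Real.log p + -(T * Real.log p) := by ring
    have e3 : ((√(p : ℝ) : ℝ) : ℂ) * ((√(p : ℝ) : ℝ) : ℂ) = p := by
      rw [← Complex.ofReal_mul, Real.mul_self_sqrt hp0.le]; simp
    have e4 : ((√(p : ℝ) : ℝ) : ℂ) ≠ 0 := by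
      exact_mod_cast (Real.sqrt_pos.2 hp0).ne'
    rw [if_pos hp, h2, Real.sqrt_div zero_le_one, Real.sqrt_one, e2, ee_add, ← e3]
    push_cast
    field_simp
  have e5 : ∑ m ∈ Ico ⌈n⌉₊ ⌈n * Real.exp 10⌉₊,
      ‖if m ∈ Pj j then ee (-(T * Real.log m)) / ((√(m : ℝ) : ℝ) : ℂ) else 0‖ ^ 2 =
      ∑ p ∈ Pj j, (1 : ℝ) / p := by
    rw [← sum_subset hsub fun m _ hm => by rw [if_neg hm]; simp]
    refine sum_congr rfl fun p hp => ?_
    rw [if_pos hp, norm_div, norm_ee, Complex.norm_real, Real.norm_of_nonneg (Real.sqrt_nonneg _),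
      div_pow, Real.sq_sqrt (Nat.cast_nonneg _), one_pow]
  simp only [e1] at hg
  rw [e5] at hg
  refine hg.trans ?_
  have hq0 : (0 : ℝ) < q := by exact_mod_cast NeZero.pos q
  have hφ : (0 : ℝ) < q.totient := by exact_mod_cast Nat.totient_pos.2 (NeZero.pos q)
  have hlz : 0 < Real.log z := Real.log_pos (by linarith)
  have h1 : (q.totient : ℝ) / q * 10 * μ ≤ 40 * Cs / c / j := by
    calc _ ≤ (q.totient : ℝ) / q * 10 * (Cs * ((q : ℝ) / q.totient) / Real.log z) := by gcongr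
      _ = 10 * Cs / Real.log z := by field_simp
      _ ≤ 10 * Cs / (c * j / 4) := by gcongr
      _ = _ := by field_simp; ring
  have h2 : (V.card : ℝ) * ((z : ℝ) ^ 6 * (C₂ * (q : ℝ) ^ 2 * A ^ (-c₂))) ≤ 1 / j := by
    refine le_trans ?_ hsm
    have h3 : Z ^ 9 * A ^ (-c₂) = (2 : ℝ) ^ (-(11 * c * j)) := by
      rw [hZ, hA, ← Real.rpow_natCast, ← Real.rpow_mul (by norm_num),
        ← Real.rpow_mul (by norm_num), ← Real.rpow_add two_pos, hc]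
      congr 1
      push_cast
      ring
    calc _ ≤ Z * (Z ^ 6 * (C₂ * Z ^ 2 * A ^ (-c₂))) := by gcongr
      _ = C₂ * (Z ^ 9 * A ^ (-c₂)) := by ring
      _ = _ := by rw [h3]
  calc _ ≤ (40 * Cs / c / j + 1 / j) * (2 / j) := by
        refine mul_le_mul (add_le_add h1 h2) hpc.2.1 (by positivity) (by positivity)
    _ = _ := by field_simp

end Pool.Agent.P.MP_a9a441_nt.FU
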