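import Pool.Agent.P.MP_a9a441_nt.FU.G3
import Pool.Agent.P.MP_a9a441_nt.FU.G4
import Pool.Agent.P.MP_a9a441_nt.FU.HM
import Pool.Agent.P.MP_a9a441_nt.FU.FS

/-!
Existence of the weight. Choose a natural κ ≥ 20 with log κ ≥ 4 and 40 / √(log κ / 4) ≤ ε₆; let
c, C come from `hm (11 κ^2)`; G = κ^4, γ = c / (10 κ^2). For large X take i₀ = ⌈log₂ X / κ^2⌉₊
(so X ≤ 2^(κ^2 i₀), 2^i₀ ≤ 2 X^(1/κ^2), i₀ → ∞), i₁ = κ i₀, g = gg i₀ i₁ M. LL ≥ (1/4) ∑ 1/j ≥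
(log κ) / 4 by `pc`, `log_le_harm`. 2^i₁ ≤ 2^κ X^(1/κ), so 2^(3 i₁) ≤ √X ≤ M and the left end
a = M / (4 2^(j₁+j₂)) of `cut` is at least X^(1/4); its right end is 64 a. Use `fs 44` with
ε₅ / (16 C): |k/10 - T| ≤ X^11 ≤ a^44, q ≤ 2 X^(4γ) ≤ a; for `hm`: 2 X^(4γ) ≤ X^(c/κ^2) ≤ 2^(c j),
10 X^10 ≤ X^11 ≤ 2^(11 κ^2 j); q ≤ 2^(c i₀) < 2^i₀.
-/

namespace Pool.Agent.P.MP_a9a441_nt.FU

open Finset Filter Pool.Agent.Lib.LargeSieve
open scoped ComplexConjugate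

namespace GXAux

theorem exk (B : ℝ) : ∃ κ : ℕ, 20 ≤ κ ∧ B ≤ Real.log κ := by
  have h1 : Tendsto (fun κ : ℕ => Real.log κ) atTop atTop :=
    Real.tendsto_log_atTop.comp tendsto_natCast_atTop_atTop
  exact ((eventually_ge_atTop 20).and (h1.eventually_ge_atTop B)).exists

theorem two_le {x y : ℝ} (h : x ≤ y) : (2 : ℝ) ^ x ≤ 2 ^ y :=
  Real.rpow_le_rpow_of_exponent_le one_le_two h

theorem two_nat (x : ℝ) (n : ℕ) : ((2 : ℝ) ^ x) ^ n = 2 ^ (x * n) :=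
  (Real.rpow_mul_natCast zero_le_two x n).symm

end GXAux

open GXAux in
theorem gx {ε₆ : ℝ} (h : 0 < ε₆) : ∃ G γ : ℝ, 1 ≤ G ∧ 0 < γ ∧ γ ≤ 1 / 20 ∧ ∀ ε₅ : ℝ, 0 < ε₅ →
    ∀ᶠ X : ℕ in atTop, ∀ M : ℝ, 0 ≤ M → (X : ℝ) ≤ M ^ 2 → 64 * M ≤ X →
      ∃ g : ℕ → ℝ, Wt X M G ((X : ℝ) ^ γ) ε₅ ε₆ g := by
  obtain ⟨κ, hκ, hlog⟩ := exk (4 * max 1 ((40 / ε₆) ^ 2))
  obtain ⟨c, C, hc0, hc1, hC, hhm⟩ := hm (11 * κ ^ 2)
  have hκR : (20 : ℝ) ≤ κ := by exact_mod_cast hκ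
  have hK : (400 : ℝ) ≤ (κ : ℝ) ^ 2 := by nlinarith
  have hK0 : (0 : ℝ) < (κ : ℝ) ^ 2 := by linarith
  refine ⟨((κ ^ 2 : ℕ) : ℝ) ^ 2, c / (10 * (κ : ℝ) ^ 2), ?_, by positivity, ?_, fun ε₅ hε => ?_⟩
  · push_cast; nlinarith
  · rw [div_le_iff₀ (by positivity)]; linarith
  obtain ⟨j₀, hj₀⟩ := eventually_atTop.1 (hhm.and pc)
  have hε' : 0 < ε₅ / (16 * C) := by positivity
  obtain ⟨a₀, ha₀⟩ := eventually_atTop.1 (fs 44 hε')
  have hl : Tendsto (fun X : ℕ => Real.logb 2 X) atTop atTop :=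
    (Real.tendsto_logb_atTop one_lt_two).comp tendsto_natCast_atTop_atTop
  have hl4 : Tendsto (fun X : ℕ => (2 : ℝ) ^ (Real.logb 2 X / 4)) atTop atTop :=
    (tendsto_rpow_atTop_of_base_gt_one 2 one_lt_two).comp (hl.atTop_div_const (by norm_num))
  filter_upwards [eventually_ge_atTop 10, hl.eventually_ge_atTop ((κ : ℝ) ^ 2 * (j₀ + 1)),
    hl.eventually_ge_atTop (20 * (κ : ℝ) + 20), hl.eventually_ge_atTop (2 * (κ : ℝ) ^ 2 / c),
    hl4.eventually_ge_atTop a₀] with X hX h1 h2 h3 h4 M hM0 hM1 hM2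
  have hXR : (10 : ℝ) ≤ X := by exact_mod_cast hX
  have hXe : (X : ℝ) = 2 ^ Real.logb 2 X :=
    (Real.rpow_logb two_pos (by norm_num) (by linarith)).symm
  generalize Real.logb 2 X = l at h1 h2 h3 h4 hXe
  obtain ⟨w, rfl⟩ : ∃ w : ℝ, l = (κ : ℝ) ^ 2 * w := ⟨l / (κ : ℝ) ^ 2, by field_simp⟩
  have hw : (j₀ : ℝ) + 1 ≤ w := le_of_mul_le_mul_left h1 hK0
  have hw0 : 0 ≤ w := by linarith [(Nat.cast_nonneg j₀ : (0 : ℝ) ≤ j₀)]
  have hcw : 2 ≤ c * w := by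
    rw [div_le_iff₀ hc0] at h3
    exact le_of_mul_le_mul_left (a := (κ : ℝ) ^ 2) (by nlinarith) hK0
  set i₀ : ℕ := ⌈w⌉₊ with hi₀
  have hi1 : w ≤ i₀ := Nat.le_ceil w
  have hi2 : (i₀ : ℝ) ≤ w + 1 := (Nat.ceil_lt_add_one hw0).le
  have hij : j₀ + 1 ≤ i₀ := by exact_mod_cast hw.trans hi1
  have hi : 1 ≤ i₀ := by omega
  have hκw : 20 * (κ * w) ≤ (κ : ℝ) ^ 2 * w := by
    have : 0 ≤ (κ : ℝ) * w := by positivity
    nlinarith
  have hs : ∑ j ∈ Ico i₀ (κ * i₀), (1 : ℝ) / j ≤ 4 * LL i₀ (κ * i₀) := by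
    unfold LL
    rw [mul_sum]
    refine sum_le_sum fun j hj => ?_
    have hj1 := (mem_Ico.1 hj).1
    have := (hj₀ j (by omega)).2.2.2
    have e : (1 : ℝ) / j = 4 * (1 / (4 * (j : ℝ))) := by
      have : (j : ℝ) ≠ 0 := by exact_mod_cast (by omega : j ≠ 0)
      field_simp
    rw [e]; linarith
  have hLL : max 1 ((40 / ε₆) ^ 2) ≤ LL i₀ (κ * i₀) := by
    have := log_le_harm (κ := κ) hi (by omega)
    linarith
  have hL1 : 1 ≤ LL i₀ (κ * i₀) := (le_max_left _ _).trans hLL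
  have hXj : ∀ j : ℕ, i₀ ≤ j → (X : ℝ) ≤ 2 ^ (κ ^ 2 * j) := by
    intro j hj
    have hj' : (i₀ : ℝ) ≤ j := by exact_mod_cast hj
    rw [hXe, ← Real.rpow_natCast (2 : ℝ) (κ ^ 2 * j)]
    refine two_le ?_
    push_cast
    exact mul_le_mul_of_nonneg_left (hi1.trans hj') hK0.le
  have hM : (2 : ℝ) ^ ((κ : ℝ) ^ 2 * w / 2) ≤ M := by
    refine (pow_le_pow_iff_left₀ (by positivity) hM0 two_ne_zero).1 ?_
    rw [two_nat]
    have e : (κ : ℝ) ^ 2 * w / 2 * (2 : ℕ) = (κ : ℝ) ^ 2 * w := by push_cast; ring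
    rw [e, ← hXe]; exact hM1
  have hκi : ((κ * i₀ : ℕ) : ℝ) ≤ κ * w + κ := by
    push_cast
    have := mul_le_mul_of_nonneg_left hi2 (by linarith : (0 : ℝ) ≤ κ)
    linarith
  have hZ : (X : ℝ) ^ (c / (10 * (κ : ℝ) ^ 2)) = 2 ^ (c * w / 10) := by
    rw [hXe, ← Real.rpow_mul zero_le_two]
    congr 1; field_simp
  rw [hZ]
  refine ⟨gg i₀ (κ * i₀) M, gg_nonneg _ _ _, gg_le hi hL1 hM0 (hM2.trans (hXj i₀ le_rfl)), ?_, ?_⟩
  · refine (gg_near hL1 (le_trans ?_ hM)).trans ?_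
    · rw [← Real.rpow_natCast]
      refine two_le ?_
      rw [Nat.cast_mul]
      push_cast at hκi ⊢
      linarith
    · have h5 : 40 / ε₆ ≤ √(LL i₀ (κ * i₀)) :=
        Real.le_sqrt_of_sq_le ((le_max_right _ _).trans hLL)
      have h6 : 0 < 40 / ε₆ := by positivity
      rw [div_le_iff₀ (by linarith)]
      rw [div_le_iff₀ h] at h5
      linarith
  · intro q _ T V hq hT hV hv
    have hq1 : (q : ℝ) ≤ 2 ^ (c * w) := by
      refine hq.trans ?_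
      rw [two_nat]
      calc (2 : ℝ) * 2 ^ (c * w / 10 * (4 : ℕ)) = 2 ^ (1 + c * w / 10 * (4 : ℕ)) := by
            rw [Real.rpow_add two_pos, Real.rpow_one]
        _ ≤ _ := two_le (by push_cast; linarith)
    have hV1 : (V.card : ℝ) ≤ 2 ^ (c * w) := by
      refine hV.trans ?_
      rw [two_nat]
      exact two_le (by push_cast; linarith)
    have hcj : ∀ j : ℕ, i₀ ≤ j → (2 : ℝ) ^ (c * w) ≤ 2 ^ (c * j) := by
      intro j hj
      have hj' : (i₀ : ℝ) ≤ j := by exact_mod_cast hj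
      exact two_le (mul_le_mul_of_nonneg_left (hi1.trans hj') hc0.le)
    have hqi : q < 2 ^ i₀ := by
      have h5 : (q : ℝ) < 2 ^ (i₀ : ℝ) := by
        refine lt_of_le_of_lt hq1 (Real.rpow_lt_rpow_of_exponent_lt one_lt_two ?_)
        have h6 := mul_le_mul_of_nonneg_right hc1 hw0
        linarith
      rw [Real.rpow_natCast] at h5
      exact_mod_cast h5
    have h11 : 10 * (X : ℝ) ^ 10 ≤ (X : ℝ) ^ 11 := by
      rw [pow_succ (X : ℝ) 10, mul_comm]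
      exact mul_le_mul_of_nonneg_left hXR (by positivity)
    have key := g4 (T := T) (C := C) (ε := ε₅ / (16 * C)) hM0 hi hqi (by linarith) hε'.le
      (by linarith) hs V (fun j hj => ?_) (fun j₁ hj₁ j₂ hj₂ v hv' => ?_)
    · refine key.trans (le_of_eq ?_)
      have : C ≠ 0 := by linarith
      field_simp
    · have hj1 := (mem_Ico.1 hj).1
      refine (hj₀ j (by omega)).1 q T V (hq1.trans (hcj j hj1)) (hV1.trans (hcj j hj1))
        fun v hv' => (hv v hv').trans ?_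
      have h5 : 10 * (X : ℝ) ^ 10 ≤ 2 ^ (11 * κ ^ 2 * j) := by
        refine h11.trans ?_
        rw [show 11 * κ ^ 2 * j = κ ^ 2 * j * 11 by ring, pow_mul]
        exact pow_le_pow_left₀ (by linarith) (hXj j hj1) _
      exact_mod_cast h5
    · have hj1 : (j₁ : ℝ) ≤ ((κ * i₀ : ℕ) : ℝ) := by exact_mod_cast (mem_Ico.1 hj₁).2.le
      have hj2 : (j₂ : ℝ) ≤ ((κ * i₀ : ℕ) : ℝ) := by exact_mod_cast (mem_Ico.1 hj₂).2.le
      have hp : (0 : ℝ) < 2 ^ (j₁ + j₂) := by positivity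
      have ha : (2 : ℝ) ^ ((κ : ℝ) ^ 2 * w / 4) ≤ M / (4 * 2 ^ (j₁ + j₂)) := by
        rw [le_div_iff₀ (by positivity)]
        refine le_trans ?_ hM
        have e : (4 : ℝ) * 2 ^ (j₁ + j₂) = 2 ^ ((2 + (j₁ + j₂) : ℕ) : ℝ) := by
          rw [Real.rpow_natCast, pow_add (2 : ℝ) 2]; norm_num
        rw [e, ← Real.rpow_add two_pos]
        refine two_le ?_
        rw [Nat.cast_add, Nat.cast_add]
        have : ((2 : ℕ) : ℝ) = 2 := by norm_num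
        linarith
      have hb : 16 * M / 2 ^ (j₁ + j₂) = 64 * (M / (4 * 2 ^ (j₁ + j₂))) := by
        field_simp; ring
      have ha0 : 0 ≤ M / (4 * 2 ^ (j₁ + j₂)) := by positivity
      refine ha₀ _ (h4.trans ha) q v.2 _ _ (hq1.trans ((two_le ?_).trans ha)) ?_ hb.le ?_
      · have h5 := mul_le_mul_of_nonneg_right hc1 hw0
        have h6 := mul_le_mul_of_nonneg_right hK hw0
        linarith
      · rw [hb]; linarith
      · have h5 : |(v.1 : ℝ)| ≤ 10 * (X : ℝ) ^ 10 := by exact_mod_cast hv v hv'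
        have h6 : (X : ℝ) ^ 9 ≤ (X : ℝ) ^ 10 := pow_le_pow_right₀ (by linarith) (by norm_num)
        have h7 : |(v.1 : ℝ) / 10 - T| ≤ (X : ℝ) ^ 11 := by
          have h8 : (0 : ℝ) ≤ (X : ℝ) ^ 10 := by positivity
          rw [abs_le] at h5 hT ⊢
          constructor <;> linarith [h5.1, h5.2, hT.1, hT.2]
        refine h7.trans (le_trans ?_ (pow_le_pow_left₀ (by positivity) ha 44))
        rw [two_nat]
        calc (X : ℝ) ^ 11 = (2 ^ ((κ : ℝ) ^ 2 * w)) ^ 11 := by rw [← hXe]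
          _ ≤ _ := by rw [two_nat]; exact two_le (le_of_eq (by push_cast; ring))

end Pool.Agent.P.MP_a9a441_nt.FU
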