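import Pool.Agent.P.MP_a9a441_nt.FU.GeoS

/-!
Classes for large invariants. By `inv_step`, T' / T > 0 and |log |T'| - log |T|| ≤ 5 η.
S₁ = points of Y with |T y| ≥ E₀ / (2 η) and |τ y| ≤ X^7; κ y = (sign, ⌊log |T y| / (10 η) + σ⌋);
Tc (sign, n) = sign * exp (10 η (n - σ + 1/2)), so |log (T y / Tc)| ≤ 5 η, E₀ / (4 η) ≤ |Tc| ≤ 8 X^8;
ys y = ⌊log (Tc / τ y) / η₁⌋; Om = ⌈4 E₀ / (|Tc| η₁)⌉₊ + 4. For an edge,
|log (p' τ' / (p τ))| ≤ 2 ε / (p |τ|) ≤ E₀ / |T| ≤ 2 E₀ / |Tc|, and the four floors cost less than 2.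
`geo`: split the edges by |T| ≤ E₀ / η (GeoHyp passes to subsets).
-/

namespace Pool.Agent.P.MP_a9a441_nt.FU

open Finset Filter Pool.Agent.Lib.LargeSieve
open scoped ComplexConjugate

namespace GeoLAux

/-- The logarithm of the centre of a window. -/
noncomputable def cc (η σ : ℝ) (n : ℤ) : ℝ := 10 * η * (n - σ + 1 / 2)

open Classical in
/-- The class of a point. -/
noncomputable def kap (η σ : ℝ) (τ : ℤ → ℝ) (y : ℤ) : ℤ × ℤ :=
  (if 0 < τ y then 1 else -1, ⌊Real.log |τ y * xx η y| / (2 * (5 * η)) + σ⌋)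

/-- The centre of a class. -/
noncomputable def TcF (η σ : ℝ) (k : ℤ × ℤ) : ℝ := k.1 * Real.exp (cc η σ k.2)

/-- The width of a class. -/
noncomputable def OmF (E₀ η η₁ σ : ℝ) (k : ℤ × ℤ) : ℕ :=
  ⌈4 * E₀ / (Real.exp (cc η σ k.2) * η₁)⌉₊ + 4

/-- The fine position. -/
noncomputable def ysF (η η₁ σ : ℝ) (τ : ℤ → ℝ) (y : ℤ) : ℤ :=
  ⌊(cc η σ (kap η σ τ y).2 - Real.log |τ y|) / η₁⌋

theorem c_near {η σ L : ℝ} (hη : 0 < η) : |cc η σ ⌊L / (2 * (5 * η)) + σ⌋ - L| ≤ 5 * η := by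
  have h1 := Int.floor_le (L / (2 * (5 * η)) + σ)
  have h2 := Int.lt_floor_add_one (L / (2 * (5 * η)) + σ)
  have hL : L = L / (2 * (5 * η)) * (10 * η) := by
    field_simp
    ring
  unfold cc
  generalize L / (2 * (5 * η)) = u at h1 h2 hL ⊢
  generalize ((⌊u + σ⌋ : ℤ) : ℝ) = n at h1 h2 ⊢
  rw [hL, abs_le]
  constructor <;> nlinarith

theorem exp_half : Real.exp (1 / 2) ≤ 2 := by
  have h := Real.exp_one_lt_d9
  have e : Real.exp (1 / 2) * Real.exp (1 / 2) = Real.exp 1 := by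
    rw [← Real.exp_add]
    norm_num
  by_contra hc
  push Not at hc
  nlinarith

theorem exp_c {c T : ℝ} (hT : 0 < T) (h : |c - Real.log T| ≤ 1 / 2) :
    T ≤ 2 * Real.exp c ∧ Real.exp c ≤ 2 * T := by
  rw [abs_le] at h
  constructor
  · calc T = Real.exp (Real.log T) := (Real.exp_log hT).symm
      _ ≤ Real.exp (1 / 2 + c) := Real.exp_le_exp.2 (by linarith [h.1])
      _ = Real.exp (1 / 2) * Real.exp c := Real.exp_add _ _
      _ ≤ 2 * Real.exp c := mul_le_mul_of_nonneg_right exp_half (Real.exp_pos c).le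
  · calc Real.exp c ≤ Real.exp (1 / 2 + Real.log T) := Real.exp_le_exp.2 (by linarith [h.2])
      _ = Real.exp (1 / 2) * T := by rw [Real.exp_add, Real.exp_log hT]
      _ ≤ 2 * T := mul_le_mul_of_nonneg_right exp_half hT.le

theorem abs_Tc (η σ : ℝ) (τ : ℤ → ℝ) (y : ℤ) :
    |TcF η σ (kap η σ τ y)| = Real.exp (cc η σ (kap η σ τ y).2) := by
  unfold TcF
  rw [abs_mul, abs_of_pos (Real.exp_pos _)]
  have : |(((kap η σ τ y).1 : ℤ) : ℝ)| = 1 := by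
    unfold kap
    split_ifs <;> simp
  rw [this, one_mul]

theorem sign_mul (η σ : ℝ) (τ : ℤ → ℝ) (y : ℤ) : ((kap η σ τ y).1 : ℝ) * |τ y| = τ y := by
  unfold kap
  split_ifs with h
  · simp [abs_of_pos h]
  · simp [abs_of_nonpos (not_lt.1 h)]

theorem xx_pos (η : ℝ) (y : ℤ) : 0 < xx η y := Real.exp_pos _

theorem log_T {η : ℝ} {τ : ℤ → ℝ} {y : ℤ} (h : τ y ≠ 0) :
    Real.log |τ y * xx η y| = Real.log |τ y| + η * y := by
  rw [abs_mul, abs_of_pos (xx_pos η y), Real.log_mul (abs_ne_zero.2 h) (xx_pos η y).ne', xx,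
    Real.log_exp]

theorem floor_mul {a η₁ : ℝ} (h : 0 < η₁) :
    η₁ * (⌊a / η₁⌋ : ℤ) ≤ a ∧ a ≤ η₁ * (⌊a / η₁⌋ : ℤ) + η₁ := by
  have h1 := Int.floor_le (a / η₁)
  have h2 := (Int.lt_floor_add_one (a / η₁)).le
  rw [le_div_iff₀ h] at h1
  rw [div_le_iff₀ h] at h2
  constructor <;> linarith

/-- ratio of two close invariants -/
theorem ratio {η E₀ T T' t : ℝ} (hη : 0 < η) (hη' : η ≤ 1 / 10) (hE : 0 < E₀) (ht : |t| ≤ η)
    (hT : E₀ / η < |T|) (h : |T' - T * Real.exp t| ≤ E₀) :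
    0 < T' / T ∧ E₀ / (2 * η) ≤ |T'| ∧ |Real.log |T'| - Real.log (|T|)| ≤ 5 * η := by
  have hT0 : 0 < |T| := (div_pos hE hη).trans hT
  have hTne : T ≠ 0 := abs_pos.1 hT0
  have hr : |T' / T - Real.exp t| ≤ η := by
    have e : T' / T - Real.exp t = (T' - T * Real.exp t) / T := by field_simp
    rw [e, abs_div, div_le_iff₀ hT0]
    rw [div_lt_iff₀ hη] at hT
    nlinarith
  rw [abs_le] at hr ht
  have e1 : 1 - η ≤ Real.exp t := by linarith [Real.add_one_le_exp t]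
  have e2 : Real.exp t ≤ 1 + 2 * η := by
    have h3 := Real.abs_exp_sub_one_le (x := η) (by rw [abs_of_pos hη]; linarith)
    rw [abs_of_pos hη, abs_le] at h3
    linarith [Real.exp_le_exp.2 ht.2]
  set r := T' / T with hrd
  have r1 : 1 - 2 * η ≤ r := by linarith
  have r2 : r ≤ 1 + 3 * η := by linarith
  have r0 : 0 < r := by linarith
  have hT' : |T'| = r * |T| := by
    rw [← abs_of_pos r0, ← abs_mul, hrd, div_mul_cancel₀ _ hTne]
  refine ⟨r0, ?_, ?_⟩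
  · have e : E₀ / (2 * η) = 1 / 2 * (E₀ / η) := by field_simp
    rw [hT', e]
    exact mul_le_mul (by linarith) hT.le (div_pos hE hη).le r0.le
  · rw [hT', Real.log_mul r0.ne' hT0.ne', add_sub_cancel_right, abs_le]
    constructor
    · have h4 := Real.one_sub_inv_le_log_of_pos r0
      have h5 : r⁻¹ ≤ 1 + 5 * η := by
        rw [inv_le_iff_one_le_mul₀ r0]
        nlinarith
      linarith
    · linarith [Real.log_le_sub_one_of_pos r0]

theorem log_close {u v ε δ : ℝ} (hu : 0 < u) (hv : 0 < v) (h : |u - v| ≤ ε) (h1 : ε ≤ δ * u)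
    (h2 : ε ≤ δ * v) : |Real.log u - Real.log v| ≤ δ := by
  rw [abs_le] at h ⊢
  constructor
  · have h3 := Real.log_le_sub_one_of_pos (div_pos hv hu)
    rw [Real.log_div hv.ne' hu.ne'] at h3
    have h4 : v / u ≤ 1 + δ := by
      rw [div_le_iff₀ hu]
      linarith [h.1]
    linarith
  · have h3 := Real.log_le_sub_one_of_pos (div_pos hu hv)
    rw [Real.log_div hu.ne' hv.ne'] at h3
    have h4 : u / v ≤ 1 + δ := by
      rw [div_le_iff₀ hv]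
      linarith [h.2]
    linarith

theorem sub_hyp {X J P : ℕ} {E₀ ε : ℝ} {Y : Finset ℤ} {τ : ℤ → ℝ} {E E' : Finset (ℤ × Lb)}
    (H : GeoHyp X J P E₀ ε Y τ E) (h : E' ⊆ E) : GeoHyp X J P E₀ ε Y τ E' :=
  ⟨H.hX, H.hJ, H.hP, H.small, H.E2, H.Eε, H.E9, H.hY, fun e he => H.mem e (h he),
    fun e he => H.bd e (h he), fun e he => H.near e (h he)⟩

open Classical in
theorem geo_sigma {X J P : ℕ} {E₀ ε : ℝ} {Y : Finset ℤ} {τ : ℤ → ℝ} {E : Finset (ℤ × Lb)}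
    (H : GeoHyp X J P E₀ ε Y τ E) {η η₁ : ℝ} (hη : η = J / X ^ 10) (hη₁ : η₁ = 1 / X ^ 10)
    (h : ∀ e ∈ E, E₀ / η < |τ e.1 * xx η e.1|) (σ : ℝ)
    (hκ : ∀ e ∈ E, kap η σ τ (st (ap η) e.1 e.2) = kap η σ τ e.1) :
    Geo X η η₁ E₀ τ E
      (Y.filter fun y => E₀ / (2 * η) ≤ |τ y * xx η y| ∧ |τ y| ≤ (X : ℝ) ^ 7)
      (kap η σ τ) (TcF η σ) (OmF E₀ η η₁ σ) (ysF η η₁ σ τ) := by
  have hX : (10 : ℝ) ≤ X := by exact_mod_cast H.hX
  have hX0 : (0 : ℝ) < X := by linarith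
  have hJ : (X : ℝ) ^ 2 ≤ J := by exact_mod_cast H.hJ
  have hJ1 : (1 : ℝ) ≤ J := by nlinarith
  have hη₁0 : 0 < η₁ := by rw [hη₁]; positivity
  have hηη : η₁ ≤ η := by
    rw [hη, hη₁]
    exact div_le_div_of_nonneg_right hJ1 (by positivity)
  have hη0 : 0 < η := hη₁0.trans_le hηη
  have hη' : η ≤ 1 / 10 := hη ▸ H.small
  have hE := H.E2
  have hE0 : 0 < E₀ := by linarith
  have hP : (1 : ℝ) ≤ P := by exact_mod_cast H.hP
  have h8 : 8 * (X : ℝ) ^ 8 * η₁ ≤ 1 / 10 := by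
    have e : 8 * (X : ℝ) ^ 8 * η₁ = 8 / X ^ 2 := by
      rw [hη₁]
      field_simp
    rw [e, div_le_iff₀ (by positivity)]
    nlinarith
  have pt : ∀ y ∈ Y.filter (fun y => E₀ / (2 * η) ≤ |τ y * xx η y| ∧ |τ y| ≤ (X : ℝ) ^ 7),
      τ y ≠ 0 ∧ |cc η σ (kap η σ τ y).2 - Real.log |τ y| - η * y| ≤ 5 * η ∧
      E₀ ≤ 4 * η * Real.exp (cc η σ (kap η σ τ y).2) ∧
      Real.exp (cc η σ (kap η σ τ y).2) ≤ 8 * (X : ℝ) ^ 8 ∧
      Real.exp (cc η σ (kap η σ τ y).2) ≤ 8 * X * |τ y| := by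
    intro y hy
    obtain ⟨hyY, h1, h2⟩ := mem_filter.1 hy
    have hT0 : 0 < |τ y * xx η y| := (div_pos hE0 (by linarith)).trans_le h1
    have hτ : τ y ≠ 0 := left_ne_zero_of_mul (abs_pos.1 hT0)
    have hc : |cc η σ (kap η σ τ y).2 - Real.log (|τ y * xx η y|)| ≤ 5 * η := c_near hη0
    obtain ⟨b1, b2⟩ := exp_c hT0 (hc.trans (by linarith))
    have hx : xx η y ≤ 4 * X := hη ▸ (H.hY y hyY).2
    have b3 : |τ y * xx η y| ≤ |τ y| * (4 * X) := by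
      rw [abs_mul, abs_of_pos (xx_pos η y)]
      exact mul_le_mul_of_nonneg_left hx (abs_nonneg _)
    have b4 : Real.exp (cc η σ (kap η σ τ y).2) ≤ 8 * X * |τ y| := by linarith
    refine ⟨hτ, ?_, ?_, ?_, b4⟩
    · rw [log_T hτ, ← sub_sub] at hc
      exact hc
    · rw [div_le_iff₀ (by linarith)] at h1
      nlinarith
    · calc _ ≤ 8 * X * |τ y| := b4
        _ ≤ 8 * X * (X : ℝ) ^ 7 := mul_le_mul_of_nonneg_left h2 (by positivity)
        _ = 8 * (X : ℝ) ^ 8 := by ring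
  have om : ∀ k : ℤ × ℤ, 4 * E₀ + 4 * (Real.exp (cc η σ k.2) * η₁) ≤
        Real.exp (cc η σ k.2) * η₁ * OmF E₀ η η₁ σ k ∧
      Real.exp (cc η σ k.2) * η₁ * OmF E₀ η η₁ σ k ≤
        4 * E₀ + 5 * (Real.exp (cc η σ k.2) * η₁) := by
    intro k
    have hw : 0 < Real.exp (cc η σ k.2) * η₁ := mul_pos (Real.exp_pos _) hη₁0
    have a1 := Nat.le_ceil (4 * E₀ / (Real.exp (cc η σ k.2) * η₁))
    have a2 := (Nat.ceil_lt_add_one (a := 4 * E₀ / (Real.exp (cc η σ k.2) * η₁))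
      (by positivity)).le
    rw [div_le_iff₀ hw] at a1
    rw [← sub_le_iff_le_add, le_div_iff₀ hw] at a2
    unfold OmF
    push_cast
    constructor <;> nlinarith
  refine ⟨?_, ?_, ?_, ?_, ?_, ?_, ?_⟩
  · intro e he
    obtain ⟨m1, m2, m3, -, m5, -⟩ := H.mem e he
    obtain ⟨d1, d2⟩ := H.bd e he
    obtain ⟨t, ht, hst⟩ := inv_step H he
    have hn := H.near e he
    rw [← hη] at m2 d2 ht hst hn
    have hr := ratio hη0 hη' hE0 ht (h e he) hst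
    have s1 : e.1 ∈ Y.filter
        (fun y => E₀ / (2 * η) ≤ |τ y * xx η y| ∧ |τ y| ≤ (X : ℝ) ^ 7) := by
      refine mem_filter.2 ⟨m1, le_trans ?_ (h e he).le, d1⟩
      exact div_le_div_of_nonneg_left hE0.le hη0 (by linarith)
    have s2 : st (ap η) e.1 e.2 ∈ Y.filter
        (fun y => E₀ / (2 * η) ≤ |τ y * xx η y| ∧ |τ y| ≤ (X : ℝ) ^ 7) :=
      mem_filter.2 ⟨m2, hr.2.1, d2⟩
    refine ⟨s1, s2, hκ e he, ?_⟩
    obtain ⟨t1, -, -, -, t5⟩ := pt _ s1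
    obtain ⟨u1, -, -, -, u5⟩ := pt _ s2
    rw [hκ e he] at u5
    set y' := st (ap η) e.1 e.2 with hy'
    set w := Real.exp (cc η σ (kap η σ τ e.1).2) with hw
    have hw0 : 0 < w := Real.exp_pos _
    have p1 : (P : ℝ) ≤ e.2.1 := by exact_mod_cast m3
    have p2 : (P : ℝ) ≤ e.2.2 := by exact_mod_cast m5
    have q1 : (0 : ℝ) < e.2.1 := by linarith
    have q2 : (0 : ℝ) < e.2.2 := by linarith
    have a1 := abs_pos.2 t1
    have a2 := abs_pos.2 u1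
    have hε0 : 0 ≤ ε := (abs_nonneg _).trans hn
    have hε : 8 * ε * X ≤ E₀ * P := by
      have := H.Eε
      rwa [div_le_iff₀ (by linarith)] at this
    have key : ∀ p a : ℝ, (P : ℝ) ≤ p → 0 < a → w ≤ 8 * X * a → ε ≤ E₀ / w * (p * a) := by
      intro p a hp ha hwa
      rw [div_mul_eq_mul_div, le_div_iff₀ hw0]
      calc ε * w ≤ ε * (8 * X * a) := mul_le_mul_of_nonneg_left hwa hε0
        _ = 8 * ε * X * a := by ring
        _ ≤ E₀ * P * a := mul_le_mul_of_nonneg_right hε ha.le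
        _ ≤ E₀ * p * a := by gcongr
        _ = E₀ * (p * a) := by ring
    have hl := log_close (mul_pos q1 a1) (mul_pos q2 a2) (ε := ε) (δ := E₀ / w)
      (by
        refine le_trans ?_ hn
        have := abs_abs_sub_abs_le ((e.2.1 : ℝ) * τ e.1) ((e.2.2 : ℝ) * τ y')
        rwa [abs_mul, abs_mul, abs_of_pos q1, abs_of_pos q2] at this)
      (key _ _ p1 a1 t5) (key _ _ p2 a2 u5)
    rw [Real.log_mul q1.ne' a1.ne', Real.log_mul q2.ne' a2.ne', abs_le] at hl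
    obtain ⟨f1, f2⟩ := floor_mul (a := cc η σ (kap η σ τ e.1).2 - Real.log |τ e.1|) hη₁0
    obtain ⟨f3, f4⟩ := floor_mul (a := cc η σ (kap η σ τ e.1).2 - Real.log |τ y'|) hη₁0
    obtain ⟨f5, f6⟩ := floor_mul (a := Real.log e.2.1) hη₁0
    obtain ⟨f7, f8⟩ := floor_mul (a := Real.log e.2.2) hη₁0
    have o1 := (om (kap η σ τ e.1)).1
    rw [← hw] at o1
    have o2 : 4 * (E₀ / w) + 4 * η₁ ≤ η₁ * OmF E₀ η η₁ σ (kap η σ τ e.1) := by
      have e1 : 4 * (E₀ / w) + 4 * η₁ = (4 * E₀ + 4 * (w * η₁)) / w := by field_simp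
      rw [e1, div_le_iff₀ hw0]
      linarith
    have hδ : 0 < E₀ / w := div_pos hE0 hw0
    have fin : η₁ * (2 * |((ysF η η₁ σ τ e.1 - ap η₁ e.2.1 -
        (ysF η η₁ σ τ y' - ap η₁ e.2.2) : ℤ) : ℝ)|) ≤ η₁ * OmF E₀ η η₁ σ (kap η σ τ e.1) := by
      refine le_trans ?_ o2
      have e2 : ∀ z : ℝ, η₁ * (2 * |z|) = 2 * |η₁ * z| := by
        intro z
        rw [abs_mul, abs_of_pos hη₁0]
        ring
      rw [e2]
      have e3 : |η₁ * ((ysF η η₁ σ τ e.1 - ap η₁ e.2.1 -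
          (ysF η η₁ σ τ y' - ap η₁ e.2.2) : ℤ) : ℝ)| ≤ E₀ / w + 2 * η₁ := by
        unfold ysF ap
        rw [hκ e he, abs_le]
        push_cast
        constructor <;> linarith [hl.1, hl.2]
      linarith
    have fin2 := le_of_mul_le_mul_left fin hη₁0
    exact_mod_cast fin2
  · intro y hy
    obtain ⟨-, t2, -, -, -⟩ := pt y hy
    obtain ⟨f1, f2⟩ := floor_mul (a := cc η σ (kap η σ τ y).2 - Real.log |τ y|) hη₁0
    unfold ysF
    rw [abs_le] at t2 ⊢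
    constructor <;> linarith [t2.1, t2.2]
  · intro y hy
    obtain ⟨-, -, t3, -, -⟩ := pt y hy
    have o := (om (kap η σ τ y)).2
    have hw0 := Real.exp_pos (cc η σ (kap η σ τ y).2)
    set w := Real.exp (cc η σ (kap η σ τ y).2) with hw
    refine le_of_mul_le_mul_left ?_ hw0
    have : w * η₁ ≤ w * η := mul_le_mul_of_nonneg_left hηη hw0.le
    nlinarith
  · intro y hy
    obtain ⟨-, -, -, t4, -⟩ := pt y hy
    have o := (om (kap η σ τ y)).1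
    have hw0 := Real.exp_pos (cc η σ (kap η σ τ y).2)
    set w := Real.exp (cc η σ (kap η σ τ y).2) with hw
    have hwη : 0 < w * η₁ := mul_pos hw0 hη₁0
    have e : w * η₁ * (X : ℝ) ^ 2 ≤ 8 := by
      calc w * η₁ * (X : ℝ) ^ 2 ≤ 8 * (X : ℝ) ^ 8 * η₁ * (X : ℝ) ^ 2 := by gcongr
        _ = 8 := by
          rw [hη₁]
          field_simp
    have : (X : ℝ) ^ 2 ≤ OmF E₀ η η₁ σ (kap η σ τ y) := by
      refine le_of_mul_le_mul_left ?_ hwη
      linarith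
    exact_mod_cast this
  · intro y hy
    obtain ⟨t1, -, -, t4, -⟩ := pt y hy
    obtain ⟨f1, f2⟩ := floor_mul (a := cc η σ (kap η σ τ y).2 - Real.log |τ y|) hη₁0
    have hw0 := Real.exp_pos (cc η σ (kap η σ τ y).2)
    set c := cc η σ (kap η σ τ y).2 with hc
    set d := η₁ * ysF η η₁ σ τ y - (c - Real.log |τ y|) with hd
    have d1 : d ≤ 0 := by
      rw [hd]
      unfold ysF
      linarith
    have d2 : -η₁ ≤ d := by
      rw [hd]
      unfold ysF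
      linarith
    have e1 : τ y * Real.exp (η₁ * ysF η η₁ σ τ y) = TcF η σ (kap η σ τ y) * Real.exp d := by
      have e2 : η₁ * ysF η η₁ σ τ y = c + d - Real.log |τ y| := by
        rw [hd]
        ring
      rw [e2, Real.exp_sub, Real.exp_add, Real.exp_log (abs_pos.2 t1)]
      unfold TcF
      rw [← hc]
      have e3 := sign_mul η σ τ y
      have e4 := (abs_pos.2 t1).ne'
      calc τ y * (Real.exp c * Real.exp d / |τ y|)
          = ((kap η σ τ y).1 : ℝ) * |τ y| * (Real.exp c * Real.exp d / |τ y|) := by rw [e3]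
        _ = ((kap η σ τ y).1 : ℝ) * Real.exp c * Real.exp d := by field_simp
    rw [e1, ← mul_one_sub, abs_mul, abs_Tc, ← hc]
    have g1 : Real.exp d ≤ 1 := Real.exp_le_one_iff.2 d1
    have g2 : 1 - Real.exp d ≤ η₁ := by linarith [Real.add_one_le_exp d]
    rw [abs_of_nonneg (by linarith)]
    calc Real.exp c * (1 - Real.exp d) ≤ 8 * (X : ℝ) ^ 8 * η₁ :=
          mul_le_mul t4 g2 (by linarith) (by positivity)
      _ ≤ 12 * E₀ := by linarith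
  · intro y hy
    obtain ⟨-, -, -, t4, -⟩ := pt y hy
    have o := (om (kap η σ τ y)).2
    rw [abs_Tc]
    have := mul_le_mul_of_nonneg_right t4 hη₁0.le
    nlinarith
  · intro y hy
    obtain ⟨-, -, -, t4, -⟩ := pt y hy
    rw [abs_Tc]
    calc _ ≤ 8 * (X : ℝ) ^ 8 := t4
      _ ≤ X * (X : ℝ) ^ 8 := mul_le_mul_of_nonneg_right (by linarith) (by positivity)
      _ = (X : ℝ) ^ 9 := by ring

end GeoLAux

open GeoLAux in
theorem geoL {X J P : ℕ} {E₀ ε : ℝ} {Y : Finset ℤ} {τ : ℤ → ℝ} {E : Finset (ℤ × Lb)}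
    (H : GeoHyp X J P E₀ ε Y τ E)
    (h : ∀ e ∈ E, E₀ / (J / X ^ 10) < |τ e.1 * xx (J / X ^ 10) e.1|) :
    ∃ E' ⊆ E, E.card ≤ 2 * E'.card ∧ ∃ (S₁ : Finset ℤ) (κ : ℤ → ℤ × ℤ) (Tc : ℤ × ℤ → ℝ)
      (Om : ℤ × ℤ → ℕ) (ys : ℤ → ℤ), Geo X (J / X ^ 10) (1 / X ^ 10) E₀ τ E' S₁ κ Tc Om ys := by
  obtain ⟨η, hη⟩ : ∃ η : ℝ, η = J / X ^ 10 := ⟨_, rfl⟩
  have hX : (10 : ℝ) ≤ X := by exact_mod_cast H.hX
  have hJ : (X : ℝ) ^ 2 ≤ J := by exact_mod_cast H.hJ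
  have hη0 : 0 < η := by
    rw [hη]
    exact div_pos (by nlinarith) (by positivity)
  have hη' : η ≤ 1 / 10 := hη ▸ H.small
  have hE0 : 0 < E₀ := by linarith [H.E2]
  rw [← hη] at h ⊢
  have main : ∀ σ : ℝ, ∃ (S₁ : Finset ℤ) (κ : ℤ → ℤ × ℤ) (Tc : ℤ × ℤ → ℝ)
      (Om : ℤ × ℤ → ℕ) (ys : ℤ → ℤ), Geo X η (1 / X ^ 10) E₀ τ
        (E.filter fun e => kap η σ τ (st (ap η) e.1 e.2) = kap η σ τ e.1) S₁ κ Tc Om ys :=
    fun σ => ⟨_, _, _, _, _, geo_sigma (sub_hyp H (filter_subset _ _)) hη rfl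
      (fun e he => h e (mem_filter.1 he).1) σ fun e he => (mem_filter.1 he).2⟩
  have hsub : E ⊆ (E.filter fun e => kap η 0 τ (st (ap η) e.1 e.2) = kap η 0 τ e.1) ∪
      E.filter fun e => kap η (1 / 2) τ (st (ap η) e.1 e.2) = kap η (1 / 2) τ e.1 := by
    intro e he
    obtain ⟨t, ht, hst⟩ := inv_step H he
    rw [← hη] at ht hst
    obtain ⟨r0, -, r2⟩ := ratio hη0 hη' hE0 ht (h e he) hst
    have hs : 0 < τ (st (ap η) e.1 e.2) ↔ 0 < τ e.1 := by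
      have hp : ∀ y, 0 < τ y ↔ 0 < τ y * xx η y :=
        fun y => (mul_pos_iff_of_pos_right (xx_pos η y)).symm
      rw [hp (st (ap η) e.1 e.2), hp e.1]
      rcases div_pos_iff.1 r0 with ⟨a, b⟩ | ⟨a, b⟩
      · exact iff_of_true a b
      · exact iff_of_false a.not_gt b.not_gt
    rcases windows (by linarith : 0 < 5 * η) r2 with w | w
    · refine mem_union_left _ (mem_filter.2 ⟨he, ?_⟩)
      unfold kap
      simp only [hs, add_zero, w]
    · refine mem_union_right _ (mem_filter.2 ⟨he, ?_⟩)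
      unfold kap
      simp only [hs, w]
  have hc := (card_le_card hsub).trans (card_union_le _ _)
  rcases le_total (E.filter fun e => kap η 0 τ (st (ap η) e.1 e.2) = kap η 0 τ e.1).card
    (E.filter fun e => kap η (1 / 2) τ (st (ap η) e.1 e.2) = kap η (1 / 2) τ e.1).card with l | l
  · exact ⟨_, filter_subset _ _, by omega, main (1 / 2)⟩
  · exact ⟨_, filter_subset _ _, by omega, main 0⟩

open GeoLAux in
theorem geo {X J P : ℕ} {E₀ ε : ℝ} {Y : Finset ℤ} {τ : ℤ → ℝ} {E : Finset (ℤ × Lb)}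
    (H : GeoHyp X J P E₀ ε Y τ E) :
    ∃ E' ⊆ E, E.card ≤ 4 * E'.card ∧ ∃ (S₁ : Finset ℤ) (κ : ℤ → ℤ × ℤ) (Tc : ℤ × ℤ → ℝ)
      (Om : ℤ × ℤ → ℕ) (ys : ℤ → ℤ), Geo X (J / X ^ 10) (1 / X ^ 10) E₀ τ E' S₁ κ Tc Om ys := by
  have hc := card_filter_add_card_filter_not (s := E)
    fun e => |τ e.1 * xx (J / X ^ 10) e.1| ≤ E₀ / (J / X ^ 10)
  rcases le_total (E.filter fun e => |τ e.1 * xx (J / X ^ 10) e.1| ≤ E₀ / (J / X ^ 10)).card
    (E.filter fun e => ¬ |τ e.1 * xx (J / X ^ 10) e.1| ≤ E₀ / (J / X ^ 10)).card with l | l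
  · obtain ⟨E', h1, h2, h3⟩ := geoL (sub_hyp H (filter_subset
      (fun e => ¬ |τ e.1 * xx (J / X ^ 10) e.1| ≤ E₀ / (J / X ^ 10)) E))
      fun e he => not_le.1 (mem_filter.1 he).2
    exact ⟨E', h1.trans (filter_subset _ _), by omega, h3⟩
  · obtain ⟨E', h1, h2, h3⟩ := geoS (sub_hyp H (filter_subset
      (fun e => |τ e.1 * xx (J / X ^ 10) e.1| ≤ E₀ / (J / X ^ 10)) E))
      fun e he => (mem_filter.1 he).2
    exact ⟨E', h1.trans (filter_subset _ _), by omega, h3⟩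

end Pool.Agent.P.MP_a9a441_nt.FU
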