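import Pool.Agent.P.MP_a9a441_nt.FU.Bas

/-!
Classes for small invariants. η = J / X^10, η₁ = 1 / X^10, T y = τ y * xx η y. `inv_step`: with
y' = st y (p, p'), xx η y' = xx η y * (p' / p) * exp t, t = (η ap p' - log p') - (η ap p - log p),
|t| ≤ η; xx η y / p ≤ 4 X / P, exp η ≤ 2. `windows`: see the paper. `geoS`: |T' - T| ≤ 3 E₀;
S₁ = points of Y with |T y| ≤ 2 E₀ / η; κ y = (0, ⌊T y / (6 E₀) + σ⌋), σ ∈ {0, 1/2} chosen so that
half of the edges keep κ; Tc (_, n) = 6 E₀ (n - σ + 1/2); ys y = J y; Om = 4 J.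
-/

namespace Pool.Agent.P.MP_a9a441_nt.FU

open Finset Filter Pool.Agent.Lib.LargeSieve
open scoped ComplexConjugate

namespace GeoSAux

theorem win1 {a b : ℝ} (h1 : a ≤ b) (h2 : b ≤ a + 1 / 2) :
    ⌊a⌋ = ⌊b⌋ ∨ ⌊a + 1 / 2⌋ = ⌊b + 1 / 2⌋ := by
  by_cases h : ⌊a⌋ = ⌊b⌋
  · exact Or.inl h
  · right
    have h3 : ⌊a⌋ < ⌊b⌋ := lt_of_le_of_ne (Int.floor_le_floor h1) h
    have h4 : a < (⌊b⌋ : ℝ) := Int.floor_lt.mp h3
    have h5 := Int.floor_le b
    have e1 : ⌊a + 1 / 2⌋ = ⌊b⌋ := by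
      rw [Int.floor_eq_iff]
      constructor <;> linarith
    have e2 : ⌊b + 1 / 2⌋ = ⌊b⌋ := by
      rw [Int.floor_eq_iff]
      constructor <;> linarith
    rw [e1, e2]

theorem eta_pos {X J P : ℕ} {E₀ ε : ℝ} {Y : Finset ℤ} {τ : ℤ → ℝ} {E : Finset (ℤ × Lb)}
    (H : GeoHyp X J P E₀ ε Y τ E) : (0 : ℝ) < J / X ^ 10 := by
  have hX : (10 : ℝ) ≤ X := by exact_mod_cast H.hX
  have hJ : (X : ℝ) ^ 2 ≤ J := by exact_mod_cast H.hJ
  have : (0 : ℝ) < J := by nlinarith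
  positivity

theorem fine {η₁ : ℝ} (h₁ : 0 < η₁) {J : ℕ} (hJ : 1 ≤ J) (p : ℕ) :
    -(J : ℤ) < J * ap (J * η₁) p - ap η₁ p ∧ J * ap (J * η₁) p - ap η₁ p < 1 := by
  have hJ' : (1 : ℝ) ≤ J := by exact_mod_cast hJ
  have hη : 0 < J * η₁ := by positivity
  have a1 := ap_le hη p
  have a2 := lt_ap hη p
  have a3 := ap_le h₁ p
  have a4 := lt_ap h₁ p
  constructor
  · have : -(J : ℝ) < J * (ap (J * η₁) p : ℝ) - ap η₁ p := by
      by_contra hc
      push Not at hc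
      nlinarith [mul_le_mul_of_nonneg_left hc h₁.le]
    exact_mod_cast this
  · have : J * (ap (J * η₁) p : ℝ) - ap η₁ p < 1 := by
      by_contra hc
      push Not at hc
      nlinarith [mul_le_mul_of_nonneg_left hc h₁.le]
    exact_mod_cast this

theorem centre {E₀ T σ : ℝ} (hE : 0 < E₀) :
    |6 * E₀ * ((⌊T / (2 * (3 * E₀)) + σ⌋ : ℝ) - σ + 1 / 2) - T| ≤ 3 * E₀ := by
  have h1 := Int.floor_le (T / (2 * (3 * E₀)) + σ)
  have h2 := Int.lt_floor_add_one (T / (2 * (3 * E₀)) + σ)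
  set n : ℝ := (⌊T / (2 * (3 * E₀)) + σ⌋ : ℝ)
  have h3 : T = 6 * E₀ * (T / (2 * (3 * E₀))) := by field_simp; ring
  set u : ℝ := T / (2 * (3 * E₀))
  rw [abs_le, h3]
  constructor <;> nlinarith

end GeoSAux

theorem windows {u u' e : ℝ} (he : 0 < e) (h : |u - u'| ≤ e) :
    ⌊u / (2 * e)⌋ = ⌊u' / (2 * e)⌋ ∨ ⌊u / (2 * e) + 1 / 2⌋ = ⌊u' / (2 * e) + 1 / 2⌋ := by
  have h2 : (0 : ℝ) < 2 * e := by positivity
  have h3 : |u / (2 * e) - u' / (2 * e)| ≤ 1 / 2 := by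
    rw [← sub_div, abs_div, abs_of_pos h2, div_le_iff₀ h2]
    linarith
  rw [abs_le] at h3
  rcases le_total (u / (2 * e)) (u' / (2 * e)) with h4 | h4
  · exact GeoSAux.win1 h4 (by linarith)
  · rcases GeoSAux.win1 h4 (by linarith) with h5 | h5
    · exact Or.inl h5.symm
    · exact Or.inr h5.symm

theorem inv_step {X J P : ℕ} {E₀ ε : ℝ} {Y : Finset ℤ} {τ : ℤ → ℝ} {E : Finset (ℤ × Lb)}
    (H : GeoHyp X J P E₀ ε Y τ E) {e : ℤ × Lb} (he : e ∈ E) :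
    ∃ t : ℝ, |t| ≤ J / X ^ 10 ∧
      |τ (st (ap (J / X ^ 10)) e.1 e.2) * xx (J / X ^ 10) (st (ap (J / X ^ 10)) e.1 e.2) -
        τ e.1 * xx (J / X ^ 10) e.1 * Real.exp t| ≤ E₀ := by
  have hη := GeoSAux.eta_pos H
  have hs := H.small
  obtain ⟨m1, -, m3, -, m5, -⟩ := H.mem e he
  have hn := H.near e he
  have hx := H.hY _ m1
  have hEε := H.Eε
  set η : ℝ := J / X ^ 10 with hηd
  have hP : (0 : ℝ) < P := by exact_mod_cast H.hP
  have hp : (P : ℝ) ≤ e.2.1 := by exact_mod_cast m3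
  have hp' : (P : ℝ) ≤ e.2.2 := by exact_mod_cast m5
  have hp0 : (0 : ℝ) < e.2.1 := hP.trans_le hp
  have hp0' : (0 : ℝ) < e.2.2 := hP.trans_le hp'
  have a1 := ap_le hη e.2.1
  have a2 := lt_ap hη e.2.1
  have a3 := ap_le hη e.2.2
  have a4 := lt_ap hη e.2.2
  set t : ℝ := (η * ap η e.2.2 - Real.log e.2.2) - (η * ap η e.2.1 - Real.log e.2.1) with ht
  have ht1 : |t| ≤ η := by
    rw [abs_le]
    constructor <;> linarith
  refine ⟨t, ht1, ?_⟩
  have hxx : xx η (st (ap η) e.1 e.2) = xx η e.1 * Real.exp t * e.2.2 / e.2.1 := by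
    rw [eq_div_iff hp0.ne']
    have e1 : ((e.2.1 : ℕ) : ℝ) = Real.exp (Real.log e.2.1) := (Real.exp_log hp0).symm
    have e2 : ((e.2.2 : ℕ) : ℝ) = Real.exp (Real.log e.2.2) := (Real.exp_log hp0').symm
    calc xx η (st (ap η) e.1 e.2) * e.2.1
        = xx η (st (ap η) e.1 e.2) * Real.exp (Real.log e.2.1) := by rw [← e1]
      _ = xx η e.1 * Real.exp t * Real.exp (Real.log e.2.2) := by
        unfold xx st
        rw [← Real.exp_add, ← Real.exp_add, ← Real.exp_add, ht]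
        congr 1
        push_cast
        ring
      _ = xx η e.1 * Real.exp t * e.2.2 := by rw [← e2]
  have hid : τ (st (ap η) e.1 e.2) * xx η (st (ap η) e.1 e.2) - τ e.1 * xx η e.1 * Real.exp t =
      -(xx η e.1 * Real.exp t / e.2.1) *
        ((e.2.1 : ℝ) * τ e.1 - e.2.2 * τ (st (ap η) e.1 e.2)) := by
    rw [hxx]
    field_simp
    ring
  have hxp := xx_pos η e.1
  have het : Real.exp t ≤ 2 := by
    have h1 : t ≤ η := (le_abs_self _).trans ht1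
    have h2 := exp_sub_one_le hη.le (by linarith)
    have h3 := Real.exp_le_exp.mpr h1
    linarith
  have het0 := Real.exp_pos t
  have hε : 0 ≤ ε := (abs_nonneg _).trans hn
  have hq : xx η e.1 * Real.exp t / e.2.1 ≤ 8 * X / P := by
    refine div_le_div₀ (by positivity) ?_ hP hp
    nlinarith [hx.2]
  rw [hid, abs_mul, abs_neg, abs_of_pos (by positivity)]
  calc xx η e.1 * Real.exp t / e.2.1 *
        |(e.2.1 : ℝ) * τ e.1 - e.2.2 * τ (st (ap η) e.1 e.2)| ≤ 8 * X / P * ε :=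
        mul_le_mul hq hn (abs_nonneg _) (by positivity)
    _ = 8 * ε * X / P := by ring
    _ ≤ E₀ := hEε

theorem geoS {X J P : ℕ} {E₀ ε : ℝ} {Y : Finset ℤ} {τ : ℤ → ℝ} {E : Finset (ℤ × Lb)}
    (H : GeoHyp X J P E₀ ε Y τ E)
    (h : ∀ e ∈ E, |τ e.1 * xx (J / X ^ 10) e.1| ≤ E₀ / (J / X ^ 10)) :
    ∃ E' ⊆ E, E.card ≤ 2 * E'.card ∧ ∃ (S₁ : Finset ℤ) (κ : ℤ → ℤ × ℤ) (Tc : ℤ × ℤ → ℝ)
      (Om : ℤ × ℤ → ℕ) (ys : ℤ → ℤ), Geo X (J / X ^ 10) (1 / X ^ 10) E₀ τ E' S₁ κ Tc Om ys := by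
  classical
  have hη := GeoSAux.eta_pos H
  have hs := H.small
  have hE9 := H.E9
  have hE : 0 < E₀ := by linarith [H.E2]
  have hX : (10 : ℝ) ≤ X := by exact_mod_cast H.hX
  have hJ1 : 1 ≤ J := le_trans (Nat.one_le_pow _ _ (by have := H.hX; omega)) H.hJ
  have hJ1' : (1 : ℝ) ≤ J := by exact_mod_cast hJ1
  have hη₁ : (0 : ℝ) < 1 / X ^ 10 := by positivity
  have hηe : (J : ℝ) / X ^ 10 = J * (1 / X ^ 10) := by ring
  have hstep : ∀ e ∈ E, ∃ t : ℝ, |t| ≤ J / X ^ 10 ∧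
      |τ (st (ap (J / X ^ 10)) e.1 e.2) * xx (J / X ^ 10) (st (ap (J / X ^ 10)) e.1 e.2) -
        τ e.1 * xx (J / X ^ 10) e.1 * Real.exp t| ≤ E₀ := fun e he => inv_step H he
  have hmem := H.mem
  have hfine := fun p => GeoSAux.fine hη₁ hJ1 p
  rw [← hηe] at hfine
  set η : ℝ := J / X ^ 10 with hηd
  set η₁ : ℝ := 1 / X ^ 10 with hη₁d
  set T : ℤ → ℝ := fun y => τ y * xx η y with hT
  have hEη : 3 * E₀ ≤ E₀ / η := by
    rw [le_div_iff₀ hη]
    nlinarith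
  have hEη0 : E₀ / η * η = E₀ := by field_simp
  have hdiff : ∀ e ∈ E, |T e.1 - T (st (ap η) e.1 e.2)| ≤ 3 * E₀ := by
    intro e he
    obtain ⟨t, ht, h2⟩ := hstep e he
    have h3 := h e he
    have h4 := Real.abs_exp_sub_one_le (x := t) (by linarith)
    have h5 : |T e.1 * (Real.exp t - 1)| ≤ E₀ / η * (2 * η) := by
      rw [abs_mul]
      exact mul_le_mul h3 (by linarith) (abs_nonneg _) (by positivity)
    have h6 : T e.1 - T (st (ap η) e.1 e.2) =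
        -(T (st (ap η) e.1 e.2) - T e.1 * Real.exp t) - T e.1 * (Real.exp t - 1) := by ring
    rw [h6]
    refine (abs_sub _ _).trans ?_
    rw [abs_neg]
    have h7 : |T (st (ap η) e.1 e.2) - T e.1 * Real.exp t| ≤ E₀ := h2
    nlinarith
  have main : ∀ σ : ℝ, ∃ (S₁ : Finset ℤ) (κ : ℤ → ℤ × ℤ) (Tc : ℤ × ℤ → ℝ)
      (Om : ℤ × ℤ → ℕ) (ys : ℤ → ℤ), Geo X η η₁ E₀ τ (E.filter fun e =>
        ⌊T e.1 / (2 * (3 * E₀)) + σ⌋ = ⌊T (st (ap η) e.1 e.2) / (2 * (3 * E₀)) + σ⌋)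
        S₁ κ Tc Om ys := by
    intro σ
    have hTc : ∀ y ∈ Y.filter (fun y => |T y| ≤ 2 * (E₀ / η)),
        |6 * E₀ * ((⌊T y / (2 * (3 * E₀)) + σ⌋ : ℝ) - σ + 1 / 2)| ≤ 2 * (E₀ / η) + 3 * E₀ := by
      intro y hy
      have h1 := (mem_filter.mp hy).2
      have h2 := GeoSAux.centre (T := T y) (σ := σ) hE
      have h3 := abs_sub_abs_le_abs_sub
        (6 * E₀ * ((⌊T y / (2 * (3 * E₀)) + σ⌋ : ℝ) - σ + 1 / 2)) (T y)
      linarith
    refine ⟨Y.filter (fun y => |T y| ≤ 2 * (E₀ / η)), fun y => (0, ⌊T y / (2 * (3 * E₀)) + σ⌋),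
      fun c => 6 * E₀ * ((c.2 : ℝ) - σ + 1 / 2), fun _ => 4 * J, fun y => J * y,
      ?_, ?_, ?_, ?_, ?_, ?_, ?_⟩
    · intro e he
      obtain ⟨he1, he2⟩ := mem_filter.mp he
      obtain ⟨m1, m2, -⟩ := hmem e he1
      have h1 : |T e.1| ≤ E₀ / η := h e he1
      have h2 := hdiff e he1
      have h3 := abs_sub_abs_le_abs_sub (T (st (ap η) e.1 e.2)) (T e.1)
      rw [abs_sub_comm] at h2
      refine ⟨mem_filter.mpr ⟨m1, by linarith⟩, mem_filter.mpr ⟨m2, by linarith⟩, ?_, ?_⟩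
      · simp only [he2]
      · obtain ⟨f1, f2⟩ := hfine e.2.1
        obtain ⟨f3, f4⟩ := hfine e.2.2
        have h4 : (J : ℤ) * e.1 - ap η₁ e.2.1 - (J * st (ap η) e.1 e.2 - ap η₁ e.2.2) =
            (J * ap η e.2.1 - ap η₁ e.2.1) - (J * ap η e.2.2 - ap η₁ e.2.2) := by
          unfold st
          ring
        have h5 : |(J * ap η e.2.1 - ap η₁ e.2.1) - (J * ap η e.2.2 - ap η₁ e.2.2)| ≤ 2 * J := by
          rw [abs_le]
          constructor <;> omega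
        simp only [h4]
        push_cast
        linarith
    · intro y _
      have h1 : η₁ * ((J * y : ℤ) : ℝ) - η * y = 0 := by
        rw [hηe]
        push_cast
        ring
      simp only [h1, abs_zero]
      positivity
    · intro y _
      rw [hηe]
      push_cast
      nlinarith
    · intro y _
      have := H.hJ
      show X ^ 2 ≤ 4 * J
      omega
    · intro y _
      have h1 : η₁ * ((J * y : ℤ) : ℝ) = η * y := by
        rw [hηe]
        push_cast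
        ring
      have h2 := GeoSAux.centre (T := T y) (σ := σ) hE
      simp only [h1]
      have h3 : τ y * Real.exp (η * y) = T y := rfl
      rw [h3]
      linarith
    · intro y hy
      have h1 := hTc y hy
      have h2 : ((4 * J : ℕ) : ℝ) * η₁ = 4 * η := by
        rw [hηe]
        push_cast
        ring
      simp only [h2]
      have h3 := mul_le_mul_of_nonneg_right h1 (by positivity : 0 ≤ 4 * η)
      nlinarith
    · intro y hy
      have h1 := hTc y hy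
      have h2 : 3 * E₀ / η = 3 * (E₀ / η) := by ring
      simp only
      linarith
  have hcov : E ⊆ (E.filter fun e =>
        ⌊T e.1 / (2 * (3 * E₀)) + 0⌋ = ⌊T (st (ap η) e.1 e.2) / (2 * (3 * E₀)) + 0⌋) ∪
      (E.filter fun e =>
        ⌊T e.1 / (2 * (3 * E₀)) + 1 / 2⌋ = ⌊T (st (ap η) e.1 e.2) / (2 * (3 * E₀)) + 1 / 2⌋) := by
    intro e he
    rcases windows (by positivity : 0 < 3 * E₀) (hdiff e he) with h1 | h1
    · exact mem_union_left _ (mem_filter.mpr ⟨he, by simpa only [add_zero] using h1⟩)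
    · exact mem_union_right _ (mem_filter.mpr ⟨he, h1⟩)
  have hc := (card_le_card hcov).trans (card_union_le _ _)
  by_cases hb : E.card ≤ 2 * (E.filter fun e =>
        ⌊T e.1 / (2 * (3 * E₀)) + 0⌋ = ⌊T (st (ap η) e.1 e.2) / (2 * (3 * E₀)) + 0⌋).card
  · exact ⟨_, filter_subset _ _, hb, main 0⟩
  · exact ⟨_, filter_subset _ _, by omega, main (1 / 2)⟩

end Pool.Agent.P.MP_a9a441_nt.FU
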