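import Pool.Agent.P.MP_a9a441_nt.FU.Bas
import Pool.Agent.P.MP_a1177c_nt.LC.Sharp

/-!
From Gaussian weights with small twists to a sharp cutoff, for bounded coefficients. Copy the
proof of `Pool.Agent.P.MP_a1177c_nt.LC.sharp` (and of `SharpAux.cutoff`) with the majorant 1 in
place of the cardinality of shells; `SharpAux.trig_approx`, `SharpAux.trap*` and
`MR.local_sum_le` can be used as they are.
-/

namespace Pool.Agent.P.MP_a9a441_nt.FU

open Finset Filter Pool.Agent.Lib.LargeSieve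
open scoped ComplexConjugate

namespace SharpAux

open Pool.Agent.P.MP_a1177c_nt.MR Pool.Agent.P.MP_a1177c_nt.LC.SharpAux

/-- The majorant. -/
noncomputable def rr (n : ℕ) : ℝ := if n = 0 then 0 else 1

lemma rr_nonneg (n : ℕ) : 0 ≤ rr n := by
  unfold rr
  split_ifs <;> norm_num

lemma sum_rr (y : ℕ) (g : ℕ → ℝ) : ∑ n ∈ range (y + 1), rr n * g n = ∑ n ∈ Ioc 0 y, g n := by
  induction y with
  | zero => simp [rr]
  | succ y ih => rw [sum_range_succ, ih, sum_Ioc_succ_top (Nat.zero_le y)]; simp [rr]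

lemma sum_range_eq (y : ℕ) (c : ℕ → ℂ) (h0 : c 0 = 0) :
    ∑ n ∈ Ioc 0 y, c n = ∑ n ∈ range (y + 1), c n := by
  induction y with
  | zero => simp [h0]
  | succ y ih => rw [sum_range_succ, ← ih, sum_Ioc_succ_top (Nat.zero_le y)]

/-- Replacing the sharp cutoff by the trapezoid. -/
lemma cutoff {U δ x : ℝ} (hδ : 0 < δ) (c : ℕ → ℂ) (hc : ∀ n, ‖c n‖ ≤ rr n) :
    ‖∑ n ∈ range (⌊Real.exp x⌋₊ + 1), c n -
        ∑' n : ℕ, c n * (trap U δ (Real.log n - x) : ℝ)‖ ≤
      Real.exp x * Real.exp (-U) + (Real.exp x * Real.exp δ - Real.exp x + 1) := by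
  set y := Real.exp x with hy
  have hy0 : 0 < y := Real.exp_pos x
  set N' := ⌊y * Real.exp δ⌋₊ with hN'
  have hle : ⌊y⌋₊ ≤ N' := Nat.floor_le_floor (le_mul_of_one_le_right hy0.le (Real.one_le_exp hδ.le))
  have h1 : ∑' n : ℕ, c n * (trap U δ (Real.log n - x) : ℝ) =
      ∑ n ∈ range (N' + 1), c n * (trap U δ (Real.log n - x) : ℝ) := by
    refine tsum_eq_sum fun n hn => ?_
    have h2 : N' < n := by simpa [Nat.lt_succ_iff] using hn
    have h3 : y * Real.exp δ < n := (Nat.floor_lt (by positivity)).1 h2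
    have h4 : x + δ ≤ Real.log n := by
      rw [Real.le_log_iff_exp_le (by linarith [mul_pos hy0 (Real.exp_pos δ)]), Real.exp_add]
      exact h3.le
    rw [trap_eq_zero hδ (Or.inl (by linarith))]
    simp
  have h2 : ∑ n ∈ range (⌊y⌋₊ + 1), c n =
      ∑ n ∈ range (N' + 1), c n * ((if n ≤ ⌊y⌋₊ then 1 else 0 : ℝ) : ℂ) := by
    rw [← sum_subset (s₁ := range (⌊y⌋₊ + 1)) (s₂ := range (N' + 1))
      (range_subset_range.2 (by omega))]
    · refine sum_congr rfl fun n hn => ?_
      rw [if_pos (Nat.lt_succ_iff.1 (mem_range.1 hn))]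
      simp
    · intro n _ hn
      rw [if_neg (fun h => hn (mem_range.2 (Nat.lt_succ_iff.2 h)))]
      simp
  rw [h1, h2, ← sum_sub_distrib]
  have h3 : ∀ n ∈ range (N' + 1), ‖c n * ((if n ≤ ⌊y⌋₊ then 1 else 0 : ℝ) : ℂ) -
      c n * (trap U δ (Real.log n - x) : ℝ)‖ ≤ rr n *
      ((if (n : ℝ) ≤ y * Real.exp (-U) then 1 else 0) + (if y < n then 1 else 0)) := by
    intro n _
    rw [← mul_sub, norm_mul, ← Complex.ofReal_sub, Complex.norm_real, Real.norm_eq_abs]
    refine mul_le_mul (hc n) ?_ (abs_nonneg _) (rr_nonneg _)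
    have t0 := trap_nonneg U δ (Real.log n - x)
    have t1 := trap_le_one U δ (Real.log n - x)
    by_cases ha : (n : ℝ) ≤ y * Real.exp (-U)
    · rw [if_pos ha, abs_le]
      constructor <;> split_ifs <;> linarith
    · rw [if_neg ha]
      by_cases hb : y < n
      · rw [if_pos hb, abs_le]
        constructor <;> split_ifs <;> linarith
      · rw [if_neg hb, if_pos (Nat.le_floor (not_lt.1 hb))]
        have hn0 : (0 : ℝ) < n := lt_trans (by positivity) (not_le.1 ha)
        have h5 : x + -U ≤ Real.log n := by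
          rw [Real.le_log_iff_exp_le hn0, Real.exp_add]
          exact (not_le.1 ha).le
        have h6 : Real.log n ≤ x := by
          rw [Real.log_le_iff_le_exp hn0]
          exact not_lt.1 hb
        rw [trap_eq_one hδ (by linarith) (by linarith)]
        simp
  refine (norm_sum_le _ _).trans ((sum_le_sum h3).trans ?_)
  rw [sum_rr, sum_add_distrib]
  refine add_le_add ?_ ?_
  · rw [← sum_filter, sum_const, nsmul_eq_mul, mul_one]
    refine le_trans ?_ (Nat.floor_le (a := y * Real.exp (-U)) (by positivity))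
    refine Nat.cast_le.2 ?_
    refine le_trans (card_le_card (t := Ioc 0 ⌊y * Real.exp (-U)⌋₊) fun a ha => ?_) (by simp)
    obtain ⟨h4, h5⟩ := mem_filter.1 ha
    exact mem_Ioc.2 ⟨(mem_Ioc.1 h4).1, Nat.le_floor h5⟩
  · rw [← sum_filter, sum_const, nsmul_eq_mul, mul_one]
    refine le_trans ?_ (card_Ioc_floor_le hy0.le
      (le_mul_of_one_le_right hy0.le (Real.one_le_exp hδ.le)))
    refine Nat.cast_le.2 (card_le_card fun a ha => ?_)
    obtain ⟨h4, h5⟩ := mem_filter.1 ha
    exact mem_Ioc.2 ⟨(Nat.floor_lt hy0.le).2 h5, (mem_Ioc.1 h4).2⟩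

end SharpAux

open SharpAux Pool.Agent.P.MP_a1177c_nt.LC.SharpAux in
open Pool.Agent.P.MP_a1177c_nt.MR in
theorem sharp (ε : ℝ) (hε : 0 < ε) : ∃ η T x₀ : ℝ, 0 < η ∧ ∀ (c : ℕ → ℂ) (x : ℝ), x₀ ≤ x →
    c 0 = 0 → (∀ n, ‖c n‖ ≤ 1) →
    (∀ τ : ℝ, |τ| ≤ T →
      ‖∑' n : ℕ, c n * (n : ℂ) ^ (-(τ * Complex.I)) * (gw x n : ℝ)‖ ≤ η) →
    ‖∑ n ∈ Ioc 0 ⌊Real.exp x⌋₊, c n‖ ≤ ε * Real.exp x := by
  obtain ⟨C₀, hC₀, Hloc⟩ := local_sum_le
  set U : ℝ := 5 / ε with hU
  have hUpos : 0 < U := by positivity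
  set δ : ℝ := Real.log (1 + ε / 5) with hδ
  have hδpos : 0 < δ := Real.log_pos (by linarith)
  have hδexp : Real.exp δ = 1 + ε / 5 := Real.exp_log (by linarith)
  set V : ℝ → ℂ := fun u => ((Real.exp (u + u ^ 2) * trap U δ u : ℝ) : ℂ) with hV
  have hVc : Continuous V := by
    have := trap_cont U δ
    exact Complex.continuous_ofReal.comp (by fun_prop)
  have hVA : ∀ u, U + 1 + δ ≤ |u| → V u = 0 := by
    intro u hu
    have : trap U δ u = 0 := by
      refine trap_eq_zero hδpos ?_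
      rcases le_abs.1 hu with h | h
      · left; linarith
      · right; linarith
    simp [hV, this]
  set θ : ℝ := ε / (5 * (C₀ * 1)) with hθ
  obtain ⟨s, a, τ, H⟩ := trig_approx V hVc _ hVA θ (by positivity)
  set Sa : ℝ := ∑ k ∈ s, ‖a k‖ with hSa
  have hSa0 : 0 ≤ Sa := sum_nonneg fun _ _ => norm_nonneg _
  refine ⟨ε / (5 * (Sa + 1)), ∑ k ∈ s, |τ k|, Real.log (5 / ε), by positivity,
    fun c x hx hc0 hc1 hτ => ?_⟩
  have hc : ∀ n, ‖c n‖ ≤ rr n := by
    intro n
    unfold rr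
    split_ifs with hn
    · rw [hn, hc0, norm_zero]
    · exact hc1 n
  rw [sum_range_eq _ c hc0]
  set y := Real.exp x with hy
  have hy0 : 0 < y := Real.exp_pos x
  obtain ⟨hs, hb⟩ := Hloc 1 rr rr_nonneg
    (fun y => by
      have h := sum_rr y (fun _ => (1 : ℝ))
      simp only [mul_one, sum_const, nsmul_eq_mul] at h
      rw [h]
      simp) x
  set h : ℕ → ℝ := fun n => rr n * (Real.exp (-|x - Real.log n|) / n) with hh
  -- the twisted sums
  set Fk : ℤ → ℕ → ℂ := fun k n => c n * (n : ℂ) ^ (-(τ k * Complex.I)) * (gw x n : ℝ) with hFk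
  have hpow : ∀ (k : ℤ) (n : ℕ), n ≠ 0 →
      (n : ℂ) ^ (-(τ k * Complex.I)) = Complex.exp (-(τ k * Complex.I) * (Real.log n : ℝ)) := by
    intro k n hn
    rw [Complex.cpow_def_of_ne_zero (by exact_mod_cast hn), Complex.natCast_log, mul_comm]
  have hnorm : ∀ (t u : ℝ), ‖Complex.exp (-(t * Complex.I) * u)‖ = 1 := by
    intro t u
    rw [show -(t * Complex.I) * (u : ℂ) = ((-(t * u) : ℝ) : ℂ) * Complex.I by push_cast; ring,
      Complex.norm_exp_ofReal_mul_I]
  have hFs : ∀ k, Summable (Fk k) := by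
    intro k
    refine Summable.of_norm_bounded (hs.mul_left 3) fun n => ?_
    rcases eq_or_ne n 0 with rfl | hn
    · simp [hFk, gw, hh]
    simp only [hFk, hh]
    rw [norm_mul, norm_mul, hpow k n hn, hnorm, mul_one, Complex.norm_real, gw_eq,
      Real.norm_of_nonneg (by positivity), abs_sub_comm]
    have h1 := exp_neg_sq_le (Real.log n - x)
    calc _ ≤ rr n * (3 * Real.exp (-|Real.log n - x|) / n) :=
          mul_le_mul (hc n) (div_le_div_of_nonneg_right h1 (Nat.cast_nonneg _)) (by positivity)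
            (rr_nonneg _)
      _ = _ := by ring
  -- the remainder
  set R : ℕ → ℂ := fun n => c n * (gw x n : ℝ) * (V (Real.log n - x) -
    ∑ k ∈ s, a k * Complex.exp (-(τ k * Complex.I) * ((Real.log n - x : ℝ) : ℂ))) with hR
  have hRb : ∀ n, ‖R n‖ ≤ θ * h n := by
    intro n
    simp only [hR, hh]
    rw [norm_mul, norm_mul, Complex.norm_real, gw_eq, Real.norm_of_nonneg (by positivity),
      abs_sub_comm]
    have h1 := H (Real.log n - x)
    calc _ = ‖c n‖ * (‖V (Real.log n - x) - ∑ k ∈ s, a k *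
            Complex.exp (-(τ k * Complex.I) * ((Real.log n - x : ℝ) : ℂ))‖ *
            Real.exp (-(Real.log n - x) ^ 2) / n) := by ring
      _ ≤ rr n * (θ * Real.exp (-|Real.log n - x|) / n) :=
          mul_le_mul (hc n) (div_le_div_of_nonneg_right h1 (Nat.cast_nonneg _)) (by positivity)
            (rr_nonneg _)
      _ = _ := by ring
  have hRs : Summable R := Summable.of_norm_bounded (hs.mul_left θ) hRb
  have hRn : ‖∑' n, R n‖ ≤ ε / 5 := by
    refine (tsum_of_norm_bounded (hs.mul_left θ).hasSum hRb).trans ?_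
    rw [tsum_mul_left]
    calc θ * ∑' n, h n ≤ θ * (C₀ * 1) := mul_le_mul_of_nonneg_left hb (by positivity)
      _ = ε / 5 := by rw [hθ]; field_simp
  have hdec : ∀ n : ℕ, c n * (trap U δ (Real.log n - x) : ℝ) =
      (y : ℂ) * (R n + ∑ k ∈ s, a k * Complex.exp (τ k * Complex.I * x) * Fk k n) := by
    intro n
    rcases eq_or_ne n 0 with rfl | hn
    · simp [hR, hFk, hc0]
    have hn0 : (0 : ℝ) < n := by positivity
    have e1 : ∑ k ∈ s, a k * Complex.exp (τ k * Complex.I * x) * Fk k n =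
        c n * (gw x n : ℝ) * ∑ k ∈ s, a k *
          Complex.exp (-(τ k * Complex.I) * ((Real.log n - x : ℝ) : ℂ)) := by
      rw [mul_sum]
      refine sum_congr rfl fun k _ => ?_
      simp only [hFk]
      rw [hpow k n hn, show -(τ k * Complex.I) * ((Real.log n - x : ℝ) : ℂ) =
        τ k * Complex.I * x + -(τ k * Complex.I) * (Real.log n : ℝ) by push_cast; ring,
        Complex.exp_add]
      ring
    have e2 : y * gw x n * Real.exp ((Real.log n - x) + (Real.log n - x) ^ 2) = 1 := by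
      rw [gw_eq, hy, ← mul_div_assoc, div_mul_eq_mul_div, ← Real.exp_add, ← Real.exp_add,
        div_eq_one_iff_eq hn0.ne']
      rw [show x + -(Real.log n - x) ^ 2 + (Real.log n - x + (Real.log n - x) ^ 2) =
        Real.log n by ring, Real.exp_log hn0]
    have e3 : (y : ℂ) * (gw x n : ℝ) *
        (Real.exp ((Real.log n - x) + (Real.log n - x) ^ 2) : ℝ) = 1 := by exact_mod_cast e2
    rw [e1]
    simp only [hR, hV]
    rw [Complex.ofReal_mul]
    linear_combination (-(c n * (trap U δ (Real.log n - x) : ℝ))) * e3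
  have hsum : ∑' n : ℕ, c n * (trap U δ (Real.log n - x) : ℝ) =
      (y : ℂ) * (∑' n, R n + ∑ k ∈ s, a k * Complex.exp (τ k * Complex.I * x) * ∑' n, Fk k n) := by
    rw [tsum_congr hdec]
    exact ((hRs.hasSum.add (hasSum_sum fun k _ =>
      (hFs k).hasSum.mul_left (a k * Complex.exp (τ k * Complex.I * x)))).mul_left _).tsum_eq
  have hmain : ‖∑ k ∈ s, a k * Complex.exp (τ k * Complex.I * x) * ∑' n, Fk k n‖ ≤ ε / 5 := by
    refine (norm_sum_le _ _).trans ?_
    have h1 : ∀ k ∈ s, ‖a k * Complex.exp (τ k * Complex.I * x) * ∑' n, Fk k n‖ ≤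
        ‖a k‖ * (ε / (5 * (Sa + 1))) := by
      intro k hk
      have h2 := hnorm (-τ k) x
      rw [show -(((-τ k : ℝ) : ℂ) * Complex.I) * (x : ℂ) = τ k * Complex.I * x by
        push_cast; ring] at h2
      rw [norm_mul, norm_mul, h2, mul_one]
      exact mul_le_mul_of_nonneg_left
        (hτ (τ k) (single_le_sum (f := fun k => |τ k|) (fun _ _ => abs_nonneg _) hk))
        (norm_nonneg _)
    refine (sum_le_sum h1).trans ?_
    rw [← sum_mul, ← hSa, mul_div_assoc', div_le_div_iff₀ (by positivity) (by norm_num)]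
    nlinarith
  have hT : ‖∑' n : ℕ, c n * (trap U δ (Real.log n - x) : ℝ)‖ ≤ y * (ε / 5 + ε / 5) := by
    rw [hsum, norm_mul, Complex.norm_real, Real.norm_of_nonneg hy0.le]
    exact mul_le_mul_of_nonneg_left ((norm_add_le _ _).trans (add_le_add hRn hmain)) hy0.le
  have hcut := cutoff (U := U) (x := x) hδpos c hc
  rw [← hy, hδexp] at hcut
  have hE : 5 / ε ≤ y := (Real.log_le_iff_le_exp (by positivity)).1 hx
  rw [div_le_iff₀ hε] at hE
  have hUe : Real.exp (-U) ≤ ε / 5 := by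
    refine (exp_neg_le_inv hUpos).trans (le_of_eq ?_)
    rw [hU]; field_simp
  have hUe' : y * Real.exp (-U) ≤ y * (ε / 5) := mul_le_mul_of_nonneg_left hUe hy0.le
  have hfin := norm_le_norm_add_norm_sub' (∑ n ∈ range (⌊y⌋₊ + 1), c n)
    (∑' n : ℕ, c n * (trap U δ (Real.log n - x) : ℝ))
  nlinarith

end Pool.Agent.P.MP_a9a441_nt.FU
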