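import Pool.Agent.P.MP_a9a441_nt.FU.LLam
import Pool.Agent.P.MP_a9a441_nt.FU.Sharp

/-!
Halasz theorem for λ χ n^(2π i τ). With x = log y apply `sharp`, then
`Pool.Agent.P.MP_a1177c_nt.MR.halasz_abstract 1` to c n = λ n χ n ee (τ log n) n^(-i τ'),
L n = Λ n c n, r n = if n = 0 then 0 else 1 (c is completely multiplicative, so
log n c n = ∑ Λ d c d c e by `ArithmeticFunction.vonMangoldt_sum`). Its series at
1 + 1/x + i t is the series of λ χ at 1 + 1/x + i (t + τ' - 2π τ); use `llam χ (C₀ + 1)`.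
See LC/HSharp.lean (`LSeries_tw`, `hs_twist`) for the same steps on Gaussian integers.
-/

namespace Pool.Agent.P.MP_a9a441_nt.FU

open Finset Filter Pool.Agent.Lib.LargeSieve
open scoped ComplexConjugate

namespace HalAux

open scoped ArithmeticFunction.vonMangoldt

/-- The twist. -/
noncomputable def tw (t : ℝ) (n : ℕ) : ℂ := (n : ℂ) ^ (-(t * Complex.I))

theorem tw_mul (t : ℝ) (m n : ℕ) : tw t (m * n) = tw t m * tw t n := by
  simp only [tw, Nat.cast_mul, Complex.natCast_mul_natCast_cpow]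

theorem tw_eq (t : ℝ) {n : ℕ} (hn : n ≠ 0) :
    tw t n = Complex.exp (-(t * Complex.I) * (Real.log n : ℝ)) := by
  have hn' : (n : ℂ) ≠ 0 := by exact_mod_cast hn
  rw [tw, Complex.cpow_def_of_ne_zero hn', Complex.natCast_log, mul_comm]

theorem norm_tw (t : ℝ) {n : ℕ} (hn : n ≠ 0) : ‖tw t n‖ = 1 := by
  rw [tw_eq t hn, Complex.norm_exp]
  simp [-Complex.natCast_log]

theorem ee_tw (τ τ' : ℝ) {n : ℕ} (hn : n ≠ 0) :
    ee (τ * Real.log n) * (n : ℂ) ^ (-(τ' * Complex.I)) = tw (τ' - 2 * Real.pi * τ) n := by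
  change _ * tw τ' n = _
  rw [tw_eq _ hn, tw_eq _ hn, ee, ← Complex.exp_add]
  congr 1
  generalize Real.log n = L
  push_cast
  ring

theorem LSeries_tw (c : ℕ → ℂ) (t : ℝ) (s : ℂ) :
    LSeries (fun n => c n * tw t n) s = LSeries c (s + t * Complex.I) := by
  refine tsum_congr fun n => ?_
  rcases eq_or_ne n 0 with rfl | hn
  · simp
  have hn' : (n : ℂ) ≠ 0 := by exact_mod_cast hn
  rw [LSeries.term_of_ne_zero hn, LSeries.term_of_ne_zero hn, Complex.cpow_add _ _ hn', tw,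
    Complex.cpow_neg]
  simp only [div_eq_mul_inv, mul_inv]
  ring

theorem log_conv {c : ℕ → ℂ} (hm : ∀ m n, c (m * n) = c m * c n) (n : ℕ) :
    (Real.log n : ℂ) * c n = ∑ p ∈ n.divisorsAntidiagonal, ((Λ p.1 : ℝ) * c p.1) * c p.2 := by
  rw [← ArithmeticFunction.vonMangoldt_sum,
    ← Nat.sum_divisorsAntidiagonal (fun i _ : ℕ => (Λ i : ℝ)), Complex.ofReal_sum, sum_mul]
  refine sum_congr rfl fun p hp => ?_
  rw [← (Nat.mem_divisorsAntidiagonal.1 hp).1, hm, mul_assoc]

theorem sum_ind (y : ℕ) : ∑ n ∈ range (y + 1), (if n = 0 then (0 : ℝ) else 1) ≤ 1 * y := by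
  rw [sum_range_succ']
  simp

end HalAux

open HalAux in
theorem hal {q : ℕ} [NeZero q] (χ : DirichletCharacter ℂ q) (C₀ : ℕ) {ε : ℝ} (hε : 0 < ε) :
    ∀ᶠ y : ℝ in atTop, ∀ τ : ℝ, |τ| ≤ y ^ C₀ →
      ‖∑ n ∈ Ioc 0 ⌊y⌋₊, lam n * χ n * ee (τ * Real.log n)‖ ≤ ε * y := by
  obtain ⟨η₁, T, x₀, hη₁, H1⟩ := sharp ε hε
  obtain ⟨η₂, T', x₁, hη₂, H2⟩ := Pool.Agent.P.MP_a1177c_nt.MR.halasz_abstract 1 η₁ hη₁
  have hf1 : ∀ n : ℕ, ‖lam n * χ n‖ ≤ 1 := fun n => by
    rw [norm_mul]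
    exact mul_le_one₀ (norm_lam_le n) (norm_nonneg _) (χ.norm_le_one _)
  filter_upwards [Real.tendsto_log_atTop.eventually (llam χ (C₀ + 1) hη₂),
    Real.tendsto_log_atTop.eventually (eventually_ge_atTop x₀),
    Real.tendsto_log_atTop.eventually (eventually_ge_atTop x₁),
    eventually_ge_atTop (|T + T'| + 8)] with y H3 hx₀ hx₁ hy τ hτ
  have hT := abs_nonneg (T + T')
  have hy1 : 1 ≤ y := by linarith
  have hy0 : 0 < y := by linarith
  have key := H1 (fun n => lam n * χ n * ee (τ * Real.log n)) _ hx₀ (by simp [lam_zero])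
    (fun n => by rw [norm_mul, norm_ee, mul_one]; exact hf1 n) fun τ' hτ' => by
    have e : ∀ n : ℕ, lam n * χ n * ee (τ * Real.log n) * (n : ℂ) ^ (-(τ' * Complex.I)) =
        lam n * χ n * tw (τ' - 2 * Real.pi * τ) n := by
      intro n
      rcases eq_or_ne n 0 with rfl | hn
      · simp [lam_zero]
      · rw [mul_assoc, ee_tw τ τ' hn]
    simp only [e]
    have hc : ∀ n : ℕ, ‖lam n * χ n * tw (τ' - 2 * Real.pi * τ) n‖ ≤
        if n = 0 then (0 : ℝ) else 1 := by
      intro n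
      rcases eq_or_ne n 0 with rfl | hn
      · simp [lam_zero]
      · rw [if_neg hn, norm_mul, norm_tw _ hn, mul_one]
        exact hf1 n
    refine H2 (fun n => lam n * χ n * tw (τ' - 2 * Real.pi * τ) n)
      (fun n => (ArithmeticFunction.vonMangoldt n : ℝ) *
        (lam n * χ n * tw (τ' - 2 * Real.pi * τ) n))
      (fun n => if n = 0 then 0 else 1) _ hx₁ hc sum_ind (fun n => ?_)
      (log_conv fun m n => ?_) fun t ht => ?_
    · have h0 : 0 ≤ ArithmeticFunction.vonMangoldt n := ArithmeticFunction.vonMangoldt_nonneg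
      have h1 : ‖lam n * χ n * tw (τ' - 2 * Real.pi * τ) n‖ ≤ 1 :=
        (hc n).trans (by split_ifs <;> norm_num)
      rw [norm_mul, Complex.norm_real, Real.norm_eq_abs, abs_of_nonneg h0]
      have := mul_le_mul_of_nonneg_left h1 h0
      linarith
    · rw [lam_mul, tw_mul, Nat.cast_mul, map_mul]
      ring
    · rw [LSeries_tw]
      have hp : 1 ≤ y ^ C₀ := one_le_pow₀ hy1
      have hb : |t + (τ' - 2 * Real.pi * τ)| ≤
          Real.exp (((C₀ + 1 : ℕ) : ℝ) * Real.log y) := by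
        rw [Real.exp_nat_mul, Real.exp_log hy0, pow_succ]
        have a1 : |2 * Real.pi * τ| ≤ 8 * y ^ C₀ := by
          rw [abs_mul, abs_of_pos (by positivity : 0 < 2 * Real.pi)]
          exact mul_le_mul (by linarith [Real.pi_le_four]) hτ (abs_nonneg _) (by norm_num)
        have a2 := abs_add_le t (τ' - 2 * Real.pi * τ)
        have a3 := abs_sub τ' (2 * Real.pi * τ)
        have a4 := le_abs_self (T + T')
        have a5 : |T + T'| ≤ |T + T'| * y ^ C₀ := le_mul_of_one_le_right hT hp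
        have a6 := mul_le_mul_of_nonneg_left hy (by positivity : 0 ≤ y ^ C₀)
        linarith
      have h4 := H3 _ hb
      convert h4 using 3
      push_cast
      ring
  rwa [Real.exp_log hy0] at key

end Pool.Agent.P.MP_a9a441_nt.FU
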