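import Pool.Agent.P.MP_a9a441_nt.FU.One

/-!
The induction. Let f = 5 / t^99. G₀ x = (x.2 = [] ∧ Valid). From G of length h define
G' x = Pre h G x ∧ Tst ζ' x ∧ Tst ζ' (rv x) (a `Fam` by `pre_rv`, `rv_rv`). Prove by induction on h:
there are families G₀ (length h), G₁ (length h+1) with G₁ x → G₀ (win 0 h x) ∧ G₀ (win 1 h x),
e₁ - e₀ ≤ (h+1) f, e₀ ≤ h^2 f, where e_i = Pr (¬ G_i). In the step, with A = ¬ G₁ (win 0 (h+1) x),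
B = ¬ G₁ (win 1 (h+1) x): ¬ G₀ (win 1 h x) implies A ∧ B (`win_win`), so
Pr (A ∨ B) ≤ 2 e₁ - e₀ by `Pr_or_add_and`, `Pr_win`; add `Pr_dist` and twice `one` (`Pr_rv`).
-/

namespace Pool.Agent.P.MP_a9a441_nt.FU

open Finset Filter Pool.Agent.Lib.LargeSieve
open scoped ComplexConjugate

namespace IndAux

variable {S : Sys} (C : Chain S)

theorem step {h : ℕ} {G : Pth → Prop} {ζ : ℤ → List ℕ → ℤ} (hF : S.Fam h G ζ)
    (hh : h + 2 ≤ S.t) : ∃ (G' : Pth → Prop) (ζ' : ℤ → List ℕ → ℤ), S.Fam (h + 1) G' ζ' ∧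
      (∀ x, G' x → G (win S.a 0 h x) ∧ G (win S.a 1 h x)) ∧
      C.Pr (h + 1) (fun x => ¬ G' x) ≤
        C.Pr (h + 1) (fun x => ¬ G (win S.a 0 h x) ∨ ¬ G (win S.a 1 h x)) +
          5 / (S.t : ℝ) ^ 99 := by
  obtain ⟨ζ', h1⟩ := C.one hF hh
  refine ⟨fun x => S.Pre h G x ∧ S.Tst (h + 1) ζ' x ∧ S.Tst (h + 1) ζ' (rv S.a x), ζ',
    ⟨fun x hx => hx.1.1, fun x hx => hx.1.2.1, fun x hx => hx.1.2.2.1,
      fun x hx => ⟨Sys.pre_rv hF hx.1, hx.2.2, by rw [rv_rv]; exact hx.2.1⟩, fun x hx => hx.2.1⟩,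
    fun x hx => hx.1.2.2.2, ?_⟩
  have h2 := C.Pr_rv (h + 1) (fun x => S.Pre h G x ∧ ¬ S.Tst (h + 1) ζ' x)
  have h3 := C.Pr_dist (h := h + 1) (by omega)
  have h4 := C.Pr_or_le (h + 1) (fun x => S.Pre h G x ∧ ¬ S.Tst (h + 1) ζ' x)
    (fun x => S.Pre h G (rv S.a x) ∧ ¬ S.Tst (h + 1) ζ' (rv S.a x))
  have h5 := C.Pr_or_le (h + 1) (fun x => ¬ Dist x.2)
    (fun x => (S.Pre h G x ∧ ¬ S.Tst (h + 1) ζ' x) ∨
      (S.Pre h G (rv S.a x) ∧ ¬ S.Tst (h + 1) ζ' (rv S.a x)))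
  have h6 := C.Pr_or_le (h + 1) (fun x => ¬ G (win S.a 0 h x) ∨ ¬ G (win S.a 1 h x))
    (fun x => ¬ Dist x.2 ∨ (S.Pre h G x ∧ ¬ S.Tst (h + 1) ζ' x) ∨
      (S.Pre h G (rv S.a x) ∧ ¬ S.Tst (h + 1) ζ' (rv S.a x)))
  have h7 := C.Pr_mono (h := h + 1)
    (F := fun x => ¬ (S.Pre h G x ∧ S.Tst (h + 1) ζ' x ∧ S.Tst (h + 1) ζ' (rv S.a x)))
    (G := fun x => (¬ G (win S.a 0 h x) ∨ ¬ G (win S.a 1 h x)) ∨
      ¬ Dist x.2 ∨ (S.Pre h G x ∧ ¬ S.Tst (h + 1) ζ' x) ∨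
      (S.Pre h G (rv S.a x) ∧ ¬ S.Tst (h + 1) ζ' (rv S.a x))) fun x k1 k2 k3 => by
      by_cases hp : S.Pre h G x
      · have := Sys.pre_rv hF hp
        tauto
      · unfold Sys.Pre at hp
        tauto
  have h8 : (5 : ℝ) / (S.t : ℝ) ^ 99 =
      1 / (S.t : ℝ) ^ 99 + (2 / (S.t : ℝ) ^ 99 + 2 / (S.t : ℝ) ^ 99) := by ring
  linarith

theorem base : ∃ (G : Pth → Prop) (ζ : ℤ → List ℕ → ℤ), S.Fam 0 G ζ ∧
    C.Pr 0 (fun x => ¬ G x) ≤ 0 := by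
  refine ⟨fun x => x.2.length = 0 ∧ S.Valid x.1 x.2, fun _ _ => 0,
    ⟨fun x hx => hx.1, fun x hx => hx.2, fun x hx => ?_,
      fun x hx => ⟨by rw [length_rv]; exact hx.1, Sys.valid_rv hx.2⟩, fun x hx => ?_⟩, ?_⟩
  · simp [List.length_eq_zero_iff.1 hx.1, Dist, DS, US]
  · simp [List.length_eq_zero_iff.1 hx.1, Sys.Tst, US, act]
  · have h1 := C.Pr_mono (h := 0) (F := fun x => ¬ (x.2.length = 0 ∧ S.Valid x.1 x.2))
      (G := fun _ => ¬ True) fun x k1 k2 k3 => (k3 ⟨k1, k2⟩).elim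
    have h2 := C.Pr_not 0 fun _ => True
    have h3 := C.Pr_true 0
    linarith

theorem main (h : ℕ) (hh : h + 2 ≤ S.t) :
    ∃ (G₀ G₁ : Pth → Prop) (ζ : ℤ → List ℕ → ℤ), S.Fam (h + 1) G₁ ζ ∧
      (∀ x, G₁ x → G₀ (win S.a 0 h x) ∧ G₀ (win S.a 1 h x)) ∧
      C.Pr (h + 1) (fun x => ¬ G₁ x) - C.Pr h (fun x => ¬ G₀ x) ≤
        (h + 1) * (5 / (S.t : ℝ) ^ 99) ∧
      C.Pr h (fun x => ¬ G₀ x) ≤ h ^ 2 * (5 / (S.t : ℝ) ^ 99) := by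
  induction h with
  | zero =>
    obtain ⟨G, ζ, h1, h2⟩ := base C
    obtain ⟨G', ζ', h3, h4, h5⟩ := step C h1 hh
    refine ⟨G, G', ζ', h3, h4, ?_, by simpa using h2⟩
    have h6 := C.Pr_or_le (0 + 1) (fun x => ¬ G (win S.a 0 0 x)) (fun x => ¬ G (win S.a 1 0 x))
    have h7 : C.Pr (0 + 1) _ = _ := C.Pr_win 0 0 1 (fun x => ¬ G x)
    have h8 : C.Pr (0 + 1) _ = _ := C.Pr_win 1 0 0 (fun x => ¬ G x)
    push_cast
    linarith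
  | succ h ih =>
    obtain ⟨G₀, G₁, ζ, h1, h2, h3, h4⟩ := ih (by omega)
    obtain ⟨G₂, ζ', h5, h6, h7⟩ := step C h1 hh
    have hf : (0 : ℝ) ≤ 5 / (S.t : ℝ) ^ 99 := by positivity
    have hh0 : (0 : ℝ) ≤ h := Nat.cast_nonneg h
    refine ⟨G₁, G₂, ζ', h5, h6, ?_, ?_⟩
    · have e1 := C.Pr_or_add_and (h + 1 + 1) (fun x => ¬ G₁ (win S.a 0 (h + 1) x))
        (fun x => ¬ G₁ (win S.a 1 (h + 1) x))
      have e2 := C.Pr_win 0 (h + 1) 1 (fun x => ¬ G₁ x)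
      have e3 := C.Pr_win 1 (h + 1) 0 (fun x => ¬ G₁ x)
      have e4 := C.Pr_win 1 h 1 (fun x => ¬ G₀ x)
      rw [show 0 + (h + 1) + 1 = h + 1 + 1 by omega] at e2
      rw [show 1 + (h + 1) + 0 = h + 1 + 1 by omega] at e3
      rw [show 1 + h + 1 = h + 1 + 1 by omega] at e4
      have e5 := C.Pr_mono (h := h + 1 + 1) (F := fun x => ¬ G₀ (win S.a 1 h x))
        (G := fun x => ¬ G₁ (win S.a 0 (h + 1) x) ∧ ¬ G₁ (win S.a 1 (h + 1) x))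
        fun x _ _ k => ⟨fun k1 => k (by
          have := (h2 _ k1).2
          rwa [win_win (by omega)] at this), fun k1 => k (by
          have := (h2 _ k1).1
          rwa [win_win (by omega)] at this)⟩
      push_cast
      linarith
    · push_cast
      nlinarith [mul_nonneg hh0 hf]

end IndAux

theorem Chain.fam {S : Sys} (C : Chain S) {h : ℕ} (hh : h + 2 ≤ S.t) :
    ∃ (G : Pth → Prop) (ζ : ℤ → List ℕ → ℤ), S.Fam h G ζ ∧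
      C.Pr h (fun x => ¬ G x) ≤ 5 * h ^ 2 / (S.t : ℝ) ^ 99 := by
  rcases h with _ | h
  · obtain ⟨G, ζ, h1, h2⟩ := IndAux.base C
    exact ⟨G, ζ, h1, by simpa using h2⟩
  · obtain ⟨G₀, G₁, ζ, h1, -, h3, h4⟩ := IndAux.main C h (by omega)
    refine ⟨G₁, ζ, h1, ?_⟩
    have hf : (0 : ℝ) ≤ 5 / (S.t : ℝ) ^ 99 := by positivity
    have hh0 : (0 : ℝ) ≤ h := Nat.cast_nonneg h
    have e : (5 : ℝ) * ((h + 1 : ℕ) : ℝ) ^ 2 / (S.t : ℝ) ^ 99 =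
        ((h : ℝ) + 1) ^ 2 * (5 / (S.t : ℝ) ^ 99) := by
      push_cast
      ring
    rw [e]
    nlinarith [mul_nonneg hh0 hf]

end Pool.Agent.P.MP_a9a441_nt.FU
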