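import Pool.Agent.P.MP_a9a441_nt.FU.LU

/-!
The series of λ χ is o(x). The Dirichlet convolution of λ χ and χ is χ times the indicator of the
squares (∑ over d ∣ n of λ d is 1 for squares, else 0), whose series is bounded by ζ(2) ≤ 2 for
re s > 1; so ‖L(λ χ, s)‖ ‖L(χ, s)‖ ≤ 2 (`LSeries_convolution'`; an Euler product argument also
works). For |τ| ≤ 1, ‖L(χ, s)‖ ≥ c₀ > 0 on 1 < re s ≤ 2 by compactness
(`DirichletCharacter.LFunction_ne_zero_of_one_le_re`, `differentiable_LFunction`; for χ = 1 use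
`LFunctionTrivChar₁`). For |τ| ≥ 1 use `DirichletCharacter.norm_LSeries_product_ge_one`,
‖L(1, 1 + 1/x)‖ ≤ 1 + x and `lu q (C₀ + 1)` for χ^2 at 2 τ.
-/

namespace Pool.Agent.P.MP_a9a441_nt.FU

open Finset Filter Pool.Agent.Lib.LargeSieve
open scoped ComplexConjugate

namespace LLamAux

open ArithmeticFunction in
theorem sq_ind (n : ℕ) : (liouville * (zeta : ArithmeticFunction ℤ)) n = 0 ∨
    ((liouville * (zeta : ArithmeticFunction ℤ)) n = 1 ∧ IsSquare n) := by
  have hm : (liouville * (zeta : ArithmeticFunction ℤ)).IsMultiplicative :=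
    isMultiplicative_liouville.mul isMultiplicative_zeta.natCast
  induction n using Nat.recOnPosPrimePosCoprime with
  | prime_pow p k hp hk =>
    rw [coe_mul_zeta_apply, Nat.sum_divisors_prime_pow hp]
    have h1 : ∑ i ∈ range (k + 1), liouville (p ^ i) = ∑ i ∈ range (k + 1), (-1 : ℤ) ^ i := by
      refine Finset.sum_congr rfl fun i _ => ?_
      rw [liouville_apply (pow_ne_zero _ hp.ne_zero), cardFactors_apply_prime_pow hp]
    rw [h1, neg_one_geom_sum]
    by_cases h2 : Even (k + 1)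
    · exact Or.inl (if_pos h2)
    · refine Or.inr ⟨if_neg h2, ?_⟩
      rw [Nat.even_add_one, not_not] at h2
      obtain ⟨j, rfl⟩ := h2
      exact ⟨p ^ j, pow_add _ _ _⟩
  | zero => exact Or.inl (map_zero)
  | one => exact Or.inr ⟨hm.1, IsSquare.one⟩
  | coprime a b _ _ hab iha ihb =>
    rw [hm.2 hab]
    rcases iha with h1 | h1
    · exact Or.inl (by rw [h1, zero_mul])
    rcases ihb with h2 | h2
    · exact Or.inl (by rw [h2, mul_zero])
    · exact Or.inr ⟨by rw [h1.1, h2.1, mul_one], h1.2.mul h2.2⟩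

theorem norm_lam (n : ℕ) : ‖lam n‖ ≤ 1 := by
  unfold lam
  by_cases hn : n = 0
  · simp [hn]
  · rw [ArithmeticFunction.liouville_apply hn]
    simp

open ArithmeticFunction in
theorem conv (n : ℕ) : LSeries.convolution lam 1 n =
    (((liouville * (zeta : ArithmeticFunction ℤ)) n : ℤ) : ℂ) := by
  rw [LSeries.convolution_def, coe_mul_zeta_apply, ← Nat.sum_divisorsAntidiagonal
    (fun a _ => liouville a)]
  push_cast
  exact Finset.sum_congr rfl fun p _ => mul_one _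

theorem sq_bound {f : ℕ → ℂ} (h1 : ∀ n, ‖f n‖ ≤ 1) (h2 : ∀ n, f n ≠ 0 → IsSquare n) {s : ℂ}
    (hs : 1 < s.re) : ‖LSeries f s‖ ≤ 2 := by
  have hi : Function.Injective fun m : ℕ => m ^ 2 := Nat.pow_left_injective (by norm_num)
  have h3 : ∑' m : ℕ, LSeries.term f s (m ^ 2) = LSeries f s := by
    refine hi.tsum_eq (f := LSeries.term f s) fun n hn => ?_
    have h4 : f n ≠ 0 := by
      intro h5
      apply hn
      rw [LSeries.term_def, h5, zero_div, ite_self]
    obtain ⟨m, hm⟩ := h2 n h4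
    exact ⟨m, (sq m).trans hm.symm⟩
  rw [← h3]
  refine (tsum_of_norm_bounded hasSum_zeta_two fun m => ?_).trans ?_
  · rw [LSeries.norm_term_eq]
    split_ifs with h0
    · positivity
    · have h6 : (1 : ℝ) ≤ ((m ^ 2 : ℕ) : ℝ) := by exact_mod_cast Nat.one_le_iff_ne_zero.2 h0
      have h7 := Real.rpow_le_rpow_of_exponent_le h6 hs.le
      rw [Real.rpow_one] at h7
      have h8 : ((m ^ 2 : ℕ) : ℝ) = (m : ℝ) ^ 2 := by push_cast; rfl
      rw [← h8]
      exact div_le_div₀ zero_le_one (h1 _) (by linarith) h7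
  · have := Real.pi_lt_d2
    have := Real.pi_pos
    nlinarith

theorem low_ent {G : ℂ → ℂ} (hG : Continuous G) (h0 : ∀ s : ℂ, 1 ≤ s.re → G s ≠ 0) :
    ∃ c : ℝ, 0 < c ∧ ∀ s : ℂ, 1 ≤ s.re → s.re ≤ 2 → |s.im| ≤ 1 → c ≤ ‖G s‖ := by
  have hK : IsCompact (Metric.closedBall (0 : ℂ) 3 ∩ {s : ℂ | 1 ≤ s.re}) :=
    (isCompact_closedBall _ _).inter_right (isClosed_le continuous_const Complex.continuous_re)
  obtain ⟨c, hc, h1⟩ := hK.exists_forall_le' (f := fun s => ‖G s‖) hG.norm.continuousOn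
    (a := 0) fun s hs => norm_pos_iff.2 (h0 s hs.2)
  refine ⟨c, hc, fun s a1 a2 a3 => h1 s ⟨?_, a1⟩⟩
  rw [mem_closedBall_zero_iff]
  have h2 := Complex.norm_le_abs_re_add_abs_im s
  rw [abs_of_nonneg (by linarith : 0 ≤ s.re)] at h2
  linarith

theorem triv_bound (q : ℕ) [NeZero q] : ∃ C : ℝ, 0 < C ∧ ∀ᶠ x : ℝ in atTop,
    ‖DirichletCharacter.LFunctionTrivChar q (1 + ((x⁻¹ : ℝ) : ℂ))‖ ≤ C * x := by
  obtain ⟨C, hC, h1⟩ :=
    (DirichletCharacter.LFunctionTrivChar_isBigO_near_one_horizontal (N := q)).exists_pos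
  refine ⟨C, hC, ?_⟩
  filter_upwards [tendsto_inv_atTop_nhdsGT_zero.eventually h1.bound, eventually_gt_atTop 0]
    with x hx h0
  rwa [norm_div, norm_one, Complex.norm_real, one_div, norm_inv, inv_inv,
    Real.norm_of_nonneg h0.le] at hx

end LLamAux

theorem norm_mul_le_two {q : ℕ} (χ : DirichletCharacter ℂ q) {s : ℂ} (hs : 1 < s.re) :
    ‖LSeries (fun n => lam n * χ n) s‖ * ‖LSeries (fun n => χ n) s‖ ≤ 2 := by
  have h1 : LSeriesSummable ((fun n : ℕ => χ n) * lam) s :=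
    χ.LSeriesSummable_mul (LSeriesSummable_of_bounded_of_one_lt_re
      (fun n _ => LLamAux.norm_lam n) hs)
  have h2 : LSeriesSummable ((fun n : ℕ => χ n) * 1) s := by
    rw [mul_one]
    exact χ.LSeriesSummable_of_one_lt_re hs
  have h3 := LSeries_convolution' h1 h2
  rw [χ.mul_convolution_distrib, mul_one] at h3
  have h4 : (fun n => lam n * χ n) = (fun n : ℕ => χ n) * lam := by
    funext n
    exact mul_comm _ _
  rw [h4, ← norm_mul, ← h3]
  refine LLamAux.sq_bound (fun n => ?_) (fun n hn => ?_) hs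
  · rw [Pi.mul_apply, norm_mul, LLamAux.conv]
    refine mul_le_one₀ (χ.norm_le_one _) (norm_nonneg _) ?_
    rcases LLamAux.sq_ind n with h | h
    · rw [h]
      simp
    · rw [h.1]
      simp
  · rw [Pi.mul_apply, LLamAux.conv] at hn
    rcases LLamAux.sq_ind n with h | h
    · rw [h] at hn
      simp at hn
    · exact h.2

theorem lower_near {q : ℕ} [NeZero q] (χ : DirichletCharacter ℂ q) : ∃ c : ℝ, 0 < c ∧
    ∀ s : ℂ, 1 < s.re → s.re ≤ 2 → |s.im| ≤ 1 → c ≤ ‖LSeries (fun n => χ n) s‖ := by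
  by_cases hχ : χ = 1
  · subst hχ
    obtain ⟨c, hc, h1⟩ := LLamAux.low_ent
      (DirichletCharacter.differentiable_LFunctionTrivChar₁ q).continuous fun s hs => by
        rcases eq_or_ne s 1 with rfl | h
        · exact DirichletCharacter.LFunctionTrivChar₁_apply_one_ne_zero q
        · rw [DirichletCharacter.LFunctionTrivChar₁, Function.update_of_ne h]
          exact mul_ne_zero (sub_ne_zero.2 h)
            (DirichletCharacter.LFunction_ne_zero_of_one_le_re 1 (Or.inr h) hs)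
    refine ⟨c / 2, by positivity, fun s a1 a2 a3 => ?_⟩
    have h2 := h1 s a1.le a2 a3
    have h3 : s ≠ 1 := by
      rintro rfl
      simp at a1
    rw [DirichletCharacter.LFunctionTrivChar₁, Function.update_of_ne h3, norm_mul,
      DirichletCharacter.LFunctionTrivChar, DirichletCharacter.LFunction_eq_LSeries 1 a1] at h2
    have h4 := Complex.norm_le_abs_re_add_abs_im (s - 1)
    rw [Complex.sub_re, Complex.sub_im, Complex.one_re, Complex.one_im, sub_zero,
      abs_of_nonneg (by linarith : 0 ≤ s.re - 1)] at h4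
    have h5 : ‖s - 1‖ ≤ 2 := by linarith
    have h6 := mul_le_mul_of_nonneg_right h5
      (norm_nonneg (LSeries (fun n : ℕ => (1 : DirichletCharacter ℂ q) n) s))
    linarith
  · obtain ⟨c, hc, h1⟩ := LLamAux.low_ent
      (DirichletCharacter.differentiable_LFunction hχ).continuous fun s hs =>
        χ.LFunction_ne_zero_of_one_le_re (Or.inl hχ) hs
    refine ⟨c, hc, fun s a1 a2 a3 => ?_⟩
    have h2 := h1 s a1.le a2 a3
    rwa [χ.LFunction_eq_LSeries a1] at h2

theorem llam {q : ℕ} [NeZero q] (χ : DirichletCharacter ℂ q) (C₀ : ℕ) {η : ℝ} (hη : 0 < η) :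
    ∀ᶠ x : ℝ in atTop, ∀ τ : ℝ, |τ| ≤ Real.exp (C₀ * x) →
      ‖LSeries (fun n => lam n * χ n) (1 + 1 / x + τ * Complex.I)‖ ≤ η * x := by
  obtain ⟨c, hc, h1⟩ := lower_near χ
  obtain ⟨C, hC, h2⟩ := LLamAux.triv_bound q
  have hη' : 0 < η ^ 4 / (16 * C ^ 3) := by positivity
  filter_upwards [h2, lu q (C₀ + 1) hη', eventually_ge_atTop 1, eventually_ge_atTop (2 / (c * η))]
    with x a1 a2 a3 a4 τ hτ
  have hx : 0 < x := by linarith
  have hxi : 0 < x⁻¹ := inv_pos.2 hx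
  have hx1 : x⁻¹ ≤ 1 := inv_le_one_of_one_le₀ a3
  have e1 : (1 + 1 / x + τ * Complex.I : ℂ) = 1 + ((x⁻¹ : ℝ) : ℂ) + Complex.I * τ := by
    push_cast
    ring
  have e2 : (1 + 1 / x + ((2 * τ : ℝ) : ℂ) * Complex.I : ℂ) =
      1 + ((x⁻¹ : ℝ) : ℂ) + 2 * Complex.I * τ := by
    push_cast
    ring
  have r1 : (1 + ((x⁻¹ : ℝ) : ℂ) + Complex.I * τ).re = 1 + x⁻¹ := by
    simp only [Complex.add_re, Complex.one_re, Complex.ofReal_re, Complex.mul_re, Complex.I_re,
      Complex.I_im, Complex.ofReal_im, zero_mul, mul_zero, sub_zero, add_zero]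
  have r2 : (1 + ((x⁻¹ : ℝ) : ℂ) + Complex.I * τ).im = τ := by
    simp only [Complex.add_im, Complex.one_im, Complex.ofReal_re, Complex.mul_im, Complex.I_re,
      Complex.I_im, Complex.ofReal_im, mul_zero, one_mul, add_zero, zero_add]
  rw [e1]
  have b1 := norm_mul_le_two χ (s := 1 + ((x⁻¹ : ℝ) : ℂ) + Complex.I * τ) (by rw [r1]; linarith)
  have n1 := norm_nonneg (LSeries (fun n => lam n * χ n) (1 + ((x⁻¹ : ℝ) : ℂ) + Complex.I * τ))
  rcases le_total |τ| 1 with h3 | h3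
  · have b2 := h1 (1 + ((x⁻¹ : ℝ) : ℂ) + Complex.I * τ) (by rw [r1]; linarith)
      (by rw [r1]; linarith) (by rw [r2]; exact h3)
    have b3 := mul_le_mul_of_nonneg_left b2 n1
    rw [div_le_iff₀ (by positivity)] at a4
    refine le_of_mul_le_mul_right ?_ hc
    linarith
  · have b2 := χ.norm_LSeries_product_ge_one hxi τ
    have b3 := a2 (χ ^ 2) (2 * τ) (by rw [abs_mul, abs_two]; linarith) (by
      have c1 := Real.add_one_le_exp x
      have c2 : Real.exp (((C₀ + 1 : ℕ) : ℝ) * x) = Real.exp x * Real.exp (C₀ * x) := by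
        rw [← Real.exp_add]
        push_cast
        ring_nf
      rw [abs_mul, abs_two, c2]
      exact mul_le_mul (by linarith) hτ (abs_nonneg _) (Real.exp_pos _).le)
    rw [e2] at b3
    rw [DirichletCharacter.LFunctionTrivChar, DirichletCharacter.LFunction_eq_LSeries 1
      (by rw [Complex.add_re, Complex.one_re, Complex.ofReal_re]; linarith)] at a1
    rw [norm_mul, norm_mul, norm_pow, norm_pow] at b2
    have n2 := norm_nonneg (LSeries (fun n : ℕ => χ n) (1 + ((x⁻¹ : ℝ) : ℂ) + Complex.I * τ))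
    have n3 := norm_nonneg (LSeries (fun n : ℕ => (1 : DirichletCharacter ℂ q) n)
      (1 + ((x⁻¹ : ℝ) : ℂ)))
    have n4 := norm_nonneg (LSeries (fun n : ℕ => (χ ^ 2) n)
      (1 + ((x⁻¹ : ℝ) : ℂ) + 2 * Complex.I * τ))
    generalize ‖LSeries (fun n => lam n * χ n) (1 + ((x⁻¹ : ℝ) : ℂ) + Complex.I * τ)‖ = u
      at b1 n1 ⊢
    generalize ‖LSeries (fun n : ℕ => χ n) (1 + ((x⁻¹ : ℝ) : ℂ) + Complex.I * τ)‖ = v at b1 b2 n2
    generalize ‖LSeries (fun n : ℕ => (1 : DirichletCharacter ℂ q) n) (1 + ((x⁻¹ : ℝ) : ℂ))‖ = w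
      at a1 b2 n3
    generalize ‖LSeries (fun n : ℕ => (χ ^ 2) n) (1 + ((x⁻¹ : ℝ) : ℂ) + 2 * Complex.I * τ)‖ = z
      at b2 b3 n4
    refine (pow_le_pow_iff_left₀ n1 (by positivity) (n := 4) (by norm_num)).1 ?_
    calc u ^ 4 = u ^ 4 * 1 := (mul_one _).symm
      _ ≤ u ^ 4 * (w ^ 3 * v ^ 4 * z) := mul_le_mul_of_nonneg_left b2 (by positivity)
      _ = (u * v) ^ 4 * w ^ 3 * z := by ring
      _ ≤ 2 ^ 4 * (C * x) ^ 3 * (η ^ 4 / (16 * C ^ 3) * x) := by gcongr
      _ = (η * x) ^ 4 := by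
        field_simp
        norm_num

end Pool.Agent.P.MP_a9a441_nt.FU
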