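import Pool.Agent.P.MP_a9a441_nt.FU.ES2

/-!
An upper bound o(x) for L-series at 1 + 1/x + i τ. Let Y = ⌈exp (η x / 4)⌉, k = ⌈4 C₀ / η⌉₊, so
|τ| ≤ Y^k. The terms n < Y contribute at most 1 + log Y + 1. With Δ = -τ / (2π), `es2 k` on the
blocks [Y 2^i, min (y, Y 2^(i+1))) shows that S(y) = ∑_{Y ≤ n < y} ψ n / n ee (Δ log n) is bounded by
B = 7 + C q^2 / (1 - 2^(-c)) (the integrals add up, `intE_add`, `norm_intE_le_inv`). Summation by
parts with the decreasing weight n^(-1/x) ≤ 1 bounds every finite tail by B or 2 B; pass to the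
limit (`HasSum.tendsto_sum_nat`, `LSeriesSummable_of_bounded_of_one_lt_re`).
-/

namespace Pool.Agent.P.MP_a9a441_nt.FU

open Finset Filter Pool.Agent.Lib.LargeSieve
open scoped ComplexConjugate

namespace LUAux

theorem abel (f : ℕ → ℂ) (w : ℕ → ℝ) (Y : ℕ) (B : ℝ) (hw : ∀ n, Y ≤ n → w (n + 1) ≤ w n)
    (h0 : ∀ n, 0 ≤ w n) (hf : ∀ y, Y ≤ y → ‖∑ n ∈ Ico Y y, f n‖ ≤ B) {y : ℕ} (hy : Y ≤ y) :
    ‖∑ n ∈ Ico Y y, (w n : ℂ) * f n‖ ≤ B * w Y := by
  have key : ∀ y, Y ≤ y → ‖∑ n ∈ Ico Y y, (w n : ℂ) * f n - (w y : ℂ) * ∑ n ∈ Ico Y y, f n‖ ≤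
      B * (w Y - w y) := by
    intro y hy
    induction y, hy using Nat.le_induction with
    | base => simp
    | succ y hy ih =>
      have h1 := hf (y + 1) (by omega)
      have h2 : ∑ n ∈ Ico Y (y + 1), (w n : ℂ) * f n - (w (y + 1) : ℂ) * ∑ n ∈ Ico Y (y + 1), f n =
          (∑ n ∈ Ico Y y, (w n : ℂ) * f n - (w y : ℂ) * ∑ n ∈ Ico Y y, f n) +
            ((w y - w (y + 1) : ℝ) : ℂ) * ∑ n ∈ Ico Y (y + 1), f n := by
        rw [sum_Ico_succ_top hy, sum_Ico_succ_top hy]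
        push_cast
        ring
      rw [h2]
      refine (norm_add_le _ _).trans ?_
      have h3 : 0 ≤ w y - w (y + 1) := sub_nonneg.2 (hw y hy)
      rw [norm_mul, Complex.norm_real, Real.norm_of_nonneg h3]
      have h4 := mul_le_mul_of_nonneg_left h1 h3
      linarith
  have h1 := key y hy
  have h2 : ‖(w y : ℂ) * ∑ n ∈ Ico Y y, f n‖ ≤ w y * B := by
    rw [norm_mul, Complex.norm_real, Real.norm_of_nonneg (h0 y)]
    exact mul_le_mul_of_nonneg_left (hf y hy) (h0 y)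
  have h3 := norm_add_le (∑ n ∈ Ico Y y, (w n : ℂ) * f n - (w y : ℂ) * ∑ n ∈ Ico Y y, f n)
    ((w y : ℂ) * ∑ n ∈ Ico Y y, f n)
  rw [sub_add_cancel] at h3
  linarith

theorem blocks (D : ℕ → ℕ → ℂ) (Y : ℕ) {K c : ℝ} (hK : 0 ≤ K) (hc : 0 < c) (hY : 1 ≤ Y)
    (hadd : ∀ a b d, a ≤ b → b ≤ d → D a d = D a b + D b d)
    (hD : ∀ a b : ℕ, Y ≤ a → a ≤ b → b ≤ 2 * a → ‖D a b‖ ≤ K * (a : ℝ) ^ (-c)) (i : ℕ) :
    ∀ a b : ℕ, Y ≤ a → a ≤ b → b ≤ a * 2 ^ i →
      ‖D a b‖ ≤ K * (a : ℝ) ^ (-c) / (1 - (2 : ℝ) ^ (-c)) := by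
  have hr0 : (0 : ℝ) < (2 : ℝ) ^ (-c) := by positivity
  have hr1 : (2 : ℝ) ^ (-c) < 1 := Real.rpow_lt_one_of_one_lt_of_neg (by norm_num) (by linarith)
  have hs : 0 < 1 - (2 : ℝ) ^ (-c) := by linarith
  have base : ∀ a b : ℕ, Y ≤ a → a ≤ b → b ≤ 2 * a →
      ‖D a b‖ ≤ K * (a : ℝ) ^ (-c) / (1 - (2 : ℝ) ^ (-c)) := by
    intro a b h1 h2 h3
    refine (hD a b h1 h2 h3).trans ?_
    rw [le_div_iff₀ hs]
    have : 0 ≤ K * (a : ℝ) ^ (-c) := by positivity
    nlinarith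
  induction i with
  | zero =>
    intro a b h1 h2 h3
    exact base a b h1 h2 (by omega)
  | succ i ih =>
    intro a b h1 h2 h3
    rcases le_total b (2 * a) with h | h
    · exact base a b h1 h2 h
    · rw [hadd a (2 * a) b (by omega) h]
      refine (norm_add_le _ _).trans ?_
      have h4 := hD a (2 * a) h1 (by omega) le_rfl
      have h5 := ih (2 * a) b (by omega) h (by rw [pow_succ] at h3; nlinarith)
      have h6 : ((2 * a : ℕ) : ℝ) ^ (-c) = (2 : ℝ) ^ (-c) * (a : ℝ) ^ (-c) := by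
        push_cast
        exact Real.mul_rpow (by norm_num) (by positivity)
      rw [h6] at h5
      have h7 : K * (a : ℝ) ^ (-c) + K * ((2 : ℝ) ^ (-c) * (a : ℝ) ^ (-c)) / (1 - (2 : ℝ) ^ (-c)) =
          K * (a : ℝ) ^ (-c) / (1 - (2 : ℝ) ^ (-c)) := by
        field_simp
        ring
      linarith

theorem harm (Y : ℕ) : ∑ n ∈ range Y, (1 : ℝ) / n ≤ 1 + Real.log Y := by
  have h1 : ∑ n ∈ range Y, (1 : ℝ) / n ≤ ∑ n ∈ range (Y + 1), (1 : ℝ) / n := by
    rw [sum_range_succ]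
    have : (0 : ℝ) ≤ 1 / Y := by positivity
    linarith
  have h2 := harmonic_le_one_add_log Y
  rw [sum_range_succ'] at h1
  unfold harmonic at h2
  push_cast at h1 h2
  simp only [one_div] at h1 ⊢
  simp only [inv_zero, add_zero] at h1
  linarith

theorem term_eq (f : ℕ → ℂ) (x τ : ℝ) {n : ℕ} (hn : n ≠ 0) :
    LSeries.term f (1 + 1 / x + τ * Complex.I) n =
      (((n : ℝ) ^ (-(1 / x)) : ℝ) : ℂ) * (f n / n * ee (-τ / (2 * Real.pi) * Real.log n)) := by
  have hn0 : (0 : ℝ) < n := by exact_mod_cast Nat.pos_of_ne_zero hn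
  have hnc : (n : ℂ) ≠ 0 := by exact_mod_cast hn
  rw [LSeries.term_of_ne_zero hn, add_assoc, Complex.cpow_add _ _ hnc, Complex.cpow_one,
    Complex.cpow_def_of_ne_zero hnc, Real.rpow_def_of_pos hn0, Complex.ofReal_exp]
  unfold ee
  have hl : Complex.log (n : ℂ) = ((Real.log n : ℝ) : ℂ) := by
    rw [Complex.ofReal_log hn0.le]
    simp
  rw [hl, ← div_div, div_eq_mul_inv (f n / n), ← Complex.exp_neg, mul_left_comm, ← Complex.exp_add]
  congr 2
  have hp : (Real.pi : ℂ) ≠ 0 := by exact_mod_cast Real.pi_ne_zero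
  push_cast
  field_simp
  ring

end LUAux

theorem lu (q : ℕ) [NeZero q] (C₀ : ℕ) {η : ℝ} (hη : 0 < η) : ∀ᶠ x : ℝ in atTop,
    ∀ (ψ : DirichletCharacter ℂ q) (τ : ℝ), 1 ≤ |τ| → |τ| ≤ Real.exp (C₀ * x) →
      ‖LSeries (fun n => ψ n) (1 + 1 / x + τ * Complex.I)‖ ≤ η * x := by
  obtain ⟨c, C, hc, -, hC, hes⟩ := es2 ⌈4 * C₀ / η⌉₊
  set k := ⌈4 * C₀ / η⌉₊ with hk
  set B := 7 + C * (q : ℝ) ^ 2 / (1 - (2 : ℝ) ^ (-c)) with hB
  have hr1 : (2 : ℝ) ^ (-c) < 1 := Real.rpow_lt_one_of_one_lt_of_neg (by norm_num) (by linarith)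
  have hs : 0 < 1 - (2 : ℝ) ^ (-c) := by linarith
  have hK : 0 ≤ C * (q : ℝ) ^ 2 := by positivity
  have hB0 : 0 ≤ B := by positivity
  filter_upwards [eventually_gt_atTop 0, eventually_ge_atTop (2 * (2 + B) / η)] with x hx0 hx
  intro ψ τ h1 h2
  set Y := ⌈Real.exp (η * x / 4)⌉₊ with hY
  have hE : 1 ≤ Real.exp (η * x / 4) := Real.one_le_exp (by positivity)
  have hYe : Real.exp (η * x / 4) ≤ Y := Nat.le_ceil _
  have hY1 : 1 ≤ Y := by
    have : (1 : ℝ) ≤ Y := hE.trans hYe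
    exact_mod_cast this
  have hlog : Real.log Y ≤ 1 + η * x / 4 := by
    have h3 : (Y : ℝ) < Real.exp (η * x / 4) + 1 := Nat.ceil_lt_add_one (by positivity)
    have h4 : (Y : ℝ) ≤ Real.exp (1 + η * x / 4) := by
      rw [Real.exp_add]
      have := Real.add_one_le_exp 1
      nlinarith
    have h5 := Real.log_le_log (by exact_mod_cast hY1) h4
    rwa [Real.log_exp] at h5
  set Δ := -τ / (2 * Real.pi) with hΔ
  have hpi := Real.pi_gt_three
  have hpi' := Real.pi_lt_d2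
  have habs : |Δ| = |τ| / (2 * Real.pi) := by
    rw [hΔ, abs_div, abs_neg, abs_of_pos (by positivity : (0 : ℝ) < 2 * Real.pi)]
  have hΔ0 : Δ ≠ 0 := by
    rw [← abs_pos, habs]
    positivity
  have hΔ1 : 1 / |Δ| ≤ 7 := by
    rw [habs, one_div_div, div_le_iff₀ (by linarith)]
    linarith
  have hΔ2 : |Δ| ≤ (Y : ℝ) ^ k := by
    have h3 : |Δ| ≤ |τ| := by
      rw [habs]
      exact div_le_self (by linarith) (by linarith)
    have h4 : (C₀ : ℝ) * x ≤ k * (η * x / 4) := by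
      have h5 : 4 * C₀ / η ≤ k := Nat.le_ceil _
      rw [div_le_iff₀ hη] at h5
      nlinarith
    have h5 : Real.exp (C₀ * x) ≤ Real.exp (η * x / 4) ^ k := by
      rw [← Real.exp_nat_mul]
      exact Real.exp_le_exp.2 h4
    exact h3.trans (h2.trans (h5.trans (pow_le_pow_left₀ (by positivity) hYe k)))
  set f : ℕ → ℂ := fun m => ψ m / m * ee (Δ * Real.log m) with hf
  set σ : ℂ := (∑ r, ψ r) / q with hσ
  have hq : (0 : ℝ) < q := by exact_mod_cast Nat.pos_of_ne_zero (NeZero.ne q)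
  have hσ1 : ‖σ‖ ≤ 1 := by
    rw [hσ, norm_div, Complex.norm_natCast, div_le_one hq]
    refine (norm_sum_le _ _).trans ?_
    have h := sum_le_card_nsmul (univ : Finset (ZMod q)) (fun r => ‖ψ r‖) 1
      fun r _ => ψ.norm_le_one r
    simpa using h
  have hblocks := LUAux.blocks
    (fun a b => ∑ m ∈ Ico a b, f m - σ * intE Δ (Real.log a) (Real.log b)) Y hK hc hY1
    (by
      intro a b d hab hbd
      rw [← sum_Ico_consecutive f hab hbd, ← intE_add Δ (Real.log a) (Real.log b) (Real.log d)]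
      ring)
    (by
      intro a b ha hab hb
      have ha1 : (Y : ℝ) ≤ a := by exact_mod_cast ha
      have ha2 : (1 : ℝ) ≤ Y := by exact_mod_cast hY1
      have hb1 : (b : ℝ) ≤ 2 * a := by exact_mod_cast hb
      have h := hes q (fun r => ψ r) a b Δ (fun r => ψ.norm_le_one r) (ha2.trans ha1)
        (by exact_mod_cast hab) (by linarith)
        (hΔ2.trans (pow_le_pow_left₀ (by positivity) ha1 k))
      rw [Nat.ceil_natCast, Nat.ceil_natCast] at h
      exact h)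
  have hS : ∀ y, Y ≤ y → ‖∑ n ∈ Ico Y y, f n‖ ≤ B := by
    intro y hy
    have h3 := hblocks y Y y le_rfl hy (by
      have := Nat.lt_two_pow_self (n := y)
      nlinarith)
    have h4 : (Y : ℝ) ^ (-c) ≤ 1 :=
      Real.rpow_le_one_of_one_le_of_nonpos (by exact_mod_cast hY1) (by linarith)
    have h5 : C * (q : ℝ) ^ 2 * (Y : ℝ) ^ (-c) / (1 - (2 : ℝ) ^ (-c)) ≤
        C * (q : ℝ) ^ 2 / (1 - (2 : ℝ) ^ (-c)) :=
      div_le_div_of_nonneg_right (mul_le_of_le_one_right hK h4) hs.le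
    have h6 : ‖σ * intE Δ (Real.log Y) (Real.log y)‖ ≤ 7 := by
      rw [norm_mul]
      have h7 := (norm_intE_le_inv hΔ0 (Real.log Y) (Real.log y)).trans hΔ1
      have h8 := mul_le_mul hσ1 h7 (norm_nonneg _) zero_le_one
      linarith
    have h7 := norm_add_le (∑ n ∈ Ico Y y, f n - σ * intE Δ (Real.log Y) (Real.log y))
      (σ * intE Δ (Real.log Y) (Real.log y))
    rw [sub_add_cancel] at h7
    linarith
  have hx1 : 0 < 1 / x := by positivity
  have hw1 : ∀ n : ℕ, 1 ≤ n → (n : ℝ) ^ (-(1 / x)) ≤ 1 := fun n hn =>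
    Real.rpow_le_one_of_one_le_of_nonpos (by exact_mod_cast hn) (by linarith)
  have hT : ∀ y, Y ≤ y →
      ‖∑ n ∈ range y, LSeries.term (fun n => ψ n) (1 + 1 / x + τ * Complex.I) n‖ ≤ η * x := by
    intro y hy
    rw [← sum_range_add_sum_Ico _ hy]
    refine (norm_add_le _ _).trans ?_
    have h3 : ‖∑ n ∈ range Y, LSeries.term (fun n => ψ n) (1 + 1 / x + τ * Complex.I) n‖ ≤
        1 + Real.log Y := by
      refine (norm_sum_le _ _).trans (le_trans (sum_le_sum fun n _ => ?_) (LUAux.harm Y))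
      rcases Nat.eq_zero_or_pos n with rfl | hn
      · simp
      · rw [LUAux.term_eq _ _ _ hn.ne', norm_mul, norm_mul, norm_ee, mul_one, norm_div,
          Complex.norm_natCast, Complex.norm_real, Real.norm_of_nonneg (by positivity)]
        have h4 : ‖ψ n‖ / n ≤ 1 / n :=
          div_le_div_of_nonneg_right (ψ.norm_le_one _) (by positivity)
        have h5 := mul_le_mul (hw1 n hn) h4 (by positivity) zero_le_one
        linarith
    have h4 : ‖∑ n ∈ Ico Y y, LSeries.term (fun n => ψ n) (1 + 1 / x + τ * Complex.I) n‖ ≤ B := by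
      rw [sum_congr rfl fun n hn => LUAux.term_eq (fun n => ψ n) x τ
        (by have := (mem_Ico.1 hn).1; omega)]
      have h5 := LUAux.abel f (fun n => (n : ℝ) ^ (-(1 / x))) Y B
        (fun n hn => Real.rpow_le_rpow_of_nonpos (by exact_mod_cast (by omega : 0 < n))
          (by push_cast; linarith) (by linarith))
        (fun n => by positivity) hS hy
      exact h5.trans (mul_le_of_le_one_right hB0 (hw1 Y hY1))
    rw [div_le_iff₀ hη] at hx
    have : 0 < η * x := by positivity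
    nlinarith
  have hsum : LSeriesSummable (fun n => (ψ n : ℂ)) (1 + 1 / x + τ * Complex.I) := by
    refine LSeriesSummable_of_bounded_of_one_lt_re (m := 1) (fun n _ => ψ.norm_le_one _) ?_
    have : (1 + 1 / x + τ * Complex.I : ℂ).re = 1 + 1 / x := by
      have h : (1 / x : ℂ) = ((1 / x : ℝ) : ℂ) := by push_cast; rfl
      rw [h]
      simp only [Complex.add_re, Complex.one_re, Complex.ofReal_re, Complex.mul_re, Complex.I_re,
        Complex.ofReal_im, Complex.I_im]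
      ring
    rw [this]
    linarith
  have hlim := hsum.hasSum.tendsto_sum_nat.norm
  exact le_of_tendsto hlim (by filter_upwards [eventually_ge_atTop Y] with y hy using hT y hy)

end Pool.Agent.P.MP_a9a441_nt.FU
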