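import Pool.Agent.P.MP_a9a441_nt.FU.Prob

/-!
An abstract lemma on the walk. Define trs y [] s = s, trs y (e :: l) s = trs (st y e) l (tr y e s).
By induction on j: Pr (j + n) (f (win j n x) ≠ trs x.1 (take j x.2) (f (win 0 n x))) ≤ j θ
(the step uses the windows win 0 (j+n) and win j (n+1) of a path of length j + 1 + n, `Pr_win`,
`win_win`, trs y (l ++ [e]) s = tr (en y l) e (trs y l s)). For j = n the right side is a function
φ (y, l₁) of the first half. `past_future`: by `sum_words_append`, `markov` and `sum_en`, choose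
for every y' the value φ (y, l₁), en y l₁ = y', that minimises
∑ l₂, μ (y', l₂) [f (y', l₂) ≠ value]; if μ (y', []) = 0 all μ (y', l₂) vanish (`sum_start`).
-/

namespace Pool.Agent.P.MP_a9a441_nt.FU

open Finset Filter Pool.Agent.Lib.LargeSieve
open scoped ComplexConjugate

namespace LabelAux

/-- Transport along a word. -/
def trs {σ : Type} (a : ℕ → ℤ) (tr : ℤ → Lb → σ → σ) : ℤ → List Lb → σ → σ
  | _, [], s => s
  | y, e :: l, s => trs a tr (st a y e) l (tr y e s)

theorem trs_snoc {σ : Type} (a : ℕ → ℤ) (tr : ℤ → Lb → σ → σ) (l : List Lb) (e : Lb) :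
    ∀ (y : ℤ) (s : σ), trs a tr y (l ++ [e]) s = tr (en a y l) e (trs a tr y l s) := by
  induction l with
  | nil => intro y s; simp [trs, en]
  | cons b l ih =>
    intro y s
    simp only [List.cons_append, trs]
    rw [ih, en_cons]

open Classical in
theorem Pr_eq {S : Sys} (C : Chain S) (h : ℕ) (F : Pth → Prop) :
    C.Pr h F = ∑ y ∈ S.Y, ∑ l ∈ words S.A h, if F (y, l) then C.μ (y, l) else 0 := by
  unfold Chain.Pr Sys.paths
  rw [Finset.sum_filter, Finset.sum_product]

theorem head_win (a : ℕ → ℤ) (y : ℤ) (l : List Lb) (j n : ℕ) (hj : j < l.length) :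
    (win a j (n + 1) (y, l)).2.headD (0, 0) = l[j] := by
  simp only [win]
  rw [List.drop_eq_getElem_cons hj, List.take_succ_cons]
  rfl

end LabelAux

open LabelAux

namespace Chain

variable {S : Sys} (C : Chain S) {σ : Type}

theorem past_future (n : ℕ) (f φ : Pth → σ) :
    ∃ s : ℤ → σ, C.Pr n (fun x => f x ≠ s x.1) ≤
      C.Pr (n + n) (fun x => f (win S.a n n x) ≠ φ (win S.a 0 n x)) := by
  classical
  let g : ℤ → σ → ℝ := fun y v => ∑ l ∈ words S.A n, if f (y, l) ≠ v then C.μ (y, l) else 0
  let T : ℤ → Finset Pth := fun y => (S.paths n).filter (fun x => en S.a x.1 x.2 = y)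
  have hmin : ∀ y, ∃ v : σ, ∀ x ∈ T y, g y v ≤ g y (φ x) := by
    intro y
    rcases (T y).eq_empty_or_nonempty with h | h
    · exact ⟨f (0, []), by simp [h]⟩
    · obtain ⟨x, -, hx⟩ := (T y).exists_min_image (fun x => g y (φ x)) h
      exact ⟨φ x, hx⟩
  choose s hs using hmin
  refine ⟨s, ?_⟩
  let R : Pth → ℝ := fun x => ∑ l ∈ words S.A n,
    if f (en S.a x.1 x.2, l) ≠ φ x then C.μ (x.1, x.2 ++ l) else 0
  have hR0 : ∀ x, 0 ≤ R x := by
    intro x
    refine Finset.sum_nonneg fun l _ => ?_
    split_ifs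
    · exact C.nonneg _
    · exact le_rfl
  have hRHS : C.Pr (n + n) (fun x => f (win S.a n n x) ≠ φ (win S.a 0 n x)) =
      ∑ x ∈ S.paths n, R x := by
    rw [LabelAux.Pr_eq]
    unfold Sys.paths
    rw [Finset.sum_product]
    refine Finset.sum_congr rfl fun y _ => ?_
    rw [sum_words_append]
    refine Finset.sum_congr rfl fun l₁ h₁ => ?_
    refine Finset.sum_congr rfl fun l₂ h₂ => ?_
    have e₁ : l₁.length = n := (mem_words.1 h₁).1
    have e₂ : l₂.length = n := (mem_words.1 h₂).1
    have w₁ : win S.a n n (y, l₁ ++ l₂) = (en S.a y l₁, l₂) := by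
      have := win_append (a := S.a) y l₁ l₂ []
      rwa [List.append_nil, e₁, e₂] at this
    have w₀ : win S.a 0 n (y, l₁ ++ l₂) = (y, l₁) := by
      rw [win_zero]
      simp [← e₁]
    rw [w₁, w₀]
    split_ifs <;> rfl
  have hLHS : C.Pr n (fun x => f x ≠ s x.1) = ∑ y ∈ S.Y, g y (s y) := by
    rw [LabelAux.Pr_eq]
    refine Finset.sum_congr rfl fun y _ => Finset.sum_congr rfl fun l _ => ?_
    split_ifs <;> rfl
  have key : ∀ y, g y (s y) ≤ ∑ x ∈ T y, R x := by
    intro y
    rcases (C.nonneg (y, [])).eq_or_lt with h0 | h0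
    · have h1 : g y (s y) ≤ ∑ l ∈ words S.A n, C.μ (y, [] ++ l) := by
        refine Finset.sum_le_sum fun l _ => ?_
        split_ifs
        · exact le_rfl
        · exact C.nonneg _
      rw [C.sum_start, ← h0] at h1
      exact h1.trans (Finset.sum_nonneg fun x _ => hR0 x)
    · have h2 : (∑ x ∈ T y, R x) * C.μ (y, []) = ∑ x ∈ T y, C.μ x * g y (φ x) := by
        rw [Finset.sum_mul]
        refine Finset.sum_congr rfl fun x hx => ?_
        have hx' : en S.a x.1 x.2 = y := (Finset.mem_filter.1 hx).2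
        simp only [R, g]
        rw [Finset.sum_mul, Finset.mul_sum]
        refine Finset.sum_congr rfl fun l _ => ?_
        have hm := C.markov x.1 x.2 l
        rw [hx'] at hm ⊢
        split_ifs
        · exact hm
        · simp
      have h3 : g y (s y) * C.μ (y, []) ≤ ∑ x ∈ T y, C.μ x * g y (φ x) := by
        rw [← C.sum_en n y, Finset.mul_sum]
        refine Finset.sum_le_sum fun x hx => ?_
        rw [mul_comm]
        exact mul_le_mul_of_nonneg_left (hs y x hx) (C.nonneg _)
      rw [← h2] at h3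
      exact le_of_mul_le_mul_right h3 h0
  rw [hLHS, hRHS]
  refine (Finset.sum_le_sum fun y _ => key y).trans ?_
  rw [Finset.sum_fiberwise_eq_sum_filter]
  exact Finset.sum_le_sum_of_subset_of_nonneg (Finset.filter_subset _ _) fun x _ _ => hR0 x

theorem label (n : ℕ) (f : Pth → σ) (tr : ℤ → Lb → σ → σ) (θ : ℝ)
    (h : C.Pr (n + 1) (fun x =>
      f (win S.a 1 n x) ≠ tr x.1 (x.2.headD (0, 0)) (f (win S.a 0 n x))) ≤ θ) :
    ∃ s : ℤ → σ, C.Pr n (fun x => f x ≠ s x.1) ≤ n * θ := by
  have ind : ∀ j : ℕ, C.Pr (j + n) (fun x =>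
      f (win S.a j n x) ≠ trs S.a tr x.1 (x.2.take j) (f (win S.a 0 n x))) ≤ j * θ := by
    intro j
    induction j with
    | zero =>
      rw [LabelAux.Pr_eq]
      simp [trs]
    | succ j ih =>
      have e1 := C.Pr_win 0 (j + n) 1 (fun x =>
        f (win S.a j n x) ≠ trs S.a tr x.1 (x.2.take j) (f (win S.a 0 n x)))
      have e2 := C.Pr_win j (n + 1) 0 (fun x =>
        f (win S.a 1 n x) ≠ tr x.1 (x.2.headD (0, 0)) (f (win S.a 0 n x)))
      have l1 : 0 + (j + n) + 1 = j + 1 + n := by omega
      have l2 : j + (n + 1) + 0 = j + 1 + n := by omega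
      rw [l1] at e1
      rw [l2] at e2
      refine le_trans (C.Pr_mono ?_) ((C.Pr_or_le _ _ _).trans
        (add_le_add (e1.le.trans ih) (e2.le.trans h)) |>.trans (le_of_eq (by push_cast; ring)))
      rintro ⟨y, l⟩ hl - hF
      by_contra hc
      rw [not_or, not_not, not_not] at hc
      obtain ⟨h1, h2⟩ := hc
      have hj : j < l.length := by
        simp only at hl
        omega
      rw [win_win (by omega), win_win (by omega), win_zero (y, l) (j + n)] at h1
      rw [win_win (by omega), win_win (by omega), head_win _ _ _ _ _ hj] at h2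
      simp only [zero_add, add_zero, List.take_take, min_eq_left (Nat.le_add_right j n)] at h1 h2
      apply hF
      simp only
      rw [List.take_add_one, List.getElem?_eq_getElem hj, Option.toList_some, trs_snoc, h2, h1]
      rfl
  obtain ⟨s, hs⟩ := C.past_future n f (fun x => trs S.a tr x.1 x.2 (f x))
  refine ⟨s, hs.trans (le_trans (le_of_eq ?_) (ind n))⟩
  simp only [win_zero]

end Chain

end Pool.Agent.P.MP_a9a441_nt.FU
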