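import Pool.Agent.P.MP_a9a441_nt.FU.Arith

/-!
Lists of colours. First show by induction on k: there is a finite set R of integers with
card R ≤ (|U| B + 1)^k such that act U m ≤ k implies m ≡ r mod prod U for some r ∈ R (subtract
c * (prod U / p), 0 ≤ c < p, to make an active letter p inactive; the other letters divide
prod U / p; act U m = 0 gives prod U ∣ m). Adding j prod U to m adds n j to the floor.
-/

namespace Pool.Agent.P.MP_a9a441_nt.FU

open Finset Filter Pool.Agent.Lib.LargeSieve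
open scoped ComplexConjugate

namespace ListsAux

theorem act_eq (U : List ℕ) (m : ℤ) :
    act U m = U.countP fun p : ℕ => decide (¬ (p : ℤ) ∣ m) := by
  unfold act
  induction U with
  | nil => rfl
  | cons a U ih => simp only [List.countP_cons, ← ih]; simp [List.countP_cons]

theorem drop {U : List ℕ} (hU : ∀ p ∈ U, p.Prime) (hn : U.Nodup) {p : ℕ} (hp : p ∈ U) {m : ℤ}
    (hm : ¬ (p : ℤ) ∣ m) :
    ∃ c < p, act U (m - c * ((U.erase p).prod : ℕ)) + 1 ≤ act U m := by
  have h0 : (0 : ℤ) < p := by exact_mod_cast (hU p hp).pos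
  have h1 : Nat.Coprime p (U.erase p).prod := (Nat.Prime.coprime_iff_not_dvd (hU p hp)).2 fun h => by
    obtain ⟨a, ha, h⟩ := (hU p hp).prime.dvd_prod_iff.1 h
    rw [← (Nat.prime_dvd_prime_iff_eq (hU p hp) (hU a (List.mem_of_mem_erase ha))).1 h] at ha
    exact hn.not_mem_erase ha
  obtain ⟨a, b, hab⟩ := Nat.isCoprime_iff_coprime.2 h1
  have h2 := Int.emod_nonneg (m * b) h0.ne'
  have h3 := Int.emod_lt_of_pos (m * b) h0
  refine ⟨(m * b % p).toNat, by omega, ?_⟩
  have h4 : (p : ℤ) ∣ m - (m * b % p).toNat * ((U.erase p).prod : ℕ) := by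
    rw [Int.toNat_of_nonneg h2, Int.emod_def]
    exact ⟨m * a + m * b / p * ((U.erase p).prod : ℕ), by linear_combination -m * hab⟩
  rw [act_eq, act_eq, (List.perm_cons_erase hp).countP_eq, (List.perm_cons_erase hp).countP_eq (l₁ := U),
    List.countP_cons_of_neg (by simpa using h4), List.countP_cons_of_pos (by simpa using hm)]
  refine Nat.succ_le_succ (List.countP_mono_left fun q hq h => ?_)
  rw [decide_eq_true_iff] at h ⊢
  exact fun h' => h (h'.sub ((Int.natCast_dvd_natCast.2 (List.dvd_prod hq)).mul_left _))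

theorem res {U : List ℕ} {B : ℕ} (hU : ∀ p ∈ U, p.Prime ∧ p ≤ B) (hn : U.Nodup) (k : ℕ) :
    ∃ R : Finset ℤ, R.card ≤ (U.length * B + 1) ^ k ∧
      ∀ m : ℤ, act U m ≤ k → ∃ r ∈ R, ((U.prod : ℕ) : ℤ) ∣ m - r := by
  induction k with
  | zero =>
    refine ⟨{0}, by simp, fun m hm => ⟨0, mem_singleton_self _, ?_⟩⟩
    have h := List.countP_eq_zero.1 ((act_eq U m).symm.trans (Nat.le_zero.1 hm))
    have e : ∏ p ∈ U.toFinset, p = U.prod := by simpa using List.prod_toFinset id hn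
    rw [sub_zero, Int.natCast_dvd, ← e]
    exact prod_primes_dvd _ (fun p hp => (hU p (List.mem_toFinset.1 hp)).1.prime) fun p hp =>
      Int.natCast_dvd.1 (by simpa using h p (List.mem_toFinset.1 hp))
  | succ k ih =>
    obtain ⟨R, h1, h2⟩ := ih
    let D : Finset ℤ := insert 0 ((U.toFinset ×ˢ range B).image fun x =>
      (x.2 : ℤ) * ((U.erase x.1).prod : ℕ))
    have hD : D.card ≤ U.length * B + 1 := (card_insert_le _ _).trans (Nat.succ_le_succ
      (card_image_le.trans (by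
        rw [card_product, card_range]
        exact Nat.mul_le_mul_right _ U.toFinset_card_le)))
    refine ⟨(R ×ˢ D).image fun x => x.1 + x.2, card_image_le.trans ?_, fun m hm => ?_⟩
    · rw [card_product, pow_succ]
      exact Nat.mul_le_mul h1 hD
    · obtain ⟨d, hd, h⟩ : ∃ d ∈ D, act U (m - d) ≤ k := by
        rcases Nat.eq_zero_or_pos (act U m) with h | h
        · exact ⟨0, mem_insert_self _ _, by rw [sub_zero, h]; exact k.zero_le⟩
        · obtain ⟨p, hp, h⟩ := List.countP_pos_iff.1 (h.trans_eq (act_eq U m))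
          obtain ⟨c, c1, c2⟩ := drop (fun p hp => (hU p hp).1) hn hp (of_decide_eq_true h)
          exact ⟨_, mem_insert_of_mem (mem_image.2 ⟨(p, c), mem_product.2
            ⟨List.mem_toFinset.2 hp, mem_range.2 (c1.trans_le (hU p hp).2)⟩, rfl⟩),
            Nat.le_of_succ_le_succ (c2.trans hm)⟩
      obtain ⟨r, hr, h⟩ := h2 _ h
      exact ⟨r + d, mem_image.2 ⟨(r, d), mem_product.2 ⟨hr, hd⟩, rfl⟩, by
        rwa [add_comm, ← sub_sub]⟩

end ListsAux

theorem lists {U : List ℕ} {B : ℕ} (hU : ∀ p ∈ U, p.Prime ∧ p ≤ B) (hn : U.Nodup) (k n : ℕ)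
    (β : ℝ) (ζ : ℤ) : ∃ L : Finset ℤ, L.card ≤ (U.length * B + 1) ^ k ∧
      ∀ m : ℤ, act U (m - ζ) ≤ k → ⌊(n : ℝ) * ((β + m) / (U.prod : ℕ))⌋ % (n : ℤ) ∈ L := by
  obtain ⟨R, h1, h2⟩ := ListsAux.res hU hn k
  refine ⟨R.image fun r : ℤ => ⌊(n : ℝ) * ((β + (r + ζ)) / (U.prod : ℕ))⌋ % (n : ℤ),
    card_image_le.trans h1, fun m hm => ?_⟩
  obtain ⟨r, hr, j, hj⟩ := h2 _ hm
  refine mem_image.2 ⟨r, hr, ?_⟩
  have h0 : ((U.prod : ℕ) : ℝ) ≠ 0 :=
    Nat.cast_ne_zero.2 (List.prod_ne_zero fun h => (hU 0 h).1.ne_zero rfl)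
  have h3 : (m : ℝ) - ζ - r = (U.prod : ℕ) * j := by
    have := congrArg (Int.cast : ℤ → ℝ) hj
    rwa [Int.cast_mul, Int.cast_natCast, Int.cast_sub, Int.cast_sub] at this
  have h4 : (n : ℝ) * ((β + m) / (U.prod : ℕ)) =
      n * ((β + (r + ζ)) / (U.prod : ℕ)) + ((n * j : ℤ) : ℝ) := by
    rw [Int.cast_mul, Int.cast_natCast, ← mul_add, div_add' _ _ _ h0]
    congr 2
    linarith
  rw [h4, Int.floor_add_intCast, Int.add_mul_emod_self_left]

end Pool.Agent.P.MP_a9a441_nt.FU
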