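import Pool.Agent.P.MP_a9a441_nt.FU.Apex

/-!
Paths whose key determines the product of the last b letters. For each key k ∈ K all lonely
paths with key k have the same apex z(k) and the same product u(k). Count them by `Pr_apex` or by
`mu_le`: D is free (π^(4b)), U = U₁ ++ U₂ with U₁ free (π^(3b)) and prod U₂ = u(k)
(at most b^b words by `count_prod`).
-/

namespace Pool.Agent.P.MP_a9a441_nt.FU

open Finset Filter Pool.Agent.Lib.LargeSieve
open scoped ComplexConjugate

namespace LonelyAux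

/-- Paths with a common apex and a common product of the last `b` letters. -/
theorem card_le (S : Sys) (b : ℕ) (W : Finset Pth) (hW : W ⊆ S.paths (4 * b))
    (h1 : ∀ x ∈ W, ∀ x' ∈ W, apex S.a x = apex S.a x')
    (h2 : ∀ x ∈ W, ∀ x' ∈ W, ((US x'.2).drop (3 * b)).prod = ((US x.2).drop (3 * b)).prod) :
    W.card ≤ S.Ps.card ^ (4 * b) * (S.Ps.card ^ (3 * b) * b ^ b) := by
  rcases W.eq_empty_or_nonempty with h | ⟨x₀, hx₀⟩
  · simp [h]
  have hc := count_prod (Ps := S.Ps) (fun p hp => (S.prime p hp).1) b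
    ((US x₀.2).drop (3 * b)).prod
  refine le_trans (card_le_card_of_injOn
    (t := words S.Ps (4 * b) ×ˢ words S.Ps (3 * b) ×ˢ
      (words S.Ps b).filter fun l => l.prod = ((US x₀.2).drop (3 * b)).prod)
    (fun x => (DS x.2, (US x.2).take (3 * b), (US x.2).drop (3 * b))) ?_ ?_) ?_
  · intro x hx
    rw [mem_coe] at hx
    obtain ⟨-, hl, hU, hD⟩ := Sys.mem_paths.1 (hW hx)
    have lU : (US x.2).length = 4 * b := by rw [US, List.length_map, hl]
    have lD : (DS x.2).length = 4 * b := by rw [DS, List.length_map, hl]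
    rw [mem_coe, mem_product, mem_product, mem_filter, mem_words, mem_words, mem_words]
    refine ⟨⟨lD, hD⟩, ⟨?_, fun p hp => hU p (List.mem_of_mem_take hp)⟩,
      ⟨?_, fun p hp => hU p (List.mem_of_mem_drop hp)⟩, h2 x₀ hx₀ x hx⟩
    · show ((US x.2).take (3 * b)).length = 3 * b
      rw [List.length_take, lU]
      omega
    · show ((US x.2).drop (3 * b)).length = b
      rw [List.length_drop, lU]
      omega
  · intro x hx x' hx' h
    rw [mem_coe] at hx hx'
    have e1 : DS x.2 = DS x'.2 := congrArg Prod.fst h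
    have e2 : (US x.2).take (3 * b) = (US x'.2).take (3 * b) :=
      congrArg (fun w => w.2.1) h
    have e3 : (US x.2).drop (3 * b) = (US x'.2).drop (3 * b) :=
      congrArg (fun w => w.2.2) h
    have e4 : US x.2 = US x'.2 := by
      rw [← List.take_append_drop (3 * b) (US x.2), e2, e3, List.take_append_drop]
    rw [← mk_apex (a := S.a) x, ← mk_apex (a := S.a) x', e1, e4, h1 x hx x' hx']
  · rw [card_product, card_product, card_words, card_words]
    exact Nat.mul_le_mul_left _ (Nat.mul_le_mul_left _ hc)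

end LonelyAux

theorem Chain.lonely {S : Sys} (C : Chain S) (b : ℕ) {ι : Type} (H : Pth → Prop) (κ : Pth → ι)
    (K : Finset ι) (hK : ∀ x, x.2.length = 4 * b → S.Valid x.1 x.2 → H x → κ x ∈ K)
    (hκ : ∀ x x', κ x = κ x' → apex S.a x = apex S.a x') :
    C.Pr (4 * b) (fun x => H x ∧ ∀ x', x'.2.length = 4 * b → S.Valid x'.1 x'.2 → H x' →
      κ x' = κ x → ((US x'.2).drop (3 * b)).prod = ((US x.2).drop (3 * b)).prod) ≤
      K.card * (C.Γ ^ (4 * b + 1) / S.N * ((b : ℝ) / S.Ps.card) ^ b) := by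
  classical
  refine le_trans (C.Pr_mono (G := fun x => S.Valid x.1 x.2 ∧ H x ∧
    ∀ x', x'.2.length = 4 * b → S.Valid x'.1 x'.2 → H x' →
      κ x' = κ x → ((US x'.2).drop (3 * b)).prod = ((US x.2).drop (3 * b)).prod)
    fun x _ hv hx => ⟨hv, hx⟩) ?_
  unfold Chain.Pr
  generalize hWd : @Finset.filter Pth (_) (_) (S.paths (4 * b)) = W
  have hW : ∀ x ∈ W, x ∈ S.paths (4 * b) ∧ S.Valid x.1 x.2 ∧ H x ∧
      ∀ x', x'.2.length = 4 * b → S.Valid x'.1 x'.2 → H x' →
        κ x' = κ x → ((US x'.2).drop (3 * b)).prod = ((US x.2).drop (3 * b)).prod := by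
    intro x hx
    rw [← hWd] at hx
    exact (@mem_filter _ _ (_) _ _).1 hx
  have hlen : ∀ x ∈ W, x.2.length = 4 * b := fun x hx => (Sys.mem_paths.1 (hW x hx).1).2.1
  have hcard : W.card ≤ K.card * (S.Ps.card ^ (4 * b) * (S.Ps.card ^ (3 * b) * b ^ b)) := by
    rw [mul_comm]
    refine card_le_mul_card_image_of_maps_to (f := κ)
      (fun x hx => hK x (hlen x hx) (hW x hx).2.1 (hW x hx).2.2.1) _ fun k _ => ?_
    refine LonelyAux.card_le S b _ (fun x hx => (hW x (mem_filter.1 hx).1).1) ?_ ?_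
    · intro x hx x' hx'
      rw [mem_filter] at hx hx'
      exact hκ x x' (hx.2.trans hx'.2.symm)
    · intro x hx x' hx'
      rw [mem_filter] at hx hx'
      exact (hW x hx.1).2.2.2 x' (hlen x' hx'.1) (hW x' hx'.1).2.1 (hW x' hx'.1).2.2.1
        (hx'.2.trans hx.2.symm)
  have hπ : (0 : ℝ) < S.Ps.card := by exact_mod_cast Sys.card_pos
  have hN : (0 : ℝ) < S.N := by exact_mod_cast S.hN
  have hΓ : 0 < C.Γ := lt_of_lt_of_le one_pos C.Γ1
  have hμ : ∀ x ∈ W, C.μ x ≤ C.Γ ^ (4 * b + 1) / (S.N * (S.Ps.card : ℝ) ^ (2 * (4 * b))) := by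
    intro x hx
    have h := C.mu_le x
    rwa [hlen x hx] at h
  refine (sum_le_card_nsmul _ _ _ hμ).trans ?_
  rw [nsmul_eq_mul]
  have hc : (W.card : ℝ) ≤
      K.card * ((S.Ps.card : ℝ) ^ (4 * b) * ((S.Ps.card : ℝ) ^ (3 * b) * (b : ℝ) ^ b)) := by
    exact_mod_cast hcard
  refine (mul_le_mul_of_nonneg_right hc (by positivity)).trans (le_of_eq ?_)
  have e : (S.Ps.card : ℝ) ^ (2 * (4 * b)) =
      (S.Ps.card : ℝ) ^ (4 * b) * ((S.Ps.card : ℝ) ^ (3 * b) * (S.Ps.card : ℝ) ^ b) := by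
    rw [← pow_add, ← pow_add]
    congr 1
    ring
  rw [e, div_pow]
  field_simp

end Pool.Agent.P.MP_a9a441_nt.FU
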