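import Pool.Agent.P.MP_a9a441_nt.FU.Core

/-!
The walk on the core E'. deg y = number of labels e with (y, e) ∈ E'. Define by recursion
w y [] = 1, w y (e :: l) = if (y, e) ∈ E' then w (st y e) l / deg y else 0, and
μ (y, l) = deg y / card E' * w y l. Then w y (l₁ ++ l₂) = w y l₁ * w (en y l₁) l₂; an edge of E'
ends at a point of positive degree (symmetry); reversal: deg y * w y l = deg (en y l) * w (rv).
For `valid` with the empty word: deg y ≠ 0 gives an edge at y, so y ∈ Y.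
-/

namespace Pool.Agent.P.MP_a9a441_nt.FU

open Finset Filter Pool.Agent.Lib.LargeSieve
open scoped ComplexConjugate

namespace MkChainAux

variable (a : ℕ → ℤ) (A : Finset Lb) (E : Finset (ℤ × Lb))

/-- The degree of a point. -/
noncomputable def deg (y : ℤ) : ℝ := (A.filter fun e => (y, e) ∈ E).card

/-- The probability of a word, given the starting point. -/
noncomputable def w : ℤ → List Lb → ℝ
  | _, [] => 1
  | y, e :: l => if (y, e) ∈ E then w (st a y e) l / deg A E y else 0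

theorem deg_nonneg (y : ℤ) : 0 ≤ deg A E y := Nat.cast_nonneg _

theorem w_nonneg : ∀ (l : List Lb) (y : ℤ), 0 ≤ w a A E y l
  | [], _ => zero_le_one
  | e :: l, y => by
    rw [w]
    split_ifs
    · exact div_nonneg (w_nonneg l _) (deg_nonneg A E y)
    · exact le_rfl

theorem w_append : ∀ (l₁ l₂ : List Lb) (y : ℤ),
    w a A E y (l₁ ++ l₂) = w a A E y l₁ * w a A E (en a y l₁) l₂
  | [], l₂, y => by simp [w]
  | e :: l₁, l₂, y => by
    rw [List.cons_append, w, w, en_cons, w_append l₁ l₂]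
    split_ifs
    · ring
    · ring

variable {a A E}

theorem deg_pos (hA : ∀ e ∈ E, e.2 ∈ A) {y : ℤ} {e : Lb} (h : (y, e) ∈ E) : 0 < deg A E y :=
  Nat.cast_pos.2 (card_pos.2 ⟨e, mem_filter.2 ⟨hA _ h, h⟩⟩)

theorem exists_edge {y : ℤ} (h : deg A E y ≠ 0) : ∃ e, (y, e) ∈ E := by
  obtain ⟨e, he⟩ := card_ne_zero.1 (Nat.cast_ne_zero.1 h)
  exact ⟨e, (mem_filter.1 he).2⟩

theorem w_rev (hA : ∀ e ∈ E, e.2 ∈ A) (hs : ∀ e ∈ E, (st a e.1 e.2, e.2.swap) ∈ E) :
    ∀ (l : List Lb) (y : ℤ), deg A E (en a y l) * w a A E (en a y l) (l.map Prod.swap).reverse =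
      deg A E y * w a A E y l
  | [], y => by simp
  | e :: l, y => by
    have h1 : en a (en a (st a y e) l) (l.map Prod.swap).reverse = st a y e :=
      en_rv (a := a) (st a y e, l)
    rw [en_cons, List.map_cons, List.reverse_cons, w_append, ← mul_assoc, w_rev hA hs l, h1, w, w,
      w]
    by_cases h : (y, e) ∈ E
    · have h2 : (st a y e, e.swap) ∈ E := hs _ h
      have h3 := (deg_pos hA h).ne'
      have h4 := (deg_pos hA h2).ne'
      rw [if_pos h, if_pos h2]
      field_simp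
    · have h2 : (st a y e, e.swap) ∉ E := fun k => h (by
        have := hs _ k
        rwa [st_swap, Prod.swap_swap] at this)
      rw [if_neg h, if_neg h2, mul_zero, mul_zero]

theorem sum_w (z : ℤ) (h : deg A E z ≠ 0) : ∑ e ∈ A, w a A E z [e] = 1 := by
  simp only [w]
  rw [← sum_filter, sum_const, nsmul_eq_mul]
  exact mul_one_div_cancel h

theorem sum_deg {Y : Finset ℤ} (hA : ∀ e ∈ E, e.2 ∈ A) (hY : ∀ e ∈ E, e.1 ∈ Y) :
    ∑ y ∈ Y, deg A E y = E.card := by
  rw [card_eq_sum_card_fiberwise (f := Prod.fst) (t := Y) fun e he => hY e he, Nat.cast_sum]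
  refine sum_congr rfl fun y _ => congrArg Nat.cast ?_
  refine card_bij (fun e _ => (y, e)) (fun e he => mem_filter.2 ⟨(mem_filter.1 he).2, rfl⟩)
    (fun e _ e' _ h => (Prod.mk.inj h).2) fun e he => ?_
  obtain ⟨h1, rfl⟩ := mem_filter.1 he
  exact ⟨e.2, mem_filter.2 ⟨hA e h1, h1⟩, rfl⟩

theorem valid_of (S : Sys) {E : Finset (ℤ × Lb)} (hE : E ⊆ S.E) (hA : ∀ e ∈ E, e.2 ∈ S.A)
    (hs : ∀ e ∈ E, (st S.a e.1 e.2, e.2.swap) ∈ E) :
    ∀ (l : List Lb) (y : ℤ), deg S.A E y ≠ 0 → w S.a S.A E y l ≠ 0 → S.Valid y l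
  | [], y, h, _ => by
    obtain ⟨e, he⟩ := exists_edge h
    exact (S.memE _ (hE he)).1
  | e :: l, y, _, h => by
    rw [w] at h
    by_cases k : (y, e) ∈ E
    · rw [if_pos k] at h
      exact ⟨hE k, valid_of S hE hA hs l _ (deg_pos hA (hs _ k)).ne' (div_ne_zero_iff.1 h).1⟩
    · exact (h (if_neg k)).elim

end MkChainAux

open MkChainAux in
theorem exists_chain (S : Sys) {Γ : ℝ} (h1 : 1 ≤ Γ) (ht : Γ ≤ S.t)
    (hE : 4 / Γ * S.N * (S.Ps.card : ℝ) ^ 2 ≤ S.E.card) : ∃ C : Chain S, C.Γ = Γ := by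
  obtain ⟨E, h2, h3, h4, h5⟩ := exists_core S h1 hE
  have hA : ∀ e ∈ E, e.2 ∈ S.A := fun e he =>
    mem_product.2 ⟨(S.memE e (h2 he)).2.1, (S.memE e (h2 he)).2.2⟩
  have hY : ∀ e ∈ E, e.1 ∈ S.Y := fun e he => (S.memE e (h2 he)).1
  have hπ : (0 : ℝ) < S.Ps.card := Nat.cast_pos.2 Sys.card_pos
  have hN : (0 : ℝ) < S.N := Nat.cast_pos.2 S.hN
  have hΓ : 0 < Γ := by linarith
  have hc : (0 : ℝ) < E.card := lt_of_lt_of_le (by positivity) h4
  have hμ : ∀ x : Pth, 0 ≤ deg S.A E x.1 / E.card * w S.a S.A E x.1 x.2 := fun x =>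
    mul_nonneg (div_nonneg (deg_nonneg _ _ _) hc.le) (w_nonneg _ _ _ _ _)
  refine ⟨⟨Γ, fun x => deg S.A E x.1 / E.card * w S.a S.A E x.1 x.2, h1, ht, hμ, fun x hx => ?_,
    ?_, fun y l => ?_, fun x => ?_, fun y => ?_, fun y l e => ?_, fun y l₁ l₂ => ?_⟩, rfl⟩
  · exact valid_of S h2 hA h3 _ _ (div_ne_zero_iff.1 (left_ne_zero_of_mul hx)).1
      (right_ne_zero_of_mul hx)
  · simp only [w, mul_one]
    rw [← sum_div, sum_deg hA hY, div_self hc.ne']
  · simp only [w_append, ← mul_assoc]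
    rw [← mul_sum]
    by_cases k : deg S.A E (en S.a y l) = 0
    · have k1 := w_rev hA h3 l y
      rw [k, zero_mul] at k1
      rw [div_mul_eq_mul_div, ← k1]
      simp
    · rw [sum_w _ k, mul_one]
  · simp only [rv]
    rw [div_mul_eq_mul_div, w_rev hA h3, div_mul_eq_mul_div]
  · simp only [w, mul_one]
    have k1 : deg S.A E y ≤ (S.Ps.card : ℝ) ^ 2 := by
      have : (S.A.filter fun e => (y, e) ∈ E).card ≤ S.Ps.card ^ 2 := by
        refine (card_filter_le _ _).trans ?_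
        rw [Sys.A, card_product, sq]
      unfold deg
      exact_mod_cast this
    rw [div_le_div_iff₀ hc hN]
    have k2 : 2 * (S.N * (S.Ps.card : ℝ) ^ 2) ≤ Γ * E.card := by
      have := mul_le_mul_of_nonneg_left h4 hΓ.le
      refine le_trans (le_of_eq ?_) this
      field_simp
    have k3 : 0 ≤ S.N * (S.Ps.card : ℝ) ^ 2 := by positivity
    nlinarith
  · simp only [w_append, ← mul_assoc]
    refine mul_le_mul_of_nonneg_left ?_ (hμ (y, l))
    simp only [w]
    split_ifs with k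
    · have k1 := h5 _ k
      have k2 := deg_pos hA k
      rw [div_le_iff₀ hΓ] at k1
      rw [div_le_div_iff₀ k2 (by positivity), one_mul, mul_comm]
      exact k1
    · positivity
  · simp only [w_append, w]
    ring

end Pool.Agent.P.MP_a9a441_nt.FU
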