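import Pool.Agent.P.MP_a9a441_nt.FU.Bas

/-!
Choice of the parameters. Let L = log X, A' a natural number ≥ max (1001, 40 / γ),
j₁ = ⌈A' log L / log 2⌉₊ (so L^A' ≤ 2^j₁ ≤ 2 L^A'), A = 10 κ (A' + 1), t = ⌈L⌉₊. For P = 2^j let b
be minimal with X^2 ≤ P^b and r minimal with X^16 ≤ P^r (`Nat.find`); then P^b ≤ X^2 P,
(b - 1) j log 2 ≤ 2 L, (r - 1) j log 2 ≤ 16 L, r j ≤ 25 L, 4 r j / c^2 ≤ L^2,
L^(2r) ≤ X^(32 / A') L^2, (2r+1)(20r+1) ≤ L^3. Everything else is growth of L^k against X^a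
(`isLittleO_log_rpow_rpow_atTop`, `Real.tendsto_pow_log_div_mul_add_atTop`).
-/

namespace Pool.Agent.P.MP_a9a441_nt.FU

open Finset Filter Pool.Agent.Lib.LargeSieve
open scoped ComplexConjugate

namespace NumAux

theorem tendsto_L : Tendsto (fun X : ℕ => Real.log X) atTop atTop :=
  Real.tendsto_log_atTop.comp tendsto_natCast_atTop_atTop

theorem ev_ge (C : ℝ) : ∀ᶠ X : ℕ in atTop, C ≤ Real.log X :=
  tendsto_L.eventually_ge_atTop C

theorem ev_loglog {ε : ℝ} (hε : 0 < ε) :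
    ∀ᶠ X : ℕ in atTop, Real.log (Real.log X) ≤ ε * Real.log X := by
  have h := Real.isLittleO_log_id_atTop.bound hε
  filter_upwards [tendsto_L.eventually h, ev_ge 0] with X h1 h2
  simp only [id, Real.norm_eq_abs] at h1
  rw [abs_of_nonneg h2] at h1
  exact (le_abs_self _).trans h1

theorem ev_big : ∀ᶠ X : ℕ in atTop, ∀ t : ℝ, 0 ≤ t → t ≤ 2 * Real.log X →
    t ^ 1000 ≤ Real.log X ^ 1001 := by
  filter_upwards [ev_ge (2 ^ 1000), ev_ge 0] with X hbig h0 t ht0 ht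
  refine (pow_le_pow_left₀ ht0 ht 1000).trans ?_
  rw [mul_pow, pow_succ (Real.log X) 1000, mul_comm (Real.log X ^ 1000)]
  exact mul_le_mul_of_nonneg_right hbig (pow_nonneg h0 _)

theorem exists_min {P Y : ℕ} (hP : 2 ≤ P) (hY : 2 ≤ Y) :
    ∃ b : ℕ, P ^ b < Y ∧ Y ≤ P ^ (b + 1) := by
  have hex : ∃ n, Y ≤ P ^ n := ⟨Y, (Nat.lt_pow_self (by omega)).le⟩
  have h1 := Nat.find_spec hex
  have h0 : Nat.find hex ≠ 0 := by
    intro h
    rw [h] at h1
    simp at h1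
    omega
  obtain ⟨b, hb⟩ := Nat.exists_eq_succ_of_ne_zero h0
  refine ⟨b, ?_, ?_⟩
  · have := Nat.find_min hex (m := b) (by omega)
    omega
  · rw [hb] at h1; exact h1

theorem log_of_pow_lt {j b X n : ℕ} (h : (2 ^ j) ^ b < X ^ n) :
    (j : ℝ) * b * Real.log 2 ≤ n * Real.log X := by
  have h1 : (((2 ^ j) ^ b : ℕ) : ℝ) ≤ ((X ^ n : ℕ) : ℝ) := by exact_mod_cast h.le
  have h2 := Real.log_le_log (by positivity) h1
  push_cast at h2
  rw [Real.log_pow, Real.log_pow, Real.log_pow] at h2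
  linarith

end NumAux

open NumAux

theorem num_scale (κ B : ℕ) (hκ : 2 ≤ κ) {A' : ℕ} (hA : 1001 ≤ A') : ∀ᶠ X : ℕ in atTop,
    ∃ j₁ t : ℕ, B ≤ j₁ ∧ B ≤ t ∧ Real.log X ≤ t ∧ Real.log X ^ A' ≤ 2 ^ j₁ ∧ t ^ 1000 ≤ 2 ^ j₁ ∧
      4 * (κ * j₁) ≤ t ∧ ((2 : ℝ) ^ (κ * j₁)) ^ 10 ≤ Real.log X ^ (10 * κ * (A' + 1)) := by
  have hκ0 : (0 : ℝ) < κ := by exact_mod_cast (by omega : 0 < κ)
  have hA0 : (0 : ℝ) < A' := by exact_mod_cast (by omega : 0 < A')
  filter_upwards [ev_ge 2, ev_ge (2 ^ B), ev_ge B, ev_big, ev_ge (16 * κ),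
    ev_loglog (ε := 1 / (16 * κ * A')) (by positivity)] with X h2 hB hB' hbig hk hll
  set L := Real.log X with hL
  have hL1 : 1 ≤ L := by linarith
  have hL0 : 0 < L := by linarith
  have hpow : 1 ≤ L ^ A' := one_le_pow₀ hL1
  obtain ⟨n, hn1, hn2⟩ := exists_nat_pow_near hpow (by norm_num : (1 : ℝ) < 2)
  have hup : (2 : ℝ) ^ (n + 1) ≤ 2 * L ^ A' := by rw [pow_succ]; linarith
  have hLA : L ≤ L ^ A' := le_self_pow₀ hL1 (by omega)
  have ht1 : L ≤ (⌈L⌉₊ : ℝ) := Nat.le_ceil L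
  have ht2 : (⌈L⌉₊ : ℝ) ≤ 2 * L := by have := Nat.ceil_lt_add_one hL0.le; linarith
  refine ⟨n + 1, ⌈L⌉₊, ?_, ?_, ht1, hn2.le, ?_, ?_, ?_⟩
  · have h : (2 : ℝ) ^ B < 2 ^ (n + 1) := by linarith
    exact ((pow_lt_pow_iff_right₀ (by norm_num : (1 : ℝ) < 2)).mp h).le
  · exact_mod_cast hB'.trans ht1
  · have h5 : (⌈L⌉₊ : ℝ) ^ 1000 ≤ 2 ^ (n + 1) :=
      (hbig _ (by positivity) ht2).trans ((pow_le_pow_right₀ hL1 hA).trans hn2.le)
    exact_mod_cast h5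
  · have h1 := Real.log_le_log (by positivity) hn1
    rw [Real.log_pow, Real.log_pow] at h1
    have hl2 := Real.log_two_gt_d9
    have hn0 : (0 : ℝ) ≤ n := by positivity
    have h3 : (n : ℝ) ≤ 2 * (A' * Real.log L) := by nlinarith
    have h4 : A' * Real.log L ≤ L / (16 * κ) := by
      calc A' * Real.log L ≤ A' * (1 / (16 * κ * A') * L) := mul_le_mul_of_nonneg_left hll hA0.le
        _ = L / (16 * κ) := by field_simp
    have h5 : (κ : ℝ) * n ≤ L / 8 := by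
      calc (κ : ℝ) * n ≤ κ * (2 * (L / (16 * κ))) :=
            mul_le_mul_of_nonneg_left (by linarith) hκ0.le
        _ = L / 8 := by field_simp; ring
    have h6 : ((4 * (κ * (n + 1)) : ℕ) : ℝ) ≤ (⌈L⌉₊ : ℝ) := by
      push_cast
      nlinarith
    exact_mod_cast h6
  · have h1 : (2 : ℝ) ^ (n + 1) ≤ L ^ (A' + 1) := by
      rw [pow_succ L]
      nlinarith
    calc ((2 : ℝ) ^ (κ * (n + 1))) ^ 10 = ((2 : ℝ) ^ (n + 1)) ^ (10 * κ) := by
          rw [← pow_mul, ← pow_mul]; congr 1; ring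
      _ ≤ (L ^ (A' + 1)) ^ (10 * κ) := pow_le_pow_left₀ (by positivity) h1 _
      _ = L ^ (10 * κ * (A' + 1)) := by rw [← pow_mul]; congr 1; ring

theorem num_b : ∀ᶠ X : ℕ in atTop, ∀ j t : ℕ, 20 ≤ j → Real.log X ≤ t → (2 ^ j) ^ 10 ≤ X →
    ∃ b : ℕ, 2 ≤ b ∧ 4 * b + 2 ≤ t ∧ X ^ 2 ≤ (2 ^ j) ^ b ∧ (2 ^ j) ^ (2 * b) ≤ X ^ 5 := by
  filter_upwards [ev_ge 15, eventually_ge_atTop 2] with X hL hX j t hj ht hP
  have hP2 : 2 ≤ 2 ^ j := by
    calc 2 = 2 ^ 1 := by norm_num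
      _ ≤ 2 ^ j := Nat.pow_le_pow_right (by norm_num) (by omega)
  have hXX : X < X ^ 2 := by nlinarith
  obtain ⟨b, hb1, hb2⟩ := exists_min (P := 2 ^ j) (Y := X ^ 2) hP2 (by omega)
  have hP1 : (2 ^ j) ^ 2 ≤ X := (Nat.pow_le_pow_right (by omega) (by norm_num)).trans hP
  refine ⟨b + 1, ?_, ?_, hb2, ?_⟩
  · by_contra h
    have hb0 : b = 0 := by omega
    subst hb0
    have : (2 ^ j) ^ (0 + 1) ≤ (2 ^ j) ^ 2 := Nat.pow_le_pow_right (by omega) (by norm_num)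
    omega
  · have h1 := log_of_pow_lt hb1
    have hl2 := Real.log_two_gt_d9
    have hj' : (20 : ℝ) ≤ j := by exact_mod_cast hj
    have hb0 : (0 : ℝ) ≤ b := by positivity
    have h2 : (20 : ℝ) * b ≤ j * b := mul_le_mul_of_nonneg_right hj' hb0
    have h3 : (20 : ℝ) * b * 0.69 ≤ j * b * Real.log 2 :=
      mul_le_mul h2 (by linarith) (by norm_num) (by positivity)
    have h4 : ((4 * (b + 1) + 2 : ℕ) : ℝ) ≤ t := by
      push_cast at h1 ⊢
      linarith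
    exact_mod_cast h4
  · calc (2 ^ j) ^ (2 * (b + 1)) = ((2 ^ j) ^ b) ^ 2 * (2 ^ j) ^ 2 := by ring
      _ ≤ (X ^ 2) ^ 2 * X := Nat.mul_le_mul (Nat.pow_le_pow_left hb1.le 2) hP1
      _ = X ^ 5 := by ring

theorem num_r {γ c : ℝ} (hγ : 0 < γ) (hc : 0 < c) {A' : ℕ} (hA : 40 / γ ≤ A') :
    ∀ᶠ X : ℕ in atTop, ∀ j : ℕ, Real.log X ^ A' ≤ 2 ^ j → (j : ℝ) ≤ Real.log X →
      ∃ r : ℕ, 1 ≤ r ∧ r ≤ X ∧ X ^ 16 ≤ (2 ^ j) ^ r ∧
        (2 * r + 1) * (20 * r + 1) * (4 * r * j / c ^ 2) ^ r ≤ (X : ℝ) ^ γ := by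
  have hA0 : (0 : ℝ) < A' := lt_of_lt_of_le (by positivity) hA
  have hA1 : A' ≠ 0 := by
    intro h
    rw [h] at hA0
    simp at hA0
  have hX25 : ∀ᶠ X : ℕ in atTop, 25 * Real.log X ≤ X := by
    have h := Real.isLittleO_log_id_atTop.bound (c := 1 / 25) (by norm_num)
    filter_upwards [tendsto_natCast_atTop_atTop.eventually h] with X h1
    simp only [id, Real.norm_eq_abs, Nat.abs_cast] at h1
    have := le_abs_self (Real.log X)
    linarith
  filter_upwards [ev_ge 30000, ev_ge (100 / c ^ 2), eventually_ge_atTop 2, hX25,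
    ev_loglog (ε := γ / 25) (by positivity)] with X hL hc' hX h25 hll j hj hjL
  set L := Real.log X with hLdef
  have hL1 : 1 ≤ L := by linarith
  have hL0 : 0 < L := by linarith
  have hLA : L ≤ L ^ A' := le_self_pow₀ hL1 hA1
  have hP2 : 2 ≤ 2 ^ j := by
    have : (2 : ℝ) ≤ 2 ^ j := by linarith
    exact_mod_cast this
  have hj1 : (1 : ℝ) ≤ j := by
    have : j ≠ 0 := by
      intro h
      rw [h] at hP2
      omega
    exact_mod_cast Nat.one_le_iff_ne_zero.mpr this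
  have hY : 2 ≤ X ^ 16 := hX.trans (Nat.le_self_pow (by norm_num) X)
  obtain ⟨b, hb1, hb2⟩ := exists_min (P := 2 ^ j) (Y := X ^ 16) hP2 hY
  have h1 := log_of_pow_lt hb1
  have hl2 := Real.log_two_gt_d9
  have hb0 : (0 : ℝ) ≤ b := by positivity
  have h2 : (j : ℝ) * b * 0.69 ≤ j * b * Real.log 2 :=
    mul_le_mul_of_nonneg_left (by linarith) (by positivity)
  push_cast at h1
  have h3 : ((b : ℝ) + 1) * j ≤ 25 * L := by nlinarith
  have h4 : (b : ℝ) + 1 ≤ 25 * L := by nlinarith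
  refine ⟨b + 1, by omega, ?_, hb2, ?_⟩
  · have : ((b + 1 : ℕ) : ℝ) ≤ X := by push_cast; linarith
    exact_mod_cast this
  · push_cast
    have h5 : 4 * ((b : ℝ) + 1) * j / c ^ 2 ≤ L ^ 2 := by
      calc 4 * ((b : ℝ) + 1) * j / c ^ 2 ≤ 100 * L / c ^ 2 := by
            apply div_le_div_of_nonneg_right _ (by positivity)
            linarith
        _ = 100 / c ^ 2 * L := by ring
        _ ≤ L * L := mul_le_mul_of_nonneg_right hc' hL0.le
        _ = L ^ 2 := by ring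
    have h6 : (2 * ((b : ℝ) + 1) + 1) * (20 * ((b : ℝ) + 1) + 1) ≤ L ^ 3 := by
      calc (2 * ((b : ℝ) + 1) + 1) * (20 * ((b : ℝ) + 1) + 1) ≤ (51 * L) * (501 * L) :=
            mul_le_mul (by linarith) (by linarith) (by positivity) (by positivity)
        _ = 25551 * L ^ 2 := by ring
        _ ≤ L * L ^ 2 := mul_le_mul_of_nonneg_right (by linarith) (by positivity)
        _ = L ^ 3 := by ring
    have h7 : (4 * ((b : ℝ) + 1) * j / c ^ 2) ^ (b + 1) ≤ (L ^ 2) ^ (b + 1) :=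
      pow_le_pow_left₀ (by positivity) h5 _
    have h8 : (A' : ℝ) * Real.log L ≤ j * Real.log 2 := by
      have := Real.log_le_log (by positivity) hj
      rwa [Real.log_pow, Real.log_pow] at this
    have hlL : 0 ≤ Real.log L := Real.log_nonneg hL1
    have h9 : (A' : ℝ) * (b * Real.log L) ≤ 16 * L := by
      have := mul_le_mul_of_nonneg_left h8 hb0
      nlinarith
    have h10 : 40 ≤ γ * A' := by
      rw [div_le_iff₀ hγ] at hA
      linarith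
    have h11 : 40 * (b * Real.log L) ≤ γ * (16 * L) := by
      calc 40 * (b * Real.log L) ≤ γ * A' * (b * Real.log L) :=
            mul_le_mul_of_nonneg_right h10 (by positivity)
        _ = γ * (A' * (b * Real.log L)) := by ring
        _ ≤ γ * (16 * L) := mul_le_mul_of_nonneg_left h9 hγ.le
    have hX0 : (0 : ℝ) < X := by exact_mod_cast (by omega : 0 < X)
    calc (2 * ((b : ℝ) + 1) + 1) * (20 * ((b : ℝ) + 1) + 1) *
          (4 * ((b : ℝ) + 1) * j / c ^ 2) ^ (b + 1) ≤ L ^ 3 * (L ^ 2) ^ (b + 1) :=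
          mul_le_mul h6 h7 (by positivity) (by positivity)
      _ = L ^ (2 * b + 5) := by ring
      _ = Real.exp (((2 * b + 5 : ℕ) : ℝ) * Real.log L) := by
          rw [Real.exp_nat_mul, Real.exp_log hL0]
      _ ≤ Real.exp (L * γ) := by
          apply Real.exp_le_exp.mpr
          push_cast
          nlinarith
      _ = (X : ℝ) ^ γ := (Real.rpow_def_of_pos hX0 γ).symm

theorem num_pow (A : ℕ) {ε : ℝ} (hε : 0 < ε) :
    ∀ᶠ X : ℕ in atTop, Real.log X ^ A ≤ ε * X := by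
  have h := (Real.isLittleO_pow_log_id_atTop (n := A)).bound hε
  filter_upwards [tendsto_natCast_atTop_atTop.eventually h] with X h1
  simp only [id, Real.norm_eq_abs, Nat.abs_cast] at h1
  exact (le_abs_self _).trans h1

theorem num_Z {γ c G ε : ℝ} (hγ : 0 < γ) (hγ' : γ ≤ 1 / 20) (hc : 0 < c) (hε : 0 < ε) :
    ∀ᶠ X : ℕ in atTop, 1 ≤ c ^ 2 * (X : ℝ) ^ γ ∧ 100 * ((X : ℝ) ^ γ) ^ 2 * G / (c * X) ≤ ε := by
  have t1 : Tendsto (fun X : ℕ => (X : ℝ) ^ γ) atTop atTop :=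
    (tendsto_rpow_atTop hγ).comp tendsto_natCast_atTop_atTop
  have t2 : Tendsto (fun X : ℕ => (X : ℝ) ^ (1 / 2 : ℝ)) atTop atTop :=
    (tendsto_rpow_atTop (by norm_num)).comp tendsto_natCast_atTop_atTop
  filter_upwards [t1.eventually_ge_atTop (1 / c ^ 2), t2.eventually_ge_atTop (100 * |G| / (c * ε)),
    eventually_ge_atTop 1] with X h1 h2 hX
  have hX1 : (1 : ℝ) ≤ X := by exact_mod_cast hX
  have hX0 : (0 : ℝ) < X := by linarith
  refine ⟨?_, ?_⟩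
  · rw [div_le_iff₀ (by positivity)] at h1
    linarith
  · set s : ℝ := (X : ℝ) ^ (1 / 2 : ℝ) with hs
    have hs0 : 0 < s := Real.rpow_pos_of_pos hX0 _
    have hss : s * s = X := by
      rw [hs, ← Real.rpow_add hX0]
      norm_num
    have h3 : ((X : ℝ) ^ γ) ^ 2 ≤ s := by
      rw [sq, ← Real.rpow_add hX0]
      exact Real.rpow_le_rpow_of_exponent_le hX1 (by linarith)
    rw [div_le_iff₀ (by positivity)] at h2 ⊢
    have h4 : ((X : ℝ) ^ γ) ^ 2 * G ≤ s * |G| :=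
      (mul_le_mul_of_nonneg_left (le_abs_self G) (by positivity)).trans
        (mul_le_mul_of_nonneg_right h3 (abs_nonneg G))
    calc 100 * ((X : ℝ) ^ γ) ^ 2 * G = 100 * (((X : ℝ) ^ γ) ^ 2 * G) := by ring
      _ ≤ 100 * (s * |G|) := by linarith
      _ = s * (100 * |G|) := by ring
      _ ≤ s * (s * (c * ε)) := mul_le_mul_of_nonneg_left h2 hs0.le
      _ = ε * (c * (s * s)) := by ring
      _ = ε * (c * X) := by rw [hss]

end Pool.Agent.P.MP_a9a441_nt.FU
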