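import Pool.Agent.P.MP_a9a441_nt.FU.Cover

/-!
From PropK to PropL. Let δ' = δ / 24 (δ ≤ 1), δ₁ = δ'^2 / 48, η = h / X, R₀ = ρ^2, R₂ = ρ,
y0 = ⌈log X / η⌉, N = ⌈(5/4) / η⌉₊; for large X: ρ^2 η ≤ 1/100 and ρ h δ' ≥ 100. Let Sc be the set
of y in the range with ‖Sm (x_y) (R₀ η) (α y)‖ ≥ δ' x_y R₀ η. `cover` with u = x_y, v = x_(y+R₀),
R = ρ gives ∑_{s ≤ R₀ - ρ} ‖fine (y + s)‖ ≥ (δ'/2) R₀ x_y ρ η (ρ ≥ 100 / δ₁). Each fine sum is at most
6 x_y ρ η, so at least δ' (R₀ + 1) / 48 of the s ≤ R₀ have ‖fine (y + s)‖ ≥ δ₁ x_(y+s) ρ η.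
Pigeonhole over s, shift by s (β y = α (y - s)) and use PropK: card Sc ≤ δ' N ≤ 2 δ' / η.
Finally every term is at most 3 x_y R₀ η ≤ 9 X R₀ η, the range has at most 2 / η points.
-/

namespace Pool.Agent.P.MP_a9a441_nt.FU

open Finset Filter Pool.Agent.Lib.LargeSieve
open scoped ComplexConjugate

namespace OffAux

open Classical in
/-- The shifts at which the fine sum is large. -/
noncomputable def good (η d : ℝ) (ρ : ℕ) (y : ℤ) (a : ℝ) : Finset ℕ :=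
  (range (ρ ^ 2 + 1)).filter fun s =>
    d * (xx η (y + s) * (ρ * η)) ≤ ‖Sm (xx η (y + s)) (ρ * η) a‖

theorem xx_le_two {η : ℝ} {ρ : ℕ} (hη : 0 < η) (h0 : (ρ : ℝ) ^ 2 * η ≤ 1 / 100) (y : ℤ) {s : ℕ}
    (hs : s ≤ ρ ^ 2) : xx η (y + s) ≤ 2 * xx η y := by
  rw [xx_add]
  have hs' : (s : ℝ) ≤ (ρ : ℝ) ^ 2 := by exact_mod_cast hs
  have h1 : η * ((s : ℤ) : ℝ) ≤ 1 / 100 := by
    push_cast
    nlinarith
  have h2 : 0 ≤ η * ((s : ℤ) : ℝ) := by
    push_cast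
    positivity
  have h3 := exp_sub_one_le h2 (by linarith)
  have h4 := xx_pos η y
  nlinarith

theorem log_xx {η : ℝ} (hη : 0 < η) (y : ℤ) : Real.log (xx η y) / η = y := by
  unfold xx
  rw [Real.log_exp]
  field_simp

theorem sum_fine {η d : ℝ} {ρ : ℕ} (hη : 0 < η) (h0 : (ρ : ℝ) ^ 2 * η ≤ 1 / 100) (hρ1 : 1 ≤ ρ)
    (hdρ : 20 ≤ d * ρ) (y : ℤ) (a : ℝ) (hx : 1 ≤ xx η y * η)
    (hc : d * (xx η y * (ρ ^ 2 * η)) ≤ ‖Sm (xx η y) (ρ ^ 2 * η) a‖) :
    d / 2 * ρ ^ 2 * (xx η y * (ρ * η)) ≤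
      ∑ s ∈ range (ρ ^ 2 + 1), ‖Sm (xx η (y + s)) (ρ * η) a‖ := by
  have hρ : (1 : ℝ) ≤ ρ := by exact_mod_cast hρ1
  have hu := xx_pos η y
  have hv2 := xx_le_two hη h0 y (le_refl (ρ ^ 2))
  have hve : xx η (y + ((ρ ^ 2 : ℕ) : ℤ)) = xx η y * Real.exp (ρ ^ 2 * η) := by
    rw [xx_add]
    congr 2
    push_cast
    ring
  have huv : xx η y ≤ xx η (y + ((ρ ^ 2 : ℕ) : ℤ)) := by
    rw [hve]
    have : 1 ≤ Real.exp ((ρ : ℝ) ^ 2 * η) := Real.one_le_exp (by positivity)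
    nlinarith
  have hcov := cover (R := ρ) hη hu huv (fun n => lam n * ee (-(a * n))) (by
    intro n
    rw [norm_mul, norm_ee, mul_one]
    exact norm_lam_le n)
  rw [log_xx hη, log_xx hη, Int.ceil_intCast, Int.floor_intCast] at hcov
  have e1 : ∑ n ∈ Ioc ⌊xx η y⌋₊ ⌊xx η (y + ((ρ ^ 2 : ℕ) : ℤ))⌋₊, lam n * ee (-(a * n)) =
      Sm (xx η y) (ρ ^ 2 * η) a := by
    rw [hve]
    rfl
  rw [e1] at hcov
  have e2 : ∀ z : ℤ, ∑ n ∈ Iv (xx η z) (ρ * η), lam n * ee (-(a * n)) =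
      Sm (xx η z) (ρ * η) a := fun z => rfl
  simp only [e2] at hcov
  set T := ∑ z ∈ Icc y (y + ((ρ ^ 2 : ℕ) : ℤ) - ρ), Sm (xx η z) (ρ * η) a with hT
  have hT1 : ‖T‖ ≤ ∑ s ∈ range (ρ ^ 2 + 1), ‖Sm (xx η (y + s)) (ρ * η) a‖ := by
    refine (norm_sum_le _ _).trans ?_
    have hsub : Icc y (y + ((ρ ^ 2 : ℕ) : ℤ) - ρ) ⊆
        (range (ρ ^ 2 + 1)).image fun s : ℕ => y + (s : ℤ) := by
      intro z hz
      rw [mem_Icc] at hz
      rw [mem_image]
      refine ⟨(z - y).toNat, ?_, ?_⟩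
      · rw [mem_range]
        omega
      · omega
    refine (sum_le_sum_of_subset_of_nonneg hsub fun _ _ _ => norm_nonneg _).trans ?_
    rw [sum_image]
    intro s _ t _ hst
    simpa using hst
  have hρη : (ρ : ℝ) * η ≤ 1 := by nlinarith [mul_pos (by linarith : (0 : ℝ) < ρ) hη]
  have hexp := exp_sub_one_le (t := ρ * η) (by positivity) hρη
  have hmain : ‖(ρ : ℂ) * Sm (xx η y) (ρ ^ 2 * η) a‖ ≤
      ‖(ρ : ℂ) * Sm (xx η y) (ρ ^ 2 * η) a - T‖ + ‖T‖ := by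
    have := norm_add_le ((ρ : ℂ) * Sm (xx η y) (ρ ^ 2 * η) a - T) T
    rwa [sub_add_cancel] at this
  rw [norm_mul, Complex.norm_natCast] at hmain
  set x := xx η y with hxdef
  set v := xx η (y + ((ρ ^ 2 : ℕ) : ℤ)) with hvdef
  set w := x * (ρ * η) with hw
  have hw1 : x * η ≤ w := by
    rw [hw]
    nlinarith [mul_pos hu hη]
  have hw0 : 0 < w := by linarith
  have herr : v * (Real.exp (ρ * η) - 1) + 1 ≤ 5 * w := by
    have h1 : v * (Real.exp (ρ * η) - 1) ≤ (2 * x) * (2 * (ρ * η)) := by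
      refine mul_le_mul hv2 hexp ?_ (by linarith)
      have : 1 ≤ Real.exp ((ρ : ℝ) * η) := Real.one_le_exp (by positivity)
      linarith
    have h2 : (2 * x) * (2 * (ρ * η)) = 4 * w := by rw [hw]; ring
    linarith
  have herr2 : 2 * (ρ : ℝ) * (v * (Real.exp (ρ * η) - 1) + 1) ≤ 10 * (ρ * w) := by
    have := mul_le_mul_of_nonneg_left herr (by positivity : (0 : ℝ) ≤ 2 * ρ)
    linarith
  have hlow : d * ρ ^ 2 * w ≤ ρ * ‖Sm x (ρ ^ 2 * η) a‖ := by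
    have := mul_le_mul_of_nonneg_left hc (by positivity : (0 : ℝ) ≤ ρ)
    have e : (ρ : ℝ) * (d * (x * (ρ ^ 2 * η))) = d * ρ ^ 2 * w := by rw [hw]; ring
    linarith
  have h10 : 10 * (ρ * w) ≤ d / 2 * ρ ^ 2 * w := by
    have := mul_le_mul_of_nonneg_right hdρ (by positivity : (0 : ℝ) ≤ ρ * w)
    nlinarith
  linarith

theorem card_good {η d : ℝ} {ρ : ℕ} (hη : 0 < η) (h0 : (ρ : ℝ) ^ 2 * η ≤ 1 / 100) (hρ1 : 1 ≤ ρ)
    (hd0 : 0 < d) (hd1 : d ≤ 1) (hdρ : 20 ≤ d * ρ) (y : ℤ) (a : ℝ) (hx : 1 ≤ xx η y * η)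
    (hc : d * (xx η y * (ρ ^ 2 * η)) ≤ ‖Sm (xx η y) (ρ ^ 2 * η) a‖) :
    d * ((ρ : ℝ) ^ 2 + 1) / 48 ≤ ((good η (d ^ 2 / 48) ρ y a).card : ℝ) := by
  classical
  have hρ : (1 : ℝ) ≤ ρ := by exact_mod_cast hρ1
  have hu := xx_pos η y
  have hs := sum_fine hη h0 hρ1 hdρ y a hx hc
  have hρη : (ρ : ℝ) * η ≤ 1 := by nlinarith [mul_pos (by linarith : (0 : ℝ) < ρ) hη]
  set w := xx η y * (ρ * η) with hw
  have hw1 : xx η y * η ≤ w := by
    rw [hw]
    nlinarith [mul_pos hu hη]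
  have hw0 : 0 < w := by linarith
  have hterm : ∀ s ∈ range (ρ ^ 2 + 1), ‖Sm (xx η (y + s)) (ρ * η) a‖ ≤
      (if s ∈ good η (d ^ 2 / 48) ρ y a then 5 * w else 0) + d ^ 2 / 24 * w := by
    intro s hs
    have hs' : s ≤ ρ ^ 2 := by
      rw [mem_range] at hs
      omega
    have h2 := xx_le_two hη h0 y hs'
    have h3 : xx η (y + s) * (ρ * η) ≤ 2 * w := by
      have := mul_le_mul_of_nonneg_right h2 (by positivity : (0 : ℝ) ≤ ρ * η)
      rw [hw]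
      linarith
    split_ifs with hg
    · have h4 := norm_Sm_le (xx_pos η (y + s)).le (θ := ρ * η) (by positivity) hρη a
      have : 0 ≤ d ^ 2 / 24 * w := by positivity
      linarith
    · unfold good at hg
      rw [mem_filter, not_and, not_le] at hg
      have h4 := hg hs
      have h5 := mul_le_mul_of_nonneg_left h3 (by positivity : (0 : ℝ) ≤ d ^ 2 / 48)
      linarith
  have hsum := sum_le_sum hterm
  rw [sum_add_distrib, ← sum_filter, sum_const, sum_const, card_range, nsmul_eq_mul,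
    nsmul_eq_mul] at hsum
  have hf : (range (ρ ^ 2 + 1)).filter (fun s => s ∈ good η (d ^ 2 / 48) ρ y a) =
      good η (d ^ 2 / 48) ρ y a := by
    ext s
    rw [mem_filter]
    refine ⟨fun h => h.2, fun h => ⟨?_, h⟩⟩
    unfold good at h
    exact (mem_filter.mp h).1
  rw [hf] at hsum
  push_cast at hsum
  set c : ℝ := ((good η (d ^ 2 / 48) ρ y a).card : ℝ) with hcdef
  have hq : (1 : ℝ) ≤ (ρ : ℝ) ^ 2 := by nlinarith
  set q : ℝ := (ρ : ℝ) ^ 2 with hqdef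
  have h6 : d / 2 * q ≤ 5 * c + (q + 1) * (d ^ 2 / 24) := by
    have : d / 2 * q * w ≤ (5 * c + (q + 1) * (d ^ 2 / 24)) * w := by linarith
    exact le_of_mul_le_mul_right this hw0
  have h7 : (q + 1) * (d ^ 2 / 24) ≤ 2 * q * (d / 24) := by
    refine mul_le_mul (by linarith) (by nlinarith) (by positivity) (by positivity)
  have h8 : d * 1 ≤ d * q := mul_le_mul_of_nonneg_left hq hd0.le
  nlinarith

theorem log_three_le : Real.log 3 ≤ 6 / 5 := by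
  rw [Real.log_le_iff_le_exp (by norm_num)]
  have h1 := Real.exp_one_gt_d9
  have h2 := Real.add_one_le_exp (1 / 5 : ℝ)
  have h3 : Real.exp (6 / 5) = Real.exp 1 * Real.exp (1 / 5) := by
    rw [← Real.exp_add]
    norm_num
  rw [h3]
  nlinarith

theorem exp_le_four {t : ℝ} (ht : t ≤ 13 / 10) : Real.exp t ≤ 4 := by
  have h1 := Real.log_two_gt_d9
  have h2 : Real.exp (2 * Real.log 2) = 4 := by
    rw [two_mul, Real.exp_add, Real.exp_log (by norm_num)]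
    norm_num
  rw [← h2]
  exact Real.exp_le_exp.mpr (by linarith)

theorem small (A ρ : ℕ) :
    ∀ᶠ X : ℕ in atTop, 1 ≤ Real.log X ∧ (ρ : ℝ) ^ 2 * (2 * Real.log X ^ A) ≤ X / 100 := by
  have h1 : ∀ᶠ x : ℝ in atTop, 1 ≤ Real.log x := Real.tendsto_log_atTop.eventually_ge_atTop 1
  have h2 : ∀ᶠ x : ℝ in atTop, (ρ : ℝ) ^ 2 * (2 * Real.log x ^ A) ≤ x / 100 := by
    have h := (Real.isLittleO_pow_log_id_atTop (n := A)).bound
      (c := 1 / (200 * ((ρ : ℝ) ^ 2 + 1))) (by positivity)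
    filter_upwards [h, eventually_ge_atTop (0 : ℝ)] with x hx hx0
    rw [Real.norm_eq_abs, Real.norm_eq_abs, id, abs_of_nonneg hx0] at hx
    have h3 := (le_abs_self _).trans hx
    have h4 : (ρ : ℝ) ^ 2 * (2 * Real.log x ^ A) ≤
        (ρ : ℝ) ^ 2 * (2 * (1 / (200 * ((ρ : ℝ) ^ 2 + 1)) * x)) := by
      gcongr
    refine h4.trans ?_
    have h5 : (ρ : ℝ) ^ 2 * (2 * (1 / (200 * ((ρ : ℝ) ^ 2 + 1)) * x)) =
        ((ρ : ℝ) ^ 2 / ((ρ : ℝ) ^ 2 + 1)) * (x / 100) := by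
      field_simp
      ring
    rw [h5]
    have h6 : (ρ : ℝ) ^ 2 / ((ρ : ℝ) ^ 2 + 1) ≤ 1 := by
      rw [div_le_one (by positivity)]
      linarith
    nlinarith
  exact tendsto_natCast_atTop_atTop.eventually (h1.and h2)

theorem geo {X η : ℝ} {ρ : ℕ} (hX : 0 < X) (hη : 0 < η) (h0 : (ρ : ℝ) ^ 2 * η ≤ 1 / 100)
    (hη1 : η ≤ 1 / 100) :
    (∀ y : ℤ, ⌈Real.log X / η⌉ ≤ y → X ≤ xx η y) ∧
    (∀ y ∈ Ico ⌈Real.log X / η⌉ (⌈Real.log X / η⌉ + (⌈(5 / 4) / η⌉₊ : ℕ)),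
      X ≤ xx η y ∧ xx η y ≤ 4 * X) ∧
    (∀ y ∈ Icc ⌈Real.log X / η⌉ ⌊Real.log (3 * X) / η⌋, xx η y ≤ 3 * X) ∧
    (∀ y ∈ Icc ⌈Real.log X / η⌉ ⌊Real.log (3 * X) / η⌋, ∀ s : ℕ, s ≤ ρ ^ 2 →
      y + s ∈ Ico ⌈Real.log X / η⌉ (⌈Real.log X / η⌉ + (⌈(5 / 4) / η⌉₊ : ℕ))) ∧
    ((Icc ⌈Real.log X / η⌉ ⌊Real.log (3 * X) / η⌋).card : ℝ) * η ≤ 2 ∧
    1 ≤ ((⌈(5 / 4) / η⌉₊ : ℕ) : ℝ) * η ∧ ((⌈(5 / 4) / η⌉₊ : ℕ) : ℝ) * η ≤ 2 := by
  set a : ℤ := ⌈Real.log X / η⌉ with ha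
  set b : ℤ := ⌊Real.log (3 * X) / η⌋ with hb
  set N : ℕ := ⌈(5 / 4) / η⌉₊ with hN
  have ha1 : Real.log X ≤ η * a := by
    have := Int.le_ceil (Real.log X / η)
    rw [div_le_iff₀ hη] at this
    linarith
  have ha2 : η * a ≤ Real.log X + η := by
    have := (Int.ceil_lt_add_one (Real.log X / η)).le
    have h1 := mul_le_mul_of_nonneg_left this hη.le
    have h2 : η * (Real.log X / η + 1) = Real.log X + η := by field_simp
    linarith
  have hl3 : Real.log (3 * X) = Real.log 3 + Real.log X := Real.log_mul (by norm_num) hX.ne'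
  have hb1 : η * b ≤ Real.log 3 + Real.log X := by
    have := Int.floor_le (Real.log (3 * X) / η)
    rw [le_div_iff₀ hη] at this
    linarith
  have hN1 : 5 / 4 ≤ (N : ℝ) * η := by
    have := Nat.le_ceil ((5 / 4) / η)
    rwa [div_le_iff₀ hη] at this
  have hN2 : (N : ℝ) * η ≤ 5 / 4 + η := by
    have := (Nat.ceil_lt_add_one (a := (5 / 4) / η) (by positivity)).le
    have h1 := mul_le_mul_of_nonneg_right this hη.le
    have h2 : ((5 / 4) / η + 1) * η = 5 / 4 + η := by field_simp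
    linarith
  have hl := log_three_le
  have hlow : ∀ y : ℤ, a ≤ y → X ≤ xx η y := by
    intro y hy
    have hy' : (a : ℝ) ≤ y := by exact_mod_cast hy
    unfold xx
    rw [← Real.log_le_iff_le_exp hX]
    nlinarith
  have hY : ∀ y ∈ Ico a (a + N), X ≤ xx η y ∧ xx η y ≤ 4 * X := by
    intro y hy
    rw [mem_Ico] at hy
    refine ⟨hlow y hy.1, ?_⟩
    have hy' : (y : ℝ) ≤ a + N := by exact_mod_cast hy.2.le
    have h1 : η * y ≤ Real.log X + 13 / 10 := by nlinarith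
    unfold xx
    refine (Real.exp_le_exp.mpr h1).trans ?_
    rw [Real.exp_add, Real.exp_log hX]
    have := exp_le_four (le_refl (13 / 10 : ℝ))
    nlinarith
  have hup : ∀ y ∈ Icc a b, xx η y ≤ 3 * X := by
    intro y hy
    rw [mem_Icc] at hy
    have hy' : (y : ℝ) ≤ b := by exact_mod_cast hy.2
    unfold xx
    rw [← Real.le_log_iff_exp_le (by positivity), hl3]
    nlinarith
  have hshift : ∀ y ∈ Icc a b, ∀ s : ℕ, s ≤ ρ ^ 2 → y + s ∈ Ico a (a + N) := by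
    intro y hy s hs
    rw [mem_Icc] at hy
    rw [mem_Ico]
    refine ⟨by omega, ?_⟩
    have hy' : (y : ℝ) ≤ b := by exact_mod_cast hy.2
    have hs' : (s : ℝ) ≤ (ρ : ℝ) ^ 2 := by exact_mod_cast hs
    have h1 : η * ((y : ℝ) + s) < η * ((a : ℝ) + N) := by nlinarith
    have h2 := lt_of_mul_lt_mul_left h1 hη.le
    exact_mod_cast h2
  have hI : ((Icc a b).card : ℝ) * η ≤ 2 := by
    rw [Int.card_Icc]
    by_cases hab : 0 ≤ b + 1 - a
    · have : (((b + 1 - a).toNat : ℕ) : ℝ) = (b : ℝ) + 1 - a := by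
        have h1 : (((b + 1 - a).toNat : ℕ) : ℤ) = b + 1 - a := Int.toNat_of_nonneg hab
        exact_mod_cast h1
      rw [this]
      nlinarith
    · have : (b + 1 - a).toNat = 0 := by omega
      rw [this]
      norm_num
  exact ⟨hlow, hY, hup, hshift, hI, by linarith, by linarith⟩

end OffAux

open OffAux in
theorem off {δ : ℝ} {A ρ : ℕ} (hδ : 0 < δ) (hδ1 : δ ≤ 1) (hA : 1 ≤ A)
    (hρ : 100 / ((δ / 24) ^ 2 / 48) ≤ ρ) (h : PropK ((δ / 24) ^ 2 / 48) A ρ) : PropL δ A ρ := by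
  classical
  set d : ℝ := δ / 24 with hd
  have hd0 : 0 < d := by positivity
  have hd1 : d ≤ 1 := by rw [hd]; linarith
  have hdρ : 20 ≤ d * ρ := by
    rw [div_le_iff₀ (by positivity)] at hρ
    have h0 : (0 : ℝ) ≤ ρ := Nat.cast_nonneg ρ
    have h1 : d * (d * ρ) ≤ 1 * (d * ρ) := mul_le_mul_of_nonneg_right hd1 (by positivity)
    nlinarith
  have hρ1 : 1 ≤ ρ := by
    by_contra hn
    have : ρ = 0 := by omega
    rw [this] at hdρ
    norm_num at hdρ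
  have hρ1' : (1 : ℝ) ≤ ρ := by exact_mod_cast hρ1
  have hq : (1 : ℝ) ≤ (ρ : ℝ) ^ 2 := by nlinarith
  unfold PropK at h
  unfold PropL
  filter_upwards [h, small A ρ, eventually_ge_atTop 1] with X hK hsm hX1
  intro hh α hlo hhi
  have hX : (0 : ℝ) < X := by exact_mod_cast hX1
  have hh1 : (1 : ℝ) ≤ hh := (one_le_pow₀ hsm.1).trans hlo
  set η : ℝ := hh / X with hηdef
  have hη : 0 < η := by positivity
  have hXη : (X : ℝ) * η = hh := by rw [hηdef]; field_simp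
  have h0 : (ρ : ℝ) ^ 2 * η ≤ 1 / 100 := by
    have h1 : (ρ : ℝ) ^ 2 * hh ≤ X / 100 :=
      (mul_le_mul_of_nonneg_left hhi (by positivity)).trans hsm.2
    rw [hηdef, ← mul_div_assoc, div_le_iff₀ hX]
    linarith
  have hη1 : η ≤ 1 / 100 := by nlinarith
  obtain ⟨hlow, hY, hup, hshift, hI, hN1, hN2⟩ := geo hX hη h0 hη1
  set a : ℤ := ⌈Real.log X / η⌉ with ha
  set b : ℤ := ⌊Real.log (3 * X) / η⌋ with hb
  set N : ℕ := ⌈(5 / 4) / η⌉₊ with hN
  clear_value a b N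
  set Sc : Finset ℤ := (Icc a b).filter fun y =>
    d * (xx η y * (ρ ^ 2 * η)) ≤ ‖Sm (xx η y) (ρ ^ 2 * η) (α y)‖ with hSc
  have hrow : ∀ y ∈ Sc, d * ((ρ : ℝ) ^ 2 + 1) / 48 ≤
      ((good η (d ^ 2 / 48) ρ y (α y)).card : ℝ) := by
    intro y hy
    rw [hSc, mem_filter] at hy
    refine card_good hη h0 hρ1 hd0 hd1 hdρ y (α y) ?_ hy.2
    have := hlow y (mem_Icc.mp hy.1).1
    nlinarith
  have hcol : ∀ s ∈ range (ρ ^ 2 + 1),
      ((Sc.filter fun y => s ∈ good η (d ^ 2 / 48) ρ y (α y)).card : ℝ) ≤ d ^ 2 / 48 * N := by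
    intro s hs
    have hs' : s ≤ ρ ^ 2 := by
      rw [mem_range] at hs
      omega
    have hinj : Function.Injective fun y : ℤ => y + (s : ℤ) := add_left_injective _
    rw [← card_image_of_injective _ hinj]
    refine hK hh s N a (fun y => α (y - s)) _ hlo hhi hs' hY hN1 ?_ ?_ ?_
    · intro z hz
      obtain ⟨y, hy, rfl⟩ := mem_image.mp hz
      exact hshift y (mem_filter.mp (mem_filter.mp hy).1).1 s hs'
    · intro z hz
      obtain ⟨y, hy, rfl⟩ := mem_image.mp hz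
      simp only [add_sub_cancel_right]
      have h1 := (mem_filter.mp (mem_filter.mp hy).1).2
      refine le_trans ?_ h1
      have h2 := xx_pos η y
      refine mul_le_mul_of_nonneg_right (by nlinarith) (by positivity)
    · intro z hz
      obtain ⟨y, hy, rfl⟩ := mem_image.mp hz
      simp only [add_sub_cancel_right]
      have h1 := (mem_filter.mp hy).2
      unfold good at h1
      exact (mem_filter.mp h1).2
  have hdc : ∑ y ∈ Sc, ((good η (d ^ 2 / 48) ρ y (α y)).card : ℝ) =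
      ∑ s ∈ range (ρ ^ 2 + 1),
        ((Sc.filter fun y => s ∈ good η (d ^ 2 / 48) ρ y (α y)).card : ℝ) := by
    have e1 : ∀ y ∈ Sc, ((good η (d ^ 2 / 48) ρ y (α y)).card : ℝ) =
        ∑ s ∈ range (ρ ^ 2 + 1), if s ∈ good η (d ^ 2 / 48) ρ y (α y) then (1 : ℝ) else 0 := by
      intro y _
      rw [sum_boole]
      congr 2
      ext s
      rw [mem_filter]
      refine ⟨fun h => ⟨?_, h⟩, fun h => h.2⟩
      unfold good at h
      exact (mem_filter.mp h).1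
    rw [sum_congr rfl e1, sum_comm]
    refine sum_congr rfl fun s _ => ?_
    rw [sum_boole]
  have hScard : (Sc.card : ℝ) ≤ d * N := by
    have h1 := card_nsmul_le_sum Sc _ _ hrow
    have h2 := sum_le_card_nsmul _ _ _ hcol
    rw [card_range, nsmul_eq_mul] at h2
    rw [nsmul_eq_mul, hdc] at h1
    push_cast at h2
    have h3 : (Sc.card : ℝ) * (d * ((ρ : ℝ) ^ 2 + 1) / 48) ≤
        d * N * (d * ((ρ : ℝ) ^ 2 + 1) / 48) := by linarith
    exact le_of_mul_le_mul_right h3 (by positivity)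
  set w : ℝ := X * (ρ ^ 2 * η) with hw
  have hw1 : 1 ≤ w := by
    have : w = (ρ : ℝ) ^ 2 * hh := by rw [hw, ← hXη]; ring
    rw [this]
    nlinarith
  have hterm : ∀ y ∈ Icc a b, ‖Sm (xx η y) (ρ ^ 2 * η) (α y)‖ ≤
      (if y ∈ Sc then 9 * w else 0) + 3 * d * w := by
    intro y hy
    have h1 : xx η y * (ρ ^ 2 * η) ≤ 3 * w := by
      have := mul_le_mul_of_nonneg_right (hup y hy) (by positivity : (0 : ℝ) ≤ ρ ^ 2 * η)
      rw [hw]
      linarith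
    split_ifs with hg
    · have h4 := norm_Sm_le (xx_pos η y).le (θ := ρ ^ 2 * η) (by positivity) (by linarith) (α y)
      have : 0 ≤ 3 * d * w := by positivity
      linarith
    · rw [hSc, mem_filter, not_and, not_le] at hg
      have h4 := hg hy
      have h5 := mul_le_mul_of_nonneg_left h1 hd0.le
      linarith
  refine (sum_le_sum hterm).trans ?_
  rw [sum_add_distrib, ← sum_filter, sum_const, sum_const, nsmul_eq_mul, nsmul_eq_mul]
  have hf : (Icc a b).filter (fun y => y ∈ Sc) = Sc := by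
    ext y
    rw [mem_filter]
    exact ⟨fun h => h.2, fun h => ⟨(mem_filter.mp h).1, h⟩⟩
  rw [hf]
  have hS2 : (Sc.card : ℝ) * η ≤ 2 * d := by
    have h1 := mul_le_mul_of_nonneg_right hScard hη.le
    have h2 : d * (N * η) ≤ d * 2 := mul_le_mul_of_nonneg_left hN2 hd0.le
    linarith
  have hz : (0 : ℝ) ≤ X * ρ ^ 2 := by positivity
  have e1 : (Sc.card : ℝ) * (9 * w) = 9 * (X * ρ ^ 2) * (Sc.card * η) := by rw [hw]; ring
  have e2 : ((Icc a b).card : ℝ) * (3 * d * w) =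
      3 * d * (X * ρ ^ 2) * ((Icc a b).card * η) := by rw [hw]; ring
  have f1 := mul_le_mul_of_nonneg_left hS2 (by positivity : (0 : ℝ) ≤ 9 * (X * ρ ^ 2))
  have f2 := mul_le_mul_of_nonneg_left hI (by positivity : (0 : ℝ) ≤ 3 * d * (X * ρ ^ 2))
  have e3 : δ * X * ρ ^ 2 = 24 * d * (X * ρ ^ 2) := by rw [hd]; ring
  rw [e1, e2, e3]
  linarith

end Pool.Agent.P.MP_a9a441_nt.FU
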