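import Pool.Agent.P.MP_a9a441_nt.FU.Cyc
import Pool.Agent.P.MP_a9a441_nt.FU.Comb
import Pool.Agent.P.MP_a9a441_nt.FU.Apex

/-!
One step of the induction. Put k = h + 1, n = k / 100, W = words Ps k, ψ = t^(-200 (n+1)).
Use `centre` with ℒ = Zr k ×ˢ W, 𝒟 = W, Good (z,U) D = Pre (mkp z U D),
Bad (z,U) D D' = n < act U (dig (mkp z U D) - dig (mkp z U D')), κ = ψ π^k, and
ζ' y U = dig (mkp (y + sum a U) U (D₀ (y + sum a U, U))). For fixed z, `cherry` with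
Ov U U' = n + 1 ≤ countP (∈ U'.toFinset) U (by `cyc`) and `count_overlap` (card U'.toFinset ≤ k)
bound the far triples by π^(3k) ψ^2, since (k^2/π)^(n+1) ≤ ψ^4 (k ≤ t, 2P ≤ t π, t^1000 ≤ P).
`Pr_apex` gives Γ^(k+1) (k+1) 2 ψ ≤ 2 t^(k+2) ψ ≤ 2 t^(-99), as k + 1 ≤ 100 (n+1).
-/

namespace Pool.Agent.P.MP_a9a441_nt.FU

open Finset Filter Pool.Agent.Lib.LargeSieve
open scoped ComplexConjugate

namespace OneAux

theorem memf {α : Type*} {p : α → Prop} {i : DecidablePred p} {s : Finset α} {a : α} :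
    a ∈ @Finset.filter α p i s ↔ a ∈ s ∧ p a := Finset.mem_filter

theorem act_eq (U : List ℕ) (m : ℤ) :
    act U m = U.countP fun p : ℕ => decide (¬ (p : ℤ) ∣ m) := by
  unfold act
  induction U with
  | nil => rfl
  | cons p U ih =>
    simp only [List.bind_eq_flatMap, List.pure_def, List.flatMap_cons, List.singleton_append,
      List.countP_cons] at ih ⊢
    rw [ih]

theorem ov_count (Ps : Finset ℕ) (k m : ℕ) (Y : Finset (List ℕ × List ℕ))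
    (hY : ∀ w ∈ Y, w.1 ∈ words Ps k ∧ w.2 ∈ words Ps k ∧
      m ≤ w.1.countP fun x => decide (x ∈ w.2.toFinset)) :
    Y.card * Ps.card ^ m ≤ Ps.card ^ k * ((k * k) ^ m * Ps.card ^ k) := by
  have h1 : Y.card = ∑ U ∈ words Ps k, (Y.filter fun w => w.2 = U).card :=
    Finset.card_eq_sum_card_fiberwise fun w hw => (hY w hw).2.1
  rw [h1, Finset.sum_mul, ← card_words Ps k, ← smul_eq_mul (words Ps k).card]
  refine Finset.sum_le_card_nsmul _ _ _ fun U hU => ?_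
  have h2 : (Y.filter fun w => w.2 = U).card ≤
      ((words Ps k).filter fun l => m ≤ l.countP fun x => decide (x ∈ U.toFinset)).card := by
    refine Finset.card_le_card_of_injOn Prod.fst ?_ ?_
    · intro w hw
      obtain ⟨hw1, hw2⟩ := memf.1 (Finset.mem_coe.1 hw)
      have h3 := hY w hw1
      rw [hw2] at h3
      exact Finset.mem_coe.2 (memf.2 ⟨h3.1, h3.2.2⟩)
    · intro w hw w' hw' e
      have a1 := (memf.1 (Finset.mem_coe.1 hw)).2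
      have a2 := (memf.1 (Finset.mem_coe.1 hw')).2
      exact Prod.ext e (a1.trans a2.symm)
  have h4 := count_overlap Ps U.toFinset k m
  have h5 : U.toFinset.card ≤ k := by
    rw [← (mem_words.1 hU).1]
    exact List.toFinset_card_le U
  rw [card_words]
  calc _ ≤ _ := Nat.mul_le_mul_right _ h2
    _ ≤ _ := h4
    _ ≤ _ := Nat.mul_le_mul_right _ (Nat.pow_le_pow_left (Nat.mul_le_mul_left _ h5) _)

theorem size_pi (S : Sys) {k : ℕ} (hk : k ≤ S.t) : k * k * S.t ^ 800 ≤ S.Ps.card := by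
  have ht := S.ht
  have h1 : S.t * (k * k * S.t ^ 800) ≤ S.t * S.Ps.card := by
    have a1 : k * k ≤ S.t * S.t := Nat.mul_le_mul hk hk
    have a2 : ∀ m : ℕ, S.t * (S.t * S.t * S.t ^ m) = S.t ^ (m + 3) := fun m => by ring
    have a3 : S.t ^ (800 + 3) ≤ S.t ^ 1000 :=
      Nat.pow_le_pow_right (le_trans (by norm_num) ht) (by norm_num)
    have a4 := S.htP
    have a5 := S.hπ
    have a6 : S.t * (k * k * S.t ^ 800) ≤ S.t * (S.t * S.t * S.t ^ 800) :=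
      Nat.mul_le_mul_left _ (Nat.mul_le_mul_right _ a1)
    exact a6.trans ((a2 800).le.trans (a3.trans (a4.trans (le_trans (by omega) a5))))
  exact Nat.le_of_mul_le_mul_left h1 (by omega)

theorem far_fix {S : Sys} {h : ℕ} {G : Pth → Prop} {ζ : ℤ → List ℕ → ℤ}
    (hF : S.Fam h G ζ) (hh : h + 2 ≤ S.t) (n : ℕ) (z : ℤ)
    (X : Finset (List ℕ × List ℕ × List ℕ))
    (hX : ∀ w ∈ X, w.1 ∈ words S.Ps (h + 1) ∧ w.2.1 ∈ words S.Ps (h + 1) ∧
      w.2.2 ∈ words S.Ps (h + 1) ∧ S.Pre h G (mkp S.a z w.1 w.2.1) ∧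
      S.Pre h G (mkp S.a z w.1 w.2.2) ∧
      n < act w.1 (S.dig (mkp S.a z w.1 w.2.1) - S.dig (mkp S.a z w.1 w.2.2))) :
    X.card * S.t ^ (400 * (n + 1)) ≤ S.Ps.card ^ (3 * (h + 1)) := by
  have hc := cherry (words S.Ps (h + 1)) (words S.Ps (h + 1))
    (fun U D D' => S.Pre h G (mkp S.a z U D) ∧ S.Pre h G (mkp S.a z U D') ∧
      n < act U (S.dig (mkp S.a z U D) - S.dig (mkp S.a z U D')))
    (fun U U' => n + 1 ≤ U.countP fun x => decide (x ∈ U'.toFinset)) (by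
      intro U hU U' hU' D hD D' hD' f1 f2
      have h1 := Sys.cyc hF (by omega) (mem_words.1 hU).1 (mem_words.1 hU').1 (mem_words.1 hD).1
        (mem_words.1 hD').1 f1.1 f1.2.1 f2.1 f2.2.1
      refine le_trans f1.2.2 ?_
      rw [act_eq]
      refine List.countP_mono_left fun p hp hd => ?_
      exact decide_eq_true (List.mem_toFinset.2 (h1 p hp (of_decide_eq_true hd))))
  have h2 := le_trans (Nat.pow_le_pow_left (Finset.card_le_card (s := X) (by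
    intro w hw
    obtain ⟨a1, a2, a3, a4⟩ := hX w hw
    exact memf.2 ⟨Finset.mem_product.2 ⟨a1, Finset.mem_product.2 ⟨a2, a3⟩⟩, a4⟩)) 2) hc
  obtain ⟨Y, hY1, hY2⟩ : ∃ Y : Finset (List ℕ × List ℕ),
      X.card ^ 2 ≤ (words S.Ps (h + 1)).card ^ 4 * Y.card ∧
      ∀ w ∈ Y, w.1 ∈ words S.Ps (h + 1) ∧ w.2 ∈ words S.Ps (h + 1) ∧
        n + 1 ≤ w.1.countP fun x => decide (x ∈ w.2.toFinset) := by
    refine ⟨_, h2, fun w hw => ?_⟩
    obtain ⟨a1, a2⟩ := memf.1 hw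
    exact ⟨(Finset.mem_product.1 a1).1, (Finset.mem_product.1 a1).2, a2⟩
  have h3 := ov_count S.Ps (h + 1) (n + 1) Y hY2
  have h4 := Nat.pow_le_pow_left (size_pi S (k := h + 1) (by omega)) (n + 1)
  rw [card_words] at hY1
  have hπ : 0 < S.Ps.card ^ (n + 1) := pow_pos Sys.card_pos _
  rw [mul_pow, ← pow_mul] at h4
  have e1 : (S.t ^ (400 * (n + 1))) ^ 2 = S.t ^ (800 * (n + 1)) := by
    rw [← pow_mul, show 400 * (n + 1) * 2 = 800 * (n + 1) by omega]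
  have e2 : (S.Ps.card ^ (3 * (h + 1))) ^ 2 = (S.Ps.card ^ (h + 1)) ^ 6 := by
    rw [← pow_mul, ← pow_mul, show 3 * (h + 1) * 2 = (h + 1) * 6 by omega]
  refine (Nat.pow_le_pow_iff_left (n := 2) (by norm_num)).1 ?_
  rw [mul_pow, e1, e2]
  generalize S.t ^ (800 * (n + 1)) = T at h4 ⊢
  generalize ((h + 1) * (h + 1)) ^ (n + 1) = K at h3 h4
  generalize S.Ps.card ^ (n + 1) = q at h3 h4 hπ
  generalize S.Ps.card ^ (h + 1) = w at h3 hY1 ⊢
  generalize X.card ^ 2 = x at hY1 ⊢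
  generalize Y.card = y at hY1 h3
  have b1 : y * T * q ≤ w ^ 2 * q := by
    calc y * T * q = y * q * T := by ring
      _ ≤ w * (K * w) * T := Nat.mul_le_mul_right _ h3
      _ = w ^ 2 * (K * T) := by ring
      _ ≤ w ^ 2 * q := Nat.mul_le_mul_left _ h4
  have b2 : y * T ≤ w ^ 2 := Nat.le_of_mul_le_mul_right b1 hπ
  calc x * T ≤ w ^ 4 * y * T := Nat.mul_le_mul_right _ hY1
    _ = w ^ 4 * (y * T) := by ring
    _ ≤ w ^ 4 * w ^ 2 := Nat.mul_le_mul_left _ b2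
    _ = w ^ 6 := by ring

theorem far_all {S : Sys} {h : ℕ} {G : Pth → Prop} {ζ : ℤ → List ℕ → ℤ}
    (hF : S.Fam h G ζ) (hh : h + 2 ≤ S.t) (n : ℕ) (Z : Finset ℤ)
    (X : Finset ((ℤ × List ℕ) × List ℕ × List ℕ))
    (hX : ∀ w ∈ X, w.1.1 ∈ Z ∧ w.1.2 ∈ words S.Ps (h + 1) ∧ w.2.1 ∈ words S.Ps (h + 1) ∧
      w.2.2 ∈ words S.Ps (h + 1) ∧ S.Pre h G (mkp S.a w.1.1 w.1.2 w.2.1) ∧
      S.Pre h G (mkp S.a w.1.1 w.1.2 w.2.2) ∧
      n < act w.1.2 (S.dig (mkp S.a w.1.1 w.1.2 w.2.1) - S.dig (mkp S.a w.1.1 w.1.2 w.2.2))) :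
    X.card * S.t ^ (400 * (n + 1)) ≤ Z.card * S.Ps.card ^ (3 * (h + 1)) := by
  have h1 : X.card = ∑ z ∈ Z, (X.filter fun w => w.1.1 = z).card :=
    Finset.card_eq_sum_card_fiberwise fun w hw => (hX w hw).1
  rw [h1, Finset.sum_mul, ← smul_eq_mul Z.card]
  refine Finset.sum_le_card_nsmul _ _ _ fun z hz => ?_
  have h2 : ((X.filter fun w => w.1.1 = z).image fun w => (w.1.2, w.2)).card =
      (X.filter fun w => w.1.1 = z).card := by
    refine Finset.card_image_of_injOn fun w hw w' hw' e => ?_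
    have a1 := (memf.1 (Finset.mem_coe.1 hw)).2
    have a2 := (memf.1 (Finset.mem_coe.1 hw')).2
    exact Prod.ext (Prod.ext (a1.trans a2.symm) (Prod.mk.inj e).1) (Prod.mk.inj e).2
  rw [← h2]
  refine far_fix hF hh n z _ fun w hw => ?_
  obtain ⟨v, hv, rfl⟩ := Finset.mem_image.1 hw
  obtain ⟨a1, a2⟩ := memf.1 hv
  have a3 := (hX v a1).2
  rw [a2] at a3
  exact a3

theorem final {t Γ N w T c f : ℝ} {k : ℕ} (ht : 1 ≤ t) (h1 : 1 ≤ Γ) (h2 : Γ ≤ t) (hN : 0 < N)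
    (hw : 0 < w) (hk : ((k + 1 : ℕ) : ℝ) ≤ t) (hT : t ^ (k + 2) * t ^ 99 ≤ T)
    (hf : f * T ^ 2 ≤ (k + 1 : ℕ) * N * w ^ 3)
    (hc : c ≤ (k + 1 : ℕ) * N * w * (w / T) + f / (w / T)) :
    Γ ^ (k + 1) / (N * w ^ 2) * c ≤ 2 / t ^ 99 := by
  have ht0 : 0 < t := by linarith
  have hT0 : 0 < T := lt_of_lt_of_le (by positivity) hT
  have a1 : f / (w / T) ≤ (k + 1 : ℕ) * N * w ^ 2 / T := by
    rw [div_div_eq_mul_div, div_le_div_iff₀ hw hT0]
    calc f * T * T = f * T ^ 2 := by ring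
      _ ≤ _ := hf
      _ = _ := by ring
  have a2 : c ≤ 2 * ((k + 1 : ℕ) * N * w ^ 2 / T) := by
    have : ((k + 1 : ℕ) : ℝ) * N * w * (w / T) = (k + 1 : ℕ) * N * w ^ 2 / T := by ring
    linarith
  have a3 : Γ ^ (k + 1) ≤ t ^ (k + 1) := pow_le_pow_left₀ (by linarith) h2 _
  have hΓ : 0 < Γ ^ (k + 1) := pow_pos (by linarith) _
  calc Γ ^ (k + 1) / (N * w ^ 2) * c
      ≤ Γ ^ (k + 1) / (N * w ^ 2) * (2 * ((k + 1 : ℕ) * N * w ^ 2 / T)) :=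
        mul_le_mul_of_nonneg_left a2 (by positivity)
    _ = 2 * (Γ ^ (k + 1) * (k + 1 : ℕ)) / T := by field_simp
    _ ≤ 2 * (t ^ (k + 1) * t) / T := by gcongr
    _ ≤ 2 / t ^ 99 := by
        rw [div_le_div_iff₀ hT0 (by positivity)]
        calc 2 * (t ^ (k + 1) * t) * t ^ 99 = 2 * (t ^ (k + 2) * t ^ 99) := by ring
          _ ≤ 2 * T := by linarith

end OneAux

theorem Chain.one {S : Sys} (C : Chain S) {h : ℕ} {G : Pth → Prop} {ζ : ℤ → List ℕ → ℤ}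
    (hF : S.Fam h G ζ) (hh : h + 2 ≤ S.t) :
    ∃ ζ' : ℤ → List ℕ → ℤ,
      C.Pr (h + 1) (fun x => S.Pre h G x ∧ ¬ S.Tst (h + 1) ζ' x) ≤ 2 / (S.t : ℝ) ^ 99 := by
  have ht : (10 : ℝ) ≤ S.t := by exact_mod_cast S.ht
  have hπ : (0 : ℝ) < (S.Ps.card : ℝ) ^ (h + 1) := pow_pos (by exact_mod_cast Sys.card_pos) _
  have hT : (0 : ℝ) < (S.t : ℝ) ^ (200 * ((h + 1) / 100 + 1)) := pow_pos (by linarith) _
  obtain ⟨D₀, hD⟩ := centre (S.Zr (h + 1) ×ˢ words S.Ps (h + 1)) (words S.Ps (h + 1))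
    (fun L D => S.Pre h G (mkp S.a L.1 L.2 D))
    (fun L D D' => (h + 1) / 100 < act L.2 (S.dig (mkp S.a L.1 L.2 D) - S.dig (mkp S.a L.1 L.2 D')))
    (div_pos hπ hT)
  refine ⟨fun y U => S.dig (mkp S.a (y + (U.map S.a).sum) U (D₀ (y + (U.map S.a).sum, U))), ?_⟩
  refine le_trans (C.Pr_apex (h + 1) _) ?_
  obtain ⟨X₁, X₂, hX, hX₁, hX₂⟩ : ∃ (X₁ : Finset ((ℤ × List ℕ) × List ℕ))
      (X₂ : Finset ((ℤ × List ℕ) × List ℕ × List ℕ)),
      (X₁.card : ℝ) ≤ (S.Zr (h + 1) ×ˢ words S.Ps (h + 1)).card *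
        ((S.Ps.card : ℝ) ^ (h + 1) / (S.t : ℝ) ^ (200 * ((h + 1) / 100 + 1))) +
        X₂.card / ((S.Ps.card : ℝ) ^ (h + 1) / (S.t : ℝ) ^ (200 * ((h + 1) / 100 + 1))) ∧
      (∀ z ∈ S.Zr (h + 1), ∀ U ∈ words S.Ps (h + 1), ∀ D ∈ words S.Ps (h + 1),
        S.Pre h G (mkp S.a z U D) → (h + 1) / 100 <
          act U (S.dig (mkp S.a z U D) - S.dig (mkp S.a z U (D₀ (z, U)))) → ((z, U), D) ∈ X₁) ∧
      ∀ w ∈ X₂, w.1.1 ∈ S.Zr (h + 1) ∧ w.1.2 ∈ words S.Ps (h + 1) ∧ w.2.1 ∈ words S.Ps (h + 1) ∧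
        w.2.2 ∈ words S.Ps (h + 1) ∧ S.Pre h G (mkp S.a w.1.1 w.1.2 w.2.1) ∧
        S.Pre h G (mkp S.a w.1.1 w.1.2 w.2.2) ∧ (h + 1) / 100 <
        act w.1.2 (S.dig (mkp S.a w.1.1 w.1.2 w.2.1) - S.dig (mkp S.a w.1.1 w.1.2 w.2.2)) := by
    refine ⟨_, _, hD, fun z hz U hU D hD' a1 a2 => ?_, fun w hw => ?_⟩
    · exact OneAux.memf.2
        ⟨Finset.mem_product.2 ⟨Finset.mem_product.2 ⟨hz, hU⟩, hD'⟩, a1, a2⟩
    · obtain ⟨a1, a2⟩ := OneAux.memf.1 hw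
      obtain ⟨a3, a4⟩ := Finset.mem_product.1 a1
      exact ⟨(Finset.mem_product.1 a3).1, (Finset.mem_product.1 a3).2,
        (Finset.mem_product.1 a4).1, (Finset.mem_product.1 a4).2, a2⟩
  have hfar := OneAux.far_all hF hh ((h + 1) / 100) (S.Zr (h + 1)) X₂ hX₂
  rw [Sys.card_Zr] at hfar
  rw [Finset.card_product, Sys.card_Zr, card_words] at hX
  have e2 : (S.Ps.card : ℝ) ^ (2 * (h + 1)) = ((S.Ps.card : ℝ) ^ (h + 1)) ^ 2 := by
    rw [← pow_mul, mul_comm]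
  rw [e2]
  refine OneAux.final (T := (S.t : ℝ) ^ (200 * ((h + 1) / 100 + 1))) (f := X₂.card)
    (by linarith) C.Γ1 C.Γt (by exact_mod_cast S.hN) hπ (by exact_mod_cast hh) ?_ ?_ ?_
  · rw [← pow_add]
    exact pow_le_pow_right₀ (by linarith) (by omega)
  · have e3 : ((S.t : ℝ) ^ (200 * ((h + 1) / 100 + 1))) ^ 2 =
        (S.t : ℝ) ^ (400 * ((h + 1) / 100 + 1)) := by
      rw [← pow_mul, show 200 * ((h + 1) / 100 + 1) * 2 = 400 * ((h + 1) / 100 + 1) by omega]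
    have e4 : ((S.Ps.card : ℝ) ^ (h + 1)) ^ 3 = (S.Ps.card : ℝ) ^ (3 * (h + 1)) := by
      rw [← pow_mul, mul_comm]
    rw [e3, e4]
    exact_mod_cast hfar
  · refine le_trans ?_ (le_trans hX (le_of_eq (by push_cast; ring)))
    refine Nat.cast_le.2 (Finset.card_le_card_of_injOn (fun w => ((w.1, w.2.1), w.2.2)) ?_ ?_)
    · intro w hw
      obtain ⟨a1, a2, a3⟩ := OneAux.memf.1 (Finset.mem_coe.1 hw)
      obtain ⟨a4, a5⟩ := Finset.mem_product.1 a1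
      obtain ⟨a6, a7⟩ := Finset.mem_product.1 a5
      refine Finset.mem_coe.2 (hX₁ _ a4 _ a6 _ a7 a2 ?_)
      have hl : w.2.1.length = w.2.2.length := (mem_words.1 a6).1.trans (mem_words.1 a7).1.symm
      unfold Sys.Tst at a3
      rw [US_mk hl] at a3
      have e5 : (mkp S.a w.1 w.2.1 w.2.2).1 + (w.2.1.map S.a).sum = w.1 := sub_add_cancel _ _
      simp only [e5] at a3
      exact not_le.1 a3
    · intro w _ w' _ e
      have a1 := Prod.mk.inj e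
      have a2 := Prod.mk.inj a1.1
      exact Prod.ext a2.1 (Prod.ext a2.2 a1.2)

end Pool.Agent.P.MP_a9a441_nt.FU
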