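import Pool.Agent.P.MP_a9a441_nt.FU.Words

/-!
Operations on paths. List manipulations only (`List.foldl_append`, `List.take_drop`,
`List.take_reverse`, `List.drop_reverse`, `List.Sublist`, `List.zip_map'`, `List.unzip`).
-/

namespace Pool.Agent.P.MP_a9a441_nt.FU

open Finset Filter Pool.Agent.Lib.LargeSieve
open scoped ComplexConjugate

variable {a : ℕ → ℤ}

@[simp] theorem en_nil (y : ℤ) : en a y [] = y := by
  rfl

@[simp] theorem en_cons (y : ℤ) (e : Lb) (l : List Lb) : en a y (e :: l) = en a (st a y e) l := by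
  rfl

theorem en_append (y : ℤ) (l₁ l₂ : List Lb) : en a y (l₁ ++ l₂) = en a (en a y l₁) l₂ := by
  simp only [en, List.foldl_append]

theorem en_eq (y : ℤ) (l : List Lb) :
    en a y l = y + ((US l).map a).sum - ((DS l).map a).sum := by
  induction l generalizing y with
  | nil => simp [US, DS]
  | cons e l ih =>
    rw [en_cons, ih]
    simp only [US, DS, st, List.map_cons, List.sum_cons]
    ring

namespace PathAux

theorem US_rv (x : Pth) : US (rv a x).2 = (DS x.2).reverse := by
  simp [US, DS, rv, List.map_reverse, List.map_map, Function.comp_def]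

theorem DS_rv (x : Pth) : DS (rv a x).2 = (US x.2).reverse := by
  simp [US, DS, rv, List.map_reverse, List.map_map, Function.comp_def]

theorem en_rv (x : Pth) : en a (rv a x).1 (rv a x).2 = x.1 := by
  rw [en_eq, US_rv, DS_rv, List.map_reverse, List.map_reverse, List.sum_reverse, List.sum_reverse]
  change en a x.1 x.2 + _ - _ = _
  rw [en_eq]
  ring

theorem mk_apex (x : Pth) : mkp a (apex a x) (US x.2) (DS x.2) = x := by
  refine Prod.ext ?_ ?_
  · simp [mkp, apex]
  · simp [mkp, US, DS, List.zip_map']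

end PathAux

theorem st_swap (y : ℤ) (e : Lb) : st a (st a y e) e.swap = y := by
  simp only [st, Prod.fst_swap, Prod.snd_swap]
  ring

theorem rv_rv (x : Pth) : rv a (rv a x) = x := by
  refine Prod.ext (PathAux.en_rv x) ?_
  simp [rv, List.map_reverse, List.map_map]

theorem US_rv (x : Pth) : US (rv a x).2 = (DS x.2).reverse := by
  exact PathAux.US_rv x

theorem DS_rv (x : Pth) : DS (rv a x).2 = (US x.2).reverse := by
  exact PathAux.DS_rv x

theorem length_rv (x : Pth) : (rv a x).2.length = x.2.length := by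
  simp [rv]

theorem en_rv (x : Pth) : en a (rv a x).1 (rv a x).2 = x.1 := by
  exact PathAux.en_rv x

theorem apex_rv (x : Pth) : apex a (rv a x) = apex a x := by
  rw [apex, US_rv, List.map_reverse, List.sum_reverse, apex]
  change en a x.1 x.2 + _ = _
  rw [en_eq]
  ring

theorem dist_rv {x : Pth} (h : Dist x.2) : Dist (rv a x).2 := by
  unfold Dist at h ⊢
  rw [US_rv, DS_rv, ← List.reverse_append, List.nodup_reverse]
  exact h

theorem dist_win {x : Pth} (h : Dist x.2) (j k : ℕ) : Dist (win a j k x).2 := by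
  have h1 : (win a j k x).2.Sublist x.2 := (List.take_sublist _ _).trans (List.drop_sublist _ _)
  exact List.Nodup.sublist ((h1.map _).append (h1.map _)) h

theorem Dist.nodupU {l : List Lb} (h : Dist l) : (US l).Nodup := by
  exact (List.nodup_append.1 h).2.1

theorem Dist.nodupD {l : List Lb} (h : Dist l) : (DS l).Nodup := by
  exact (List.nodup_append.1 h).1

theorem Dist.disj {l : List Lb} (h : Dist l) : ∀ p ∈ US l, p ∉ DS l := by
  exact fun p h1 h2 => (List.nodup_append.1 h).2.2 p h2 p h1 rfl

theorem length_win {x : Pth} {j k : ℕ} (h : j + k ≤ x.2.length) :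
    (win a j k x).2.length = k := by
  simp only [win, List.length_take, List.length_drop]
  omega

theorem win_zero (x : Pth) (k : ℕ) : win a 0 k x = (x.1, x.2.take k) := by
  simp [win]

theorem win_self {x : Pth} {k : ℕ} (h : x.2.length = k) : win a 0 k x = x := by
  rw [win_zero, ← h, List.take_length]

theorem win_one_cons (y : ℤ) (e : Lb) (l : List Lb) (k : ℕ) :
    win a 1 k (y, e :: l) = (st a y e, l.take k) := by
  simp [win]

theorem win_append (y : ℤ) (l₁ l₂ l₃ : List Lb) :
    win a l₁.length l₂.length (y, l₁ ++ l₂ ++ l₃) = (en a y l₁, l₂) := by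
  simp [win, List.append_assoc]

theorem win_win {j k j' k' : ℕ} (h : j' + k' ≤ k) (x : Pth) :
    win a j' k' (win a j k x) = win a (j + j') k' x := by
  refine Prod.ext ?_ ?_
  · simp only [win]
    rw [← en_append, List.take_take, min_eq_left (by omega), List.take_add]
  · simp only [win]
    rw [List.drop_take, List.drop_drop, List.take_take, min_eq_left (by omega)]

theorem win_rv {x : Pth} {j h k : ℕ} (hl : x.2.length = j + h + k) :
    win a j h (rv a x) = rv a (win a k h x) := by
  obtain ⟨y, l⟩ := x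
  obtain ⟨l₁, l₂, l₃, rfl, rfl, rfl, rfl⟩ : ∃ l₁ l₂ l₃ : List Lb, l = l₁ ++ l₂ ++ l₃ ∧
      l₁.length = k ∧ l₂.length = h ∧ l₃.length = j := by
    simp only at hl
    refine ⟨l.take k, (l.drop k).take h, (l.drop k).drop h, ?_, ?_, ?_, ?_⟩
    · rw [List.append_assoc, List.take_append_drop, List.take_append_drop]
    · simp only [List.length_take]
      omega
    · simp only [List.length_take, List.length_drop]
      omega
    · simp only [List.length_drop]
      omega
  rw [win_append]
  have h1 := win_append (a := a) (en a y (l₁ ++ l₂ ++ l₃)) (l₃.map Prod.swap).reverse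
    (l₂.map Prod.swap).reverse (l₁.map Prod.swap).reverse
  simp only [List.length_reverse, List.length_map] at h1
  have h2 := en_rv (a := a) (en a y (l₁ ++ l₂), l₃)
  simp only [rv, List.map_append, List.reverse_append, ← List.append_assoc] at h2 ⊢
  rw [h1, en_append, h2, en_append]

theorem US_mk {U D : List ℕ} (h : U.length = D.length) (z : ℤ) : US (mkp a z U D).2 = U := by
  exact List.map_snd_zip h.le

theorem DS_mk {U D : List ℕ} (h : U.length = D.length) (z : ℤ) : DS (mkp a z U D).2 = D := by
  exact List.map_fst_zip h.ge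

theorem length_mk {U D : List ℕ} (h : U.length = D.length) (z : ℤ) :
    (mkp a z U D).2.length = U.length := by
  simp [mkp, h]

theorem apex_mk {U D : List ℕ} (h : U.length = D.length) (z : ℤ) : apex a (mkp a z U D) = z := by
  rw [apex, US_mk h]
  simp [mkp]

theorem en_mk {U D : List ℕ} (h : U.length = D.length) (z : ℤ) :
    en a (mkp a z U D).1 (mkp a z U D).2 = z - (D.map a).sum := by
  rw [en_eq, US_mk h, DS_mk h]
  simp [mkp]

theorem rv_mk {U D : List ℕ} (h : U.length = D.length) (z : ℤ) :
    rv a (mkp a z U D) = mkp a z D.reverse U.reverse := by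
  have h1 : D.reverse.length = U.reverse.length := by simp [h]
  have h2 := PathAux.mk_apex (a := a) (rv a (mkp a z U D))
  rw [apex_rv, apex_mk h, US_rv, DS_rv, US_mk h, DS_mk h] at h2
  exact h2.symm

theorem mk_apex (x : Pth) : mkp a (apex a x) (US x.2) (DS x.2) = x := by
  exact PathAux.mk_apex x

namespace Sys

variable {S : Sys}

theorem mem_paths {h : ℕ} {x : Pth} : x ∈ S.paths h ↔
    x.1 ∈ S.Y ∧ x.2.length = h ∧ (∀ p ∈ US x.2, p ∈ S.Ps) ∧ ∀ p ∈ DS x.2, p ∈ S.Ps := by
  simp only [paths, mem_product, mem_words, A, US, DS, List.forall_mem_map]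
  exact and_congr_right fun _ => and_congr_right fun _ =>
    ⟨fun k => ⟨fun e he => (k e he).2, fun e he => (k e he).1⟩,
      fun k e he => ⟨k.2 e he, k.1 e he⟩⟩

theorem Valid.start {y : ℤ} {l : List Lb} (h : S.Valid y l) : y ∈ S.Y := by
  cases l with
  | nil => exact h
  | cons e l => exact (S.memE _ h.1).1

theorem Valid.fin {y : ℤ} {l : List Lb} (h : S.Valid y l) : en S.a y l ∈ S.Y := by
  induction l generalizing y with
  | nil => exact h
  | cons e l ih => exact ih h.2

theorem valid_mem_paths {x : Pth} (h : S.Valid x.1 x.2) : x ∈ S.paths x.2.length := by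
  obtain ⟨y, l⟩ := x
  simp only [paths, mem_product, mem_words, A, true_and]
  refine ⟨h.start, ?_⟩
  induction l generalizing y with
  | nil => simp
  | cons e l ih => exact List.forall_mem_cons.2 ⟨(S.memE _ h.1).2, ih _ h.2⟩

theorem valid_append {y : ℤ} {l₁ l₂ : List Lb} :
    S.Valid y (l₁ ++ l₂) ↔ S.Valid y l₁ ∧ S.Valid (en S.a y l₁) l₂ := by
  induction l₁ generalizing y with
  | nil => exact ⟨fun h => ⟨h.start, h⟩, fun h => h.2⟩
  | cons e l ih =>
    change _ ∧ S.Valid _ (l ++ l₂) ↔ (_ ∧ _) ∧ _
    rw [ih, and_assoc, en_cons]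

theorem valid_rv {x : Pth} (h : S.Valid x.1 x.2) : S.Valid (rv S.a x).1 (rv S.a x).2 := by
  obtain ⟨y, l⟩ := x
  induction l generalizing y with
  | nil => exact h
  | cons e l ih =>
    have h1 := ih _ h.2
    have h2 := en_rv (a := S.a) (st S.a y e, l)
    simp only [rv, List.map_cons, List.reverse_cons, en_cons] at h1 h2 ⊢
    refine valid_append.2 ⟨h1, ?_⟩
    rw [h2]
    refine ⟨S.symm _ h.1, ?_⟩
    rw [st_swap]
    exact (S.memE _ h.1).1

theorem valid_win {x : Pth} (h : S.Valid x.1 x.2) (j k : ℕ) :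
    S.Valid (win S.a j k x).1 (win S.a j k x).2 := by
  rw [← List.take_append_drop j x.2] at h
  have h1 := (valid_append.1 h).2
  rw [← List.take_append_drop k (x.2.drop j)] at h1
  exact (valid_append.1 h1).1

theorem apex_mem {h : ℕ} {x : Pth} (hx : x ∈ S.paths h) : apex S.a x ∈ S.Zr h := by
  obtain ⟨h1, h2, h3, -⟩ := mem_paths.1 hx
  have h4 : ∀ U : List ℕ, (∀ p ∈ U, p ∈ S.Ps) → U.length * S.a0 ≤ (U.map S.a).sum ∧
      (U.map S.a).sum ≤ U.length * (S.a0 + S.N) := by
    intro U hU
    induction U with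
    | nil => simp
    | cons p U ih =>
      obtain ⟨k1, k2⟩ := ih fun q hq => hU q (List.mem_cons_of_mem _ hq)
      obtain ⟨k3, k4⟩ := S.ha p (hU p List.mem_cons_self)
      simp only [List.length_cons, List.map_cons, List.sum_cons]
      push_cast
      constructor <;> linarith
  obtain ⟨k1, k2⟩ := h4 _ h3
  have k3 : (US x.2).length = h := by simpa [US] using h2
  rw [k3] at k1 k2
  simp only [Y, mem_Ico] at h1
  simp only [Zr, apex, mem_Ico]
  push_cast
  constructor <;> linarith

theorem card_Zr (h : ℕ) : (S.Zr h).card = (h + 1) * S.N := by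
  rw [Zr, Int.card_Ico, add_sub_cancel_left, Int.toNat_natCast]

theorem card_Y : S.Y.card = S.N := by
  rw [Y, Int.card_Ico, add_sub_cancel_left, Int.toNat_natCast]

theorem card_pos : 0 < S.Ps.card := by
  have h1 := S.hπ
  have h2 : 0 < S.P := lt_of_lt_of_le (pow_pos (by have := S.ht; omega) _) S.htP
  refine Nat.pos_of_ne_zero fun h => ?_
  rw [h] at h1
  omega

theorem prod_bounds {U : List ℕ} (hU : ∀ p ∈ U, p ∈ S.Ps) :
    S.P ^ U.length ≤ U.prod ∧ U.prod ≤ (2 * S.P) ^ U.length := by
  induction U with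
  | nil => simp
  | cons p U ih =>
    obtain ⟨k1, k2⟩ := ih fun q hq => hU q (List.mem_cons_of_mem _ hq)
    obtain ⟨-, k3, k4⟩ := S.prime p (hU p List.mem_cons_self)
    simp only [List.length_cons, List.prod_cons, pow_succ']
    exact ⟨Nat.mul_le_mul k3 k1, Nat.mul_le_mul k4.le k2⟩

end Sys

end Pool.Agent.P.MP_a9a441_nt.FU
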