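import Pool.Agent.P.MP_a9a441_nt.FU.Orth
import Pool.Agent.P.MP_a9a441_nt.FU.FA

/-!
Size and Fourier transform of the test function; η₁ = 10 / N, η₂ = R η₁. `norm_Phi_le`: for
m ∈ Ms M and j < R the integers ap η₁ m - j lie in a window shorter than N (log 256 < 5.6,
η₂ ≤ 1, η₁ ≤ 1), so those congruent to x.1 all equal one integer w; then j is determined by m and
η₁ w ≤ log m < η₁ w + η₂, m > M / 4; the sum of 1 / m is at most η₂ + 4 / M ≤ 2 η₂.
`tilde_Phi`: exchange the sums; the sum over x is stdAddChar (k (ap m - j)) * cchi χ m; pull out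
∑_j kT j ee (-k j / N) (norm ≤ R); replace ee (k ap m / N) by ee (k / 10 log m) (`ee_lip`, error
7 |k| / N); ∑_{Ms} 1 / m ≤ 6 (`sum_inv_le`).
-/

namespace Pool.Agent.P.MP_a9a441_nt.FU

open Finset Filter Pool.Agent.Lib.LargeSieve
open scoped ComplexConjugate

namespace PhiFAux

theorem mem_Ms {M : ℝ} (hM : 0 ≤ M) {m : ℕ} (hm : m ∈ Ms M) :
    M / 4 < m ∧ (m : ℝ) ≤ 64 * M := by
  unfold Ms at hm
  rw [mem_Ioc, Nat.floor_lt (by positivity), Nat.le_floor_iff (by positivity)] at hm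
  exact hm

theorem log256 : Real.log 256 < 5.6 := by
  have h : Real.log 256 = 8 * Real.log 2 := by
    rw [show (256 : ℝ) = 2 ^ 8 by norm_num, Real.log_pow]; norm_num
  have := Real.log_two_lt_d9
  rw [h]; linarith

theorem log_diff {M : ℝ} (hM : 0 < M) {m m' : ℕ} (hm : m ∈ Ms M) (hm' : m' ∈ Ms M) :
    Real.log m - Real.log m' < 5.6 := by
  obtain ⟨a1, a2⟩ := mem_Ms hM.le hm
  obtain ⟨b1, -⟩ := mem_Ms hM.le hm'
  have h4 : 0 < M / 4 := by positivity
  have h1 : Real.log m ≤ Real.log (256 * (M / 4)) :=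
    Real.log_le_log (h4.trans a1) (by linarith)
  rw [Real.log_mul (by norm_num) h4.ne'] at h1
  have h2 : Real.log (M / 4) ≤ Real.log m' := Real.log_le_log h4 b1.le
  have := log256
  linarith

theorem diff_lt {N R : ℕ} [NeZero N] {M : ℝ} (hM : 0 < M)
    (hRN : (R : ℝ) * (10 / N) ≤ 1) {m m' j j' : ℕ} (hm : m ∈ Ms M) (hm' : m' ∈ Ms M)
    (hj' : j' < R) : (ap (10 / N) m - j) - (ap (10 / N) m' - j') < (N : ℤ) := by
  have hN : (0 : ℝ) < N := by exact_mod_cast Nat.pos_of_ne_zero (NeZero.ne N)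
  have hη : (0 : ℝ) < 10 / N := by positivity
  have h1 := ap_le hη m
  have h2 := lt_ap hη m'
  have h3 := log_diff hM hm hm'
  have h4 : (j' : ℝ) + 1 ≤ R := by exact_mod_cast hj'
  have h5 : ((j' : ℝ) + 1) * (10 / N) ≤ 1 := (mul_le_mul_of_nonneg_right h4 hη.le).trans hRN
  have h6 : (0 : ℝ) ≤ (j : ℝ) * (10 / N) := by positivity
  have h7 : (10 / N : ℝ) * N = 10 := by field_simp
  have h8 : (10 / N : ℝ) * (((ap (10 / N) m : ℝ) - j) - ((ap (10 / N) m' : ℝ) - j')) <
      (10 / N : ℝ) * N := by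
    rw [h7]; nlinarith
  have h9 := lt_of_mul_lt_mul_left h8 hη.le
  exact_mod_cast h9

theorem same {N R : ℕ} [NeZero N] {M : ℝ} (hM : 0 < M)
    (hRN : (R : ℝ) * (10 / N) ≤ 1) {m m' j j' : ℕ} (hm : m ∈ Ms M) (hm' : m' ∈ Ms M)
    (hj : j < R) (hj' : j' < R)
    (h : ((ap (10 / N) m - j : ℤ) : ZMod N) = ((ap (10 / N) m' - j' : ℤ) : ZMod N)) :
    ap (10 / N) m - j = ap (10 / N) m' - j' := by
  rw [ZMod.intCast_eq_intCast_iff_dvd_sub] at h
  have h1 := diff_lt (j := j) hM hRN hm hm' hj'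
  have h2 := diff_lt (j := j') hM hRN hm' hm hj
  have h3 := Int.eq_zero_of_abs_lt_dvd h (by rw [abs_lt]; constructor <;> omega)
  omega

open Classical in
theorem count {N R : ℕ} [NeZero N] {M : ℝ} (hR : 1 ≤ R) (hRN : (R : ℝ) * (10 / N) ≤ 1)
    (hM : 4 ≤ M * (R * (10 / N))) (z : ZMod N) :
    ∑ m ∈ Ms M, ∑ j ∈ range R,
      (if ((ap (10 / N) m - j : ℤ) : ZMod N) = z then (1 : ℝ) / m else 0) ≤
      3 * (R * (10 / N)) := by
  have hN : (0 : ℝ) < N := by exact_mod_cast Nat.pos_of_ne_zero (NeZero.ne N)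
  have hη : (0 : ℝ) < 10 / N := by positivity
  have hR0 : (0 : ℝ) < R := by exact_mod_cast hR
  have hη2 : (0 : ℝ) < R * (10 / N) := by positivity
  have hM0 : 0 < M := by
    by_contra h
    push Not at h
    nlinarith
  by_cases hex : ∃ m0 ∈ Ms M, ∃ j0 < R, ((ap (10 / N) m0 - j0 : ℤ) : ZMod N) = z
  swap
  · have : ∑ m ∈ Ms M, ∑ j ∈ range R,
        (if ((ap (10 / N) m - j : ℤ) : ZMod N) = z then (1 : ℝ) / m else 0) = 0 := by
      refine sum_eq_zero fun m hm => sum_eq_zero fun j hj => if_neg fun h => ?_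
      exact hex ⟨m, hm, j, mem_range.mp hj, h⟩
    rw [this]; positivity
  obtain ⟨m0, hm0, j0, hj0, hz⟩ := hex
  set w : ℤ := ap (10 / N) m0 - j0 with hw
  set η₂ : ℝ := R * (10 / N) with hη₂
  set u : ℝ := max (Real.exp (10 / N * w - η₂)) (M / 4) with hu
  have hu0 : 0 < u := lt_max_of_lt_left (Real.exp_pos _)
  have huv : u ≤ u * Real.exp (2 * η₂) :=
    le_mul_of_one_le_right hu0.le (Real.one_le_exp (by positivity))
  have key : ∀ m ∈ Ms M, ∑ j ∈ range R,
      (if ((ap (10 / N) m - j : ℤ) : ZMod N) = z then (1 : ℝ) / m else 0) ≤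
      if m ∈ Ioc ⌊u⌋₊ ⌊u * Real.exp (2 * η₂)⌋₊ then (1 : ℝ) / m else 0 := by
    intro m hm
    by_cases h1 : ∃ j < R, ((ap (10 / N) m - j : ℤ) : ZMod N) = z
    · obtain ⟨j1, hj1, hz1⟩ := h1
      have e1 : ap (10 / N) m - j1 = w := same hM0 hRN hm hm0 hj1 hj0 (hz1.trans hz.symm)
      rw [sum_eq_single j1, if_pos hz1, if_pos]
      · obtain ⟨a1, -⟩ := mem_Ms hM0.le hm
        have hm0' : (0 : ℝ) < m := lt_trans (by positivity) a1
        have b1 := ap_le hη m
        have b2 := lt_ap hη m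
        have e2 : (ap (10 / N) m : ℝ) = w + j1 := by
          have : ap (10 / N) m = w + j1 := by omega
          rw [this]; push_cast; ring
        rw [e2] at b1 b2
        have h4 : (j1 : ℝ) + 1 ≤ R := by exact_mod_cast hj1
        have h5 : ((j1 : ℝ) + 1) * (10 / N) ≤ η₂ := mul_le_mul_of_nonneg_right h4 hη.le
        have h6 : (0 : ℝ) ≤ (j1 : ℝ) * (10 / N) := by positivity
        rw [mem_Ioc, Nat.floor_lt hu0.le, Nat.le_floor_iff (by positivity)]
        constructor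
        · refine max_lt ?_ a1
          rw [← Real.lt_log_iff_exp_lt hm0']
          nlinarith
        · have c1 : (m : ℝ) ≤ Real.exp (10 / N * w - η₂) * Real.exp (2 * η₂) := by
            rw [← Real.exp_add, ← Real.log_le_iff_le_exp hm0']
            nlinarith
          exact c1.trans (mul_le_mul_of_nonneg_right (le_max_left _ _) (Real.exp_pos _).le)
      · intro j hj hne
        refine if_neg fun h => hne ?_
        have := same hM0 hRN hm hm (mem_range.mp hj) hj1 (h.trans hz1.symm)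
        omega
      · intro h
        exact absurd (mem_range.mpr hj1) h
    · have : ∑ j ∈ range R,
          (if ((ap (10 / N) m - j : ℤ) : ZMod N) = z then (1 : ℝ) / m else 0) = 0 :=
        sum_eq_zero fun j hj => if_neg fun h => h1 ⟨j, mem_range.mp hj, h⟩
      rw [this]
      split_ifs
      · positivity
      · exact le_rfl
  refine (sum_le_sum key).trans ?_
  rw [← sum_filter]
  have hsub : (Ms M).filter (fun m => m ∈ Ioc ⌊u⌋₊ ⌊u * Real.exp (2 * η₂)⌋₊) ⊆
      Ioc ⌊u⌋₊ ⌊u * Real.exp (2 * η₂)⌋₊ := fun m hm => (mem_filter.mp hm).2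
  refine (sum_le_sum_of_subset_of_nonneg hsub fun m _ _ => by positivity).trans ?_
  refine (sum_inv_le hu0 huv).trans ?_
  rw [mul_div_cancel_left₀ _ hu0.ne', Real.log_exp]
  have h1 : M / 4 ≤ u := le_max_right _ _
  have h2 : 1 / u ≤ η₂ := by
    rw [div_le_iff₀ hu0]
    nlinarith
  linarith

theorem sum_Ms {M : ℝ} (hM : 16 ≤ M) : ∑ m ∈ Ms M, (1 : ℝ) / m ≤ 6 := by
  have h4 : 0 < M / 4 := by positivity
  have h := sum_inv_le (u := M / 4) (v := 64 * M) h4 (by linarith)
  have e : 64 * M / (M / 4) = 256 := by field_simp; norm_num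
  rw [e] at h
  have h2 : 1 / (M / 4) ≤ 1 / 4 := one_div_le_one_div_of_le (by norm_num) (by linarith)
  have := log256
  unfold Ms
  linarith

theorem norm_kT (η T : ℝ) (j : ℕ) : ‖kT η T j‖ = 1 := norm_ee _

theorem norm_std {n : ℕ} [NeZero n] (a : ZMod n) : ‖ZMod.stdAddChar a‖ = 1 := by
  rw [← ZMod.intCast_zmod_cast a, std_eq, norm_ee]

theorem norm_coef {G : ℝ} {g : ℕ → ℝ} (h0 : ∀ m, 0 ≤ g m) (hG : ∀ m, g m ≤ G) (m : ℕ) :
    ‖(g m : ℂ) * lam m / m‖ ≤ G * (1 / m) := by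
  rw [norm_div, norm_mul, Complex.norm_real, Complex.norm_natCast, Real.norm_eq_abs,
    abs_of_nonneg (h0 m), mul_one_div]
  refine div_le_div_of_nonneg_right ?_ (Nat.cast_nonneg _)
  have := norm_lam_le m
  have h1 := h0 m
  have h2 := hG m
  nlinarith [norm_nonneg (lam m)]

open Classical in
theorem inner {N q : ℕ} [NeZero N] [NeZero q] (v : VV N q) (k : ℤ)
    (hk : (k : ZMod N) = Multiplicative.toAdd v.1) (a : ℤ) (c : ℂ) (m : ℕ) :
    ∑ x : GG N q, (if (a : ZMod N) = x.1 then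
      c * ZMod.stdAddChar (-((x.2 : ZMod q) * (m : ZMod q))) else 0) * ech v x =
      c * ee ((k : ℝ) * a / N) * cchi v.2 m := by
  rw [Fintype.sum_prod_type, sum_eq_single (a : ZMod N)]
  · unfold cchi
    rw [mul_sum]
    refine sum_congr rfl fun b _ => ?_
    rw [if_pos rfl]
    unfold ech
    have e : Multiplicative.toAdd v.1 * (a : ZMod N) = ((k * a : ℤ) : ZMod N) := by
      rw [← hk]; push_cast; ring
    simp only [e, std_eq]
    push_cast
    ring
  · intro z _ hz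
    refine sum_eq_zero fun b _ => ?_
    rw [if_neg (Ne.symm hz), zero_mul]
  · intro h
    exact absurd (mem_univ _) h

end PhiFAux

open PhiFAux

variable {N q R : ℕ} [NeZero N] [NeZero q] {M G T : ℝ} {g : ℕ → ℝ}

theorem norm_Phi_le (hR : 1 ≤ R) (hRN : (R : ℝ) * (10 / N) ≤ 1) (hM : 4 ≤ M * (R * (10 / N)))
    (h0 : ∀ m, 0 ≤ g m) (hG : ∀ m, g m ≤ G) (x : GG N q) : ‖Phi N R T M g x‖ ≤ 4 * G := by
  classical
  have hN : (0 : ℝ) < N := by exact_mod_cast Nat.pos_of_ne_zero (NeZero.ne N)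
  have hR0 : (0 : ℝ) < R := by exact_mod_cast hR
  have hη2 : (0 : ℝ) < R * (10 / N) := by positivity
  have hG0 : 0 ≤ G := (h0 0).trans (hG 0)
  unfold Phi
  rw [norm_mul, norm_inv, Complex.norm_real, Real.norm_eq_abs, abs_of_pos hη2,
    inv_mul_le_iff₀ hη2]
  have hc := count hR hRN hM x.1
  have hb : ‖∑ m ∈ Ms M, ∑ j ∈ range R,
      (if ((ap (10 / N) m - j : ℤ) : ZMod N) = x.1 then
        (g m : ℂ) * lam m / m * ee (-(T * Real.log m)) * kT (10 / N) T j *
          ZMod.stdAddChar (-((x.2 : ZMod q) * (m : ZMod q)))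
      else 0)‖ ≤ G * ∑ m ∈ Ms M, ∑ j ∈ range R,
      (if ((ap (10 / N) m - j : ℤ) : ZMod N) = x.1 then (1 : ℝ) / m else 0) := by
    rw [mul_sum]
    refine (norm_sum_le _ _).trans (sum_le_sum fun m _ => ?_)
    rw [mul_sum]
    refine (norm_sum_le _ _).trans (sum_le_sum fun j _ => ?_)
    split_ifs
    · rw [norm_mul, norm_mul, norm_mul, norm_ee, norm_kT, norm_std, mul_one, mul_one, mul_one]
      exact norm_coef h0 hG m
    · simp
  refine le_trans (by convert hb) ?_
  nlinarith [mul_le_mul_of_nonneg_left hc hG0]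

theorem tilde_Phi (hR : 1 ≤ R) (hM : 16 ≤ M) (h0 : ∀ m, 0 ≤ g m) (hG : ∀ m, g m ≤ G)
    (v : VV N q) (k : ℤ) (hk : (k : ZMod N) = Multiplicative.toAdd v.1) :
    ‖∑ x, Phi N R T M g x * ech v x‖ ≤ N / 10 *
      (‖∑ m ∈ Ms M, (g m : ℂ) * lam m / m * ee (((k : ℝ) / 10 - T) * Real.log m) * cchi v.2 m‖ +
        42 * |(k : ℝ)| / N * G * q.totient) := by
  classical
  have hN : (0 : ℝ) < N := by exact_mod_cast Nat.pos_of_ne_zero (NeZero.ne N)
  have hη : (0 : ℝ) < 10 / N := by positivity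
  have hR0 : (0 : ℝ) < R := by exact_mod_cast hR
  have hη2 : (0 : ℝ) < R * (10 / N) := by positivity
  have hG0 : 0 ≤ G := (h0 0).trans (hG 0)
  have e1 : ∑ x, Phi N R T M g x * ech v x = (((R : ℝ) * (10 / N) : ℝ) : ℂ)⁻¹ *
      ((∑ j ∈ range R, kT (10 / N) T j * ee (-((k : ℝ) * j / N))) *
        ∑ m ∈ Ms M, (g m : ℂ) * lam m / m * ee (-(T * Real.log m)) *
          ee ((k : ℝ) * ap (10 / N) m / N) * cchi v.2 m) := by
    unfold Phi
    simp only [mul_assoc (((((R : ℝ) * (10 / N) : ℝ) : ℂ))⁻¹)]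
    rw [← mul_sum]
    congr 1
    simp only [sum_mul]
    rw [sum_comm, sum_congr rfl fun m _ => sum_comm, sum_comm]
    refine sum_congr rfl fun j _ => ?_
    rw [mul_sum]
    refine sum_congr rfl fun m _ => ?_
    have h := inner v k hk (ap (10 / N) m - j)
      ((g m : ℂ) * lam m / m * ee (-(T * Real.log m)) * kT (10 / N) T j) m
    refine Eq.trans (by convert h) ?_
    have e2 : (k : ℝ) * ((ap (10 / N) m - j : ℤ) : ℝ) / N =
        (k : ℝ) * ap (10 / N) m / N + -((k : ℝ) * j / N) := by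
      push_cast; ring
    rw [e2, ee_add]
    ring
  have b1 : ‖∑ j ∈ range R, kT (10 / N) T j * ee (-((k : ℝ) * j / N))‖ ≤ R := by
    refine (norm_sum_le _ _).trans ?_
    simp [norm_kT, norm_ee]
  have b2 : ‖∑ m ∈ Ms M, (g m : ℂ) * lam m / m * ee (-(T * Real.log m)) *
        ee ((k : ℝ) * ap (10 / N) m / N) * cchi v.2 m -
      ∑ m ∈ Ms M, (g m : ℂ) * lam m / m * ee (((k : ℝ) / 10 - T) * Real.log m) * cchi v.2 m‖ ≤
      42 * |(k : ℝ)| / N * G * q.totient := by
    rw [← sum_sub_distrib]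
    refine (norm_sum_le _ _).trans ?_
    have hterm : ∀ m ∈ Ms M, ‖(g m : ℂ) * lam m / m * ee (-(T * Real.log m)) *
        ee ((k : ℝ) * ap (10 / N) m / N) * cchi v.2 m -
        (g m : ℂ) * lam m / m * ee (((k : ℝ) / 10 - T) * Real.log m) * cchi v.2 m‖ ≤
        (7 * |(k : ℝ)| / N * G * q.totient) * (1 / m) := by
      intro m _
      have e3 : ((k : ℝ) / 10 - T) * Real.log m = -(T * Real.log m) + k * Real.log m / 10 := by
        ring
      have e4 : (g m : ℂ) * lam m / m * ee (-(T * Real.log m)) *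
          ee ((k : ℝ) * ap (10 / N) m / N) * cchi v.2 m -
          (g m : ℂ) * lam m / m * ee (((k : ℝ) / 10 - T) * Real.log m) * cchi v.2 m =
          (g m : ℂ) * lam m / m * ee (-(T * Real.log m)) *
            (ee ((k : ℝ) * ap (10 / N) m / N) - ee (k * Real.log m / 10)) * cchi v.2 m := by
        rw [e3, ee_add]; ring
      rw [e4, norm_mul, norm_mul, norm_mul, norm_ee, mul_one]
      have c1 := norm_coef h0 hG m
      have c2 := norm_cchi_le v.2 m
      have c3 : ‖ee ((k : ℝ) * ap (10 / N) m / N) - ee (k * Real.log m / 10)‖ ≤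
          7 * |(k : ℝ)| / N := by
        refine (ee_lip _ _).trans ?_
        have d1 := ap_le hη m
        have d2 := lt_ap hη m
        have e5 : (k : ℝ) * ap (10 / N) m / N - k * Real.log m / 10 =
            k * ((10 / N * ap (10 / N) m - Real.log m) / 10) := by ring
        have d3 : |(10 / N * (ap (10 / N) m : ℝ) - Real.log m) / 10| ≤ 1 / N := by
          have e6 : (1 : ℝ) / N = 10 / N / 10 := by ring
          rw [e6, abs_le]
          constructor <;> linarith
        rw [e5, abs_mul, mul_div_assoc, div_eq_mul_one_div |(k : ℝ)|]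
        exact mul_le_mul_of_nonneg_left (mul_le_mul_of_nonneg_left d3 (abs_nonneg _)) (by norm_num)
      calc _ ≤ G * (1 / m) * (7 * |(k : ℝ)| / N) * q.totient := by
            gcongr
        _ = _ := by ring
    refine (sum_le_sum hterm).trans ?_
    rw [← mul_sum]
    have := sum_Ms hM
    calc _ ≤ (7 * |(k : ℝ)| / N * G * q.totient) * 6 := by gcongr
      _ = _ := by ring
  rw [e1, norm_mul, norm_mul, norm_inv, Complex.norm_real, Real.norm_eq_abs, abs_of_pos hη2]
  have b3 := (norm_le_norm_add_norm_sub' _ _).trans (add_le_add_right b2 _)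
  have e7 : (N : ℝ) / 10 = ((R : ℝ) * (10 / N))⁻¹ * R := by field_simp
  rw [e7, mul_assoc]
  gcongr

end Pool.Agent.P.MP_a9a441_nt.FU
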