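import Pool.Agent.P.MP_a9a441_nt.FU.Orth

/-!
Unfolding the test function at a point whose first coordinate has a representative w close to the
logarithm of the range: |ap η₁ m - j - w| < N for all m ∈ Ms M, j < R, so the congruence is an
equality and j = (ap η₁ m - w).toNat. The residue factor is ee (-(b.val m / q)) by `std_eq`.
-/

namespace Pool.Agent.P.MP_a9a441_nt.FU

open Finset Filter Pool.Agent.Lib.LargeSieve
open scoped ComplexConjugate

namespace PhiUnfAux

theorem log_range {M : ℝ} (hM : 0 < M) {m : ℕ} (hm : m ∈ Ms M) :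
    Real.log M - 2 ≤ Real.log m ∧ Real.log m ≤ Real.log M + 6 * 0.7 := by
  rw [Ms, mem_Ioc] at hm
  have h1 : M / 4 < m := (Nat.floor_lt (by positivity)).1 hm.1
  have h2 : (m : ℝ) ≤ 64 * M := (Nat.le_floor_iff (by positivity)).1 hm.2
  have hm0 : (0 : ℝ) < m := lt_trans (by positivity) h1
  have l2 := Real.log_two_lt_d9
  constructor
  · have h3 : Real.log (M / 4) ≤ Real.log m := Real.log_le_log (by positivity) h1.le
    rw [Real.log_div hM.ne' (by norm_num), show (4 : ℝ) = 2 ^ 2 by norm_num, Real.log_pow] at h3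
    push_cast at h3
    linarith
  · have h3 : Real.log m ≤ Real.log (64 * M) := Real.log_le_log hm0 h2
    rw [Real.log_mul (by norm_num) hM.ne', show (64 : ℝ) = 2 ^ 6 by norm_num, Real.log_pow] at h3
    push_cast at h3
    linarith

theorem cong_iff {N R : ℕ} [NeZero N] {M : ℝ} (hM : 0 < M) (hRN : (R : ℝ) * (10 / N) ≤ 1)
    {w : ℤ} (hw1 : Real.log M - 1 ≤ 10 / N * w) (hw2 : 10 / (N : ℝ) * w ≤ Real.log M + 4)
    {m j : ℕ} (hm : m ∈ Ms M) (hj : j < R) :
    ((ap (10 / N) m - j : ℤ) : ZMod N) = (w : ZMod N) ↔ ap (10 / N) m - j = w := by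
  refine ⟨fun h => ?_, fun h => by rw [h]⟩
  have hN : (0 : ℝ) < N := by exact_mod_cast Nat.pos_of_ne_zero (NeZero.ne N)
  obtain ⟨η, hη⟩ : ∃ η : ℝ, η = 10 / N := ⟨_, rfl⟩
  rw [← hη] at h hRN hw1 hw2 ⊢
  have hη0 : 0 < η := by rw [hη]; positivity
  have hηN : η * N = 10 := by rw [hη]; field_simp
  obtain ⟨l1, l2⟩ := log_range hM hm
  have a1 : (ap η m : ℝ) ≤ Real.log m / η := Int.floor_le _
  have a2 : Real.log m / η < (ap η m : ℝ) + 1 := Int.lt_floor_add_one _
  rw [le_div_iff₀ hη0] at a1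
  rw [div_lt_iff₀ hη0] at a2
  have hj' : (j : ℝ) + 1 ≤ R := by exact_mod_cast hj
  have hj0 : (0 : ℝ) ≤ j := Nat.cast_nonneg j
  have b1 : ((j : ℝ) + 1) * η ≤ 1 := (mul_le_mul_of_nonneg_right hj' hη0.le).trans hRN
  have b2 : 0 ≤ (j : ℝ) * η := mul_nonneg hj0 hη0.le
  have hd := (ZMod.intCast_eq_intCast_iff_dvd_sub _ _ _).1 h
  have hlt : |w - (ap η m - j)| < (N : ℤ) := by
    have : |(w : ℝ) - (ap η m - j)| < N := by
      rw [abs_lt]
      constructor
      · refine lt_of_mul_lt_mul_right ?_ hη0.le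
        nlinarith
      · refine lt_of_mul_lt_mul_right ?_ hη0.le
        nlinarith
    exact_mod_cast this
  have := Int.eq_zero_of_abs_lt_dvd hd hlt
  omega

theorem res_eq {q : ℕ} [NeZero q] (b : ZMod q) (m : ℕ) :
    ZMod.stdAddChar (-(b * (m : ZMod q))) = ee (-((b.val : ℝ) / q * m)) := by
  have h : -(b * (m : ZMod q)) = ((-((b.val : ℤ) * m) : ℤ) : ZMod q) := by
    push_cast
    rw [ZMod.natCast_zmod_val]
  rw [h, std_eq]
  congr 1
  push_cast
  ring

end PhiUnfAux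

theorem phi_unf {N q R : ℕ} [NeZero N] [NeZero q] {M : ℝ} (T : ℝ) (g : ℕ → ℝ) (hM : 0 < M)
    (hR : 1 ≤ R) (hRN : (R : ℝ) * (10 / N) ≤ 1) (w : ℤ) (b : (ZMod q)ˣ)
    (hw1 : Real.log M - 1 ≤ 10 / N * w) (hw2 : 10 / (N : ℝ) * w ≤ Real.log M + 4) :
    Phi N R T M g ((w : ZMod N), b) = (((R : ℝ) * (10 / N) : ℝ) : ℂ)⁻¹ *
      ∑ m ∈ (Ms M).filter (fun m => w ≤ ap (10 / N) m ∧ ap (10 / N) m < w + R),
        (g m : ℂ) * lam m / m * ee (-(T * Real.log m)) *
          kT (10 / N) T (ap (10 / N) m - w).toNat * ee (-(((b : ZMod q).val : ℝ) / q * m)) := by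
  unfold Phi
  congr 1
  rw [sum_filter]
  refine sum_congr rfl fun m hm => ?_
  by_cases hc : w ≤ ap (10 / N) m ∧ ap (10 / N) m < w + R
  · rw [if_pos hc, sum_eq_single (ap (10 / N) m - w).toNat]
    · rw [if_pos, PhiUnfAux.res_eq]
      have : ap (10 / N) m - ((ap (10 / N) m - w).toNat : ℕ) = w := by omega
      rw [this]
    · intro j hj hne
      rw [if_neg]
      intro h
      have := (PhiUnfAux.cong_iff hM hRN hw1 hw2 hm (mem_range.1 hj)).1 h
      omega
    · intro h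
      exact absurd (mem_range.2 (by omega)) h
  · rw [if_neg hc]
    refine sum_eq_zero fun j hj => ?_
    rw [if_neg]
    intro h
    have h1 := (PhiUnfAux.cong_iff hM hRN hw1 hw2 hm (mem_range.1 hj)).1 h
    have h2 := mem_range.1 hj
    exact hc ⟨by omega, by omega⟩

end Pool.Agent.P.MP_a9a441_nt.FU
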