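import Pool.Agent.P.MP_a9a441_nt.FU.Path

/-!
Elementary properties of `Chain.Pr`. For `Pr_rv` use that `μ` vanishes off valid paths and that
`rv` is an involution of the valid paths of length `h`. For `Pr_win`: dropping the last letter
is `snoc` with `sum_words_snoc`; dropping the first letters follows by reversal (`win_rv`,
`Pr_rv`) ; combine with `win_win`. `sum_en`: reverse the paths and use `sum_start`.
-/

namespace Pool.Agent.P.MP_a9a441_nt.FU

open Finset Filter Pool.Agent.Lib.LargeSieve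
open scoped ComplexConjugate

namespace Chain

variable {S : Sys} (C : Chain S)

open Classical in
theorem Pr_eq (h : ℕ) (F : Pth → Prop) :
    C.Pr h F = ∑ x ∈ S.paths h, if F x then C.μ x else 0 := by
  rw [Chain.Pr, sum_filter]

theorem Pr_nonneg (h : ℕ) (F : Pth → Prop) : 0 ≤ C.Pr h F := by
  exact sum_nonneg fun x _ => C.nonneg x

theorem Pr_mono {h : ℕ} {F G : Pth → Prop}
    (H : ∀ x, x.2.length = h → S.Valid x.1 x.2 → F x → G x) : C.Pr h F ≤ C.Pr h G := by
  rw [Pr_eq, Pr_eq]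
  refine sum_le_sum fun x hx => ?_
  by_cases h0 : C.μ x = 0
  · simp [h0]
  by_cases hF : F x
  · rw [if_pos hF, if_pos (H x (Sys.mem_paths.1 hx).2.1 (C.valid x h0) hF)]
  · rw [if_neg hF]
    split_ifs
    · exact C.nonneg x
    · exact le_rfl

theorem Pr_congr {h : ℕ} {F G : Pth → Prop}
    (H : ∀ x, x.2.length = h → S.Valid x.1 x.2 → (F x ↔ G x)) : C.Pr h F = C.Pr h G :=
  le_antisymm (C.Pr_mono fun x a b => (H x a b).1) (C.Pr_mono fun x a b => (H x a b).2)

theorem Pr_or_add_and (h : ℕ) (F G : Pth → Prop) :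
    C.Pr h (fun x => F x ∨ G x) + C.Pr h (fun x => F x ∧ G x) = C.Pr h F + C.Pr h G := by
  simp only [Pr_eq, ← sum_add_distrib]
  refine sum_congr rfl fun x _ => ?_
  by_cases hF : F x <;> by_cases hG : G x <;> simp [hF, hG]

theorem Pr_or_le (h : ℕ) (F G : Pth → Prop) :
    C.Pr h (fun x => F x ∨ G x) ≤ C.Pr h F + C.Pr h G := by
  have h1 := C.Pr_or_add_and h F G
  have h2 := C.Pr_nonneg h fun x => F x ∧ G x
  linarith

theorem sum_start (y : ℤ) (l : List Lb) (n : ℕ) :
    ∑ l' ∈ words S.A n, C.μ (y, l ++ l') = C.μ (y, l) := by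
  induction n with
  | zero => simp [words]
  | succ n ih =>
    rw [sum_words_snoc, ← ih]
    refine sum_congr rfl fun l' _ => ?_
    simp only [← List.append_assoc]
    exact C.snoc y _

theorem Pr_true (h : ℕ) : C.Pr h (fun _ => True) = 1 := by
  rw [Pr_eq, Sys.paths, sum_product, ← C.total]
  refine sum_congr rfl fun y _ => ?_
  simpa using C.sum_start y [] h

theorem Pr_not (h : ℕ) (F : Pth → Prop) : C.Pr h (fun x => ¬ F x) = 1 - C.Pr h F := by
  rw [← C.Pr_true h, eq_sub_iff_add_eq]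
  simp only [Pr_eq, ← sum_add_distrib]
  refine sum_congr rfl fun x _ => ?_
  by_cases hF : F x <;> simp [hF]

theorem Pr_rv (h : ℕ) (F : Pth → Prop) : C.Pr h (fun x => F (rv S.a x)) = C.Pr h F := by
  classical
  have hm : ∀ x ∈ S.paths h, S.Valid x.1 x.2 → rv S.a x ∈ S.paths h := fun x hx hv => by
    have h1 := Sys.valid_mem_paths (Sys.valid_rv hv)
    rwa [length_rv, (Sys.mem_paths.1 hx).2.1] at h1
  rw [C.Pr_congr (G := fun x => F (rv S.a x) ∧ S.Valid x.1 x.2) fun x _ hv => by simp [hv],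
    C.Pr_congr (F := F) (G := fun x => F x ∧ S.Valid x.1 x.2) fun x _ hv => by simp [hv]]
  refine sum_nbij' (rv S.a) (rv S.a) (fun x hx => ?_) (fun x hx => ?_) (fun x _ => rv_rv x)
    (fun x _ => rv_rv x) fun x _ => (C.rev x).symm
  · simp only [mem_filter] at hx ⊢
    exact ⟨hm x hx.1 hx.2.2, hx.2.1, Sys.valid_rv hx.2.2⟩
  · simp only [mem_filter] at hx ⊢
    exact ⟨hm x hx.1 hx.2.2, by rw [rv_rv]; exact hx.2.1, Sys.valid_rv hx.2.2⟩

theorem Pr_take (h k : ℕ) (F : Pth → Prop) :
    C.Pr (h + k) (fun x => F (win S.a 0 h x)) = C.Pr h F := by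
  rw [Pr_eq, Pr_eq, Sys.paths, Sys.paths, sum_product, sum_product]
  refine sum_congr rfl fun y _ => ?_
  rw [sum_words_append]
  refine sum_congr rfl fun l hl => ?_
  have h1 : ∀ l' : List Lb, win S.a 0 h (y, l ++ l') = (y, l) := fun l' => by
    rw [win_zero, ← (mem_words.1 hl).1]
    simp
  by_cases hF : F (y, l)
  · rw [if_pos hF, ← C.sum_start y l k]
    exact sum_congr rfl fun l' _ => if_pos ((h1 l').symm ▸ hF)
  · rw [if_neg hF]
    exact sum_eq_zero fun l' _ => if_neg ((h1 l').symm ▸ hF)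

theorem Pr_win (j h k : ℕ) (F : Pth → Prop) :
    C.Pr (j + h + k) (fun x => F (win S.a j h x)) = C.Pr h F := by
  have h1 := C.Pr_take (j + h) k fun x => F (win S.a j h x)
  simp only [win_win (le_refl (j + h)), zero_add] at h1
  rw [h1, ← C.Pr_rv (j + h), C.Pr_congr (G := fun x => F (rv S.a (win S.a 0 h x)))
    fun x hx _ => by rw [win_rv (k := 0) hx], add_comm j h]
  exact (C.Pr_take h j fun x => F (rv S.a x)).trans (C.Pr_rv h F)

theorem sum_en (n : ℕ) (y : ℤ) :
    ∑ x ∈ (S.paths n).filter (fun x => en S.a x.1 x.2 = y), C.μ x = C.μ (y, []) := by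
  have h1 : ∑ x ∈ (S.paths n).filter (fun x => en S.a x.1 x.2 = y), C.μ x =
      C.Pr n fun x => (rv S.a x).1 = y := by
    rw [Pr_eq, sum_filter]
    refine sum_congr rfl fun x _ => ?_
    congr
  rw [h1, C.Pr_rv n fun x => x.1 = y, Pr_eq, Sys.paths, sum_product]
  have h2 : ∀ y' : ℤ, (∑ l ∈ words S.A n, if y' = y then C.μ (y', l) else 0) =
      if y' = y then C.μ (y', []) else 0 := fun y' => by
    split_ifs
    · simpa using C.sum_start y' [] n
    · simp
  refine (sum_congr rfl fun y' _ => (sum_congr rfl fun l _ => by congr).trans (h2 y')).trans ?_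
  rw [sum_ite_eq']
  split_ifs with hy
  · rfl
  · by_contra h0
    exact hy (C.valid (y, []) (Ne.symm h0))

end Chain

end Pool.Agent.P.MP_a9a441_nt.FU
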