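import Pool.Agent.P.MP_a9a441_nt.FU.Bas

/-!
The dual Turan-Kubilius inequality: `Pool.Agent.Lib.LargeSieve.halasz` with the vectors
v p n = √p (1_{p ∣ n} - 1/p) on I = Iv x θ; card I ≤ 3 x θ; the number of multiples of d in I is
card I / d + O(1); diagonal ≤ card I + p + 2, off diagonal ≤ 2 B; card Q ≤ B. Use `sum_dvd_eq`.
-/

namespace Pool.Agent.P.MP_a9a441_nt.FU

open Finset Filter Pool.Agent.Lib.LargeSieve
open scoped ComplexConjugate

namespace TKAux

/-- The indicator of the multiples of `d`. -/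
noncomputable def io (d n : ℕ) : ℝ := if d ∣ n then 1 else 0

theorem sum_io0 (d n : ℕ) : ∑ m ∈ Ioc 0 n, io d m = ((n / d : ℕ) : ℝ) := by
  unfold io
  rw [sum_boole, Nat.Ioc_filter_dvd_card_eq_div]

theorem cnt (a b : ℕ) {d : ℕ} (hd : 0 < d) :
    |∑ m ∈ Ioc a b, io d m - ((Ioc a b).card : ℝ) / d| ≤ 1 := by
  rcases le_or_gt a b with hab | hab
  · have h := sum_Ioc_consecutive (io d) (Nat.zero_le a) hab
    rw [sum_io0, sum_io0] at h
    have hd' : (0 : ℝ) < d := by exact_mod_cast hd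
    have f1 : ∀ n : ℕ, ((n / d : ℕ) : ℝ) ≤ (n : ℝ) / d := fun n => Nat.cast_div_le
    have f2 : ∀ n : ℕ, (n : ℝ) / d < ((n / d : ℕ) : ℝ) + 1 := by
      intro n
      rw [div_lt_iff₀ hd']
      have := Nat.lt_div_mul_add (a := n) hd
      have h2 : (n : ℝ) < ((n / d * d + d : ℕ) : ℝ) := by exact_mod_cast this
      push_cast at h2
      linarith
    rw [Nat.card_Ioc, Nat.cast_sub hab, sub_div, abs_le]
    constructor
    · linarith [f1 a, f2 b]
    · linarith [f1 b, f2 a]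
  · rw [Ioc_eq_empty (by omega)]
    simp

theorem io_mul {p q : ℕ} (h : p.Coprime q) (n : ℕ) : io p n * io q n = io (p * q) n := by
  unfold io
  by_cases h1 : p ∣ n
  · by_cases h2 : q ∣ n
    · rw [if_pos h1, if_pos h2, if_pos (h.mul_dvd_of_dvd_of_dvd h1 h2), mul_one]
    · rw [if_pos h1, if_neg h2, if_neg (fun h3 => h2 ((dvd_mul_left q p).trans h3)), mul_zero]
  · rw [if_neg h1, if_neg (fun h3 : p * q ∣ n => h1 ((dvd_mul_right p q).trans h3)), zero_mul]

theorem io_sq (p n : ℕ) : io p n * io p n = io p n := by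
  unfold io
  split_ifs <;> simp

theorem gram (I : Finset ℕ) (p q : ℕ) :
    ∑ n ∈ I, (io p n - 1 / p) * (io q n - 1 / q) =
      ∑ n ∈ I, io p n * io q n - (∑ n ∈ I, io p n) * (1 / q) - (∑ n ∈ I, io q n) * (1 / p) +
        (I.card : ℝ) * (1 / p * (1 / q)) := by
  rw [sum_mul, sum_mul, ← nsmul_eq_mul, ← sum_const, ← sum_sub_distrib, ← sum_sub_distrib,
    ← sum_add_distrib]
  refine sum_congr rfl fun n _ => ?_
  ring

/-- The vectors. -/
noncomputable def u (p n : ℕ) : ℝ := √p * (io p n - 1 / p)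

theorem gram_le (a b : ℕ) {p q B : ℕ} (hp : p.Prime) (hq : q.Prime) (hpB : p ≤ B) (hqB : q ≤ B) :
    |∑ n ∈ Ioc a b, u p n * u q n| ≤ 2 * B + if p = q then ((Ioc a b).card : ℝ) else 0 := by
  have hp2 : (2 : ℝ) ≤ p := by exact_mod_cast hp.two_le
  have hq2 : (2 : ℝ) ≤ q := by exact_mod_cast hq.two_le
  have hpB' : (p : ℝ) ≤ B := by exact_mod_cast hpB
  have hqB' : (q : ℝ) ≤ B := by exact_mod_cast hqB
  have e : ∑ n ∈ Ioc a b, u p n * u q n =
      (√p * √q) * ∑ n ∈ Ioc a b, (io p n - 1 / p) * (io q n - 1 / q) := by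
    rw [mul_sum]
    refine sum_congr rfl fun n _ => ?_
    unfold u
    ring
  rw [e, gram]
  set N : ℝ := ((Ioc a b).card : ℝ) with hN
  have hN0 : 0 ≤ N := Nat.cast_nonneg _
  have c1 := cnt a b hp.pos
  have c2 := cnt a b hq.pos
  rw [← hN] at c1 c2
  by_cases h : p = q
  · subst h
    rw [if_pos rfl, Real.mul_self_sqrt (by linarith)]
    simp only [io_sq]
    set M : ℝ := ∑ n ∈ Ioc a b, io p n with hM
    have hM0 : 0 ≤ M := sum_nonneg fun n _ => by unfold io; split_ifs <;> norm_num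
    have e2 : (p : ℝ) * (M - M * (1 / p) - M * (1 / p) + N * (1 / p * (1 / p))) =
        (p - 2) * M + N / p := by
      field_simp
      ring
    have h3 : 0 ≤ N / p := by positivity
    have h4 : (p : ℝ) * (N / p) = N := by field_simp
    have h5 : M ≤ N / p + 1 := by linarith [(abs_le.1 c1).2]
    have h6 : ((p : ℝ) - 2) * M ≤ (p - 2) * (N / p + 1) :=
      mul_le_mul_of_nonneg_left h5 (by linarith)
    have h7 : 0 ≤ ((p : ℝ) - 2) * M := mul_nonneg (by linarith) hM0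
    rw [e2, abs_of_nonneg (by linarith)]
    nlinarith
  · rw [if_neg h, add_zero]
    have hc : p.Coprime q := (Nat.coprime_primes hp hq).2 h
    simp only [io_mul hc]
    have c3 := cnt a b (Nat.mul_pos hp.pos hq.pos)
    rw [← hN] at c3
    push_cast at c3
    set e1 : ℝ := ∑ n ∈ Ioc a b, io p n - N / p with he1
    set e2 : ℝ := ∑ n ∈ Ioc a b, io q n - N / q with he2
    set e3 : ℝ := ∑ n ∈ Ioc a b, io (p * q) n - N / (p * q) with he3
    have e4 : ∑ n ∈ Ioc a b, io (p * q) n - (∑ n ∈ Ioc a b, io p n) * (1 / q) -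
        (∑ n ∈ Ioc a b, io q n) * (1 / p) + N * (1 / p * (1 / q)) =
        e3 - e1 * (1 / q) - e2 * (1 / p) := by
      rw [he1, he2, he3]
      field_simp
      ring
    have i1 : (1 : ℝ) / p ≤ 1 / 2 := one_div_le_one_div_of_le (by norm_num) hp2
    have i2 : (1 : ℝ) / q ≤ 1 / 2 := one_div_le_one_div_of_le (by norm_num) hq2
    have j1 : (0 : ℝ) ≤ 1 / p := by positivity
    have j2 : (0 : ℝ) ≤ 1 / q := by positivity
    have k1 : |e1 * (1 / q)| ≤ 1 * (1 / 2) := by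
      rw [abs_mul, abs_of_nonneg j2]
      exact mul_le_mul c1 i2 j2 zero_le_one
    have k2 : |e2 * (1 / p)| ≤ 1 * (1 / 2) := by
      rw [abs_mul, abs_of_nonneg j1]
      exact mul_le_mul c2 i1 j1 zero_le_one
    have k3 : |e3 - e1 * (1 / q) - e2 * (1 / p)| ≤ 2 := by
      rw [abs_le] at k1 k2 c3 ⊢
      constructor <;> linarith [k1.1, k1.2, k2.1, k2.2, c3.1, c3.2]
    have s1 : √(p : ℝ) * √q ≤ B := by
      have h1 : √(p : ℝ) ≤ √B := Real.sqrt_le_sqrt hpB'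
      have h2 : √(q : ℝ) ≤ √B := Real.sqrt_le_sqrt hqB'
      have h3 := mul_le_mul h1 h2 (Real.sqrt_nonneg _) (Real.sqrt_nonneg _)
      rwa [Real.mul_self_sqrt (by linarith)] at h3
    rw [e4, abs_mul, abs_of_nonneg (by positivity : 0 ≤ √(p : ℝ) * √q), mul_comm (2 : ℝ)]
    exact mul_le_mul s1 k3 (abs_nonneg _) (by linarith)

theorem pair {x θ : ℝ} (hx : 0 ≤ x) (α : ℝ) {p : ℕ} (hp : p.Prime) :
    ‖∑ n ∈ Iv x θ, lam n * ee (-(α * n)) * (u p n : ℂ)‖ ^ 2 =
      ‖(p : ℂ) * Sm (x / p) θ (p * α) + Sm x θ α‖ ^ 2 / p := by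
  have hp0 : (0 : ℝ) < p := by exact_mod_cast hp.pos
  have hpc : (p : ℂ) ≠ 0 := by exact_mod_cast hp.ne_zero
  have e : ∑ n ∈ Iv x θ, lam n * ee (-(α * n)) * (u p n : ℂ) =
      -(((√p / p : ℝ) : ℂ) * ((p : ℂ) * Sm (x / p) θ (p * α) + Sm x θ α)) := by
    have h1 := sum_dvd_eq (θ := θ) hx α hp
    rw [sum_filter] at h1
    have h2 : Sm (x / p) θ (p * α) =
        -∑ n ∈ Iv x θ, (if p ∣ n then lam n * ee (-(α * n)) else 0) := by
      rw [h1, neg_neg]
    rw [h2]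
    conv_rhs => rw [Sm]
    rw [← sum_neg_distrib, mul_sum, ← sum_add_distrib, mul_sum, ← sum_neg_distrib]
    refine sum_congr rfl fun n _ => ?_
    unfold u io
    split_ifs
    · push_cast
      field_simp
      ring
    · push_cast
      field_simp
      ring
  rw [e, norm_neg, norm_mul, mul_pow, Complex.norm_real, Real.norm_eq_abs, sq_abs, div_pow,
    Real.sq_sqrt hp0.le]
  field_simp

end TKAux

theorem tk {x θ : ℝ} (hx : 0 < x) (h0 : 0 < θ) (h1 : θ ≤ 1) (α : ℝ) {Q : Finset ℕ} {B : ℕ}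
    (hB : 2 ≤ B) (hQ : ∀ p ∈ Q, p.Prime ∧ p ≤ B) (hBx : (B : ℝ) ^ 2 ≤ x * θ) :
    ∑ p ∈ Q, dTK x θ α p ^ 2 / p ≤ 21 := by
  have hB' : (2 : ℝ) ≤ B := by exact_mod_cast hB
  have hy : 4 ≤ x * θ := by nlinarith
  have hN := card_Iv_le hx.le h0.le h1
  have hcQ : (Q.card : ℝ) ≤ B := by
    have : Q ⊆ Ioc 0 B := fun p hp => mem_Ioc.2 ⟨(hQ p hp).1.pos, (hQ p hp).2⟩
    have h := card_le_card this
    rw [Nat.card_Ioc, Nat.sub_zero] at h
    exact_mod_cast h
  have H := halasz Q (Iv x θ) (fun p n => (TKAux.u p n : ℂ)) (fun n => lam n * ee (-(α * n)))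
    (5 * (x * θ)) (by positivity) (by
      intro p hp
      have h2 : ∀ q ∈ Q, ‖∑ m ∈ Iv x θ, (TKAux.u p m : ℂ) * conj (TKAux.u q m : ℂ)‖ ≤
          2 * B + if p = q then ((Iv x θ).card : ℝ) else 0 := by
        intro q hq
        have h3 : ∑ m ∈ Iv x θ, (TKAux.u p m : ℂ) * conj (TKAux.u q m : ℂ) =
            ((∑ m ∈ Iv x θ, TKAux.u p m * TKAux.u q m : ℝ) : ℂ) := by
          push_cast
          refine sum_congr rfl fun m _ => ?_
          rw [Complex.conj_ofReal]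
        rw [h3, Complex.norm_real, Real.norm_eq_abs]
        exact TKAux.gram_le _ _ (hQ p hp).1 (hQ q hq).1 (hQ p hp).2 (hQ q hq).2
      refine (sum_le_sum h2).trans ?_
      rw [sum_add_distrib, sum_const, nsmul_eq_mul, sum_ite_eq, if_pos hp]
      nlinarith)
  have h4 : ∑ m ∈ Iv x θ, ‖lam m * ee (-(α * m))‖ ^ 2 ≤ 3 * (x * θ) := by
    have h5 : ∀ m ∈ Iv x θ, ‖lam m * ee (-(α * m))‖ ^ 2 ≤ 1 := by
      intro m _
      rw [norm_mul, norm_ee, mul_one]
      exact pow_le_one₀ (norm_nonneg _) (norm_lam_le m)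
    have h6 := sum_le_card_nsmul _ _ _ h5
    rw [nsmul_eq_mul, mul_one] at h6
    linarith
  have h7 : ∑ p ∈ Q, dTK x θ α p ^ 2 / p =
      (∑ p ∈ Q, ‖∑ n ∈ Iv x θ, lam n * ee (-(α * n)) * (TKAux.u p n : ℂ)‖ ^ 2) / (x * θ) ^ 2 := by
    rw [sum_div]
    refine sum_congr rfl fun p hp => ?_
    rw [TKAux.pair hx.le α (hQ p hp).1]
    unfold dTK
    rw [div_pow, div_div, div_div, mul_comm ((x * θ) ^ 2)]
  rw [h7, div_le_iff₀ (by positivity)]
  refine H.trans ?_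
  have h8 := mul_le_mul_of_nonneg_left h4 (by positivity : 0 ≤ 5 * (x * θ))
  nlinarith

end Pool.Agent.P.MP_a9a441_nt.FU
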