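import Pool.Agent.P.MP_a9a441_nt.FU.Lift

/-!
Rational approximation from two paths with the same colours. Equal colours give integers k with
|Z - Z' - k| ≤ 1 / P^h. Let Z₁ = (β + dig x) / prod US, u = prod (drop (3b) US); then u Z₁ is
(β + dig x) / prod (take (3b) US), which differs by an integer from the quantity in the colour of
`win 0 (3b) x` (`dig_take`). So (u - u') Z₁ = integer + O(P^(-3b) + (2P)^b P^(-4b)).
`sp_spec`: use `Lift.dig_left`, r + j has the same denominator. `sp_bd`: 2 * 32^b ≤ P^b.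
-/

namespace Pool.Agent.P.MP_a9a441_nt.FU

open Finset Filter Pool.Agent.Lib.LargeSieve
open scoped ComplexConjugate

namespace RatDetAux

theorem floor_mod {M : ℕ} (hM : 0 < M) {Z Z' : ℝ}
    (h : ⌊(M : ℝ) * Z⌋ % (M : ℤ) = ⌊(M : ℝ) * Z'⌋ % (M : ℤ)) :
    ∃ k : ℤ, |Z - Z' - k| ≤ 1 / (M : ℝ) := by
  obtain ⟨k, hk⟩ := Int.ModEq.dvd h.symm
  refine ⟨k, ?_⟩
  have hM' : (0 : ℝ) < M := by exact_mod_cast hM
  have h1 := Int.floor_le ((M : ℝ) * Z)
  have h2 := Int.lt_floor_add_one ((M : ℝ) * Z)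
  have h3 := Int.floor_le ((M : ℝ) * Z')
  have h4 := Int.lt_floor_add_one ((M : ℝ) * Z')
  have h5 : ((⌊(M : ℝ) * Z⌋ : ℤ) : ℝ) - ((⌊(M : ℝ) * Z'⌋ : ℤ) : ℝ) = M * k := by
    exact_mod_cast hk
  rw [le_div_iff₀ hM', ← abs_of_pos hM', ← abs_mul, abs_le]
  constructor <;> nlinarith

theorem approx {Z e : ℝ} {D K : ℤ} {Q : ℕ} (hD : D ≠ 0) (hQ : |D| ≤ Q)
    (h : |(D : ℝ) * Z - K| ≤ e) : ∃ r : ℚ, r.den ≤ Q ∧ |Z - r| ≤ e := by
  refine ⟨(K : ℚ) / D, ?_, ?_⟩
  · have h1 : ((Rat.divInt K D).den : ℤ) ∣ D := Rat.den_dvd K D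
    rw [Rat.divInt_eq_div] at h1
    have h2 := Int.le_of_dvd (abs_pos.2 hD) ((dvd_abs _ _).2 h1)
    exact_mod_cast h2.trans hQ
  · have hD' : (D : ℝ) ≠ 0 := by exact_mod_cast hD
    have h1 : (1 : ℝ) ≤ |(D : ℝ)| := by exact_mod_cast Int.one_le_abs hD
    have h2 : (D : ℝ) * Z - K = D * (Z - (((K : ℚ) / D : ℚ) : ℝ)) := by
      push_cast
      field_simp
    rw [h2, abs_mul] at h
    nlinarith [abs_nonneg (Z - (((K : ℚ) / D : ℚ) : ℝ))]

theorem P_ge (S : Sys) : 64 ≤ S.P := by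
  have h0 := S.ht
  have h1 : 10 ^ 2 ≤ S.t ^ 2 := Nat.pow_le_pow_left h0 _
  have h2 : S.t ^ 2 ≤ S.t ^ 1000 := Nat.pow_le_pow_right (by omega) (by omega)
  have h3 : (64 : ℕ) ≤ 10 ^ 2 := by norm_num
  exact h3.trans ((h1.trans h2).trans S.htP)

theorem memU {S : Sys} {x : Pth} (v : S.Valid x.1 x.2) : ∀ p ∈ US x.2, p ∈ S.Ps :=
  (Sys.mem_paths.1 (Sys.valid_mem_paths v)).2.2.1

theorem prod_pos {S : Sys} {U : List ℕ} (hU : ∀ p ∈ U, p ∈ S.Ps) : 0 < U.prod :=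
  lt_of_lt_of_le (pow_pos (by have := P_ge S; omega) _) (Sys.prod_bounds hU).1

theorem drop_le {S : Sys} {b : ℕ} {x : Pth} (l : x.2.length = 4 * b) (v : S.Valid x.1 x.2) :
    ((US x.2).drop (3 * b)).prod ≤ (2 * S.P) ^ b := by
  have h1 := (Sys.prod_bounds (S := S) (U := (US x.2).drop (3 * b))
    fun p hp => memU v p (List.mem_of_mem_drop hp)).2
  have h2 : ((US x.2).drop (3 * b)).length = b := by
    simp only [US, List.length_drop, List.length_map, l]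
    omega
  rwa [h2] at h1

theorem tail_mul {S : Sys} {x : Pth} (v : S.Valid x.1 x.2) (d : Dist x.2) (k : ℕ) :
    ∃ j : ℤ, ((((US x.2).drop k).prod : ℕ) : ℝ) * ((S.β x.1 + S.dig x) / ((US x.2).prod : ℕ)) =
      (S.β (win S.a 0 k x).1 + S.dig (win S.a 0 k x)) / ((US (win S.a 0 k x).2).prod : ℕ) + j := by
  obtain ⟨j, hj⟩ := Sys.dig_take v d k
  refine ⟨j, ?_⟩
  have e1 : (win S.a 0 k x).1 = x.1 := by rw [win_zero]
  have e2 : US (win S.a 0 k x).2 = (US x.2).take k := by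
    rw [win_zero]
    simp only [US, List.map_take]
  have e3 : US (x.2.take k) = (US x.2).take k := by simp only [US, List.map_take]
  have e4 : (US x.2).prod = ((US x.2).take k).prod * ((US x.2).drop k).prod :=
    (List.prod_take_mul_prod_drop _ _).symm
  have p1 : (0 : ℝ) < (((US x.2).take k).prod : ℕ) := by
    exact_mod_cast prod_pos fun p hp => memU v p (List.mem_of_mem_take hp)
  have p2 : (0 : ℝ) < (((US x.2).drop k).prod : ℕ) := by
    exact_mod_cast prod_pos fun p hp => memU v p (List.mem_of_mem_drop hp)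
  rw [e1, e2, hj, e3, e4]
  generalize ((US x.2).take k).prod = A at *
  generalize ((US x.2).drop k).prod = B at *
  push_cast
  field_simp
  ring

end RatDetAux

open RatDetAux

namespace Sys

variable {S : Sys} {b : ℕ}

theorem rat_det {x x' : Pth} (l : x.2.length = 4 * b) (l' : x'.2.length = 4 * b)
    (v : S.Valid x.1 x.2) (v' : S.Valid x'.1 x'.2) (d : Dist x.2) (d' : Dist x'.2)
    (c1 : S.col (4 * b) x = S.col (4 * b) x')
    (c2 : S.col (3 * b) (win S.a 0 (3 * b) x) = S.col (3 * b) (win S.a 0 (3 * b) x'))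
    (hne : ((US x.2).drop (3 * b)).prod ≠ ((US x'.2).drop (3 * b)).prod) : S.Rt b x := by
  have hP : 0 < S.P := by have := P_ge S; omega
  have hP' : (0 : ℝ) < S.P := by exact_mod_cast hP
  unfold col at c1 c2
  rw [← Nat.cast_pow] at c1 c2
  obtain ⟨k, hk⟩ := floor_mod (pow_pos hP _) c1
  obtain ⟨k₂, hk₂⟩ := floor_mod (pow_pos hP _) c2
  obtain ⟨j, hj⟩ := tail_mul v d (3 * b)
  obtain ⟨j', hj'⟩ := tail_mul v' d' (3 * b)
  have hu := drop_le l v
  have hu' := drop_le l' v'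
  refine ⟨l, v, d, ?_⟩
  generalize ((US x.2).drop (3 * b)).prod = u at *
  generalize ((US x'.2).drop (3 * b)).prod = u' at *
  generalize (S.β x.1 + S.dig x) / (((US x.2).prod : ℕ) : ℝ) = Z at *
  generalize (S.β x'.1 + S.dig x') / (((US x'.2).prod : ℕ) : ℝ) = Z' at *
  generalize (S.β (win S.a 0 (3 * b) x).1 + S.dig (win S.a 0 (3 * b) x)) /
    (((US (win S.a 0 (3 * b) x).2).prod : ℕ) : ℝ) = W at *
  generalize (S.β (win S.a 0 (3 * b) x').1 + S.dig (win S.a 0 (3 * b) x')) /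
    (((US (win S.a 0 (3 * b) x').2).prod : ℕ) : ℝ) = W' at *
  refine approx (D := (u : ℤ) - u') (K := k₂ + j - j' - u' * k) (by omega) ?_ ?_
  · rw [abs_le]
    constructor <;> omega
  · have e : ((((u : ℤ) - u' : ℤ) : ℝ)) * Z - ((k₂ + j - j' - u' * k : ℤ) : ℝ) =
        (W - W' - k₂) - u' * (Z - Z' - k) := by
      push_cast
      linarith
    rw [e]
    have h1 : |(u' : ℝ) * (Z - Z' - k)| ≤ 2 ^ b / (S.P : ℝ) ^ (3 * b) := by
      rw [abs_mul, Nat.abs_cast]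
      have h2 : (u' : ℝ) ≤ (2 * S.P) ^ b := by exact_mod_cast hu'
      refine (mul_le_mul h2 hk (abs_nonneg _) (by positivity)).trans (le_of_eq ?_)
      have h3 : 4 * b = b + 3 * b := by ring
      rw [h3, Nat.cast_pow, pow_add, mul_pow]
      field_simp
    have h4 : 1 / (S.P : ℝ) ^ (3 * b) ≤ 2 ^ b / (S.P : ℝ) ^ (3 * b) :=
      div_le_div_of_nonneg_right (one_le_pow₀ (by norm_num)) (by positivity)
    rw [Nat.cast_pow] at hk₂
    have h5 : (2 : ℝ) ^ (b + 1) / (S.P : ℝ) ^ (3 * b) =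
        2 ^ b / (S.P : ℝ) ^ (3 * b) + 2 ^ b / (S.P : ℝ) ^ (3 * b) := by ring
    rw [h5]
    exact (abs_sub _ _).trans (add_le_add (hk₂.trans h4) h1)

theorem sp_spec {x : Pth} (h : S.Rt b x) {m n : ℤ} (hl : S.Lift x.1 x.2 m n) :
    ∃ r : ℚ, r.den ≤ (2 * S.P) ^ b ∧
      |(S.β x.1 + m) / ((US x.2).prod : ℕ) - r| ≤ 2 ^ (b + 1) / (S.P : ℝ) ^ (3 * b) ∧
      S.sp b x = ((US x.2).prod : ℕ) * r - m := by
  obtain ⟨j, hj⟩ := Lift.dig_left h.2.1 h.2.2.1 hl
  have hs := h.2.2.2.choose_spec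
  have p1 : (0 : ℝ) < ((US x.2).prod : ℕ) := by exact_mod_cast prod_pos (memU h.2.1)
  unfold sp
  rw [dif_pos h]
  generalize h.2.2.2.choose = r at *
  refine ⟨r + j, by rw [Rat.add_intCast_den]; exact hs.1, ?_, ?_⟩
  · refine le_of_eq_of_le (congrArg abs ?_) hs.2
    rw [hj]
    generalize (US x.2).prod = A at *
    push_cast
    field_simp
    ring
  · rw [hj]
    generalize (US x.2).prod = A at *
    push_cast
    ring

theorem sp_den {x : Pth} (h : S.Rt b x) : (S.sp b x).den ≤ (2 * S.P) ^ b := by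
  have hs := h.2.2.2.choose_spec
  unfold sp
  rw [dif_pos h]
  generalize h.2.2.2.choose = r at *
  rw [Rat.sub_intCast_den]
  have h1 := Rat.mul_den_dvd (((US x.2).prod : ℕ) : ℚ) r
  rw [Rat.den_natCast, one_mul] at h1
  exact (Nat.le_of_dvd r.den_pos h1).trans hs.1

theorem sp_bd (hb : 1 ≤ b) {x : Pth} (h : S.Rt b x) :
    |S.β x.1 - S.sp b x| ≤ (S.P : ℝ) ^ (2 * b) := by
  have hs := h.2.2.2.choose_spec
  have p1 : (0 : ℝ) < ((US x.2).prod : ℕ) := by exact_mod_cast prod_pos (memU h.2.1)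
  have p2 := (prod_bounds (memU h.2.1)).2
  have hl : (US x.2).length = 4 * b := by simp only [US, List.length_map, h.1]
  rw [hl] at p2
  have p3 : (((US x.2).prod : ℕ) : ℝ) ≤ (2 * S.P) ^ (4 * b) := by exact_mod_cast p2
  have hP : (64 : ℝ) ≤ S.P := by exact_mod_cast P_ge S
  unfold sp
  rw [dif_pos h]
  generalize h.2.2.2.choose = r at *
  generalize (US x.2).prod = A at *
  have e : S.β x.1 - (((A : ℚ) * r - S.dig x : ℚ) : ℝ) = A * ((S.β x.1 + S.dig x) / A - r) := by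
    push_cast
    field_simp
    ring
  rw [e, abs_mul, abs_of_pos p1]
  refine (mul_le_mul p3 hs.2 (abs_nonneg _) (by positivity)).trans ?_
  have h1 : (2 : ℝ) ^ (4 * b) * 2 ^ (b + 1) ≤ (S.P : ℝ) ^ b := by
    have h2 : (2 : ℝ) ^ (4 * b) * 2 ^ (b + 1) ≤ 2 ^ (6 * b) := by
      rw [← pow_add]
      exact pow_le_pow_right₀ (by norm_num) (by omega)
    refine h2.trans ?_
    rw [pow_mul]
    exact pow_le_pow_left₀ (by norm_num) (le_trans (by norm_num) hP) _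
  have h3 : (2 * (S.P : ℝ)) ^ (4 * b) * (2 ^ (b + 1) / (S.P : ℝ) ^ (3 * b)) =
      2 ^ (4 * b) * 2 ^ (b + 1) * (S.P : ℝ) ^ b := by
    have h4 : 4 * b = b + 3 * b := by ring
    rw [mul_pow, h4, pow_add (S.P : ℝ)]
    field_simp
  rw [h3, two_mul b, pow_add (S.P : ℝ)]
  exact mul_le_mul_of_nonneg_right h1 (by positivity)

end Sys

end Pool.Agent.P.MP_a9a441_nt.FU
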