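import Pool.Agent.P.MP_a9a441_nt.FU.Ind
import Pool.Agent.P.MP_a9a441_nt.FU.Colour
import Pool.Agent.P.MP_a9a441_nt.FU.RatDet
import Pool.Agent.P.MP_a9a441_nt.FU.Lonely

/-!
Most paths of length 4b have a rational approximation. Take `fam` and `colour` for the lengths
4b and 3b; H x = G₁ x ∧ G₂ (win 0 (3b) x) ∧ both colours in their lists; the key is
(apex x, col x, apex (win), col (win)); K is the set of such quadruples with apices in Zr (4b),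
Zr (3b), card K ≤ (4b+1) N (3b+1) N 9 P^(8 (4b/100)) t^(7b+204). If H x and x is not lonely then
`rat_det` applies. `num`: b/π ≤ t^2 / P; raise to the power 1000 and use N^2 ≤ P^b,
t^1000 ≤ P, 25 (4b/100) ≤ b, 9 ≤ t; the exponent is at most 833 b + 311 ≤ 1000 b.
-/

namespace Pool.Agent.P.MP_a9a441_nt.FU

open Finset Filter Pool.Agent.Lib.LargeSieve
open scoped ComplexConjugate

theorem Sys.num (S : Sys) {b : ℕ} (hb : 2 ≤ b) (hN : S.N ^ 2 ≤ S.P ^ b) :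
    9 * S.N * S.P ^ (8 * (4 * b / 100)) * S.t ^ (13 * b + 307) ≤ S.P ^ b := by
  have ht := S.ht
  have htP := S.htP
  have hP : 1 ≤ S.P := le_trans (Nat.one_le_pow _ _ (by omega)) htP
  have h9' : 9 ≤ S.t := by omega
  have h9 := le_trans (Nat.pow_le_pow_left h9' 1000) htP
  have hN' : S.N ^ 1000 ≤ S.P ^ (500 * b) := by
    calc S.N ^ 1000 = (S.N ^ 2) ^ 500 := by rw [← pow_mul]
      _ ≤ (S.P ^ b) ^ 500 := Nat.pow_le_pow_left hN _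
      _ = S.P ^ (500 * b) := by rw [← pow_mul, mul_comm]
  have hq : (S.P ^ (8 * (4 * b / 100))) ^ 1000 ≤ S.P ^ (320 * b) := by
    rw [← pow_mul]
    exact Nat.pow_le_pow_right hP (by omega)
  have hT : (S.t ^ (13 * b + 307)) ^ 1000 ≤ S.P ^ (13 * b + 307) := by
    rw [← pow_mul, mul_comm, pow_mul]
    exact Nat.pow_le_pow_left htP _
  refine (Nat.pow_le_pow_iff_left (n := 1000) (by norm_num)).1 ?_
  rw [mul_pow, mul_pow, mul_pow]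
  calc 9 ^ 1000 * S.N ^ 1000 * (S.P ^ (8 * (4 * b / 100))) ^ 1000 *
        (S.t ^ (13 * b + 307)) ^ 1000
      ≤ S.P * S.P ^ (500 * b) * S.P ^ (320 * b) * S.P ^ (13 * b + 307) :=
        Nat.mul_le_mul (Nat.mul_le_mul (Nat.mul_le_mul h9 hN') hq) hT
    _ = S.P ^ (1 + 500 * b + 320 * b + (13 * b + 307)) := by
        rw [pow_add _ _ (13 * b + 307), pow_add _ _ (320 * b), pow_add _ 1, pow_one]
    _ ≤ S.P ^ (b * 1000) := Nat.pow_le_pow_right hP (by omega)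
    _ = (S.P ^ b) ^ 1000 := by rw [pow_mul]

namespace RatPAux

/-- The pairs of an apex and a colour. -/
noncomputable def keys (A : Finset ℤ) (Z : ℤ → Finset ℤ) : Finset (ℤ × ℤ) :=
  A.biUnion fun z => (Z z).image fun c => (z, c)

theorem mem_keys {A : Finset ℤ} {Z : ℤ → Finset ℤ} {z c : ℤ} (hz : z ∈ A) (hc : c ∈ Z z) :
    (z, c) ∈ keys A Z :=
  mem_biUnion.2 ⟨z, hz, mem_image.2 ⟨c, hc, rfl⟩⟩

theorem card_keys {A : Finset ℤ} {Z : ℤ → Finset ℤ} {M : ℕ} (h : ∀ z, (Z z).card ≤ M) :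
    (keys A Z).card ≤ A.card * M :=
  card_biUnion_le_card_mul _ _ _ fun z _ => le_trans card_image_le (h z)

theorem last {S : Sys} (C : Chain S) {b k : ℕ} (hb : 2 ≤ b) (ht : 4 * b + 2 ≤ S.t)
    (hN : S.N ^ 2 ≤ S.P ^ b)
    (hk : k ≤ 9 * S.N ^ 2 * S.P ^ (8 * (4 * b / 100)) * S.t ^ (7 * b + 206)) :
    (k : ℝ) * (C.Γ ^ (4 * b + 1) / S.N * ((b : ℝ) / S.Ps.card) ^ b) ≤ 1 / (S.t : ℝ) ^ 100 := by
  have ht0 : (0 : ℝ) < S.t := by have := S.ht; positivity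
  have hP1 : 1 ≤ S.P := le_trans (Nat.one_le_pow _ _ (by have := S.ht; omega)) S.htP
  have hP0 : (0 : ℝ) < S.P := by exact_mod_cast hP1
  have hN0 : (0 : ℝ) < S.N := by exact_mod_cast S.hN
  have hπ0 : (0 : ℝ) < S.Ps.card := by exact_mod_cast S.card_pos
  have hΓ0 : 0 ≤ C.Γ := le_trans zero_le_one C.Γ1
  have h1 : C.Γ ^ (4 * b + 1) ≤ (S.t : ℝ) ^ (4 * b + 1) := pow_le_pow_left₀ hΓ0 C.Γt _
  have h2 : (b : ℝ) / S.Ps.card ≤ (S.t : ℝ) ^ 2 / S.P := by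
    rw [div_le_div_iff₀ hπ0 hP0]
    have e1 : (b : ℝ) ≤ S.t := by exact_mod_cast (by omega : b ≤ S.t)
    have e2 : (2 * S.P : ℝ) ≤ S.t * S.Ps.card := by exact_mod_cast S.hπ
    calc (b : ℝ) * S.P ≤ S.t * (2 * S.P) := by nlinarith
      _ ≤ S.t * (S.t * S.Ps.card) := by gcongr
      _ = (S.t : ℝ) ^ 2 * S.Ps.card := by ring
  have h3 : ((b : ℝ) / S.Ps.card) ^ b ≤ ((S.t : ℝ) ^ 2 / S.P) ^ b :=
    pow_le_pow_left₀ (by positivity) h2 _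
  have h4 : (k : ℝ) ≤ 9 * (S.N : ℝ) ^ 2 * (S.P : ℝ) ^ (8 * (4 * b / 100)) *
      (S.t : ℝ) ^ (7 * b + 206) := by exact_mod_cast hk
  have h5 : 9 * (S.N : ℝ) * (S.P : ℝ) ^ (8 * (4 * b / 100)) * (S.t : ℝ) ^ (13 * b + 307) ≤
      (S.P : ℝ) ^ b := by exact_mod_cast S.num hb hN
  generalize (S.P : ℝ) ^ (8 * (4 * b / 100)) = Q at h4 h5
  have hQ : 0 ≤ 9 * (S.N : ℝ) ^ 2 * Q * (S.t : ℝ) ^ (7 * b + 206) :=
    le_trans (Nat.cast_nonneg k) h4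
  calc (k : ℝ) * (C.Γ ^ (4 * b + 1) / S.N * ((b : ℝ) / S.Ps.card) ^ b)
      ≤ (9 * (S.N : ℝ) ^ 2 * Q * (S.t : ℝ) ^ (7 * b + 206)) *
        ((S.t : ℝ) ^ (4 * b + 1) / S.N * ((S.t : ℝ) ^ 2 / S.P) ^ b) := by
        refine mul_le_mul h4 ?_ (by positivity) hQ
        exact mul_le_mul (div_le_div_of_nonneg_right h1 hN0.le) h3 (by positivity) (by positivity)
    _ = (9 * (S.N : ℝ) * Q * (S.t : ℝ) ^ (13 * b + 307)) / (S.P : ℝ) ^ b / (S.t : ℝ) ^ 100 := by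
        have e : (S.t : ℝ) ^ (13 * b + 307) =
            (S.t : ℝ) ^ (7 * b + 206) * (S.t : ℝ) ^ (4 * b + 1) * ((S.t : ℝ) ^ 2) ^ b *
              (S.t : ℝ) ^ 100 := by
          rw [← pow_mul, ← pow_add, ← pow_add, ← pow_add]
          congr 1
          omega
        rw [e, div_pow]
        generalize (S.t : ℝ) ^ (7 * b + 206) = u
        generalize (S.t : ℝ) ^ (4 * b + 1) = v
        generalize ((S.t : ℝ) ^ 2) ^ b = w
        have z1 : (S.P : ℝ) ^ b ≠ 0 := by positivity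
        have z2 : (S.t : ℝ) ^ 100 ≠ 0 := by positivity
        generalize (S.P : ℝ) ^ b = p at z1
        generalize (S.t : ℝ) ^ 100 = r at z2
        field_simp
    _ ≤ 1 / (S.t : ℝ) ^ 100 := by
        refine div_le_div_of_nonneg_right ?_ (by positivity)
        rw [div_le_one (by positivity)]
        exact h5

theorem sq_bound {t : ℝ} {h : ℕ} (ht : 0 < t) (hh : (h : ℝ) ≤ t) :
    5 * (h : ℝ) ^ 2 / t ^ 99 ≤ 5 / t ^ 97 := by
  rw [div_le_div_iff₀ (by positivity) (by positivity)]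
  have h1 : (h : ℝ) ^ 2 ≤ t ^ 2 := pow_le_pow_left₀ (Nat.cast_nonneg h) hh 2
  calc 5 * (h : ℝ) ^ 2 * t ^ 97 ≤ 5 * t ^ 2 * t ^ 97 := by gcongr
    _ = 5 * t ^ 99 := by ring

end RatPAux

theorem Chain.ratP {S : Sys} (C : Chain S) {b : ℕ} (hb : 2 ≤ b) (ht : 4 * b + 2 ≤ S.t)
    (hN : S.N ^ 2 ≤ S.P ^ b) : C.Pr (4 * b) (fun x => ¬ S.Rt b x) ≤ 13 / (S.t : ℝ) ^ 97 := by
  classical
  obtain ⟨G₁, ζ₁, F₁, p₁⟩ := C.fam (h := 4 * b) ht
  obtain ⟨G₂, ζ₂, F₂, p₂⟩ := C.fam (h := 3 * b) (by omega)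
  obtain ⟨Z₁, c₁, q₁⟩ := C.colour F₁ ht
  obtain ⟨Z₂, c₂, q₂⟩ := C.colour F₂ (by omega)
  have ht1 : (1 : ℝ) ≤ S.t := by have := S.ht; exact_mod_cast (by omega : 1 ≤ S.t)
  have ht0 : (0 : ℝ) < S.t := lt_of_lt_of_le one_pos ht1
  have hP1 : 1 ≤ S.P := le_trans (Nat.one_le_pow _ _ (by have := S.ht; omega)) S.htP
  let w : Pth → Pth := win S.a 0 (3 * b)
  let H : Pth → Prop := fun x => G₁ x ∧ G₂ (w x) ∧ S.col (4 * b) x ∈ Z₁ (apex S.a x) ∧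
    S.col (3 * b) (w x) ∈ Z₂ (apex S.a (w x))
  let κ : Pth → (ℤ × ℤ) × (ℤ × ℤ) := fun x =>
    ((apex S.a x, S.col (4 * b) x), (apex S.a (w x), S.col (3 * b) (w x)))
  let K : Finset ((ℤ × ℤ) × (ℤ × ℤ)) :=
    RatPAux.keys (S.Zr (4 * b)) Z₁ ×ˢ RatPAux.keys (S.Zr (3 * b)) Z₂
  have hK : ∀ x, x.2.length = 4 * b → S.Valid x.1 x.2 → H x → κ x ∈ K := by
    intro x l v hx
    refine mem_product.2 ⟨RatPAux.mem_keys ?_ hx.2.2.1, RatPAux.mem_keys ?_ hx.2.2.2⟩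
    · exact Sys.apex_mem (l ▸ Sys.valid_mem_paths v)
    · have hl : (w x).2.length = 3 * b := length_win (by omega)
      exact Sys.apex_mem (hl ▸ Sys.valid_mem_paths (Sys.valid_win v 0 (3 * b)))
  have hκ : ∀ x x', κ x = κ x' → apex S.a x = apex S.a x' := fun x x' h =>
    congrArg (fun k => k.1.1) h
  have hL := C.lonely b H κ K hK hκ
  have hcard : K.card ≤ 9 * S.N ^ 2 * S.P ^ (8 * (4 * b / 100)) * S.t ^ (7 * b + 206) := by
    have k₁ := RatPAux.card_keys (A := S.Zr (4 * b)) c₁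
    have k₂ := RatPAux.card_keys (A := S.Zr (3 * b)) c₂
    rw [Sys.card_Zr] at k₁ k₂
    have e₁ : (4 * b + 1) * S.N ≤ S.t * S.N := Nat.mul_le_mul_right _ (by omega)
    have e₂ : (3 * b + 1) * S.N ≤ S.t * S.N := Nat.mul_le_mul_right _ (by omega)
    have e₃ : S.P ^ (4 * (3 * b / 100)) ≤ S.P ^ (4 * (4 * b / 100)) :=
      Nat.pow_le_pow_right hP1 (by omega)
    have k₁' := le_trans k₁ (Nat.mul_le_mul_right _ e₁)
    have k₂' := le_trans k₂ (Nat.mul_le_mul e₂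
      (Nat.mul_le_mul_right (S.t ^ (3 * b + 102)) (Nat.mul_le_mul_left 3 e₃)))
    rw [card_product]
    refine le_trans (Nat.mul_le_mul k₁' k₂') (le_of_eq ?_)
    have e₄ : S.P ^ (8 * (4 * b / 100)) =
        S.P ^ (4 * (4 * b / 100)) * S.P ^ (4 * (4 * b / 100)) := by
      rw [← pow_add]; congr 1; omega
    have e₅ : S.t ^ (7 * b + 206) =
        S.t ^ (4 * b + 102) * S.t ^ (3 * b + 102) * S.t * S.t := by
      rw [← pow_add, ← pow_succ, ← pow_succ]; congr 1; omega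
    rw [e₄, e₅]
    generalize S.P ^ (4 * (4 * b / 100)) = u
    generalize S.t ^ (4 * b + 102) = v
    generalize S.t ^ (3 * b + 102) = v'
    ring
  have hL' := le_trans hL (RatPAux.last C hb ht hN hcard)
  have w₁ : C.Pr (4 * b) (fun x => ¬ G₂ (w x)) = C.Pr (3 * b) (fun x => ¬ G₂ x) := by
    have := C.Pr_win 0 (3 * b) b (fun x => ¬ G₂ x)
    rwa [show 0 + 3 * b + b = 4 * b by omega] at this
  have w₂ : C.Pr (4 * b) (fun x => G₂ (w x) ∧ S.col (3 * b) (w x) ∉ Z₂ (apex S.a (w x))) =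
      C.Pr (3 * b) (fun x => G₂ x ∧ S.col (3 * b) x ∉ Z₂ (apex S.a x)) := by
    have := C.Pr_win 0 (3 * b) b (fun x => G₂ x ∧ S.col (3 * b) x ∉ Z₂ (apex S.a x))
    rwa [show 0 + 3 * b + b = 4 * b by omega] at this
  let Lo : Pth → Prop := fun x => H x ∧ ∀ x', x'.2.length = 4 * b → S.Valid x'.1 x'.2 → H x' →
    κ x' = κ x → ((US x'.2).drop (3 * b)).prod = ((US x.2).drop (3 * b)).prod
  have main : C.Pr (4 * b) (fun x => ¬ S.Rt b x) ≤ C.Pr (4 * b) (fun x => ¬ G₁ x ∨ (¬ G₂ (w x) ∨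
      ((G₁ x ∧ S.col (4 * b) x ∉ Z₁ (apex S.a x)) ∨
        ((G₂ (w x) ∧ S.col (3 * b) (w x) ∉ Z₂ (apex S.a (w x))) ∨ Lo x)))) := by
    refine C.Pr_mono fun x l v hx => ?_
    by_cases g₁ : G₁ x
    swap
    · exact Or.inl g₁
    by_cases g₂ : G₂ (w x)
    swap
    · exact Or.inr (Or.inl g₂)
    by_cases z₁ : S.col (4 * b) x ∈ Z₁ (apex S.a x)
    swap
    · exact Or.inr (Or.inr (Or.inl ⟨g₁, z₁⟩))
    by_cases z₂ : S.col (3 * b) (w x) ∈ Z₂ (apex S.a (w x))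
    swap
    · exact Or.inr (Or.inr (Or.inr (Or.inl ⟨g₂, z₂⟩)))
    refine Or.inr (Or.inr (Or.inr (Or.inr ⟨⟨g₁, g₂, z₁, z₂⟩, fun x' l' v' h' e => ?_⟩)))
    by_contra hne
    exact hx (Sys.rat_det l l' v v' (F₁.dist x g₁) (F₁.dist x' h'.1)
      (congrArg (fun k => k.1.2) e).symm (congrArg (fun k => k.2.2) e).symm (Ne.symm hne))
  have o₁ := C.Pr_or_le (4 * b) (fun x => ¬ G₁ x) (fun x => ¬ G₂ (w x) ∨
      ((G₁ x ∧ S.col (4 * b) x ∉ Z₁ (apex S.a x)) ∨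
        ((G₂ (w x) ∧ S.col (3 * b) (w x) ∉ Z₂ (apex S.a (w x))) ∨ Lo x)))
  have o₂ := C.Pr_or_le (4 * b) (fun x => ¬ G₂ (w x))
    (fun x => (G₁ x ∧ S.col (4 * b) x ∉ Z₁ (apex S.a x)) ∨
        ((G₂ (w x) ∧ S.col (3 * b) (w x) ∉ Z₂ (apex S.a (w x))) ∨ Lo x))
  have o₃ := C.Pr_or_le (4 * b) (fun x => G₁ x ∧ S.col (4 * b) x ∉ Z₁ (apex S.a x))
    (fun x => (G₂ (w x) ∧ S.col (3 * b) (w x) ∉ Z₂ (apex S.a (w x))) ∨ Lo x)
  have o₄ := C.Pr_or_le (4 * b)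
    (fun x => G₂ (w x) ∧ S.col (3 * b) (w x) ∉ Z₂ (apex S.a (w x))) Lo
  have s₁ := le_trans p₁ (RatPAux.sq_bound ht0 (by exact_mod_cast (by omega : 4 * b ≤ S.t)))
  have s₂ := le_trans p₂ (RatPAux.sq_bound ht0 (by exact_mod_cast (by omega : 3 * b ≤ S.t)))
  have s₃ : 1 / (S.t : ℝ) ^ 100 ≤ 1 / (S.t : ℝ) ^ 97 :=
    one_div_le_one_div_of_le (by positivity) (pow_le_pow_right₀ ht1 (by norm_num))
  have e13 : 13 / (S.t : ℝ) ^ 97 = 5 / (S.t : ℝ) ^ 97 + 5 / (S.t : ℝ) ^ 97 +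
      1 / (S.t : ℝ) ^ 97 + 1 / (S.t : ℝ) ^ 97 + 1 / (S.t : ℝ) ^ 97 := by ring
  have hLo : C.Pr (4 * b) Lo ≤ 1 / (S.t : ℝ) ^ 100 := hL'
  rw [w₁] at o₂
  rw [w₂] at o₄
  rw [e13]
  linarith

end Pool.Agent.P.MP_a9a441_nt.FU
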