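import Pool.Agent.P.MP_a9a441_nt.FU.RatDet

/-!
Labels of overlapping windows. Write l = l' ++ [f] (length l' = 4b - 1). Take a lift of the whole
path: m₀, then m₁ after the first step; `lift_append` gives lifts of both windows. With
V = prod (US l'), `sp_spec` gives r₀ near (β y + m₀) / (p' V) and r₁ near (β y' + m₁) / (V f.2).
Then |p r₀ - f.2 r₁| ≤ 4 P 2^(b+1) / P^(3b) + ε / P^(4b) < (2P)^(-2b), so p r₀ = f.2 r₁ (the
denominator is at most (2P)^(2b)); hence p sp₀ - p' sp₁ = p' m₁ - p m₀ = kk (as ε < 1/2).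
-/

namespace Pool.Agent.P.MP_a9a441_nt.FU

open Finset Filter Pool.Agent.Lib.LargeSieve
open scoped ComplexConjugate

namespace TransAux

/-- An integer combination of two rationals that is small against the denominators vanishes. -/
theorem comb_eq {r₀ r₁ : ℚ} {p q D : ℕ} (h0 : r₀.den ≤ D) (h1 : r₁.den ≤ D)
    (h : |(p : ℝ) * r₀ - q * r₁| * ((D : ℝ) * D) < 1) : (p : ℚ) * r₀ = q * r₁ := by
  have e0 : (r₀ : ℝ) * r₀.den = r₀.num := by exact_mod_cast Rat.mul_den_eq_num r₀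
  have e1 : (r₁ : ℝ) * r₁.den = r₁.num := by exact_mod_cast Rat.mul_den_eq_num r₁
  have d0 : (0 : ℝ) < r₀.den := by exact_mod_cast r₀.den_pos
  have d1 : (0 : ℝ) < r₁.den := by exact_mod_cast r₁.den_pos
  have h0' : (r₀.den : ℝ) ≤ D := by exact_mod_cast h0
  have h1' : (r₁.den : ℝ) ≤ D := by exact_mod_cast h1
  set k : ℤ := p * r₀.num * r₁.den - q * r₁.num * r₀.den with hk
  have ek : (k : ℝ) = ((p : ℝ) * r₀ - q * r₁) * ((r₀.den : ℝ) * r₁.den) := by
    rw [hk]; push_cast; rw [← e0, ← e1]; ring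
  have hlt : |(k : ℝ)| < 1 := by
    rw [ek, abs_mul, abs_of_pos (mul_pos d0 d1)]
    refine lt_of_le_of_lt ?_ h
    exact mul_le_mul_of_nonneg_left (mul_le_mul h0' h1' d1.le (d0.le.trans h0')) (abs_nonneg _)
  have hk0 : k = 0 := by
    have : |k| < 1 := by exact_mod_cast hlt
    exact Int.abs_lt_one_iff.mp this
  have hz : (p : ℝ) * r₀ - q * r₁ = 0 := by
    rw [hk0, Int.cast_zero] at ek
    rcases mul_eq_zero.mp ek.symm with h | h
    · exact h
    · exact absurd h (mul_pos d0 d1).ne'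
  have : (p : ℝ) * r₀ = q * r₁ := sub_eq_zero.mp hz
  exact_mod_cast this

theorem round_eq_of {x : ℝ} {k : ℤ} (h : |x - k| < 1 / 2) : round x = k := by
  rw [round_eq, Int.floor_eq_iff]
  rw [abs_lt] at h
  constructor <;> linarith [h.1, h.2]

theorem P_ge (S : Sys) : (1024 : ℝ) ≤ S.P := by
  have h1 : 10 ^ 4 ≤ S.t ^ 4 := Nat.pow_le_pow_left S.ht _
  have h2 : S.t ^ 4 ≤ S.t ^ 1000 :=
    pow_le_pow_right₀ (le_trans (by norm_num) S.ht) (by norm_num)
  have h3 : 1024 ≤ S.P := le_trans (by norm_num) (h1.trans (h2.trans S.htP))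
  exact_mod_cast h3

/-- The numerical inequality. -/
theorem numeric {P ε : ℝ} {b : ℕ} (hP : 1024 ≤ P) (hb : 2 ≤ b) (hε : ε < 1 / 2) (hε0 : 0 ≤ ε) :
    (4 * P * (2 ^ (b + 1) / P ^ (3 * b)) + ε / P ^ (4 * b)) * ((2 * P) ^ b * (2 * P) ^ b) < 1 := by
  obtain ⟨c, rfl⟩ : ∃ c, b = c + 2 := ⟨b - 2, by omega⟩
  have hP0 : 0 < P := by linarith
  have h8 : (8 : ℝ) ^ c ≤ P ^ c := pow_le_pow_left₀ (by norm_num) (by linarith) c
  have h2 : (2 : ℝ) ^ (c + 2) ≤ P ^ (c + 2) := pow_le_pow_left₀ (by norm_num) (by linarith) _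
  have pc : 0 < P ^ c := pow_pos hP0 _
  have pb : 0 < P ^ (c + 2) := pow_pos hP0 _
  have e1 : 4 * P * (2 ^ (c + 2 + 1) / P ^ (3 * (c + 2))) * ((2 * P) ^ (c + 2) * (2 * P) ^ (c + 2))
      = 512 * (8 ^ c / P ^ c) / P := by
    have : (8 : ℝ) ^ c = 2 ^ c * 2 ^ c * 2 ^ c := by rw [← mul_pow, ← mul_pow]; norm_num
    rw [this]
    field_simp
    ring
  have e2 : ε / P ^ (4 * (c + 2)) * ((2 * P) ^ (c + 2) * (2 * P) ^ (c + 2))
      = ε * ((2 ^ (c + 2) / P ^ (c + 2)) * (2 ^ (c + 2) / P ^ (c + 2))) := by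
    field_simp
    ring
  have a1 : (8 : ℝ) ^ c / P ^ c ≤ 1 := (div_le_one pc).mpr h8
  have a2 : (2 : ℝ) ^ (c + 2) / P ^ (c + 2) ≤ 1 := (div_le_one pb).mpr h2
  have a3 : (0 : ℝ) ≤ 2 ^ (c + 2) / P ^ (c + 2) := by positivity
  have b1 : 512 * ((8 : ℝ) ^ c / P ^ c) / P ≤ 1 / 2 := by
    rw [div_le_iff₀ hP0]; linarith
  have b2 : ε * ((2 ^ (c + 2) / P ^ (c + 2)) * (2 ^ (c + 2) / P ^ (c + 2))) ≤ ε :=
    mul_le_of_le_one_right hε0 (mul_le_one₀ a2 a3 a2)
  rw [add_mul, e1, e2]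
  linarith

/-- The triangle inequality for the two approximations. -/
theorem close {P ε A B V p p' q r₀ r₁ η M : ℝ} (hV : 0 < V) (hp' : 0 < p') (hq : 0 < q)
    (hp : 0 ≤ p) (hpP : p ≤ 2 * P) (hqP : q ≤ 2 * P) (hM : 0 < M) (hMV : M ≤ p' * V)
    (h : |p * A - p' * B| ≤ ε) (h0 : |A / (p' * V) - r₀| ≤ η) (h1 : |B / (V * q) - r₁| ≤ η) :
    |p * r₀ - q * r₁| ≤ 4 * P * η + ε / M := by
  have hη : 0 ≤ η := (abs_nonneg _).trans h0
  have hε : 0 ≤ ε := (abs_nonneg _).trans h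
  have e : p * r₀ - q * r₁ = (p * A - p' * B) / (p' * V) - p * (A / (p' * V) - r₀)
      + q * (B / (V * q) - r₁) := by
    field_simp
    ring
  have t1 : |(p * A - p' * B) / (p' * V)| ≤ ε / M := by
    rw [abs_div, abs_of_pos (mul_pos hp' hV)]
    exact div_le_div₀ hε h hM hMV
  have t2 : |p * (A / (p' * V) - r₀)| ≤ 2 * P * η := by
    rw [abs_mul, abs_of_nonneg hp]
    exact mul_le_mul hpP h0 (abs_nonneg _) (hp.trans hpP)
  have t3 : |q * (B / (V * q) - r₁)| ≤ 2 * P * η := by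
    rw [abs_mul, abs_of_pos hq]
    exact mul_le_mul hqP h1 (abs_nonneg _) (hq.le.trans hqP)
  rw [e]
  have := abs_add_le ((p * A - p' * B) / (p' * V) - p * (A / (p' * V) - r₀))
    (q * (B / (V * q) - r₁))
  have := abs_sub ((p * A - p' * B) / (p' * V)) (p * (A / (p' * V) - r₀))
  linarith

end TransAux

theorem Sys.trans {S : Sys} {b : ℕ} (hb : 2 ≤ b) {y : ℤ} {e : Lb} {l : List Lb}
    (hl : l.length = 4 * b) (v : S.Valid y (e :: l)) (d : Dist (e :: l))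
    (h0 : S.Rt b (win S.a 0 (4 * b) (y, e :: l))) (h1 : S.Rt b (win S.a 1 (4 * b) (y, e :: l))) :
    S.sp b (win S.a 1 (4 * b) (y, e :: l)) =
      S.tr y e (S.sp b (win S.a 0 (4 * b) (y, e :: l))) := by
  have hne : l ≠ [] := by
    rintro rfl
    simp at hl
    omega
  obtain ⟨l', f, rfl⟩ : ∃ l' f, l = l' ++ [f] :=
    ⟨l.dropLast, l.getLast hne, (List.dropLast_append_getLast hne).symm⟩
  have hl' : l'.length + 1 = 4 * b := by simpa using hl
  have w0 : win S.a 0 (4 * b) (y, e :: (l' ++ [f])) = (y, e :: l') := by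
    rw [win_zero, ← hl']
    simp
  have w1 : win S.a 1 (4 * b) (y, e :: (l' ++ [f])) = (st S.a y e, l' ++ [f]) := by
    rw [win_one_cons, ← hl, List.take_length]
  rw [w0] at h0 ⊢
  rw [w1] at h1 ⊢
  obtain ⟨m, n, m₁, hm, hlift⟩ := Sys.lift_exists v d
  obtain ⟨k, hk, -⟩ := Sys.lift_append.mp hlift
  have L0 : S.Lift y (e :: l') m k := ⟨m₁, hm, hk⟩
  obtain ⟨r₀, d0, c0, s0⟩ := Sys.sp_spec h0 (m := m) (n := k) L0
  obtain ⟨r₁, d1, c1, s1⟩ := Sys.sp_spec h1 (m := m₁) (n := n) hlift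
  have hmem := (Sys.mem_paths.mp (Sys.valid_mem_paths (x := (y, e :: (l' ++ [f]))) v)).2.2.1
  have hU : US (e :: (l' ++ [f])) = e.2 :: (US l' ++ [f.2]) := by simp [US]
  have hU0 : US (e :: l') = e.2 :: US l' := by simp [US]
  have hU1 : US (l' ++ [f]) = US l' ++ [f.2] := by simp [US]
  simp only [hU] at hmem
  have hf : f.2 ∈ S.Ps := hmem _ (by simp)
  have he1 : e.1 ∈ S.Ps := (S.memE _ v.1).2.1
  have he2 : e.2 ∈ S.Ps := (S.memE _ v.1).2.2
  have hpb := (Sys.prod_bounds (S := S) (U := e.2 :: US l') (fun p hp => hmem p (by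
    simp only [List.mem_cons, List.mem_append] at hp ⊢
    tauto))).1
  have hlen : (e.2 :: US l').length = 4 * b := by simp [US, hl']
  rw [hlen, List.prod_cons] at hpb
  simp only [hU0, hU1, List.prod_cons, List.prod_append, List.prod_nil, mul_one,
    Nat.cast_mul] at c0 c1 s0 s1
  set V : ℕ := (US l').prod with hV
  have hP := TransAux.P_ge S
  have hP0 : (0 : ℝ) < S.P := by linarith
  have hpb' : (S.P : ℝ) ^ (4 * b) ≤ (e.2 : ℝ) * V := by exact_mod_cast hpb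
  have p2 : (0 : ℝ) < e.2 := by exact_mod_cast (S.prime _ he2).1.pos
  have pq : (0 : ℝ) < f.2 := by exact_mod_cast (S.prime _ hf).1.pos
  have pV : (0 : ℝ) < V := by
    have : (0 : ℝ) < (e.2 : ℝ) * V := lt_of_lt_of_le (pow_pos hP0 _) hpb'
    exact (mul_pos_iff_of_pos_left p2).mp this
  have u1 : (e.1 : ℝ) ≤ 2 * S.P := by exact_mod_cast (S.prime _ he1).2.2.le
  have uq : (f.2 : ℝ) ≤ 2 * S.P := by exact_mod_cast (S.prime _ hf).2.2.le
  have hc := TransAux.close pV p2 pq (Nat.cast_nonneg e.1) u1 uq (pow_pos hP0 (4 * b)) hpb'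
    hm c0 c1
  have hnum := TransAux.numeric hP hb (Sys.eps_lt (S := S)) S.ε0
  have heq : (e.1 : ℚ) * r₀ = f.2 * r₁ := by
    refine TransAux.comb_eq d0 d1 (lt_of_le_of_lt ?_ hnum)
    push_cast
    exact mul_le_mul_of_nonneg_right hc (by positivity)
  have hkk : S.kk y e = e.2 * m₁ - e.1 * m := by
    apply TransAux.round_eq_of
    refine lt_of_le_of_lt (le_of_eq ?_) (hm.trans_lt Sys.eps_lt)
    congr 1
    push_cast
    ring
  have q2 : (e.2 : ℚ) ≠ 0 := by exact_mod_cast (S.prime _ he2).1.ne_zero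
  rw [Sys.tr, s0, s1, hkk, eq_div_iff q2]
  push_cast
  linear_combination (-(e.2 : ℚ) * V) * heq

theorem Sys.kk_near {S : Sys} {y : ℤ} {e : Lb} (h : (y, e) ∈ S.E) :
    |(e.1 : ℝ) * S.β y - e.2 * S.β (st S.a y e) - S.kk y e| ≤ S.ε := by
  obtain ⟨k, hk⟩ := S.near _ h
  exact (round_le _ k).trans hk

end Pool.Agent.P.MP_a9a441_nt.FU
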