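import Pool.Agent.P.MP_a9a441_nt.FU.MkChain
import Pool.Agent.P.MP_a9a441_nt.FU.RatP
import Pool.Agent.P.MP_a9a441_nt.FU.Trans
import Pool.Agent.P.MP_a9a441_nt.FU.Label
import Pool.Agent.P.MP_a9a441_nt.FU.Apex

/-!
The structure theorem. n = 4b, f = sp b, θ = 27 / t^97 (twice `ratP` through `Pr_win`, plus
`Pr_dist`, by `trans`). Let s come from `label`. For a path (y, e :: l) of length n + 1 outside an
event of probability ≤ θ + 2 n θ, both windows are Rt, sp (win 0) = s y, sp (win 1) = s (st y e),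
and s (st y e) = tr y e (s y); this gives all fields of `Cons` but nd1, nd2 (`sp_den`, `sp_bd`,
`kk_near`). So Pr 1 (these fields hold) ≥ 1 - (2n+1) θ ≥ 3/4 (`Pr_win 0 1 n`), and by `mu_le` the
set of such edges has at least (3/4) N π^2 / Γ^2 elements. `few_div`: q ≤ (2P)^b ≤ P^(2b) has at
most 2b prime factors ≥ P; so at most 2 * N * π * 2b edges fail nd1 or nd2 (for nd2 use the
injection e ↦ (st e, swap)), and 4 b / π ≤ 1 / (4 Γ^2).
-/

namespace Pool.Agent.P.MP_a9a441_nt.FU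

open Finset Filter Pool.Agent.Lib.LargeSieve
open scoped ComplexConjugate

theorem few_div {Ps : Finset ℕ} {P q k : ℕ} (hP : 2 ≤ P) (h : ∀ p ∈ Ps, p.Prime ∧ P ≤ p)
    (hq : 0 < q) (hk : q ≤ P ^ k) : (Ps.filter fun p => p ∣ q).card ≤ k := by
  classical
  set T := Ps.filter fun p => p ∣ q with hT
  have hdvd : ∏ p ∈ T, p ∣ q := by
    apply Finset.prod_primes_dvd
    · intro p hp
      exact (h p (Finset.mem_filter.1 hp).1).1.prime
    · intro p hp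
      exact (Finset.mem_filter.1 hp).2
  have h1 : P ^ T.card ≤ ∏ p ∈ T, p :=
    Finset.pow_card_le_prod T (fun p => p) P fun p hp => (h p (Finset.mem_filter.1 hp).1).2
  have h2 : P ^ T.card ≤ P ^ k := h1.trans ((Nat.le_of_dvd hq hdvd).trans hk)
  exact (Nat.pow_le_pow_iff_right (by omega)).1 h2

namespace ThmSAux

/-- The fields of `Cons` that come from the walk. -/
structure Gd (S : Sys) (s : ℤ → ℚ) (b : ℕ) (e : ℤ × Lb) : Prop where
  mem : e ∈ S.E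
  den1 : (s e.1).den ≤ (2 * S.P) ^ b
  den2 : (s (st S.a e.1 e.2)).den ≤ (2 * S.P) ^ b
  bd1 : |S.β e.1 - s e.1| ≤ (S.P : ℝ) ^ (2 * b)
  bd2 : |S.β (st S.a e.1 e.2) - s (st S.a e.1 e.2)| ≤ (S.P : ℝ) ^ (2 * b)
  tr : s (st S.a e.1 e.2) = S.tr e.1 e.2 (s e.1)

theorem P_two (S : Sys) : 2 ≤ S.P := by
  have h1 : 10 ^ 1 ≤ S.t ^ 1000 :=
    (Nat.pow_le_pow_right (by norm_num) (by norm_num)).trans (Nat.pow_le_pow_left S.ht 1000)
  have h2 := S.htP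
  omega

theorem Gd.rel {S : Sys} {s : ℤ → ℚ} {b : ℕ} {e : ℤ × Lb} (h : Gd S s b e) :
    (e.2.1 : ℚ) * s e.1 - e.2.2 * s (st S.a e.1 e.2) = S.kk e.1 e.2 := by
  have hp : (e.2.2 : ℚ) ≠ 0 := by
    have := (S.prime _ (S.memE e h.mem).2.2).1.ne_zero
    exact_mod_cast this
  rw [h.tr, Sys.tr]
  field_simp
  ring

theorem Gd.cons {S : Sys} {s : ℤ → ℚ} {b : ℕ} {e : ℤ × Lb} (h : Gd S s b e)
    (n1 : ¬ e.2.1 ∣ (s e.1).den) (n2 : ¬ e.2.2 ∣ (s (st S.a e.1 e.2)).den) :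
    Cons S.a S.β s ((2 * S.P) ^ b) ((S.P : ℝ) ^ (2 * b)) S.ε e := by
  refine ⟨h.den1, h.den2, h.bd1, h.bd2, ⟨_, h.rel⟩, ?_, n1, n2⟩
  have h1 := Sys.kk_near (S := S) (y := e.1) (e := e.2) h.mem
  have h2 : (e.2.1 : ℝ) * (s e.1 : ℝ) - e.2.2 * (s (st S.a e.1 e.2) : ℝ) = S.kk e.1 e.2 := by
    exact_mod_cast congrArg (fun q : ℚ => (q : ℝ)) h.rel
  have h3 : (e.2.1 : ℝ) * (S.β e.1 - s e.1) -
      e.2.2 * (S.β (st S.a e.1 e.2) - s (st S.a e.1 e.2)) =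
      (e.2.1 : ℝ) * S.β e.1 - e.2.2 * S.β (st S.a e.1 e.2) - S.kk e.1 e.2 := by
    rw [← h2]; ring
  rw [h3]; exact h1

/-- The exceptional event for paths of length `4 b + 1`. -/
def Bad (S : Sys) (b : ℕ) (x : Pth) : Prop :=
  ¬ S.Rt b (win S.a 0 (4 * b) x) ∨ ¬ S.Rt b (win S.a 1 (4 * b) x) ∨ ¬ Dist x.2

theorem win0 {S : Sys} (C : Chain S) (n : ℕ) (F : Pth → Prop) :
    C.Pr (n + 1) (fun x => F (win S.a 0 n x)) = C.Pr n F := by
  have := C.Pr_win 0 n 1 F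
  rwa [Nat.zero_add] at this

theorem win1 {S : Sys} (C : Chain S) (n : ℕ) (F : Pth → Prop) :
    C.Pr (n + 1) (fun x => F (win S.a 1 n x)) = C.Pr n F := by
  have := C.Pr_win 1 n 0 F
  rwa [Nat.add_zero, Nat.add_comm] at this

theorem winE {S : Sys} (C : Chain S) (n : ℕ) (F : Pth → Prop) :
    C.Pr (n + 1) (fun x => F (win S.a 0 1 x)) = C.Pr 1 F := by
  have := C.Pr_win 0 1 n F
  rwa [Nat.zero_add, Nat.add_comm] at this

theorem pr_bad {S : Sys} (C : Chain S) {b : ℕ} (hb : 2 ≤ b) (ht : 4 * b + 2 ≤ S.t)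
    (hN : S.N ^ 2 ≤ S.P ^ b) : C.Pr (4 * b + 1) (Bad S b) ≤ 27 / (S.t : ℝ) ^ 97 := by
  have hr := C.ratP hb ht hN
  have hd := C.Pr_dist (h := 4 * b + 1) (by omega)
  have h0 := win0 C (4 * b) (fun x => ¬ S.Rt b x)
  have h1 := win1 C (4 * b) (fun x => ¬ S.Rt b x)
  have o1 := C.Pr_or_le (4 * b + 1) (fun x => ¬ S.Rt b (win S.a 0 (4 * b) x))
    (fun x => ¬ S.Rt b (win S.a 1 (4 * b) x) ∨ ¬ Dist x.2)
  have o2 := C.Pr_or_le (4 * b + 1) (fun x => ¬ S.Rt b (win S.a 1 (4 * b) x))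
    (fun x => ¬ Dist x.2)
  have ht1 : (1 : ℝ) ≤ S.t := by
    have := S.ht
    exact_mod_cast (by omega : 1 ≤ S.t)
  have h99 : 1 / (S.t : ℝ) ^ 99 ≤ 1 / (S.t : ℝ) ^ 97 :=
    one_div_le_one_div_of_le (by positivity) (pow_le_pow_right₀ ht1 (by norm_num))
  have e1 : (27 : ℝ) / (S.t : ℝ) ^ 97 =
      13 / (S.t : ℝ) ^ 97 + (13 / (S.t : ℝ) ^ 97 + 1 / (S.t : ℝ) ^ 97) := by ring
  have e2 : C.Pr (4 * b + 1) (Bad S b) = C.Pr (4 * b + 1)
      (fun x => ¬ S.Rt b (win S.a 0 (4 * b) x) ∨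
        (¬ S.Rt b (win S.a 1 (4 * b) x) ∨ ¬ Dist x.2)) := rfl
  rw [e1, e2]
  linarith

theorem trans_of {S : Sys} {b : ℕ} (hb : 2 ≤ b) {x : Pth} (hl : x.2.length = 4 * b + 1)
    (hv : S.Valid x.1 x.2) (h : ¬ Bad S b x) :
    S.sp b (win S.a 1 (4 * b) x) =
      S.tr x.1 (x.2.headD (0, 0)) (S.sp b (win S.a 0 (4 * b) x)) := by
  obtain ⟨y, l⟩ := x
  cases l with
  | nil => simp at hl
  | cons e l =>
    simp only [Bad, not_or, not_not] at h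
    exact Sys.trans hb (by simpa using hl) hv h.2.2 h.1 h.2.1

theorem good_of {S : Sys} {b : ℕ} (hb : 2 ≤ b) {s : ℤ → ℚ} {x : Pth}
    (hl : x.2.length = 4 * b + 1) (hv : S.Valid x.1 x.2) (h : ¬ Bad S b x)
    (h0 : S.sp b (win S.a 0 (4 * b) x) = s (win S.a 0 (4 * b) x).1)
    (h1 : S.sp b (win S.a 1 (4 * b) x) = s (win S.a 1 (4 * b) x).1) :
    Gd S s b ((win S.a 0 1 x).1, (win S.a 0 1 x).2.headD (0, 0)) := by
  have ht := trans_of hb hl hv h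
  obtain ⟨y, l⟩ := x
  cases l with
  | nil => simp at hl
  | cons e l =>
    simp only [Bad, not_or, not_not] at h
    have a0 : (win S.a 0 (4 * b) (y, e :: l)).1 = y := by rw [win_zero]
    have a1 : (win S.a 1 (4 * b) (y, e :: l)).1 = st S.a y e := by rw [win_one_cons]
    have a2 : ((win S.a 0 1 (y, e :: l)).1, (win S.a 0 1 (y, e :: l)).2.headD (0, 0)) =
        (y, e) := by
      rw [win_zero]; simp
    rw [a2]
    have d0 := Sys.sp_den h.1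
    have d1 := Sys.sp_den h.2.1
    have b0 := Sys.sp_bd (by omega : 1 ≤ b) h.1
    have b1 := Sys.sp_bd (by omega : 1 ≤ b) h.2.1
    rw [h0, h1] at ht
    rw [h0] at d0 b0
    rw [h1] at d1 b1
    rw [a0] at d0 b0 ht
    rw [a1] at d1 b1 ht
    exact ⟨hv.1, d0, d1, b0, b1, ht⟩

open Classical in
theorem pr_le_card {S : Sys} (C : Chain S) (F : ℤ × Lb → Prop) (hF : ∀ e, F e → e ∈ S.E) :
    C.Pr 1 (fun x => F (x.1, x.2.headD (0, 0))) ≤
      (S.E.filter F).card * (C.Γ ^ 2 / (S.N * (S.Ps.card : ℝ) ^ 2)) := by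
  unfold Chain.Pr
  have hlen : ∀ x ∈ (S.paths 1).filter (fun x => F (x.1, x.2.headD (0, 0))),
      x.2.length = 1 := fun x hx => (Sys.mem_paths.1 (Finset.mem_filter.1 hx).1).2.1
  have h1 : ∀ x ∈ (S.paths 1).filter (fun x => F (x.1, x.2.headD (0, 0))),
      C.μ x ≤ C.Γ ^ 2 / (S.N * (S.Ps.card : ℝ) ^ 2) := by
    intro x hx
    have := C.mu_le x
    rwa [hlen x hx] at this
  have h2 := Finset.sum_le_card_nsmul _ _ _ h1
  rw [nsmul_eq_mul] at h2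
  refine h2.trans (mul_le_mul_of_nonneg_right ?_ (by positivity))
  have h3 : ((S.paths 1).filter (fun x => F (x.1, x.2.headD (0, 0)))).card ≤
      (S.E.filter F).card := by
    apply Finset.card_le_card_of_injOn (fun x : Pth => (x.1, x.2.headD (0, 0)))
    · intro x hx
      have hx' := (Finset.mem_filter.1 (Finset.mem_coe.1 hx)).2
      exact Finset.mem_coe.2 (Finset.mem_filter.2 ⟨hF _ hx', hx'⟩)
    · intro x hx x' hx' hxx
      obtain ⟨e, he⟩ := List.length_eq_one_iff.1 (hlen x (Finset.mem_coe.1 hx))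
      obtain ⟨e', he'⟩ := List.length_eq_one_iff.1 (hlen x' (Finset.mem_coe.1 hx'))
      simp only [he, he', List.headD_cons, Prod.mk.injEq] at hxx
      exact Prod.ext hxx.1 (by rw [he, he', hxx.2])
  exact_mod_cast h3

open Classical in
theorem card_div1 (S : Sys) (s : ℤ → ℚ) (b : ℕ) :
    (S.E.filter fun e => (s e.1).den ≤ (2 * S.P) ^ b ∧ e.2.1 ∣ (s e.1).den).card ≤
      S.N * (2 * b * S.Ps.card) := by
  have hP := P_two S
  have hsub : (S.E.filter fun e => (s e.1).den ≤ (2 * S.P) ^ b ∧ e.2.1 ∣ (s e.1).den) ⊆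
      (S.Y.filter fun y => (s y).den ≤ (2 * S.P) ^ b).biUnion
        fun y => ({y} : Finset ℤ) ×ˢ ((S.Ps.filter fun p => p ∣ (s y).den) ×ˢ S.Ps) := by
    intro e he
    obtain ⟨he1, he2, he3⟩ := Finset.mem_filter.1 he
    obtain ⟨m1, m2, m3⟩ := S.memE e he1
    refine Finset.mem_biUnion.2 ⟨e.1, Finset.mem_filter.2 ⟨m1, he2⟩, ?_⟩
    exact Finset.mem_product.2 ⟨Finset.mem_singleton_self _,
      Finset.mem_product.2 ⟨Finset.mem_filter.2 ⟨m2, he3⟩, m3⟩⟩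
  refine (Finset.card_le_card hsub).trans ?_
  refine (Finset.card_biUnion_le_card_mul _ _ (2 * b * S.Ps.card) ?_).trans ?_
  · intro y hy
    have hy2 := (Finset.mem_filter.1 hy).2
    rw [Finset.card_product, Finset.card_product, Finset.card_singleton, one_mul]
    apply Nat.mul_le_mul_right
    refine few_div hP (fun p hp => ⟨(S.prime p hp).1, (S.prime p hp).2.1⟩) (s y).den_pos
      (hy2.trans ?_)
    rw [pow_mul]
    apply Nat.pow_le_pow_left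
    rw [pow_two]
    exact Nat.mul_le_mul_right _ hP
  · apply Nat.mul_le_mul_right
    exact (Finset.card_filter_le _ _).trans Sys.card_Y.le

open Classical in
theorem card_div2 (S : Sys) (s : ℤ → ℚ) (b : ℕ) :
    (S.E.filter fun e => (s (st S.a e.1 e.2)).den ≤ (2 * S.P) ^ b ∧
      e.2.2 ∣ (s (st S.a e.1 e.2)).den).card ≤ S.N * (2 * b * S.Ps.card) := by
  refine le_trans ?_ (card_div1 S s b)
  apply Finset.card_le_card_of_injOn (fun e : ℤ × Lb => (st S.a e.1 e.2, e.2.swap))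
  · intro e he
    obtain ⟨he1, he2⟩ := Finset.mem_filter.1 (Finset.mem_coe.1 he)
    exact Finset.mem_coe.2 (Finset.mem_filter.2 ⟨S.symm e he1, he2⟩)
  · intro e _ e' _ h
    simp only [Prod.mk.injEq] at h
    have h2 : e.2 = e'.2 := Prod.swap_injective h.2
    have h1 : e.1 = e'.1 := by
      have a1 := st_swap (a := S.a) e.1 e.2
      have a2 := st_swap (a := S.a) e'.1 e'.2
      rw [← a1, ← a2, h.1, h2]
    exact Prod.ext h1 h2

theorem num1 (S : Sys) {b : ℕ} (ht : 4 * b + 2 ≤ S.t) :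
    (2 * ((4 * b : ℕ) : ℝ) + 1) * (27 / (S.t : ℝ) ^ 97) ≤ 1 / 4 := by
  have h10 : (10 : ℝ) ≤ S.t := by exact_mod_cast S.ht
  have hb : ((4 * b : ℕ) : ℝ) + 2 ≤ S.t := by exact_mod_cast ht
  have h1 : (S.t : ℝ) ^ 4 ≤ (S.t : ℝ) ^ 97 := pow_le_pow_right₀ (by linarith) (by norm_num)
  have h2 : (10 : ℝ) ^ 3 ≤ (S.t : ℝ) ^ 3 := pow_le_pow_left₀ (by norm_num) h10 3
  have h3 : 1000 * (S.t : ℝ) ≤ (S.t : ℝ) ^ 4 := by nlinarith
  have hpos : (0 : ℝ) < (S.t : ℝ) ^ 97 := by positivity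
  rw [← mul_div_assoc, div_le_div_iff₀ hpos (by norm_num)]
  linarith

theorem num2 (S : Sys) {Γ : ℝ} (h1 : 1 ≤ Γ) (hΓ : Γ ≤ S.t) {b : ℕ} (ht : 4 * b + 2 ≤ S.t) :
    16 * (b : ℝ) * Γ ^ 2 ≤ S.Ps.card := by
  have htN := S.ht
  have a1 : 2 * S.t ^ 4 ≤ S.t ^ 5 := by
    rw [pow_succ _ 4, mul_comm]
    exact Nat.mul_le_mul_left _ (by omega)
  have a2 : S.t ^ 5 ≤ S.t ^ 1000 := Nat.pow_le_pow_right (by omega) (by norm_num)
  have a3 : S.t * (4 * S.t ^ 3) ≤ S.t * S.Ps.card := by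
    have := S.hπ
    have := S.htP
    have e : S.t * (4 * S.t ^ 3) = 2 * (2 * S.t ^ 4) := by ring
    omega
  have a4 : 4 * S.t ^ 3 ≤ S.Ps.card := Nat.le_of_mul_le_mul_left a3 (by omega)
  have a5 : 4 * (S.t : ℝ) ^ 3 ≤ S.Ps.card := by exact_mod_cast a4
  have hb : 4 * (b : ℝ) + 2 ≤ S.t := by exact_mod_cast ht
  have hb0 : (0 : ℝ) ≤ b := Nat.cast_nonneg b
  have g2 : Γ ^ 2 ≤ (S.t : ℝ) ^ 2 := pow_le_pow_left₀ (by linarith) hΓ 2
  have g3 : 16 * (b : ℝ) * Γ ^ 2 ≤ (4 * S.t) * (S.t : ℝ) ^ 2 :=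
    mul_le_mul (by linarith) g2 (by positivity) (by linarith)
  nlinarith

end ThmSAux

theorem thmS (S : Sys) {Γ : ℝ} (h1 : 1 ≤ Γ) (hΓ : Γ ≤ S.t)
    (hE : 4 / Γ * S.N * (S.Ps.card : ℝ) ^ 2 ≤ S.E.card) {b : ℕ} (hb : 2 ≤ b)
    (ht : 4 * b + 2 ≤ S.t) (hN : S.N ^ 2 ≤ S.P ^ b) :
    ∃ (s : ℤ → ℚ) (E' : Finset (ℤ × Lb)), E' ⊆ S.E ∧
      S.N * (S.Ps.card : ℝ) ^ 2 / (2 * Γ ^ 2) ≤ E'.card ∧
      ∀ e ∈ E', Cons S.a S.β s ((2 * S.P) ^ b) ((S.P : ℝ) ^ (2 * b)) S.ε e := by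
  classical
  obtain ⟨C, hC⟩ := exists_chain S h1 hΓ hE
  have hbad := ThmSAux.pr_bad C hb ht hN
  set θ : ℝ := 27 / (S.t : ℝ) ^ 97 with hθ
  have htr : C.Pr (4 * b + 1) (fun x => S.sp b (win S.a 1 (4 * b) x) ≠
      S.tr x.1 (x.2.headD (0, 0)) (S.sp b (win S.a 0 (4 * b) x))) ≤ θ := by
    refine le_trans (C.Pr_mono ?_) hbad
    intro x hl hv hx
    by_contra hn
    exact hx (ThmSAux.trans_of hb hl hv hn)
  obtain ⟨s, hs⟩ := C.label (4 * b) (S.sp b) S.tr θ htr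
  have w0 := ThmSAux.win0 C (4 * b) (fun x => S.sp b x ≠ s x.1)
  have w1 := ThmSAux.win1 C (4 * b) (fun x => S.sp b x ≠ s x.1)
  have wE := ThmSAux.winE C (4 * b)
    (fun x => ¬ ThmSAux.Gd S s b (x.1, x.2.headD (0, 0)))
  have o1 := C.Pr_or_le (4 * b + 1) (ThmSAux.Bad S b)
    (fun x => S.sp b (win S.a 0 (4 * b) x) ≠ s (win S.a 0 (4 * b) x).1 ∨
      S.sp b (win S.a 1 (4 * b) x) ≠ s (win S.a 1 (4 * b) x).1)
  have o2 := C.Pr_or_le (4 * b + 1)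
    (fun x => S.sp b (win S.a 0 (4 * b) x) ≠ s (win S.a 0 (4 * b) x).1)
    (fun x => S.sp b (win S.a 1 (4 * b) x) ≠ s (win S.a 1 (4 * b) x).1)
  have hm : C.Pr (4 * b + 1) (fun x => ¬ ThmSAux.Gd S s b
      ((win S.a 0 1 x).1, (win S.a 0 1 x).2.headD (0, 0))) ≤
      C.Pr (4 * b + 1) (fun x => ThmSAux.Bad S b x ∨
        (S.sp b (win S.a 0 (4 * b) x) ≠ s (win S.a 0 (4 * b) x).1 ∨
          S.sp b (win S.a 1 (4 * b) x) ≠ s (win S.a 1 (4 * b) x).1)) := by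
    apply C.Pr_mono
    intro x hl hv hx
    by_contra hn
    simp only [not_or, not_not] at hn
    exact hx (ThmSAux.good_of hb hl hv hn.1 hn.2.1 hn.2.2)
  have hn1 := ThmSAux.num1 S ht
  have hnot := C.Pr_not 1 (fun x => ThmSAux.Gd S s b (x.1, x.2.headD (0, 0)))
  have h34 : 3 / 4 ≤ C.Pr 1 (fun x => ThmSAux.Gd S s b (x.1, x.2.headD (0, 0))) := by
    rw [← hθ] at hn1
    linarith
  have hcard := ThmSAux.pr_le_card C (ThmSAux.Gd S s b) fun e he => he.mem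
  rw [hC] at hcard
  have c1 := ThmSAux.card_div1 S s b
  have c2 := ThmSAux.card_div2 S s b
  refine ⟨s, S.E.filter fun e => ThmSAux.Gd S s b e ∧ ¬ e.2.1 ∣ (s e.1).den ∧
    ¬ e.2.2 ∣ (s (st S.a e.1 e.2)).den, Finset.filter_subset _ _, ?_, ?_⟩
  · have hsub : S.E.filter (ThmSAux.Gd S s b) ⊆
        (S.E.filter fun e => ThmSAux.Gd S s b e ∧ ¬ e.2.1 ∣ (s e.1).den ∧
          ¬ e.2.2 ∣ (s (st S.a e.1 e.2)).den) ∪
        ((S.E.filter fun e => (s e.1).den ≤ (2 * S.P) ^ b ∧ e.2.1 ∣ (s e.1).den) ∪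
          (S.E.filter fun e => (s (st S.a e.1 e.2)).den ≤ (2 * S.P) ^ b ∧
            e.2.2 ∣ (s (st S.a e.1 e.2)).den)) := by
      intro e he
      obtain ⟨he1, he2⟩ := Finset.mem_filter.1 he
      simp only [Finset.mem_union, Finset.mem_filter]
      by_cases n1 : e.2.1 ∣ (s e.1).den
      · exact Or.inr (Or.inl ⟨he1, he2.den1, n1⟩)
      by_cases n2 : e.2.2 ∣ (s (st S.a e.1 e.2)).den
      · exact Or.inr (Or.inr ⟨he1, he2.den2, n2⟩)
      exact Or.inl ⟨he1, he2, n1, n2⟩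
    have k1 := (Finset.card_le_card hsub).trans ((Finset.card_union_le _ _).trans
      (Nat.add_le_add_left ((Finset.card_union_le _ _).trans (Nat.add_le_add c1 c2)) _))
    have k2 : ((S.E.filter (ThmSAux.Gd S s b)).card : ℝ) ≤
        ((S.E.filter fun e => ThmSAux.Gd S s b e ∧ ¬ e.2.1 ∣ (s e.1).den ∧
          ¬ e.2.2 ∣ (s (st S.a e.1 e.2)).den).card : ℝ) +
        (S.N * (2 * b * S.Ps.card) + S.N * (2 * b * S.Ps.card)) := by
      exact_mod_cast k1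
    have hn2 := ThmSAux.num2 S h1 hΓ ht
    have hN0 : (0 : ℝ) < S.N := by
      have := S.hN
      exact_mod_cast (by omega : 0 < S.N)
    have hπ0 : (0 : ℝ) < S.Ps.card := by exact_mod_cast (Sys.card_pos (S := S))
    have hΓ0 : 0 < Γ := by linarith
    have k3 : 3 / 4 * (S.N * (S.Ps.card : ℝ) ^ 2) ≤
        ((S.E.filter (ThmSAux.Gd S s b)).card : ℝ) * Γ ^ 2 := by
      have := h34.trans hcard
      rwa [← mul_div_assoc, le_div_iff₀ (by positivity)] at this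
    have k4 : (S.N * (2 * b * S.Ps.card) + S.N * (2 * b * S.Ps.card) : ℝ) * Γ ^ 2 ≤
        1 / 4 * (S.N * (S.Ps.card : ℝ) ^ 2) := by
      have := mul_le_mul_of_nonneg_left hn2 (mul_pos hN0 hπ0).le
      nlinarith
    have k5 := mul_le_mul_of_nonneg_right k2 (sq_nonneg Γ)
    rw [div_le_iff₀ (by positivity)]
    nlinarith
  · intro e he
    obtain ⟨_, g, n1, n2⟩ := Finset.mem_filter.1 he
    exact g.cons n1 n2

end Pool.Agent.P.MP_a9a441_nt.FU
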