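import Pool.Agent.P.MP_a9a441_nt.FU.Sum
import Pool.Agent.P.MP_a9a441_nt.FU.Edges
import Pool.Agent.P.MP_a9a441_nt.FU.ThmS
import Pool.Agent.P.MP_a9a441_nt.FU.TK
import Pool.Agent.P.MP_a9a441_nt.FU.GX
import Pool.Agent.P.MP_a9a441_nt.FU.Num

/-!
Assembly of the core statement.
-/

namespace Pool.Agent.P.MP_a9a441_nt.FU

open Finset Filter Pool.Agent.Lib.LargeSieve
open scoped ComplexConjugate

namespace KAux

theorem Cons.mono {a : ℕ → ℤ} {β : ℤ → ℝ} {s : ℤ → ℚ} {Q Q' : ℕ} {B B' ε : ℝ} {e : ℤ × Lb}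
    (h : Cons a β s Q B ε e) (hQ : Q ≤ Q') (hB : B ≤ B') : Cons a β s Q' B' ε e :=
  ⟨h.den1.trans hQ, h.den2.trans hQ, h.bd1.trans hB, h.bd2.trans hB, h.int, h.near, h.nd1, h.nd2⟩

/-- The deterministic core. -/
theorem core (Q : Par) (β : ℤ → ℝ) (S0 : Finset ℤ) {s t b : ℕ} {θ : ℝ} (hs : s ≤ Q.ρ ^ 2)
    (hρ : 128 / Q.δ ≤ Q.ρ) (hPh : (2 ^ Q.j) ^ 10 ≤ Q.h) (hPδ : 288 / Q.δ ^ 2 ≤ 2 ^ Q.j)
    (ht : 10 ≤ t) (htP : t ^ 1000 ≤ 2 ^ Q.j) (hπ : 2 * 2 ^ Q.j ≤ t * (Pj Q.j).card)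
    (hΓ : 2304 / Q.δ ^ 4 ≤ t) (hb : 2 ≤ b) (hbt : 4 * b + 2 ≤ t) (hXb : Q.X ^ 2 ≤ (2 ^ Q.j) ^ b)
    (hbX : (2 ^ Q.j) ^ (2 * b) ≤ Q.X ^ 5) (hS : S0 ⊆ Ico Q.y0 (Q.y0 + Q.N))
    (hc : Q.δ * Q.N ≤ S0.card)
    (h1 : ∀ y ∈ S0, Q.δ * (xx Q.η (y - s) * (Q.ρ ^ 2 * Q.η)) ≤
      ‖Sm (xx Q.η (y - s)) (Q.ρ ^ 2 * Q.η) (β y)‖)
    (h2 : ∀ y ∈ S0, Q.δ * (xx Q.η y * (Q.ρ * Q.η)) ≤ ‖Sm (xx Q.η y) (Q.ρ * Q.η) (β y)‖)
    (hθ : 0 ≤ θ) (hθδ : θ ^ 2 ≤ Q.δ ^ 3 / 32)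
    (hd : ∑ p ∈ Pj Q.j, ∑ y ∈ Ico Q.y0 (Q.y0 + Q.N),
      (dTK (xx Q.η (y - s)) (Q.ρ ^ 2 * Q.η) (β y) p ^ 2 +
        dTK (xx Q.η y) (Q.ρ * Q.η) (β y) p ^ 2) ≤ θ ^ 2 * Q.N * (Pj Q.j).card) :
    Q.δ / (32 * (2304 / Q.δ ^ 4) ^ 2) ≤ 133 * (θ + 4 * Q.ε₆ + Q.ε₇) := by
  have δ0 := Q.δ0
  have δ1 := Q.δ1
  have hX : (10 : ℝ) ≤ Q.X := by exact_mod_cast Q.hX
  have hh : (1 : ℝ) ≤ Q.h := by exact_mod_cast Q.hh
  have hρ' : (88 : ℝ) ≤ Q.ρ := by exact_mod_cast Q.hρ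
  have hη : 0 < Q.η := by unfold Par.η; positivity
  have hη0 : (Q.ρ : ℝ) ^ 2 * Q.η ≤ 1 / 10 := Q.η0
  have hN : 1 ≤ (Q.N : ℝ) * Q.η := Q.hN
  have hXη : (Q.X : ℝ) * Q.η = Q.h := by unfold Par.η; field_simp
  have hP1 : (1 : ℝ) ≤ 2 ^ Q.j := one_le_pow₀ (by norm_num)
  have hPh' : ((2 : ℝ) ^ Q.j) ^ 10 ≤ Q.h := by exact_mod_cast hPh
  have hπ0 : (0 : ℝ) < (Pj Q.j).card := by exact_mod_cast Q.ne.card_pos
  have hN0 : (0 : ℝ) < Q.N := by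
    rcases Nat.eq_zero_or_pos Q.N with h | h
    · rw [h] at hN; norm_num at hN
    · exact_mod_cast h
  have hρ1 : (1 : ℝ) ≤ (Q.ρ : ℝ) ^ 2 := one_le_pow₀ (by linarith)
  have hρ2 : (Q.ρ : ℝ) ≤ (Q.ρ : ℝ) ^ 2 := by nlinarith
  have hcast : ((Q.ρ ^ 2 : ℕ) : ℝ) = (Q.ρ : ℝ) ^ 2 := by push_cast; ring
  have hδ2 : Q.δ ^ 2 ≤ Q.δ := by nlinarith
  have hP288 : 288 ≤ Q.δ ^ 2 * 2 ^ Q.j := by
    rw [div_le_iff₀ (by positivity)] at hPδ; linarith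
  have hP2 : ((2 : ℝ) ^ Q.j) ^ 2 ≤ Q.h :=
    (pow_le_pow_right₀ hP1 (by norm_num)).trans hPh'
  rw [sum_comm] at hd
  have hd1 : ∑ y ∈ Ico Q.y0 (Q.y0 + Q.N), ∑ p ∈ Pj Q.j,
      dTK (xx Q.η (y - s)) (Q.ρ ^ 2 * Q.η) (β y) p ^ 2 ≤ θ ^ 2 * Q.N * (Pj Q.j).card :=
    le_trans (sum_le_sum fun y _ => sum_le_sum fun p _ => le_add_of_nonneg_right (sq_nonneg _)) hd
  have hd2 : ∑ y ∈ Ico Q.y0 (Q.y0 + Q.N), ∑ p ∈ Pj Q.j,
      dTK (xx Q.η y) (Q.ρ * Q.η) (β y) p ^ 2 ≤ θ ^ 2 * Q.N * (Pj Q.j).card :=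
    le_trans (sum_le_sum fun y _ => sum_le_sum fun p _ => le_add_of_nonneg_left (sq_nonneg _)) hd
  obtain ⟨E, hEc, hE⟩ := edges (X := Q.X) (η := Q.η) (δ := Q.δ) (R := Q.ρ ^ 2) (s := s)
    (N := Q.N) (j := Q.j) (y0 := Q.y0) β S0 (by linarith) hη (by nlinarith)
    (by rw [hcast]; linarith) hs δ0 δ1 (by rw [hcast]; linarith)
    (by
      rw [hcast, show (Q.X : ℝ) * (Q.ρ ^ 2 * Q.η) = Q.ρ ^ 2 * (Q.X * Q.η) by ring, hXη]
      have h3 : (192 : ℝ) ≤ Q.δ * 2 ^ Q.j := by nlinarith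
      have h4 : (Q.h : ℝ) ≤ Q.ρ ^ 2 * Q.h := le_mul_of_one_le_left (by linarith) hρ1
      calc (192 : ℝ) * 2 ^ Q.j ≤ Q.δ * 2 ^ Q.j * 2 ^ Q.j := by gcongr
        _ = Q.δ * (2 ^ Q.j) ^ 2 := by ring
        _ ≤ _ := by gcongr; linarith)
    (fun y hy => (Q.hY y hy).1) hN hS hc (by rw [hcast]; exact h1)
    (by
      rw [hcast]
      refine hd1.trans ?_
      gcongr)
  rw [hcast] at hE
  have hεP : 288 / Q.δ ^ 2 * 2 ^ Q.j / (Q.X * (Q.ρ ^ 2 * Q.η)) * ((2 ^ Q.j : ℕ) : ℝ) ^ 8 ≤ 1 := by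
    rw [show (Q.X : ℝ) * (Q.ρ ^ 2 * Q.η) = Q.ρ ^ 2 * (Q.X * Q.η) by ring, hXη, div_mul_eq_mul_div,
      div_le_one (by positivity)]
    push_cast
    have h4 : (Q.h : ℝ) ≤ Q.ρ ^ 2 * Q.h := le_mul_of_one_le_left (by linarith) hρ1
    calc 288 / Q.δ ^ 2 * 2 ^ Q.j * ((2 : ℝ) ^ Q.j) ^ 8 ≤ 2 ^ Q.j * 2 ^ Q.j * ((2 : ℝ) ^ Q.j) ^ 8 := by
          gcongr
      _ = ((2 : ℝ) ^ Q.j) ^ 10 := by ring
      _ ≤ _ := hPh'.trans h4
  let S : Sys :=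
    { a := ap Q.η, Ps := Pj Q.j, P := 2 ^ Q.j, t := t, N := Q.N, y0 := Q.y0
      a0 := ap Q.η (2 ^ Q.j), β := β
      ε := 288 / Q.δ ^ 2 * 2 ^ Q.j / (Q.X * (Q.ρ ^ 2 * Q.η)), E := E
      prime := fun p hp => mem_Pj.1 hp
      ha := fun p hp => ap_range hη hN hp
      ht := ht, htP := htP, hπ := hπ, hN := by exact_mod_cast hN0
      ε0 := by positivity
      εP := hεP
      memE := fun e he => ⟨hS (hE e he).1, (hE e he).2.1, (hE e he).2.2.1⟩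
      near := fun e he => (hE e he).2.2.2.2
      symm := fun e he => (hE e he).2.2.2.1 }
  have hΓ1 : (1 : ℝ) ≤ 2304 / Q.δ ^ 4 := by
    rw [le_div_iff₀ (by positivity)]
    have : Q.δ ^ 4 ≤ 1 := pow_le_one₀ δ0.le δ1
    linarith
  have hNX : Q.N ≤ Q.X := by
    have h3 := Q.N_le
    have h4 : (2 : ℝ) ≤ Q.h := by nlinarith
    have h5 : (Q.N : ℝ) * Q.h ≤ 2 * Q.X := by
      rw [← hXη]
      calc (Q.N : ℝ) * (Q.X * Q.η) = Q.X * (Q.N * Q.η) := by ring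
        _ ≤ Q.X * 2 := by gcongr
        _ = _ := by ring
    have h6 : (Q.N : ℝ) ≤ Q.X := by nlinarith
    exact_mod_cast h6
  obtain ⟨lab, E', hsub, hE'c, hE'⟩ := thmS S hΓ1 hΓ
    (by
      refine le_trans (le_of_eq ?_) hEc
      simp only [S]
      field_simp
      norm_num) hb hbt ((Nat.pow_le_pow_left hNX 2).trans hXb)
  have hP2' : 2 ≤ 2 ^ Q.j := by
    have : (2 : ℝ) ≤ 2 ^ Q.j := by nlinarith
    exact_mod_cast this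
  have hQ5 : (2 * 2 ^ Q.j) ^ b ≤ Q.X ^ 5 := by
    refine le_trans ?_ hbX
    rw [pow_mul]
    exact Nat.pow_le_pow_left (by nlinarith) b
  have hB7 : (((2 ^ Q.j : ℕ) : ℝ)) ^ (2 * b) ≤ (Q.X : ℝ) ^ 7 := by
    have h3 : (((2 ^ Q.j : ℕ) : ℝ)) ^ (2 * b) ≤ (Q.X : ℝ) ^ 5 := by exact_mod_cast hbX
    exact h3.trans (pow_le_pow_right₀ (by linarith) (by norm_num))
  have key := sum_cl Q β lab S0 hS h2 hθ hd2 E' fun e he => by
    have h3 := hE e (hsub he)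
    exact ⟨h3.1, (hE _ h3.2.2.2.1).1, h3.2.1, h3.2.2.1, Cons.mono (hE' e he) hQ5 hB7⟩
  have h3 : Q.δ / (32 * (2304 / Q.δ ^ 4) ^ 2) * Q.N ≤
      Q.δ / 16 * E'.card / ((Pj Q.j).card : ℝ) ^ 2 := by
    rw [le_div_iff₀ (by positivity)]
    calc _ = Q.δ / 16 * (Q.N * ((Pj Q.j).card : ℝ) ^ 2 / (2 * (2304 / Q.δ ^ 4) ^ 2)) := by
          field_simp
          norm_num
      _ ≤ _ := by gcongr
  exact le_of_mul_le_mul_right (h3.trans key) hN0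

/-- The averaged Turan-Kubilius bound. -/
theorem tk_avg {X η : ℝ} {ρ s N i₀ i₁ : ℕ} {y0 : ℤ} (β : ℤ → ℝ) (hη : 0 < η) (hρ : 2 ≤ ρ)
    (hη0 : (ρ : ℝ) ^ 2 * η ≤ 1 / 10) (hs : s ≤ ρ ^ 2) (hi : 1 ≤ i₁)
    (hY : ∀ y ∈ Ico y0 (y0 + N), X ≤ xx η y) (hB : ((2 : ℝ) ^ i₁) ^ 2 ≤ X * η) :
    ∑ j ∈ Ico i₀ i₁, ∑ p ∈ Pj j, (∑ y ∈ Ico y0 (y0 + N),
      (dTK (xx η (y - s)) (ρ ^ 2 * η) (β y) p ^ 2 + dTK (xx η y) (ρ * η) (β y) p ^ 2)) / p ≤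
      42 * N := by
  have hρ' : (2 : ℝ) ≤ ρ := by exact_mod_cast hρ
  have hXη : 0 ≤ X * η := le_trans (by positivity) hB
  have hB2 : 2 ≤ 2 ^ i₁ := by
    calc 2 = 2 ^ 1 := by norm_num
      _ ≤ 2 ^ i₁ := Nat.pow_le_pow_right (by norm_num) hi
  have hQ : ∀ p ∈ (Ico (2 ^ i₀) (2 ^ i₁)).filter Nat.Prime, p.Prime ∧ p ≤ 2 ^ i₁ := fun p hp =>
    ⟨(mem_filter.1 hp).2, (mem_Ico.1 (mem_filter.1 hp).1).2.le⟩
  rw [sum_Pj_eq]
  simp only [sum_div, add_div]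
  rw [sum_comm]
  refine (sum_le_card_nsmul _ _ 42 fun y hy => ?_).trans (by simp [mul_comm])
  have hx := hY y hy
  have hρη : (ρ : ℝ) * η ≤ ρ ^ 2 * η := by gcongr; nlinarith
  have e1 : xx η (y - s) = xx η y * Real.exp (η * ((-(s : ℤ) : ℤ) : ℝ)) := by
    rw [sub_eq_add_neg, xx_add]
  have hs' : (s : ℝ) ≤ ρ ^ 2 := by exact_mod_cast hs
  have e2 : (1 : ℝ) / 2 ≤ Real.exp (η * ((-(s : ℤ) : ℤ) : ℝ)) := by
    refine le_trans ?_ (Real.add_one_le_exp _)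
    push_cast
    nlinarith
  have h1 := tk (xx_pos η (y - s)) (θ := ρ ^ 2 * η) (by positivity) (by linarith) (β y) hB2 hQ (by
    push_cast
    refine hB.trans ?_
    have h3 : X * η ≤ xx η y * η := by gcongr
    have h4 : 0 < xx η y * η := mul_pos (xx_pos η y) hη
    have h5 : (1 : ℝ) ≤ Real.exp (η * ((-(s : ℤ) : ℤ) : ℝ)) * ρ ^ 2 := by nlinarith
    rw [e1]
    calc X * η ≤ xx η y * η * 1 := by linarith
      _ ≤ xx η y * η * (Real.exp (η * ((-(s : ℤ) : ℤ) : ℝ)) * ρ ^ 2) := by gcongr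
      _ = _ := by ring)
  have h2 := tk (xx_pos η y) (θ := ρ * η) (by positivity) (by linarith) (β y) hB2 hQ (by
    push_cast
    refine hB.trans ?_
    have h3 : X * η ≤ xx η y * η := by gcongr
    have h4 : 0 < xx η y * η := mul_pos (xx_pos η y) hη
    nlinarith)
  rw [sum_add_distrib]
  linarith

end KAux

open KAux in
theorem propK {δ : ℝ} (δ0 : 0 < δ) (δ1 : δ ≤ 1) :
    ∃ A ρ : ℕ, 1 ≤ A ∧ 100 / δ ≤ ρ ∧ PropK δ A ρ := by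
  set e : ℝ := δ / (32 * (2304 / δ ^ 4) ^ 2) / (133 * 8) with he
  have e0 : 0 < e := by positivity
  set θ : ℝ := min e (δ ^ 2 / 6) with hθ
  have θ0 : 0 < θ := lt_min e0 (by positivity)
  have θe : θ ≤ e := min_le_left _ _
  have θδ : θ ^ 2 ≤ δ ^ 3 / 32 := by
    have h1 : θ ^ 2 ≤ (δ ^ 2 / 6) ^ 2 := pow_le_pow_left₀ θ0.le (min_le_right _ _) 2
    have h2 : δ ^ 4 ≤ δ ^ 3 := pow_le_pow_of_le_one δ0.le δ1 (by norm_num)
    have h3 : 0 < δ ^ 3 := by positivity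
    nlinarith
  obtain ⟨κ, hκ, hsc⟩ := scale θ0
  obtain ⟨G, γ, G1, γ0, γ1, hgx⟩ := gx (ε₆ := e / 4) (by positivity)
  set c : ℝ := min 1 (e / (12 * G)) with hc
  have c0 : 0 < c := lt_min one_pos (by positivity)
  have c1 : c ≤ 1 := min_le_left _ _
  have cG : 12 * c * G ≤ e := by
    have h1 : c ≤ e / (12 * G) := min_le_right _ _
    rw [le_div_iff₀ (by positivity)] at h1
    linarith
  obtain ⟨ρ, hρ⟩ := exists_nat_ge (4000 * (12 * (2304 / δ ^ 2) + 22) / δ)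
  have hδ2 : δ ^ 2 ≤ 1 := pow_le_one₀ δ0.le δ1
  have hρ0 : 4000 * (12 * (2304 / δ ^ 2) + 22) ≤ ρ * δ := by rwa [div_le_iff₀ δ0] at hρ
  have hq : (0 : ℝ) < 2304 / δ ^ 2 := by positivity
  have hρ128 : 128 / δ ≤ ρ := by rw [div_le_iff₀ δ0]; linarith
  have hρ100 : 100 / δ ≤ ρ := by rw [div_le_iff₀ δ0]; linarith
  have hρ88 : (88 : ℝ) ≤ ρ := by
    have : (0 : ℝ) ≤ ρ := Nat.cast_nonneg _
    nlinarith
  obtain ⟨A', hA'⟩ := exists_nat_ge (max 1001 (40 / γ))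
  have hA1 : 1001 ≤ A' := by exact_mod_cast (le_max_left _ _).trans hA'
  have hA2 : 40 / γ ≤ A' := (le_max_right _ _).trans hA'
  obtain ⟨B₁, hB₁⟩ := eventually_atTop.1 (hsc.and pc)
  obtain ⟨B₂, hB₂⟩ := exists_nat_ge (16000 / δ ^ 4)
  refine ⟨10 * κ * (A' + 1), ρ, by nlinarith, hρ100, ?_⟩
  set A := 10 * κ * (A' + 1) with hA
  have hρpos : (0 : ℝ) < ρ := by linarith
  filter_upwards [num_scale κ (B₁ + B₂ + 22) hκ hA1, num_b, num_r γ0 c0 hA2,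
    num_pow A (ε := δ / (16000 * ρ ^ 2)) (by positivity), num_Z (G := G) γ0 γ1 c0 e0,
    hgx e e0, eventually_ge_atTop 10, eventually_ge_atTop B₂,
    num_pow 1 (ε := 1 / 8) (by norm_num)] with X h1 h2 h3 h4 h5 h6 hX hXB hl
  intro h s N y0 β S0 hh1 hh2 hs hY hN hS hb1 hb2
  by_contra hcon
  obtain ⟨j₁, t, hj₁, ht, hLt, hLj, htj, hκt, hPA⟩ := h1
  have hX' : (10 : ℝ) ≤ X := by exact_mod_cast hX
  have hX0 : (0 : ℝ) < X := by linarith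
  have hP₂ : ((2 : ℝ) ^ (κ * j₁)) ^ 10 ≤ h := hPA.trans hh1
  have hP₂1 : (1 : ℝ) ≤ 2 ^ (κ * j₁) := one_le_pow₀ (by norm_num)
  have hh : (1 : ℝ) ≤ h := (one_le_pow₀ hP₂1).trans hP₂
  have hη : (0 : ℝ) < h / X := by positivity
  have hρ1 : (1 : ℝ) ≤ (ρ : ℝ) ^ 2 := one_le_pow₀ (by linarith)
  have hsmall : (ρ : ℝ) ^ 2 * (h / X) ≤ δ / 8000 := by
    have h7 : (h : ℝ) ≤ 2 * (δ / (16000 * ρ ^ 2) * X) := by linarith
    rw [← mul_div_assoc, div_le_iff₀ hX0]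
    calc (ρ : ℝ) ^ 2 * h ≤ ρ ^ 2 * (2 * (δ / (16000 * ρ ^ 2) * X)) := by gcongr
      _ = _ := by field_simp; norm_num
  have hhX : (h : ℝ) ≤ X := by
    have h7 : (h : ℝ) / X ≤ ρ ^ 2 * (h / X) := le_mul_of_one_le_left hη.le hρ1
    have h8 : (h : ℝ) / X ≤ 1 := by linarith
    rwa [div_le_one hX0] at h8
  have hκj : 1 ≤ κ * j₁ := by nlinarith
  obtain ⟨j, hj, hd⟩ := (hB₁ j₁ (by omega)).1 (fun p => ∑ y ∈ Ico y0 (y0 + N),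
      (dTK (xx (h / X) (y - s)) (ρ ^ 2 * (h / X)) (β y) p ^ 2 +
        dTK (xx (h / X) y) (ρ * (h / X)) (β y) p ^ 2)) N
    (fun p => sum_nonneg fun y _ => by positivity) (Nat.cast_nonneg _)
    (tk_avg (X := X) β hη (by exact_mod_cast (show (2 : ℝ) ≤ ρ by linarith)) (by linarith) hs hκj
      (fun y hy => (hY y hy).1) (by
        rw [mul_div_cancel₀ _ hX0.ne']
        exact (pow_le_pow_right₀ hP₂1 (by norm_num)).trans hP₂))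
  obtain ⟨hj1, hj2⟩ := mem_Ico.1 hj
  obtain ⟨hπ, -, -⟩ := (hB₁ j (by omega)).2
  have hj0 : (22 : ℝ) ≤ j := by exact_mod_cast (show 22 ≤ j by omega)
  have hjP : (j : ℝ) ≤ 2 ^ j := by exact_mod_cast (Nat.lt_two_pow_self (n := j)).le
  have hP10 : ((2 : ℝ) ^ j) ^ 10 ≤ h :=
    (pow_le_pow_left₀ (by positivity) (pow_le_pow_right₀ (by norm_num) hj2.le) 10).trans hP₂
  have hP1 : (1 : ℝ) ≤ 2 ^ j := one_le_pow₀ (by norm_num)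
  have hP2 : ((2 : ℝ) ^ j) ^ 2 ≤ h := (pow_le_pow_right₀ hP1 (by norm_num)).trans hP10
  have hP3 : ((2 : ℝ) ^ j) ^ 3 ≤ h := (pow_le_pow_right₀ hP1 (by norm_num)).trans hP10
  have hδ4 : δ ^ 4 ≤ δ ^ 2 := pow_le_pow_of_le_one δ0.le δ1 (by norm_num)
  have hδ4' : δ ^ 4 ≤ δ := by nlinarith
  have hB₂' : 16000 ≤ B₂ * δ ^ 4 := by rwa [div_le_iff₀ (by positivity)] at hB₂
  have hBP : (B₂ : ℝ) ≤ 2 ^ j := le_trans (by exact_mod_cast (show B₂ ≤ j by omega)) hjP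
  have hB0 : (0 : ℝ) ≤ B₂ := Nat.cast_nonneg _
  have hPδ : 16000 ≤ 2 ^ j * δ ^ 4 := hB₂'.trans (by gcongr)
  have hπ0 : (0 : ℝ) < (Pj j).card := lt_of_lt_of_le (by positivity) hπ
  have hjt : 4 * j ≤ t := by omega
  have htL : (t : ℝ) ^ 1000 ≤ 2 ^ j := by
    have : t ^ 1000 ≤ 2 ^ j := htj.trans (Nat.pow_le_pow_right (by norm_num) hj1)
    exact_mod_cast this
  obtain ⟨b, hb, hbt, hXb, hbX⟩ := h2 j t (by omega) hLt (by exact_mod_cast hP10.trans hhX)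
  have hjL : (j : ℝ) ≤ Real.log X := by
    have h7 : Real.log (((2 : ℝ) ^ j) ^ 10) ≤ Real.log X :=
      Real.log_le_log (by positivity) (hP10.trans hhX)
    rw [Real.log_pow, Real.log_pow] at h7
    push_cast at h7
    nlinarith [Real.log_two_gt_d9]
  obtain ⟨r, hr1, hrX, hrP, hspec⟩ := h3 j
    (hLj.trans (pow_le_pow_right₀ (by norm_num) hj1)) hjL
  obtain ⟨g, hg⟩ := h6 (X / (3 * 2 ^ j)) (by positivity)
    (by
      rw [div_pow, le_div_iff₀ (by positivity)]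
      have h7 : (3 * (2 : ℝ) ^ j) ^ 2 ≤ X := by
        calc (3 * (2 : ℝ) ^ j) ^ 2 = 9 * ((2 : ℝ) ^ j) ^ 2 := by ring
          _ ≤ 2 ^ j * ((2 : ℝ) ^ j) ^ 2 := by gcongr; linarith
          _ = ((2 : ℝ) ^ j) ^ 3 := by ring
          _ ≤ X := hP3.trans hhX
      nlinarith)
    (by
      rw [← mul_div_assoc, div_le_iff₀ (by positivity)]
      nlinarith)
  have hπ' : (2 : ℝ) ^ j ≤ (Pj j).card * (2 * j) := by rwa [div_le_iff₀ (by positivity)] at hπ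
  let Q : Par :=
    { X := X, h := h, ρ := ρ, j := j, r := r, N := N, y0 := y0, δ := δ, c := c, G := G
      Z := (X : ℝ) ^ γ, ε₅ := e, ε₆ := e / 4, g := g
      hX := hX
      hh := by exact_mod_cast hh
      hρ := by exact_mod_cast hρ88
      δ0 := δ0, δ1 := δ1
      δX := by
        have h7 : (B₂ : ℝ) ≤ X := by exact_mod_cast hXB
        have h8 : (B₂ : ℝ) * δ ^ 4 ≤ X * δ ^ 2 := by gcongr
        linarith
      η0 := by linarith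
      err := by
        have h7 : 12 * (2304 / δ ^ 2) / ρ + 22 / ρ ≤ δ / 4000 := by
          rw [← add_div, div_le_iff₀ hρpos]; linarith
        have h8 : (ρ : ℝ) * (h / X) ≤ ρ ^ 2 * (h / X) := by gcongr; nlinarith
        have h9 : 2 * (2 : ℝ) ^ j / (ρ * h) ≤ δ / 8000 := by
          rw [div_le_iff₀ (by positivity)]
          have h10 : (h : ℝ) ≤ ρ * h := le_mul_of_one_le_left (by linarith) (by linarith)
          have h11 : 16000 ≤ 2 ^ j * δ := hPδ.trans (by gcongr)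
          calc 2 * (2 : ℝ) ^ j = 16000 * 2 ^ j / 8000 := by ring
            _ ≤ 2 ^ j * δ * 2 ^ j / 8000 := by gcongr
            _ = δ / 8000 * (2 ^ j) ^ 2 := by ring
            _ ≤ _ := by gcongr; linarith
        linarith
      hY := hY, hN := hN, wt := hg, c0 := c0, c1 := c1, cZ := h5.1, G1 := G1, ε₅0 := e0.le
      ne := by
        rw [← card_pos]
        exact_mod_cast hπ0
      r1 := hr1, rX := hrX, rP := hrP
      spec := by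
        refine le_trans ?_ hspec
        refine mul_le_mul_of_nonneg_left (pow_le_pow_left₀ (by positivity) ?_ r) (by positivity)
        rw [div_le_div_iff₀ (by positivity) (by positivity)]
        have h7 : (0 : ℝ) ≤ 2 * r * c ^ 2 := by positivity
        calc 2 * r * (2 : ℝ) ^ j * c ^ 2 = 2 * r * c ^ 2 * 2 ^ j := by ring
          _ ≤ 2 * r * c ^ 2 * ((Pj j).card * (2 * j)) := by gcongr
          _ = _ := by ring }
  have key := core Q β S0 (s := s) (t := t) (b := b) (θ := θ) hs hρ128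
    (by exact_mod_cast hP10)
    (by
      rw [div_le_iff₀ (by positivity)]
      have h7 : (2 : ℝ) ^ j * δ ^ 4 ≤ 2 ^ j * δ ^ 2 := by gcongr
      exact le_trans (by linarith) h7)
    (by omega) (by exact_mod_cast htL)
    (by
      have h7 : (4 : ℝ) * j ≤ t := by exact_mod_cast hjt
      have h8 : 2 * (2 : ℝ) ^ j ≤ t * (Pj j).card := by nlinarith
      exact_mod_cast h8)
    (by
      have h7 : (B₂ : ℝ) ≤ t := by exact_mod_cast (show B₂ ≤ t by omega)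
      rw [div_le_iff₀ (by positivity)]
      have h8 : (B₂ : ℝ) * δ ^ 4 ≤ t * δ ^ 4 := by gcongr
      exact le_trans (by linarith) h8)
    hb hbt hXb hbX hS (not_le.1 hcon).le hb1 hb2 θ0.le θδ hd
  have h7 : Q.ε₇ ≤ 3 * e := by
    have := h5.2
    simp only [Par.ε₇, Q]
    linarith
  have h8 : δ / (32 * (2304 / δ ^ 4) ^ 2) = 133 * 8 * e := by rw [he]; ring
  have key' : 133 * 8 * e ≤ 133 * (θ + 4 * (e / 4) + Q.ε₇) := h8.ge.trans key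
  linarith

end Pool.Agent.P.MP_a9a441_nt.FU
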