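import Pool.Agent.P.MP_a9a441_nt.FU.Cover

/-!
From PropL to PropD. Take h = ⌈(log X)^A⌉₊, η = h / X, R = ρ^2. For each y let α' y be the α x,
x ∈ Ico X (2X), that maximises ‖Sm (xx η y) (R η) (α x)‖. `cover` with u = x, v = x + H ≤ 3 X; the
y that occur satisfy x ≤ xx η y ≤ x + H, so each y occurs for at most H + 1 ≤ 2 H values of x and
lies in the range of PropL. Total: 2 H (δ / 4) X + X * 2 (6 ρ^2 h + 1) ≤ δ H X when
H ≥ (log X)^(A+1) and X is large.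
-/

namespace Pool.Agent.P.MP_a9a441_nt.FU

open Finset Filter Pool.Agent.Lib.LargeSieve
open scoped ComplexConjugate

namespace Red1Aux

theorem range_y {η u v : ℝ} {R : ℕ} (hη : 0 < η) (hu : 0 < u) (hv : 0 < v) {y : ℤ}
    (hy : y ∈ Icc ⌈Real.log u / η⌉ (⌊Real.log v / η⌋ - R)) : u ≤ xx η y ∧ xx η y ≤ v := by
  rw [mem_Icc] at hy
  have h1 : Real.log u / η ≤ y := Int.ceil_le.1 hy.1
  have h2 : (y : ℝ) ≤ Real.log v / η := Int.le_floor.1 (by omega)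
  rw [div_le_iff₀ hη] at h1
  rw [le_div_iff₀ hη] at h2
  unfold xx
  exact ⟨(Real.log_le_iff_le_exp hu).1 (by linarith), (Real.le_log_iff_exp_le hv).1 (by linarith)⟩

theorem double_sum {η : ℝ} {X H R : ℕ} (hη : 0 < η) (hX : 0 < X) (hH : H ≤ X) (F : ℤ → ℝ)
    (hF : ∀ y, 0 ≤ F y) :
    ∑ x ∈ Ico X (2 * X), ∑ y ∈ Icc ⌈Real.log x / η⌉ (⌊Real.log ((x + H : ℕ) : ℝ) / η⌋ - R), F y ≤
      (H + 1) * ∑ y ∈ Icc ⌈Real.log X / η⌉ ⌊Real.log (3 * X) / η⌋, F y := by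
  classical
  set J := Icc ⌈Real.log X / η⌉ ⌊Real.log (3 * X) / η⌋ with hJ
  have hX0 : (0 : ℝ) < X := by exact_mod_cast hX
  have h1 : ∀ x ∈ Ico X (2 * X),
      ∑ y ∈ Icc ⌈Real.log x / η⌉ (⌊Real.log ((x + H : ℕ) : ℝ) / η⌋ - R), F y ≤
        ∑ y ∈ J, if x ∈ Icc (⌊xx η y⌋₊ - H) ⌊xx η y⌋₊ then F y else 0 := by
    intro x hx
    rw [mem_Ico] at hx
    have k1 : (X : ℝ) ≤ x := by exact_mod_cast hx.1
    have k2 : ((x + H : ℕ) : ℝ) ≤ 3 * X := by exact_mod_cast (by omega : x + H ≤ 3 * X)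
    have k3 : (0 : ℝ) < ((x + H : ℕ) : ℝ) := by exact_mod_cast (by omega : 0 < x + H)
    rw [← sum_filter]
    refine sum_le_sum_of_subset_of_nonneg (fun y hy => ?_) fun y _ _ => hF y
    obtain ⟨k4, k5⟩ := range_y hη (hX0.trans_le k1) k3 hy
    rw [mem_Icc] at hy
    rw [mem_filter, hJ, mem_Icc, mem_Icc]
    have k6 : ⌈Real.log X / η⌉ ≤ ⌈Real.log x / η⌉ :=
      Int.ceil_le_ceil (div_le_div_of_nonneg_right (Real.log_le_log hX0 k1) hη.le)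
    have k7 : ⌊Real.log ((x + H : ℕ) : ℝ) / η⌋ ≤ ⌊Real.log (3 * X) / η⌋ :=
      Int.floor_le_floor (div_le_div_of_nonneg_right (Real.log_le_log k3 k2) hη.le)
    have k8 : x ≤ ⌊xx η y⌋₊ := Nat.le_floor k4
    have k9 : ⌊xx η y⌋₊ ≤ x + H := Nat.floor_le_of_le k5
    exact ⟨⟨by omega, by omega⟩, by omega, k8⟩
  refine (sum_le_sum h1).trans ?_
  rw [sum_comm, mul_sum]
  refine sum_le_sum fun y _ => ?_
  rw [← sum_filter, sum_const, nsmul_eq_mul]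
  refine mul_le_mul_of_nonneg_right ?_ (hF y)
  have k1 : ((Ico X (2 * X)).filter fun x => x ∈ Icc (⌊xx η y⌋₊ - H) ⌊xx η y⌋₊).card ≤ H + 1 := by
    refine (card_le_card (t := Icc (⌊xx η y⌋₊ - H) ⌊xx η y⌋₊)
      fun x hx => (mem_filter.1 hx).2).trans ?_
    rw [Nat.card_Icc]
    omega
  exact_mod_cast k1

end Red1Aux

theorem red1 {δ : ℝ} {A ρ : ℕ} (hδ : 0 < δ) (hρ : 1 ≤ ρ) (h : PropL (δ / 4) A ρ) :
    PropD δ (A + 1) := by
  have hlog : Tendsto (fun X : ℕ => Real.log X) atTop atTop :=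
    Real.tendsto_log_atTop.comp tendsto_natCast_atTop_atTop
  filter_upwards [h, hlog.eventually_ge_atTop (2 * ρ ^ 2),
    hlog.eventually_ge_atTop (4 * (12 * ρ ^ 2 + 1) / δ), eventually_gt_atTop 0] with X hL e1 e2 hX
  intro H α hH hHX
  have hX0 : (0 : ℝ) < X := by exact_mod_cast hX
  have hρ1 : (1 : ℝ) ≤ ρ := by exact_mod_cast hρ
  have hR1 : (1 : ℝ) ≤ (ρ : ℝ) ^ 2 := one_le_pow₀ hρ1
  set L := Real.log X with hLd
  have hL1 : 1 ≤ L := by linarith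
  have hA1 : 1 ≤ L ^ A := one_le_pow₀ hL1
  obtain ⟨h, hh1, hh2⟩ : ∃ h : ℕ, L ^ A ≤ h ∧ (h : ℝ) ≤ 2 * L ^ A :=
    ⟨⌈L ^ A⌉₊, Nat.le_ceil _, by have := Nat.ceil_lt_add_one (by linarith : 0 ≤ L ^ A); linarith⟩
  have hh0 : (0 : ℝ) < h := by linarith
  have hη : (0 : ℝ) < h / X := by positivity
  rw [pow_succ] at hH
  have hHX' : (H : ℝ) ≤ X := by exact_mod_cast hHX
  have hH1 : (1 : ℝ) ≤ H := by nlinarith
  have hθ : (ρ : ℝ) ^ 2 * (h / X) ≤ 1 := by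
    rw [← mul_div_assoc, div_le_one hX0]
    nlinarith
  have hne : (Ico X (2 * X)).Nonempty := nonempty_Ico.2 (by omega)
  choose x' _ hx' using fun y : ℤ => exists_max_image (Ico X (2 * X))
    (fun x => ‖Sm (xx (h / X) y) (ρ ^ 2 * (h / X)) (α x)‖) hne
  have h1 := hL h (fun y => α (x' y)) hh1 hh2
  have h2 := Red1Aux.double_sum (R := ρ ^ 2) hη hX hHX
    (fun y => ‖Sm (xx (h / X) y) (ρ ^ 2 * (h / X)) (α (x' y))‖) fun _ => norm_nonneg _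
  have h3 : ∀ x ∈ Ico X (2 * X),
      (ρ : ℝ) ^ 2 * ‖∑ n ∈ Ioc x (x + H), lam n * ee (-(α x * n))‖ ≤
        ∑ y ∈ Icc ⌈Real.log x / (h / X)⌉ (⌊Real.log ((x + H : ℕ) : ℝ) / (h / X)⌋ - (ρ ^ 2 : ℕ)),
          ‖Sm (xx (h / X) y) (ρ ^ 2 * (h / X)) (α (x' y))‖ + ρ ^ 2 * (δ / 2 * H) := by
    intro x hx
    have hx0 := mem_Ico.1 hx
    have k1 : (X : ℝ) ≤ x := by exact_mod_cast hx0.1
    have k2 : ((x + H : ℕ) : ℝ) ≤ 3 * X := by exact_mod_cast (by omega : x + H ≤ 3 * X)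
    have k3 := cover (R := ρ ^ 2) (u := x) (v := ((x + H : ℕ) : ℝ)) hη (hX0.trans_le k1)
      (by exact_mod_cast Nat.le_add_right x H) (fun n => lam n * ee (-(α x * n))) fun n => by
        rw [norm_mul, norm_ee, mul_one]
        exact norm_lam_le n
    rw [Nat.floor_natCast, Nat.floor_natCast] at k3
    have k4 := (norm_sub_norm_le _ _).trans k3
    rw [norm_mul, Complex.norm_natCast] at k4
    have k5 : ‖∑ y ∈ Icc ⌈Real.log x / (h / X)⌉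
        (⌊Real.log ((x + H : ℕ) : ℝ) / (h / X)⌋ - (ρ ^ 2 : ℕ)),
          ∑ n ∈ Iv (xx (h / X) y) ((ρ ^ 2 : ℕ) * (h / X)), lam n * ee (-(α x * n))‖ ≤
        ∑ y ∈ Icc ⌈Real.log x / (h / X)⌉ (⌊Real.log ((x + H : ℕ) : ℝ) / (h / X)⌋ - (ρ ^ 2 : ℕ)),
          ‖Sm (xx (h / X) y) (ρ ^ 2 * (h / X)) (α (x' y))‖ := by
      refine (norm_sum_le _ _).trans (sum_le_sum fun y _ => ?_)
      rw [Nat.cast_pow]
      exact hx' y x hx
    have k6 := exp_sub_one_le (by positivity) hθ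
    have k7 : ((x + H : ℕ) : ℝ) * (Real.exp (ρ ^ 2 * (h / X)) - 1) ≤ 6 * ρ ^ 2 * h := by
      calc _ ≤ 3 * X * (2 * ((ρ : ℝ) ^ 2 * (h / X))) :=
            mul_le_mul k2 k6 (sub_nonneg.2 (Real.one_le_exp (by positivity))) (by positivity)
        _ = _ := by field_simp; ring
    have k8 : 2 * (6 * (ρ : ℝ) ^ 2 * h + 1) ≤ δ / 2 * H := by
      rw [div_le_iff₀ hδ] at e2
      have k9 : 6 * (ρ : ℝ) ^ 2 * h + 1 ≤ (12 * ρ ^ 2 + 1) * L ^ A := by nlinarith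
      have k10 : 4 * (12 * (ρ : ℝ) ^ 2 + 1) * L ^ A ≤ L * δ * L ^ A :=
        mul_le_mul_of_nonneg_right e2 (by linarith)
      have k11 : δ * (L ^ A * L) ≤ δ * H := mul_le_mul_of_nonneg_left hH hδ.le
      nlinarith
    rw [Nat.cast_pow] at k4
    have k12 : 2 * (ρ : ℝ) ^ 2 * (((x + H : ℕ) : ℝ) * (Real.exp (ρ ^ 2 * (h / X)) - 1) + 1) ≤
        ρ ^ 2 * (δ / 2 * H) := by nlinarith
    rw [show ((ρ ^ 2 : ℕ) : ℝ) = (ρ : ℝ) ^ 2 from Nat.cast_pow _ _] at k5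
    linarith
  have h4 := sum_le_sum h3
  rw [sum_add_distrib, sum_const, Nat.card_Ico, nsmul_eq_mul, ← mul_sum,
    show 2 * X - X = X by omega] at h4
  have h5 : ((H : ℝ) + 1) * ∑ y ∈ Icc ⌈Real.log X / (h / X)⌉ ⌊Real.log (3 * X) / (h / X)⌋,
      ‖Sm (xx (h / X) y) (ρ ^ 2 * (h / X)) (α (x' y))‖ ≤ 2 * H * (δ / 4 * X * ρ ^ 2) :=
    mul_le_mul (by linarith) h1 (sum_nonneg fun _ _ => norm_nonneg _) (by positivity)
  refine le_of_mul_le_mul_left ?_ (by positivity : (0 : ℝ) < ρ ^ 2)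
  linarith

end Pool.Agent.P.MP_a9a441_nt.FU
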