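import Pool.Agent.P.MP_a9a441_nt.FU.Bas

/-!
From the dyadic form to all M and N. Let Z = M + N, H = ⌈(log Z)^A⌉₊, σ x = max over m ≤ M of
‖∑_{n ∈ Ioc x (x + H)} λ n e(n α m)‖ ≤ H. `avg`: H ∑_{n ∈ Icc m (m+N)} f n differs from
∑_{x ∈ Icc m (m+N)} ∑_{n ∈ Ioc x (x+H)} f n by at most 2 H^2. With k minimal such that 4^k ≥ Z,
∑_{x ≤ Z} σ x ≤ 2^k H + ∑ over dyadic X = 2^i, 2^k ≤ X ≤ Z, of δ' H X ≤ 2 √Z H + 2 δ' H Z
(PropD applies: (log X)^A ≤ H ≤ X). Each x is used by at most min (M, N + 1) values of m, and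
Z ≤ 2 max (M, N + 1). Finally H ≤ δ' N: if N ≤ M as log Z ≤ 2 log M and N ≥ (log M)^(A+1); if
N > M as log Z ≤ log (2 N). Take δ' = δ / 10.
-/

namespace Pool.Agent.P.MP_a9a441_nt.FU

open Finset Filter Pool.Agent.Lib.LargeSieve
open scoped ComplexConjugate

namespace Red2Aux

theorem shift (f : ℕ → ℂ) (hf : ∀ n, ‖f n‖ ≤ 1) (m L s : ℕ) :
    ‖∑ x ∈ range L, f (m + x) - ∑ x ∈ range L, f (m + x + s)‖ ≤ 2 * (s : ℝ) := by
  induction s with
  | zero => simp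
  | succ s ih =>
    have h1 : ∑ x ∈ range L, f (m + x + s) - ∑ x ∈ range L, f (m + x + (s + 1)) =
        f (m + 0 + s) - f (m + L + s) := by
      rw [← sum_sub_distrib, ← Finset.sum_range_sub' (fun x => f (m + x + s)) L]
      refine sum_congr rfl fun x _ => ?_
      rw [show m + x + (s + 1) = m + (x + 1) + s by ring]
    have h2 : ‖f (m + 0 + s) - f (m + L + s)‖ ≤ 2 :=
      (norm_sub_le _ _).trans (by linarith [hf (m + 0 + s), hf (m + L + s)])
    rw [← h1] at h2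
    have h3 := norm_sub_le_norm_sub_add_norm_sub (∑ x ∈ range L, f (m + x))
      (∑ x ∈ range L, f (m + x + s)) (∑ x ∈ range L, f (m + x + (s + 1)))
    push_cast
    linarith

theorem sum_Icc_eq (g : ℕ → ℂ) (m N : ℕ) :
    ∑ x ∈ Icc m (m + N), g x = ∑ x ∈ range (N + 1), g (m + x) := by
  rw [← Finset.Ico_add_one_right_eq_Icc, sum_Ico_eq_sum_range]
  congr 2
  omega

theorem sum_Ioc_eq (g : ℕ → ℂ) (x H : ℕ) :
    ∑ n ∈ Ioc x (x + H), g n = ∑ i ∈ range H, g (x + (i + 1)) := by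
  induction H with
  | zero => simp
  | succ H ih => rw [← add_assoc, sum_Ioc_succ_top (by omega), ih, sum_range_succ, add_assoc]

/-- Summation of dyadic bounds. -/
theorem dyad {σ : ℕ → ℝ} {c : ℝ} {Y Z : ℕ} (hc : 0 ≤ c)
    (h : ∀ X, Y ≤ X → X ≤ Z → ∑ x ∈ Ico X (2 * X), σ x ≤ c * X) (j : ℕ) :
    Y * 2 ^ j ≤ 2 * Z → ∑ x ∈ Ico Y (Y * 2 ^ j), σ x ≤ c * (Y * 2 ^ j : ℕ) := by
  induction j with
  | zero =>
    intro _
    simp only [pow_zero, mul_one, Ico_self, sum_empty]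
    positivity
  | succ j ih =>
    intro hj
    have e : Y * 2 ^ (j + 1) = 2 * (Y * 2 ^ j) := by ring
    rw [e] at hj ⊢
    have h1 : Y ≤ Y * 2 ^ j := Nat.le_mul_of_pos_right _ (by positivity)
    have h2 := h _ h1 (by omega)
    have h3 := ih (by omega)
    rw [← sum_Ico_consecutive σ h1 (by omega : Y * 2 ^ j ≤ 2 * (Y * 2 ^ j))]
    push_cast at h2 h3 ⊢
    linarith

theorem total {σ : ℕ → ℝ} {c H : ℝ} {Y Z : ℕ} (hc : 0 ≤ c) (h0 : ∀ x, 0 ≤ σ x)
    (hH : ∀ x, σ x ≤ H) (hY : 1 ≤ Y) (hYZ : Y ≤ Z)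
    (h : ∀ X, Y ≤ X → X ≤ Z → ∑ x ∈ Ico X (2 * X), σ x ≤ c * X) :
    ∑ x ∈ range (Z + 1), σ x ≤ Y * H + 2 * c * Z := by
  have hex : ∃ j, Z < Y * 2 ^ j :=
    ⟨Z, lt_of_lt_of_le Nat.lt_two_pow_self (Nat.le_mul_of_pos_left _ hY)⟩
  have h1 := Nat.find_spec hex
  have h2 : Y * 2 ^ Nat.find hex ≤ 2 * Z := by
    rcases Nat.eq_zero_or_eq_succ_pred (Nat.find hex) with e | e
    · rw [e] at h1
      omega
    · have h3 := Nat.find_min hex (m := (Nat.find hex).pred) (by rw [e]; simp)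
      rw [e, Nat.succ_eq_add_one, pow_succ]
      nlinarith [not_lt.1 h3]
  have h3 := dyad hc h _ h2
  generalize Y * 2 ^ Nat.find hex = W at *
  have h4 : ∑ x ∈ range (Z + 1), σ x ≤ ∑ x ∈ range W, σ x :=
    sum_le_sum_of_subset_of_nonneg (range_mono (by omega)) fun x _ _ => h0 x
  rw [← sum_range_add_sum_Ico σ (by omega : Y ≤ W)] at h4
  have h5 : ∑ x ∈ range Y, σ x ≤ Y * H := by
    simpa using sum_le_card_nsmul (range Y) σ H fun x _ => hH x
  have h6 : (W : ℝ) ≤ 2 * Z := by exact_mod_cast h2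
  nlinarith

/-- Each point is used by few intervals. -/
theorem cover {σ : ℕ → ℝ} (h0 : ∀ x, 0 ≤ σ x) (M N : ℕ) :
    ∑ m ∈ Icc 1 M, ∑ x ∈ Icc m (m + N), σ x ≤
      (min M (N + 1) : ℕ) * ∑ x ∈ range (M + N + 1), σ x := by
  rcases le_total M (N + 1) with h | h
  · rw [min_eq_left h]
    have h1 : ∀ m ∈ Icc 1 M, ∑ x ∈ Icc m (m + N), σ x ≤ ∑ x ∈ range (M + N + 1), σ x := by
      intro m hm
      refine sum_le_sum_of_subset_of_nonneg (fun x hx => ?_) fun x _ _ => h0 x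
      rw [mem_Icc] at hm hx
      rw [mem_range]
      omega
    simpa using sum_le_card_nsmul _ _ _ h1
  · rw [min_eq_right h]
    have h1 : ∀ m, ∑ x ∈ Icc m (m + N), σ x = ∑ i ∈ range (N + 1), σ (m + i) := by
      intro m
      rw [← Finset.Ico_add_one_right_eq_Icc, sum_Ico_eq_sum_range]
      congr 2
      omega
    simp only [h1]
    rw [sum_comm]
    have h2 : ∀ i ∈ range (N + 1), ∑ m ∈ Icc 1 M, σ (m + i) ≤ ∑ x ∈ range (M + N + 1), σ x := by
      intro i hi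
      rw [← sum_image (s := Icc 1 M) (g := fun m => m + i) (f := σ)
        (fun a _ b _ e => by simpa using e)]
      refine sum_le_sum_of_subset_of_nonneg (fun x hx => ?_) fun x _ _ => h0 x
      obtain ⟨m, hm, rfl⟩ := mem_image.1 hx
      rw [mem_Icc] at hm
      rw [mem_range] at hi ⊢
      omega
    simpa using sum_le_card_nsmul _ _ _ h2

theorem small {c : ℝ} (hc : 0 < c) (A : ℕ) : ∀ᶠ M : ℕ in atTop, ∀ N : ℕ,
    Real.log M ^ (A + 1) ≤ N → Real.log (M + N : ℕ) ^ A + 1 ≤ c * N := by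
  have h1 := (Real.isLittleO_pow_log_id_atTop (n := A)).bound (c := c / 4) (by positivity)
  obtain ⟨x0, hx0⟩ := eventually_atTop.1 h1
  have h2 : Tendsto (fun M : ℕ => Real.log M) atTop atTop :=
    Real.tendsto_log_atTop.comp tendsto_natCast_atTop_atTop
  have h3 : Tendsto (fun M : ℕ => (M : ℝ)) atTop atTop := tendsto_natCast_atTop_atTop
  filter_upwards [h2.eventually_ge_atTop 1, h2.eventually_ge_atTop ((2 ^ A + 1) / c),
    h3.eventually_ge_atTop x0, h3.eventually_ge_atTop (2 / c), h3.eventually_ge_atTop 2]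
    with M k1 k2 k3 k4 k5 N hN
  have hMN : (0 : ℝ) ≤ Real.log (M + N : ℕ) := Real.log_natCast_nonneg _
  have hN0 : (0 : ℝ) ≤ N := Nat.cast_nonneg _
  rcases le_total N M with h | h
  · have h' : (N : ℝ) ≤ M := by exact_mod_cast h
    have h4 : Real.log (M + N : ℕ) ≤ 2 * Real.log M := by
      rw [two_mul, ← Real.log_mul (by linarith) (by linarith)]
      refine Real.log_le_log (by push_cast; linarith) ?_
      push_cast
      nlinarith
    have h5 : Real.log (M + N : ℕ) ^ A ≤ 2 ^ A * Real.log M ^ A := by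
      rw [← mul_pow]
      exact pow_le_pow_left₀ hMN h4 _
    have h6 : 1 ≤ Real.log M ^ A := one_le_pow₀ k1
    rw [div_le_iff₀ hc] at k2
    rw [pow_succ] at hN
    have h7 : c * (Real.log M ^ A * Real.log M) ≤ c * N := mul_le_mul_of_nonneg_left hN hc.le
    nlinarith
  · have h' : (M : ℝ) ≤ N := by exact_mod_cast h
    have h4 := hx0 ((M + N : ℕ) : ℝ) (by push_cast; linarith)
    rw [Real.norm_of_nonneg (by positivity), id, Real.norm_of_nonneg (by positivity)] at h4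
    rw [div_le_iff₀ hc] at k4
    have h5 : ((M + N : ℕ) : ℝ) ≤ 2 * N := by push_cast; linarith
    nlinarith

end Red2Aux

open Red2Aux

theorem avg (f : ℕ → ℂ) (hf : ∀ n, ‖f n‖ ≤ 1) (m N H : ℕ) :
    ‖(H : ℂ) * ∑ n ∈ Icc m (m + N), f n - ∑ x ∈ Icc m (m + N), ∑ n ∈ Ioc x (x + H), f n‖ ≤
      2 * (H : ℝ) ^ 2 := by
  simp only [sum_Icc_eq, sum_Ioc_eq]
  rw [sum_comm]
  have e : (H : ℂ) * ∑ x ∈ range (N + 1), f (m + x) =
      ∑ _i ∈ range H, ∑ x ∈ range (N + 1), f (m + x) := by simp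
  rw [e, ← sum_sub_distrib]
  refine (norm_sum_le _ _).trans ?_
  have h1 : ∀ i ∈ range H, ‖∑ x ∈ range (N + 1), f (m + x) -
      ∑ x ∈ range (N + 1), f (m + x + (i + 1))‖ ≤ 2 * (H : ℝ) := by
    intro i hi
    refine (shift f hf m (N + 1) (i + 1)).trans ?_
    have h2 : ((i + 1 : ℕ) : ℝ) ≤ H := by exact_mod_cast mem_range.1 hi
    linarith
  refine (sum_le_card_nsmul _ _ _ h1).trans (le_of_eq ?_)
  simp only [card_range, nsmul_eq_mul]
  ring

theorem red2 {δ : ℝ} {A : ℕ} (hδ : 0 < δ) (h : PropD (δ / 10) A) : ∀ᶠ M : ℕ in atTop,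
    ∀ (N : ℕ) (α : ℕ → ℝ), Real.log M ^ (A + 1) ≤ N →
      ∑ m ∈ Icc 1 M, ‖∑ n ∈ Icc m (m + N), lam n * ee (-(α m * n))‖ ≤ δ * M * (N + 1) := by
  obtain ⟨X0, hX0⟩ := eventually_atTop.1 h
  obtain ⟨c, hc⟩ : ∃ c : ℝ, c = δ / 10 := ⟨_, rfl⟩
  rw [← hc] at hX0
  have c0 : 0 < c := by rw [hc]; positivity
  have h3 : Tendsto (fun M : ℕ => (M : ℝ)) atTop atTop := tendsto_natCast_atTop_atTop
  filter_upwards [small c0 A, small one_pos A, h3.eventually_ge_atTop (X0 / c),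
    eventually_ge_atTop X0, eventually_ge_atTop 2] with M k1 k1' k2 k3 k4 N α hN
  have k5 := k1 N hN
  have k5' := k1' N hN
  have hl : 0 < Real.log (M + N : ℕ) := Real.log_pos (by exact_mod_cast (by omega : 1 < M + N))
  obtain ⟨H, hH⟩ : ∃ H : ℕ, H = ⌈Real.log (M + N : ℕ) ^ A⌉₊ := ⟨_, rfl⟩
  have H1 : Real.log (M + N : ℕ) ^ A ≤ H := hH ▸ Nat.le_ceil _
  have H2 : (H : ℝ) ≤ Real.log (M + N : ℕ) ^ A + 1 :=
    hH ▸ (Nat.ceil_lt_add_one (by positivity)).le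
  have H3 : (0 : ℝ) < H := lt_of_lt_of_le (by positivity) H1
  have H4 : 1 ≤ H := by exact_mod_cast H3
  have H5 : H ≤ N := by exact_mod_cast (by linarith : (H : ℝ) ≤ N)
  have hex : ∀ x : ℕ, ∃ m ∈ Icc 1 M, ∀ m' ∈ Icc 1 M,
      ‖∑ n ∈ Ioc x (x + H), lam n * ee (-(α m' * n))‖ ≤
        ‖∑ n ∈ Ioc x (x + H), lam n * ee (-(α m * n))‖ := fun x =>
    exists_max_image (Icc 1 M) _ ⟨1, mem_Icc.2 ⟨le_rfl, by omega⟩⟩
  choose μ _ hμ using hex
  obtain ⟨σ, hσ⟩ : ∃ σ : ℕ → ℝ, ∀ x, σ x = ‖∑ n ∈ Ioc x (x + H), lam n * ee (-(α (μ x) * n))‖ :=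
    ⟨_, fun _ => rfl⟩
  have s0 : ∀ x, 0 ≤ σ x := fun x => by rw [hσ]; exact norm_nonneg _
  have s1 : ∀ x, σ x ≤ H := fun x => by
    rw [hσ]
    simpa using BasAux.norm_sum_le_card (Ioc x (x + H)) (α (μ x))
  have s2 := total (c := c * H) (Y := max X0 H) (Z := M + N) (by positivity) s0 s1
    (le_max_of_le_right H4) (max_le (by omega) (by omega)) fun X h1 h2 => by
      have h4 : 1 ≤ X := H4.trans ((le_max_right _ _).trans h1)
      simp only [hσ]
      refine hX0 X ((le_max_left _ _).trans h1) H (fun x => α (μ x)) (le_trans ?_ H1)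
        ((le_max_right _ _).trans h1)
      exact pow_le_pow_left₀ (Real.log_natCast_nonneg _)
        (Real.log_le_log (by exact_mod_cast h4) (by exact_mod_cast h2)) _
  have hM0 : (0 : ℝ) ≤ M := Nat.cast_nonneg _
  have hN0 : (0 : ℝ) ≤ N := Nat.cast_nonneg _
  have s3 : ((max X0 H : ℕ) : ℝ) ≤ c * (M + N : ℕ) := by
    rw [div_le_iff₀ c0] at k2
    push_cast
    refine max_le ?_ ?_ <;> nlinarith
  have s4 : ∑ x ∈ range (M + N + 1), σ x ≤ 3 * c * H * (M + N : ℕ) := by nlinarith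
  have s5 : ((min M (N + 1) : ℕ) : ℝ) * (M + N : ℕ) ≤ 2 * (M * (N + 1)) := by
    have : min M (N + 1) * (M + N) ≤ 2 * (M * (N + 1)) := by
      rcases le_total M (N + 1) with h | h
      · rw [min_eq_left h]; nlinarith
      · rw [min_eq_right h]; nlinarith
    exact_mod_cast this
  have s6 : ∀ m ∈ Icc 1 M, (H : ℝ) * ‖∑ n ∈ Icc m (m + N), lam n * ee (-(α m * n))‖ ≤
      2 * (H : ℝ) ^ 2 + ∑ x ∈ Icc m (m + N), σ x := by
    intro m hm
    have h1 := avg (fun n => lam n * ee (-(α m * n))) (fun n => by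
      rw [norm_mul, norm_ee, mul_one]; exact norm_lam_le n) m N H
    have h2 : ‖∑ x ∈ Icc m (m + N), ∑ n ∈ Ioc x (x + H), lam n * ee (-(α m * n))‖ ≤
        ∑ x ∈ Icc m (m + N), σ x :=
      (norm_sum_le _ _).trans (sum_le_sum fun x _ => by rw [hσ]; exact hμ x m hm)
    have h4 := norm_le_norm_sub_add ((H : ℂ) * ∑ n ∈ Icc m (m + N), lam n * ee (-(α m * n)))
      (∑ x ∈ Icc m (m + N), ∑ n ∈ Ioc x (x + H), lam n * ee (-(α m * n)))
    rw [norm_mul, Complex.norm_natCast] at h4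
    linarith
  have s7 := sum_le_sum s6
  rw [← mul_sum, sum_add_distrib] at s7
  simp only [sum_const, Nat.card_Icc, add_tsub_cancel_right, nsmul_eq_mul] at s7
  have s8 := cover s0 M N
  have s9 : ((min M (N + 1) : ℕ) : ℝ) * ∑ x ∈ range (M + N + 1), σ x ≤
      3 * c * H * (2 * (M * (N + 1))) := by
    refine (mul_le_mul_of_nonneg_left s4 (Nat.cast_nonneg _)).trans ?_
    have := mul_le_mul_of_nonneg_left s5 (by positivity : (0 : ℝ) ≤ 3 * c * H)
    linarith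
  have s10 : (H : ℝ) ≤ c * (N + 1) := by nlinarith
  refine le_of_mul_le_mul_left ?_ H3
  have s11 : (M : ℝ) * (2 * (H : ℝ) ^ 2) ≤ 2 * c * H * (M * (N + 1)) := by
    have := mul_le_mul_of_nonneg_left s10 (by positivity : (0 : ℝ) ≤ 2 * H * M)
    nlinarith
  have s12 : 0 ≤ c * H * (M * (N + 1)) := by positivity
  have e : δ = 10 * c := by rw [hc]; ring
  rw [e]
  nlinarith

end Pool.Agent.P.MP_a9a441_nt.FU
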