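import Pool.Agent.P.MP_a9a441_nt.FU.PC
import Pool.Agent.P.MP_a9a441_nt.FU.Bas

/-!
`scale`: choose κ with θ^2 log κ / 4 ≥ 42; if every j fails then
∑ d p / p ≥ ∑ d p / 2^(j+1) > θ^2 B / (4 j) by `pc`; sum with `log_le_harm`.
`half`: with x = xx η (y - s), w = y - ap η p one has x / p ≤ xx η (w - s) ≤ x / p * exp η;
the defect gives ‖Sm (x / p) ..‖ ≥ (3/4) δ x θ / p; use `Sm_shift` and exp η ≤ 5/4.
-/

namespace Pool.Agent.P.MP_a9a441_nt.FU

open Finset Filter Pool.Agent.Lib.LargeSieve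
open scoped ComplexConjugate

theorem scale {θ : ℝ} (hθ : 0 < θ) : ∃ κ : ℕ, 2 ≤ κ ∧ ∀ᶠ j₁ : ℕ in atTop,
    ∀ (d : ℕ → ℝ) (B : ℝ), (∀ p, 0 ≤ d p) → 0 ≤ B →
      ∑ j ∈ Ico j₁ (κ * j₁), ∑ p ∈ Pj j, d p / p ≤ 42 * B →
      ∃ j ∈ Ico j₁ (κ * j₁), ∑ p ∈ Pj j, d p ≤ θ ^ 2 * B * (Pj j).card := by
  have hθ2 : 0 < θ ^ 2 := by positivity
  obtain ⟨κ, hκ⟩ := exists_nat_ge (max 2 (Real.exp (168 / θ ^ 2)))
  have hκ2 : 2 ≤ κ := by exact_mod_cast (le_max_left _ _).trans hκ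
  have hκ0 : (0 : ℝ) < κ := by positivity
  have hlog : 168 / θ ^ 2 ≤ Real.log κ :=
    (Real.le_log_iff_exp_le hκ0).mpr ((le_max_right _ _).trans hκ)
  refine ⟨κ, hκ2, ?_⟩
  obtain ⟨J, hJ⟩ := eventually_atTop.mp pc
  filter_upwards [eventually_ge_atTop J, eventually_ge_atTop 1] with j₁ h1 h2 d B hd hB hs
  by_contra hcon
  push Not at hcon
  have hne : (Ico j₁ (κ * j₁)).Nonempty := nonempty_Ico.mpr (by nlinarith)
  have key : ∀ j ∈ Ico j₁ (κ * j₁), θ ^ 2 * B / 4 * ((1 : ℝ) / j) < ∑ p ∈ Pj j, d p / p := by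
    intro j hj
    have hj1 : j₁ ≤ j := (mem_Ico.mp hj).1
    have hj0 : (0 : ℝ) < j := by exact_mod_cast (by omega : 0 < j)
    have h2j : (0 : ℝ) < 2 * 2 ^ j := by positivity
    have hc := (hJ j (h1.trans hj1)).1
    have e1 : θ ^ 2 * B / 4 * ((1 : ℝ) / j) = θ ^ 2 * B * (2 ^ j / (2 * j)) / (2 * 2 ^ j) := by
      field_simp
      ring
    have l1 : θ ^ 2 * B * (2 ^ j / (2 * j)) ≤ θ ^ 2 * B * (Pj j).card :=
      mul_le_mul_of_nonneg_left hc (by positivity)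
    have l2 : (∑ p ∈ Pj j, d p) / (2 * 2 ^ j) ≤ ∑ p ∈ Pj j, d p / p := by
      rw [sum_div]
      refine sum_le_sum fun p hp => ?_
      obtain ⟨hp1, -, hp3⟩ := mem_Pj.mp hp
      have hp0 : (0 : ℝ) < p := by exact_mod_cast hp1.pos
      exact div_le_div_of_nonneg_left (hd p) hp0 (by exact_mod_cast hp3.le)
    rw [e1]
    exact lt_of_lt_of_le (div_lt_div_of_pos_right (l1.trans_lt (hcon j hj)) h2j) l2
  have hlt := sum_lt_sum_of_nonempty hne key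
  rw [← mul_sum] at hlt
  have hh := log_le_harm h2 (by omega : 1 ≤ κ)
  have l3 : θ ^ 2 * B / 4 * (168 / θ ^ 2) ≤ θ ^ 2 * B / 4 * ∑ j ∈ Ico j₁ (κ * j₁), (1 : ℝ) / j :=
    mul_le_mul_of_nonneg_left (hlog.trans hh) (by positivity)
  have e2 : θ ^ 2 * B / 4 * (168 / θ ^ 2) = 42 * B := by
    field_simp
    ring
  linarith

theorem half {η δ β : ℝ} {R p : ℕ} {u : ℤ} (hη : 0 < η) (hη1 : η ≤ 1 / 5) (hR : (R : ℝ) * η ≤ 1)
    (hδ : 0 < δ) (hRδ : 128 / δ ≤ R) (hp : 0 < p) (hpx : 32 * p ≤ δ * (xx η u * (R * η)))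
    (h1 : δ * (xx η u * (R * η)) ≤ ‖Sm (xx η u) (R * η) β‖)
    (h2 : dTK (xx η u) (R * η) β p ≤ δ / 4) :
    δ / 2 * (xx η (u - ap η p) * (R * η)) ≤ ‖Sm (xx η (u - ap η p)) (R * η) (p * β)‖ := by
  set x := xx η u with hx
  set x' := xx η (u - ap η p) with hx'
  have hx0 : 0 < x := xx_pos η u
  have hp0 : (0 : ℝ) < p := by exact_mod_cast hp
  have hR0 : (0 : ℝ) < R := lt_of_lt_of_le (by positivity) hRδ
  have hθ : 0 < (R : ℝ) * η := mul_pos hR0 hη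
  have e' : x' = x / p * Real.exp (Real.log p - η * ap η p) := by
    rw [hx', sub_eq_add_neg u, xx_add, Real.exp_sub, Real.exp_log hp0, Int.cast_neg, mul_neg,
      Real.exp_neg]
    field_simp
    rfl
  have hxp : 0 < x / p := div_pos hx0 hp0
  have l1 : x / p ≤ x' := by
    rw [e']
    exact le_mul_of_one_le_right hxp.le (Real.one_le_exp (sub_nonneg.mpr (ap_le hη p)))
  have l2 : x' ≤ x / p * Real.exp η := by
    rw [e']
    exact mul_le_mul_of_nonneg_left (Real.exp_le_exp.mpr (by linarith [lt_ap hη p])) hxp.le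
  have hexp : Real.exp η ≤ 5 / 4 := by
    refine (Real.exp_bound_div_one_sub_of_interval hη.le (by linarith)).trans ?_
    rw [div_le_iff₀ (by linarith)]
    linarith
  have hsh := Sm_shift hxp l1 l2 hθ.le hR (by linarith : η ≤ 1) (p * β)
  have h3 : ‖(p : ℂ) * Sm (x / p) (R * η) (p * β) + Sm x (R * η) β‖ ≤ δ / 4 * (x * (R * η)) :=
    (div_le_iff₀ (mul_pos hx0 hθ)).mp h2
  have h4 : ‖Sm x (R * η) β‖ ≤ δ / 4 * (x * (R * η)) + p * ‖Sm (x / p) (R * η) (p * β)‖ := by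
    have := norm_sub_le ((p : ℂ) * Sm (x / p) (R * η) (p * β) + Sm x (R * η) β)
      ((p : ℂ) * Sm (x / p) (R * η) (p * β))
    rw [add_sub_cancel_left, norm_mul, Complex.norm_natCast] at this
    linarith
  have h5 : 3 / 4 * (δ * (x / p * (R * η))) ≤ ‖Sm (x / p) (R * η) (p * β)‖ := by
    have e : 3 / 4 * (δ * (x / p * (R * η))) = 3 / 4 * (δ * (x * (R * η))) / p := by ring
    rw [e, div_le_iff₀ hp0]
    linarith
  have h6 : ‖Sm (x / p) (R * η) (p * β)‖ ≤ 8 * η * (x / p) + 2 + ‖Sm x' (R * η) (p * β)‖ := by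
    have := norm_add_le (Sm (x / p) (R * η) (p * β) - Sm x' (R * η) (p * β))
      (Sm x' (R * η) (p * β))
    rw [sub_add_cancel] at this
    linarith
  have h7 : 128 * η * (x / p) ≤ δ * (x / p * (R * η)) := by
    have h128 : 128 ≤ R * δ := (div_le_iff₀ hδ).mp hRδ
    have := mul_le_mul_of_nonneg_right h128 (mul_pos hη hxp).le
    linarith
  have h8 : 32 ≤ δ * (x / p * (R * η)) := by
    have e : δ * (x / p * (R * η)) = δ * (x * (R * η)) / p := by ring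
    rw [e, le_div_iff₀ hp0]
    exact hpx
  have h9 : δ * (x' * (R * η)) ≤ 5 / 4 * (δ * (x / p * (R * η))) := by
    have : x' ≤ x / p * (5 / 4) := l2.trans (mul_le_mul_of_nonneg_left hexp hxp.le)
    have := mul_le_mul_of_nonneg_right this (mul_pos hδ hθ).le
    linarith
  linarith

end Pool.Agent.P.MP_a9a441_nt.FU
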