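import Pool.Agent.P.MP_a9a441_nt.FU.Spec1
import Pool.Agent.P.MP_a9a441_nt.FU.Orth

/-!
The large spectrum is small. With Ps' = primes of Ps prime to q, `pow_sum_eq` and `ech_mul` give
muh^r = ∑_{l ∈ words Ps' r} Θ l * conj (ech v (g l)), g l = (- sum of ap, unit of prod l),
‖Θ l‖ ≤ 1. By `dual_ech.o1`, ∑_v ‖muh v‖^(2r) ≤ N φ(q) #{(l, l') : g l = g l'}
≤ N q π^r r^r (2r+1) (1 + 20 r (2P)^r / (N q)) ≤ π^r r^r (2r+1) (20 r + 1) (2P)^r by `spec1`.
-/

namespace Pool.Agent.P.MP_a9a441_nt.FU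

open Finset Filter Pool.Agent.Lib.LargeSieve
open scoped ComplexConjugate

namespace SpecAux

variable {N q : ℕ} [NeZero N] [NeZero q]

/-- The group element attached to a word. -/
noncomputable def gw (N q : ℕ) (l : List ℕ) : GG N q :=
  (((-(l.map (ap (10 / N))).sum : ℤ) : ZMod N), (l.map (un q)).prod)

theorem prod_eq (θ : ℕ → ℂ) (v : VV N q) (l : List ℕ) :
    (l.map fun p => θ p * conj (ech v (((-ap (10 / N) p : ℤ) : ZMod N), un q p))).prod =
      (l.map θ).prod * conj (ech v (gw N q l)) := by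
  induction l with
  | nil => simp [gw, ech]
  | cons a l ih =>
    have h : gw N q (a :: l) = (((-ap (10 / N) a : ℤ) : ZMod N) + (gw N q l).1,
        un q a * (gw N q l).2) := by
      simp only [gw, List.map_cons, List.sum_cons, List.prod_cons]
      refine Prod.ext ?_ rfl
      push_cast
      ring
    rw [List.map_cons, List.prod_cons, ih, h, ech_mul, List.map_cons, List.prod_cons, map_mul]
    ring

theorem norm_prod_le {θ : ℕ → ℂ} (hθ : ∀ p, ‖θ p‖ ≤ 1) (l : List ℕ) :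
    ‖(l.map θ).prod‖ ≤ 1 := by
  induction l with
  | nil => simp
  | cons a l ih =>
    rw [List.map_cons, List.prod_cons, norm_mul]
    exact mul_le_one₀ (hθ a) (norm_nonneg _) ih

theorem coe_prod (l : List ℕ) (h : ∀ p ∈ l, p.Coprime q) :
    (((l.map (un q)).prod : (ZMod q)ˣ) : ZMod q) = ((l.prod : ℕ) : ZMod q) := by
  induction l with
  | nil => simp
  | cons a l ih =>
    rw [List.forall_mem_cons] at h
    rw [List.map_cons, List.prod_cons, List.prod_cons, Units.val_mul, ih h.2, coe_un h.1,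
      Nat.cast_mul]

open Classical in
theorem moment (Ps : Finset ℕ) {θ : ℕ → ℂ} (hθ : ∀ p, ‖θ p‖ ≤ 1) (r : ℕ) :
    ∑ v : VV N q, ‖muh Ps θ v‖ ^ (2 * r) ≤
      ∑ l' ∈ words (Ps.filter fun p => p.Coprime q) r,
        ∑ l ∈ words (Ps.filter fun p => p.Coprime q) r,
          if gw N q l = gw N q l' then ((N : ℝ) * q.totient) else 0 := by
  set W := words (Ps.filter fun p => p.Coprime q) r with hW
  have h1 : ∀ v : VV N q, muh Ps θ v ^ r =
      ∑ l ∈ W, (l.map θ).prod * conj (ech v (gw N q l)) := by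
    intro v
    rw [muh, pow_sum_eq]
    exact sum_congr rfl fun l _ => prod_eq θ v l
  have h2 : ((∑ v : VV N q, ‖muh Ps θ v‖ ^ (2 * r) : ℝ) : ℂ) =
      ∑ l' ∈ W, ∑ l ∈ W, (l'.map θ).prod * conj ((l.map θ).prod) *
        ∑ v : VV N q, ech v (gw N q l) * conj (ech v (gw N q l')) := by
    have h3 : ∀ v : VV N q, ((‖muh Ps θ v‖ ^ (2 * r) : ℝ) : ℂ) =
        ∑ l' ∈ W, ∑ l ∈ W, (l'.map θ).prod * conj ((l.map θ).prod) *
          (ech v (gw N q l) * conj (ech v (gw N q l'))) := by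
      intro v
      have h4 : ((‖muh Ps θ v‖ ^ (2 * r) : ℝ) : ℂ) =
          muh Ps θ v ^ r * conj (muh Ps θ v ^ r) := by
        rw [Complex.mul_conj', norm_pow, mul_comm 2 r, pow_mul]
        push_cast
        rfl
      rw [h4, h1, map_sum, sum_mul_sum]
      refine sum_congr rfl fun l' _ => sum_congr rfl fun l _ => ?_
      rw [map_mul, Complex.conj_conj]
      ring
    rw [Complex.ofReal_sum, sum_congr rfl fun v _ => h3 v, sum_comm]
    refine sum_congr rfl fun l' _ => ?_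
    rw [sum_comm]
    exact sum_congr rfl fun l _ => (mul_sum _ _ _).symm
  have h0 : 0 ≤ ∑ v : VV N q, ‖muh Ps θ v‖ ^ (2 * r) :=
    sum_nonneg fun v _ => pow_nonneg (norm_nonneg _) _
  have h5 : ∑ v : VV N q, ‖muh Ps θ v‖ ^ (2 * r) =
      ‖((∑ v : VV N q, ‖muh Ps θ v‖ ^ (2 * r) : ℝ) : ℂ)‖ := by
    rw [Complex.norm_real, Real.norm_eq_abs, abs_of_nonneg h0]
  rw [h5, h2]
  refine (norm_sum_le _ _).trans (sum_le_sum fun l' _ => ?_)
  refine (norm_sum_le _ _).trans (sum_le_sum fun l _ => ?_)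
  rw [dual_ech.o1, norm_mul, norm_mul, Complex.norm_conj]
  have h6 : ‖(l'.map θ).prod‖ * ‖(l.map θ).prod‖ ≤ 1 :=
    mul_le_one₀ (norm_prod_le hθ _) (norm_nonneg _) (norm_prod_le hθ _)
  by_cases h : gw N q l = gw N q l'
  · rw [if_pos h, if_pos h, Complex.norm_real, Real.norm_eq_abs, abs_of_nonneg (by positivity)]
    exact mul_le_of_le_one_left (by positivity) h6
  · rw [if_neg h, if_neg h, norm_zero, mul_zero]

end SpecAux

open Classical in
theorem spec {N q P r : ℕ} [NeZero N] [NeZero q] {Ps : Finset ℕ}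
    (hPs : ∀ p ∈ Ps, p.Prime ∧ P ≤ p ∧ p < 2 * P) (hne : Ps.Nonempty) {θ : ℕ → ℂ}
    (hθ : ∀ p, ‖θ p‖ ≤ 1) {c : ℝ} (hc : 0 < c) (hr : 1 ≤ r) (hrN : 20 * r ≤ N)
    (hNq : N * q ≤ P ^ r) (Ω : ℕ) :
    ((Bs N q Ps θ c Ω).card : ℝ) ≤
      (2 * r + 1) * (20 * r + 1) * (2 * r * P / (c ^ 2 * Ps.card)) ^ r := by
  have hN : 0 < N := Nat.pos_of_ne_zero (NeZero.ne N)
  have hq : 0 < q := Nat.pos_of_ne_zero (NeZero.ne q)
  have hP : 0 < P := by
    rcases Nat.eq_zero_or_pos P with h | h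
    · rw [h, zero_pow (by omega)] at hNq
      have := Nat.mul_pos hN hq
      omega
    · exact h
  have hπ : (0 : ℝ) < Ps.card := by exact_mod_cast hne.card_pos
  have hNr : (0 : ℝ) < N := by exact_mod_cast hN
  have hqr : (0 : ℝ) < q := by exact_mod_cast hq
  have hPr : (0 : ℝ) < P := by exact_mod_cast hP
  set Ps' := Ps.filter fun p => p.Coprime q with hPs'
  have hPs2 : ∀ p ∈ Ps', p.Prime ∧ P ≤ p ∧ p < 2 * P := fun p hp => hPs p (mem_filter.1 hp).1
  set B : ℝ := (r : ℝ) ^ r * (2 * r + 1) * (1 + 20 * r * (2 * P) ^ r / (N * q)) with hB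
  have hB0 : 0 ≤ B := by positivity
  have h1 : ∀ l' ∈ words Ps' r, (∑ l ∈ words Ps' r,
      if SpecAux.gw N q l = SpecAux.gw N q l' then ((N : ℝ) * q.totient) else 0) ≤
      (N : ℝ) * q * B := by
    intro l' hl'
    rw [← sum_filter, sum_const, nsmul_eq_mul, mul_comm]
    have h2 : (q.totient : ℝ) ≤ q := by exact_mod_cast Nat.totient_le q
    refine mul_le_mul (mul_le_mul_of_nonneg_left h2 hNr.le) ?_ (by positivity) (by positivity)
    refine le_trans ?_ (spec1 hN hq hP hPs2 hr hrN hl')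
    refine Nat.cast_le.2 (card_le_card fun l hl => ?_)
    rw [mem_filter] at hl ⊢
    refine ⟨hl.1, ?_, ?_⟩
    · have h3 := congrArg Prod.fst hl.2
      simp only [SpecAux.gw, Int.cast_neg, neg_inj] at h3
      exact h3
    · have h3 := congrArg Prod.snd hl.2
      simp only [SpecAux.gw] at h3
      rw [← SpecAux.coe_prod l fun p hp => (mem_filter.1 ((mem_words.1 hl.1).2 p hp)).2,
        ← SpecAux.coe_prod l' fun p hp => (mem_filter.1 ((mem_words.1 hl').2 p hp)).2, h3]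
  have h4 : ∑ v : VV N q, ‖muh Ps θ v‖ ^ (2 * r) ≤ (Ps.card : ℝ) ^ r * ((N : ℝ) * q * B) := by
    refine (SpecAux.moment Ps hθ r).trans ((sum_le_sum h1).trans ?_)
    rw [sum_const, nsmul_eq_mul, card_words]
    refine mul_le_mul_of_nonneg_right ?_ (by positivity)
    exact_mod_cast Nat.pow_le_pow_left (card_filter_le _ _) r
  have h5 : ((Bs N q Ps θ c Ω).card : ℝ) * (c * Ps.card) ^ (2 * r) ≤
      ∑ v : VV N q, ‖muh Ps θ v‖ ^ (2 * r) := by
    rw [← nsmul_eq_mul, ← sum_const]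
    refine le_trans (sum_le_sum fun v hv => ?_) (sum_le_sum_of_subset_of_nonneg
      (subset_univ (Bs N q Ps θ c Ω)) fun v _ _ => pow_nonneg (norm_nonneg _) _)
    exact pow_le_pow_left₀ (by positivity) (mem_filter.1 hv).2.1 _
  have h6 : (N : ℝ) * q * B ≤ (r : ℝ) ^ r * (2 * r + 1) * ((20 * r + 1) * (2 * P) ^ r) := by
    have h7 : (N : ℝ) * q ≤ (2 * P) ^ r := by
      have h8 : (N : ℝ) * q ≤ (P : ℝ) ^ r := by exact_mod_cast hNq
      exact h8.trans (pow_le_pow_left₀ hPr.le (by linarith) r)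
    have h9 : (N : ℝ) * q * B =
        (r : ℝ) ^ r * (2 * r + 1) * (N * q + 20 * r * (2 * P) ^ r) := by
      rw [hB]
      field_simp
    rw [h9]
    refine mul_le_mul_of_nonneg_left ?_ (by positivity)
    linarith
  have h10 : (0 : ℝ) < (c * Ps.card) ^ (2 * r) := by positivity
  refine le_of_mul_le_mul_right ?_ h10
  refine h5.trans (h4.trans ((mul_le_mul_of_nonneg_left h6 (by positivity)).trans (le_of_eq ?_)))
  have h11 : (2 * r * P / (c ^ 2 * Ps.card) : ℝ) ^ r * (c * Ps.card) ^ (2 * r) =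
      (Ps.card : ℝ) ^ r * ((r : ℝ) ^ r * (2 * P) ^ r) := by
    rw [pow_mul, ← mul_pow, ← mul_pow, ← mul_pow]
    congr 1
    field_simp
  rw [mul_assoc ((2 * (r : ℝ) + 1) * (20 * r + 1)), h11]
  ring

end Pool.Agent.P.MP_a9a441_nt.FU
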