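import Pool.Agent.P.MP_a9a441_nt.FU.Words
import Pool.Agent.P.MP_a9a441_nt.FU.Bas

/-!
Counting products of primes. Let η = 10 / N. For a word l in the set, n = prod l and n' = prod l'
satisfy n ≡ n' mod q, n ≤ (2P)^r, and |log n - log n' - 10 j| ≤ r η for an integer j with |j| ≤ r
(`ap_le`, `lt_ap`; both products lie in [P^r, (2P)^r]). For fixed j two such n differ by at most
2 r η (2P)^r, so there are at most 1 + 2 r η (2P)^r / q of them; `count_prod` for each n.
-/

namespace Pool.Agent.P.MP_a9a441_nt.FU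

open Finset Filter Pool.Agent.Lib.LargeSieve
open scoped ComplexConjugate

namespace Spec1Aux

theorem card_le_of_cong {q : ℕ} (hq : 0 < q) {D : ℝ} (hD : 0 ≤ D) (T : Finset ℕ) (z : ZMod q)
    (h1 : ∀ n ∈ T, (n : ZMod q) = z) (h2 : ∀ m ∈ T, ∀ n ∈ T, m ≤ n → (n : ℝ) - m ≤ D) :
    (T.card : ℝ) ≤ 1 + D / q := by
  have hq' : (0 : ℝ) < q := by exact_mod_cast hq
  rcases T.eq_empty_or_nonempty with h | h
  · subst h
    have : 0 ≤ D / q := by positivity
    simp only [card_empty, Nat.cast_zero]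
    linarith
  set m := T.min' h with hm
  have hmT : m ∈ T := T.min'_mem h
  have hle : ∀ n ∈ T, m ≤ n := fun n hn => T.min'_le n hn
  have hdvd : ∀ n ∈ T, q ∣ n - m := by
    intro n hn
    have e : (m : ZMod q) = (n : ZMod q) := by rw [h1 n hn, h1 m hmT]
    exact (Nat.modEq_iff_dvd' (hle n hn)).1 ((ZMod.natCast_eq_natCast_iff _ _ _).1 e)
  have hc : T.card ≤ (range (⌊D / q⌋₊ + 1)).card := by
    refine card_le_card_of_injOn (fun n => (n - m) / q) ?_ ?_
    · intro n hn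
      have hn' : n ∈ T := hn
      simp only [coe_range, Set.mem_Iio]
      refine Nat.lt_succ_of_le (Nat.le_floor ?_)
      rw [le_div_iff₀ hq']
      have e : (n - m) / q * q = n - m := Nat.div_mul_cancel (hdvd n hn')
      have e' : (((n - m) / q : ℕ) : ℝ) * q = (n : ℝ) - m := by
        rw [← Nat.cast_sub (hle n hn')]
        exact_mod_cast e
      rw [e']
      exact h2 m hmT n hn' (hle n hn')
    · intro a ha b hb hab
      have ha' : a ∈ T := ha
      have hb' : b ∈ T := hb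
      have e1 := Nat.div_mul_cancel (hdvd a ha')
      have e2 := Nat.div_mul_cancel (hdvd b hb')
      simp only at hab
      rw [hab] at e1
      have := hle a ha'
      have := hle b hb'
      omega
  rw [card_range] at hc
  have h3 : (⌊D / q⌋₊ : ℝ) ≤ D / q := Nat.floor_le (by positivity)
  have h4 : (T.card : ℝ) ≤ (⌊D / q⌋₊ : ℝ) + 1 := by exact_mod_cast hc
  linarith

theorem log_prod {η : ℝ} (hη : 0 < η) {P : ℕ} (hP : 0 < P) (l : List ℕ)
    (hl : ∀ p ∈ l, P ≤ p ∧ p < 2 * P) :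
    η * ((l.map (ap η)).sum : ℤ) ≤ Real.log (l.prod : ℕ) ∧
      Real.log (l.prod : ℕ) ≤ η * ((l.map (ap η)).sum : ℤ) + l.length * η ∧
      P ^ l.length ≤ l.prod ∧ l.prod ≤ (2 * P) ^ l.length := by
  induction l with
  | nil => simp
  | cons p l ih =>
    obtain ⟨k1, k2, k3, k4⟩ := ih fun q hq => hl q (List.mem_cons_of_mem _ hq)
    obtain ⟨k5, k6⟩ := hl p List.mem_cons_self
    have hp0 : (0 : ℝ) < p := by exact_mod_cast hP.trans_le k5
    have hl0 : (0 : ℝ) < (l.prod : ℕ) := by exact_mod_cast (pow_pos hP _).trans_le k3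
    have a1 := ap_le hη p
    have a2 := lt_ap hη p
    simp only [List.map_cons, List.sum_cons, List.prod_cons, List.length_cons, pow_succ']
    refine ⟨?_, ?_, Nat.mul_le_mul k5 k3, Nat.mul_le_mul k6.le k4⟩
    · rw [Nat.cast_mul, Real.log_mul hp0.ne' hl0.ne', Int.cast_add]
      linarith
    · rw [Nat.cast_mul, Real.log_mul hp0.ne' hl0.ne', Int.cast_add, Nat.cast_add, Nat.cast_one]
      linarith

theorem sub_le_log {m n : ℝ} (hm : 0 < m) (hn : 0 < n) :
    n - m ≤ n * (Real.log n - Real.log m) := by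
  have h := Real.log_le_sub_one_of_pos (div_pos hm hn)
  rw [Real.log_div hm.ne' hn.ne'] at h
  have h2 : n * (Real.log m - Real.log n) ≤ n * (m / n - 1) :=
    mul_le_mul_of_nonneg_left h hn.le
  have h3 : n * (m / n - 1) = m - n := by field_simp
  linarith

end Spec1Aux

open Spec1Aux

theorem spec1 {N q P r : ℕ} (hN : 0 < N) (hq : 0 < q) (hP : 0 < P) {Ps : Finset ℕ}
    (hPs : ∀ p ∈ Ps, p.Prime ∧ P ≤ p ∧ p < 2 * P) (hr : 1 ≤ r) (hrN : 20 * r ≤ N)
    {l' : List ℕ} (hl' : l' ∈ words Ps r) :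
    (((words Ps r).filter fun l =>
      (((l.map (ap (10 / N))).sum : ℤ) : ZMod N) = (((l'.map (ap (10 / N))).sum : ℤ) : ZMod N) ∧
      ((l.prod : ℕ) : ZMod q) = ((l'.prod : ℕ) : ZMod q)).card : ℝ) ≤
      (r : ℝ) ^ r * (2 * r + 1) * (1 + 20 * r * (2 * P) ^ r / (N * q)) := by
  classical
  have hN' : (0 : ℝ) < N := by exact_mod_cast hN
  have hq' : (0 : ℝ) < q := by exact_mod_cast hq
  have hP' : (0 : ℝ) < P := by exact_mod_cast hP
  have hr' : (1 : ℝ) ≤ r := by exact_mod_cast hr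
  have hrN' : (20 : ℝ) * r ≤ N := by exact_mod_cast hrN
  set η : ℝ := 10 / N with hη
  have hη0 : 0 < η := by positivity
  have hηN : η * N = 10 := by rw [hη]; field_simp
  have hrη : r * η ≤ 1 / 2 := by
    rw [hη, ← mul_div_assoc, div_le_iff₀ hN']
    linarith
  have hb : ∀ l ∈ words Ps r, η * ((l.map (ap η)).sum : ℤ) ≤ Real.log (l.prod : ℕ) ∧
      Real.log (l.prod : ℕ) ≤ η * ((l.map (ap η)).sum : ℤ) + r * η ∧
      P ^ r ≤ l.prod ∧ l.prod ≤ (2 * P) ^ r := by
    intro l hl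
    obtain ⟨e1, e2⟩ := mem_words.1 hl
    have := log_prod hη0 hP l fun p hp => (hPs p (e2 p hp)).2
    rwa [e1] at this
  set c : ℝ := η * ((l'.map (ap η)).sum : ℤ) with hc
  set D : ℝ := r * η * (2 * P) ^ r with hD
  have hD0 : 0 ≤ D := by positivity
  let T : ℤ → Finset ℕ := fun j => (Icc 1 ((2 * P) ^ r)).filter fun n =>
    c + 10 * j ≤ Real.log n ∧ Real.log n ≤ c + 10 * j + r * η ∧
      (n : ZMod q) = ((l'.prod : ℕ) : ZMod q)
  have hT : ∀ j, ((T j).card : ℝ) ≤ 1 + D / q := by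
    intro j
    refine card_le_of_cong hq hD0 _ ((l'.prod : ℕ) : ZMod q)
      (fun n hn => (mem_filter.1 hn).2.2.2) ?_
    intro m hm n hn _
    obtain ⟨m1, m2, -, -⟩ := mem_filter.1 hm
    obtain ⟨n1, -, n3, -⟩ := mem_filter.1 hn
    obtain ⟨m4, -⟩ := mem_Icc.1 m1
    obtain ⟨n4, n5⟩ := mem_Icc.1 n1
    have hm0 : (0 : ℝ) < m := by exact_mod_cast m4
    have hn0 : (0 : ℝ) < n := by exact_mod_cast n4
    have hn5 : (n : ℝ) ≤ (2 * P) ^ r := by exact_mod_cast n5
    have h1 := sub_le_log hm0 hn0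
    have h2 : n * (Real.log n - Real.log m) ≤ n * (r * η) :=
      mul_le_mul_of_nonneg_left (by linarith) hn0.le
    have h3 : n * (r * η) ≤ (2 * P) ^ r * (r * η) :=
      mul_le_mul_of_nonneg_right hn5 (by positivity)
    rw [hD]
    linarith
  have hlog : ∀ n : ℕ, P ^ r ≤ n → n ≤ (2 * P) ^ r →
      r * Real.log P ≤ Real.log n ∧ Real.log n ≤ r * Real.log P + r := by
    intro n h1 h2
    have h1' : (P : ℝ) ^ r ≤ n := by exact_mod_cast h1
    have h2' : (n : ℝ) ≤ (2 * P) ^ r := by exact_mod_cast h2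
    have hn0 : (0 : ℝ) < n := (pow_pos hP' r).trans_le h1'
    have a1 := Real.log_le_log (pow_pos hP' r) h1'
    have a2 := Real.log_le_log hn0 h2'
    rw [Real.log_pow] at a1 a2
    rw [Real.log_mul (by norm_num) hP'.ne'] at a2
    have a3 : Real.log 2 ≤ 1 := by
      have := Real.log_le_sub_one_of_pos (x := 2) (by norm_num)
      linarith
    have a4 : (r : ℝ) * Real.log 2 ≤ r * 1 := mul_le_mul_of_nonneg_left a3 (by positivity)
    refine ⟨a1, ?_⟩
    nlinarith
  have hsub : ((words Ps r).filter fun l =>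
      (((l.map (ap η)).sum : ℤ) : ZMod N) = (((l'.map (ap η)).sum : ℤ) : ZMod N) ∧
      ((l.prod : ℕ) : ZMod q) = ((l'.prod : ℕ) : ZMod q)) ⊆
      (Icc (-(r : ℤ)) r).biUnion fun j => (T j).biUnion fun n =>
        (words Ps r).filter fun l => l.prod = n := by
    intro l hl
    obtain ⟨hw, e1, e2⟩ := mem_filter.1 hl
    obtain ⟨j, hj⟩ := (ZMod.intCast_eq_intCast_iff_dvd_sub _ _ _).1 e1.symm
    obtain ⟨b1, b2, b3, b4⟩ := hb l hw
    obtain ⟨c1, c2, c3, c4⟩ := hb l' hl'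
    obtain ⟨d1, d2⟩ := hlog _ b3 b4
    obtain ⟨d3, d4⟩ := hlog _ c3 c4
    have hj' : (((l.map (ap η)).sum : ℤ) : ℝ) - (((l'.map (ap η)).sum : ℤ) : ℝ) = N * j := by
      exact_mod_cast hj
    have he : η * (((l.map (ap η)).sum : ℤ) : ℝ) = c + 10 * j := by
      rw [hc, ← hηN, mul_assoc, ← hj']
      ring
    rw [he] at b1 b2
    have j1 : (-(r : ℝ)) ≤ j := by linarith
    have j2 : (j : ℝ) ≤ r := by linarith
    refine mem_biUnion.2 ⟨j, mem_Icc.2 ⟨by exact_mod_cast j1, by exact_mod_cast j2⟩, ?_⟩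
    refine mem_biUnion.2 ⟨l.prod, mem_filter.2 ⟨mem_Icc.2 ⟨?_, b4⟩, b1, b2, e2⟩,
      mem_filter.2 ⟨hw, rfl⟩⟩
    exact (pow_pos hP r).trans_le b3
  have hcard := card_le_card hsub
  have h1 : ∀ j, (((T j).biUnion fun n => (words Ps r).filter fun l => l.prod = n).card : ℝ) ≤
      (1 + D / q) * (r : ℝ) ^ r := by
    intro j
    have h2 := card_biUnion_le_card_mul (T j)
      (fun n => (words Ps r).filter fun l => l.prod = n) (r ^ r)
      (fun n _ => count_prod (fun p hp => (hPs p hp).1) r n)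
    have h3 : ((((T j).biUnion fun n => (words Ps r).filter fun l => l.prod = n).card : ℕ) : ℝ) ≤
        ((T j).card : ℝ) * (r : ℝ) ^ r := by exact_mod_cast h2
    exact h3.trans (mul_le_mul_of_nonneg_right (hT j) (by positivity))
  have h4 : ((((Icc (-(r : ℤ)) r).biUnion fun j => (T j).biUnion fun n =>
        (words Ps r).filter fun l => l.prod = n).card : ℕ) : ℝ) ≤
      (2 * r + 1) * ((1 + D / q) * (r : ℝ) ^ r) := by
    have h5 : ((((Icc (-(r : ℤ)) r).biUnion fun j => (T j).biUnion fun n =>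
        (words Ps r).filter fun l => l.prod = n).card : ℕ) : ℝ) ≤
        ∑ j ∈ Icc (-(r : ℤ)) r, (((T j).biUnion fun n =>
          (words Ps r).filter fun l => l.prod = n).card : ℝ) := by
      exact_mod_cast card_biUnion_le
    refine h5.trans ((sum_le_card_nsmul _ _ _ fun j _ => h1 j).trans (le_of_eq ?_))
    rw [nsmul_eq_mul, Int.card_Icc]
    have : ((r : ℤ) + 1 - -(r : ℤ)).toNat = 2 * r + 1 := by omega
    rw [this]
    push_cast
    ring
  have h6 : D / q ≤ 20 * r * (2 * P) ^ r / (N * q) := by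
    have e : D / q = 10 * r * (2 * P) ^ r / (N * q) := by
      rw [hD, hη]
      field_simp
    rw [e]
    gcongr
    norm_num
  refine le_trans (by exact_mod_cast hcard) (h4.trans ?_)
  have h7 : (2 * r + 1) * ((1 + D / q) * (r : ℝ) ^ r) =
      (r : ℝ) ^ r * (2 * r + 1) * (1 + D / q) := by ring
  rw [h7]
  gcongr

end Pool.Agent.P.MP_a9a441_nt.FU
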