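import Pool.Agent.P.MP_a9a441_nt.FU.CL
import Pool.Agent.P.MP_a9a441_nt.FU.GeoL

/-!
Summing over the classes. Apply `geo` with J = X^9 h (J / X^10 = η), P = 2^j, τ = β - s,
E₀ = Q.E₀, Y = Ico y0 (y0 + N) (3 E₀ / η ≤ 6912 X^3 ≤ X^9 by `δX`). Let
S₂ = {y ∈ S₁ ∩ S0 : den (s y) ≤ X^5}, cls y = (den (s y), κ y). Every edge of E' has both ends in S₂
with the same class (`den_eq`). Apply `cl` to every class in the image of S₂ and add up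
(`Finset.sum_fiberwise_of_maps_to`, `card_eq_sum_card_fiberwise`). Cauchy-Schwarz gives
∑ dTK ≤ θ N π; `sum_d3` with `Par.range` gives ∑_y d3 ≤ 4 ε₆ / η ≤ 4 ε₆ N for each p.
-/

namespace Pool.Agent.P.MP_a9a441_nt.FU

open Finset Filter Pool.Agent.Lib.LargeSieve
open scoped ComplexConjugate

namespace SumAux

theorem eta_pos (Q : Par) : 0 < Q.η := by
  have h1 : (0 : ℝ) < Q.h := by exact_mod_cast Q.hh
  have h2 : (0 : ℝ) < Q.X := by exact_mod_cast lt_of_lt_of_le (by norm_num) Q.hX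
  exact div_pos h1 h2

theorem J_eq (Q : Par) : ((Q.X ^ 9 * Q.h : ℕ) : ℝ) / (Q.X : ℝ) ^ 10 = Q.η := by
  have h2 : (0 : ℝ) < Q.X := by exact_mod_cast lt_of_lt_of_le (by norm_num) Q.hX
  unfold Par.η
  push_cast
  field_simp

theorem eps6 (Q : Par) : 0 ≤ Q.ε₆ :=
  le_trans (sum_nonneg fun m _ => div_nonneg (abs_nonneg _) (Nat.cast_nonneg m)) Q.wt.near

theorem eps7 (Q : Par) : 0 ≤ Q.ε₇ := by
  have h1 := Q.c0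
  have h2 : 0 ≤ Q.G := le_trans zero_le_one Q.G1
  have h3 := Q.ε₅0
  unfold Par.ε₇
  positivity

theorem dTK_nonneg (Q : Par) (y : ℤ) (α : ℝ) (p : ℕ) : 0 ≤ dTK (xx Q.η y) (Q.ρ * Q.η) α p := by
  have h1 := eta_pos Q
  have h2 := xx_pos Q.η y
  unfold dTK
  positivity

theorem d3_nonneg (Q : Par) (y : ℤ) (p : ℕ) : 0 ≤ d3 Q.g (xx Q.η y) (Q.ρ * Q.η) p := by
  have h1 := eta_pos Q
  unfold d3
  positivity

theorem hyp (Q : Par) (β : ℤ → ℝ) (s : ℤ → ℚ) (S0 : Finset ℤ)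
    (hS : S0 ⊆ Ico Q.y0 (Q.y0 + Q.N)) (E : Finset (ℤ × Lb))
    (hE : ∀ e ∈ E, e.1 ∈ S0 ∧ st (ap Q.η) e.1 e.2 ∈ S0 ∧ e.2.1 ∈ Pj Q.j ∧ e.2.2 ∈ Pj Q.j ∧
      Cons (ap Q.η) β s (Q.X ^ 5) ((Q.X : ℝ) ^ 7)
        (288 / Q.δ ^ 2 * 2 ^ Q.j / (Q.X * (Q.ρ ^ 2 * Q.η))) e) :
    GeoHyp Q.X (Q.X ^ 9 * Q.h) (2 ^ Q.j) Q.E₀ (288 / Q.δ ^ 2 * 2 ^ Q.j / (Q.X * (Q.ρ ^ 2 * Q.η)))
      (Ico Q.y0 (Q.y0 + Q.N)) (fun y => β y - s y) E := by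
  have hη := eta_pos Q
  have hX : (10 : ℝ) ≤ Q.X := by exact_mod_cast Q.hX
  have hX0 : (0 : ℝ) < Q.X := by linarith
  have hρ : (88 : ℝ) ≤ Q.ρ := by exact_mod_cast Q.hρ
  have hρ2 : (1 : ℝ) ≤ (Q.ρ : ℝ) ^ 2 := by nlinarith
  have h0 : (Q.ρ : ℝ) ^ 2 * Q.η ≤ 1 / 10 := Q.η0
  have hδ := Q.δ0
  have hδ2 : Q.δ ^ 2 ≤ 1 := by nlinarith [Q.δ1]
  have hρη : 0 < (Q.ρ : ℝ) ^ 2 * Q.η := by positivity
  have hXη : 1 ≤ Q.X * Q.η := by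
    have h1 : (1 : ℝ) ≤ Q.h := by exact_mod_cast Q.hh
    unfold Par.η
    rw [mul_div_cancel₀ _ hX0.ne']
    exact h1
  refine ⟨Q.hX, ?_, Nat.one_le_two_pow, ?_, ?_, ?_, ?_, ?_, ?_, ?_, ?_⟩
  · calc Q.X ^ 2 ≤ Q.X ^ 9 := Nat.pow_le_pow_right (le_trans (by norm_num) Q.hX) (by norm_num)
      _ ≤ Q.X ^ 9 * Q.h := Nat.le_mul_of_pos_right _ Q.hh
  · rw [J_eq]
    nlinarith
  · unfold Par.E₀
    rw [le_div_iff₀ hρη, le_div_iff₀ (by positivity)]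
    nlinarith [mul_le_mul h0 hδ2 (by positivity) (by norm_num : (0 : ℝ) ≤ 1 / 10)]
  · refine le_of_eq ?_
    unfold Par.E₀
    push_cast
    field_simp
    norm_num
  · rw [J_eq]
    unfold Par.E₀
    have e : 3 * (2304 / Q.δ ^ 2 / ((Q.ρ : ℝ) ^ 2 * Q.η)) / Q.η =
        6912 / (Q.δ ^ 2 * ((Q.ρ : ℝ) ^ 2 * (Q.η * Q.η))) := by
      field_simp
      norm_num
    rw [e, div_le_iff₀ (by positivity)]
    have h6 : (10 : ℝ) ^ 6 ≤ (Q.X : ℝ) ^ 6 := pow_le_pow_left₀ (by norm_num) hX 6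
    have h7 : 1 ≤ (Q.δ ^ 2 * Q.X) * ((Q.ρ : ℝ) ^ 2 * ((Q.X * Q.η) * (Q.X * Q.η))) :=
      one_le_mul_of_one_le_of_one_le Q.δX
        (one_le_mul_of_one_le_of_one_le hρ2 (one_le_mul_of_one_le_of_one_le hXη hXη))
    calc (6912 : ℝ) ≤ 10 ^ 6 * 1 := by norm_num
      _ ≤ (Q.X : ℝ) ^ 6 * ((Q.δ ^ 2 * Q.X) * ((Q.ρ : ℝ) ^ 2 * ((Q.X * Q.η) * (Q.X * Q.η)))) :=
        mul_le_mul h6 h7 zero_le_one (by positivity)
      _ = _ := by ring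
  · rw [J_eq]
    exact Q.hY
  · rw [J_eq]
    intro e he
    obtain ⟨h1, h2, h3, h4, -⟩ := hE e he
    exact ⟨hS h1, hS h2, (mem_Pj.mp h3).2.1, (mem_Pj.mp h3).2.2, (mem_Pj.mp h4).2.1,
      (mem_Pj.mp h4).2.2⟩
  · rw [J_eq]
    intro e he
    exact ⟨(hE e he).2.2.2.2.bd1, (hE e he).2.2.2.2.bd2⟩
  · rw [J_eq]
    intro e he
    exact (hE e he).2.2.2.2.near

theorem card_Y (Q : Par) : (Ico Q.y0 (Q.y0 + Q.N)).card = Q.N := by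
  simp

theorem sum_TK (Q : Par) (β : ℤ → ℝ) {θ : ℝ} (hθ : 0 ≤ θ)
    (hd : ∑ y ∈ Ico Q.y0 (Q.y0 + Q.N), ∑ p ∈ Pj Q.j, dTK (xx Q.η y) (Q.ρ * Q.η) (β y) p ^ 2 ≤
      θ ^ 2 * Q.N * (Pj Q.j).card) :
    ∑ y ∈ Ico Q.y0 (Q.y0 + Q.N), ∑ p ∈ Pj Q.j, dTK (xx Q.η y) (Q.ρ * Q.η) (β y) p ≤
      θ * Q.N * (Pj Q.j).card := by
  have h1 := sq_sum_le_card_mul_sum_sq (s := Ico Q.y0 (Q.y0 + Q.N) ×ˢ Pj Q.j)
    (f := fun z : ℤ × ℕ => dTK (xx Q.η z.1) (Q.ρ * Q.η) (β z.1) z.2)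
  rw [sum_product, sum_product, card_product, card_Y] at h1
  refine (pow_le_pow_iff_left₀
    (sum_nonneg fun y _ => sum_nonneg fun p _ => dTK_nonneg Q y _ p) (by positivity)
    two_ne_zero).mp (h1.trans ?_)
  refine (mul_le_mul_of_nonneg_left hd (Nat.cast_nonneg _)).trans (le_of_eq ?_)
  push_cast
  ring

theorem sum_D3 (Q : Par) :
    ∑ y ∈ Ico Q.y0 (Q.y0 + Q.N), ∑ p ∈ Pj Q.j, d3 Q.g (xx Q.η y) (Q.ρ * Q.η) p ≤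
      4 * Q.ε₆ * Q.N * (Pj Q.j).card := by
  have hη := eta_pos Q
  have h6 := eps6 Q
  rw [sum_comm]
  refine (sum_le_card_nsmul _ _ (4 * Q.ε₆ * Q.N) fun p hp => ?_).trans (le_of_eq ?_)
  · refine (sum_d3 hη (le_trans (by norm_num) Q.hρ) (mem_Pj.mp hp).1.pos (by positivity) Q.g _
      (fun y hy => Q.range hy hp) Q.wt.near).trans ?_
    rw [div_le_iff₀ hη]
    have h1 : 1 ≤ (Q.N : ℝ) * Q.η := Q.hN
    nlinarith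
  · rw [nsmul_eq_mul]
    ring

end SumAux

theorem sum_cl (Q : Par) (β : ℤ → ℝ) (s : ℤ → ℚ) (S0 : Finset ℤ)
    (hS : S0 ⊆ Ico Q.y0 (Q.y0 + Q.N))
    (hb : ∀ y ∈ S0, Q.δ * (xx Q.η y * (Q.ρ * Q.η)) ≤ ‖Sm (xx Q.η y) (Q.ρ * Q.η) (β y)‖)
    {θ : ℝ} (hθ : 0 ≤ θ)
    (hd : ∑ y ∈ Ico Q.y0 (Q.y0 + Q.N), ∑ p ∈ Pj Q.j, dTK (xx Q.η y) (Q.ρ * Q.η) (β y) p ^ 2 ≤
      θ ^ 2 * Q.N * (Pj Q.j).card)
    (E : Finset (ℤ × Lb))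
    (hE : ∀ e ∈ E, e.1 ∈ S0 ∧ st (ap Q.η) e.1 e.2 ∈ S0 ∧ e.2.1 ∈ Pj Q.j ∧ e.2.2 ∈ Pj Q.j ∧
      Cons (ap Q.η) β s (Q.X ^ 5) ((Q.X : ℝ) ^ 7)
        (288 / Q.δ ^ 2 * 2 ^ Q.j / (Q.X * (Q.ρ ^ 2 * Q.η))) e) :
    Q.δ / 16 * E.card / ((Pj Q.j).card : ℝ) ^ 2 ≤ 133 * (θ + 4 * Q.ε₆ + Q.ε₇) * Q.N := by
  classical
  obtain ⟨E', hE', hcard, S₁, κ, Tc, Om, ys, G⟩ := geo (SumAux.hyp Q β s S0 hS E hE)
  rw [SumAux.J_eq] at G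
  have hπ : (0 : ℝ) < (Pj Q.j).card := by exact_mod_cast Q.ne.card_pos
  have hδ := Q.δ0
  have h7 := SumAux.eps7 Q
  set S₂ : Finset ℤ := (S₁ ∩ S0).filter fun y => (s y).den ≤ Q.X ^ 5 with hS₂
  set cls : ℤ → ℕ × (ℤ × ℤ) := fun y => ((s y).den, κ y) with hcls
  set F : ℤ → ℝ := fun y => ∑ p ∈ Pj Q.j,
    (dTK (xx Q.η y) (Q.ρ * Q.η) (β y) p + d3 Q.g (xx Q.η y) (Q.ρ * Q.η) p) with hF
  have m2 : ∀ y, y ∈ S₂ ↔ (y ∈ S₁ ∧ y ∈ S0) ∧ (s y).den ≤ Q.X ^ 5 := fun y => by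
    rw [hS₂, mem_filter, mem_inter]
  have hsub : S₂ ⊆ Ico Q.y0 (Q.y0 + Q.N) := fun y hy => hS ((m2 y).mp hy).1.2
  have hed : ∀ e ∈ E', e.1 ∈ S₂ ∧ st (ap Q.η) e.1 e.2 ∈ S₂ ∧
      cls (st (ap Q.η) e.1 e.2) = cls e.1 := fun e he => by
    obtain ⟨h1, h2, h3, h4, c⟩ := hE e (hE' he)
    obtain ⟨g1, g2, g3, -⟩ := G.edge e he
    refine ⟨(m2 _).mpr ⟨⟨g1, h1⟩, c.den1⟩, (m2 _).mpr ⟨⟨g2, h2⟩, c.den2⟩, ?_⟩
    exact Prod.ext (den_eq (mem_Pj.mp h3).1 (mem_Pj.mp h4).1 c.nd1 c.nd2 c.int).symm g3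
  have key : ∀ k ∈ S₂.image cls,
      Q.δ / 4 * (E'.filter fun e => cls e.1 = k).card / ((Pj Q.j).card : ℝ) ^ 2 ≤
        133 / (Pj Q.j).card * ∑ y ∈ S₂.filter fun y => cls y = k, F y +
          133 * (S₂.filter fun y => cls y = k).card * Q.ε₇ := by
    intro k hk
    obtain ⟨y₀, hy₀, rfl⟩ := mem_image.mp hk
    have h₀ := (m2 y₀).mp hy₀
    have mk : ∀ y ∈ S₂.filter fun y => cls y = cls y₀,
        y ∈ S₂ ∧ (s y).den = (s y₀).den ∧ κ y = κ y₀ := fun y hy => by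
      obtain ⟨h1, h2⟩ := mem_filter.mp hy
      exact ⟨h1, congrArg Prod.fst h2, congrArg Prod.snd h2⟩
    refine cl Q β s h₀.2 (Tc (κ y₀)) _ ys (fun y hy => hsub (mk y hy).1)
      (fun y hy => (mk y hy).2.1) (fun y hy => hb y ((m2 y).mp (mk y hy).1).1.2)
      (fun y hy => G.pos y ((m2 y).mp (mk y hy).1).1.1) (G.om1 y₀ h₀.1.1) (G.om2 y₀ h₀.1.1)
      (fun y hy => ?_) (G.t2 y₀ h₀.1.1) (G.t3 y₀ h₀.1.1) _ fun e he => ?_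
    · rw [← (mk y hy).2.2]
      exact G.t1 y ((m2 y).mp (mk y hy).1).1.1
    · obtain ⟨he1, he2⟩ := mem_filter.mp he
      obtain ⟨a1, a2, a3⟩ := hed e he1
      obtain ⟨h1, h2, h3, h4, c⟩ := hE e (hE' he1)
      have b1 : e.1 ∈ S₂.filter fun y => cls y = cls y₀ := mem_filter.mpr ⟨a1, he2⟩
      have b2 : st (ap Q.η) e.1 e.2 ∈ S₂.filter fun y => cls y = cls y₀ :=
        mem_filter.mpr ⟨a2, a3.trans he2⟩
      refine ⟨b1, b2, h3, h4, ?_, ?_, c.int, ?_⟩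
      · rw [← (mk _ b1).2.1]
        exact c.nd1
      · rw [← (mk _ b2).2.1]
        exact c.nd2
      · rw [← (mk _ b1).2.2]
        exact (G.edge e he1).2.2.2
  have tot := sum_le_sum key
  have c1 : (E'.card : ℝ) = ∑ k ∈ S₂.image cls, ((E'.filter fun e => cls e.1 = k).card : ℝ) := by
    exact_mod_cast card_eq_sum_card_fiberwise (f := fun e : ℤ × Lb => cls e.1)
      fun e he => mem_coe.mpr (mem_image_of_mem cls (hed e (mem_coe.mp he)).1)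
  have c2 : (S₂.card : ℝ) = ∑ k ∈ S₂.image cls, ((S₂.filter fun y => cls y = k).card : ℝ) := by
    exact_mod_cast card_eq_sum_card_fiberwise (f := cls)
      fun y hy => mem_coe.mpr (mem_image_of_mem cls (mem_coe.mp hy))
  have c3 : ∑ k ∈ S₂.image cls, ∑ y ∈ S₂.filter fun y => cls y = k, F y = ∑ y ∈ S₂, F y :=
    sum_fiberwise_of_maps_to (fun y hy => mem_image_of_mem cls hy) F
  rw [← sum_div, ← mul_sum, ← c1, sum_add_distrib, ← mul_sum, c3, ← sum_mul, ← mul_sum,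
    ← c2] at tot
  have d1 : ∑ y ∈ S₂, F y ≤ (θ + 4 * Q.ε₆) * Q.N * (Pj Q.j).card := by
    refine (sum_le_sum_of_subset_of_nonneg hsub fun y _ _ => sum_nonneg fun p _ =>
      add_nonneg (SumAux.dTK_nonneg Q y _ p) (SumAux.d3_nonneg Q y p)).trans ?_
    simp only [hF, sum_add_distrib]
    have := add_le_add (SumAux.sum_TK Q β hθ hd) (SumAux.sum_D3 Q)
    linarith
  have d2 : (S₂.card : ℝ) ≤ Q.N := by
    exact_mod_cast (card_le_card hsub).trans (SumAux.card_Y Q).le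
  have d3' : (E.card : ℝ) ≤ 4 * E'.card := by exact_mod_cast hcard
  calc Q.δ / 16 * E.card / ((Pj Q.j).card : ℝ) ^ 2
      ≤ Q.δ / 4 * E'.card / ((Pj Q.j).card : ℝ) ^ 2 := by
        refine div_le_div_of_nonneg_right ?_ (by positivity)
        nlinarith
    _ ≤ _ := tot
    _ ≤ 133 / (Pj Q.j).card * ((θ + 4 * Q.ε₆) * Q.N * (Pj Q.j).card) + 133 * Q.N * Q.ε₇ := by
        gcongr
    _ = _ := by
        field_simp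

end Pool.Agent.P.MP_a9a441_nt.FU
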