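import Pool.Agent.P.MP_a9a441_nt.FU.Defs

/-!
Parseval and the trilinear inequality. For a set B let f^B g = n⁻¹ ∑_{v ∈ B} hat f v * e v g.
By `o1`, f = f^univ; by `o2`, ∑ ‖f^B‖^2 = n⁻¹ ∑_{v ∈ B} ‖hat f v‖^2. Write
f₁ f₂ - f₁^B f₂^B = (f₁ - f₁^B) f₂ + f₁^B (f₂ - f₂^B). For the main term group the pairs (v₁, v₂)
by v = v₁ v₂; for fixed v, ∑ ‖hat f₁ v₁‖ ‖hat f₂ (v₁⁻¹ v)‖ ≤ n a by Cauchy-Schwarz.
-/

namespace Pool.Agent.P.MP_a9a441_nt.FU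

open Finset Filter Pool.Agent.Lib.LargeSieve
open scoped ComplexConjugate

variable {V G : Type*} [CommGroup V] [Fintype V] [Fintype G] {e : V → G → ℂ} {n : ℝ}

namespace TriAux

theorem csq (z : ℂ) : ((‖z‖ ^ 2 : ℝ) : ℂ) = z * conj z := by
  rw [Complex.mul_conj, Complex.normSq_eq_norm_sq]

open Classical in
theorem syn {I J : Type*} [Fintype J] {w : I → J → ℂ} {n : ℝ}
    (hw : ∀ i i', ∑ j, w i j * conj (w i' j) = if i = i' then (n : ℂ) else 0)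
    (B : Finset I) (c : I → ℂ) :
    ∑ j, ‖∑ i ∈ B, c i * w i j‖ ^ 2 = n * ∑ i ∈ B, ‖c i‖ ^ 2 := by
  apply Complex.ofReal_injective
  rw [Complex.ofReal_mul, Complex.ofReal_sum, Complex.ofReal_sum]
  simp only [csq, map_sum, map_mul]
  have h1 : ∀ j, (∑ i ∈ B, c i * w i j) * (∑ i ∈ B, conj (c i) * conj (w i j)) =
      ∑ i ∈ B, ∑ i' ∈ B, (c i * conj (c i')) * (w i j * conj (w i' j)) := by
    intro j
    rw [sum_mul_sum]
    refine sum_congr rfl fun i _ => sum_congr rfl fun i' _ => by ring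
  simp only [h1]
  rw [sum_comm, mul_sum]
  refine sum_congr rfl fun i hi => ?_
  rw [sum_comm]
  have h2 : ∀ i' ∈ B, ∑ j, (c i * conj (c i')) * (w i j * conj (w i' j)) =
      if i = i' then (n : ℂ) * (c i * conj (c i)) else 0 := by
    intro i' _
    rw [← mul_sum, hw]
    split_ifs with hh
    · subst hh; ring
    · simp
  rw [sum_congr rfl h2, sum_ite_eq]
  simp [hi]

theorem cs {I : Type*} (s : Finset I) (x y : I → ℝ) {A : ℝ} (hA : 0 ≤ A) {p q : ℝ}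
    (hx : ∑ i ∈ s, x i ^ 2 ≤ p) (hy : ∑ i ∈ s, y i ^ 2 ≤ q) (hpq : p * q ≤ A ^ 2) :
    ∑ i ∈ s, x i * y i ≤ A := by
  have h1 := sum_mul_sq_le_sq_mul_sq s x y
  have hx0 : 0 ≤ ∑ i ∈ s, x i ^ 2 := sum_nonneg fun i _ => sq_nonneg _
  have hy0 : 0 ≤ ∑ i ∈ s, y i ^ 2 := sum_nonneg fun i _ => sq_nonneg _
  have h2 : (∑ i ∈ s, x i ^ 2) * ∑ i ∈ s, y i ^ 2 ≤ p * q :=
    mul_le_mul hx hy hy0 (hx0.trans hx)
  exact (abs_le_of_sq_le_sq' (h1.trans (h2.trans hpq)) hA).2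

/-- The projection onto the frequencies in `B`. -/
noncomputable def pr (e : V → G → ℂ) (n : ℝ) (B : Finset V) (f : G → ℂ) (g : G) : ℂ :=
  ∑ v ∈ B, ((n : ℂ)⁻¹ * hat e f v) * e v g

theorem pr_univ (h : Dual e n) (f : G → ℂ) (g : G) : pr e n univ f g = f g := by
  classical
  have hn : (n : ℂ) ≠ 0 := by exact_mod_cast h.pos.ne'
  unfold pr hat
  have h1 : ∀ v, ((n : ℂ)⁻¹ * ∑ g', f g' * conj (e v g')) * e v g =
      ∑ g', ((n : ℂ)⁻¹ * f g') * (e v g * conj (e v g')) := by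
    intro v
    rw [mul_sum, sum_mul]
    exact sum_congr rfl fun g' _ => by ring
  simp only [h1]
  rw [sum_comm]
  have h2 : ∀ g' ∈ (univ : Finset G), ∑ v, ((n : ℂ)⁻¹ * f g') * (e v g * conj (e v g')) =
      if g = g' then f g else 0 := by
    intro g' _
    rw [← mul_sum, h.o1]
    split_ifs with hh
    · subst hh; field_simp
    · simp
  rw [sum_congr rfl h2, sum_ite_eq]
  simp

theorem pr_norm (h : Dual e n) (B : Finset V) (f : G → ℂ) :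
    ∑ g, ‖pr e n B f g‖ ^ 2 = n⁻¹ * ∑ v ∈ B, ‖hat e f v‖ ^ 2 := by
  unfold pr
  rw [syn h.o2 B]
  have hn := h.pos
  have h1 : ∀ v, ‖(n : ℂ)⁻¹ * hat e f v‖ ^ 2 = (n⁻¹) ^ 2 * ‖hat e f v‖ ^ 2 := by
    intro v
    rw [norm_mul, norm_inv, Complex.norm_real, Real.norm_eq_abs, abs_of_pos hn, mul_pow]
  simp only [h1]
  rw [← mul_sum]
  field_simp

theorem pr_compl [DecidableEq V] (h : Dual e n) (B : Finset V) (f : G → ℂ) (g : G) :
    f g = pr e n B f g + pr e n Bᶜ f g := by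
  rw [← pr_univ h f g]
  unfold pr
  rw [sum_add_sum_compl]

end TriAux

theorem parseval (h : Dual e n) (f : G → ℂ) :
    ∑ v, ‖hat e f v‖ ^ 2 = n * ∑ g, ‖f g‖ ^ 2 := by
  classical
  refine TriAux.syn (w := fun g v => conj (e v g)) (fun g g' => ?_) univ f
  have h1 := h.o1 g' g
  simp only [Complex.conj_conj]
  have h2 : ∑ v, conj (e v g) * e v g' = ∑ v, e v g' * conj (e v g) :=
    sum_congr rfl fun v _ => mul_comm _ _
  rw [h2, h1]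
  by_cases hh : g = g'
  · simp [hh]
  · simp [hh, Ne.symm hh]

theorem tri_B {f₁ f₂ Φ : G → ℂ} {a c m : ℝ} (hc : 0 ≤ c) (h1 : ∑ g, ‖f₁ g‖ ^ 2 ≤ c ^ 2 * a)
    (h2 : ∑ g, ‖f₂ g‖ ^ 2 ≤ a) (hm0 : 0 ≤ m) (hm : ∀ g, ‖Φ g‖ ≤ m) :
    ‖∑ g, f₁ g * f₂ g * Φ g‖ ≤ c * a * m := by
  have ha : 0 ≤ a := (sum_nonneg fun g _ => sq_nonneg _).trans h2
  have h3 : ∑ g, ‖f₁ g‖ * ‖f₂ g‖ ≤ c * a :=
    TriAux.cs univ _ _ (mul_nonneg hc ha) h1 h2 (le_of_eq (by ring))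
  calc ‖∑ g, f₁ g * f₂ g * Φ g‖ ≤ ∑ g, ‖f₁ g * f₂ g * Φ g‖ := norm_sum_le _ _
    _ ≤ ∑ g, ‖f₁ g‖ * ‖f₂ g‖ * m := by
        refine sum_le_sum fun g _ => ?_
        rw [norm_mul, norm_mul]
        exact mul_le_mul_of_nonneg_left (hm g) (by positivity)
    _ = (∑ g, ‖f₁ g‖ * ‖f₂ g‖) * m := by rw [sum_mul]
    _ ≤ c * a * m := mul_le_mul_of_nonneg_right h3 hm0

theorem tri_A [DecidableEq V] (h : Dual e n) {f₁ f₂ Φ : G → ℂ} (B₁ B₂ : Finset V) {a c m : ℝ}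
    (hc : 0 ≤ c) (h1 : ∑ g, ‖f₁ g‖ ^ 2 ≤ a) (h2 : ∑ g, ‖f₂ g‖ ^ 2 ≤ a)
    (o1 : ∑ v ∈ B₁ᶜ, ‖hat e f₁ v‖ ^ 2 ≤ n * (c ^ 2 * a))
    (o2 : ∑ v ∈ B₂ᶜ, ‖hat e f₂ v‖ ^ 2 ≤ n * (c ^ 2 * a)) (hm0 : 0 ≤ m) (hm : ∀ g, ‖Φ g‖ ≤ m) :
    ‖∑ g, f₁ g * f₂ g * Φ g‖ ≤
      2 * c * a * m + a / n * ∑ v ∈ image₂ (· * ·) B₁ B₂, ‖∑ g, Φ g * e v g‖ := by
  have hn := h.pos
  have ha : 0 ≤ a := (sum_nonneg fun g _ => sq_nonneg _).trans h1
  have hP1 : ∑ v, ‖hat e f₁ v‖ ^ 2 ≤ n * a := by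
    rw [parseval h]; exact mul_le_mul_of_nonneg_left h1 hn.le
  have hP2 : ∑ v, ‖hat e f₂ v‖ ^ 2 ≤ n * a := by
    rw [parseval h]; exact mul_le_mul_of_nonneg_left h2 hn.le
  have hq : ∀ (B : Finset V) (f : G → ℂ) (t : ℝ), ∑ v ∈ B, ‖hat e f v‖ ^ 2 ≤ n * t →
      ∑ g, ‖TriAux.pr e n B f g‖ ^ 2 ≤ t := by
    intro B f t ht
    rw [TriAux.pr_norm h]
    calc n⁻¹ * ∑ v ∈ B, ‖hat e f v‖ ^ 2 ≤ n⁻¹ * (n * t) :=
          mul_le_mul_of_nonneg_left ht (by positivity)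
      _ = t := by field_simp
  have e1 := hq B₁ᶜ f₁ _ o1
  have e2 := hq B₂ᶜ f₂ _ o2
  have e3 := hq B₁ f₁ a ((sum_le_sum_of_subset_of_nonneg (subset_univ _)
    fun v _ _ => sq_nonneg _).trans hP1)
  have t1 := tri_B (Φ := Φ) hc e1 h2 hm0 hm
  have t2 := tri_B (Φ := Φ) hc e2 e3 hm0 hm
  have hsplit : ∑ g, f₁ g * f₂ g * Φ g =
      (∑ g, TriAux.pr e n B₁ᶜ f₁ g * f₂ g * Φ g +
        ∑ g, TriAux.pr e n B₂ᶜ f₂ g * TriAux.pr e n B₁ f₁ g * Φ g) +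
      ∑ g, TriAux.pr e n B₁ f₁ g * TriAux.pr e n B₂ f₂ g * Φ g := by
    rw [← sum_add_distrib, ← sum_add_distrib]
    refine sum_congr rfl fun g _ => ?_
    have u1 := TriAux.pr_compl h B₁ f₁ g
    have u2 := TriAux.pr_compl h B₂ f₂ g
    linear_combination (f₂ g * Φ g) * u1 + (TriAux.pr e n B₁ f₁ g * Φ g) * u2
  have hmain : ∑ g, TriAux.pr e n B₁ f₁ g * TriAux.pr e n B₂ f₂ g * Φ g =
      ∑ x ∈ B₁ ×ˢ B₂, ((n : ℂ)⁻¹ * hat e f₁ x.1) * ((n : ℂ)⁻¹ * hat e f₂ x.2) *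
        ∑ g, Φ g * e (x.1 * x.2) g := by
    unfold TriAux.pr
    simp only [mul_sum]
    rw [sum_comm]
    refine sum_congr rfl fun g _ => ?_
    rw [sum_product, ← mul_sum, sum_mul_sum, sum_mul]
    refine sum_congr rfl fun v₁ _ => ?_
    rw [sum_mul]
    refine sum_congr rfl fun v₂ _ => ?_
    rw [h.mul]; ring
  have hb : ‖∑ g, TriAux.pr e n B₁ f₁ g * TriAux.pr e n B₂ f₂ g * Φ g‖ ≤
      a / n * ∑ v ∈ image₂ (· * ·) B₁ B₂, ‖∑ g, Φ g * e v g‖ := by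
    rw [hmain]
    refine (norm_sum_le _ _).trans ?_
    have hmap : ∀ x ∈ B₁ ×ˢ B₂, x.1 * x.2 ∈ image₂ (· * ·) B₁ B₂ := by
      intro x hx
      rw [mem_product] at hx
      exact mem_image₂_of_mem hx.1 hx.2
    rw [← sum_fiberwise_of_maps_to hmap, mul_sum]
    refine sum_le_sum fun v _ => ?_
    have hf : ∑ x ∈ (B₁ ×ˢ B₂).filter (fun x => x.1 * x.2 = v),
        ‖hat e f₁ x.1‖ * ‖hat e f₂ x.2‖ ≤ n * a := by
      refine TriAux.cs _ _ _ (mul_nonneg hn.le ha) (p := n * a) (q := n * a) ?_ ?_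
        (le_of_eq (by ring))
      · refine le_trans ?_ hP1
        rw [← sum_image (s := (B₁ ×ˢ B₂).filter (fun x => x.1 * x.2 = v)) (g := Prod.fst)
          (f := fun v => ‖hat e f₁ v‖ ^ 2)]
        · exact sum_le_sum_of_subset_of_nonneg (subset_univ _) fun v _ _ => sq_nonneg _
        · intro x hx y hy hxy
          have hx' := (mem_filter.1 hx).2
          have hy' := (mem_filter.1 hy).2
          refine Prod.ext hxy ?_
          have : x.1 * x.2 = x.1 * y.2 := by rw [hx', hxy, hy']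
          exact mul_left_cancel this
      · refine le_trans ?_ hP2
        rw [← sum_image (s := (B₁ ×ˢ B₂).filter (fun x => x.1 * x.2 = v)) (g := Prod.snd)
          (f := fun v => ‖hat e f₂ v‖ ^ 2)]
        · exact sum_le_sum_of_subset_of_nonneg (subset_univ _) fun v _ _ => sq_nonneg _
        · intro x hx y hy hxy
          have hx' := (mem_filter.1 hx).2
          have hy' := (mem_filter.1 hy).2
          refine Prod.ext ?_ hxy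
          have : x.1 * x.2 = y.1 * x.2 := by rw [hx', hxy, hy']
          exact mul_right_cancel this
    calc ∑ x ∈ (B₁ ×ˢ B₂).filter (fun x => x.1 * x.2 = v),
          ‖((n : ℂ)⁻¹ * hat e f₁ x.1) * ((n : ℂ)⁻¹ * hat e f₂ x.2) * ∑ g, Φ g * e (x.1 * x.2) g‖
        = ∑ x ∈ (B₁ ×ˢ B₂).filter (fun x => x.1 * x.2 = v),
          (‖hat e f₁ x.1‖ * ‖hat e f₂ x.2‖) * (n⁻¹ ^ 2 * ‖∑ g, Φ g * e v g‖) := by
          refine sum_congr rfl fun x hx => ?_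
          rw [(mem_filter.1 hx).2]
          simp only [norm_mul, norm_inv, Complex.norm_real, Real.norm_eq_abs, abs_of_pos hn]
          ring
      _ = (∑ x ∈ (B₁ ×ˢ B₂).filter (fun x => x.1 * x.2 = v),
          ‖hat e f₁ x.1‖ * ‖hat e f₂ x.2‖) * (n⁻¹ ^ 2 * ‖∑ g, Φ g * e v g‖) := by
          rw [sum_mul]
      _ ≤ (n * a) * (n⁻¹ ^ 2 * ‖∑ g, Φ g * e v g‖) :=
          mul_le_mul_of_nonneg_right hf (by positivity)
      _ = a / n * ‖∑ g, Φ g * e v g‖ := by field_simp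
  rw [hsplit]
  refine (norm_add_le _ _).trans (add_le_add ((norm_add_le _ _).trans ?_) hb)
  linarith

end Pool.Agent.P.MP_a9a441_nt.FU
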