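import Pool.Agent.P.MP_a9a441_nt.FU.Orth
import Pool.Agent.P.MP_a9a441_nt.FU.Tri

/-!
Norms and Fourier coefficients of `Th`. For fixed p and g the pairs (y, i) with low y p i = g
number at most W, since Ω ≤ N makes i unique and by `Mult` at w = g.1 + ap p. The l¹ norm is at
most card S. With Ψ₀ g = ∑_y [g = (ys y, ar y)] c y and Ψ g = Ω⁻¹ ∑_y ∑_i [g = (ys y - i, ar y)] c y:
hat Th v = π⁻¹ muh v * hat Ψ v, hat Ψ v = (Ω⁻¹ ∑_i stdAddChar (k i)) * hat Ψ₀ v (`ech_mul`),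
∑ ‖Ψ‖^2 ≤ W card S / Ω, ∑ ‖Ψ₀‖^2 ≤ W card S, ‖muh‖ ≤ π. Off `Bs` either ‖muh‖ < c π or, by `geo_le`,
‖Ω⁻¹ ∑_i‖ ≤ c / √Ω. Use `parseval`.
-/

namespace Pool.Agent.P.MP_a9a441_nt.FU

open Finset Filter Pool.Agent.Lib.LargeSieve
open scoped ComplexConjugate

variable {N q : ℕ} [NeZero N] [NeZero q] {Ps : Finset ℕ} {K : Cls q} {θ : ℕ → ℂ} {c : ℤ → ℂ}
  {W : ℝ}

namespace ThFAux

open Classical in
/-- The point masses spread over a window of length `L`. -/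
noncomputable def Ps0 (N : ℕ) (K : Cls q) (L : ℕ) (c : ℤ → ℂ) (g : GG N q) : ℂ :=
  ∑ y ∈ K.S, ∑ i ∈ range L, if (((K.ys y - i : ℤ) : ZMod N), K.ar y) = g then c y else 0

omit [NeZero N] [NeZero q] in
theorem W_nonneg (hW : K.Mult N W) : 0 ≤ W :=
  le_trans (Nat.cast_nonneg _) (hW 0)

omit [NeZero N] [NeZero q] in
theorem shift_inj {a : ℤ} {i j : ℕ} (hi : i < N) (hj : j < N)
    (h : ((a - i : ℤ) : ZMod N) = ((a - j : ℤ) : ZMod N)) : i = j := by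
  push_cast at h
  have h' : (i : ZMod N) = j := by linear_combination -h
  have := (ZMod.natCast_eq_natCast_iff' i j N).1 h'
  rwa [Nat.mod_eq_of_lt hi, Nat.mod_eq_of_lt hj] at this

omit [NeZero N] [NeZero q] in
open Classical in
theorem norm_Ps0_le {L : ℕ} (hL : L ≤ K.Ω) (hΩN : K.Ω ≤ N) (hW : K.Mult N W)
    (hc : ∀ y, ‖c y‖ ≤ 1) (g : GG N q) : ‖Ps0 N K L c g‖ ≤ W := by
  refine le_trans ?_ (hW g.1)
  unfold Ps0
  rw [card_filter, Nat.cast_sum]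
  refine (norm_sum_le _ _).trans (sum_le_sum fun y _ => ?_)
  by_cases hy : ∃ i ∈ range L, (((K.ys y - i : ℤ) : ZMod N), K.ar y) = g
  · obtain ⟨i, hi, hg⟩ := hy
    have hi' := mem_range.1 hi
    rw [sum_eq_single_of_mem i hi, if_pos hg, if_pos]
    · simpa using hc y
    · exact ⟨i, hi'.trans_le hL, congrArg Prod.fst hg⟩
    · intro j hj hji
      refine if_neg fun hg' => hji ?_
      have hj' := mem_range.1 hj
      exact shift_inj (N := N) (by omega) (by omega) (congrArg Prod.fst (hg'.trans hg.symm))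
  · rw [sum_eq_zero fun i hi => if_neg fun hg => hy ⟨i, hi, hg⟩, norm_zero]
    exact Nat.cast_nonneg _

open Classical in
theorem sum_norm_Ps0_le (L : ℕ) (hc : ∀ y, ‖c y‖ ≤ 1) :
    ∑ g, ‖Ps0 N K L c g‖ ≤ K.S.card * L := by
  calc ∑ g, ‖Ps0 N K L c g‖
      ≤ ∑ g : GG N q, ∑ y ∈ K.S, ∑ i ∈ range L,
          if (((K.ys y - i : ℤ) : ZMod N), K.ar y) = g then (1 : ℝ) else 0 := by
        refine sum_le_sum fun g _ => (norm_sum_le _ _).trans (sum_le_sum fun y _ =>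
          (norm_sum_le _ _).trans (sum_le_sum fun i _ => ?_))
        split_ifs
        · exact hc y
        · simp
    _ = ∑ y ∈ K.S, ∑ i ∈ range L, ∑ g : GG N q,
          if (((K.ys y - i : ℤ) : ZMod N), K.ar y) = g then (1 : ℝ) else 0 := by
        rw [sum_comm]
        exact sum_congr rfl fun y _ => sum_comm
    _ = K.S.card * L := by simp

theorem sum_sq_Ps0_le {L : ℕ} (hL : L ≤ K.Ω) (hΩN : K.Ω ≤ N) (hW : K.Mult N W)
    (hc : ∀ y, ‖c y‖ ≤ 1) : ∑ g, ‖Ps0 N K L c g‖ ^ 2 ≤ W * (K.S.card * L) := by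
  calc ∑ g, ‖Ps0 N K L c g‖ ^ 2 ≤ ∑ g, W * ‖Ps0 N K L c g‖ :=
        sum_le_sum fun g _ => by
          rw [sq]
          exact mul_le_mul_of_nonneg_right (norm_Ps0_le hL hΩN hW hc g) (norm_nonneg _)
    _ ≤ W * (K.S.card * L) := by
        rw [← mul_sum]
        exact mul_le_mul_of_nonneg_left (sum_norm_Ps0_le L hc) (W_nonneg hW)

/-- The translation attached to a prime. -/
noncomputable def tp (N q p : ℕ) : GG N q ≃ GG N q :=
  (Equiv.addRight ((ap (10 / N) p : ℤ) : ZMod N)).prodCongr (Equiv.mulLeft (un q p)⁻¹)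

omit [NeZero N] [NeZero q] in
theorem low_iff (y : ℤ) (p i : ℕ) (g : GG N q) :
    K.low N y p i = g ↔ (((K.ys y - i : ℤ) : ZMod N), K.ar y) = tp N q p g := by
  obtain ⟨w, b⟩ := g
  simp only [Cls.low, tp, Equiv.prodCongr_apply, Prod.map, Equiv.coe_addRight,
    Equiv.coe_mulLeft, Prod.mk.injEq]
  push_cast
  refine and_congr ⟨fun h => ?_, fun h => ?_⟩ eq_inv_mul_iff_mul_eq.symm
  · linear_combination h
  · linear_combination h

omit [NeZero N] [NeZero q] in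
theorem Th_eq (g : GG N q) : Th N Ps K θ c g = ((Ps.card : ℂ) * K.Ω)⁻¹ *
    ∑ p ∈ Ps.filter (fun p => p.Coprime q), θ p * Ps0 N K K.Ω c (tp N q p g) := by
  unfold Th Ps0
  congr 1
  refine sum_congr rfl fun p _ => ?_
  rw [mul_sum]
  refine sum_congr rfl fun y _ => ?_
  rw [mul_sum]
  refine sum_congr rfl fun i _ => ?_
  by_cases h : K.low N y p i = g
  · rw [if_pos h, if_pos ((low_iff y p i g).1 h)]
  · rw [if_neg h, if_neg fun h' => h ((low_iff y p i g).2 h'), mul_zero]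

omit [NeZero N] [NeZero q] in
theorem norm_Th_le' (hθ : ∀ p, ‖θ p‖ ≤ 1) (g : GG N q) : ‖Th N Ps K θ c g‖ ≤
    ((Ps.card : ℝ) * K.Ω)⁻¹ * ∑ p ∈ Ps, ‖Ps0 N K K.Ω c (tp N q p g)‖ := by
  rw [Th_eq, norm_mul, norm_inv, norm_mul, Complex.norm_natCast, Complex.norm_natCast]
  refine mul_le_mul_of_nonneg_left ((norm_sum_le _ _).trans ?_) (by positivity)
  refine le_trans (sum_le_sum fun p _ => ?_)
    (sum_le_sum_of_subset_of_nonneg (filter_subset _ _) fun _ _ _ => norm_nonneg _)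
  rw [norm_mul]
  exact mul_le_of_le_one_left (norm_nonneg _) (hθ p)

open Classical in
theorem hat_Ps0 (L : ℕ) (v : VV N q) : hat ech (Ps0 N K L c) v =
    ∑ y ∈ K.S, ∑ i ∈ range L, c y * conj (ech v (((K.ys y - i : ℤ) : ZMod N), K.ar y)) := by
  unfold hat Ps0
  simp only [sum_mul]
  rw [sum_comm]
  refine sum_congr rfl fun y _ => ?_
  rw [sum_comm]
  refine sum_congr rfl fun i _ => ?_
  simp only [ite_mul, zero_mul]
  rw [sum_ite_eq]
  simp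

theorem hat_Ps0_eq (L : ℕ) (v : VV N q) : hat ech (Ps0 N K L c) v =
    (∑ i ∈ range L, ZMod.stdAddChar (Multiplicative.toAdd v.1 * (i : ZMod N))) *
      hat ech (Ps0 N K 1 c) v := by
  rw [hat_Ps0, hat_Ps0, mul_sum]
  refine sum_congr rfl fun y _ => ?_
  rw [sum_range_one, sum_mul]
  refine sum_congr rfl fun i _ => ?_
  have e1 : (((K.ys y - i : ℤ) : ZMod N), K.ar y) =
      (((K.ys y - (0 : ℕ) : ℤ) : ZMod N) + -(i : ZMod N), K.ar y * 1) := by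
    refine Prod.ext ?_ (mul_one _).symm
    push_cast
    ring
  have e2 : conj (ech v (-(i : ZMod N), (1 : (ZMod q)ˣ))) =
      ZMod.stdAddChar (Multiplicative.toAdd v.1 * (i : ZMod N)) := by
    simp only [ech, Units.val_one, map_one, mul_one, mul_neg]
    rw [AddChar.map_neg_eq_conj, Complex.conj_conj]
  rw [e1, ech_mul, map_mul, e2]
  ring

theorem hat_Th (v : VV N q) : hat ech (Th N Ps K θ c) v =
    ((Ps.card : ℂ) * K.Ω)⁻¹ * (muh Ps θ v * hat ech (Ps0 N K K.Ω c) v) := by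
  have key : ∀ p : ℕ, ∑ g, Ps0 N K K.Ω c (tp N q p g) * conj (ech v g) =
      conj (ech v (((-ap (10 / N) p : ℤ) : ZMod N), un q p)) * hat ech (Ps0 N K K.Ω c) v := by
    intro p
    unfold hat
    rw [mul_sum, ← Equiv.sum_comp (tp N q p)
      (fun g => conj (ech v (((-ap (10 / N) p : ℤ) : ZMod N), un q p)) *
        (Ps0 N K K.Ω c g * conj (ech v g)))]
    refine sum_congr rfl fun g _ => ?_
    obtain ⟨w, b⟩ := g
    have e1 : ech v (w, b) = ech v (((-ap (10 / N) p : ℤ) : ZMod N), un q p) *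
        ech v (tp N q p (w, b)) := by
      have e2 : tp N q p (w, b) = (w + ((ap (10 / N) p : ℤ) : ZMod N), (un q p)⁻¹ * b) := rfl
      rw [e2, ← ech_mul]
      congr 2
      · push_cast
        ring
      · rw [mul_inv_cancel_left]
    rw [e1, map_mul]
    ring
  have h1 : hat ech (Th N Ps K θ c) v = ((Ps.card : ℂ) * K.Ω)⁻¹ *
      ∑ p ∈ Ps.filter (fun p => p.Coprime q),
        θ p * ∑ g, Ps0 N K K.Ω c (tp N q p g) * conj (ech v g) := by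
    unfold hat
    simp only [Th_eq, mul_sum, sum_mul]
    rw [sum_comm]
    exact sum_congr rfl fun p _ => sum_congr rfl fun g _ => by ring
  rw [h1, muh, sum_mul]
  congr 1
  exact sum_congr rfl fun p _ => by rw [key, mul_assoc]

theorem norm_muh_le (hθ : ∀ p, ‖θ p‖ ≤ 1) (v : VV N q) : ‖muh Ps θ v‖ ≤ Ps.card := by
  unfold muh
  refine (norm_sum_le _ _).trans ?_
  calc ∑ p ∈ Ps.filter (fun p => p.Coprime q),
        ‖θ p * conj (ech v (((-ap (10 / N) p : ℤ) : ZMod N), un q p))‖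
      ≤ ∑ p ∈ Ps.filter (fun p => p.Coprime q), (1 : ℝ) := sum_le_sum fun p _ => by
        rw [norm_mul, Complex.norm_conj, norm_ech, mul_one]
        exact hθ p
    _ ≤ Ps.card := by
        rw [sum_const, nsmul_eq_mul, mul_one]
        exact_mod_cast card_filter_le _ _

end ThFAux

open ThFAux

theorem norm_Th_le (hne : Ps.Nonempty) (hΩ : 1 ≤ K.Ω) (hΩN : K.Ω ≤ N) (hW : K.Mult N W)
    (hθ : ∀ p, ‖θ p‖ ≤ 1) (hc : ∀ y, ‖c y‖ ≤ 1) (g : GG N q) : ‖Th N Ps K θ c g‖ ≤ W / K.Ω := by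
  have hπ : (0 : ℝ) < Ps.card := by exact_mod_cast hne.card_pos
  have hΩ' : (0 : ℝ) < K.Ω := by exact_mod_cast hΩ
  refine (norm_Th_le' hθ g).trans ?_
  calc ((Ps.card : ℝ) * K.Ω)⁻¹ * ∑ p ∈ Ps, ‖Ps0 N K K.Ω c (tp N q p g)‖
      ≤ ((Ps.card : ℝ) * K.Ω)⁻¹ * ∑ p ∈ Ps, W :=
        mul_le_mul_of_nonneg_left (sum_le_sum fun p _ => norm_Ps0_le le_rfl hΩN hW hc _)
          (by positivity)
    _ = W / K.Ω := by
        rw [sum_const, nsmul_eq_mul]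
        field_simp

theorem sum_norm_Th_le (hne : Ps.Nonempty) (hΩ : 1 ≤ K.Ω) (hθ : ∀ p, ‖θ p‖ ≤ 1)
    (hc : ∀ y, ‖c y‖ ≤ 1) : ∑ g, ‖Th N Ps K θ c g‖ ≤ K.S.card := by
  have hπ : (0 : ℝ) < Ps.card := by exact_mod_cast hne.card_pos
  have hΩ' : (0 : ℝ) < K.Ω := by exact_mod_cast hΩ
  refine (sum_le_sum fun g _ => norm_Th_le' hθ g).trans ?_
  rw [← mul_sum, sum_comm]
  calc ((Ps.card : ℝ) * K.Ω)⁻¹ * ∑ p ∈ Ps, ∑ g, ‖Ps0 N K K.Ω c (tp N q p g)‖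
      ≤ ((Ps.card : ℝ) * K.Ω)⁻¹ * ∑ p ∈ Ps, ((K.S.card : ℝ) * K.Ω) := by
        refine mul_le_mul_of_nonneg_left (sum_le_sum fun p _ => ?_) (by positivity)
        rw [Equiv.sum_comp (tp N q p) fun g => ‖Ps0 N K K.Ω c g‖]
        exact sum_norm_Ps0_le _ hc
    _ = K.S.card := by
        rw [sum_const, nsmul_eq_mul]
        field_simp

theorem sum_sq_Th_le (hne : Ps.Nonempty) (hΩ : 1 ≤ K.Ω) (hΩN : K.Ω ≤ N) (hW : K.Mult N W)
    (hθ : ∀ p, ‖θ p‖ ≤ 1) (hc : ∀ y, ‖c y‖ ≤ 1) :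
    ∑ g, ‖Th N Ps K θ c g‖ ^ 2 ≤ W * K.S.card / K.Ω := by
  have hW0 := W_nonneg hW
  calc ∑ g, ‖Th N Ps K θ c g‖ ^ 2 ≤ ∑ g, W / K.Ω * ‖Th N Ps K θ c g‖ :=
        sum_le_sum fun g _ => by
          rw [sq]
          exact mul_le_mul_of_nonneg_right (norm_Th_le hne hΩ hΩN hW hθ hc g) (norm_nonneg _)
    _ ≤ W / K.Ω * K.S.card := by
        rw [← mul_sum]
        exact mul_le_mul_of_nonneg_left (sum_norm_Th_le hne hΩ hθ hc) (by positivity)
    _ = W * K.S.card / K.Ω := by ring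

theorem norm_hat_Th_le (hne : Ps.Nonempty) (hΩ : 1 ≤ K.Ω) (hθ : ∀ p, ‖θ p‖ ≤ 1)
    (hc : ∀ y, ‖c y‖ ≤ 1) (v : VV N q) : ‖hat ech (Th N Ps K θ c) v‖ ≤ K.S.card := by
  refine le_trans ?_ (sum_norm_Th_le (N := N) hne hΩ hθ hc)
  unfold hat
  refine (norm_sum_le _ _).trans (sum_le_sum fun g _ => ?_)
  rw [norm_mul, Complex.norm_conj, norm_ech, mul_one]

open Classical in
theorem off_Bs (hne : Ps.Nonempty) (hΩ : 1 ≤ K.Ω) (hΩN : K.Ω ≤ N) (hW : K.Mult N W)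
    (hθ : ∀ p, ‖θ p‖ ≤ 1) (hc : ∀ y, ‖c y‖ ≤ 1) {c₀ : ℝ} (h0 : 0 < c₀) :
    ∑ v ∈ (Bs N q Ps θ c₀ K.Ω)ᶜ, ‖hat ech (Th N Ps K θ c) v‖ ^ 2 ≤
      (N : ℝ) * q.totient * (2 * c₀ ^ 2 * (W * K.S.card / K.Ω)) := by
  have hπ : (0 : ℝ) < Ps.card := by exact_mod_cast hne.card_pos
  have hΩ' : (0 : ℝ) < K.Ω := by exact_mod_cast hΩ
  have hN : (0 : ℝ) < N := by exact_mod_cast Nat.pos_of_ne_zero (NeZero.ne N)
  have hpt : ∀ v ∈ (Bs N q Ps θ c₀ K.Ω)ᶜ, ‖hat ech (Th N Ps K θ c) v‖ ^ 2 ≤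
      (c₀ / K.Ω) ^ 2 * ‖hat ech (Ps0 N K K.Ω c) v‖ ^ 2 +
        c₀ ^ 2 / K.Ω * ‖hat ech (Ps0 N K 1 c) v‖ ^ 2 := by
    intro v hv
    have hn : ‖hat ech (Th N Ps K θ c) v‖ =
        ((Ps.card : ℝ) * K.Ω)⁻¹ * (‖muh Ps θ v‖ * ‖hat ech (Ps0 N K K.Ω c) v‖) := by
      rw [hat_Th, norm_mul, norm_mul, norm_inv, norm_mul, Complex.norm_natCast,
        Complex.norm_natCast]
    rw [mem_compl, Bs, mem_filter, not_and_or, not_and_or] at hv
    rcases hv with hv | hv | hv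
    · exact absurd (mem_univ v) hv
    · have h1 : ‖hat ech (Th N Ps K θ c) v‖ ≤ c₀ / K.Ω * ‖hat ech (Ps0 N K K.Ω c) v‖ := by
        rw [hn]
        calc _ ≤ ((Ps.card : ℝ) * K.Ω)⁻¹ * (c₀ * Ps.card * ‖hat ech (Ps0 N K K.Ω c) v‖) := by
              gcongr
              exact (not_le.1 hv).le
          _ = _ := by field_simp
      have h2 := pow_le_pow_left₀ (norm_nonneg _) h1 2
      rw [mul_pow] at h2
      have h3 : 0 ≤ c₀ ^ 2 / K.Ω * ‖hat ech (Ps0 N K 1 c) v‖ ^ 2 := by positivity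
      linarith
    · have hv' := not_le.1 hv
      have hg := geo_le (Multiplicative.toAdd v.1) K.Ω
      have hk : 0 < |((Multiplicative.toAdd v.1).valMinAbs : ℝ)| := by
        refine lt_of_le_of_ne (abs_nonneg _) fun h => ?_
        rw [← h, mul_zero] at hv'
        linarith
      have hG : ‖∑ i ∈ range K.Ω, ZMod.stdAddChar (Multiplicative.toAdd v.1 * (i : ZMod N))‖ ≤
          c₀ * √K.Ω := by
        refine le_of_mul_le_mul_left ?_ hk
        linarith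
      have h1 : ‖hat ech (Th N Ps K θ c) v‖ ≤
          c₀ * √K.Ω / K.Ω * ‖hat ech (Ps0 N K 1 c) v‖ := by
        rw [hn, hat_Ps0_eq, norm_mul]
        calc _ ≤ ((Ps.card : ℝ) * K.Ω)⁻¹ *
              (Ps.card * (c₀ * √K.Ω * ‖hat ech (Ps0 N K 1 c) v‖)) := by
              gcongr
              exact norm_muh_le hθ v
          _ = _ := by field_simp
      have h2 := pow_le_pow_left₀ (norm_nonneg _) h1 2
      have h4 : (c₀ * √K.Ω / K.Ω) ^ 2 = c₀ ^ 2 / K.Ω := by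
        rw [div_pow, mul_pow, Real.sq_sqrt hΩ'.le]
        field_simp
      rw [mul_pow, h4] at h2
      have h3 : 0 ≤ (c₀ / K.Ω) ^ 2 * ‖hat ech (Ps0 N K K.Ω c) v‖ ^ 2 := by positivity
      linarith
  have a1 := sum_sq_Ps0_le (c := c) le_rfl hΩN hW hc
  have a2 := sum_sq_Ps0_le (c := c) hΩ hΩN hW hc
  calc _ ≤ _ := sum_le_sum hpt
    _ ≤ ∑ v, ((c₀ / K.Ω) ^ 2 * ‖hat ech (Ps0 N K K.Ω c) v‖ ^ 2 +
        c₀ ^ 2 / K.Ω * ‖hat ech (Ps0 N K 1 c) v‖ ^ 2) :=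
        sum_le_sum_of_subset_of_nonneg (subset_univ _) fun _ _ _ => by positivity
    _ = (c₀ / K.Ω) ^ 2 * ((N : ℝ) * q.totient * ∑ g, ‖Ps0 N K K.Ω c g‖ ^ 2) +
        c₀ ^ 2 / K.Ω * ((N : ℝ) * q.totient * ∑ g, ‖Ps0 N K 1 c g‖ ^ 2) := by
        rw [sum_add_distrib, ← mul_sum, ← mul_sum, parseval dual_ech, parseval dual_ech]
    _ ≤ (c₀ / K.Ω) ^ 2 * ((N : ℝ) * q.totient * (W * (K.S.card * K.Ω))) +
        c₀ ^ 2 / K.Ω * ((N : ℝ) * q.totient * (W * (K.S.card * (1 : ℕ)))) := by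
        gcongr
    _ = _ := by
        push_cast
        field_simp
        ring

end Pool.Agent.P.MP_a9a441_nt.FU
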