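import Pool.Agent.P.MP_a9a441_nt.FU.Spec
import Pool.Agent.P.MP_a9a441_nt.FU.ThF
import Pool.Agent.P.MP_a9a441_nt.FU.PhiF

/-!
The upper bound for one class; a = W card S / Ω, n = N φ(q). If φ(q) ≥ Z^2: by `parseval`,
`off_Bs`, `norm_hat_Th_le` and card Bs ≤ Z, ∑ ‖Th₁‖^2 ≤ 2 c^2 a + Z (card S)^2 / n ≤ 3 c^2 a; use
`tri_B`. Otherwise q ≤ 2 Z^4 (`le_two_totient_sq`); use `tri_A` with √2 c, `tilde_Phi` with
k = valMinAbs (|k| ≤ 2 N / (c √Ω) on the product set by `ZMod.natAbs_valMinAbs_add_le`, √Ω ≥ X),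
and `Wt.l1` for the image of the product set under the injective map v ↦ (valMinAbs, χ).
-/

namespace Pool.Agent.P.MP_a9a441_nt.FU

open Finset Filter Pool.Agent.Lib.LargeSieve
open scoped ComplexConjugate

namespace UBAux

theorem abs_vm_add {N : ℕ} [NeZero N] (a b : ZMod N) :
    |(((a + b).valMinAbs : ℤ) : ℝ)| ≤ |((a.valMinAbs : ℤ) : ℝ)| + |((b.valMinAbs : ℤ) : ℝ)| := by
  have h := ZMod.natAbs_valMinAbs_add_le a b
  have h1 : |(a + b).valMinAbs| ≤ |a.valMinAbs + b.valMinAbs| := by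
    rw [Int.abs_eq_natAbs, Int.abs_eq_natAbs]
    exact_mod_cast h
  have h2 : |(a + b).valMinAbs| ≤ |a.valMinAbs| + |b.valMinAbs| := h1.trans (abs_add_le _ _)
  exact_mod_cast h2

theorem abs_vm_le {N : ℕ} [NeZero N] (a : ZMod N) : |a.valMinAbs| ≤ (N : ℤ) := by
  have h := ZMod.natAbs_valMinAbs_le a
  have h2 : a.valMinAbs.natAbs ≤ N := h.trans (Nat.div_le_self _ _)
  rw [Int.abs_eq_natAbs]
  exact_mod_cast h2

theorem mem_Bs_le {X N q Ω : ℕ} [NeZero N] [NeZero q] {Ps : Finset ℕ} {θ : ℕ → ℂ} {c : ℝ}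
    (c0 : 0 < c) (hΩ : X ^ 2 ≤ Ω) {v : VV N q} (hv : v ∈ Bs N q Ps θ c Ω) :
    c * X * |(((Multiplicative.toAdd v.1).valMinAbs : ℤ) : ℝ)| ≤ N := by
  have h := (Finset.mem_filter.1 hv).2.2
  have h1 : (X : ℝ) ≤ √(Ω : ℝ) := by
    apply Real.le_sqrt_of_sq_le
    exact_mod_cast hΩ
  refine le_trans ?_ h
  gcongr

open Classical in
theorem sum_prod_le {X N q R Ω : ℕ} [NeZero N] [NeZero q] (hN : N = 10 * X ^ 10) (hX : 1 ≤ X)
    {M G Z ε₅ ε₆ T c : ℝ} {g : ℕ → ℝ} (wt : Wt X M G Z ε₅ ε₆ g) (hG : 1 ≤ G)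
    (hR : 1 ≤ R) (hM' : 16 ≤ M) (hT : |T| ≤ (X : ℝ) ^ 9) {Ps : Finset ℕ} (hΩ : X ^ 2 ≤ Ω)
    (c0 : 0 < c) (hq : (q : ℝ) ≤ 2 * Z ^ 4) {θ₁ θ₂ : ℕ → ℂ}
    (hB₁ : ((Bs N q Ps θ₁ c Ω).card : ℝ) ≤ Z) (hB₂ : ((Bs N q Ps θ₂ c Ω).card : ℝ) ≤ Z) :
    ∑ v ∈ image₂ (· * ·) (Bs N q Ps θ₁ c Ω) (Bs N q Ps θ₂ c Ω),
      ‖∑ x, Phi N R T M g x * ech v x‖ ≤
      N / 10 * (ε₅ * q.totient + Z ^ 2 * (84 / (c * X) * G * q.totient)) := by
  set B := image₂ (· * ·) (Bs N q Ps θ₁ c Ω) (Bs N q Ps θ₂ c Ω) with hB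
  have hZ : 0 ≤ Z := le_trans (Nat.cast_nonneg _) hB₁
  have hX0 : (0 : ℝ) < X := by exact_mod_cast hX
  have hN0 : (0 : ℝ) < N := by exact_mod_cast Nat.pos_of_ne_zero (NeZero.ne N)
  have hcX : 0 < c * X := mul_pos c0 hX0
  have hcard : (B.card : ℝ) ≤ Z ^ 2 := by
    have h := Finset.card_image₂_le (· * ·) (Bs N q Ps θ₁ c Ω) (Bs N q Ps θ₂ c Ω)
    have h2 : (B.card : ℝ) ≤
        ((Bs N q Ps θ₁ c Ω).card : ℝ) * ((Bs N q Ps θ₂ c Ω).card : ℝ) := by exact_mod_cast h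
    refine h2.trans ?_
    rw [sq]
    exact mul_le_mul hB₁ hB₂ (Nat.cast_nonneg _) hZ
  let F : VV N q → ℤ × DirichletCharacter ℂ q :=
    fun v => ((Multiplicative.toAdd v.1).valMinAbs, v.2)
  have hF : Function.Injective F := by
    intro v w h
    have h1 : (Multiplicative.toAdd v.1).valMinAbs = (Multiplicative.toAdd w.1).valMinAbs :=
      congrArg Prod.fst h
    have h2 : v.2 = w.2 := (Prod.ext_iff.1 h).2
    have h3 : Multiplicative.toAdd v.1 = Multiplicative.toAdd w.1 := ZMod.valMinAbs_inj.1 h1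
    exact Prod.ext (Multiplicative.toAdd.injective h3) h2
  let L : ℤ × DirichletCharacter ℂ q → ℝ := fun u =>
    ‖∑ m ∈ Ms M, (g m : ℂ) * lam m / m * ee (((u.1 : ℝ) / 10 - T) * Real.log m) * cchi u.2 m‖
  have hl1 : ∑ v ∈ B, L (F v) ≤ ε₅ * q.totient := by
    have h := wt.l1 q T (B.image F) hq hT (by
      rw [Finset.card_image_of_injective _ hF]; exact hcard) (by
      intro u hu
      obtain ⟨v, _, rfl⟩ := Finset.mem_image.1 hu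
      have h := abs_vm_le (Multiplicative.toAdd v.1)
      have h2 : (N : ℤ) = 10 * (X : ℤ) ^ 10 := by rw [hN]; push_cast; ring
      rw [← h2]
      exact h)
    rw [Finset.sum_image fun x _ y _ hxy => hF hxy] at h
    exact h
  have hk : ∀ v ∈ B, 42 * |(((Multiplicative.toAdd v.1).valMinAbs : ℤ) : ℝ)| / N ≤
      84 / (c * X) := by
    intro v hv
    obtain ⟨v₁, h₁, v₂, h₂, rfl⟩ := Finset.mem_image₂.1 hv
    have e1 := mem_Bs_le c0 hΩ h₁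
    have e2 := mem_Bs_le c0 hΩ h₂
    have e3 := abs_vm_add (Multiplicative.toAdd v₁.1) (Multiplicative.toAdd v₂.1)
    have e4 : Multiplicative.toAdd (v₁ * v₂).1 =
        Multiplicative.toAdd v₁.1 + Multiplicative.toAdd v₂.1 := rfl
    rw [e4, div_le_div_iff₀ hN0 hcX]
    have e5 := mul_le_mul_of_nonneg_left e3 hcX.le
    nlinarith
  have hterm : ∀ v ∈ B, ‖∑ x, Phi N R T M g x * ech v x‖ ≤
      N / 10 * (L (F v) + 84 / (c * X) * G * q.totient) := by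
    intro v hv
    have h := tilde_Phi (T := T) hR hM' wt.nonneg wt.le v (Multiplicative.toAdd v.1).valMinAbs
      (ZMod.coe_valMinAbs _)
    refine h.trans ?_
    have h2 := hk v hv
    have h3 : 42 * |(((Multiplicative.toAdd v.1).valMinAbs : ℤ) : ℝ)| / N * G * q.totient ≤
        84 / (c * X) * G * q.totient := by gcongr
    exact mul_le_mul_of_nonneg_left (add_le_add le_rfl h3) (by positivity)
  refine (Finset.sum_le_sum hterm).trans ?_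
  rw [← Finset.mul_sum, Finset.sum_add_distrib, Finset.sum_const, nsmul_eq_mul]
  refine mul_le_mul_of_nonneg_left (add_le_add hl1 ?_) (by positivity)
  exact mul_le_mul_of_nonneg_right hcard (by positivity)

open Classical in
theorem sq_small {N q : ℕ} [NeZero N] [NeZero q] {Ps : Finset ℕ} (hne : Ps.Nonempty) (K : Cls q)
    {W c Z : ℝ} (hΩ : 1 ≤ K.Ω) (hΩN : K.Ω ≤ N) (hW : K.Mult N W)
    (hS : (K.S.card : ℝ) * K.Ω ≤ W * N) (c0 : 0 < c) (cZ : 1 ≤ c ^ 2 * Z) {θ : ℕ → ℂ}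
    {d : ℤ → ℂ} (hθ : ∀ p, ‖θ p‖ ≤ 1) (hd : ∀ y, ‖d y‖ ≤ 1)
    (hB : ((Bs N q Ps θ c K.Ω).card : ℝ) ≤ Z) (hq : Z ^ 2 ≤ q.totient) :
    ∑ x, ‖Th N Ps K θ d x‖ ^ 2 ≤ (2 * c) ^ 2 * (W * K.S.card / K.Ω) := by
  set a : ℝ := W * K.S.card / K.Ω with ha
  have hW0 : 0 ≤ W := le_trans (Nat.cast_nonneg _) (hW 0)
  have hΩ0 : (0 : ℝ) < K.Ω := by exact_mod_cast hΩ
  have ha0 : 0 ≤ a := by positivity
  have hN0 : (0 : ℝ) < N := by exact_mod_cast Nat.pos_of_ne_zero (NeZero.ne N)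
  have hZ0 : 0 < Z := by
    by_contra h
    push Not at h
    nlinarith [sq_nonneg c]
  have hn : (0 : ℝ) < (N : ℝ) * q.totient := (dual_ech (N := N) (q := q)).pos
  have hp := parseval (dual_ech (N := N) (q := q)) (Th N Ps K θ d)
  have hoff := off_Bs hne hΩ hΩN hW hθ hd c0
  have hon : ∑ v ∈ Bs N q Ps θ c K.Ω, ‖hat ech (Th N Ps K θ d) v‖ ^ 2 ≤
      Z * (K.S.card : ℝ) ^ 2 := by
    have h : ∀ v ∈ Bs N q Ps θ c K.Ω, ‖hat ech (Th N Ps K θ d) v‖ ^ 2 ≤ (K.S.card : ℝ) ^ 2 :=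
      fun v _ => pow_le_pow_left₀ (norm_nonneg _) (norm_hat_Th_le hne hΩ hθ hd v) 2
    refine (Finset.sum_le_sum h).trans ?_
    rw [Finset.sum_const, nsmul_eq_mul]
    exact mul_le_mul_of_nonneg_right hB (by positivity)
  have hsplit := Finset.sum_add_sum_compl (Bs N q Ps θ c K.Ω)
    fun v => ‖hat ech (Th N Ps K θ d) v‖ ^ 2
  have h1 : (K.S.card : ℝ) ^ 2 ≤ a * N := by
    rw [ha, div_mul_eq_mul_div, le_div_iff₀ hΩ0]
    have := mul_le_mul_of_nonneg_left hS (Nat.cast_nonneg (α := ℝ) K.S.card)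
    nlinarith
  have h2 : Z ≤ c ^ 2 * q.totient := by
    have h3 : c ^ 2 * Z ^ 2 ≤ c ^ 2 * q.totient := by gcongr
    nlinarith
  have h4 : Z * (K.S.card : ℝ) ^ 2 ≤ (c ^ 2 * q.totient) * (a * N) :=
    mul_le_mul h2 h1 (by positivity) (by positivity)
  have h5 : (N : ℝ) * q.totient * ∑ x, ‖Th N Ps K θ d x‖ ^ 2 ≤
      (N : ℝ) * q.totient * ((2 * c) ^ 2 * a) := by
    rw [← hp, ← hsplit]
    have h6 : 0 ≤ (N : ℝ) * q.totient * (c ^ 2 * a) := by positivity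
    nlinarith
  exact le_of_mul_le_mul_left h5 hn

end UBAux

theorem ub {X N q R : ℕ} [NeZero N] [NeZero q] (hN : N = 10 * X ^ 10) (hX : 1 ≤ X)
    {M G Z ε₅ ε₆ T W c : ℝ} {g : ℕ → ℝ} (wt : Wt X M G Z ε₅ ε₆ g) (hG : 1 ≤ G) (hε : 0 ≤ ε₅)
    (hR : 1 ≤ R) (hRN : (R : ℝ) * (10 / N) ≤ 1) (hM : 4 ≤ M * (R * (10 / N))) (hM' : 16 ≤ M)
    (hT : |T| ≤ (X : ℝ) ^ 9) {Ps : Finset ℕ} (hne : Ps.Nonempty) (K : Cls q)
    (hΩ : X ^ 2 ≤ K.Ω) (hΩN : K.Ω ≤ N) (hW : K.Mult N W) (hS : (K.S.card : ℝ) * K.Ω ≤ W * N)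
    (c0 : 0 < c) (c1 : c ≤ 1) (cZ : 1 ≤ c ^ 2 * Z) {θ₁ θ₂ : ℕ → ℂ} {c₁ c₂ : ℤ → ℂ}
    (hθ₁ : ∀ p, ‖θ₁ p‖ ≤ 1) (hθ₂ : ∀ p, ‖θ₂ p‖ ≤ 1) (hc₁ : ∀ y, ‖c₁ y‖ ≤ 1)
    (hc₂ : ∀ y, ‖c₂ y‖ ≤ 1) (hB₁ : ((Bs N q Ps θ₁ c K.Ω).card : ℝ) ≤ Z)
    (hB₂ : ((Bs N q Ps θ₂ c K.Ω).card : ℝ) ≤ Z) :
    K.Ω * ‖∑ x, Th N Ps K θ₁ c₁ x * Th N Ps K θ₂ c₂ x * Phi N R T M g x‖ ≤
      W * K.S.card * (12 * c * G + ε₅ + 100 * Z ^ 2 * G / (c * X)) := by
  classical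
  set a : ℝ := W * K.S.card / K.Ω with ha
  have hΩ1 : 1 ≤ K.Ω := le_trans (Nat.one_le_pow _ _ hX) hΩ
  have hW0 : 0 ≤ W := le_trans (Nat.cast_nonneg _) (hW 0)
  have hΩ0 : (0 : ℝ) < K.Ω := by exact_mod_cast hΩ1
  have ha0 : 0 ≤ a := by positivity
  have hX0 : (0 : ℝ) < X := by exact_mod_cast hX
  have hN0 : (0 : ℝ) < N := by exact_mod_cast Nat.pos_of_ne_zero (NeZero.ne N)
  have hG0 : 0 ≤ G := by linarith
  have hm : ∀ x : GG N q, ‖Phi N R T M g x‖ ≤ 4 * G :=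
    norm_Phi_le hR hRN hM wt.nonneg wt.le
  have h1 := sum_sq_Th_le hne hΩ1 hΩN hW hθ₁ hc₁
  have h2 := sum_sq_Th_le hne hΩ1 hΩN hW hθ₂ hc₂
  have key : ‖∑ x, Th N Ps K θ₁ c₁ x * Th N Ps K θ₂ c₂ x * Phi N R T M g x‖ ≤
      a * (12 * c * G + ε₅ + 100 * Z ^ 2 * G / (c * X)) := by
    have hp : 0 ≤ Z ^ 2 * G / (c * X) := by positivity
    have he : 100 * Z ^ 2 * G / (c * X) = 100 * (Z ^ 2 * G / (c * X)) := by ring
    rcases le_total (Z ^ 2) (q.totient : ℝ) with hq | hq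
    · have h3 := UBAux.sq_small hne K hΩ1 hΩN hW hS c0 cZ hθ₁ hc₁ hB₁ hq
      have h4 := tri_B (by positivity) h3 h2 (by positivity) hm
      refine h4.trans ?_
      have h5 : 0 ≤ c * G := by positivity
      have h6 : 2 * c * a * (4 * G) = a * (8 * (c * G)) := by ring
      rw [h6, he]
      refine mul_le_mul_of_nonneg_left ?_ ha0
      nlinarith
    · have hq4 : (q : ℝ) ≤ 2 * Z ^ 4 := by
        have h3 : (q : ℝ) ≤ 2 * (q.totient : ℝ) ^ 2 := by exact_mod_cast le_two_totient_sq q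
        have h4 : (q.totient : ℝ) ^ 2 ≤ (Z ^ 2) ^ 2 := by gcongr
        nlinarith
      have hn : (0 : ℝ) < (N : ℝ) * q.totient := (dual_ech (N := N) (q := q)).pos
      have hφ : (0 : ℝ) < q.totient := by
        by_contra h
        push Not at h
        nlinarith
      have hc2 : (N : ℝ) * q.totient * (2 * c ^ 2 * a) ≤
          (N : ℝ) * q.totient * ((3 / 2 * c) ^ 2 * a) := by
        refine mul_le_mul_of_nonneg_left (mul_le_mul_of_nonneg_right ?_ ha0) hn.le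
        nlinarith [sq_nonneg c]
      have o1 := (off_Bs hne hΩ1 hΩN hW hθ₁ hc₁ c0).trans hc2
      have o2 := (off_Bs hne hΩ1 hΩN hW hθ₂ hc₂ c0).trans hc2
      have h4 := tri_A (dual_ech (N := N) (q := q)) _ _ (by positivity) h1 h2 o1 o2
        (by positivity) hm
      have h5 := UBAux.sum_prod_le hN hX wt hG hR hM' hT hΩ c0 hq4 hB₁ hB₂
      refine h4.trans ?_
      have h6 := mul_le_mul_of_nonneg_left h5 (div_nonneg ha0 hn.le)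
      have h7 : a / ((N : ℝ) * q.totient) *
          (N / 10 * (ε₅ * q.totient + Z ^ 2 * (84 / (c * X) * G * q.totient))) =
          a * (ε₅ / 10 + 84 / 10 * (Z ^ 2 * G / (c * X))) := by
        field_simp
      rw [h7] at h6
      have h8 : a * (ε₅ / 10 + 84 / 10 * (Z ^ 2 * G / (c * X))) ≤
          a * (ε₅ + 100 * (Z ^ 2 * G / (c * X))) := by
        refine mul_le_mul_of_nonneg_left ?_ ha0
        linarith
      rw [he]
      nlinarith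
  have h9 : W * K.S.card = K.Ω * a := by
    rw [ha]
    field_simp
  rw [h9, mul_assoc]
  exact mul_le_mul_of_nonneg_left key hΩ0.le

end Pool.Agent.P.MP_a9a441_nt.FU
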