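import Pool.Agent.P.MP_a9a441_nt.FU.Defs

/-!
Words over a finite alphabet. Everything is by induction on the length.
`count_prod`: if one word `l₀` has product `u`, every such word has its letters in
`l₀.toFinset`. `count_overlap`: f(h+1,k+1) ≤ |S| f(h,k) + |A| f(h,k+1), so
f(h,k) |A|^k ≤ choose h k |S|^k |A|^h, and choose h k ≤ h^k.
-/

namespace Pool.Agent.P.MP_a9a441_nt.FU

open Finset Filter Pool.Agent.Lib.LargeSieve
open scoped ComplexConjugate

variable {α : Type*} [DecidableEq α]

theorem mem_words {A : Finset α} {n : ℕ} {l : List α} :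
    l ∈ words A n ↔ l.length = n ∧ ∀ x ∈ l, x ∈ A := by
  induction n generalizing l with
  | zero =>
    simp only [words, mem_singleton, List.length_eq_zero_iff]
    exact ⟨fun h => ⟨h, by simp [h]⟩, fun h => h.1⟩
  | succ n ih =>
    simp only [words, mem_image, mem_product, ih]
    constructor
    · rintro ⟨x, ⟨h1, h2, h3⟩, rfl⟩
      exact ⟨by simp [h2], List.forall_mem_cons.2 ⟨h1, h3⟩⟩
    · rintro ⟨h1, h2⟩
      cases l with
      | nil => simp at h1
      | cons a l =>
        rw [List.forall_mem_cons] at h2
        exact ⟨(a, l), ⟨h2.1, by simpa using h1, h2.2⟩, rfl⟩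

theorem sum_words_succ {M : Type*} [AddCommMonoid M] (A : Finset α) (n : ℕ) (f : List α → M) :
    ∑ l ∈ words A (n + 1), f l = ∑ a ∈ A, ∑ l ∈ words A n, f (a :: l) := by
  rw [words, sum_image, sum_product]
  rintro ⟨a, l⟩ - ⟨b, m⟩ - h
  simpa using h

theorem sum_words_append {M : Type*} [AddCommMonoid M] (A : Finset α) (m n : ℕ)
    (f : List α → M) :
    ∑ l ∈ words A (m + n), f l = ∑ l₁ ∈ words A m, ∑ l₂ ∈ words A n, f (l₁ ++ l₂) := by
  induction m generalizing f with
  | zero => simp [words]
  | succ m ih =>
    rw [Nat.add_right_comm, sum_words_succ, sum_words_succ]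
    exact sum_congr rfl fun a _ => ih fun l => f (a :: l)

theorem sum_words_snoc {M : Type*} [AddCommMonoid M] (A : Finset α) (n : ℕ) (f : List α → M) :
    ∑ l ∈ words A (n + 1), f l = ∑ l ∈ words A n, ∑ a ∈ A, f (l ++ [a]) := by
  rw [sum_words_append]
  refine sum_congr rfl fun l _ => ?_
  rw [sum_words_succ]
  simp [words]

theorem card_words (A : Finset α) (n : ℕ) : (words A n).card = A.card ^ n := by
  induction n with
  | zero => simp [words]
  | succ n ih =>
    rw [card_eq_sum_ones, sum_words_succ]
    simp [ih, pow_succ, mul_comm]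

theorem pow_sum_eq {R : Type*} [CommSemiring R] (A : Finset α) (n : ℕ) (f : α → R) :
    (∑ a ∈ A, f a) ^ n = ∑ l ∈ words A n, (l.map f).prod := by
  induction n with
  | zero => simp [words]
  | succ n ih =>
    rw [sum_words_succ, pow_succ', ih, sum_mul_sum]
    simp

theorem sum_words_zip {M β : Type*} [AddCommMonoid M] [DecidableEq β] (A : Finset α)
    (B : Finset β) (n : ℕ) (f : List (α × β) → M) :
    ∑ l ∈ words (A ×ˢ B) n, f l = ∑ U ∈ words B n, ∑ D ∈ words A n, f (D.zip U) := by
  induction n generalizing f with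
  | zero => simp [words]
  | succ n ih =>
    rw [sum_words_succ, sum_words_succ, sum_product, sum_comm]
    refine sum_congr rfl fun b _ => ?_
    simp only [sum_words_succ, List.zip_cons_cons]
    exact (sum_congr rfl fun a _ => ih fun l => f ((a, b) :: l)).trans sum_comm

theorem count_prod {Ps : Finset ℕ} (h : ∀ p ∈ Ps, p.Prime) (n u : ℕ) :
    ((words Ps n).filter fun l => l.prod = u).card ≤ n ^ n := by
  rcases ((words Ps n).filter fun l => l.prod = u).eq_empty_or_nonempty with h0 | ⟨l₀, h0⟩
  · simp [h0]
  rw [mem_filter, mem_words] at h0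
  have h1 : ((words Ps n).filter fun l => l.prod = u) ⊆ words l₀.toFinset n := by
    intro l hl
    rw [mem_filter, mem_words] at hl
    refine mem_words.2 ⟨hl.1.1, fun p hp => ?_⟩
    have h2 : p ∣ l₀.prod := by
      rw [h0.2, ← hl.2]
      exact List.dvd_prod hp
    obtain ⟨q, h3, h4⟩ := (Prime.dvd_prod_iff (h p (hl.1.2 p hp)).prime).1 h2
    rw [(Nat.prime_dvd_prime_iff_eq (h p (hl.1.2 p hp)) (h q (h0.1.2 q h3))).1 h4]
    exact List.mem_toFinset.2 h3
  refine (card_le_card h1).trans ?_
  rw [card_words]
  exact Nat.pow_le_pow_left (h0.1.1 ▸ List.toFinset_card_le l₀) n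

namespace WordsAux

theorem step (A S : Finset α) (h k : ℕ) :
    ((words A (h + 1)).filter fun l => k + 1 ≤ l.countP fun x => decide (x ∈ S)).card ≤
      S.card * ((words A h).filter fun l => k ≤ l.countP fun x => decide (x ∈ S)).card +
      A.card * ((words A h).filter fun l => k + 1 ≤ l.countP fun x => decide (x ∈ S)).card := by
  rw [card_filter, sum_words_succ]
  have h1 : ∀ a ∈ A, (∑ l ∈ words A h,
      if k + 1 ≤ (a :: l).countP fun x => decide (x ∈ S) then 1 else 0) ≤
      (if a ∈ S then ((words A h).filter fun l => k ≤ l.countP fun x => decide (x ∈ S)).card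
        else 0) + ((words A h).filter fun l => k + 1 ≤ l.countP fun x => decide (x ∈ S)).card := by
    intro a _
    by_cases ha : a ∈ S
    · rw [if_pos ha, card_filter]
      refine le_trans (le_of_eq (sum_congr rfl fun l _ => ?_)) (Nat.le_add_right _ _)
      simp [ha]
    · rw [if_neg ha, zero_add, card_filter]
      refine le_of_eq (sum_congr rfl fun l _ => ?_)
      simp [ha]
  refine (sum_le_sum h1).trans ?_
  rw [sum_add_distrib, sum_const, smul_eq_mul, ← sum_filter, sum_const, smul_eq_mul]
  exact Nat.add_le_add_right (Nat.mul_le_mul_right _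
    (card_le_card fun a ha => (mem_filter.1 ha).2)) _

theorem overlap (A S : Finset α) (h k : ℕ) :
    ((words A h).filter fun l => k ≤ l.countP fun x => decide (x ∈ S)).card * A.card ^ k ≤
      h.choose k * S.card ^ k * A.card ^ h := by
  induction h generalizing k with
  | zero =>
    cases k with
    | zero => simp [words]
    | succ k => simp [words]
  | succ h ih =>
    cases k with
    | zero => simp [card_words]
    | succ k =>
      refine (Nat.mul_le_mul_right _ (step A S h k)).trans ?_
      have h1 := Nat.mul_le_mul_left (S.card * A.card) (ih k)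
      have h2 := Nat.mul_le_mul_left A.card (ih (k + 1))
      rw [Nat.choose_succ_succ']
      refine le_trans (le_of_eq ?_) ((Nat.add_le_add h1 h2).trans (le_of_eq ?_)) <;> ring

end WordsAux

theorem count_overlap (A S : Finset α) (h k : ℕ) :
    ((words A h).filter fun l => k ≤ l.countP fun x => decide (x ∈ S)).card * A.card ^ k ≤
      (h * S.card) ^ k * A.card ^ h := by
  refine (WordsAux.overlap A S h k).trans (Nat.mul_le_mul_right _ ?_)
  rw [mul_pow]
  exact Nat.mul_le_mul_right _ (Nat.choose_le_pow h k)

end Pool.Agent.P.MP_a9a441_nt.FU
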